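import Pool.Agent.Lib.MP_5d4057_al.HM.CocSub
import Pool.Agent.Lib.MP_5d4057_al.NU.SelB

/-!
# RG A5: finite generation
-/

set_option autoImplicit false

namespace Pool.Agent.Lib.MP_5d4057_al.RG

open Matrix Filter Topology Pool.Agent.Lib.MP_5d4057_al Pool.Agent.Lib.MP_5d4057_al.Hyb
  Pool.Agent.Lib.MP_5d4057_al.HM Pool.Agent.Lib.MP_5d4057_al.NU

variable {n : ℕ}

private theorem fg_word {Γ : Subgroup (SUGroup n)} {F : Set (SUGroup n)} {K : Set (SUGroup n)}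
    (hcov : ∀ g, ∃ γ ∈ Γ, γ * g ∈ F) (S : Subgroup Γ)
    (hM1 : ∀ γ : Γ, (∃ f ∈ F, ∃ f' ∈ F, ∃ y ∈ K, (γ : SUGroup n) * f' = f * y) → γ ∈ S)
    (h1K : (1 : SUGroup n) ∈ K) (l : List (SUGroup n)) (hl : ∀ y ∈ l, y ∈ K) :
    ∀ f ∈ F, ∀ f' ∈ F, ∀ γ : Γ, f * l.prod = γ * f' → γ ∈ S := by
  induction l with
  | nil =>
    intro f hf f' hf' γ h
    refine hM1 γ ⟨f, hf, f', hf', 1, h1K, ?_⟩
    rw [← h, List.prod_nil]
  | cons y l ih =>
    intro f hf f' hf' γ h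
    have hy := hl y List.mem_cons_self
    have hl' := fun z hz => hl z (List.mem_cons_of_mem y hz)
    obtain ⟨σ, hσF⟩ : ∃ σ : Γ, (σ : SUGroup n) * (f * y) ∈ F := by
      obtain ⟨σ, hσ, h⟩ := hcov (f * y)
      exact ⟨⟨σ, hσ⟩, h⟩
    have e0 : (σ : SUGroup n) * (f * y) * l.prod = (σ : SUGroup n) * (f * (y * l.prod)) := by
      simp only [mul_assoc]
    have e1 : (σ : SUGroup n) * (f * y) * l.prod = ((σ * γ : Γ) : SUGroup n) * f' := by
      rw [e0, ← List.prod_cons, h, Subgroup.coe_mul, mul_assoc]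
    have h1 := ih hl' _ hσF f' hf' (σ * γ) e1
    have h2 : σ⁻¹ ∈ S := by
      refine hM1 _ ⟨f, hf, _, hσF, y, hy, ?_⟩
      rw [Subgroup.coe_inv]
      exact inv_mul_cancel_left _ _
    have h3 : γ = σ⁻¹ * (σ * γ) := (inv_mul_cancel_left σ γ).symm
    rw [h3]
    exact S.mul_mem h2 h1

private theorem fg_zero (g : SUGroup 0) : g = 1 := by
  apply toMatrix_injective
  have h : g.toMatrix.det = 1 := g.1.2
  rw [toMatrix_one]
  have hs : Subsingleton (Fin (0 + 1)) := inferInstanceAs (Subsingleton (Fin 1))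
  ext i j
  have hi : i = 0 := Subsingleton.elim _ _
  have hj : j = 0 := Subsingleton.elim _ _
  subst hi hj
  rw [det_fin_one] at h
  rw [h, Matrix.one_apply_eq]

/-- A cocompact lattice is finitely generated. PROOF: the group is connected enough: every `g ∈ SU(n,1)` is a product
`k₀ a k₁` with `ch k_i = 1` and `a` in a one parameter group (`exists_kak`...), so for `R` large the ball `B = {ch ≤ R}` satisfies
`G = ∪ Bʲ`, with `K ⊆ B`, `K` the compact set of `Coc`; the finite set `S = Γ ∩ K B K⁻¹` generates: for `γ ∈ Γ` write `γ = b_1 ⋯ b_N`, and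
`γ_i b_1 ⋯ b_i ∈ K`: `γ_i γ_(i+1)⁻¹ ∈ Γ ∩ K B⁻¹ K⁻¹`. (This is the proof of `HM.rho_growth` in HM/Cut.lean, `cut_word`: copy it.) -/
theorem fg_of_coc {Γ : Subgroup (SUGroup n)} (h : Coc Γ) : Group.FG Γ := by
  rcases Nat.eq_zero_or_pos n with hn | hn
  · subst hn
    have h1 : ∀ g : Γ, g = 1 := fun g => Subtype.ext (fg_zero _)
    refine Group.fg_iff.2 ⟨∅, ?_, Set.finite_empty⟩
    rw [eq_top_iff]
    intro g _
    rw [h1 g]
    exact Subgroup.one_mem _
  obtain ⟨F₀, hF₀, hcov₀⟩ := h.cpt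
  set F : Set (SUGroup n) := insert 1 F₀ with hFdef
  have hF : IsCompact F := hF₀.insert 1
  have h1F : (1 : SUGroup n) ∈ F := Set.mem_insert _ _
  have hcov : ∀ g, ∃ γ ∈ Γ, γ * g ∈ F := by
    intro g
    obtain ⟨γ, hγ, h⟩ := hcov₀ g
    exact ⟨γ, hγ, Set.mem_insert_of_mem _ h⟩
  set K : Set (SUGroup n) := {x | ch x ≤ 3} with hK
  have hKc : IsCompact K := isCompact_ball 3
  have h1K : (1 : SUGroup n) ∈ K := by
    show ch (1 : SUGroup n) ≤ 3
    rw [ch_one]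
    norm_num
  have hKK : IsCompact ((fun p : (SUGroup n × SUGroup n) × SUGroup n => p.1.1 * p.2 * p.1.2⁻¹) ''
      ((F ×ˢ F) ×ˢ K)) := ((hF.prod hF).prod hKc).image (by fun_prop)
  have hfin := finite_inter h hKK
  refine Group.fg_iff.2 ⟨_, ?_, hfin⟩
  rw [eq_top_iff]
  intro γ _
  set S := Subgroup.closure {γ : Γ | (γ : SUGroup n) ∈
    ((fun p : (SUGroup n × SUGroup n) × SUGroup n => p.1.1 * p.2 * p.1.2⁻¹) '' ((F ×ˢ F) ×ˢ K))}
    with hS
  have hM1 : ∀ γ : Γ, (∃ f ∈ F, ∃ f' ∈ F, ∃ y ∈ K, (γ : SUGroup n) * f' = f * y) → γ ∈ S := by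
    rintro γ ⟨f, hf, f', hf', y, hy, h⟩
    refine Subgroup.subset_closure ⟨((f, f'), y), ⟨⟨hf, hf'⟩, hy⟩, ?_⟩
    show f * y * f'⁻¹ = γ
    rw [← h, mul_assoc, mul_inv_cancel, mul_one]
  obtain ⟨N, hN⟩ := pow_unbounded_of_one_lt (wt (γ : SUGroup n)) (by norm_num : (1 : ℝ) < 3)
  obtain ⟨l, hlen, hprod, hwt⟩ := exists_factor hn (γ : SUGroup n) (N + 1) (by omega)
  have hlK : ∀ y ∈ l, y ∈ K := by
    intro y hy
    have h2 := hwt y hy
    refine (ch_le_wt y).trans ?_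
    by_contra h3
    push Not at h3
    have h4 : (3 : ℝ) ^ (N + 1) ≤ wt y ^ (N + 1) := pow_le_pow_left₀ (by norm_num) h3.le _
    have h5 : (3 : ℝ) ^ N ≤ 3 ^ (N + 1) := pow_le_pow_right₀ (by norm_num) (Nat.le_succ N)
    rw [h2] at h4
    linarith
  exact fg_word hcov S hM1 h1K l hlK 1 h1F 1 h1F γ (by rw [hprod, one_mul, mul_one])

/-- The entries of a finitely generated group lie in a finitely generated ring. -/
theorem fgg_of_fg {G : Subgroup (SUGroup n)} (h : G.FG) : FGG G := by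
  obtain ⟨S, rfl⟩ := h
  set T : Set (SUGroup n) := (S : Set (SUGroup n)) ∪ (S : Set (SUGroup n))⁻¹ with hT
  have hTf : T.Finite := S.finite_toSet.union S.finite_toSet.inv
  have h1 : FGE (SUGroup.toMatrix '' T) := FGE.of_finite (hTf.image _)
  refine FGE.mono h1.closure ?_
  rintro _ ⟨g, hg, rfl⟩
  have hg' : g ∈ Submonoid.closure T := by
    rw [hT, ← Subgroup.closure_toSubmonoid]
    exact hg
  show g.toMatrix ∈ Submonoid.closure (SUGroup.toMatrix '' T)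
  refine Submonoid.closure_induction
    (motive := fun g _ => g.toMatrix ∈ Submonoid.closure (SUGroup.toMatrix '' T)) ?_ ?_ ?_ hg'
  · intro x hx
    exact Submonoid.subset_closure ⟨x, hx, rfl⟩
  · rw [toMatrix_one]
    exact Submonoid.one_mem _
  · intro x y _ _ hx hy
    rw [toMatrix_mul]
    exact Submonoid.mul_mem _ hx hy

end Pool.Agent.Lib.MP_5d4057_al.RG
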