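import Pool.Agent.Lib.MP_5d4057_al.RG.FinA
import Pool.Agent.Lib.MP_5d4057_al.RG.FG
import Pool.Agent.Lib.MP_5d4057_al.CF.AmalC

/-!
# RG A8: the theorem for the amalgam (owner: helper53)
-/

set_option autoImplicit false

namespace Pool.Agent.Lib.MP_5d4057_al.RG

open Matrix Filter Topology Pool.Agent.Lib.MP_5d4057_al Pool.Agent.Lib.MP_5d4057_al.Hyb
  Pool.Agent.Lib.MP_5d4057_al.HM Pool.Agent.Lib.MP_5d4057_al.NU

variable {m n : ℕ}

/-- The image of a homomorphism from the amalgam is generated by the images of the factors. -/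
theorem range_eq_iSup {k n : ℕ} {Γ₃ : Subgroup (SUGroup k)}
    {Γ : Fin 2 → Subgroup (SUGroup (k + 1))} {ι : ∀ b, Γ₃ →* Γ b}
    (ρ : Monoid.PushoutI ι →* SUGroup n) :
    ρ.range = ⨆ b, (ρ.comp (Monoid.PushoutI.of b)).range := by
  apply le_antisymm
  · rintro _ ⟨w, rfl⟩
    induction w using Monoid.PushoutI.induction_on with
    | of b x => exact Subgroup.mem_iSup_of_mem b ⟨x, rfl⟩
    | base x =>
      rw [← Monoid.PushoutI.of_apply_eq_base ι 0 x]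
      exact Subgroup.mem_iSup_of_mem 0 ⟨ι 0 x, rfl⟩
    | mul x y hx hy =>
      rw [map_mul]
      exact Subgroup.mul_mem _ hx hy
  · refine iSup_le fun b => ?_
    rintro _ ⟨x, rfl⟩
    exact ⟨Monoid.PushoutI.of b x, rfl⟩

theorem amalgam_rig (k : ℕ) (hk : 1 ≤ k) (Γ₃ : Subgroup (SUGroup k))
    (Γ : Fin 2 → Subgroup (SUGroup (k + 1))) (h₃ : IsLattice Γ₃) (hL : ∀ b, IsLattice (Γ b))
    (hA : ∀ b, IsArith (k + 1) (Γ b)) (hΓ : ∀ b, GeoV (Γ b)) (hfg : ∀ b, Group.FG (Γ b))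
    (ι : ∀ b, Γ₃ →* Γ b) (hι : ∀ b, Function.Injective (ι b))
    (ρ : Monoid.PushoutI ι →* SUGroup (k + 2))
    (hinj : ∀ b, Function.Injective (ρ.comp (Monoid.PushoutI.of b)))
    (hfin : ∀ b, FinCh (ρ.comp (Monoid.PushoutI.of b)))
    (hlat : IsLattice ρ.range) : IsArith (k + 2) ρ.range := by
  have hG := range_eq_iSup ρ
  have hf : FGG ρ.range := by
    rw [hG]
    refine CF.fgg_iSup fun b => fgg_of_fg ?_
    have h1 := hfg b
    exact (Group.fg_iff_subgroup_fg _).1 (Group.fg_range _)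
  have h1 : ∀ b, ∃ (Λ : Subgroup (SUGroup (k + 1))) (g : SUGroup (k + 2)), IsLattice Λ ∧
      IsArith (k + 1) Λ ∧ Subgroup.Commensurable (Λ.map (emb g))
        (ρ.comp (Monoid.PushoutI.of b)).range := fun b =>
    piece_comm (by omega) (hL b) (hA b) (hΓ b) hlat hf _ (hinj b) (by
      rw [hG]
      exact le_iSup (fun b => (ρ.comp (Monoid.PushoutI.of b)).range) b) (hfin b)
  choose Λ g hΛ hΛA hc using h1
  exact CF.amalgam_cf k hk Γ₃ Γ h₃ ι hι ρ hinj Λ g hΛ hΛA hc hlat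

/-- The theorem for cocompact factors. -/
theorem amalgam_coc (k : ℕ) (hk : 1 ≤ k) (Γ₃ : Subgroup (SUGroup k))
    (Γ : Fin 2 → Subgroup (SUGroup (k + 1))) (h₃ : IsLattice Γ₃)
    (hA : ∀ b, IsArith (k + 1) (Γ b)) (hΓ : ∀ b, Coc (Γ b))
    (hL : ∀ b, IsLattice (Γ b))
    (ι : ∀ b, Γ₃ →* Γ b) (hι : ∀ b, Function.Injective (ι b))
    (ρ : Monoid.PushoutI ι →* SUGroup (k + 2))
    (hinj : ∀ b, Function.Injective (ρ.comp (Monoid.PushoutI.of b)))
    (hfin : ∀ b, FinCh (ρ.comp (Monoid.PushoutI.of b)))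
    (hlat : IsLattice ρ.range) : IsArith (k + 2) ρ.range :=
  amalgam_rig k hk Γ₃ Γ h₃ hL hA (fun b => geoV_of_geo (geo_of_coc (by omega) (hΓ b)))
    (fun b => fg_of_coc (hΓ b)) ι hι ρ hinj hfin hlat

end Pool.Agent.Lib.MP_5d4057_al.RG
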