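import Pool.Agent.Lib.MP_5d4057_al.RG.CpT1
import Pool.Agent.Lib.MP_5d4057_al.RG.FG

/-!
# RG C9: lattices are finitely generated
-/

set_option autoImplicit false

namespace Pool.Agent.Lib.MP_5d4057_al.RG

open Matrix Filter Topology Metric Pool.Agent.Lib.MP_5d4057_al Pool.Agent.Lib.MP_5d4057_al.Hyb
  Pool.Agent.Lib.MP_5d4057_al.HM Pool.Agent.Lib.MP_5d4057_al.HM.Kak Pool.Agent.Lib.MP_5d4057_al.NU

variable {m : ℕ} {Γ : Subgroup (SUGroup m)}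

/-- The stabiliser of a cusp is generated by a finite set. -/
private theorem fn_St (hd : DiscreteTopology Γ) {ξ : Fin m → ℂ} (hP : Par Γ ξ) {R : ℝ}
    (hc : ∀ g ∈ PS ξ, ∃ γ ∈ Γ, γ ∈ St ξ ∧ ch (γ * g) ≤ R) :
    ∃ S : Set (SUGroup m), S.Finite ∧ (∀ s ∈ S, s ∈ Γ) ∧
      ∀ γ ∈ Γ, γ ∈ St ξ → γ ∈ Subgroup.closure S := by
  have hξ : nq ξ = 1 := hP.1
  have hdΛ : DiscreteTopology (Γ ⊓ PS ξ : Subgroup (SUGroup m)) := by
    have := hd
    exact DiscreteTopology.of_subset (s := (Γ : Set (SUGroup m))) inferInstance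
      (fun x hx => hx.1)
  have hcΛ : ∀ g ∈ PS ξ, ∃ δ ∈ Γ ⊓ PS ξ, ch (δ * g) ≤ R := by
    intro g hg
    obtain ⟨γ, h1, h2, h3⟩ := hc g hg
    exact ⟨γ, ⟨h1, hP.2 γ h1 h2⟩, h3⟩
  obtain ⟨S₀, C, hS₀, hS₀Λ, hw⟩ := exists_word hξ hdΛ inf_le_right hcΛ
  refine ⟨S₀, hS₀, fun s hs => (hS₀Λ s hs).1, fun γ h1 h2 => ?_⟩
  obtain ⟨l, h3, h4, -⟩ := hw γ ⟨h1, hP.2 γ h1 h2⟩
  rw [← h4]
  exact Subgroup.list_prod_mem _ fun x hx => Subgroup.subset_closure (h3 x hx)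

/-- the elements mapping the line of `ξ'` to the line of a transvection -/
private theorem fn_line {χ : SUGroup m → ℝ} (hL : Lat Γ χ) (hT : TF Γ)
    (hTor : Tor Γ) {γ : SUGroup m} {ξ : Fin m → ℂ} {κ : ℝ} (hγ : γ ∈ Γ) (h : IsTv γ ξ κ)
    {ξ' : Fin m → ℂ} (hξ' : nq ξ' = 1) :
    ∃ S : Set (SUGroup m), S.Finite ∧ (∀ s ∈ S, s ∈ Γ) ∧
      ∀ η ∈ Γ, mv η ξ' = ξ → η ∈ Subgroup.closure S := by
  have hd := hL.disc
  have hξ : nq ξ = 1 := h.1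
  obtain ⟨R, X, hR⟩ := exists_rays hL hT
  have hP := h.par hd hγ
  obtain ⟨R', hc⟩ := horo hT hTor hd hR hP ⟨γ, hγ, h.ne_one, h.mem_St⟩
  obtain ⟨S, hS, hSΓ, hSc⟩ := fn_St hd hP hc
  by_cases hδ : ∃ δ ∈ Γ, mv δ ξ' = ξ
  · obtain ⟨δ, hδΓ, hδ⟩ := hδ
    refine ⟨insert δ S, hS.insert δ, ?_, fun η hη hm => ?_⟩
    · intro s hs
      rcases hs with rfl | hs
      · exact hδΓ
      · exact hSΓ s hs
    have h1 : mv δ⁻¹ ξ = ξ' := by rw [← hδ, mv_inv_mv hξ']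
    have h2 : η * δ⁻¹ ∈ St ξ := by
      rw [mem_St hξ, mv_mul hξ, h1, hm]
    have h3 := hSc (η * δ⁻¹) (Γ.mul_mem hη (Γ.inv_mem hδΓ)) h2
    have h4 : η * δ⁻¹ ∈ Subgroup.closure (insert δ S) :=
      Subgroup.closure_mono (Set.subset_insert δ S) h3
    have h5 : δ ∈ Subgroup.closure (insert δ S) :=
      Subgroup.subset_closure (Set.mem_insert δ S)
    have h6 := (Subgroup.closure (insert δ S)).mul_mem h4 h5
    rwa [inv_mul_cancel_right] at h6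
  · exact ⟨∅, Set.finite_empty, fun s hs => absurd hs (Set.notMem_empty s),
      fun η hη hm => absurd ⟨η, hη, hm⟩ hδ⟩

/-- finitely many lines of transvections with small displacement on a ball -/
private theorem fn_lines (hd : DiscreteTopology Γ) (hT : TF Γ) (R : ℝ) :
    {ξ : Fin m → ℂ | ∃ γ ∈ Γ, ∃ κ : ℝ, IsTv γ ξ κ ∧ ∃ f : SUGroup m, ch f ≤ R ∧
      ds f γ ≤ 1 / 32}.Finite := by
  have h1 := finite_ds hd R (1 / 32)
  refine (h1.biUnion (t := fun γ => {ξ : Fin m → ℂ | γ ∈ Γ ∧ ∃ κ : ℝ, IsTv γ ξ κ}) ?_).subset ?_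
  · intro γ _
    refine Set.Subsingleton.finite ?_
    rintro ξ ⟨hγ, κ, h⟩ ξ' ⟨_, κ', h'⟩
    exact ((h.par hd hγ).unique hT hγ h.ne_one h.mem_St h'.1 h'.mem_St).symm
  · rintro ξ ⟨γ, hγ, κ, h, f, hf, hds⟩
    exact Set.mem_biUnion (⟨hγ, f, hf, hds⟩ : γ ∈ {γ : SUGroup m | γ ∈ Γ ∧
      ∃ g : SUGroup m, ch g ≤ R ∧ ds g γ ≤ 1 / 32}) ⟨hγ, κ, h⟩

/-- PROOF: the induction of `grow_rhoT` (NU/CuspN) with `γ ∈ H` instead of the bound for the norm, `H` = the subgroup generated by the (finite) set of all `γ ∈ Γ` with `ch γ ≤ R₀` and by the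
sets `{η ∈ Γ | mv η ξ' = ξ}`, `ξ, ξ' ∈ X`, each of which is a coset of `Γ ∩ St ξ`, a finitely generated group (`exists_unip`, `exists_word`). -/
theorem fg_of_tor (hm : 2 ≤ m) {χ : SUGroup m → ℝ} (hL : Lat Γ χ) (hT : TF Γ) (hTor : Tor Γ) :
    Group.FG Γ := by
  have hd := hL.disc
  have hHt := ht_hty hm hL hT hTor
  set Y : SUGroup m → ℝ := fun g => hty Γ (act g (base m)) with hY
  set R₁ : ℝ := max 64 (Y 1) with hR₁
  have hR64 : 64 ≤ R₁ := le_max_left _ _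
  obtain ⟨R', hcpt⟩ := hty_cpt hm hL hT hTor R₁
  set R : ℝ := max R' 1 with hR
  have hR1 : 1 ≤ R := le_max_right _ _
  have hcpt' : ∀ g : SUGroup m, Y g ≤ R₁ → ∃ γ ∈ Γ, ch (γ * g) ≤ R := fun g hg => by
    obtain ⟨γ, hγ, h⟩ := hcpt g hg
    exact ⟨γ, hγ, h.trans (le_max_left _ _)⟩
  set X : Set (Fin m → ℂ) := {ξ : Fin m → ℂ | ∃ γ ∈ Γ, ∃ κ : ℝ, IsTv γ ξ κ ∧
    ∃ f : SUGroup m, ch f ≤ R ∧ ds f γ ≤ 1 / 32} with hX
  have hXf : X.Finite := fn_lines hd hT R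
  -- the generators
  have hgen : ∀ a : (Fin m → ℂ) × (Fin m → ℂ), ∃ S : Set (SUGroup m), a ∈ X ×ˢ X →
      (S.Finite ∧ (∀ s ∈ S, s ∈ Γ) ∧ ∀ η ∈ Γ, mv η a.2 = a.1 → η ∈ Subgroup.closure S) := by
    intro a
    by_cases ha : a ∈ X ×ˢ X
    · obtain ⟨⟨γ, hγ, κ, h, -⟩, ⟨γ', hγ', κ', h', -⟩⟩ := ha
      obtain ⟨S, hS⟩ := fn_line hL hT hTor hγ h h'.1
      exact ⟨S, fun _ => hS⟩
    · exact ⟨∅, fun h => absurd h ha⟩
  choose S₂ hS₂ using hgen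
  set S : Set (SUGroup m) := {γ : SUGroup m | γ ∈ Γ ∧ ch γ ≤ 4 * R ^ 2 * Real.exp 1} ∪
    ⋃ a ∈ X ×ˢ X, S₂ a with hS
  have hSf : S.Finite := (finite_ch hd _).union
    ((hXf.prod hXf).biUnion fun a ha => (hS₂ a ha).1)
  have hSΓ : ∀ s ∈ S, s ∈ Γ := by
    rintro s (hs | hs)
    · exact hs.1
    · obtain ⟨a, ha, hs'⟩ := Set.mem_iUnion₂.1 hs
      exact (hS₂ a ha).2.1 s hs'
  set H : Subgroup (SUGroup m) := Subgroup.closure S with hH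
  have hH1 : ∀ γ ∈ Γ, ch γ ≤ 4 * R ^ 2 * Real.exp 1 → γ ∈ H := fun γ h1 h2 =>
    Subgroup.subset_closure (Or.inl ⟨h1, h2⟩)
  have hH2 : ∀ ξ ∈ X, ∀ ξ' ∈ X, ∀ η ∈ Γ, mv η ξ' = ξ → η ∈ H := by
    intro ξ hξ ξ' hξ' η hη hm
    have h1 := (hS₂ (ξ, ξ') ⟨hξ, hξ'⟩).2.2 η hη hm
    refine Subgroup.closure_mono ?_ h1
    intro s hs
    exact Or.inr (Set.mem_biUnion (⟨hξ, hξ'⟩ : (ξ, ξ') ∈ X ×ˢ X) hs)
  -- the composition bound
  have hcomp : ∀ (ζ : Fin m → ℂ) (x y : SUGroup m) (s s' : ℝ), ch (x⁻¹ * fl ζ s) ≤ R →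
      ch (y⁻¹ * fl ζ s') ≤ R → s ≤ s' → ch (x⁻¹ * y) ≤ 4 * R ^ 2 * Real.exp (s' - s) := by
    intro ζ x y s s' h1 h2 h3
    have e : x⁻¹ * y = (x⁻¹ * fl ζ s) * fl ζ (s' - s) * (y⁻¹ * fl ζ s')⁻¹ := by
      have e1 : fl ζ s' = fl ζ s * fl ζ (s' - s) := by
        rw [← fl_add]
        congr 1
        ring
      rw [e1]
      group
    have h4 := ch_le_wt (x⁻¹ * y)
    have h5 := wt_mul_le ((x⁻¹ * fl ζ s) * fl ζ (s' - s)) (y⁻¹ * fl ζ s')⁻¹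
    have h6 := wt_mul_le (x⁻¹ * fl ζ s) (fl ζ (s' - s))
    rw [← e, wt_inv] at h5
    have h7 := wt_fl_le ζ (s' - s)
    rw [abs_of_nonneg (by linarith)] at h7
    have h8 := wt_le (x⁻¹ * fl ζ s)
    have h9 := wt_le (y⁻¹ * fl ζ s')
    have p1 := one_le_wt (x⁻¹ * fl ζ s)
    have p2 := one_le_wt (y⁻¹ * fl ζ s')
    have p3 := one_le_wt (fl ζ (s' - s))
    calc ch (x⁻¹ * y) ≤ wt (x⁻¹ * fl ζ s * fl ζ (s' - s)) * wt (y⁻¹ * fl ζ s') := h4.trans h5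
      _ ≤ (wt (x⁻¹ * fl ζ s) * wt (fl ζ (s' - s))) * wt (y⁻¹ * fl ζ s') := by gcongr
      _ ≤ (2 * R * Real.exp (s' - s)) * (2 * R) := by
          gcongr
          · linarith
          · linarith
      _ = _ := by ring
  have hbd1 : ∀ (ζ : Fin m → ℂ) (x y : SUGroup m) (s s' : ℝ), x ∈ Γ → y ∈ Γ →
      ch (x⁻¹ * fl ζ s) ≤ R → ch (y⁻¹ * fl ζ s') ≤ R → s ≤ s' → s' ≤ s + 1 →
      x⁻¹ * y ∈ H := by
    intro ζ x y s s' hx hy h1 h2 h3 h4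
    refine hH1 _ (Γ.mul_mem (Γ.inv_mem hx) hy) ((hcomp ζ x y s s' h1 h2 h3).trans ?_)
    have : Real.exp (s' - s) ≤ Real.exp 1 := Real.exp_le_exp.2 (by linarith)
    gcongr
  have hone : ∀ ζ : Fin m → ℂ, ch ((1 : SUGroup m)⁻¹ * fl ζ 0) ≤ R := by
    intro ζ
    rw [fl_zero, inv_one, one_mul, ch_one]
    exact hR1
  have hY1 : Y 1 ≤ R₁ := le_max_right _ _
  have hYinv : ∀ γ ∈ Γ, ∀ g, Y (γ * g) = Y g := by
    intro γ hγ g
    simp only [hY]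
    rw [act_mul, hHt.inv γ hγ _ (orbit_mem g)]
  -- the claim
  have claim : ∀ (ζ : Fin m → ℂ), nq ζ = 1 → ∀ (N : ℕ) (τ : ℝ) (γ' : SUGroup m), 0 ≤ τ →
      τ < N + 1 → γ' ∈ Γ → ch (γ'⁻¹ * fl ζ τ) ≤ R → Y (fl ζ τ) ≤ R₁ → γ' ∈ H := by
    intro ζ hζ N
    have hbase : ∀ (τ : ℝ) (γ' : SUGroup m), 0 ≤ τ → τ < 1 → γ' ∈ Γ →
        ch (γ'⁻¹ * fl ζ τ) ≤ R → γ' ∈ H := by
      intro τ γ' h0 h1 hγ' hch
      have h2 := hbd1 ζ 1 γ' 0 τ Γ.one_mem hγ' (hone ζ) hch h0 (by linarith)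
      rwa [inv_one, one_mul] at h2
    induction N with
    | zero =>
      intro τ γ' h0 h1 hγ' hch _
      exact hbase τ γ' h0 (by simpa using h1) hγ' hch
    | succ N ih =>
      intro τ γ' h0 h1 hγ' hch hYτ
      rcases lt_or_ge τ 1 with hτ | hτ
      · exact hbase τ γ' h0 hτ hγ' hch
      push_cast at h1
      rcases le_or_gt (Y (fl ζ (τ - 1))) R₁ with hy | hy
      · -- the point at distance one is in the thick part
        obtain ⟨γa, hγa, hcha⟩ := hcpt' _ hy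
        have hcha' : ch (γa⁻¹⁻¹ * fl ζ (τ - 1)) ≤ R := by rwa [inv_inv]
        have h2 := ih (τ - 1) γa⁻¹ (by linarith) (by linarith) (Γ.inv_mem hγa) hcha' hy
        have h3 := hbd1 ζ γa⁻¹ γ' (τ - 1) τ (Γ.inv_mem hγa) hγ' hcha' hch (by linarith)
          (by linarith)
        have h4 := H.mul_mem h2 h3
        rwa [mul_inv_cancel_left] at h4
      · -- the point at distance one is in a cusp
        obtain ⟨γT, hγT, ξ, κ, hTv, hYeq⟩ := exists_hty hd (fl ζ (τ - 1))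
          (lt_of_lt_of_le (by norm_num) (hR64.trans hy.le))
        have hξ : nq ξ = 1 := hTv.1
        set φ : ℝ → ℝ := fun s => yp (NU.pe ξ) (act (fl ζ s) (base m)) / |κ| with hφ
        have hκ : κ ≠ 0 := hTv.2.1
        have hp0 : NU.pe ξ ≠ 0 := pe_ne_zero ξ
        have hq0 : q (NU.pe ξ) = 0 := by rw [q_pe, hξ, sub_self]
        have hφc : Continuous φ := by
          have h2 : Continuous fun s : ℝ => act (fl ζ s) (base m) :=
            continuous_orbit.comp (continuous_fl ζ)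
          have h3 : Continuous fun s : ℝ => yp (NU.pe ξ) (act (fl ζ s) (base m)) :=
            (continuousOn_yp hp0 hq0).comp_continuous h2 fun s => orbit_mem _
          exact h3.div_const _
        have hφY : ∀ s, φ s ≤ Y (fl ζ s) := fun s => le_hty hd hγT hTv (fl ζ s)
        have hφ0 : φ 0 ≤ R₁ := by
          refine (hφY 0).trans ?_
          rw [fl_zero]
          exact hY1
        have hφτ : φ τ ≤ R₁ := (hφY τ).trans hYτ
        have hφ1 : R₁ ≤ φ (τ - 1) := by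
          have : Y (fl ζ (τ - 1)) = φ (τ - 1) := hYeq
          rw [← this]
          exact hy.le
        have hφu : ∀ s, φ s = R₁ → Y (fl ζ s) = R₁ := by
          intro s hs
          have h2 : Y (fl ζ s) = φ s := hty_unique hd hT hγT hTv hYeq (g' := fl ζ s) (by
            change 16 ≤ φ s
            rw [hs]
            linarith)
          rw [h2, hs]
        obtain ⟨s₁, ⟨hs₁0, hs₁1⟩, hs₁⟩ := intermediate_value_Icc (by linarith : (0 : ℝ) ≤ τ - 1)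
          hφc.continuousOn ⟨hφ0, hφ1⟩
        obtain ⟨s₂, ⟨hs₂0, hs₂1⟩, hs₂⟩ := intermediate_value_Icc' (by linarith : τ - 1 ≤ τ)
          hφc.continuousOn ⟨hφτ, hφ1⟩
        have hY₁ := hφu s₁ hs₁
        have hY₂ := hφu s₂ hs₂
        obtain ⟨γa, hγa, hcha⟩ := hcpt' _ hY₁.le
        obtain ⟨γb, hγb, hchb⟩ := hcpt' _ hY₂.le
        have hcha' : ch (γa⁻¹⁻¹ * fl ζ s₁) ≤ R := by rwa [inv_inv]
        have hchb' : ch (γb⁻¹⁻¹ * fl ζ s₂) ≤ R := by rwa [inv_inv]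
        -- the two lines
        have hline : ∀ (s : ℝ) (γc : SUGroup m), γc ∈ Γ → ch (γc * fl ζ s) ≤ R → φ s = R₁ →
            mv γc ξ ∈ X := by
          intro s γc hγc hc hs
          refine ⟨γc * γT * γc⁻¹, Γ.mul_mem (Γ.mul_mem hγc hγT) (Γ.inv_mem hγc),
            κ * ‖ml γc ξ‖ ^ 2, hTv.conj, γc * fl ζ s, hc, ?_⟩
          rw [ds_conj]
          have e : γc⁻¹ * (γc * γT * γc⁻¹) * γc = γT := by group
          rw [e]
          have h2 : ds (fl ζ s) γT * φ s = 2 := hTv.ds (fl ζ s)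
          rw [hs] at h2
          have h3 := ds_nonneg (fl ζ s) γT
          nlinarith
        have hX₁ := hline s₁ γa hγa hcha hs₁
        have hX₂ := hline s₂ γb hγb hchb hs₂
        have hmv : mv (γa * γb⁻¹) (mv γb ξ) = mv γa ξ := by
          rw [mv_mul (nq_mv hξ γb), mv_inv_mv hξ]
        have h2 := hH2 _ hX₁ _ hX₂ (γa * γb⁻¹) (Γ.mul_mem hγa (Γ.inv_mem hγb)) hmv
        have h4 := ih s₁ γa⁻¹ hs₁0 (by linarith) (Γ.inv_mem hγa) hcha' hY₁.le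
        have h5 := hbd1 ζ γb⁻¹ γ' s₂ τ (Γ.inv_mem hγb) hγ' hchb' hch hs₂1 (by linarith)
        rw [inv_inv] at h5
        have h6 := H.mul_mem h4 (H.mul_mem h2 h5)
        have e : γa⁻¹ * ((γa * γb⁻¹) * (γb * γ')) = γ' := by group
        rwa [e] at h6
  have hΓH : Γ ≤ H := by
    intro γ hγ
    obtain ⟨ζ, d, k, hζ, hd0, hk, hγe, hwt⟩ := exists_fl (by omega) γ
    obtain ⟨N, hN⟩ := exists_nat_gt d
    have hfl : fl ζ d = γ * k⁻¹ := by rw [hγe, mul_inv_cancel_right]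
    have hwtk : wt k⁻¹ = 1 := by
      rw [wt_inv, wt, hk]
      norm_num
    have h1 : ch (γ⁻¹ * fl ζ d) ≤ R := by
      rw [hfl, inv_mul_cancel_left, ch_inv, hk]
      exact hR1
    have h2 : Y (fl ζ d) ≤ R₁ := by
      rw [hfl, hYinv _ hγ]
      have h3 := hHt.harn 1 k⁻¹
      rw [hwtk, one_pow, one_mul, one_mul] at h3
      exact h3.trans hY1
    exact claim ζ hζ N d γ hd0 (by linarith) hγ h1 h2
  rw [Group.fg_iff_subgroup_fg, Subgroup.fg_iff]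
  refine ⟨S, le_antisymm ?_ hΓH, hSf⟩
  rw [Subgroup.closure_le]
  exact hSΓ

/-- A lattice with entries in a finitely generated ring is finitely generated. -/
theorem fg_of_lat (hm : 2 ≤ m) (hL : IsLattice Γ) (hf : FGG Γ) : Group.FG Γ := by
  obtain ⟨χ, hχ⟩ := exists_lat hL
  obtain ⟨Γ', hle, hfi, hN, hTor⟩ := exists_tor hf
  obtain ⟨χ', hχ'⟩ := hχ.finite_index hle hfi
  have hTF := tf_of_tor hχ'.disc hTor
  have h1 : Group.FG Γ' := fg_of_tor hm hχ' hTF hTor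
  have hfin : (Γ'.subgroupOf Γ).FiniteIndex := ⟨hfi⟩
  have : Fintype (Γ ⧸ Γ'.subgroupOf Γ) := Subgroup.fintypeQuotientOfFiniteIndex
  obtain ⟨T, hT, hTf⟩ := (Subgroup.fg_iff _).1 ((Group.fg_iff_subgroup_fg _).1 h1)
  set C : Set (SUGroup m) := Set.range fun q : Γ ⧸ Γ'.subgroupOf Γ => ((q.out : Γ) : SUGroup m)
    with hC
  have hCf : C.Finite := Set.finite_range _
  rw [Group.fg_iff_subgroup_fg, Subgroup.fg_iff]
  refine ⟨C ∪ T, le_antisymm ?_ ?_, hCf.union hTf⟩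
  · rw [Subgroup.closure_le]
    rintro x (⟨q, rfl⟩ | hx)
    · exact (q.out : Γ).2
    · refine hle ?_
      rw [← hT]
      exact Subgroup.subset_closure hx
  · intro γ hγ
    obtain ⟨q, hq⟩ : ∃ q : Γ ⧸ Γ'.subgroupOf Γ, q = ((⟨γ, hγ⟩ : Γ) : Γ ⧸ Γ'.subgroupOf Γ) :=
      ⟨_, rfl⟩
    have h3 : (q.out)⁻¹ * (⟨γ, hγ⟩ : Γ) ∈ Γ'.subgroupOf Γ := by
      rw [← QuotientGroup.eq, QuotientGroup.out_eq', hq]
    rw [Subgroup.mem_subgroupOf] at h3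
    have h4 : ((q.out : Γ) : SUGroup m) ∈ Subgroup.closure (C ∪ T) :=
      Subgroup.subset_closure (Or.inl ⟨q, rfl⟩)
    have h5 : (((q.out)⁻¹ * (⟨γ, hγ⟩ : Γ) : Γ) : SUGroup m) ∈ Subgroup.closure (C ∪ T) := by
      refine Subgroup.closure_mono Set.subset_union_right ?_
      rw [hT]
      exact h3
    have h6 := (Subgroup.closure (C ∪ T)).mul_mem h4 h5
    rw [Subgroup.coe_mul, Subgroup.coe_inv, mul_inv_cancel_left] at h6
    exact h6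

end Pool.Agent.Lib.MP_5d4057_al.RG
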