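import Pool.Agent.Lib.MP_5d4057_al.RG.Frame
import Pool.Agent.Lib.MP_5d4057_al.RG.FG
import Pool.Agent.Lib.MP_5d4057_al.HM.WideB
import Pool.Agent.Lib.MP_5d4057_al.RC.Lat
import Pool.Agent.Lib.MP_5d4057_al.Hyb.ArithG

/-!
# RG A6: representations with finite characters are commensurable with the standard one
-/

set_option autoImplicit false

namespace Pool.Agent.Lib.MP_5d4057_al.RG

open Matrix Filter Topology Pool.Agent.Lib.MP_5d4057_al Pool.Agent.Lib.MP_5d4057_al.Hyb
  Pool.Agent.Lib.MP_5d4057_al.HM Pool.Agent.Lib.MP_5d4057_al.NU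

variable {m n : ℕ}

private theorem cs_cj_cj (x : ℂ) : cj (cj x) = x := by
  rw [cj_apply, cj_apply]
  exact Complex.conj_conj x

private theorem cs_map_map {k l : ℕ} (M : Matrix (Fin k) (Fin l) ℂ) :
    (M.map cj).map cj = M := by
  ext i j
  exact cs_cj_cj _

private theorem cs_star {k l : ℕ} (M : Matrix (Fin k) (Fin l) ℂ) :
    (M.map cj)ᴴ = Mᴴ.map cj := by
  ext i j
  rfl

private theorem cs_J (n : ℕ) : (J n).map cj = J n := by
  ext i j
  rw [Matrix.map_apply, J, Matrix.diagonal_apply]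
  split_ifs
  · rw [map_neg, map_one]
  · rw [map_one]
  · rw [map_zero]

private theorem cs_pres (g : SUGroup n) :
    (g.toMatrix.map cj)ᴴ * J n * g.toMatrix.map cj = J n := by
  have h : g.toMatrixᴴ * J n * g.toMatrix = J n := g.2
  have h2 := congrArg (fun M : Matrix (Fin (n + 1)) (Fin (n + 1)) ℂ => M.map cj) h
  simp only [Matrix.map_mul, cs_J] at h2
  rw [cs_star]
  exact h2

private theorem cs_det (g : SUGroup n) : (g.toMatrix.map cj).det = 1 := by
  have h : g.toMatrix.det = 1 := g.1.2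
  have h2 : ((cj : ℂ →+* ℂ).mapMatrix g.toMatrix).det = cj g.toMatrix.det :=
    (RingHom.map_det (cj : ℂ →+* ℂ) g.toMatrix).symm
  rw [h, map_one] at h2
  exact h2

private noncomputable def cjF (g : SUGroup n) : SUGroup n :=
  ⟨⟨g.toMatrix.map cj, cs_det g⟩, cs_pres g⟩

/-- The complex conjugate of an element. -/
noncomputable def cjSU (n : ℕ) : SUGroup n ≃* SUGroup n where
  toFun := cjF
  invFun := cjF
  left_inv g := toMatrix_injective (cs_map_map g.toMatrix)
  right_inv g := toMatrix_injective (cs_map_map g.toMatrix)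
  map_mul' g h := toMatrix_injective (Matrix.map_mul (L := g.toMatrix) (M := h.toMatrix) (f := cj))

theorem cjSU_toMatrix (g : SUGroup n) : (cjSU n g).toMatrix = g.toMatrix.map cj := rfl

theorem continuous_cjSU (n : ℕ) : Continuous (cjSU n) := by
  rw [(isClosedEmbedding_toMatrix n).isEmbedding.continuous_iff]
  have h : (SUGroup.toMatrix ∘ cjSU n : SUGroup n → Matrix (Fin (n + 1)) (Fin (n + 1)) ℂ) =
      fun x => x.toMatrix.map cj := rfl
  rw [h]
  exact (continuous_toMatrix n).matrix_map Complex.continuous_conj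

theorem cjSU_cjSU (g : SUGroup n) : cjSU n (cjSU n g) = g :=
  toMatrix_injective (cs_map_map g.toMatrix)

private theorem cs_symm (g : SUGroup n) : (cjSU n).symm g = cjSU n g := rfl

private theorem cs_lattice {G : Type} [Group G] [TopologicalSpace G] [IsTopologicalGroup G]
    (e : G ≃* G) (he : Continuous e) (he' : Continuous e.symm) {Γ : Subgroup G}
    (h : IsLattice Γ) : IsLattice (Γ.map e.toMonoidHom) := by
  obtain ⟨hd, μ, h0, h1, h2⟩ := h
  let _ : MeasurableSpace (G ⧸ Γ) := borel _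
  have : BorelSpace (G ⧸ Γ) := ⟨rfl⟩
  let _ : MeasurableSpace (G ⧸ Γ.map e.toMonoidHom) := borel _
  have : BorelSpace (G ⧸ Γ.map e.toMonoidHom) := ⟨rfl⟩
  have hrel : ∀ a b : G, QuotientGroup.leftRel Γ a b →
      QuotientGroup.leftRel (Γ.map e.toMonoidHom) (e a) (e b) := by
    intro a b hab
    rw [QuotientGroup.leftRel_apply] at hab ⊢
    exact ⟨a⁻¹ * b, hab, by simp⟩
  let φ : G ⧸ Γ → G ⧸ Γ.map e.toMonoidHom := Quotient.map e hrel
  have hφ : Continuous φ := by
    refine Continuous.quotient_lift (QuotientGroup.continuous_mk.comp he) ?_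
  have hm : Measurable φ := hφ.measurable
  refine ⟨?_, μ.map φ, ?_, ?_, ?_⟩
  · have hc : Continuous fun x : Γ.map e.toMonoidHom => (⟨e.symm x, by
        obtain ⟨y, hy, hyx⟩ := x.2
        rw [← hyx]
        simpa using hy⟩ : Γ) := (he'.comp continuous_subtype_val).subtype_mk _
    refine DiscreteTopology.of_continuous_injective hc fun x y hxy => ?_
    exact Subtype.ext (e.symm.injective (congrArg Subtype.val hxy))
  · intro h
    apply h0
    rw [← MeasureTheory.Measure.measure_univ_eq_zero]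
    have h3 : μ.map φ Set.univ = 0 := by rw [h]; rfl
    rwa [MeasureTheory.Measure.map_apply hm MeasurableSet.univ, Set.preimage_univ] at h3
  · rw [MeasureTheory.Measure.map_apply hm MeasurableSet.univ, Set.preimage_univ]
    exact h1
  · intro g s hs
    have hg : Measurable fun y : G ⧸ Γ.map e.toMonoidHom => g • y :=
      (continuous_const_smul g).measurable
    rw [MeasureTheory.Measure.map_apply hm (hg hs), MeasureTheory.Measure.map_apply hm hs]
    have h3 : φ ⁻¹' ((fun x => g • x) ⁻¹' s) = (fun x => (e.symm g) • x) ⁻¹' (φ ⁻¹' s) := by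
      ext x
      induction x using QuotientGroup.induction_on with
      | H y =>
        have h4 : φ ((e.symm g) • (y : G ⧸ Γ)) = g • φ (y : G ⧸ Γ) := by
          show ((e (e.symm g * y) : G) : G ⧸ Γ.map e.toMonoidHom) =
            ((g * e y : G) : G ⧸ Γ.map e.toMonoidHom)
          rw [map_mul, MulEquiv.apply_symm_apply]
        simp only [Set.mem_preimage, h4]
    rw [h3]
    exact h2 _ _ (hm hs)

/-- The complex conjugate of a lattice is a lattice (`cjSU` is a topological automorphism; the Haar measure `mu` is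
invariant, or use the characterisation of lattices by a set of finite measure in RC/Lat). -/
theorem isLattice_cj {Γ : Subgroup (SUGroup n)} (h : IsLattice Γ) :
    IsLattice (Γ.map (cjSU n).toMonoidHom) :=
  cs_lattice (cjSU n) (continuous_cjSU n) (continuous_cjSU n) h

private theorem cs_algebraMap {K : Subfield ℂ} (hK : ∀ x ∈ K, (starRingEnd ℂ) x ∈ K) (x : K) :
    ((algebraMap K (Matrix (Fin (n + 1)) (Fin (n + 1)) ℂ)) x).map cj =
      (algebraMap K (Matrix (Fin (n + 1)) (Fin (n + 1)) ℂ)) ⟨(starRingEnd ℂ) x, hK x x.2⟩ := by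
  ext i j
  rw [Matrix.map_apply, Matrix.algebraMap_matrix_apply, Matrix.algebraMap_matrix_apply]
  split_ifs
  · rfl
  · exact map_zero _

private noncomputable def cjA {K : Subfield ℂ} (hK : ∀ x ∈ K, (starRingEnd ℂ) x ∈ K)
    (A : Subalgebra K (Matrix (Fin (n + 1)) (Fin (n + 1)) ℂ)) :
    Subalgebra K (Matrix (Fin (n + 1)) (Fin (n + 1)) ℂ) where
  carrier := {a | a.map cj ∈ A}
  mul_mem' := by
    intro a b ha hb
    show (a * b).map cj ∈ A
    rw [Matrix.map_mul]
    exact A.mul_mem ha hb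
  add_mem' := by
    intro a b ha hb
    show (a + b).map cj ∈ A
    rw [Matrix.map_add cj (map_add cj)]
    exact A.add_mem ha hb
  algebraMap_mem' := by
    intro x
    show ((algebraMap K (Matrix (Fin (n + 1)) (Fin (n + 1)) ℂ)) x).map cj ∈ A
    rw [cs_algebraMap hK]
    exact A.algebraMap_mem _

private theorem mem_cjA {K : Subfield ℂ} (hK : ∀ x ∈ K, (starRingEnd ℂ) x ∈ K)
    {A : Subalgebra K (Matrix (Fin (n + 1)) (Fin (n + 1)) ℂ)}
    {a : Matrix (Fin (n + 1)) (Fin (n + 1)) ℂ} : a ∈ cjA hK A ↔ a.map cj ∈ A := Iff.rfl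

private noncomputable def cjO (O : Subring (Matrix (Fin (n + 1)) (Fin (n + 1)) ℂ)) :
    Subring (Matrix (Fin (n + 1)) (Fin (n + 1)) ℂ) :=
  O.comap (cj : ℂ →+* ℂ).mapMatrix

private theorem mem_cjO {O : Subring (Matrix (Fin (n + 1)) (Fin (n + 1)) ℂ)}
    {a : Matrix (Fin (n + 1)) (Fin (n + 1)) ℂ} : a ∈ cjO O ↔ a.map cj ∈ O := Iff.rfl

private noncomputable def cjAdd (n : ℕ) : Matrix (Fin (n + 1)) (Fin (n + 1)) ℂ ≃+
    Matrix (Fin (n + 1)) (Fin (n + 1)) ℂ where
  toFun a := a.map cj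
  invFun a := a.map cj
  left_inv a := cs_map_map a
  right_inv a := cs_map_map a
  map_add' a b := Matrix.map_add cj (map_add cj) a b

private theorem cs_finrank {K : Subfield ℂ} (hK : ∀ x ∈ K, (starRingEnd ℂ) x ∈ K)
    (A : Subalgebra K (Matrix (Fin (n + 1)) (Fin (n + 1)) ℂ)) :
    Module.finrank K (cjA hK A) = Module.finrank K A := by
  let j : cjA hK A ≃+ A :=
    { toFun := fun a => ⟨(a : Matrix (Fin (n + 1)) (Fin (n + 1)) ℂ).map cj, a.2⟩
      invFun := fun a => ⟨(a : Matrix (Fin (n + 1)) (Fin (n + 1)) ℂ).map cj, by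
        rw [mem_cjA, cs_map_map]
        exact a.2⟩
      left_inv := fun a => Subtype.ext (cs_map_map _)
      right_inv := fun a => Subtype.ext (cs_map_map _)
      map_add' := fun a b => Subtype.ext (Matrix.map_add cj (map_add cj) _ _) }
  let i : K → K := fun x => ⟨(starRingEnd ℂ) x, hK x x.2⟩
  have hi : Function.Bijective i := by
    have h : Function.Involutive i := fun x => Subtype.ext (Complex.conj_conj _)
    exact h.bijective
  have hr := rank_eq_of_equiv_equiv i j hi (by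
    intro r m
    apply Subtype.ext
    ext k l
    show cj ((r • (m : Matrix (Fin (n + 1)) (Fin (n + 1)) ℂ)) k l) = _
    exact map_mul cj (r : ℂ) ((m : Matrix (Fin (n + 1)) (Fin (n + 1)) ℂ) k l))
  exact congrArg Cardinal.toNat hr

private theorem cs_adjoint (a : Matrix (Fin (n + 1)) (Fin (n + 1)) ℂ) :
    (adjoint n a).map cj = adjoint n (a.map cj) := by
  rw [adjoint, adjoint, Matrix.map_mul, Matrix.map_mul, cs_J, cs_star]

private theorem cs_trace (a : Matrix (Fin (n + 1)) (Fin (n + 1)) ℂ) :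
    (a.map cj).trace = cj a.trace := by
  rw [Matrix.trace, Matrix.trace, map_sum]
  rfl

private theorem cs_unitary {K : Subfield ℂ}
    {A : Subalgebra K (Matrix (Fin (n + 1)) (Fin (n + 1)) ℂ)} (h : IsUnitaryForm n K A) :
    IsUnitaryForm n K (cjA h.cm.2.2.1 A) where
  cm := h.cm
  rank := by
    rw [cs_finrank]
    exact h.rank
  span := by
    have h1 := span_image_map cj _ h.span
    rw [eq_top_iff, ← h1]
    refine Submodule.span_mono ?_
    rintro _ ⟨a, ha, rfl⟩
    show (a.map cj).map cj ∈ A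
    rw [cs_map_map]
    exact ha
  adj := by
    intro a ha
    rw [mem_cjA, cs_adjoint]
    exact h.adj _ ha
  pos := by
    intro τ
    rcases h.pos τ with h1 | h1 | h1
    · exact Or.inl h1
    · exact Or.inr (Or.inl h1)
    · refine Or.inr (Or.inr ?_)
      intro a ha x hx
      have h2 : (((⟨(starRingEnd ℂ) x, h.cm.2.2.1 x x.2⟩ : K) : ℂ)) =
          (adjoint n (a.map cj) * a.map cj).trace := by
        rw [← cs_adjoint, ← Matrix.map_mul, cs_trace, ← hx, cj_apply]
      have h3 := h1 (a.map cj) ha _ h2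
      have h4 := h.cm.2.2.2 τ x ⟨(starRingEnd ℂ) x, h.cm.2.2.1 x x.2⟩ rfl
      rw [h4, Complex.conj_re] at h3
      exact h3

private theorem cs_order {K : Subfield ℂ} (hK : ∀ x ∈ K, (starRingEnd ℂ) x ∈ K)
    {A : Subalgebra K (Matrix (Fin (n + 1)) (Fin (n + 1)) ℂ)}
    {O : Subring (Matrix (Fin (n + 1)) (Fin (n + 1)) ℂ)} (h : IsOrder A O) :
    IsOrder (cjA hK A) (cjO O) where
  sub a ha := h.sub _ ha
  fg := by
    have h1 : (cjO O).toAddSubgroup = O.toAddSubgroup.map (cjAdd n).toAddMonoidHom := by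
      ext a
      constructor
      · intro ha
        exact ⟨a.map cj, ha, cs_map_map a⟩
      · rintro ⟨b, hb, rfl⟩
        show (b.map cj).map cj ∈ O
        rw [cs_map_map]
        exact hb
    obtain ⟨S, hS⟩ := h.fg
    classical
    refine ⟨S.image (cjAdd n), ?_⟩
    rw [h1, ← hS, AddMonoidHom.map_closure, Finset.coe_image]
    rfl
  full := by
    intro a ha
    obtain ⟨N, hN, h1⟩ := h.full _ ha
    refine ⟨N, hN, ?_⟩
    rw [mem_cjO]
    have h2 : ((N : ℂ) • a).map cj = (N : ℂ) • a.map cj := by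
      ext i j
      show cj ((N : ℂ) * a i j) = (N : ℂ) * cj (a i j)
      rw [map_mul, map_natCast]
    rw [h2]
    exact h1

/-- The complex conjugate of an arithmetic group is arithmetic: the conjugate field is `K` (CM), the conjugates
of `A` and of the order. -/
theorem isArith_cj {Γ : Subgroup (SUGroup n)} (h : IsArith n Γ) :
    IsArith n (Γ.map (cjSU n).toMonoidHom) := by
  obtain ⟨K, A, O, hU, hO, hc⟩ := h
  refine ⟨K, cjA hU.cm.2.2.1 A, cjO O, cs_unitary hU, cs_order _ hO, ?_⟩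
  have h1 : unitPoints n (cjO O) = (unitPoints n O).map (cjSU n).toMonoidHom := by
    ext g
    constructor
    · rintro ⟨h2, h3⟩
      refine ⟨cjSU n g, ⟨h2, ?_⟩, cjSU_cjSU g⟩
      rw [← map_inv]
      exact h3
    · rintro ⟨k, ⟨h2, h3⟩, rfl⟩
      refine ⟨?_, ?_⟩
      · show (k.toMatrix.map cj).map cj ∈ O
        rw [cs_map_map]
        exact h2
      · show ((cjSU n k)⁻¹).toMatrix.map cj ∈ O
        rw [← map_inv]
        show (k⁻¹.toMatrix.map cj).map cj ∈ O
        rw [cs_map_map]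
        exact h3
  rw [h1]
  constructor
  · rw [Subgroup.relIndex_map_map_of_injective _ _ (cjSU n).injective]
    exact hc.1
  · rw [Subgroup.relIndex_map_map_of_injective _ _ (cjSU n).injective]
    exact hc.2

/-- `ρ` acts on each invariant line through a finite group. -/
def FinCh {G : Type} [Group G] (ρ : G →* SUGroup n) : Prop :=
  ∀ p : Vec n, p ≠ 0 → (∀ x : G, ∃ c : ℂ, act (ρ x) p = c • p) →
    ∃ N : ℕ, 0 < N ∧ ∀ x : G, act (ρ x ^ N) p = p

private theorem ct_root {N : ℕ} (hN : 0 < N) : {z : ℂ | z ^ N = 1}.Finite := by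
  have h : {z : ℂ | z ^ N = 1} ⊆ (Polynomial.nthRootsFinset N (1 : ℂ) : Set ℂ) := by
    intro z hz
    exact (Polynomial.mem_nthRootsFinset hN (1 : ℂ)).2 hz
  exact (Finset.finite_toSet _).subset h

private theorem ct_dsum_col (χ : ℂ) (B : Matrix (Fin (m + 1)) (Fin (m + 1)) ℂ) :
    dsum χ B *ᵥ (Pi.single 0 1 : Vec (m + 1)) = χ • (Pi.single 0 1 : Vec (m + 1)) := by
  rw [Matrix.mulVec_single_one]
  ext i
  refine Fin.cases ?_ (fun i => ?_) i
  · simp
  · simp

private theorem ct_key {Γ : Subgroup (SUGroup m)} {ρ : Γ →* SUGroup (m + 1)}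
    {g : SUGroup (m + 1)} (σ : SUGroup m →* SUGroup m)
    (h : ∀ x : Γ, ∃ χ ψ : ℂ, (g⁻¹ * ρ x * g).toMatrix =
      dsum χ (ψ • (σ (x : SUGroup m)).toMatrix)) (hfin : FinCh ρ) :
    ∃ Γ₀ : Subgroup (SUGroup m), Γ₀ ≤ Γ ∧ Γ₀.relIndex Γ ≠ 0 ∧
      Subgroup.Commensurable ((Γ₀.map σ).map (emb g)) ρ.range := by
  choose χ ψ hχ using h
  obtain ⟨p, hp⟩ : ∃ p : Vec (m + 1), p = act g (Pi.single 0 1) := ⟨_, rfl⟩
  have hact : ∀ x : Γ, act (ρ x) p = χ x • p := by
    intro x
    have h1 : ρ x * g = g * (g⁻¹ * ρ x * g) := by group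
    rw [hp, ← act_mul, h1, act_mul, ← act_smul]
    congr 1
    show (g⁻¹ * ρ x * g).toMatrix *ᵥ _ = _
    rw [hχ x, ct_dsum_col]
  have hp0 : p ≠ 0 := by
    intro h0
    have h1 : act g⁻¹ p = (Pi.single 0 1 : Vec (m + 1)) := by
      rw [hp, ← act_mul, inv_mul_cancel, act_one]
    rw [h0] at h1
    have h2 : act g⁻¹ (0 : Vec (m + 1)) = 0 := Matrix.mulVec_zero _
    rw [h2] at h1
    have h3 := congrFun h1 0
    rw [Pi.single_eq_same] at h3
    exact zero_ne_one h3
  obtain ⟨N, hN, hpow⟩ := hfin p hp0 fun x => ⟨χ x, hact x⟩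
  have hχN : ∀ x : Γ, χ x ^ N = 1 := by
    intro x
    have h1 : ∀ k : ℕ, act (ρ x ^ k) p = χ x ^ k • p := by
      intro k
      induction k with
      | zero => rw [pow_zero, pow_zero, act_one, one_smul]
      | succ k ih => rw [pow_succ, act_mul, hact, act_smul, ih, smul_smul, pow_succ, mul_comm]
    have h2 := (h1 N).symm.trans (hpow x)
    have h3 : (χ x ^ N - 1) • p = 0 := by rw [sub_smul, one_smul, h2, sub_self]
    rcases smul_eq_zero.1 h3 with h4 | h4
    · exact sub_eq_zero.1 h4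
    · exact absurd h4 hp0
  have hψN : ∀ x : Γ, ψ x ^ (N * (m + 1)) = 1 := by
    intro x
    have h1 : (g⁻¹ * ρ x * g).toMatrix.det = 1 := (g⁻¹ * ρ x * g).1.2
    have h2 : (σ (x : SUGroup m)).toMatrix.det = 1 := (σ (x : SUGroup m)).1.2
    rw [hχ x, det_dsum, Matrix.det_smul, h2, mul_one, Fintype.card_fin] at h1
    have h3 := congrArg (fun z : ℂ => z ^ N) h1
    simp only [mul_pow, one_pow, hχN x, one_mul] at h3
    rw [mul_comm N, pow_mul]
    exact h3
  -- equal characters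
  have hker : ∀ x y : Γ, χ x = χ y → ψ x = ψ y → ρ (x⁻¹ * y) = emb g (σ ((x⁻¹ * y : Γ) : SUGroup m)) := by
    intro x y h1 h2
    have h3 : g⁻¹ * ρ y * g = (g⁻¹ * ρ x * g) * extend m (σ ((x⁻¹ * y : Γ) : SUGroup m)) := by
      apply toMatrix_injective
      rw [toMatrix_mul (g⁻¹ * ρ x * g) (extend m (σ ((x⁻¹ * y : Γ) : SUGroup m))), hχ, hχ,
        extend_toMatrix, dsum_mul, h1, h2, mul_one, Matrix.smul_mul]
      congr 2
      rw [← toMatrix_mul, ← map_mul]
      congr 2
      rw [Subgroup.coe_mul, Subgroup.coe_inv, mul_inv_cancel_left]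
    rw [emb_apply, map_mul, map_inv]
    have h4 : extend m (σ ((x⁻¹ * y : Γ) : SUGroup m)) = (g⁻¹ * ρ x * g)⁻¹ * (g⁻¹ * ρ y * g) := by
      rw [h3]
      group
    rw [h4]
    group
  obtain ⟨S, hS⟩ : ∃ S : Subgroup Γ, S = (ρ.eqLocus (((emb g).comp σ).comp Γ.subtype)) := ⟨_, rfl⟩
  have hSm : ∀ x : Γ, x ∈ S ↔ ρ x = emb g (σ (x : SUGroup m)) := by
    intro x
    rw [hS]
    rfl
  have hfi : S.index ≠ 0 := by
    have hF : Finite (Γ ⧸ S) := by
      have h1 := (ct_root hN).to_subtype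
      have h2 := (ct_root (Nat.mul_pos hN (Nat.succ_pos m))).to_subtype
      refine Finite.of_injective (β := {z : ℂ | z ^ N = 1} × {z : ℂ | z ^ (N * (m + 1)) = 1})
        (fun x => (⟨χ x.out, hχN _⟩, ⟨ψ x.out, hψN _⟩)) ?_
      intro x y hxy
      have h3 : χ x.out = χ y.out := congrArg (fun z => (z.1 : ℂ)) hxy
      have h4 : ψ x.out = ψ y.out := congrArg (fun z => (z.2 : ℂ)) hxy
      rw [← QuotientGroup.out_eq' x, ← QuotientGroup.out_eq' y, QuotientGroup.eq, hSm]
      exact hker _ _ h3 h4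
    exact Subgroup.index_ne_zero_iff_finite.2 hF
  refine ⟨S.map Γ.subtype, Subgroup.map_subtype_le S, ?_, ?_⟩
  · rw [Subgroup.relIndex, Subgroup.subgroupOf, Subgroup.comap_map_eq_self_of_injective
      Γ.subtype_injective S]
    exact hfi
  · have h1 : ((S.map Γ.subtype).map σ).map (emb g) = S.map ρ := by
      ext y
      constructor
      · rintro ⟨_, ⟨_, ⟨x, hx, rfl⟩, rfl⟩, rfl⟩
        exact ⟨x, hx, (hSm x).1 hx⟩
      · rintro ⟨x, hx, rfl⟩
        exact ⟨_, ⟨_, ⟨x, hx, rfl⟩, rfl⟩, ((hSm x).1 hx).symm⟩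
    rw [h1, MonoidHom.range_eq_map]
    constructor
    · rw [Subgroup.relIndex_map_map]
      refine mt (fun h0 => ?_) hfi
      rw [top_sup_eq, Subgroup.relIndex_top_right] at h0
      exact zero_dvd_iff.1 (h0 ▸ Subgroup.index_dvd_of_le (le_sup_left : S ≤ S ⊔ ρ.ker))
    · rw [Subgroup.relIndex_eq_one.2 (Subgroup.map_mono le_top)]
      exact one_ne_zero

private theorem ct_lattice {Γ Γ' : Subgroup (SUGroup m)} (h : IsLattice Γ) (hle : Γ' ≤ Γ)
    (hfi : Γ'.relIndex Γ ≠ 0) : IsLattice Γ' := by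
  obtain ⟨χ, hχ⟩ := exists_lat h
  obtain ⟨χ', hχ'⟩ := hχ.finite_index hle hfi
  exact hχ'.isLattice

private theorem ct_arith {Γ Γ' : Subgroup (SUGroup m)} (h : IsArith m Γ) (hle : Γ' ≤ Γ)
    (hfin : Γ'.relIndex Γ ≠ 0) : IsArith m Γ' := by
  obtain ⟨K, A, O, hU, hO, hc⟩ := h
  refine ⟨K, A, O, hU, hO, Subgroup.Commensurable.trans ⟨hfin, ?_⟩ hc⟩
  rw [Subgroup.relIndex_eq_one.2 hle]
  exact one_ne_zero

/-- PROOF. The line `ℂ g e_0` is invariant with the character `χ` (first column of `g⁻¹ ρ x g`), so `χ^N = 1`; `det`: `χ ψ^(m+1) = 1`, so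
`ψ^(N(m+1)) = 1`. `χ`, `ψ` are homomorphisms into finite groups (`x ↦ (g⁻¹ ρ x g) 0 0`, and `ψ(xy) = ψ(x) ψ(y)` since
`dsum χ (ψ x)` determines `ψ`), so `Γ₀ = {x | χ x = ψ x = 1} = {x | ρ x = emb g x}` has finite index in `Γ`. `Λ = Γ₀` as a subgroup of `SU(m,1)`;
`Λ.map (emb g) = ρ Γ₀` has finite index in `ρ Γ`; it is a lattice (`finite_index` lemmas of RC/Lat) and arithmetic
(`Commensurable` is transitive). -/
theorem comm_of_twd {Γ : Subgroup (SUGroup m)} (hL : IsLattice Γ) (hA : IsArith m Γ)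
    {ρ : Γ →* SUGroup (m + 1)} {g : SUGroup (m + 1)} (h : Twd ρ g) (hfin : FinCh ρ) :
    ∃ Λ : Subgroup (SUGroup m), IsLattice Λ ∧ IsArith m Λ ∧
      Subgroup.Commensurable (Λ.map (emb g)) ρ.range := by
  obtain ⟨Γ₀, hle, hfi, hc⟩ := ct_key (MonoidHom.id _) h hfin
  rw [Subgroup.map_id] at hc
  exact ⟨Γ₀, ct_lattice hL hle hfi, ct_arith hA hle hfi, hc⟩

/-- The same with `Λ` = the complex conjugate of `Γ₀`. -/
theorem comm_of_twc {Γ : Subgroup (SUGroup m)} (hL : IsLattice Γ) (hA : IsArith m Γ)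
    {ρ : Γ →* SUGroup (m + 1)} {g : SUGroup (m + 1)} (h : Twc ρ g) (hfin : FinCh ρ) :
    ∃ Λ : Subgroup (SUGroup m), IsLattice Λ ∧ IsArith m Λ ∧
      Subgroup.Commensurable (Λ.map (emb g)) ρ.range := by
  obtain ⟨Γ₀, hle, hfi, hc⟩ := ct_key (cjSU m).toMonoidHom h hfin
  exact ⟨_, isLattice_cj (ct_lattice hL hle hfi), isArith_cj (ct_arith hA hle hfi), hc⟩

end Pool.Agent.Lib.MP_5d4057_al.RG
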