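import Pool.Agent.Lib.MP_5d4057_al.GX.Fix

/-!
# RG A4: subgroups of a lattice fixing an isotropic line

The private lemmas are those of `GX/Fix`.
-/

set_option autoImplicit false

namespace Pool.Agent.Lib.MP_5d4057_al.RG

open MeasureTheory hiding extend
open Matrix Filter Topology Pool.Agent.Lib.MP_5d4057_al Pool.Agent.Lib.MP_5d4057_al.Hyb
  Pool.Agent.Lib.MP_5d4057_al.HM Pool.Agent.Lib.MP_5d4057_al.NU

variable {n : ℕ} {Γ : Subgroup (SUGroup n)}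

section Aux

open Pool.Agent.Lib.MP_5d4057_al.HM.Kak

open scoped ComplexOrder MatrixOrder Matrix.Norms.L2Operator ENNReal

/-- powers of an element of the stabiliser -/
private theorem fl_pow {δ : SUGroup n} {ξ : Fin n → ℂ} (hξ : nq ξ = 1) (hs : δ ∈ St ξ) (i : ℕ) :
    δ ^ i ∈ St ξ ∧ ml (δ ^ i) ξ = ml δ ξ ^ i := by
  induction i with
  | zero => exact ⟨by rw [pow_zero]; exact (St ξ).one_mem, by rw [pow_zero, pow_zero, ml_one]⟩
  | succ i ih =>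
    refine ⟨(St ξ).pow_mem hs _, ?_⟩
    rw [pow_succ, ml_mul hξ, (mem_St hξ).1 hs, ih.2, pow_succ]

/-- an element which fixes `ξ` and `-ξ` -/
private theorem fl_ch {y : SUGroup n} {ξ : Fin n → ℂ} (hξ : nq ξ = 1) (h1 : y ∈ St ξ)
    (h2 : y ∈ St (-ξ)) (h3 : 1 ≤ ‖ml y ξ‖) : ch y ≤ ‖ml y ξ‖ := by
  have hξ' : nq (-ξ) = 1 := by rw [nq_neg, hξ]
  have e1 := act_of_mem_St hξ h1
  have e2 := act_of_mem_St hξ' h2
  have e3 : star (ml y ξ) * ml y (-ξ) = 1 := by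
    have h0 := herm_pe_ne hξ hξ' (neg_ne_self hξ).symm
    have h4 := herm_act y (pe ξ) (pe (-ξ))
    rw [e1, e2, herm_smul_left, herm_smul_right, ← mul_assoc] at h4
    exact mul_right_cancel₀ h0 (by rw [h4, one_mul])
  have e4 : (2 : ℂ) * act y (base n) (Fin.last n) = ml y ξ + ml y (-ξ) := by
    have h4 := congrArg (fun v => act y v (Fin.last n)) (two_smul_base ξ)
    simp only [act_smul, Pi.smul_apply, smul_eq_mul] at h4
    rw [← h4, act_add, e1, e2, Pi.add_apply, Pi.smul_apply, Pi.smul_apply, pe_last, pe_last,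
      smul_eq_mul, smul_eq_mul, mul_one, mul_one]
  have e5 : ch y = ‖act y (base n) (Fin.last n)‖ := by
    rw [ch, act, mulVec, dotProduct, Fin.sum_univ_castSucc, base_last, mul_one,
      Finset.sum_eq_zero, zero_add]
    intro i _
    rw [base_castSucc, mul_zero]
  have h5 : ‖ml y (-ξ)‖ ≤ 1 := by
    have h6 := congrArg norm e3
    rw [norm_mul, norm_star, norm_one] at h6
    have h7 := norm_nonneg (ml y (-ξ))
    nlinarith
  have h6 := congrArg norm e4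
  rw [norm_mul, Complex.norm_ofNat, ← e5] at h6
  have h7 := norm_add_le (ml y ξ) (ml y (-ξ))
  linarith

/-- A group with a parabolic element at `ξ` has no loxodromic element at `ξ`: the conjugates of the
parabolic element by the powers of a loxodromic element would have bounded displacement. -/
private theorem fl_key (hd : DiscreteTopology Γ) (hT : TF Γ) {ξ : Fin n → ℂ} (hξ : nq ξ = 1)
    {x : SUGroup n} (hx : x ∈ Γ) (hx1 : x ≠ 1) (hxP : x ∈ PS ξ) {δ : SUGroup n} (hδ : δ ∈ Γ)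
    (hs : δ ∈ St ξ) : ‖ml δ ξ‖ ≤ 1 := by
  by_contra hlt
  rw [not_le] at hlt
  obtain ⟨ξ', hξ', hne, hs'⟩ := exists_second hξ hs hlt.ne'
  obtain ⟨a, ha, ha'⟩ := exists_frame hξ hξ' hne
  have hξn : nq (-ξ) = 1 := by rw [nq_neg, hξ]
  have hai : mv a⁻¹ ξ = ξ := by
    conv_lhs => rw [← ha]
    exact mv_inv_mv hξ a
  have hai' : mv a⁻¹ ξ' = -ξ := by
    conv_lhs => rw [← ha']
    exact mv_inv_mv hξn a
  have hxs : x ∈ St ξ := PS_le_St ξ hxP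
  obtain ⟨y, hy⟩ : ∃ y, y = a⁻¹ * x * a := ⟨_, rfl⟩
  have hys : y ∈ St ξ := by
    have h := (conj_mem_St hξ (g := a) (x := x)).2 hxs
    rw [hai, ← hy] at h
    exact h
  have hbd : ∀ k : ℕ, ds a ((δ ^ k)⁻¹ * x * δ ^ k) ≤ ds 1 y := by
    intro k
    obtain ⟨t, ht⟩ : ∃ t, t = k * Real.log ‖ml δ ξ‖ := ⟨_, rfl⟩
    have ht0 : 0 ≤ t := by
      rw [ht]
      exact mul_nonneg (Nat.cast_nonneg k) (Real.log_nonneg hlt.le)
    have hexp : ‖ml δ ξ‖ ^ k = Real.exp t := by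
      rw [ht, Real.exp_nat_mul, Real.exp_log (lt_trans one_pos hlt)]
    have hp1 := fl_pow hξ hs k
    have hp2 := fl_pow hξ' hs' k
    have hc1 : a⁻¹ * δ ^ k * a ∈ St ξ := by
      have h := (conj_mem_St hξ (g := a) (x := δ ^ k)).2 hp1.1
      rwa [hai] at h
    have hc2 : a⁻¹ * δ ^ k * a ∈ St (-ξ) := by
      have h := (conj_mem_St hξ' (g := a) (x := δ ^ k)).2 hp2.1
      rwa [hai'] at h
    obtain ⟨z, hz⟩ : ∃ z, z = fl ξ (-t) * (a⁻¹ * δ ^ k * a) := ⟨_, rfl⟩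
    have hzml : ‖ml z ξ‖ = 1 := by
      have h2 := ml_conj hξ (g := a) hp1.1
      rw [hai] at h2
      rw [hz, ml_mul hξ, (mem_St hξ).1 hc1, ml_fl hξ, h2, hp1.2, norm_mul, norm_pow, hexp,
        Complex.norm_real, Real.norm_eq_abs, Real.abs_exp, ← Real.exp_add, neg_add_cancel,
        Real.exp_zero]
    have hf2 : fl ξ (-t) ∈ St (-ξ) := ⟨_, fl_pe_neg hξ (-t)⟩
    have hzch : ch z = 1 := by
      refine le_antisymm ?_ (one_le_ch z)
      have h := fl_ch (y := z) hξ ?_ ?_ hzml.ge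
      · rwa [hzml] at h
      · rw [hz]
        exact (St ξ).mul_mem (fl_mem_St hξ (-t)) hc1
      · rw [hz]
        exact (St (-ξ)).mul_mem hf2 hc2
    have e : δ ^ k * a = a * fl ξ t * z := by
      rw [hz, fl_neg]
      group
    rw [← ds_conj, e, ds_mul_K _ _ hzch, ds_mul, ← hy]
    have h := ds_flow_mono hξ hys (s := -t) (t := 0) (by linarith)
    rwa [neg_neg, neg_zero, fl_zero] at h
  have key : ∀ i j : ℕ, i < j → (δ ^ i)⁻¹ * x * δ ^ i = (δ ^ j)⁻¹ * x * δ ^ j → False := by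
    intro i j hij he
    obtain ⟨m, rfl⟩ : ∃ m, j = m + i := ⟨j - i, by omega⟩
    have hm : 0 < m := by omega
    have hc : δ ^ m * x = x * δ ^ m := by
      rw [pow_add] at he
      have h1 : δ ^ m * (δ ^ i * ((δ ^ i)⁻¹ * x * δ ^ i) * (δ ^ i)⁻¹) =
          δ ^ m * (δ ^ i * ((δ ^ m * δ ^ i)⁻¹ * x * (δ ^ m * δ ^ i)) * (δ ^ i)⁻¹) := by rw [he]
      have h2 : δ ^ m * (δ ^ i * ((δ ^ i)⁻¹ * x * δ ^ i) * (δ ^ i)⁻¹) = δ ^ m * x := by group
      have h3 : δ ^ m * (δ ^ i * ((δ ^ m * δ ^ i)⁻¹ * x * (δ ^ m * δ ^ i)) * (δ ^ i)⁻¹) =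
          x * δ ^ m := by group
      rw [← h2, h1, h3]
    have hm1 : δ ^ m ≠ 1 := by
      intro h
      have h1 := (fl_pow hξ hs m).2
      rw [h, ml_one] at h1
      have h2 := congrArg norm h1
      rw [norm_one, norm_pow] at h2
      have h3 := one_lt_pow₀ hlt hm.ne'
      linarith
    have h1 := comm_fixed (hT.nf (Γ.pow_mem hδ m) hm1) hc hξ' (fl_pow hξ' hs' m).1
    exact (two_fixed (hT.nf hx hx1) hξ hξ' hne.symm hxs h1).2 ((mem_PS hξ).1 hxP).2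
  obtain ⟨i, -, j, -, hij, he⟩ := Set.infinite_univ.exists_ne_map_eq_of_mapsTo
    (f := fun k : ℕ => (δ ^ k)⁻¹ * x * δ ^ k)
    (fun k _ => (⟨Γ.mul_mem (Γ.mul_mem (Γ.inv_mem (Γ.pow_mem hδ k)) hx) (Γ.pow_mem hδ k), a,
      le_rfl, hbd k⟩ : _ ∈ {γ : SUGroup n | γ ∈ Γ ∧ ∃ g : SUGroup n, ch g ≤ ch a ∧
        ds g γ ≤ ds 1 y})) (finite_ds hd (ch a) (ds 1 y))
  rcases lt_or_gt_of_ne hij with h | h
  · exact key i j h he
  · exact key j i h he.symm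

private theorem fl_par (hd : DiscreteTopology Γ) (hT : TF Γ) {ξ : Fin n → ℂ} (hξ : nq ξ = 1)
    {x : SUGroup n} (hx : x ∈ Γ) (hx1 : x ≠ 1) (hxP : x ∈ PS ξ) : Par Γ ξ := by
  refine ⟨hξ, fun δ hδ hs => ?_⟩
  rw [mem_PS hξ]
  refine ⟨(mem_St hξ).1 hs, le_antisymm (fl_key hd hT hξ hx hx1 hxP hδ hs) ?_⟩
  have h1 := fl_key hd hT hξ hx hx1 hxP (Γ.inv_mem hδ) ((St ξ).inv_mem hs)
  have h2 : mv δ⁻¹ ξ = ξ := (mem_St hξ).1 ((St ξ).inv_mem hs)
  rw [ml_inv hξ, h2, norm_inv] at h1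
  have h3 : 0 < ‖ml δ ξ‖ := norm_pos_iff.2 (ml_ne_zero hξ _)
  rwa [inv_le_one₀ h3] at h1

end Aux

/-- PROOF (compare `GX.fix_null`, whose private lemmas may be copied): `Γ' ≤ Γ` torsion free of finite index
(`exists_tor`), `p = c • pe ξ`, so `D ≤ St ξ`. If `D ∩ Γ'` contains a nontrivial element of `PS ξ` then `Par Γ' ξ` and the proof of
`GX.fix_null` applies to `D ∩ Γ'`. Otherwise `γ ↦ ‖ml γ ξ‖` is an injective homomorphism of `D ∩ Γ'` to the positive reals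
(`ml_mul`), so `D ∩ Γ'` is abelian. -/
theorem fix_line (hn : 2 ≤ n) {Γ : Subgroup (SUGroup n)} (hL : IsLattice Γ) (hf : FGG Γ) {p : Vec n}
    (hp : p ≠ 0) (hq : q p = 0) {D : Subgroup (SUGroup n)} (hD : D ≤ Γ)
    (hfix : ∀ γ ∈ D, ∃ c : ℂ, act γ p = c • p) :
    ∃ D' ≤ D, D'.relIndex D ≠ 0 ∧ Group.IsNilpotent D' := by
  obtain ⟨χ, hχ⟩ := exists_lat hL
  obtain ⟨Γ', hle, hfi, -, hTor⟩ := exists_tor hf
  obtain ⟨χ', hχ'⟩ := hχ.finite_index hle hfi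
  have hTF : TF Γ' := tf_of_tor hχ'.disc hTor
  obtain ⟨h0, ξ, hξ, he⟩ := exists_pe hp hq
  obtain ⟨c, hc⟩ : ∃ c, c = p (Fin.last n) := ⟨_, rfl⟩
  rw [← hc] at h0 he
  have hSt : D ≤ St ξ := by
    intro γ hγ
    obtain ⟨d, hd⟩ := hfix γ hγ
    refine ⟨d, ?_⟩
    rw [he, act_smul, smul_comm] at hd
    exact smul_right_injective _ h0 hd
  have hgi : (Γ' ⊓ D).relIndex D ≠ 0 := by
    rw [Subgroup.inf_relIndex_right]
    exact mt (Subgroup.relIndex_eq_zero_of_le_right hD) hfi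
  by_cases h : ∀ γ ∈ Γ' ⊓ D, γ ∈ PS ξ → γ = 1
  · refine ⟨Γ' ⊓ D, inf_le_right, hgi, ?_⟩
    have hcomm : ∀ x ∈ Γ' ⊓ D, ∀ y ∈ Γ' ⊓ D, x * y = y * x := by
      intro x hx y hy
      have hxs : x ∈ St ξ := hSt hx.2
      have hys : y ∈ St ξ := hSt hy.2
      have h1 : x * y * (y * x)⁻¹ = 1 := by
        refine h _ ((Γ' ⊓ D).mul_mem ((Γ' ⊓ D).mul_mem hx hy)
          ((Γ' ⊓ D).inv_mem ((Γ' ⊓ D).mul_mem hy hx))) ?_
        have hyx : y * x ∈ St ξ := (St ξ).mul_mem hys hxs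
        have hi : (y * x)⁻¹ ∈ St ξ := (St ξ).inv_mem hyx
        rw [mem_PS hξ]
        have e1 : mv (y * x)⁻¹ ξ = ξ := (mem_St hξ).1 hi
        refine ⟨(mem_St hξ).1 ((St ξ).mul_mem ((St ξ).mul_mem hxs hys) hi), ?_⟩
        have h3 : ml (y * x) ξ ≠ 0 := ml_ne_zero hξ _
        have e2 : ml (x * y) ξ = ml (y * x) ξ := by
          rw [ml_mul hξ, ml_mul hξ, (mem_St hξ).1 hys, (mem_St hξ).1 hxs, mul_comm]
        rw [ml_mul hξ, e1, e2, ml_inv hξ, e1, mul_inv_cancel₀ h3, norm_one]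
      rw [mul_inv_eq_one] at h1
      exact h1
    let _ : CommGroup (Γ' ⊓ D : Subgroup (SUGroup n)) :=
      { (inferInstance : Group (Γ' ⊓ D : Subgroup (SUGroup n))) with
        mul_comm := fun a b => Subtype.ext (hcomm a a.2 b b.2) }
    infer_instance
  · push Not at h
    obtain ⟨x, hx, hxP, hx1⟩ := h
    have hP := fl_par hχ'.disc hTF hξ hx.1 hx1 hxP
    obtain ⟨R, X, hX⟩ := exists_rays hχ' hTF
    obtain ⟨R', hR'⟩ := horo hTF hTor hχ'.disc hX hP ⟨x, hx.1, hx1, PS_le_St ξ hxP⟩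
    obtain ⟨Δ, -, hΔi, hΔn⟩ := exists_nilp hχ'.disc hP hR'
    refine ⟨Δ ⊓ D, inf_le_right, ?_, ?_⟩
    · rw [Subgroup.inf_relIndex_right]
      have h2 : Γ' ⊓ D ≤ Γ' ⊓ PS ξ := fun γ hγ => ⟨hγ.1, hP.2 γ hγ.1 (hSt hγ.2)⟩
      have h3 : Δ.relIndex (Γ' ⊓ D) ≠ 0 := mt (Subgroup.relIndex_eq_zero_of_le_right h2) hΔi
      exact Subgroup.relIndex_ne_zero_trans h3 hgi
    · have h1 : Group.IsNilpotent ((Δ ⊓ D).subgroupOf Δ) := inferInstance
      exact Group.nilpotent_of_mulEquiv (Subgroup.subgroupOfEquivOfLe inf_le_left)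

end Pool.Agent.Lib.MP_5d4057_al.RG
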