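import Pool.Agent.Lib.MP_5d4057_al.RG.RepC
import Pool.Agent.Lib.MP_5d4057_al.RG.CommS
import Pool.Agent.Lib.MP_5d4057_al.RG.FixL
import Pool.Agent.Lib.MP_5d4057_al.RC.WideD
import Pool.Agent.Lib.MP_5d4057_al.HM.RegAx
import Pool.Agent.Lib.MP_5d4057_al.GX.Nilp

/-!
# RG A8a: the image of a factor is commensurable with a standard one
-/

set_option autoImplicit false

namespace Pool.Agent.Lib.MP_5d4057_al.RG

open Matrix Filter Topology Pool.Agent.Lib.MP_5d4057_al Pool.Agent.Lib.MP_5d4057_al.Hyb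
  Pool.Agent.Lib.MP_5d4057_al.HM Pool.Agent.Lib.MP_5d4057_al.NU Pool.Agent.Lib.MP_5d4057_al.RC

open scoped ComplexOrder MatrixOrder Matrix.Norms.L2Operator

variable {m n : ℕ}

/-- `Geo` for a normal subgroup of finite index. -/
def GeoV (Γ : Subgroup (SUGroup m)) : Prop :=
  ∃ Γ' ≤ Γ, Γ'.relIndex Γ ≠ 0 ∧ (Γ'.subgroupOf Γ).Normal ∧ Geo Γ'

theorem geoV_of_geo {Γ : Subgroup (SUGroup m)} (h : Geo Γ) : GeoV Γ := by
  refine ⟨Γ, le_rfl, ?_, ?_, h⟩
  · rw [Subgroup.relIndex_self]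
    exact one_ne_zero
  · rw [Subgroup.subgroupOf_self]
    infer_instance

/-- The line orthogonal to the hyperplane is the only invariant line. -/
private theorem fa_line (hm : 1 ≤ m) {G : Type} {A : G → SUGroup (m + 1)} {τ : G → Mat (m + 1)}
    {g : SUGroup (m + 1)} (hs : Submodule.span ℂ (Set.range τ) = ⊤)
    (h : ∀ x, ∃ χ ψ : ℂ, (g⁻¹ * A x * g).toMatrix = dsum χ (ψ • τ x)) {p : Vec (m + 1)}
    (hp : ∀ x, ∃ c : ℂ, act (A x) p = c • p) : ∃ a : ℂ, p = a • act g (nrm m) := by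
  obtain ⟨a, w, hw⟩ : ∃ (a : ℂ) (w : Vec m), act g⁻¹ p = Fin.cons a w :=
    ⟨act g⁻¹ p 0, fun i => act g⁻¹ p i.succ, (Fin.cons_self_tail _).symm⟩
  have hpg : p = act g (Fin.cons a w) := by
    rw [← hw, ← act_mul, mul_inv_cancel, act_one]
  have hw0 : w = 0 := by
    by_contra hne
    obtain ⟨S, hS⟩ : ∃ S : Submodule ℂ (Mat (m + 1)), ∀ B, B ∈ S ↔ ∃ c : ℂ, B *ᵥ w = c • w := by
      refine ⟨{ carrier := {B | ∃ c : ℂ, B *ᵥ w = c • w}
                add_mem' := ?_
                zero_mem' := ⟨0, by rw [zero_mulVec, zero_smul]⟩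
                smul_mem' := ?_ }, fun B => Iff.rfl⟩
      · rintro B C ⟨b, hb⟩ ⟨c, hc⟩
        exact ⟨b + c, by rw [add_mulVec, hb, hc, add_smul]⟩
      · rintro r B ⟨b, hb⟩
        exact ⟨r * b, by rw [smul_mulVec, hb, smul_smul]⟩
    have hST : S = ⊤ := by
      rw [← top_le_iff, ← hs, Submodule.span_le]
      rintro _ ⟨x, rfl⟩
      rw [SetLike.mem_coe, hS]
      obtain ⟨χ, ψ, hx⟩ := h x
      obtain ⟨c, hc⟩ := hp x
      have h1 : act (g⁻¹ * A x * g) (Fin.cons a w) = c • Fin.cons a w := by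
        rw [act_mul, act_mul, ← hpg, hc, act_smul, hw]
      rw [act, hx, dsum_mulVec_cons] at h1
      have h2 : (ψ • τ x) *ᵥ w = c • w := by
        funext i
        have := congrFun h1 i.succ
        simpa using this
      have hψ : ψ ≠ 0 := by
        rintro rfl
        have h3 : (g⁻¹ * A x * g).toMatrix.det = 1 := det_toMatrix _
        rw [hx, zero_smul] at h3
        have h4 : dsum χ (0 : Mat (m + 1)) *ᵥ (Fin.cons 0 w : Vec (m + 1)) = 0 := by
          rw [dsum_mulVec_cons, zero_mulVec, mul_zero]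
          funext i
          refine Fin.cases ?_ (fun i => ?_) i <;> simp
        have h5 := Matrix.eq_zero_of_mulVec_eq_zero (by rw [h3]; exact one_ne_zero) h4
        apply hne
        funext i
        have := congrFun h5 i.succ
        simpa using this
      refine ⟨ψ⁻¹ * c, ?_⟩
      rw [smul_mulVec] at h2
      rw [← smul_smul, ← h2, smul_smul, inv_mul_cancel₀ hψ, one_smul]
    have h1 : ∀ v : Vec m, ∃ c : ℂ, v = c • w := by
      intro v
      obtain ⟨i, hi⟩ : ∃ i, w i ≠ 0 := by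
        by_contra hcon
        push Not at hcon
        exact hne (funext hcon)
      have h2 : Matrix.vecMulVec v (Pi.single i (w i)⁻¹) ∈ S := by
        rw [hST]
        trivial
      rw [hS] at h2
      obtain ⟨c, hc⟩ := h2
      refine ⟨c, ?_⟩
      rw [← hc, vecMulVec_mulVec, single_dotProduct, inv_mul_cancel₀ hi]
      simp
    obtain ⟨c, hc⟩ := h1 (Pi.single 0 1)
    obtain ⟨d, hd⟩ := h1 (Pi.single (Fin.last m) 1)
    have hlast : (Fin.last m) ≠ 0 := by
      intro h2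
      have := congrArg Fin.val h2
      simp at this
      omega
    have e1 := congrFun hc 0
    have e2 := congrFun hc (Fin.last m)
    have e3 := congrFun hd 0
    have e4 := congrFun hd (Fin.last m)
    rw [Pi.single_eq_same, Pi.smul_apply, smul_eq_mul] at e1 e4
    rw [Pi.single_eq_of_ne hlast, Pi.smul_apply, smul_eq_mul] at e2
    rw [Pi.single_eq_of_ne hlast.symm, Pi.smul_apply, smul_eq_mul] at e3
    have hc0 : c ≠ 0 := by
      rintro rfl
      rw [zero_mul] at e1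
      exact one_ne_zero e1
    have hd0 : d ≠ 0 := by
      rintro rfl
      rw [zero_mul] at e4
      exact one_ne_zero e4
    rcases mul_eq_zero.1 e2.symm with h2 | h2
    · exact hc0 h2
    · rw [h2, mul_zero] at e4
      exact one_ne_zero e4
  refine ⟨a, ?_⟩
  rw [hpg, hw0, ← act_smul]
  congr 1
  funext i
  refine Fin.cases ?_ (fun i => ?_) i
  · simp [nrm]
  · simp [nrm]

/-- The character is finite also on the subgroup. -/
private theorem fa_fin (hm : 1 ≤ m) {Γ Γ' : Subgroup (SUGroup m)} (hle : Γ' ≤ Γ)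
    (hN : (Γ'.subgroupOf Γ).Normal) {ρ : Γ →* SUGroup (m + 1)} (hfin : FinCh ρ)
    {τ : Γ' → Mat (m + 1)} (hs : Submodule.span ℂ (Set.range τ) = ⊤) {g : SUGroup (m + 1)}
    (h : ∀ x : Γ', ∃ χ ψ : ℂ,
      (g⁻¹ * ρ (Subgroup.inclusion hle x) * g).toMatrix = dsum χ (ψ • τ x)) :
    FinCh (ρ.comp (Subgroup.inclusion hle)) := by
  intro p hp0 hp
  obtain ⟨a, ha⟩ := fa_line (A := fun x => ρ (Subgroup.inclusion hle x)) hm hs h hp
  have ha0 : a ≠ 0 := by
    rintro rfl
    rw [zero_smul] at ha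
    exact hp0 ha
  have h1 : ∀ γ : Γ, ∃ c : ℂ, act (ρ γ) p = c • p := by
    intro γ
    have h2 : ∀ x : Γ', ∃ c : ℂ, act (ρ (Subgroup.inclusion hle x)) (act (ρ γ) p) =
        c • act (ρ γ) p := by
      intro x
      have h3 : γ⁻¹ * Subgroup.inclusion hle x * γ ∈ Γ'.subgroupOf Γ := by
        have h4 := hN.conj_mem (Subgroup.inclusion hle x) (by
          rw [Subgroup.mem_subgroupOf]
          exact x.2) γ⁻¹
        rwa [inv_inv] at h4
      rw [Subgroup.mem_subgroupOf] at h3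
      obtain ⟨c, hc⟩ := hp ⟨_, h3⟩
      refine ⟨c, ?_⟩
      have h5 : ρ (Subgroup.inclusion hle x) * ρ γ =
          ρ γ * ρ (γ⁻¹ * Subgroup.inclusion hle x * γ) := by
        rw [← map_mul, ← map_mul]
        congr 1
        group
      rw [← act_mul, h5, act_mul]
      have h6 : (ρ.comp (Subgroup.inclusion hle)) ⟨_, h3⟩ =
          ρ (γ⁻¹ * Subgroup.inclusion hle x * γ) := rfl
      rw [← h6, hc, act_smul]
    obtain ⟨b, hb⟩ := fa_line (A := fun x => ρ (Subgroup.inclusion hle x)) hm hs h h2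
    refine ⟨b * a⁻¹, ?_⟩
    rw [hb, ha, smul_smul, mul_assoc, inv_mul_cancel₀ ha0, mul_one]
  obtain ⟨N, hN0, hN1⟩ := hfin p hp0 h1
  exact ⟨N, hN0, fun x => hN1 (Subgroup.inclusion hle x)⟩

/-- No invariant isotropic line. -/
private theorem fa_iso (hm : 2 ≤ m) {Γ : Subgroup (SUGroup m)} (hL : IsLattice Γ)
    {G : Subgroup (SUGroup (m + 1))} (hG : IsLattice G) (hf : FGG G)
    (ρ : Γ →* SUGroup (m + 1)) (hinj : Function.Injective ρ) (hρ : ρ.range ≤ G)
    (p : Vec (m + 1)) (hp : p ≠ 0) (hq : q p = 0) :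
    ¬ ∀ γ : Γ, ∃ c : ℂ, act (ρ γ) p = c • p := by
  intro h
  obtain ⟨D', hle, hfi, hnil⟩ := fix_line (by omega) hG hf hp hq hρ (by
    rintro _ ⟨γ, rfl⟩
    exact h γ)
  obtain ⟨E, hE⟩ : ∃ E : Subgroup Γ, E = D'.comap ρ := ⟨_, rfl⟩
  have hEfi : E.index ≠ 0 := by
    rw [hE, Subgroup.index_comap]
    exact hfi
  have hEnil : Group.IsNilpotent E := by
    let φ : E →* D' := (ρ.comp E.subtype).codRestrict D' (by
      rintro ⟨x, hx⟩
      rw [hE] at hx
      exact hx)
    have hφ : Function.Injective φ := by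
      intro x y hxy
      have h1 := congrArg Subtype.val hxy
      exact Subtype.ext (hinj h1)
    have h2 : Group.IsNilpotent φ.range := inferInstance
    exact Group.nilpotent_of_mulEquiv (MonoidHom.ofInjective hφ).symm
  have hmap : Group.IsNilpotent (E.map Γ.subtype) :=
    Group.nilpotent_of_mulEquiv (E.equivMapOfInjective Γ.subtype Γ.subtype_injective)
  refine GX.not_nilp (by omega) hL (D := E.map Γ.subtype) (Subgroup.map_subtype_le E) ?_ hmap
  rw [Subgroup.relIndex, Subgroup.subgroupOf, Subgroup.comap_map_eq_self_of_injective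
    Γ.subtype_injective]
  exact hEfi

private theorem fa_disc {Γ : Subgroup (SUGroup m)} {G : Subgroup (SUGroup n)}
    (hG : IsLattice G) (ρ : Γ →* SUGroup n) (hinj : Function.Injective ρ) (hρ : ρ.range ≤ G)
    (C : ℝ) : {γ : Γ | ‖(ρ γ).toMatrix‖ ≤ C}.Finite := by
  obtain ⟨χ, hχ⟩ := exists_lat hG
  have h1 := finite_ch hχ.disc C
  refine Set.Finite.of_finite_image (f := ρ) (h1.subset ?_) hinj.injOn
  rintro _ ⟨γ, hγ, rfl⟩
  refine ⟨hρ ⟨γ, rfl⟩, ?_⟩
  exact (HM.Ax.norm_entry_le_op (ρ γ).toMatrix (Fin.last n) (Fin.last n)).trans hγ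

/-- The image of a factor is commensurable with a standard one. -/
theorem piece_comm (hm : 2 ≤ m) {Γ : Subgroup (SUGroup m)} (hL : IsLattice Γ) (hA : IsArith m Γ)
    (hΓ : GeoV Γ) {G : Subgroup (SUGroup (m + 1))} (hG : IsLattice G) (hf : FGG G)
    (ρ : Γ →* SUGroup (m + 1)) (hinj : Function.Injective ρ) (hρ : ρ.range ≤ G)
    (hfin : FinCh ρ) :
    ∃ (Λ : Subgroup (SUGroup m)) (g : SUGroup (m + 1)), IsLattice Λ ∧ IsArith m Λ ∧
      Subgroup.Commensurable (Λ.map (emb g)) ρ.range := by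
  obtain ⟨Γ', hle, hfi, hN, hgeo⟩ := hΓ
  have hL' : IsLattice Γ' := isLattice_of_relIndex hL hle hfi
  have hA' : IsArith m Γ' := by
    obtain ⟨K, A, O, hU, hO, hc⟩ := hA
    refine ⟨K, A, O, hU, hO, Subgroup.Commensurable.trans ⟨hfi, ?_⟩ hc⟩
    rw [Subgroup.relIndex_eq_one.2 hle]
    exact one_ne_zero
  obtain ⟨ρ', hρ'⟩ : ∃ ρ' : Γ' →* SUGroup (m + 1), ρ' = ρ.comp (Subgroup.inclusion hle) :=
    ⟨_, rfl⟩
  have hinj' : Function.Injective ρ' := by
    rw [hρ']
    exact hinj.comp (Subgroup.inclusion_injective hle)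
  have hrg' : ρ'.range ≤ ρ.range := by
    rintro _ ⟨x, rfl⟩
    exact ⟨Subgroup.inclusion hle x, by rw [hρ']; rfl⟩
  have hcomm : Subgroup.Commensurable ρ'.range ρ.range := by
    constructor
    · have h1 : ρ'.range = (Γ'.subgroupOf Γ).map ρ := by
        rw [hρ', MonoidHom.range_comp, Subgroup.inclusion_range]
      rw [h1, MonoidHom.range_eq_map, Subgroup.relIndex_map_map_of_injective _ _ hinj]
      rw [Subgroup.relIndex_top_right]
      exact hfi
    · rw [Subgroup.relIndex_eq_one.2 hrg']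
      exact one_ne_zero
  obtain ⟨g, hg⟩ := rep_std hm hgeo ρ' (fa_disc hG ρ' hinj' (hrg'.trans hρ))
    (fun p hp hq => fa_iso hm hL' hG hf ρ' hinj' (hrg'.trans hρ) p hp hq)
  have hs := span_top (by omega) Γ' hL'
  have hs1 : Submodule.span ℂ (Set.range fun x : Γ' => (x : SUGroup m).toMatrix) = ⊤ := by
    rw [← hs]
    congr 1
    ext A
    constructor
    · rintro ⟨x, rfl⟩
      exact ⟨x, x.2, rfl⟩
    · rintro ⟨x, hx, rfl⟩
      exact ⟨⟨x, hx⟩, rfl⟩
  have hs2 : Submodule.span ℂ (Set.range fun x : Γ' => (x : SUGroup m).toMatrix.map cj) = ⊤ :=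
    span_rhoT cj Γ' hs
  rcases hg with hg | hg
  · have hfin' : FinCh ρ' := by
      rw [hρ']
      refine fa_fin (by omega) hle hN hfin hs1 (g := g) fun x => ?_
      have := hg x
      rwa [hρ'] at this
    obtain ⟨Λ, h1, h2, h3⟩ := comm_of_twd hL' hA' hg hfin'
    exact ⟨Λ, g, h1, h2, h3.trans hcomm⟩
  · have hfin' : FinCh ρ' := by
      rw [hρ']
      refine fa_fin (by omega) hle hN hfin hs2 (g := g) fun x => ?_
      have := hg x
      rwa [hρ'] at this
    obtain ⟨Λ, h1, h2, h3⟩ := comm_of_twc hL' hA' hg hfin'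
    exact ⟨Λ, g, h1, h2, h3.trans hcomm⟩

end Pool.Agent.Lib.MP_5d4057_al.RG
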