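import Pool.Agent.Lib.MP_5d4057_al.RG.Defs
import Pool.Agent.Lib.MP_5d4057_al.CF.Pol

/-!
# RG A2: isometries of codimension one and the representation
-/

set_option autoImplicit false

namespace Pool.Agent.Lib.MP_5d4057_al.RG

open Matrix Filter Topology Pool.Agent.Lib.MP_5d4057_al Pool.Agent.Lib.MP_5d4057_al.Hyb
  Pool.Agent.Lib.MP_5d4057_al.HM

variable {m n : ℕ}

/-- The matrix with the columns `e, A`. -/
private def fr_col (e : Vec (m + 1)) (A : Matrix (Fin (m + 2)) (Fin (m + 1)) ℂ) :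
    Matrix (Fin (m + 2)) (Fin (m + 2)) ℂ := Matrix.of fun i => Fin.cons (e i) (A i)

private theorem fr_col_mulVec (e : Vec (m + 1)) (A : Matrix (Fin (m + 2)) (Fin (m + 1)) ℂ)
    (w : Vec (m + 1)) : fr_col e A *ᵥ w = w 0 • e + A *ᵥ (fun i => w i.succ) := by
  funext i
  rw [mulVec, dotProduct, Fin.sum_univ_succ, Pi.add_apply, Pi.smul_apply, smul_eq_mul, mul_comm,
    mulVec, dotProduct]
  rfl

private theorem fr_herm_succ (v w : Vec (m + 1)) :
    herm v w = star (v 0) * w 0 + herm (fun i => v i.succ : Vec m) (fun i => w i.succ : Vec m) := by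
  have hv : v = Fin.cons (v 0) (fun i => v i.succ) := (Fin.cons_self_tail v).symm
  have hw : w = Fin.cons (w 0) (fun i => w i.succ) := (Fin.cons_self_tail w).symm
  have hs : star v = Fin.cons (star (v 0)) (star (fun i => v i.succ : Vec m)) := by
    funext i
    refine Fin.cases rfl (fun i => rfl) i
  rw [herm, J_succ, hs]
  conv_lhs => rw [hw]
  rw [dsum_mulVec_cons, cons_dot_cons, one_mul, herm]

private theorem fr_herm_A {A : Matrix (Fin (m + 2)) (Fin (m + 1)) ℂ}
    (hA : Aᴴ * J (m + 1) * A = J m) (v w : Vec m) : herm (A *ᵥ v : Vec (m + 1)) (A *ᵥ w) = herm v w := by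
  rw [herm, herm, star_mulVec, mulVec_mulVec, ← dotProduct_mulVec, mulVec_mulVec,
    ← Matrix.mul_assoc, hA]

/-- An isometry for the forms is the restriction of an element of `SU(m+1,1)`. PROOF: the orthogonal complement of
the range is a positive line; choose a vector `e` in it with `q e = 1` and the phase such that the matrix with the
columns `e, A` has determinant `1` (multiplying `e` by a unit scalar does not change `q e`; the determinant has
absolute value `1` since `Mᴴ J M = J`). -/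
theorem exists_su {A : Matrix (Fin (m + 2)) (Fin (m + 1)) ℂ} (hA : Aᴴ * J (m + 1) * A = J m) :
    ∃ g : SUGroup (m + 1), ∀ v : Vec m, A *ᵥ v = act g (inc m v) := by
  -- a vector orthogonal to the range
  obtain ⟨e, he0, heA⟩ : ∃ e : Vec (m + 1), e ≠ 0 ∧ ∀ w : Vec m, herm (A *ᵥ w) e = 0 := by
    have h1 : LinearMap.ker ((Aᴴ * J (m + 1)).mulVecLin) ≠ ⊥ := by
      refine LinearMap.ker_ne_bot_of_finrank_lt ?_
      rw [Module.finrank_fintype_fun_eq_card, Module.finrank_fintype_fun_eq_card, Fintype.card_fin,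
        Fintype.card_fin]
      omega
    obtain ⟨e, he, he0⟩ := (Submodule.ne_bot_iff _).1 h1
    refine ⟨e, he0, fun w => ?_⟩
    rw [LinearMap.mem_ker, Matrix.mulVecLin_apply] at he
    rw [herm, star_mulVec, ← dotProduct_mulVec, mulVec_mulVec, he, dotProduct_zero]
  have hq : 0 < q e := by
    refine q_pos_of_orth (v := A *ᵥ base m) ?_ (heA _) he0
    show q (A *ᵥ base m : Vec (m + 1)) < 0
    rw [q, fr_herm_A hA, herm_self, q_base]
    norm_num
  -- normalisation
  obtain ⟨e', he', heA'⟩ : ∃ e' : Vec (m + 1), herm e' e' = 1 ∧ ∀ w : Vec m, herm (A *ᵥ w) e' = 0 := by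
    refine ⟨((Real.sqrt (q e))⁻¹ : ℂ) • e, ?_, fun w => ?_⟩
    · rw [herm_self, q_smul, norm_inv, Complex.norm_real, Real.norm_eq_abs,
        abs_of_nonneg (Real.sqrt_nonneg _), inv_pow, Real.sq_sqrt hq.le, inv_mul_cancel₀ hq.ne',
        Complex.ofReal_one]
    · rw [herm_smul_right, heA w, mul_zero]
  set M := fr_col e' A with hM
  have hMJ : Mᴴ * J (m + 1) * M = J (m + 1) := by
    refine Kak.pres_of_herm fun v w => ?_
    have h1 : ∀ x : Vec m, herm e' (A *ᵥ x) = 0 := fun x => by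
      rw [herm_comm, heA' x, star_zero]
    rw [hM, fr_col_mulVec, fr_col_mulVec, fr_herm_succ v w, herm_add_left, herm_add_right,
      herm_add_right, herm_smul_left, herm_smul_left, herm_smul_right, herm_smul_right, he', h1,
      heA', fr_herm_A hA]
    ring
  have hdet : star M.det * M.det = 1 := by
    have h1 := congrArg Matrix.det hMJ
    rw [det_mul, det_mul, det_conjTranspose] at h1
    have hJ : (J (m + 1)).det ≠ 0 := by
      rw [J, det_diagonal, Finset.prod_ne_zero_iff]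
      intro i _
      split_ifs <;> norm_num
    have h2 : (J (m + 1)).det * (star M.det * M.det) = (J (m + 1)).det * 1 := by
      rw [mul_one]
      linear_combination h1
    exact mul_left_cancel₀ hJ h2
  set D : Matrix (Fin (m + 2)) (Fin (m + 2)) ℂ := dsum (star M.det) 1 with hD
  have hdet2 : (M * D).det = 1 := by
    rw [det_mul, hD, det_dsum, det_one, mul_one, mul_comm]
    exact hdet
  have hDJ : Dᴴ * J (m + 1) * D = J (m + 1) := by
    rw [hD, dsum_conjTranspose, star_star, J_succ, dsum_mul, dsum_mul, conjTranspose_one,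
      Matrix.one_mul, Matrix.mul_one, mul_one, mul_comm, hdet]
  have hpres : (M * D)ᴴ * J (m + 1) * (M * D) = J (m + 1) := by
    calc (M * D)ᴴ * J (m + 1) * (M * D) = Dᴴ * (Mᴴ * J (m + 1) * M) * D := by
          rw [conjTranspose_mul]
          simp only [Matrix.mul_assoc]
      _ = J (m + 1) := by rw [hMJ, hDJ]
  refine ⟨ofMatrix (M * D) hdet2 hpres, fun v => ?_⟩
  rw [act, toMatrix_ofMatrix, ← mulVec_mulVec, hD, dsum_mulVec_inc, one_mulVec, hM, fr_col_mulVec,
    inc_zero, zero_smul, zero_add]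
  rfl

/-- Two linear maps which are proportional at each vector of the cone, the second one injective, are proportional.
(`CF.prop_of_prop` has the hypothesis for all vectors; the cone is open and not empty: for `w` use `base + s w` and
`base - s w`.) -/
theorem prop_cone {A B : Matrix (Fin (n + 1)) (Fin (m + 1)) ℂ}
    (hB : Function.Injective fun v : Vec m => B *ᵥ v)
    (h : ∀ v ∈ Cone m, ∃ c : ℂ, A *ᵥ v = c • (B *ᵥ v)) : ∃ c : ℂ, A = c • B := by
  obtain ⟨c, hc⟩ := h (base m) (base_mem m)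
  refine ⟨c, ?_⟩
  have key : ∀ w : Vec m, A *ᵥ w = c • (B *ᵥ w) := by
    intro w
    -- small multiples
    obtain ⟨s, hs0, hs1, hs2⟩ : ∃ s : ℝ, s ≠ 0 ∧ base m + (s : ℂ) • w ∈ Cone m ∧
        base m + (-s : ℂ) • w ∈ Cone m := by
      have hc1 : Continuous fun s : ℝ => base m + (s : ℂ) • w := by fun_prop
      have hc2 : Continuous fun s : ℝ => base m + (-s : ℂ) • w := by fun_prop
      have h1 : ∀ᶠ s : ℝ in 𝓝 0, base m + (s : ℂ) • w ∈ Cone m := by
        refine hc1.continuousAt.eventually_mem ?_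
        rw [Complex.ofReal_zero, zero_smul, add_zero]
        exact (isOpen_cone m).mem_nhds (base_mem m)
      have h2 : ∀ᶠ s : ℝ in 𝓝 0, base m + (-s : ℂ) • w ∈ Cone m := by
        refine hc2.continuousAt.eventually_mem ?_
        rw [Complex.ofReal_zero, neg_zero, zero_smul, add_zero]
        exact (isOpen_cone m).mem_nhds (base_mem m)
      have h3 := (h1.and h2).filter_mono (nhdsWithin_le_nhds (s := {(0 : ℝ)}ᶜ))
      obtain ⟨s, ⟨hs1, hs2⟩, hs0⟩ := (h3.and self_mem_nhdsWithin).exists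
      exact ⟨s, hs0, hs1, hs2⟩
    obtain ⟨d, hd⟩ := h _ hs1
    obtain ⟨d', hd'⟩ := h _ hs2
    rw [mulVec_add, mulVec_add, mulVec_smul, mulVec_smul, hc] at hd hd'
    have hsC : (s : ℂ) ≠ 0 := by exact_mod_cast hs0
    have e1 : A *ᵥ w = d • (B *ᵥ w) + ((d - c) * (s : ℂ)⁻¹) • (B *ᵥ base m) := by
      have h1 : (s : ℂ) • (A *ᵥ w) = (s : ℂ) • (d • (B *ᵥ w)) + (d - c) • (B *ᵥ base m) := by
        have h2 : (s : ℂ) • (A *ᵥ w) = (c • (B *ᵥ base m) + (s : ℂ) • (A *ᵥ w)) -
            c • (B *ᵥ base m) := by module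
        rw [h2, hd]
        module
      have h3 : A *ᵥ w = (s : ℂ)⁻¹ • ((s : ℂ) • (A *ᵥ w)) := by
        rw [smul_smul, inv_mul_cancel₀ hsC, one_smul]
      rw [h3, h1, smul_add, smul_smul, inv_mul_cancel₀ hsC, one_smul, smul_smul, mul_comm]
    have e2 : A *ᵥ w = d' • (B *ᵥ w) - ((d' - c) * (s : ℂ)⁻¹) • (B *ᵥ base m) := by
      have h1 : (s : ℂ) • (A *ᵥ w) = (s : ℂ) • (d' • (B *ᵥ w)) - (d' - c) • (B *ᵥ base m) := by
        have h2 : (s : ℂ) • (A *ᵥ w) = c • (B *ᵥ base m) -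
            (c • (B *ᵥ base m) + (-s : ℂ) • (A *ᵥ w)) := by module
        rw [h2, hd']
        module
      have h3 : A *ᵥ w = (s : ℂ)⁻¹ • ((s : ℂ) • (A *ᵥ w)) := by
        rw [smul_smul, inv_mul_cancel₀ hsC, one_smul]
      rw [h3, h1, smul_sub, smul_smul, inv_mul_cancel₀ hsC, one_smul, smul_smul, mul_comm (s : ℂ)⁻¹]
    have h0 : B *ᵥ ((d - d') • w + (((d - c) + (d' - c)) * (s : ℂ)⁻¹) • base m) = B *ᵥ 0 := by
      rw [mulVec_add, mulVec_smul, mulVec_smul, mulVec_zero]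
      have h1 := e1.symm.trans e2
      have h2 : (d - d') • (B *ᵥ w) + (((d - c) + (d' - c)) * (s : ℂ)⁻¹) • (B *ᵥ base m) =
          (d • (B *ᵥ w) + ((d - c) * (s : ℂ)⁻¹) • (B *ᵥ base m)) -
            (d' • (B *ᵥ w) - ((d' - c) * (s : ℂ)⁻¹) • (B *ᵥ base m)) := by module
      rw [h2, h1, sub_self]
    have h1 : (d - d') • w + (((d - c) + (d' - c)) * (s : ℂ)⁻¹) • base m = 0 := hB h0
    by_cases hdd : d - d' = 0
    · rw [hdd, zero_smul, zero_add] at h1
      have hb : base m ≠ 0 := by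
        intro h2
        have := q_base m
        rw [h2, q_eq] at this
        simp at this
      have h2 := (smul_eq_zero.1 h1).resolve_right hb
      have h3 := (mul_eq_zero.1 h2).resolve_right (inv_ne_zero hsC)
      have h4 : d = c := by linear_combination (1 / 2 : ℂ) * h3 + (1 / 2 : ℂ) * hdd
      rw [e1, h4, sub_self, zero_mul, zero_smul, add_zero]
    · have h2 : w = (-(d - d')⁻¹ * (((d - c) + (d' - c)) * (s : ℂ)⁻¹)) • base m := by
        have h3 : w = (d - d')⁻¹ • ((d - d') • w) := by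
          rw [smul_smul, inv_mul_cancel₀ hdd, one_smul]
        rw [h3, eq_neg_of_add_eq_zero_left h1]
        module
      rw [h2, mulVec_smul, mulVec_smul, hc, smul_comm]
  ext i j
  have h1 := congrFun (key (Pi.single j 1)) i
  rw [mulVec_single_one, Pi.smul_apply, mulVec_single_one] at h1
  exact h1

/-- The image of `ρ` is standard with two characters. -/
def Twd {Γ : Subgroup (SUGroup m)} (ρ : Γ →* SUGroup (m + 1)) (g : SUGroup (m + 1)) : Prop :=
  ∀ x : Γ, ∃ χ ψ : ℂ, (g⁻¹ * ρ x * g).toMatrix = dsum χ (ψ • (x : SUGroup m).toMatrix)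

/-- The image of `ρ` is conjugate standard with two characters. -/
def Twc {Γ : Subgroup (SUGroup m)} (ρ : Γ →* SUGroup (m + 1)) (g : SUGroup (m + 1)) : Prop :=
  ∀ x : Γ, ∃ χ ψ : ℂ, (g⁻¹ * ρ x * g).toMatrix = dsum χ (ψ • (x : SUGroup m).toMatrix.map cj)

/-- The block form of an isometry which preserves the hyperplane. -/
private theorem fr_block {N : Matrix (Fin (m + 2)) (Fin (m + 2)) ℂ}
    (hN : Nᴴ * J (m + 1) * N = J (m + 1)) (x : SUGroup m)
    (h : ∀ v ∈ Cone m, ∃ c : ℂ, N *ᵥ inc m v = c • inc m (act x v)) :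
    ∃ χ ψ : ℂ, N = dsum χ (ψ • x.toMatrix) := by
  obtain ⟨P, hP⟩ : ∃ P : Matrix (Fin (m + 2)) (Fin (m + 1)) ℂ, P = Matrix.of fun i j => N i j.succ :=
    ⟨_, rfl⟩
  obtain ⟨Q, hQ⟩ : ∃ Q : Matrix (Fin (m + 2)) (Fin (m + 1)) ℂ,
      Q = Matrix.of fun i j => (Fin.cons 0 (fun i => x.toMatrix i j) : Fin (m + 2) → ℂ) i := ⟨_, rfl⟩
  have hPv : ∀ v : Vec m, P *ᵥ v = N *ᵥ inc m v := by
    intro v
    funext i
    show ∑ j, P i j * v j = ∑ j, N i j * inc m v j
    rw [Fin.sum_univ_succ (f := fun j => N i j * inc m v j), inc_zero, mul_zero, zero_add, hP]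
    rfl
  have hQv : ∀ v : Vec m, Q *ᵥ v = inc m (act x v) := by
    intro v
    funext i
    refine Fin.cases ?_ (fun i => ?_) i
    · rw [inc_zero, mulVec, dotProduct, hQ]
      simp
    · rw [inc_succ, act, mulVec, mulVec, hQ]
      rfl
  have hinj : Function.Injective fun v : Vec m => Q *ᵥ v := by
    intro v w hvw
    simp only [hQv] at hvw
    have h1 : act x v = act x w := by
      funext i
      have := congrFun hvw i.succ
      rwa [inc_succ, inc_succ] at this
    have h2 := congrArg (act x⁻¹) h1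
    rwa [← act_mul, ← act_mul, inv_mul_cancel, act_one, act_one] at h2
  obtain ⟨ψ, hψ⟩ := prop_cone (A := P) (B := Q) hinj fun v hv => by
    obtain ⟨c, hc⟩ := h v hv
    exact ⟨c, by rw [hPv, hQv, hc]⟩
  have hall : ∀ v : Vec m, N *ᵥ inc m v = ψ • inc m (act x v) := by
    intro v
    rw [← hPv, hψ, smul_mulVec, hQv]
  have hherm : ∀ v w : Vec (m + 1), herm (N *ᵥ v) (N *ᵥ w) = herm v w := by
    intro v w
    rw [herm, herm, star_mulVec, mulVec_mulVec, ← dotProduct_mulVec, mulVec_mulVec,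
      ← Matrix.mul_assoc, hN]
  have hψ0 : ψ ≠ 0 := by
    intro h0
    have h1 := hherm (inc m (base m)) (inc m (base m))
    rw [hall, h0, zero_smul, herm_inc, herm_self (base m), q_base, herm_self, q_eq] at h1
    simp at h1
  have hcol : ∀ i : Fin (m + 1), N i.succ 0 = 0 := by
    obtain ⟨u, hu⟩ : ∃ u : Vec m, u = fun i => N i.succ 0 := ⟨_, rfl⟩
    have h1 : ∀ w : Vec m, herm u w = 0 := by
      intro w
      have h2 := hherm (Fin.cons 1 0) (inc m (act x⁻¹ w))
      rw [hall, ← act_mul, mul_inv_cancel, act_one, herm_smul_right,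
        fr_herm_succ (Fin.cons 1 0) (inc m (act x⁻¹ w)), inc_zero, mul_zero, zero_add,
        fr_herm_succ, inc_zero, mul_zero, zero_add] at h2
      have h3 : (fun i => (Fin.cons 1 0 : Vec (m + 1)) (Fin.succ i) : Vec m) = 0 := by
        funext i
        simp
      have h4 : (fun i => (N *ᵥ (Fin.cons 1 0 : Vec (m + 1))) (Fin.succ i) : Vec m) = u := by
        funext i
        rw [hu, mulVec, dotProduct, Fin.sum_univ_succ]
        simp
      have h5 : (fun i => inc m w (Fin.succ i) : Vec m) = w := by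
        funext i
        rw [inc_succ]
      rw [h3, h4, h5] at h2
      have h6 : herm (0 : Vec m) (fun i => inc m (act x⁻¹ w) (Fin.succ i) : Vec m) = 0 := by
        rw [herm, star_zero, zero_dotProduct]
      rw [h6] at h2
      exact (mul_eq_zero.1 h2).resolve_left hψ0
    have h2 : u = 0 := by
      by_contra hne
      have h3 : herm (base m) u = 0 := by
        rw [herm_comm, h1, star_zero]
      have h4 := q_pos_of_orth (base_mem m) h3 hne
      have h5 := h1 u
      rw [herm_self] at h5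
      have h6 : q u = 0 := by exact_mod_cast h5
      rw [h6] at h4
      exact lt_irrefl _ h4
    intro i
    have := congrFun h2 i
    rw [hu] at this
    exact this
  refine ⟨N 0 0, ψ, ?_⟩
  have hent : ∀ (i : Fin (m + 2)) (j : Fin (m + 1)), N i j.succ =
      ψ * (Fin.cons 0 (fun i => x.toMatrix i j) : Fin (m + 2) → ℂ) i := by
    intro i j
    have h1 := congrFun (congrFun hψ i) j
    rw [hP, hQ] at h1
    exact h1
  ext i j
  refine Fin.cases ?_ (fun i => ?_) i <;> refine Fin.cases ?_ (fun j => ?_) j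
  · rw [dsum_zero_zero]
  · rw [dsum_zero_succ, hent, Fin.cons_zero, mul_zero]
  · rw [dsum_succ_zero, hcol]
  · rw [dsum_succ_succ, hent, Fin.cons_succ, Matrix.smul_apply, smul_eq_mul]

/-- The common part of the two cases. -/
private theorem fr_tw {Γ : Subgroup (SUGroup m)} (R : Γ → Matrix (Fin (m + 2)) (Fin (m + 2)) ℂ)
    (hR : ∀ x, (R x)ᴴ * J (m + 1) * R x = J (m + 1)) {f : Vec m → Vec (m + 1)}
    (he : ∀ γ : Γ, ∀ v ∈ Cone m, ∃ c : ℂ, c ≠ 0 ∧ f (act (γ : SUGroup m) v) = c • (R γ *ᵥ f v))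
    {A : Matrix (Fin (m + 2)) (Fin (m + 1)) ℂ} (hA : Aᴴ * J (m + 1) * A = J m)
    (hA' : ∀ v ∈ Cone m, ∃ c : ℂ, c ≠ 0 ∧ f v = c • (A *ᵥ v)) :
    ∃ g : SUGroup (m + 1), ∀ x : Γ, ∃ χ ψ : ℂ,
      (g⁻¹).toMatrix * R x * g.toMatrix = dsum χ (ψ • (x : SUGroup m).toMatrix) := by
  obtain ⟨g, hg⟩ := exists_su hA
  refine ⟨g, fun x => ?_⟩
  refine fr_block ?_ (x : SUGroup m) ?_
  · calc ((g⁻¹).toMatrix * R x * g.toMatrix)ᴴ * J (m + 1) * ((g⁻¹).toMatrix * R x * g.toMatrix)
        = g.toMatrixᴴ * ((R x)ᴴ * ((g⁻¹).toMatrixᴴ * J (m + 1) * (g⁻¹).toMatrix) * R x) *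
          g.toMatrix := by
          rw [conjTranspose_mul, conjTranspose_mul]
          simp only [Matrix.mul_assoc]
      _ = J (m + 1) := by rw [pres, hR, pres]
  · intro v hv
    obtain ⟨c₁, hc₁, h1⟩ := he x v hv
    obtain ⟨c₂, hc₂, h2⟩ := hA' v hv
    obtain ⟨c₃, hc₃, h3⟩ := hA' _ (act_mem (x : SUGroup m) hv)
    rw [h2, h3, mulVec_smul, hg, hg] at h1
    refine ⟨c₁⁻¹ * c₂⁻¹ * c₃, ?_⟩
    have h4 : R x *ᵥ act g (inc m v) = (c₁⁻¹ * c₂⁻¹ * c₃) • act g (inc m (act (x : SUGroup m) v)) := by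
      have h5 : R x *ᵥ act g (inc m v) = (c₁⁻¹ * c₂⁻¹) • (c₁ • c₂ • (R x *ᵥ act g (inc m v))) := by
        rw [smul_smul, smul_smul]
        have : c₁⁻¹ * c₂⁻¹ * c₁ * c₂ = 1 := by field_simp
        rw [this, one_smul]
      rw [h5, ← h1, smul_smul]
    rw [← mulVec_mulVec, ← mulVec_mulVec]
    have h5 : g.toMatrix *ᵥ inc m v = act g (inc m v) := rfl
    rw [h5, h4, mulVec_smul]
    have h6 : (g⁻¹).toMatrix *ᵥ act g (inc m (act (x : SUGroup m) v)) =
        act g⁻¹ (act g (inc m (act (x : SUGroup m) v))) := rfl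
    rw [h6, ← act_mul, inv_mul_cancel, act_one]

/-- PROOF: `exists_su` gives `g` with `A *ᵥ v = act g (inc m v)`; for `v` in the cone `ρ x (A v)` is a multiple of `A (x v)`
(by `Eqv`), so `M = g⁻¹ ρ x g` maps `inc v` to a multiple of `inc (x v)`; `prop_cone`: `M (inc v) = ψ • inc (x v)` for all `v`; so the
columns `1, 2, ...` of `M` are those of `dsum χ (ψ x)`, and the first row is `(χ, 0)` since `M` preserves the form (the
orthogonal complement of the range of `inc` is `ℂ e_0`). -/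
theorem twd_of_lin {Γ : Subgroup (SUGroup m)} {ρ : Γ →* SUGroup (m + 1)}
    {f : Vec m → Vec (m + 1)} (hf : ∀ v ∈ Cone m, f v ≠ 0)
    (he : ∀ γ : Γ, ∀ v ∈ Cone m, ∃ c : ℂ, c ≠ 0 ∧ f (act (γ : SUGroup m) v) = c • act (ρ γ) (f v))
    {A : Matrix (Fin (m + 2)) (Fin (m + 1)) ℂ} (hA : Aᴴ * J (m + 1) * A = J m)
    (hA' : ∀ v ∈ Cone m, ∃ c : ℂ, c ≠ 0 ∧ f v = c • (A *ᵥ v)) : ∃ g, Twd ρ g := by
  obtain ⟨g, hg⟩ := fr_tw (fun x => (ρ x).toMatrix) (fun x => pres (ρ x)) he hA hA'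
  refine ⟨g, fun x => ?_⟩
  obtain ⟨χ, ψ, h⟩ := hg x
  exact ⟨χ, ψ, by rw [toMatrix_mul, toMatrix_mul, h]⟩

private theorem fr_map_conj {k l : ℕ} (A : Matrix (Fin k) (Fin l) ℂ) : (A.map cj)ᴴ = Aᴴ.map cj := by
  ext i j
  rfl

private theorem fr_map_mul {k l p : ℕ} (A : Matrix (Fin k) (Fin l) ℂ) (B : Matrix (Fin l) (Fin p) ℂ) :
    (A * B).map cj = A.map cj * B.map cj := by
  ext i j
  simp [Matrix.mul_apply, Matrix.map_apply, map_sum]

private theorem fr_map_map {k l : ℕ} (A : Matrix (Fin k) (Fin l) ℂ) : (A.map cj).map cj = A := by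
  ext i j
  simp [Matrix.map_apply, cj_apply]

private theorem fr_map_J (k : ℕ) : (J k).map cj = J k := by
  ext i j
  rw [Matrix.map_apply, J, diagonal_apply]
  split_ifs <;> simp

private theorem fr_map_pres {k : ℕ} {A : Matrix (Fin (k + 1)) (Fin (k + 1)) ℂ}
    (h : Aᴴ * J k * A = J k) : (A.map cj)ᴴ * J k * A.map cj = J k := by
  have h1 := congrArg (fun B : Matrix (Fin (k + 1)) (Fin (k + 1)) ℂ => B.map cj) h
  simp only [fr_map_mul, fr_map_J] at h1
  rw [fr_map_conj]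
  exact h1

/-- The same for the conjugate representation: `g₀` for `rcj ρ`, then `g` = the complex conjugate of `g₀`. -/
theorem twc_of_lin {Γ : Subgroup (SUGroup m)} {ρ : Γ →* SUGroup (m + 1)}
    {f : Vec m → Vec (m + 1)} (hf : ∀ v ∈ Cone m, f v ≠ 0)
    (he : ∀ γ : Γ, ∀ v ∈ Cone m, ∃ c : ℂ, c ≠ 0 ∧
      f (act (γ : SUGroup m) v) = c • ((ρ γ).toMatrix.map cj *ᵥ f v))
    {A : Matrix (Fin (m + 2)) (Fin (m + 1)) ℂ} (hA : Aᴴ * J (m + 1) * A = J m)
    (hA' : ∀ v ∈ Cone m, ∃ c : ℂ, c ≠ 0 ∧ f v = c • (A *ᵥ v)) : ∃ g, Twc ρ g := by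
  obtain ⟨g₀, hg₀⟩ := fr_tw (fun x => (ρ x).toMatrix.map cj) (fun x => fr_map_pres (pres (ρ x)))
    he hA hA'
  have hdet : (g₀.toMatrix.map cj).det = 1 := by
    have h1 : (g₀.toMatrix.map cj).det = cj g₀.toMatrix.det :=
      (RingEquiv.map_det cj g₀.toMatrix).symm
    rw [h1, show g₀.toMatrix.det = 1 from g₀.1.2, map_one]
  set g : SUGroup (m + 1) := ofMatrix (g₀.toMatrix.map cj) hdet (fr_map_pres (pres g₀)) with hg
  have hgm : g.toMatrix = g₀.toMatrix.map cj := rfl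
  have hginv : (g⁻¹).toMatrix = (g₀⁻¹).toMatrix.map cj := by
    have h1 : (g⁻¹).toMatrix * g.toMatrix = 1 := toMatrix_inv_mul g
    have h2 : (g₀⁻¹).toMatrix.map cj * g.toMatrix = 1 := by
      rw [hgm, ← fr_map_mul, toMatrix_inv_mul]
      exact Matrix.map_one cj (map_zero cj) (map_one cj)
    have h3 : g.toMatrix * (g⁻¹).toMatrix = 1 := mul_eq_one_comm.1 h1
    calc (g⁻¹).toMatrix = ((g₀⁻¹).toMatrix.map cj * g.toMatrix) * (g⁻¹).toMatrix := by
          rw [h2, Matrix.one_mul]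
      _ = _ := by rw [Matrix.mul_assoc, h3, Matrix.mul_one]
  refine ⟨g, fun x => ?_⟩
  obtain ⟨χ, ψ, h⟩ := hg₀ x
  refine ⟨cj χ, cj ψ, ?_⟩
  have h1 := congrArg (fun B : Matrix (Fin (m + 2)) (Fin (m + 2)) ℂ => B.map cj) h
  simp only [fr_map_mul, fr_map_map] at h1
  rw [toMatrix_mul, toMatrix_mul, hginv, hgm, h1]
  ext i j
  refine Fin.cases ?_ (fun i => ?_) i <;> refine Fin.cases ?_ (fun j => ?_) j <;>
    simp [Matrix.map_apply, Matrix.smul_apply]

end Pool.Agent.Lib.MP_5d4057_al.RG
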