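import Pool.Agent.Lib.MP_5d4057_al.RG.Defs
import Mathlib.RepresentationTheory.AlgebraRepresentation.Basic
import Mathlib.RingTheory.SimpleModule.Basic

/-!
# RG A3a: Burnside's theorem
-/

set_option autoImplicit false

namespace Pool.Agent.Lib.MP_5d4057_al.RG

open Matrix Filter Topology Pool.Agent.Lib.MP_5d4057_al Pool.Agent.Lib.MP_5d4057_al.Hyb
  Pool.Agent.Lib.MP_5d4057_al.HM

open scoped ComplexOrder MatrixOrder Matrix.Norms.L2Operator

variable {m n : ℕ}

/-- Burnside's theorem for subalgebras of the endomorphisms of a complex vector space. -/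
private theorem ra_burnside {V : Type} [AddCommGroup V] [Module ℂ V] [FiniteDimensional ℂ V]
    [Nontrivial V] (S : Subalgebra ℂ (Module.End ℂ V))
    (h : ∀ U : Submodule ℂ V, (∀ s ∈ S, ∀ u ∈ U, s u ∈ U) → U = ⊥ ∨ U = ⊤) : S = ⊤ := by
  have : IsScalarTower ℂ S V := ⟨fun a s v => by
    change ((a • s : S) : Module.End ℂ V) v = a • ((s : Module.End ℂ V) v)
    rfl⟩
  have : IsSimpleModule S V := by
    have : Nontrivial (Submodule S V) := inferInstance
    refine (isSimpleModule_iff S V).2 ⟨fun U => ?_⟩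
    have h1 := h (U.restrictScalars ℂ) (fun s hs u hu => U.smul_mem (⟨s, hs⟩ : S) hu)
    refine h1.imp (fun h2 => ?_) fun h2 => ?_
    · refine (Submodule.restrictScalars_injective ℂ S V) ?_
      rw [h2]
      rfl
    · refine (Submodule.restrictScalars_injective ℂ S V) ?_
      rw [h2]
      rfl
  have hsc := IsSimpleModule.algebraMap_end_bijective_of_isAlgClosed (A := S) (V := V) ℂ
  rw [eq_top_iff]
  intro φ _
  let f : Module.End (Module.End S V) V :=
    { toFun := φ
      map_add' := φ.map_add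
      map_smul' := fun e v => by
        obtain ⟨c, rfl⟩ := hsc.2 e
        change φ (c • v) = c • φ v
        exact φ.map_smul c v }
  obtain ⟨s, hs⟩ := Module.Finite.fg_top (R := ℂ) (M := V)
  obtain ⟨r, hr⟩ := jacobson_density f s
  have h3 : φ = (r : Module.End ℂ V) := by
    refine LinearMap.ext fun v => ?_
    have hv : v ∈ Submodule.span ℂ (s : Set V) := by rw [hs]; exact Submodule.mem_top
    induction hv using Submodule.span_induction with
    | mem x hx => exact hr x hx
    | zero => simp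
    | add x y _ _ h1 h2 => rw [map_add, map_add, h1, h2]
    | smul c x _ h1 => rw [map_smul, map_smul, h1]
  rw [h3]
  exact r.2

/-- Burnside. An irreducible group of matrices spans all matrices. -/
theorem span_of_irred {G : Type} [Group G] {k : ℕ} (σ : G →* Mat (k + 1))
    (h : ∀ U : Submodule ℂ (Fin (k + 1) → ℂ), (∀ g : G, ∀ u ∈ U, σ g *ᵥ u ∈ U) → U = ⊥ ∨ U = ⊤) :
    Submodule.span ℂ (Set.range σ) = ⊤ := by
  have h0 : Subalgebra.toSubmodule (Algebra.adjoin ℂ (Set.range σ)) =
      Submodule.span ℂ (Set.range σ) := by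
    refine Algebra.adjoin_eq_span_of_subset ℂ ?_
    have h1 : Submonoid.closure (Set.range σ) = MonoidHom.mrange σ := by
      rw [← MonoidHom.coe_mrange, Submonoid.closure_eq]
    rw [h1]
    exact Submodule.subset_span
  rw [← h0]
  have h2 : (Algebra.adjoin ℂ (Set.range σ)).map (Matrix.toLinAlgEquiv' (R := ℂ)).toAlgHom = ⊤ := by
    refine ra_burnside _ fun U hU => h U fun g u hu => ?_
    exact hU (Matrix.toLinAlgEquiv' (σ g))
      ⟨σ g, Algebra.subset_adjoin ⟨g, rfl⟩, rfl⟩ u hu
  rw [eq_top_iff]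
  intro A _
  have h3 : (Matrix.toLinAlgEquiv' (R := ℂ)) A ∈
      (Algebra.adjoin ℂ (Set.range σ)).map (Matrix.toLinAlgEquiv' (R := ℂ)).toAlgHom := by
    rw [h2]
    exact Algebra.mem_top
  obtain ⟨B, hB, hB'⟩ := h3
  have h4 : B = A := (Matrix.toLinAlgEquiv' (R := ℂ)).injective hB'
  rw [← h4]
  exact hB

end Pool.Agent.Lib.MP_5d4057_al.RG
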