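import Pool.Agent.Lib.MP_5d4057_al.RG.Defs

/-!
# RG A3b: a subspace which contains a negative vector is the range of an isometry
-/

set_option autoImplicit false

namespace Pool.Agent.Lib.MP_5d4057_al.RG

open Matrix Filter Topology Pool.Agent.Lib.MP_5d4057_al Pool.Agent.Lib.MP_5d4057_al.Hyb
  Pool.Agent.Lib.MP_5d4057_al.HM

open scoped ComplexOrder MatrixOrder Matrix.Norms.L2Operator

variable {m n : ℕ}

private theorem rb_core {E : Type} [AddCommGroup E] [Module ℂ E] [FiniteDimensional ℂ E]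
    (c : InnerProductSpace.Core ℂ E) :
    ∃ b : Fin (Module.finrank ℂ E) → E, (∀ i j, c.inner (b i) (b j) = if i = j then 1 else 0) ∧
      ∀ v : E, v = ∑ i, c.inner (b i) v • b i := by
  let _ : NormedAddCommGroup E := c.toNormedAddCommGroup
  let _ : InnerProductSpace ℂ E := InnerProductSpace.ofCore c.toCore
  let b := stdOrthonormalBasis ℂ E
  refine ⟨b, fun i j => ?_, fun v => ?_⟩
  · exact (orthonormal_iff_ite.1 b.orthonormal) i j
  · exact (b.sum_repr' v).symm

/-- The form on a positive definite subspace. -/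
private noncomputable def rb_form (U : Submodule ℂ (Vec n)) (hU : ∀ v ∈ U, v ≠ 0 → 0 < q v) :
    InnerProductSpace.Core ℂ U where
  inner x y := herm x.1 y.1
  conj_inner_symm x y := (herm_comm _ _).symm
  re_inner_nonneg x := by
    by_cases h : x.1 = 0
    · show 0 ≤ q x.1
      rw [h]
      have := q_smul (n := n) 0 0
      simp only [zero_smul, norm_zero, ne_eq, OfNat.ofNat_ne_zero, not_false_eq_true, zero_pow, zero_mul] at this
      rw [this]
    · exact (hU _ x.2 h).le
  add_left x y z := herm_add_left _ _ _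
  smul_left x y c := herm_smul_left _ _ _
  definite x h := by
    by_contra hx
    have h1 : 0 < q x.1 := hU _ x.2 fun h' => hx (Subtype.ext h')
    have h2 : herm x.1 x.1 = 0 := h
    rw [herm_self] at h2
    exact h1.ne' (by exact_mod_cast h2)

/-- Orthonormal bases of positive definite subspaces. -/
theorem exists_on {U : Submodule ℂ (Vec n)} (hU : ∀ v ∈ U, v ≠ 0 → 0 < q v) :
    ∃ b : Fin (Module.finrank ℂ U) → Vec n, (∀ i, b i ∈ U) ∧
      (∀ i j, herm (b i) (b j) = if i = j then 1 else 0) ∧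
      ∀ v ∈ U, v = ∑ i, herm (b i) v • b i := by
  obtain ⟨b, h1, h2⟩ := rb_core (rb_form U hU)
  refine ⟨fun i => (b i).1, fun i => (b i).2, fun i j => h1 i j, fun v hv => ?_⟩
  have h3 := congrArg (Subtype.val : U → Vec n) (h2 ⟨v, hv⟩)
  rw [AddSubmonoidClass.coe_finsetSum] at h3
  exact h3

/-- The orthogonal complement of a vector in a subspace. -/
private def rb_perp (V : Submodule ℂ (Vec n)) (w : Vec n) : Submodule ℂ (Vec n) where
  carrier := {v | v ∈ V ∧ herm w v = 0}
  add_mem' := fun {a b} ha hb => ⟨V.add_mem ha.1 hb.1, by rw [herm_add_right, ha.2, hb.2, add_zero]⟩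
  zero_mem' := ⟨V.zero_mem, by
    have := herm_smul_right w (0 : Vec n) 0
    rwa [zero_smul, zero_mul] at this⟩
  smul_mem' := fun c a ha => ⟨V.smul_mem c ha.1, by rw [herm_smul_right, ha.2, mul_zero]⟩

/-- A subspace which contains a negative vector is the range of an isometry. PROOF: choose `w ∈ V` with `q w = -1`; the
form is positive definite on `w^⊥ ∩ V`, `V = ℂ w ⊕ (w^⊥ ∩ V)`; an orthonormal basis of `w^⊥ ∩ V` followed by `w` gives the columns. -/
theorem exists_isom {V : Submodule ℂ (Vec n)} (h : ∃ w ∈ V, q w < 0) :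
    ∃ (k : ℕ) (T : Matrix (Fin (n + 1)) (Fin (k + 1)) ℂ), k ≤ n ∧ Tᴴ * J n * T = J k ∧
      ∀ v : Vec n, v ∈ V ↔ ∃ u : Vec k, v = T *ᵥ u := by
  obtain ⟨w₀, hw₀, hq₀⟩ := h
  -- normalise
  obtain ⟨w, hw, hq⟩ : ∃ w ∈ V, q w = -1 := by
    refine ⟨((Real.sqrt (-q w₀))⁻¹ : ℂ) • w₀, V.smul_mem _ hw₀, ?_⟩
    have h1 : 0 < -q w₀ := by linarith
    rw [q_smul, norm_inv, Complex.norm_real, Real.norm_eq_abs, inv_pow, sq_abs, Real.sq_sqrt h1.le]
    have h2 : q w₀ ≠ 0 := hq₀.ne
    rw [inv_mul_eq_div, div_neg, div_self h2]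
  have hwc : w ∈ Cone n := by
    show q w < 0
    rw [hq]; norm_num
  have hww : herm w w = -1 := by rw [herm_self, hq]; norm_num
  set W := rb_perp V w with hW
  obtain ⟨k, b, hk, hb1, hb2, hb3⟩ : ∃ (k : ℕ) (b : Fin k → Vec n), k = Module.finrank ℂ W ∧
      (∀ i, b i ∈ W) ∧ (∀ i j, herm (b i) (b j) = if i = j then 1 else 0) ∧
      ∀ v ∈ W, v = ∑ i, herm (b i) v • b i := by
    obtain ⟨b, hb⟩ := exists_on (U := W) fun v hv h0 => q_pos_of_orth hwc hv.2 h0
    exact ⟨_, b, rfl, hb⟩
  have hkn : k ≤ n := by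
    have h1 : W ≠ ⊤ := by
      intro h
      have h2 : w ∈ W := by rw [h]; trivial
      have h3 := h2.2
      rw [hww] at h3
      norm_num at h3
    have h2 := Submodule.finrank_lt h1
    rw [← hk, Module.finrank_fin_fun] at h2
    omega
  -- the columns
  set c : Fin (k + 1) → Vec n := Fin.snoc (α := fun _ => Vec n) b w with hc
  have hcl : c (Fin.last k) = w := by rw [hc, Fin.snoc_last]
  have hcs : ∀ i : Fin k, c i.castSucc = b i := fun i => by rw [hc, Fin.snoc_castSucc]
  set T : Matrix (Fin (n + 1)) (Fin (k + 1)) ℂ := Matrix.of fun i j => c j i with hT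
  have hTu : ∀ u : Vec k, T *ᵥ u = ∑ j, u j • c j := by
    intro u
    ext i
    rw [Finset.sum_apply, mulVec, dotProduct]
    exact Finset.sum_congr rfl fun j _ => mul_comm _ _
  refine ⟨k, T, hkn, ?_, fun v => ⟨fun hv => ?_, ?_⟩⟩
  · ext i j
    have h1 : (Tᴴ * J n * T) i j = herm (c i) (c j) := by
      rw [herm, Matrix.mul_assoc, mul_apply, dotProduct]
      rfl
    rw [h1]
    refine Fin.lastCases ?_ (fun i => ?_) i
    · refine Fin.lastCases ?_ (fun j => ?_) j
      · rw [hcl, hww, J, diagonal_apply_eq, if_pos rfl]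
      · rw [hcl, hcs, (hb1 j).2, J, diagonal_apply_ne _ (Fin.castSucc_ne_last j).symm]
    · refine Fin.lastCases ?_ (fun j => ?_) j
      · rw [hcl, hcs, herm_comm, (hb1 i).2, star_zero, J, diagonal_apply_ne _ (Fin.castSucc_ne_last i)]
      · rw [hcs, hcs, hb2, J, diagonal_apply, if_neg (Fin.castSucc_ne_last i)]
        simp only [Fin.castSucc_inj]
  · set a : ℂ := -herm w v with ha
    have h1 : v - a • w ∈ W := by
      refine ⟨V.sub_mem hv (V.smul_mem _ hw), ?_⟩
      rw [sub_eq_add_neg, herm_add_right, herm_neg_right, herm_smul_right, hww, ha]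
      ring
    have h2 := hb3 _ h1
    refine ⟨Fin.snoc (α := fun _ => ℂ) (fun i => herm (b i) (v - a • w)) a, ?_⟩
    rw [hTu, Fin.sum_univ_castSucc]
    simp only [Fin.snoc_castSucc, Fin.snoc_last, hcl, hcs]
    rw [← h2]
    exact (sub_add_cancel v (a • w)).symm
  · rintro ⟨u, rfl⟩
    rw [hTu]
    refine Submodule.sum_mem _ fun j _ => V.smul_mem _ ?_
    refine Fin.lastCases ?_ (fun j => ?_) j
    · rw [hcl]; exact hw
    · rw [hcs]; exact (hb1 j).1

end Pool.Agent.Lib.MP_5d4057_al.RG
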