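import Pool.Agent.Lib.MP_5d4057_al.RG.RedB

/-!
# RG A3c: an irreducible invariant subspace containing a negative vector
-/

set_option autoImplicit false

namespace Pool.Agent.Lib.MP_5d4057_al.RG

open Matrix Filter Topology Pool.Agent.Lib.MP_5d4057_al Pool.Agent.Lib.MP_5d4057_al.Hyb
  Pool.Agent.Lib.MP_5d4057_al.HM

open scoped ComplexOrder MatrixOrder Matrix.Norms.L2Operator

variable {m n : ℕ}

private theorem rc_herm_zero (w : Vec n) : herm w 0 = 0 := by
  have := herm_smul_right w (0 : Vec n) 0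
  rwa [zero_smul, zero_mul] at this

private theorem rc_herm_sub (v w u : Vec n) : herm v (w - u) = herm v w - herm v u := by
  rw [sub_eq_add_neg, herm_add_right, herm_neg_right, sub_eq_add_neg]

/-- The orthogonal complement of `U` in `V`. -/
private def rc_perp (V U : Submodule ℂ (Vec n)) : Submodule ℂ (Vec n) where
  carrier := {v | v ∈ V ∧ ∀ u ∈ U, herm u v = 0}
  add_mem' := fun {a b} ha hb => ⟨V.add_mem ha.1 hb.1, fun u hu => by
    rw [herm_add_right, ha.2 u hu, hb.2 u hu, add_zero]⟩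
  zero_mem' := ⟨V.zero_mem, fun u _ => rc_herm_zero u⟩
  smul_mem' := fun c a ha => ⟨V.smul_mem c ha.1, fun u hu => by
    rw [herm_smul_right, ha.2 u hu, mul_zero]⟩

private theorem rc_mem {V U : Submodule ℂ (Vec n)} {v : Vec n} :
    v ∈ rc_perp V U ↔ v ∈ V ∧ ∀ u ∈ U, herm u v = 0 := Iff.rfl

private theorem rc_act_inv (g : SUGroup n) (v : Vec n) : act g (act g⁻¹ v) = v := by
  rw [← act_mul, mul_inv_cancel, act_one]

/-- The complement of an invariant subspace is invariant. -/
private theorem rc_inv {G : Type} [Group G] (ρ : G →* SUGroup n) {V U : Submodule ℂ (Vec n)}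
    (hV : ∀ γ : G, ∀ v ∈ V, act (ρ γ) v ∈ V) (hU : ∀ γ : G, ∀ v ∈ U, act (ρ γ) v ∈ U) (γ : G)
    {v : Vec n} (hv : v ∈ rc_perp V U) : act (ρ γ) v ∈ rc_perp V U := by
  refine ⟨hV γ v hv.1, fun u hu => ?_⟩
  have h1 := hv.2 _ (hU γ⁻¹ u hu)
  have h2 := herm_act (ρ γ) (act (ρ γ⁻¹) u) v
  rw [h1, map_inv, rc_act_inv] at h2
  exact h2

/-- Cauchy-Schwarz for a semidefinite subspace: null vectors are in the radical. -/
private theorem rc_rad {U : Submodule ℂ (Vec n)} (hU : ∀ v ∈ U, 0 ≤ q v) {u v : Vec n} (hu : u ∈ U)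
    (hv : v ∈ U) (h0 : q u = 0) : herm v u = 0 := by
  by_contra hne
  set z := herm v u with hz
  have hz0 : 0 < ‖z‖ ^ 2 := by positivity
  -- q (v - t star z ... )
  have key : ∀ t : ℝ, 0 ≤ q v - 2 * t * ‖z‖ ^ 2 := by
    intro t
    have h1 := hU _ (U.add_mem hv (U.smul_mem (-(t : ℂ) * star z) hu))
    have h2 : (q (v + (-(t : ℂ) * star z) • u) : ℂ) = ((q v - 2 * t * ‖z‖ ^ 2 : ℝ) : ℂ) := by
      rw [← herm_self, herm_add_left, herm_add_right, herm_add_right, herm_smul_left, herm_smul_left,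
        herm_smul_right, herm_smul_right, herm_self, herm_self, h0, herm_comm v u, ← hz]
      have h3 : z * star z = ((‖z‖ ^ 2 : ℝ) : ℂ) := by
        rw [← Complex.normSq_eq_norm_sq, ← Complex.mul_conj]; rfl
      have h4 : star (-(t : ℂ) * star z) = -(t : ℂ) * z := by
        rw [star_mul', star_neg, star_star]
        congr 2
        exact Complex.conj_ofReal t
      rw [h4]
      push_cast at h3 ⊢
      linear_combination (-2 * (t : ℂ)) * h3
    have h3 : q (v + (-(t : ℂ) * star z) • u) = q v - 2 * t * ‖z‖ ^ 2 := by exact_mod_cast h2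
    rwa [h3] at h1
  have h1 := key ((q v + 1) / (2 * ‖z‖ ^ 2))
  have h2 : q v - 2 * ((q v + 1) / (2 * ‖z‖ ^ 2)) * ‖z‖ ^ 2 = -1 := by
    field_simp
    ring
  rw [h2] at h1
  norm_num at h1

/-- Two orthogonal null vectors are proportional. -/
private theorem rc_null {a b : Vec n} (ha : q a = 0) (hb : q b = 0) (hab : herm a b = 0)
    (ha0 : a ≠ 0) : ∃ c : ℂ, b = c • a := by
  by_contra hne
  -- the span of `a, b` meets `base^⊥`
  have hbc : base n ∈ Cone n := by
    show q _ < 0
    rw [q_base]; norm_num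
  set x := herm (base n) a with hx
  set y := herm (base n) b with hy
  have hx0 : x ≠ 0 := by
    intro h
    have := q_pos_of_orth hbc h ha0
    rw [ha] at this
    exact lt_irrefl _ this
  set w := b - (y / x) • a with hw
  have h1 : herm (base n) w = 0 := by
    rw [hw, rc_herm_sub, herm_smul_right, ← hx, ← hy, div_mul_cancel₀ _ hx0, sub_self]
  have h2 : w ≠ 0 := fun h => hne ⟨y / x, sub_eq_zero.1 h⟩
  have h3 := q_pos_of_orth hbc h1 h2
  have hba : herm b a = 0 := by rw [herm_comm, hab, star_zero]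
  have h4 : (q w : ℂ) = 0 := by
    rw [← herm_self, hw, rc_herm_sub, herm_sub_left, herm_sub_left, herm_smul_right, herm_smul_left, herm_smul_left,
      herm_smul_right, herm_self, herm_self, ha, hb, hab, hba]
    simp
  rw [show q w = 0 by exact_mod_cast h4] at h3
  exact lt_irrefl _ h3

/-- A minimal invariant subspace containing a negative vector is irreducible, if there is no invariant isotropic line.
PROOF: `V` of minimal dimension among the invariant subspaces which contain a negative vector. If `U < V` is invariant,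
it has no negative vector, so `q ≥ 0` on `U`. The radical `U ∩ U^⊥` consists of null vectors, so it has dimension `≤ 1`
(two orthogonal null vectors are proportional); it is invariant, so it is `0` by hypothesis, `q` is definite on
`U` (Cauchy-Schwarz for the semidefinite form: null vectors of `U` are in the radical), `V = U ⊕ (U^⊥ ∩ V)`, and `U^⊥ ∩ V` is invariant
and contains a negative vector, so it is `V`, `U = 0`. -/
theorem exists_irred {G : Type} [Group G] (ρ : G →* SUGroup n)
    (hnf : ∀ p : Vec n, p ≠ 0 → q p = 0 → ¬ ∀ γ : G, ∃ c : ℂ, act (ρ γ) p = c • p) :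
    ∃ V : Submodule ℂ (Vec n), (∃ w ∈ V, q w < 0) ∧ (∀ γ : G, ∀ v ∈ V, act (ρ γ) v ∈ V) ∧
      ∀ U : Submodule ℂ (Vec n), U ≤ V → (∀ γ : G, ∀ v ∈ U, act (ρ γ) v ∈ U) → U = ⊥ ∨ U = V := by
  classical
  set P : ℕ → Prop := fun d => ∃ V : Submodule ℂ (Vec n), Module.finrank ℂ V = d ∧ (∃ w ∈ V, q w < 0) ∧
    ∀ γ : G, ∀ v ∈ V, act (ρ γ) v ∈ V with hP
  have hex : ∃ d, P d := ⟨_, ⊤, rfl, ⟨base n, trivial, by rw [q_base]; norm_num⟩, fun _ _ _ => trivial⟩
  obtain ⟨V, hVd, ⟨w, hwV, hw⟩, hVi⟩ := Nat.find_spec hex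
  -- minimality
  have hmin : ∀ U : Submodule ℂ (Vec n), U ≤ V → (∃ w ∈ U, q w < 0) →
      (∀ γ : G, ∀ v ∈ U, act (ρ γ) v ∈ U) → U = V := by
    intro U hU hUw hUi
    refine Submodule.eq_of_le_of_finrank_le hU ?_
    rw [hVd]
    exact Nat.find_min' hex ⟨U, rfl, hUw, hUi⟩
  refine ⟨V, ⟨w, hwV, hw⟩, hVi, fun U hU hUi => ?_⟩
  by_cases hneg : ∃ w ∈ U, q w < 0
  · exact Or.inr (hmin U hU hneg hUi)
  have hsemi : ∀ v ∈ U, 0 ≤ q v := fun v hv => not_lt.1 fun h => hneg ⟨v, hv, h⟩
  left
  -- the radical is zero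
  have hrad : ∀ p ∈ U, q p = 0 → p = 0 := by
    intro p hp hqp
    by_contra hp0
    refine hnf p hp0 hqp fun γ => ?_
    exact rc_null hqp (by rw [q_act, hqp]) (rc_rad hsemi (hUi γ p hp) hp (by rw [q_act, hqp])) hp0
  have hpos : ∀ v ∈ U, v ≠ 0 → 0 < q v := fun v hv h0 =>
    lt_of_le_of_ne (hsemi v hv) fun h => h0 (hrad v hv h.symm)
  obtain ⟨b, hb1, hb2, hb3⟩ := exists_on hpos
  -- the projection of the negative vector
  set u : Vec n := ∑ i, herm (b i) w • b i with hu
  have huU : u ∈ U := Submodule.sum_mem _ fun i _ => U.smul_mem _ (hb1 i)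
  have hbu : ∀ j, herm (b j) u = herm (b j) w := by
    intro j
    rw [hu, herm_sum_right, Finset.sum_eq_single j]
    · rw [herm_smul_right, hb2, if_pos rfl, mul_one]
    · intro i _ hi
      rw [herm_smul_right, hb2, if_neg (Ne.symm hi), mul_zero]
    · intro h
      exact absurd (Finset.mem_univ j) h
  have hperp : ∀ x ∈ U, herm x (w - u) = 0 := by
    intro x hx
    have h1 : ∀ i, herm (b i) (w - u) = 0 := fun i => by rw [rc_herm_sub, hbu, sub_self]
    rw [herm_comm, hb3 x hx, herm_sum_right, Finset.sum_eq_zero, star_zero]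
    intro i _
    rw [herm_smul_right, herm_comm (b i) (w - u), h1, star_zero, mul_zero]
  have hqw : q (w - u) ≤ q w := by
    have h1 : herm u (w - u) = 0 := hperp u huU
    have h2 : herm (w - u) u = 0 := by rw [herm_comm, h1, star_zero]
    have h3 : (q w : ℂ) = ((q (w - u) + q u : ℝ) : ℂ) := by
      have e : w = (w - u) + u := (sub_add_cancel w u).symm
      conv_lhs => rw [e, ← herm_self, herm_add_left, herm_add_right, herm_add_right, h1, h2,
        herm_self, herm_self]
      push_cast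
      ring
    have h4 : q w = q (w - u) + q u := by exact_mod_cast h3
    have h5 := hsemi u huU
    linarith
  have hU' : rc_perp V U = V := hmin _ (fun v hv => hv.1)
    ⟨w - u, ⟨V.sub_mem hwV (hU huU), hperp⟩, lt_of_le_of_lt hqw hw⟩ fun γ v hv => rc_inv ρ hVi hUi γ hv
  refine (Submodule.eq_bot_iff _).2 fun x hx => ?_
  have h1 : x ∈ rc_perp V U := by rw [hU']; exact hU hx
  have h2 := h1.2 x hx
  rw [herm_self] at h2
  exact hrad x hx (by exact_mod_cast h2)

end Pool.Agent.Lib.MP_5d4057_al.RG
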