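import Pool.Agent.Lib.MP_5d4057_al.RG.Defs
import Pool.Agent.Lib.MP_5d4057_al.RG.RedA
import Pool.Agent.Lib.MP_5d4057_al.RG.RedB
import Pool.Agent.Lib.MP_5d4057_al.RG.RedC

/-!
# RG A3: reduction to an irreducible representation
-/

set_option autoImplicit false

namespace Pool.Agent.Lib.MP_5d4057_al.RG

open Matrix Filter Topology Pool.Agent.Lib.MP_5d4057_al Pool.Agent.Lib.MP_5d4057_al.Hyb
  Pool.Agent.Lib.MP_5d4057_al.HM

open scoped ComplexOrder MatrixOrder Matrix.Norms.L2Operator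

variable {m n : ℕ}

/-- An isometry preserves the form. -/
private theorem rd_herm {k : ℕ} {T : Matrix (Fin (n + 1)) (Fin (k + 1)) ℂ}
    (hT : Tᴴ * J n * T = J k) (u v : Vec k) : herm (T *ᵥ u) (T *ᵥ v) = herm u v := by
  rw [herm, herm, star_mulVec, mulVec_mulVec, ← dotProduct_mulVec, mulVec_mulVec,
    ← Matrix.mul_assoc, hT]

private theorem rd_q {k : ℕ} {T : Matrix (Fin (n + 1)) (Fin (k + 1)) ℂ}
    (hT : Tᴴ * J n * T = J k) (u : Vec k) : q (T *ᵥ u) = q u := by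
  rw [q, q, rd_herm hT]

private theorem rd_entry {k : ℕ} (A : Matrix (Fin k) (Fin k) ℂ) (i j : Fin k) :
    ‖A i j‖ ≤ ‖A‖ := by
  have h1 := Matrix.l2_opNorm_mulVec A (WithLp.toLp 2 (Pi.single j (1 : ℂ)))
  have h2 : ‖(WithLp.toLp 2 (Pi.single j (1 : ℂ)) : EuclideanSpace ℂ (Fin k))‖ = 1 := by
    have h3 := PiLp.norm_single 2 (fun _ : Fin k => ℂ) j (1 : ℂ)
    rw [norm_one] at h3
    exact h3
  rw [h2, mul_one] at h1
  have h3 := PiLp.norm_apply_le (WithLp.toLp 2 (A *ᵥ (Pi.single j (1 : ℂ))) :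
    EuclideanSpace ℂ (Fin k)) i
  refine le_trans (le_of_eq ?_) (h3.trans h1)
  rw [mulVec_single_one]
  rfl

private theorem rd_base {k : ℕ} (A : Mat (k + 1)) :
    ‖herm (base k) (A *ᵥ base k)‖ ≤ ‖A‖ := by
  have h1 : herm (base k) (A *ᵥ base k) = -(A (Fin.last k) (Fin.last k)) := by
    have h2 : (A *ᵥ base k) (Fin.last k) = A (Fin.last k) (Fin.last k) := by
      rw [base, mulVec_single_one]
      rfl
    rw [herm_eq, base, Pi.single_eq_same, Finset.sum_eq_zero]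
    · rw [base] at h2
      rw [h2]
      simp
    · intro i _
      rw [Pi.single_eq_of_ne (Fin.castSucc_lt_last i).ne]
      simp
  rw [h1, norm_neg]
  exact rd_entry A _ _

/-- The norm of `g` is controlled by the displacement of one point. -/
private theorem rd_disp (w : Vec n) (hw : q w = -1) : ∃ K : ℝ, 0 ≤ K ∧ ∀ g : SUGroup n,
    ‖g.toMatrix‖ ≤ K * ‖herm w (act g w)‖ := by
  have hwc : w ∈ Cone n := by
    change q w < 0
    rw [hw]
    norm_num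
  obtain ⟨h, c, hc, hwh⟩ := exists_act_eq hwc
  have hc1 : ‖c‖ = 1 := by
    have h1 := hw
    rw [hwh, q_smul, q_orbit] at h1
    have h2 : ‖c‖ ^ 2 = 1 := by linarith
    have h3 := norm_nonneg c
    nlinarith
  refine ⟨‖h.toMatrix‖ * (2 * (n + 1)) * ‖(h⁻¹).toMatrix‖, by positivity, fun g => ?_⟩
  have h1 : ‖herm w (act g w)‖ = ch (h⁻¹ * (g * h)) := by
    rw [← norm_herm_orbit, hwh, act_smul, herm_smul_left, herm_smul_right, norm_mul, norm_mul,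
      norm_star, hc1, one_mul, one_mul, act_mul]
  have h2 : g.toMatrix = h.toMatrix * (h⁻¹ * (g * h)).toMatrix * (h⁻¹).toMatrix := by
    rw [← toMatrix_mul, ← toMatrix_mul]
    congr 1
    group
  rw [h1, h2]
  calc ‖h.toMatrix * (h⁻¹ * (g * h)).toMatrix * (h⁻¹).toMatrix‖
      ≤ ‖h.toMatrix‖ * ‖(h⁻¹ * (g * h)).toMatrix‖ * ‖(h⁻¹).toMatrix‖ :=
        (norm_mul_le _ _).trans (mul_le_mul_of_nonneg_right (norm_mul_le _ _) (norm_nonneg _))
    _ ≤ ‖h.toMatrix‖ * (2 * (n + 1) * ch (h⁻¹ * (g * h))) * ‖(h⁻¹).toMatrix‖ := by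
        gcongr
        exact lp_norm_le _
    _ = ‖h.toMatrix‖ * (2 * (n + 1)) * ‖(h⁻¹).toMatrix‖ * ch (h⁻¹ * (g * h)) := by ring

/-- The reduction. -/
theorem exists_red {Γ : Subgroup (SUGroup m)} (ρ : Γ →* SUGroup n)
    (hd : ∀ C : ℝ, {γ : Γ | ‖(ρ γ).toMatrix‖ ≤ C}.Finite)
    (hnf : ∀ p : Vec n, p ≠ 0 → q p = 0 → ¬ ∀ γ : Γ, ∃ c : ℂ, act (ρ γ) p = c • p) :
    ∃ (k : ℕ) (ρ₁ : Γ →* Mat (k + 1)) (T : Matrix (Fin (n + 1)) (Fin (k + 1)) ℂ),
      k ≤ n ∧ Tᴴ * J n * T = J k ∧ (∀ γ, (ρ γ).toMatrix * T = T * ρ₁ γ) ∧ UJ ρ₁ ∧ Prp ρ₁ ∧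
        Submodule.span ℂ (Set.range ρ₁) = ⊤ := by
  obtain ⟨V, hneg, hinv, hirr⟩ := exists_irred ρ hnf
  obtain ⟨k, T, hk, hT, hV⟩ := exists_isom hneg
  obtain ⟨L, hL⟩ : ∃ L, L = J k * Tᴴ * J n := ⟨_, rfl⟩
  have hLT : L * T = 1 := by
    rw [hL, Matrix.mul_assoc, Matrix.mul_assoc, ← Matrix.mul_assoc Tᴴ, hT, J_J]
  have hTV : ∀ u : Vec k, T *ᵥ u ∈ V := fun u => (hV _).2 ⟨u, rfl⟩
  have hTL : ∀ v ∈ V, T *ᵥ (L *ᵥ v) = v := by
    intro v hv
    obtain ⟨u, rfl⟩ := (hV v).1 hv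
    have h1 : L *ᵥ (T *ᵥ u) = u := by rw [mulVec_mulVec, hLT, one_mulVec]
    rw [h1]
  have hint : ∀ γ : Γ, T * (L * (ρ γ).toMatrix * T) = (ρ γ).toMatrix * T := by
    intro γ
    refine Matrix.ext_of_mulVec_single fun j => ?_
    rw [← mulVec_mulVec, ← mulVec_mulVec, ← mulVec_mulVec, ← mulVec_mulVec]
    exact hTL _ (hinv γ _ (hTV _))
  have hmul : ∀ γ δ : Γ, L * (ρ (γ * δ)).toMatrix * T =
      L * (ρ γ).toMatrix * T * (L * (ρ δ).toMatrix * T) := by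
    intro γ δ
    rw [map_mul, toMatrix_mul, Matrix.mul_assoc (L * (ρ γ).toMatrix) T, hint δ]
    simp only [Matrix.mul_assoc]
  have hone : L * (ρ (1 : Γ)).toMatrix * T = 1 := by
    rw [map_one, toMatrix_one, Matrix.mul_one, hLT]
  let ρ₁ : Γ →* Mat (k + 1) :=
    { toFun := fun γ => L * (ρ γ).toMatrix * T
      map_one' := hone
      map_mul' := hmul }
  have hint' : ∀ γ : Γ, (ρ γ).toMatrix * T = T * ρ₁ γ := fun γ => (hint γ).symm
  have hinj : ∀ u : Vec k, T *ᵥ u = 0 → u = 0 := by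
    intro u hu
    have h1 : L *ᵥ (T *ᵥ u) = u := by rw [mulVec_mulVec, hLT, one_mulVec]
    rw [← h1, hu, mulVec_zero]
  refine ⟨k, ρ₁, T, hk, hT, hint', ?_, ?_, ?_⟩
  · intro γ
    have h1 : (ρ₁ γ)ᴴ * J k * ρ₁ γ = (T * ρ₁ γ)ᴴ * J n * (T * ρ₁ γ) := by
      rw [← hT, conjTranspose_mul]
      simp only [Matrix.mul_assoc]
    rw [h1, ← hint' γ, conjTranspose_mul]
    calc Tᴴ * (ρ γ).toMatrixᴴ * J n * ((ρ γ).toMatrix * T)
        = Tᴴ * ((ρ γ).toMatrixᴴ * J n * (ρ γ).toMatrix) * T := by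
          simp only [Matrix.mul_assoc]
      _ = J k := by rw [pres, hT]
  · intro C
    obtain ⟨K, hK, hK'⟩ := rd_disp (T *ᵥ base k) (by rw [rd_q hT, q_base])
    refine (hd (K * C)).subset fun γ hγ => ?_
    have h1 : act (ρ γ) (T *ᵥ base k) = T *ᵥ (ρ₁ γ *ᵥ base k) := by
      rw [act, mulVec_mulVec, hint' γ, mulVec_mulVec]
    have h2 := hK' (ρ γ)
    rw [h1, rd_herm hT] at h2
    exact h2.trans (mul_le_mul_of_nonneg_left ((rd_base _).trans hγ) hK)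
  · refine span_of_irred ρ₁ fun U hU => ?_
    have h1 := hirr (U.map T.mulVecLin) ?_ ?_
    · rcases h1 with h1 | h1
      · left
        rw [eq_bot_iff]
        intro u hu
        have h2 : T *ᵥ u ∈ U.map T.mulVecLin := ⟨u, hu, rfl⟩
        rw [h1] at h2
        exact hinj u h2
      · right
        rw [eq_top_iff]
        intro u _
        have h2 : T *ᵥ u ∈ U.map T.mulVecLin := by rw [h1]; exact hTV u
        obtain ⟨u', hu', h3⟩ := h2
        have h4 : u' = u := by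
          have h5 : u' - u = 0 := by
            refine hinj _ ?_
            rw [mulVec_sub]
            exact sub_eq_zero.2 h3
          exact sub_eq_zero.1 h5
        rw [← h4]
        exact hu'
    · rintro _ ⟨u, _, rfl⟩
      exact hTV u
    · rintro γ _ ⟨u, hu, rfl⟩
      refine ⟨ρ₁ γ *ᵥ u, hU γ u hu, ?_⟩
      change T *ᵥ (ρ₁ γ *ᵥ u) = act (ρ γ) (T *ᵥ u)
      rw [act, mulVec_mulVec, mulVec_mulVec, hint' γ]

end Pool.Agent.Lib.MP_5d4057_al.RG
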