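import Mathlib

/-! # Unique continuation for `‖∂̄ y‖ ≤ C ‖y‖`: one variable -/

set_option autoImplicit false

namespace Pool.Agent.Lib.MP_5d4057_al.RG.UC

open Filter Topology MeasureTheory

variable {E : Type} [NormedAddCommGroup E] [NormedSpace ℂ E]

/-- Twice the antilinear part of the derivative in the direction `1`. -/
noncomputable def db (w : ℂ → E) (p : ℂ) : E :=
  fderiv ℝ w p 1 + Complex.I • fderiv ℝ w p Complex.I

theorem smul_clm (T : ℂ →L[ℝ] E) (ξ : ℂ) :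
    T ξ + Complex.I • T (Complex.I * ξ) = (starRingEnd ℂ ξ) • (T 1 + Complex.I • T Complex.I) := by
  have h1 : ∀ ζ : ℂ, T ζ = ζ.re • T 1 + ζ.im • T Complex.I := fun ζ => by
    rw [← map_smul, ← map_smul, ← map_add]
    congr 1
    apply Complex.ext <;> simp
  have h2 : ∀ (r : ℝ) (x : E), r • x = (r : ℂ) • x := fun r x => (Complex.coe_smul r x).symm
  rw [h1 ξ, h1 (Complex.I * ξ)]
  have h3 : (Complex.I * ξ).re = -ξ.im := by simp
  have h4 : (Complex.I * ξ).im = ξ.re := by simp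
  rw [h3, h4, h2, h2, h2, h2]
  have h5 : (starRingEnd ℂ) ξ = (ξ.re : ℂ) - (ξ.im : ℂ) * Complex.I := by
    apply Complex.ext <;> simp
  rw [h5]
  have hI := Complex.I_mul_I
  have h6 : ((ξ.re : ℂ) - (ξ.im : ℂ) * Complex.I) * Complex.I =
      (ξ.re : ℂ) * Complex.I + (ξ.im : ℂ) := by
    linear_combination (-(ξ.im : ℂ)) * hI
  have h7 : Complex.I * ((-ξ.im : ℝ) : ℂ) = -((ξ.im : ℂ) * Complex.I) := by
    push_cast
    ring
  have h8 : Complex.I * (ξ.re : ℂ) = (ξ.re : ℂ) * Complex.I := by ring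
  rw [smul_add, smul_add, smul_smul, smul_smul, smul_smul, h6, h7, h8, sub_smul, add_smul,
    neg_smul]
  abel

theorem norm_smul_clm (T : ℂ →L[ℝ] E) {ξ : ℂ} (hξ : ‖ξ‖ = 1) :
    ‖T ξ + Complex.I • T (Complex.I * ξ)‖ = ‖T 1 + Complex.I • T Complex.I‖ := by
  rw [smul_clm, norm_smul, RCLike.norm_conj, hξ, one_mul]

/-- The sup norm estimate: circle means. -/
theorem mean_est [CompleteSpace E] {w : ℂ → E} (hw : ContDiff ℝ 1 w) {R B : ℝ} (hR : 0 ≤ R)
    (h0 : ∀ p, R ≤ ‖p‖ → w p = 0) (hB : ∀ p, ‖db w p‖ ≤ B) (z : ℂ) (hz : ‖z‖ ≤ R) :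
    ‖w z‖ ≤ 2 * R * B := by
  -- the circle
  let e : ℝ → ℂ := fun θ => Complex.exp (θ * Complex.I)
  have hed : ∀ θ, HasDerivAt e (Complex.I * e θ) θ := fun θ => by
    have h1 : HasDerivAt (fun θ : ℝ => (θ : ℂ) * Complex.I) Complex.I θ := by
      simpa using (Complex.ofRealCLM.hasDerivAt (x := θ)).mul_const Complex.I
    have h2 := h1.cexp
    rw [mul_comm] at h2
    exact h2
  have hec : Continuous e := continuous_iff_continuousAt.2 fun θ => (hed θ).continuousAt
  have hen : ∀ θ, ‖e θ‖ = 1 := fun θ => Complex.norm_exp_ofReal_mul_I θ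
  have hdw : ∀ p, HasFDerivAt w (fderiv ℝ w p) p := fun p =>
    (hw.differentiable one_ne_zero p).hasFDerivAt
  have hDc : Continuous (fderiv ℝ w) := hw.continuous_fderiv one_ne_zero
  -- the two partial derivatives
  let P : ℝ → ℝ → ℂ := fun ρ θ => z + ρ * e θ
  have hPc : Continuous fun x : ℝ × ℝ => P x.1 x.2 := by
    have := hec
    fun_prop
  have hF1 : Continuous fun x : ℝ × ℝ => fderiv ℝ w (P x.1 x.2) (e x.2) :=
    (hDc.comp hPc).clm_apply (hec.comp continuous_snd)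
  have hF2 : Continuous fun x : ℝ × ℝ => fderiv ℝ w (P x.1 x.2) (Complex.I * e x.2) :=
    (hDc.comp hPc).clm_apply (continuous_const.mul (hec.comp continuous_snd))
  -- radial
  have hrad : ∀ θ, ∫ ρ in (0 : ℝ)..(2 * R), fderiv ℝ w (P ρ θ) (e θ) = - w z := by
    intro θ
    have h1 : ∀ ρ ∈ Set.uIcc (0 : ℝ) (2 * R),
        HasDerivAt (fun ρ : ℝ => w (P ρ θ)) (fderiv ℝ w (P ρ θ) (e θ)) ρ := fun ρ _ => by
      have h2 : HasDerivAt (fun ρ : ℝ => P ρ θ) (e θ) ρ := by
        have h3 : HasDerivAt (fun ρ : ℝ => (ρ : ℂ) * e θ) (e θ) ρ := by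
          simpa using (Complex.ofRealCLM.hasDerivAt (x := ρ)).mul_const (e θ)
        exact h3.const_add z
      exact (hdw (P ρ θ)).comp_hasDerivAt ρ h2
    rw [intervalIntegral.integral_eq_sub_of_hasDerivAt h1
      (Continuous.intervalIntegrable (hF1.comp (by fun_prop : Continuous fun ρ : ℝ => (ρ, θ))) _ _)]
    have h4 : w (P (2 * R) θ) = 0 := h0 _ (by
      have h5 : ‖((2 * R : ℝ) : ℂ) * e θ‖ ≤ ‖P (2 * R) θ‖ + ‖z‖ := by
        have h6 := norm_sub_le (P (2 * R) θ) z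
        have h7 : P (2 * R) θ - z = ((2 * R : ℝ) : ℂ) * e θ := by
          show z + ((2 * R : ℝ) : ℂ) * e θ - z = _
          ring
        rwa [h7] at h6
      rw [norm_mul, hen, mul_one, Complex.norm_real, Real.norm_of_nonneg (by positivity)] at h5
      linarith)
    have h5 : P 0 θ = z := by
      show z + ((0 : ℝ) : ℂ) * e θ = z
      simp
    rw [h4, h5, zero_sub]
  -- angular
  have hang : ∀ ρ : ℝ, ρ ≠ 0 →
      ∫ θ in (0 : ℝ)..(2 * Real.pi), fderiv ℝ w (P ρ θ) (Complex.I * e θ) = 0 := by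
    intro ρ hρ
    have h1 : ∀ θ ∈ Set.uIcc (0 : ℝ) (2 * Real.pi),
        HasDerivAt (fun θ : ℝ => w (P ρ θ)) (ρ • fderiv ℝ w (P ρ θ) (Complex.I * e θ)) θ :=
      fun θ _ => by
      have h2 : HasDerivAt (fun θ : ℝ => P ρ θ) (ρ • (Complex.I * e θ)) θ := by
        have h3 : HasDerivAt (fun θ : ℝ => (ρ : ℂ) * e θ) ((ρ : ℂ) * (Complex.I * e θ)) θ :=
          (hed θ).const_mul (ρ : ℂ)
        rw [Complex.real_smul]
        exact h3.const_add z
      have h4 := (hdw (P ρ θ)).comp_hasDerivAt θ h2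
      rwa [map_smul] at h4
    have h2 := intervalIntegral.integral_eq_sub_of_hasDerivAt h1
      (Continuous.intervalIntegrable
        ((hF2.comp (by fun_prop : Continuous fun θ : ℝ => (ρ, θ))).const_smul ρ) _ _)
    have h5 : P ρ (2 * Real.pi) = P ρ 0 := by
      show z + (ρ : ℂ) * e (2 * Real.pi) = z + (ρ : ℂ) * e 0
      have h6 : e (2 * Real.pi) = e 0 := by
        show Complex.exp (((2 * Real.pi : ℝ) : ℂ) * Complex.I) = Complex.exp (((0 : ℝ) : ℂ) * Complex.I)
        push_cast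
        rw [Complex.exp_two_pi_mul_I, zero_mul, Complex.exp_zero]
      rw [h6]
    rw [h5, sub_self, intervalIntegral.integral_smul] at h2
    exact (smul_eq_zero.1 h2).resolve_left hρ
  -- Fubini
  have hsw : ∫ θ in (0 : ℝ)..(2 * Real.pi), ∫ ρ in (0 : ℝ)..(2 * R), fderiv ℝ w (P ρ θ) (e θ) =
      ∫ ρ in (0 : ℝ)..(2 * R), ∫ θ in (0 : ℝ)..(2 * Real.pi), fderiv ℝ w (P ρ θ) (e θ) := by
    apply intervalIntegral_intervalIntegral_swap
    have h1 : Continuous fun x : ℝ × ℝ => fderiv ℝ w (P x.2 x.1) (e x.1) :=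
      hF1.comp continuous_swap
    exact (h1.continuousOn.integrableOn_compact
      (isCompact_uIcc.prod isCompact_uIcc)).mono_set
        (Set.prod_mono Set.uIoc_subset_uIcc Set.uIoc_subset_uIcc)
  have h2 : ∀ ρ ∈ Set.uIoc (0 : ℝ) (2 * R),
      ‖∫ θ in (0 : ℝ)..(2 * Real.pi), fderiv ℝ w (P ρ θ) (e θ)‖ ≤ B * (2 * Real.pi) := by
    intro ρ hρ
    have hρ0 : ρ ≠ 0 := by
      rw [Set.uIoc_of_le (by positivity)] at hρ
      exact hρ.1.ne'
    have h3 : ∫ θ in (0 : ℝ)..(2 * Real.pi), fderiv ℝ w (P ρ θ) (e θ) =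
        ∫ θ in (0 : ℝ)..(2 * Real.pi), (fderiv ℝ w (P ρ θ) (e θ) +
          Complex.I • fderiv ℝ w (P ρ θ) (Complex.I * e θ)) := by
      rw [intervalIntegral.integral_add, intervalIntegral.integral_smul, hang ρ hρ0, smul_zero,
        add_zero]
      · exact Continuous.intervalIntegrable
          (hF1.comp (by fun_prop : Continuous fun θ : ℝ => (ρ, θ))) _ _
      · exact Continuous.intervalIntegrable
          ((hF2.comp (by fun_prop : Continuous fun θ : ℝ => (ρ, θ))).const_smul Complex.I) _ _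
    rw [h3]
    have h4 := intervalIntegral.norm_integral_le_of_norm_le_const (a := (0 : ℝ))
      (b := 2 * Real.pi) (C := B) (f := fun θ => fderiv ℝ w (P ρ θ) (e θ) +
          Complex.I • fderiv ℝ w (P ρ θ) (Complex.I * e θ)) (fun θ _ => by
        rw [norm_smul_clm _ (hen θ)]
        exact hB _)
    rwa [sub_zero, abs_of_pos Real.two_pi_pos] at h4
  have h5 := intervalIntegral.norm_integral_le_of_norm_le_const h2
  rw [← hsw, sub_zero, abs_of_nonneg (by positivity)] at h5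
  simp only [hrad] at h5
  rw [intervalIntegral.integral_const, sub_zero, norm_smul, norm_neg,
    Real.norm_of_nonneg Real.two_pi_pos.le] at h5
  have h6 := Real.two_pi_pos
  have h7 : 2 * Real.pi * ‖w z‖ ≤ 2 * Real.pi * (2 * R * B) := by linarith
  exact le_of_mul_le_mul_left h7 h6

end Pool.Agent.Lib.MP_5d4057_al.RG.UC
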