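import Mathlib
import Pool.Agent.Lib.MP_5d4057_al.RG.UC1

/-! # Unique continuation on a disc -/

set_option autoImplicit false

namespace Pool.Agent.Lib.MP_5d4057_al.RG.UC

open Filter Topology MeasureTheory

variable {E : Type} [NormedAddCommGroup E] [NormedSpace ℂ E]

theorem db_congr {w w' : ℂ → E} {p : ℂ} (h : w =ᶠ[𝓝 p] w') : db w p = db w' p := by
  rw [db, db, h.fderiv_eq]

theorem db_zero (p : ℂ) : db (fun _ => (0 : E)) p = 0 := by
  rw [db, fderiv_fun_const]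
  simp

/-- The product rule, with a holomorphic factor `u`. -/
theorem db_mul {χ : ℂ → ℝ} {u : ℂ → ℂ} {y : ℂ → E} {p u' : ℂ} (hχ : DifferentiableAt ℝ χ p)
    (hu : HasDerivAt u u' p) (hy : DifferentiableAt ℝ y p) :
    db (fun p => χ p • (u p • y p)) p = χ p • (u p • db y p) +
      ((fderiv ℝ χ p 1 : ℂ) + Complex.I * (fderiv ℝ χ p Complex.I : ℂ)) • (u p • y p) := by
  have h1 : HasFDerivAt u ((ContinuousLinearMap.toSpanSingleton ℂ u').restrictScalars ℝ) p :=
    hu.hasFDerivAt.restrictScalars ℝ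
  have h2 : HasFDerivAt (fun p => χ p • (u p • y p)) (χ p • (u p • fderiv ℝ y p +
      ((ContinuousLinearMap.toSpanSingleton ℂ u').restrictScalars ℝ).smulRight (y p)) +
      (fderiv ℝ χ p).smulRight (u p • y p)) p :=
    hχ.hasFDerivAt.smul (h1.smul hy.hasFDerivAt)
  rw [db, h2.fderiv, db]
  simp only [_root_.add_apply, _root_.smul_apply, ContinuousLinearMap.smulRight_apply,
    ContinuousLinearMap.coe_restrictScalars', ContinuousLinearMap.toSpanSingleton_apply, smul_add]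
  simp only [← Complex.coe_smul, smul_smul, smul_eq_mul]
  have hI := Complex.I_mul_I
  rw [show Complex.I * ((χ p : ℂ) * (Complex.I * u')) = -((χ p : ℂ) * (1 * u')) by
    linear_combination ((χ p : ℂ) * u') * hI, neg_smul,
    show Complex.I * ((χ p : ℂ) * u p) = (χ p : ℂ) * (u p * Complex.I) by ring,
    show Complex.I * ((fderiv ℝ χ p Complex.I : ℂ) * u p) =
      Complex.I * (fderiv ℝ χ p Complex.I : ℂ) * u p by ring, add_mul, add_smul]
  abel

/-- Unique continuation on a disc. -/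
theorem uc_disc [CompleteSpace E] {y : ℂ → E} {R R₁ C : ℝ} (hR : 0 < R) (hR₁ : R < R₁)
    (hy : ContDiffOn ℝ 1 y (Metric.ball 0 R₁)) (hC : 0 ≤ C) (hCR : 4 * R * C ≤ 1)
    (hd : ∀ p, ‖p‖ ≤ R → ‖db y p‖ ≤ C * ‖y p‖) (h0 : y =ᶠ[𝓝 0] 0) :
    ∀ z, ‖z‖ < R → y z = 0 := by
  intro z hz
  rcases eq_or_ne z 0 with rfl | hz0
  · exact h0.eq_of_nhds
  obtain ⟨r, hzr, hrR⟩ := exists_between hz
  have hz0' : 0 < ‖z‖ := norm_pos_iff.2 hz0
  have hr : 0 < r := hz0'.trans hzr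
  let χ : ContDiffBump (0 : ℂ) := ⟨r, R, hr, hrR⟩
  have hχd : ContDiff ℝ 1 χ := χ.contDiff
  have hball : ∀ p, ‖p‖ ≤ R → p ∈ Metric.ball (0 : ℂ) R₁ := fun p hp => by
    rw [mem_ball_zero_iff]
    exact hp.trans_lt hR₁
  have hyat : ∀ p, ‖p‖ < R₁ → ContDiffAt ℝ 1 y p := fun p hp =>
    hy.contDiffAt (Metric.isOpen_ball.mem_nhds (by rwa [mem_ball_zero_iff]))
  -- a bound for the boundary terms
  obtain ⟨K, hK⟩ : ∃ K : ℝ, ∀ p, ‖p‖ ≤ R →
      (‖fderiv ℝ χ p 1‖ + ‖fderiv ℝ χ p Complex.I‖) * ‖y p‖ ≤ K := by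
    have hc : ContinuousOn
        (fun p => (‖fderiv ℝ χ p 1‖ + ‖fderiv ℝ χ p Complex.I‖) * ‖y p‖)
        (Metric.closedBall (0 : ℂ) R) := by
      have h1 : Continuous (fderiv ℝ χ) := hχd.continuous_fderiv one_ne_zero
      have h2 : ContinuousOn y (Metric.closedBall (0 : ℂ) R) :=
        hy.continuousOn.mono fun p hp => hball p (by rwa [mem_closedBall_zero_iff] at hp)
      have h3 : Continuous fun p => ‖fderiv ℝ χ p 1‖ := (h1.clm_apply continuous_const).norm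
      have h4 : Continuous fun p => ‖fderiv ℝ χ p Complex.I‖ :=
        (h1.clm_apply continuous_const).norm
      exact (h3.add h4).continuousOn.mul h2.norm
    obtain ⟨K, hK⟩ := (isCompact_closedBall (0 : ℂ) R).exists_bound_of_continuousOn hc
    refine ⟨K, fun p hp => ?_⟩
    exact (le_abs_self _).trans (hK p (by rwa [mem_closedBall_zero_iff]))
  have hK0 : 0 ≤ K := by
    refine le_trans ?_ (hK 0 (by simpa using hR.le))
    positivity
  -- the estimate for each N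
  have hN : ∀ N : ℕ, ‖y z‖ ≤ 4 * R * K * (‖z‖ / r) ^ N := by
    intro N
    let w : ℂ → E := fun p => χ p • ((p ^ N)⁻¹ • y p)
    have hw0 : w =ᶠ[𝓝 0] fun _ => 0 := by
      filter_upwards [h0] with p hp
      show χ p • ((p ^ N)⁻¹ • y p) = 0
      rw [hp]
      simp
    have hwR : ∀ p, R ≤ ‖p‖ → w p = 0 := fun p hp => by
      show χ p • ((p ^ N)⁻¹ • y p) = 0
      rw [χ.zero_of_le_dist (by rw [dist_zero_right]; exact hp), zero_smul]
    have hwR' : ∀ p, R < ‖p‖ → w =ᶠ[𝓝 p] fun _ => 0 := fun p hp => by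
      have h1 : ∀ᶠ q in 𝓝 p, R < ‖q‖ := continuous_norm.continuousAt.eventually_const_lt hp
      filter_upwards [h1] with q hq
      exact hwR q hq.le
    have hupow : ∀ p : ℂ, p ≠ 0 → ∃ u', HasDerivAt (fun p : ℂ => (p ^ N)⁻¹) u' p := fun p hp => by
      have h1 : DifferentiableAt ℂ (fun p : ℂ => (p ^ N)⁻¹) p :=
        (differentiableAt_id.pow N).inv (pow_ne_zero N hp)
      exact ⟨_, h1.hasDerivAt⟩
    have hwc : ContDiff ℝ 1 w := by
      rw [contDiff_iff_contDiffAt]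
      intro p
      rcases eq_or_ne p 0 with rfl | hp0
      · exact contDiffAt_const.congr_of_eventuallyEq hw0
      rcases lt_or_ge R ‖p‖ with hp | hp
      · exact contDiffAt_const.congr_of_eventuallyEq (hwR' p hp)
      · have h1 : ContDiffAt ℝ 1 (fun p : ℂ => (p ^ N)⁻¹) p :=
          (contDiffAt_id.pow N).inv (pow_ne_zero N hp0)
        exact hχd.contDiffAt.smul (h1.smul (hyat p (hp.trans_lt hR₁)))
    -- the bound
    have hbd : ∀ p, ‖db w p‖ ≤ C * ‖w p‖ + K * (r ^ N)⁻¹ := by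
      intro p
      have hpos : 0 ≤ C * ‖w p‖ + K * (r ^ N)⁻¹ := by positivity
      rcases eq_or_ne p 0 with rfl | hp0
      · rw [db_congr hw0, db_zero, norm_zero]
        exact hpos
      rcases lt_or_ge R ‖p‖ with hp | hp
      · rw [db_congr (hwR' p hp), db_zero, norm_zero]
        exact hpos
      obtain ⟨u', hu'⟩ := hupow p hp0
      have h1 : db w p = χ p • ((p ^ N)⁻¹ • db y p) +
          ((fderiv ℝ χ p 1 : ℂ) + Complex.I * (fderiv ℝ χ p Complex.I : ℂ)) •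
            ((p ^ N)⁻¹ • y p) :=
        db_mul (hχd.differentiable one_ne_zero p) hu'
          ((hyat p (hp.trans_lt hR₁)).differentiableAt one_ne_zero)
      rw [h1]
      refine (norm_add_le _ _).trans (add_le_add ?_ ?_)
      · have h2 : ‖w p‖ = ‖χ p‖ * (‖(p ^ N)⁻¹‖ * ‖y p‖) := by
          show ‖χ p • ((p ^ N)⁻¹ • y p)‖ = _
          rw [norm_smul, norm_smul]
        rw [norm_smul, norm_smul, h2]
        have h3 := mul_le_mul_of_nonneg_left (hd p hp)
          (by positivity : 0 ≤ ‖χ p‖ * ‖(p ^ N)⁻¹‖)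
        calc ‖χ p‖ * (‖(p ^ N)⁻¹‖ * ‖db y p‖) = ‖χ p‖ * ‖(p ^ N)⁻¹‖ * ‖db y p‖ := by ring
          _ ≤ ‖χ p‖ * ‖(p ^ N)⁻¹‖ * (C * ‖y p‖) := h3
          _ = C * (‖χ p‖ * (‖(p ^ N)⁻¹‖ * ‖y p‖)) := by ring
      · rcases lt_or_ge ‖p‖ r with hpr | hpr
        · have h2 : fderiv ℝ χ p = 0 := by
            have h3 : (χ : ℂ → ℝ) =ᶠ[𝓝 p] fun _ => 1 :=
              χ.eventuallyEq_one_of_mem_ball (by rwa [mem_ball_zero_iff])
            rw [h3.fderiv_eq, fderiv_fun_const]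
            rfl
          rw [h2]
          simp only [_root_.zero_apply, Complex.ofReal_zero, mul_zero, add_zero, zero_smul,
            norm_zero]
          positivity
        · rw [norm_smul, norm_smul]
          have h2 : ‖(fderiv ℝ χ p 1 : ℂ) + Complex.I * (fderiv ℝ χ p Complex.I : ℂ)‖ ≤
              ‖fderiv ℝ χ p 1‖ + ‖fderiv ℝ χ p Complex.I‖ := by
            refine (norm_add_le _ _).trans ?_
            rw [norm_mul, Complex.norm_I, one_mul, Complex.norm_real, Complex.norm_real]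
          have h3 : ‖(p ^ N)⁻¹‖ ≤ (r ^ N)⁻¹ := by
            rw [norm_inv, norm_pow]
            exact inv_anti₀ (by positivity) (pow_le_pow_left₀ hr.le hpr N)
          calc ‖(fderiv ℝ χ p 1 : ℂ) + Complex.I * (fderiv ℝ χ p Complex.I : ℂ)‖ *
                (‖(p ^ N)⁻¹‖ * ‖y p‖)
              ≤ (‖fderiv ℝ χ p 1‖ + ‖fderiv ℝ χ p Complex.I‖) * ((r ^ N)⁻¹ * ‖y p‖) := by
                gcongr
            _ = ((‖fderiv ℝ χ p 1‖ + ‖fderiv ℝ χ p Complex.I‖) * ‖y p‖) * (r ^ N)⁻¹ := by ring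
            _ ≤ K * (r ^ N)⁻¹ := by
                have := hK p hp
                gcongr
    -- the maximum
    obtain ⟨p₀, hp₀, hmax⟩ := (isCompact_closedBall (0 : ℂ) R).exists_isMaxOn
      ⟨0, by simpa using hR.le⟩ hwc.continuous.norm.continuousOn
    have hmax' : ∀ p, ‖w p‖ ≤ ‖w p₀‖ := fun p => by
      rcases le_or_gt ‖p‖ R with hp | hp
      · exact hmax (by rwa [mem_closedBall_zero_iff])
      · rw [hwR p hp.le, norm_zero]
        exact norm_nonneg _
    have h1 := mean_est hwc hR.le hwR (B := C * ‖w p₀‖ + K * (r ^ N)⁻¹)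
      (fun p => (hbd p).trans (by
        have := hmax' p
        gcongr)) p₀ (by rwa [mem_closedBall_zero_iff] at hp₀)
    have h2 : ‖w p₀‖ ≤ 4 * R * K * (r ^ N)⁻¹ := by
      have h3 : 4 * R * C * ‖w p₀‖ ≤ 1 * ‖w p₀‖ :=
        mul_le_mul_of_nonneg_right hCR (norm_nonneg _)
      nlinarith
    have h3 : ‖w z‖ = (‖z‖ ^ N)⁻¹ * ‖y z‖ := by
      show ‖χ z • ((z ^ N)⁻¹ • y z)‖ = _
      rw [χ.one_of_mem_closedBall (by rw [mem_closedBall_zero_iff]; exact hzr.le), one_smul,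
        norm_smul, norm_inv, norm_pow]
    have h4 := (hmax' z).trans h2
    rw [h3] at h4
    have h5 : 0 < ‖z‖ ^ N := by positivity
    have h6 : ‖y z‖ = ‖z‖ ^ N * ((‖z‖ ^ N)⁻¹ * ‖y z‖) := by
      rw [← mul_assoc, mul_inv_cancel₀ h5.ne', one_mul]
    rw [h6]
    calc ‖z‖ ^ N * ((‖z‖ ^ N)⁻¹ * ‖y z‖) ≤ ‖z‖ ^ N * (4 * R * K * (r ^ N)⁻¹) := by gcongr
      _ = 4 * R * K * (‖z‖ / r) ^ N := by
          rw [div_pow, div_eq_mul_inv]
          ring
  have hlim : Tendsto (fun N : ℕ => 4 * R * K * (‖z‖ / r) ^ N) atTop (𝓝 (4 * R * K * 0)) :=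
    (tendsto_pow_atTop_nhds_zero_of_lt_one (by positivity) (by rwa [div_lt_one hr])).const_mul _
  rw [mul_zero] at hlim
  exact norm_le_zero_iff.1 (ge_of_tendsto' hlim hN)

end Pool.Agent.Lib.MP_5d4057_al.RG.UC
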