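import Pool.Agent.Lib.MP_5d4057_al.HM.AppCalc
import Pool.Agent.Lib.MP_5d4057_al.RG.UC2

/-!
# RG: unique continuation (owner: helper11)
-/

set_option autoImplicit false

namespace Pool.Agent.Lib.MP_5d4057_al.RG

open Matrix Filter Topology Pool.Agent.Lib.MP_5d4057_al Pool.Agent.Lib.MP_5d4057_al.Hyb
  Pool.Agent.Lib.MP_5d4057_al.HM

theorem isPreconnected_cone (m : ℕ) : IsPreconnected (Cone m) := by
  -- the central line
  have hLq : ∀ c : ℂ, q (Pi.single (Fin.last m) c : Vec m) = -‖c‖ ^ 2 := fun c => by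
    rw [q_eq, Pi.single_eq_same]
    have h1 : ∀ i : Fin m, ‖(Pi.single (Fin.last m) c : Vec m) i.castSucc‖ ^ 2 = 0 := fun i => by
      rw [Pi.single_eq_of_ne (Fin.castSucc_lt_last i).ne, norm_zero]
      norm_num
    rw [Finset.sum_congr rfl fun i _ => h1 i, Finset.sum_const_zero, zero_sub]
  have hL : IsPreconnected ((fun c : ℂ => (Pi.single (Fin.last m) c : Vec m)) '' {0}ᶜ) := by
    have hcs : Continuous fun c : ℂ => (Pi.single (Fin.last m) c : Vec m) := by
      refine continuous_pi fun i => ?_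
      by_cases hi : i = Fin.last m
      · subst hi
        simp only [Pi.single_eq_same]
        exact continuous_id
      · simp only [Pi.single_eq_of_ne hi]
        exact continuous_const
    refine (isConnected_compl_singleton_of_one_lt_rank ?_ (0 : ℂ)).isPreconnected.image _
      hcs.continuousOn
    rw [Complex.rank_real_complex]
    exact Nat.one_lt_ofNat
  refine isPreconnected_of_forall (base m) fun y hy => ?_
  have hy' : q y < 0 := hy
  rw [q_eq] at hy'
  have hsum : 0 ≤ ∑ i : Fin m, ‖y i.castSucc‖ ^ 2 := Finset.sum_nonneg fun i _ => by positivity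
  have hlast : y (Fin.last m) ≠ 0 := by
    intro h
    rw [h, norm_zero] at hy'
    nlinarith
  let g : ℝ → Vec m := fun s i => if i = Fin.last m then y i else (s : ℂ) * y i
  have hg : Continuous g := by
    refine continuous_pi fun i => ?_
    by_cases hi : i = Fin.last m
    · simp only [g, if_pos hi]
      exact continuous_const
    · simp only [g, if_neg hi]
      exact Complex.continuous_ofReal.mul continuous_const
  refine ⟨(g '' Set.Icc 0 1) ∪ ((fun c : ℂ => (Pi.single (Fin.last m) c : Vec m)) '' {0}ᶜ),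
    Set.union_subset ?_ ?_, Or.inr ⟨1, one_ne_zero, rfl⟩, Or.inl ⟨1, ⟨zero_le_one, le_rfl⟩, ?_⟩, ?_⟩
  · rintro _ ⟨s, ⟨hs0, hs1⟩, rfl⟩
    show q (g s) < 0
    rw [q_eq]
    have h1 : ∀ i : Fin m, ‖g s i.castSucc‖ ^ 2 ≤ ‖y i.castSucc‖ ^ 2 := fun i => by
      have h2 : g s i.castSucc = (s : ℂ) * y i.castSucc :=
        if_neg (Fin.castSucc_lt_last i).ne
      rw [h2, norm_mul, Complex.norm_real, Real.norm_of_nonneg hs0]
      have h3 : s * ‖y i.castSucc‖ ≤ ‖y i.castSucc‖ := mul_le_of_le_one_left (norm_nonneg _) hs1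
      exact pow_le_pow_left₀ (by positivity) h3 2
    have h2 : g s (Fin.last m) = y (Fin.last m) := if_pos rfl
    rw [h2]
    have := Finset.sum_le_sum fun i (_ : i ∈ Finset.univ) => h1 i
    linarith
  · rintro _ ⟨c, hc, rfl⟩
    show q _ < 0
    rw [hLq]
    have : 0 < ‖c‖ := norm_pos_iff.2 hc
    nlinarith
  · funext i
    by_cases hi : i = Fin.last m
    · exact if_pos hi
    · refine (if_neg hi).trans ?_
      rw [Complex.ofReal_one, one_mul]
  · refine IsPreconnected.union (Pi.single (Fin.last m) (y (Fin.last m))) ?_ ?_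
      (isPreconnected_Icc.image _ hg.continuousOn) hL
    · refine ⟨0, ⟨le_rfl, zero_le_one⟩, ?_⟩
      funext i
      by_cases hi : i = Fin.last m
      · subst hi
        rw [Pi.single_eq_same]
        exact if_pos rfl
      · rw [Pi.single_eq_of_ne hi]
        refine (if_neg hi).trans ?_
        rw [Complex.ofReal_zero, zero_mul]
    · exact ⟨y (Fin.last m), hlast, rfl⟩

theorem uc {m N : ℕ} {U : Set (Vec m)} (hU : IsOpen U) (hc : IsPreconnected U)
    {y : Vec m → Fin N → ℂ} (hy : ContDiffOn ℝ 1 y U)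
    (hd : ∀ K ⊆ U, IsCompact K → ∃ C : ℝ, ∀ v ∈ K, ∀ ξ : Vec m, ‖pb y v ξ‖ ≤ C * ‖ξ‖ * ‖y v‖)
    {v₀ : Vec m} (hv₀ : v₀ ∈ U) (h0 : y =ᶠ[𝓝 v₀] 0) : ∀ v ∈ U, y v = 0 := by
  have hZ : IsOpen {v | y =ᶠ[𝓝 v] 0} := isOpen_setOfPred_eventually_nhds
  suffices hsub : U ⊆ {v | y =ᶠ[𝓝 v] 0} from fun v hv => (hsub hv).eq_of_nhds
  refine hc.subset_of_closure_inter_subset hZ ⟨v₀, hv₀, h0⟩ ?_
  rintro v ⟨hvZ, hvU⟩
  obtain ⟨ε, hε, hεU⟩ := Metric.isOpen_iff.1 hU v hvU
  obtain ⟨δ₀, hδ₀, hδε⟩ : ∃ δ₀ : ℝ, 0 < δ₀ ∧ 4 * δ₀ < ε := ⟨ε / 5, by positivity, by linarith⟩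
  have hball : Metric.closedBall v (4 * δ₀) ⊆ U :=
    (Metric.closedBall_subset_ball hδε).trans hεU
  obtain ⟨C₀, hC₀⟩ := hd _ hball (isCompact_closedBall _ _)
  obtain ⟨C, hC, hCb⟩ : ∃ C : ℝ, 0 ≤ C ∧ ∀ v' ∈ Metric.closedBall v (4 * δ₀), ∀ ξ : Vec m,
      ‖pb y v' ξ‖ ≤ C * ‖ξ‖ * ‖y v'‖ := by
    refine ⟨max C₀ 0, le_max_right _ _, fun v' hv' ξ => (hC₀ v' hv' ξ).trans ?_⟩
    have := le_max_left C₀ 0
    gcongr
  obtain ⟨δ, hδ, hδδ, hCδ⟩ : ∃ δ : ℝ, 0 < δ ∧ δ ≤ δ₀ ∧ 16 * C * δ ≤ 1 := by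
    refine ⟨min δ₀ (1 / (16 * (C + 1))), lt_min hδ₀ (by positivity), min_le_left _ _, ?_⟩
    have h1 : min δ₀ (1 / (16 * (C + 1))) ≤ 1 / (16 * (C + 1)) := min_le_right _ _
    have h2 : 16 * C * min δ₀ (1 / (16 * (C + 1))) ≤ 16 * C * (1 / (16 * (C + 1))) := by gcongr
    refine h2.trans ?_
    rw [mul_one_div, div_le_one (by positivity)]
    linarith
  obtain ⟨v₁, hv₁, hdist⟩ := Metric.mem_closure_iff.1 hvZ δ hδ
  have key : ∀ w ∈ Metric.ball v₁ δ, y w = 0 := by
    intro w hw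
    rw [mem_ball_iff_norm] at hw
    obtain ⟨ξ, hξ⟩ : ∃ ξ, ξ = w - v₁ := ⟨_, rfl⟩
    rw [← hξ] at hw
    have hmem : ∀ s : ℂ, ‖s‖ < 3 → v₁ + s • ξ ∈ Metric.closedBall v (4 * δ₀) := fun s hs => by
      rw [mem_closedBall_iff_norm]
      have h1 : v₁ + s • ξ - v = s • ξ - (v - v₁) := by abel
      have h2 : ‖v - v₁‖ < δ := by rwa [← dist_eq_norm]
      rw [h1]
      refine (norm_sub_le _ _).trans ?_
      rw [norm_smul]
      have h3 : ‖s‖ * ‖ξ‖ ≤ 3 * δ := mul_le_mul hs.le hw.le (norm_nonneg _) (by norm_num)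
      linarith
    have hLc : ContDiff ℝ 1 fun s : ℂ => v₁ + s • ξ :=
      contDiff_const.add (contDiff_id.smul contDiff_const)
    have hdL : ∀ s : ℂ, HasFDerivAt (fun s : ℂ => v₁ + s • ξ)
        ((ContinuousLinearMap.toSpanSingleton ℂ ξ).restrictScalars ℝ) s := fun s => by
      have h1 : HasFDerivAt (fun s : ℂ => ContinuousLinearMap.toSpanSingleton ℂ ξ s)
          (ContinuousLinearMap.toSpanSingleton ℂ ξ) s :=
        (ContinuousLinearMap.toSpanSingleton ℂ ξ).hasFDerivAt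
      exact (h1.restrictScalars ℝ).const_add v₁
    have h1 : (fun s : ℂ => y (v₁ + s • ξ)) 1 = 0 := by
      refine UC.uc_disc (y := fun s : ℂ => y (v₁ + s • ξ)) (R := 2) (R₁ := 3) (C := 2 * C * δ)
        two_pos (by norm_num) ?_ (by positivity) (by linarith) ?_ ?_ 1 (by norm_num)
      · refine hy.comp hLc.contDiffOn fun s hs => hball (hmem s ?_)
        rwa [mem_ball_zero_iff] at hs
      · intro s hs
        have hs' : v₁ + s • ξ ∈ Metric.closedBall v (4 * δ₀) := hmem s (by linarith)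
        have h2 : DifferentiableAt ℝ y (v₁ + s • ξ) :=
          (hy.contDiffAt (hU.mem_nhds (hball hs'))).differentiableAt one_ne_zero
        have h3 : HasFDerivAt (fun s : ℂ => y (v₁ + s • ξ)) ((fderiv ℝ y (v₁ + s • ξ)).comp
            ((ContinuousLinearMap.toSpanSingleton ℂ ξ).restrictScalars ℝ)) s :=
          h2.hasFDerivAt.comp s (hdL s)
        have h4 : UC.db (fun s : ℂ => y (v₁ + s • ξ)) s = (2 : ℂ) • pb y (v₁ + s • ξ) ξ := by
          rw [UC.db, h3.fderiv, pb, smul_smul]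
          simp only [ContinuousLinearMap.comp_apply, ContinuousLinearMap.coe_restrictScalars',
            ContinuousLinearMap.toSpanSingleton_apply, one_smul]
          norm_num
        rw [h4, norm_smul]
        have h5 := hCb _ hs' ξ
        have h6 : C * ‖ξ‖ * ‖y (v₁ + s • ξ)‖ ≤ C * δ * ‖y (v₁ + s • ξ)‖ := by gcongr
        have h7 : ‖(2 : ℂ)‖ = 2 := by norm_num
        rw [h7]
        linarith
      · have h2 : Tendsto (fun s : ℂ => v₁ + s • ξ) (𝓝 0) (𝓝 v₁) := by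
          have h3 := hLc.continuous.tendsto 0
          rwa [zero_smul, add_zero] at h3
        exact h2.eventually hv₁
    have h2 : v₁ + (1 : ℂ) • ξ = w := by
      rw [one_smul, hξ]
      abel
    rw [← h2]
    exact h1
  have hn : Metric.ball v₁ δ ∈ 𝓝 v := Metric.isOpen_ball.mem_nhds (by rwa [Metric.mem_ball])
  exact Filter.mem_of_superset hn key

end Pool.Agent.Lib.MP_5d4057_al.RG
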