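import Pool.Agent.Lib.MP_5d4057_al.RG.Cj
import Pool.Agent.Lib.MP_5d4057_al.RG.UC

/-!
# RG 5: unique continuation for the `(0,1)` part of the derivative

For fixed `ξ` put `Θ v = pz F v ξ * (F v)⁻¹`, `y v = star (x v) ᵥ* J ᵥ* Θ v` (a multiple of
`star (db x v ξ) ᵥ* J`, of class `C¹`). From `Harm.ph`: `pb Θ η = (1/2) [τ, Θ]`, `τ = pb F v η * (F v)⁻¹`, a multiple of
`(b η) x^* J - x (a η)^* J`, so `(star x ᵥ* J) τ = c (a η)^* J` and
`pb y η = (pz x η)^* J Θ + (1/2) x^* J τ Θ - (1/2) y τ`: the first two terms add up to a multiple of `y`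
(`pz x η = a η + l x`): `pb y η = l y - (1/2) y τ`. So `‖pb y η‖ ≤ C ‖η‖ ‖y‖` on compact sets and `uc` applies.
-/

set_option autoImplicit false

namespace Pool.Agent.Lib.MP_5d4057_al.RG

open Matrix Filter Topology Pool.Agent.Lib.MP_5d4057_al Pool.Agent.Lib.MP_5d4057_al.Hyb
  Pool.Agent.Lib.MP_5d4057_al.HM Pool.Agent.Lib.MP_5d4057_al.RC

open scoped ComplexOrder MatrixOrder Matrix.Norms.L2Operator

variable {m n : ℕ}

/-- `u ᵥ* M` as a bilinear map. -/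
noncomputable def vlL (n : ℕ) : Vec n →L[ℂ] Mat (n + 1) →L[ℂ] Vec n :=
  toBil (LinearMap.mk₂ ℂ (fun (u : Vec n) (M : Mat (n + 1)) => (u ᵥ* M : Vec n))
    (fun u u' M => add_vecMul M u u')
    (fun c u M => smul_vecMul c u M)
    (fun u M M' => vecMul_add M M' u)
    (fun c u M => vecMul_smul u c M))

theorem vlL_apply (u : Vec n) (M : Mat (n + 1)) : vlL n u M = u ᵥ* M := rfl

/-- The antilinear derivative of `pz F v ξ * (F v)⁻¹`. -/
theorem hasZ_theta {l : ℕ} {F : Vec m → Mat l} (hF : Harm F) {v : Vec m} (hv : v ∈ Cone m)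
    (ξ η : Vec m) :
    HasZ (fun w => pz F w ξ * (F w)⁻¹) v η (pz (fun w => pz F w ξ * (F w)⁻¹) v η)
      ((1 / 2 : ℂ) • (pb F v η * (F v)⁻¹ * (pz F v ξ * (F v)⁻¹) -
        pz F v ξ * (F v)⁻¹ * (pb F v η * (F v)⁻¹))) := by
  have h1 : HasZ (fun w => pz F w ξ) v η _ _ :=
    hasZ (hasFDerivAt_pz (hF.cda hv) ξ).differentiableAt η
  have h2 : HasZ (fun w => (F w)⁻¹) v η _ _ := (hasZ (hF.diff hv) η).matInv (hF.unit hv)
  have h3 : pb (fun w => pz F w ξ) v η = (1 / 2 : ℂ) •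
      (pb F v η * (F v)⁻¹ * pz F v ξ + pz F v ξ * (F v)⁻¹ * pb F v η) := by
    rw [← pz_pb_comm (hF.cda hv) ξ η]
    exact hF.ph v hv ξ η
  have h4 := h1.mul h2
  refine HasZ.of_eq h4 h4.pz.symm ?_
  rw [h3]
  generalize (F v)⁻¹ = B
  generalize pz F v ξ = X
  generalize pb F v η = Y
  simp only [Matrix.mul_assoc, Matrix.add_mul, Matrix.smul_mul, Matrix.mul_neg]
  module

theorem star_vm {w : Vec n} (hw : w ∈ Cone n) : star w ᵥ* (std w)⁻¹ = -(star w ᵥ* J n) := by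
  have h := congrArg star (std_inv_self hw)
  rw [star_mulVec, star_neg, star_mulVec, J_herm, (std_herm w).inv.eq] at h
  exact h

theorem star_vm' {w u : Vec n} (hw : w ∈ Cone n) (hu : herm w u = 0) :
    star u ᵥ* (std w)⁻¹ = star u ᵥ* J n := by
  have h := congrArg star (std_inv_mulVec hw hu)
  rw [star_mulVec, star_mulVec, J_herm, (std_herm w).inv.eq] at h
  exact h

theorem vm_vv (u a b : Vec n) : u ᵥ* vecMulVec a b = (u ⬝ᵥ a) • b := by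
  rw [vecMul_vecMulVec]

/-- The auxiliary function. -/
noncomputable def yv (F : Vec m → Mat (n + 1)) (x : Vec m → Vec n) (ξ v : Vec m) : Vec n :=
  star (x v) ᵥ* (J n * (pz F v ξ * (F v)⁻¹))

theorem Lft.diff {F : Vec m → Mat (n + 1)} {x : Vec m → Vec n} (hx : Lft F x) {v : Vec m}
    (hv : v ∈ Cone m) : DifferentiableAt ℝ x v :=
  (hx.cd.contDiffAt ((isOpen_cone m).mem_nhds hv)).differentiableAt (by norm_num)

theorem Lft.yv_eq {F : Vec m → Mat (n + 1)} {x : Vec m → Vec n} (hx : Lft F x) {v : Vec m}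
    (hv : v ∈ Cone m) (ξ : Vec m) : yv F x ξ v = (-2 : ℂ) • (star (db x v ξ) ᵥ* J n) := by
  have hc := hx.cone v hv
  have hq := q_ne hc
  have h0 : herm (x v) (db x v ξ) = 0 := herm_prj hc (pb x v ξ)
  rw [yv, hx.pz_eq hv ξ, hx.eq v hv, Matrix.smul_mul, Matrix.add_mul, vecMulVec_mul, vecMulVec_mul,
    star_vm hc, star_vm' hc h0, Matrix.mul_smul, Matrix.mul_add,
    mul_vecMulVec, mul_vecMulVec, vecMul_smul, vecMul_add, vm_vv, vm_vv]
  have h1 : star (x v) ⬝ᵥ (J n *ᵥ da x v ξ) = 0 := herm_prj hc (pz x v ξ)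
  have h2 : star (x v) ⬝ᵥ (J n *ᵥ x v) = (q (x v) : ℂ) := herm_self (x v)
  rw [h1, h2, zero_smul, zero_add, smul_smul]
  congr 1
  field_simp

theorem Lft.tau_eq {F : Vec m → Mat (n + 1)} (hF : Harm F) {x : Vec m → Vec n} (hx : Lft F x)
    {v : Vec m} (hv : v ∈ Cone m) (η : Vec m) :
    star (x v) ᵥ* (J n * (pb F v η * (F v)⁻¹)) = (-2 : ℂ) • (star (da x v η) ᵥ* J n) := by
  have hc := hx.cone v hv
  have hq := q_ne hc
  have hs : star (-2 * (q (x v) : ℂ)⁻¹) = -2 * (q (x v) : ℂ)⁻¹ := by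
    have : star (q (x v) : ℂ) = (q (x v) : ℂ) := Complex.conj_ofReal _
    rw [star_mul', star_inv₀, this]
    simp
  have h0 : herm (x v) (da x v η) = 0 := herm_prj hc (pz x v η)
  rw [hF.pb_eq hv, hx.pz_eq hv η, conjTranspose_smul, hs, conjTranspose_add,
    conjTranspose_vecMulVec, conjTranspose_vecMulVec, star_star, star_star, hx.eq v hv,
    Matrix.smul_mul, Matrix.add_mul, vecMulVec_mul, vecMulVec_mul,
    star_vm hc, star_vm' hc h0, Matrix.mul_smul, Matrix.mul_add,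
    mul_vecMulVec, mul_vecMulVec, vecMul_smul, vecMul_add, vm_vv, vm_vv]
  have h1 : star (x v) ⬝ᵥ (J n *ᵥ db x v η) = 0 := herm_prj hc (pb x v η)
  have h2 : star (x v) ⬝ᵥ (J n *ᵥ x v) = (q (x v) : ℂ) := herm_self (x v)
  rw [h1, h2, zero_smul, add_zero, smul_smul]
  congr 1
  field_simp

/-- The antilinear derivative of `yv`. -/
theorem Lft.pb_yv {F : Vec m → Mat (n + 1)} (hF : Harm F) {x : Vec m → Vec n} (hx : Lft F x)
    {v : Vec m} (hv : v ∈ Cone m) (ξ η : Vec m) :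
    pb (yv F x ξ) v η = star (herm (x v) (pz x v η) * (q (x v) : ℂ)⁻¹) • yv F x ξ v -
      (1 / 2 : ℂ) • (yv F x ξ v ᵥ* (pb F v η * (F v)⁻¹)) := by
  have h1 : HasZ (fun w => star (x w)) v η (star (pb x v η)) (star (pz x v η)) :=
    (hasZ (hx.diff hv) η).comp_anti (F := Vec n)
      (starL' ℝ : Vec n ≃L[ℝ] Vec n).toContinuousLinearMap (by
        intro x
        show star (Complex.I • x) = -(Complex.I • star x)
        rw [star_smul]
        simp)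
  have h2 := (hasZ_const (J n) v η).mul (hasZ_theta hF hv ξ η)
  have h3 := (h1.bilin h2 (vlL n)).pb
  have h4 : pb (yv F x ξ) v η = star (x v) ᵥ* (J n * ((1 / 2 : ℂ) •
      (pb F v η * (F v)⁻¹ * (pz F v ξ * (F v)⁻¹) - pz F v ξ * (F v)⁻¹ * (pb F v η * (F v)⁻¹))) +
      0 * (pz F v ξ * (F v)⁻¹)) + star (pz x v η) ᵥ* (J n * (pz F v ξ * (F v)⁻¹)) := h3
  have h5 := hx.tau_eq hF hv η
  have h6 : pz x v η = da x v η + (herm (x v) (pz x v η) * (q (x v) : ℂ)⁻¹) • x v := by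
    rw [da, prj, sub_add_cancel]
  rw [h4]
  conv_lhs => rw [h6]
  rw [star_add, star_smul, add_vecMul, smul_vecMul]
  rw [yv]
  generalize hT : pb F v η * (F v)⁻¹ = T at *
  generalize pz F v ξ * (F v)⁻¹ = Z at *
  have h7 : star (x v) ᵥ* (J n * ((1 / 2 : ℂ) • (T * Z - Z * T)) + 0 * Z) =
      (1 / 2 : ℂ) • ((star (x v) ᵥ* (J n * T)) ᵥ* Z) -
        (1 / 2 : ℂ) • ((star (x v) ᵥ* (J n * Z)) ᵥ* T) := by
    rw [vecMul_vecMul, vecMul_vecMul, ← smul_sub, ← vecMul_sub, ← vecMul_smul]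
    congr 1
    simp only [Matrix.mul_assoc, Matrix.mul_sub, Matrix.mul_smul, Matrix.zero_mul, add_zero]
  rw [h7, h5, smul_vecMul, vecMul_vecMul]
  module

theorem norm_pz_le {E : Type} [NormedAddCommGroup E] [NormedSpace ℂ E] (f : Vec m → E)
    (v ξ : Vec m) : ‖pz f v ξ‖ ≤ ‖fderiv ℝ f v‖ * ‖ξ‖ := by
  rw [pz]
  have h1 : ‖fderiv ℝ f v ξ‖ ≤ ‖fderiv ℝ f v‖ * ‖ξ‖ := (fderiv ℝ f v).le_opNorm ξ
  have h2 : ‖fderiv ℝ f v (Complex.I • ξ)‖ ≤ ‖fderiv ℝ f v‖ * ‖ξ‖ := by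
    refine ((fderiv ℝ f v).le_opNorm _).trans_eq ?_
    rw [norm_smul, Complex.norm_I, one_mul]
  have h3 : ‖fderiv ℝ f v ξ - Complex.I • fderiv ℝ f v (Complex.I • ξ)‖ ≤
      ‖fderiv ℝ f v‖ * ‖ξ‖ + ‖fderiv ℝ f v‖ * ‖ξ‖ := by
    refine (norm_sub_le _ _).trans (add_le_add h1 ?_)
    rw [norm_smul, Complex.norm_I, one_mul]
    exact h2
  rw [norm_smul]
  have h4 : ‖(1 / 2 : ℂ)‖ = 1 / 2 := by simp
  rw [h4]
  linarith

theorem norm_pb_le {E : Type} [NormedAddCommGroup E] [NormedSpace ℂ E] (f : Vec m → E)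
    (v ξ : Vec m) : ‖pb f v ξ‖ ≤ ‖fderiv ℝ f v‖ * ‖ξ‖ := by
  rw [pb]
  have h1 : ‖fderiv ℝ f v ξ‖ ≤ ‖fderiv ℝ f v‖ * ‖ξ‖ := (fderiv ℝ f v).le_opNorm ξ
  have h2 : ‖fderiv ℝ f v (Complex.I • ξ)‖ ≤ ‖fderiv ℝ f v‖ * ‖ξ‖ := by
    refine ((fderiv ℝ f v).le_opNorm _).trans_eq ?_
    rw [norm_smul, Complex.norm_I, one_mul]
  have h3 : ‖fderiv ℝ f v ξ + Complex.I • fderiv ℝ f v (Complex.I • ξ)‖ ≤
      ‖fderiv ℝ f v‖ * ‖ξ‖ + ‖fderiv ℝ f v‖ * ‖ξ‖ := by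
    refine (norm_add_le _ _).trans (add_le_add h1 ?_)
    rw [norm_smul, Complex.norm_I, one_mul]
    exact h2
  rw [norm_smul]
  have h4 : ‖(1 / 2 : ℂ)‖ = 1 / 2 := by simp
  rw [h4]
  linarith

theorem Lft.yv_cd {F : Vec m → Mat (n + 1)} (hF : Harm F) {x : Vec m → Vec n} (hx : Lft F x)
    (ξ : Vec m) : ContDiffOn ℝ 1 (yv F x ξ) (Cone m) := by
  have h1 : ContDiffOn ℝ 1 (fun v => star (x v)) (Cone m) :=
    (starL' ℝ : Vec n ≃L[ℝ] Vec n).contDiff.comp_contDiffOn (hx.cd.of_le (by norm_num))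
  have h2 : ContDiffOn ℝ 1 (fderiv ℝ F) (Cone m) :=
    hF.cd.fderiv_of_isOpen (isOpen_cone m) (by norm_num)
  have h3 : ∀ u : Vec m, ContDiffOn ℝ 1 (fun v => fderiv ℝ F v u) (Cone m) := fun u =>
    h2.clm_apply contDiffOn_const
  have h4 : ContDiffOn ℝ 1 (fun v => pz F v ξ) (Cone m) :=
    ((h3 ξ).sub ((h3 (Complex.I • ξ)).const_smul Complex.I)).const_smul (1 / 2 : ℂ)
  have h5 : ContDiffOn ℝ 1 (fun v => (F v)⁻¹) (Cone m) := hF.inv.cd.of_le (by norm_num)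
  have h6 : ContDiffOn ℝ 1 (fun v => J n * (pz F v ξ * (F v)⁻¹)) (Cone m) :=
    contDiffOn_const.mul (h4.mul h5)
  have h7 : ContDiff ℂ 1 fun p : Vec n × Mat (n + 1) => vlL n p.1 p.2 :=
    (vlL n).isBoundedBilinearMap.contDiff
  exact (h7.restrict_scalars ℝ).comp_contDiffOn (h1.prodMk h6)

theorem Lft.db_zero {F : Vec m → Mat (n + 1)} (hF : Harm F) {x : Vec m → Vec n} (hx : Lft F x)
    {v₀ : Vec m} (hv₀ : v₀ ∈ Cone m) (h : ∀ᶠ w in 𝓝 v₀, ∀ ξ, db x w ξ = 0) :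
    ∀ v ∈ Cone m, ∀ ξ, db x v ξ = 0 := by
  intro v hv ξ
  have key : ∀ w ∈ Cone m, yv F x ξ w = 0 := by
    refine uc (isOpen_cone m) (isPreconnected_cone m) (hx.yv_cd hF ξ) ?_ hv₀ ?_
    · intro K hK hKc
      have c1 : ContinuousOn (fun w => ‖star (x w)‖) K :=
        ((continuous_star.comp_continuousOn hx.cd.continuousOn).norm).mono hK
      have c2 : ContinuousOn (fun w => ‖fderiv ℝ x w‖) K :=
        ((hx.cd.continuousOn_fderiv_of_isOpen (isOpen_cone m) (by norm_num)).norm).mono hK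
      have c3 : ContinuousOn (fun w => ‖(q (x w) : ℂ)⁻¹‖) K :=
        ((((contDiff_qc (n := n)).continuous.comp_continuousOn hx.cd.continuousOn).inv₀
          fun w hw => q_ne (hx.cone w hw)).norm).mono hK
      have c4 : ContinuousOn (fun w => ‖fderiv ℝ F w‖) K :=
        ((hF.cd.continuousOn_fderiv_of_isOpen (isOpen_cone m) (by norm_num)).norm).mono hK
      have c5 : ContinuousOn (fun w => ‖(F w)⁻¹‖) K := (hF.inv.cd.continuousOn.norm).mono hK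
      have c6 : ContinuousOn (fun w => ‖hmL n‖ * ‖star (x w)‖ * ‖fderiv ℝ x w‖ *
          ‖(q (x w) : ℂ)⁻¹‖ + 1 / 2 * (‖vlL n‖ * (‖fderiv ℝ F w‖ * ‖(F w)⁻¹‖))) K :=
        (((continuousOn_const.mul c1).mul c2).mul c3).add
          (continuousOn_const.mul (continuousOn_const.mul (c4.mul c5)))
      obtain ⟨C, hC⟩ := hKc.exists_bound_of_continuousOn c6
      refine ⟨C, fun w hw η => ?_⟩
      have hwc := hK hw
      have b0 := (Real.le_norm_self _).trans (hC w hw)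
      rw [hx.pb_yv hF hwc ξ η]
      have b1 : ‖star (herm (x w) (pz x w η) * (q (x w) : ℂ)⁻¹) • yv F x ξ w‖ ≤
          ‖hmL n‖ * ‖star (x w)‖ * ‖fderiv ℝ x w‖ * ‖(q (x w) : ℂ)⁻¹‖ * ‖η‖ * ‖yv F x ξ w‖ := by
        rw [norm_smul, norm_star, norm_mul]
        refine mul_le_mul_of_nonneg_right ?_ (norm_nonneg _)
        have e1 : ‖herm (x w) (pz x w η)‖ ≤ ‖hmL n‖ * ‖star (x w)‖ * ‖pz x w η‖ := by
          rw [← hmL_apply]
          exact (hmL n).le_opNorm₂ _ _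
        have e2 := norm_pz_le x w η
        calc ‖herm (x w) (pz x w η)‖ * ‖(q (x w) : ℂ)⁻¹‖
            ≤ ‖hmL n‖ * ‖star (x w)‖ * (‖fderiv ℝ x w‖ * ‖η‖) * ‖(q (x w) : ℂ)⁻¹‖ := by
              refine mul_le_mul_of_nonneg_right (e1.trans ?_) (norm_nonneg _)
              exact mul_le_mul_of_nonneg_left e2 (by positivity)
          _ = _ := by ring
      have b2 : ‖(1 / 2 : ℂ) • (yv F x ξ w ᵥ* (pb F w η * (F w)⁻¹))‖ ≤
          1 / 2 * (‖vlL n‖ * (‖fderiv ℝ F w‖ * ‖(F w)⁻¹‖)) * ‖η‖ * ‖yv F x ξ w‖ := by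
        have h4 : ‖(1 / 2 : ℂ)‖ = 1 / 2 := by simp
        rw [norm_smul, h4, ← vlL_apply]
        have e1 : ‖vlL n (yv F x ξ w) (pb F w η * (F w)⁻¹)‖ ≤
            ‖vlL n‖ * ‖yv F x ξ w‖ * ‖pb F w η * (F w)⁻¹‖ := (vlL n).le_opNorm₂ _ _
        have e2 : ‖pb F w η * (F w)⁻¹‖ ≤ ‖fderiv ℝ F w‖ * ‖η‖ * ‖(F w)⁻¹‖ :=
          (norm_mul_le _ _).trans (mul_le_mul_of_nonneg_right (norm_pb_le F w η) (norm_nonneg _))
        calc 1 / 2 * ‖vlL n (yv F x ξ w) (pb F w η * (F w)⁻¹)‖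
            ≤ 1 / 2 * (‖vlL n‖ * ‖yv F x ξ w‖ * (‖fderiv ℝ F w‖ * ‖η‖ * ‖(F w)⁻¹‖)) := by
              refine mul_le_mul_of_nonneg_left (e1.trans ?_) (by norm_num)
              exact mul_le_mul_of_nonneg_left e2 (by positivity)
          _ = _ := by ring
      have b3 : 0 ≤ ‖η‖ * ‖yv F x ξ w‖ := by positivity
      calc _ ≤ _ := norm_sub_le _ _
        _ ≤ _ := add_le_add b1 b2
        _ = (‖hmL n‖ * ‖star (x w)‖ * ‖fderiv ℝ x w‖ *
          ‖(q (x w) : ℂ)⁻¹‖ + 1 / 2 * (‖vlL n‖ * (‖fderiv ℝ F w‖ * ‖(F w)⁻¹‖))) *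
            (‖η‖ * ‖yv F x ξ w‖) := by ring
        _ ≤ C * (‖η‖ * ‖yv F x ξ w‖) := mul_le_mul_of_nonneg_right b0 b3
        _ = _ := by ring
    · filter_upwards [h, mem_nhds_cone hv₀] with w hw hwc
      rw [hx.yv_eq hwc ξ, hw ξ]
      simp
  have h1 := key v hv
  rw [hx.yv_eq hv ξ] at h1
  have h2 : star (db x v ξ) ᵥ* J n = 0 := (smul_eq_zero.1 h1).resolve_left (by norm_num)
  have h3 : star (db x v ξ) = 0 := by
    have h4 := congrArg (fun u => u ᵥ* J n) h2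
    simp only [vecMul_vecMul, J_J, vecMul_one, zero_vecMul] at h4
    exact h4
  exact star_eq_zero.1 h3

end Pool.Agent.Lib.MP_5d4057_al.RG
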