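import Pool.Agent.Lib.MP_5d4057_al.RG.Defs

/-!
# RG 2: the lift of the harmonic map

PROOF of `std_of_refl`. From `J P⁻¹ J = P` one gets `P J P = J`; `R = P - J` is Hermitian,
`R J R = -2 R` and `P J R = -R`. `w` = the last column of `R`: `q w = -2 R_nn = -2 (P_nn + 1) < 0`.
For each `j` the vector `z = R e_j - (R_nj / R_nn) w` has last coordinate zero, so `q z ≥ 0`, and
`J z = -P⁻¹ z`, so `q z < 0` unless `z = 0`. Hence `R = (-2 / q w) w w^*`.
LIFT: `x v = (v_last / R_nn) • R e_n` with `R = F v - J`.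
-/

set_option autoImplicit false

namespace Pool.Agent.Lib.MP_5d4057_al.RG

open Matrix Filter Topology Pool.Agent.Lib.MP_5d4057_al Pool.Agent.Lib.MP_5d4057_al.Hyb
  Pool.Agent.Lib.MP_5d4057_al.HM Pool.Agent.Lib.MP_5d4057_al.RC

open scoped ComplexOrder MatrixOrder Matrix.Norms.L2Operator

variable {m n : ℕ}

private theorem J_last : J n (Fin.last n) (Fin.last n) = -1 := by
  rw [J, diagonal_apply_eq, if_pos rfl]

private theorem last_ne {v : Vec n} (hv : v ∈ Cone n) : v (Fin.last n) ≠ 0 := by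
  intro h
  have h1 : q v < 0 := hv
  rw [q_eq, h, norm_zero] at h1
  have : 0 ≤ ∑ i : Fin n, ‖v i.castSucc‖ ^ 2 := Finset.sum_nonneg fun i _ => sq_nonneg _
  linarith [sq_nonneg (0 : ℝ)]

theorem std_of_refl {P : Mat (n + 1)} (hP : P.PosDef) (h : J n * P⁻¹ * J n = P) :
    ∃ w ∈ Cone n, P = std w := by
  have hdet : IsUnit P.det := (isUnit_iff_isUnit_det P).1 hP.isUnit
  have hPJP : P * J n * P = J n := by
    calc P * J n * P = (J n * P⁻¹ * J n) * J n * P := by rw [h]
      _ = J n * P⁻¹ * (J n * J n) * P := by simp only [Matrix.mul_assoc]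
      _ = J n * (P⁻¹ * P) := by rw [J_J, Matrix.mul_one, Matrix.mul_assoc]
      _ = J n := by rw [nonsing_inv_mul _ hdet, Matrix.mul_one]
  obtain ⟨R, hR⟩ : ∃ R : Mat (n + 1), R = P - J n := ⟨_, rfl⟩
  have hRH : Rᴴ = R := by rw [hR, conjTranspose_sub, hP.isHermitian.eq, J_herm]
  have hRJR : R * J n * R = (-2 : ℂ) • R := by
    rw [hR, Matrix.sub_mul, J_J, Matrix.sub_mul, Matrix.mul_sub, hPJP, Matrix.mul_assoc P, J_J,
      Matrix.mul_one, Matrix.one_mul]
    module
  have hPJR : P * J n * R = -R := by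
    rw [hR, Matrix.mul_sub, hPJP, Matrix.mul_assoc P, J_J, Matrix.mul_one]
    module
  have hherm : ∀ a b : Vec n, herm (R *ᵥ a) (R *ᵥ b) = -2 * (star a ⬝ᵥ (R *ᵥ b)) := by
    intro a b
    rw [herm, star_mulVec, ← dotProduct_mulVec, mulVec_mulVec, mulVec_mulVec, hRH,
      hRJR, smul_mulVec, dotProduct_smul, smul_eq_mul]
  obtain ⟨w, hw⟩ : ∃ w : Vec n, w = R *ᵥ Pi.single (Fin.last n) 1 := ⟨_, rfl⟩
  have hwi : ∀ i, w i = R i (Fin.last n) := by
    intro i
    rw [hw, mulVec_single_one]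
    rfl
  have hPnn : 0 < P (Fin.last n) (Fin.last n) := hP.diag_pos
  have hRnn : R (Fin.last n) (Fin.last n) = P (Fin.last n) (Fin.last n) + 1 := by
    rw [hR, Matrix.sub_apply, J_last]
    ring
  have hqw : (q w : ℂ) = -2 * R (Fin.last n) (Fin.last n) := by
    rw [← herm_self, hw, hherm]
    congr 1
    rw [← Pi.single_star, star_one, single_one_dotProduct, mulVec_single_one]
    rfl
  have hRpos : 0 < R (Fin.last n) (Fin.last n) := by
    rw [hRnn]
    exact add_pos hPnn one_pos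
  have hRne : R (Fin.last n) (Fin.last n) ≠ 0 := hRpos.ne'
  have hwc : w ∈ Cone n := by
    change q w < 0
    have h1 : ((q w : ℝ) : ℂ) < 0 := by
      rw [hqw]
      have : (-2 : ℂ) * R (Fin.last n) (Fin.last n) = -(2 * R (Fin.last n) (Fin.last n)) := by ring
      rw [this]
      exact neg_neg_of_pos (mul_pos two_pos hRpos)
    exact_mod_cast h1
  have hz : ∀ j, R *ᵥ (Pi.single j 1 - (R (Fin.last n) j / R (Fin.last n) (Fin.last n)) •
      Pi.single (Fin.last n) 1) = 0 := by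
    intro j
    obtain ⟨u, hu⟩ : ∃ u : Vec n, u = Pi.single j 1 -
      (R (Fin.last n) j / R (Fin.last n) (Fin.last n)) • Pi.single (Fin.last n) 1 := ⟨_, rfl⟩
    rw [← hu]
    by_contra hne
    have hlast : (R *ᵥ u) (Fin.last n) = 0 := by
      rw [hu, mulVec_sub, mulVec_smul, mulVec_single_one, mulVec_single_one]
      simp only [Pi.sub_apply, Pi.smul_apply, smul_eq_mul, col_apply]
      field_simp
      ring
    have h1 : 0 ≤ q (R *ᵥ u) := by
      rw [q_eq, hlast, norm_zero]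
      have : 0 ≤ ∑ i : Fin n, ‖(R *ᵥ u) i.castSucc‖ ^ 2 :=
        Finset.sum_nonneg fun i _ => sq_nonneg _
      simpa using this
    have h2 : J n *ᵥ (R *ᵥ u) = -(P⁻¹ *ᵥ (R *ᵥ u)) := by
      have h3 : P *ᵥ (J n *ᵥ (R *ᵥ u)) = -(R *ᵥ u) := by
        rw [mulVec_mulVec, mulVec_mulVec, hPJR, neg_mulVec]
      have h4 : P⁻¹ *ᵥ (P *ᵥ (J n *ᵥ (R *ᵥ u))) = J n *ᵥ (R *ᵥ u) := by
        rw [mulVec_mulVec, nonsing_inv_mul _ hdet, one_mulVec]
      rw [← h4, h3, mulVec_neg]
    have h5 : (q (R *ᵥ u) : ℂ) < 0 := by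
      rw [← herm_self, herm, h2, dotProduct_neg]
      exact neg_neg_of_pos (hP.inv.dotProduct_mulVec_pos hne)
    have h6 : q (R *ᵥ u) < 0 := by exact_mod_cast h5
    linarith
  refine ⟨w, hwc, ?_⟩
  have hPR : P = J n + R := by
    rw [hR]
    abel
  rw [hPR, std, hqw]
  congr 1
  ext i j
  have h1 := congrFun (hz j) i
  rw [mulVec_sub, mulVec_smul, mulVec_single_one, mulVec_single_one] at h1
  simp only [Pi.sub_apply, Pi.smul_apply, smul_eq_mul, col_apply, Pi.zero_apply] at h1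
  have h2 : star (w j) = R (Fin.last n) j := by
    rw [hwi, ← conjTranspose_apply, hRH]
  rw [Matrix.smul_apply, vecMulVec_apply, Pi.star_apply, h2, hwi, smul_eq_mul]
  have h3 : R i j = R (Fin.last n) j / R (Fin.last n) (Fin.last n) * R i (Fin.last n) := by
    linear_combination h1
  rw [h3]
  field_simp

private theorem std_smul {w : Vec n} (hw : w ∈ Cone n) {c : ℂ} (hc : c ≠ 0) :
    std (c • w) = std w := std_homog c hc w hw

private theorem std_last {w : Vec n} (i : Fin (n + 1)) :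
    std w i (Fin.last n) - J n i (Fin.last n) = (-2 * (q w : ℂ)⁻¹) *
      (w i * star (w (Fin.last n))) := by
  rw [std, Matrix.add_apply, Matrix.smul_apply, vecMulVec_apply, Pi.star_apply, smul_eq_mul]
  ring

/-- The entry of a matrix is a continuous linear function. -/
private noncomputable def entR (i j : Fin (n + 1)) : Mat (n + 1) →L[ℝ] ℂ :=
  LinearMap.toContinuousLinearMap
    { toFun := fun A => A i j
      map_add' := fun _ _ => rfl
      map_smul' := fun _ _ => rfl }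

private theorem entR_apply (i j : Fin (n + 1)) (A : Mat (n + 1)) : entR i j A = A i j := rfl

theorem exists_lift {F : Vec m → Mat (n + 1)} (hF : Harm F)
    (hJ : ∀ v ∈ Cone m, J n * (F v)⁻¹ * J n = F v) : ∃ x : Vec m → Vec n, Lft F x := by
  obtain ⟨x, hx⟩ : ∃ x : Vec m → Vec n, ∀ v, x v = fun i =>
      (v (Fin.last m) / (F v (Fin.last n) (Fin.last n) - J n (Fin.last n) (Fin.last n))) *
        (F v i (Fin.last n) - J n i (Fin.last n)) := ⟨_, fun v => rfl⟩
  have hkey : ∀ v ∈ Cone m, ∃ w ∈ Cone n, F v = std w ∧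
      x v = (v (Fin.last m) / w (Fin.last n)) • w := by
    intro v hv
    obtain ⟨w, hw, hFw⟩ := std_of_refl (hF.pos v hv) (hJ v hv)
    refine ⟨w, hw, hFw, ?_⟩
    have h1 := q_ne hw
    have h2 := last_ne hw
    have h3 : star (w (Fin.last n)) ≠ 0 := star_ne_zero.2 h2
    rw [hx]
    funext i
    rw [hFw, std_last, std_last, Pi.smul_apply, smul_eq_mul]
    field_simp
  have hne : ∀ v ∈ Cone m, F v (Fin.last n) (Fin.last n) - J n (Fin.last n) (Fin.last n) ≠ 0 := by
    intro v hv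
    obtain ⟨w, hw, hFw, -⟩ := hkey v hv
    rw [hFw, std_last]
    have h1 := q_ne hw
    have h2 := last_ne hw
    have h3 : star (w (Fin.last n)) ≠ 0 := star_ne_zero.2 h2
    have h4 : (-2 : ℂ) ≠ 0 := by norm_num
    exact mul_ne_zero (mul_ne_zero h4 (inv_ne_zero h1)) (mul_ne_zero h2 h3)
  refine ⟨x, ⟨?_, ?_, ?_, ?_, ?_⟩⟩
  · have h0 : x = fun v i => (v (Fin.last m) /
        (F v (Fin.last n) (Fin.last n) - J n (Fin.last n) (Fin.last n))) *
        (F v i (Fin.last n) - J n i (Fin.last n)) := funext hx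
    rw [h0]
    have he : ∀ i j : Fin (n + 1), ContDiffOn ℝ 2 (fun v => F v i j) (Cone m) := by
      intro i j
      exact (entR i j).contDiff.comp_contDiffOn hF.cd
    rw [contDiffOn_pi]
    intro i
    simp only [div_eq_mul_inv]
    refine ContDiffOn.mul (ContDiffOn.mul ?_ (((he _ _).sub contDiffOn_const).inv hne))
      ((he _ _).sub contDiffOn_const)
    exact (contDiff_apply ℝ ℂ (Fin.last m)).contDiffOn
  · intro c hc v hv
    rw [hx, hx, hF.hom c hc v hv]
    funext i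
    simp only [Pi.smul_apply, smul_eq_mul]
    ring
  · intro v hv
    obtain ⟨w, hw, -, hxw⟩ := hkey v hv
    rw [hxw, Pi.smul_apply, smul_eq_mul, div_mul_cancel₀ _ (last_ne hw)]
  · intro v hv
    obtain ⟨w, hw, -, hxw⟩ := hkey v hv
    rw [hxw]
    exact smul_mem_cone (div_ne_zero (last_ne hv) (last_ne hw)) hw
  · intro v hv
    obtain ⟨w, hw, hFw, hxw⟩ := hkey v hv
    rw [hxw, std_smul hw (div_ne_zero (last_ne hv) (last_ne hw)), hFw]

/-- Conversely the lift is determined up to scalars by the metric. -/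
theorem std_inj {w w' : Vec n} (hw : w ∈ Cone n) (hw' : w' ∈ Cone n) (h : std w = std w') :
    ∃ c : ℂ, c ≠ 0 ∧ w = c • w' := by
  have h1 := q_ne hw
  have h1' := q_ne hw'
  have h2 := last_ne hw
  have h2' := last_ne hw'
  have h3 : star (w (Fin.last n)) ≠ 0 := star_ne_zero.2 h2
  have h3' : star (w' (Fin.last n)) ≠ 0 := star_ne_zero.2 h2'
  refine ⟨(q w : ℂ) * (q w' : ℂ)⁻¹ * star (w' (Fin.last n)) * (star (w (Fin.last n)))⁻¹,
    mul_ne_zero (mul_ne_zero (mul_ne_zero h1 (inv_ne_zero h1')) h3') (inv_ne_zero h3), ?_⟩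
  funext i
  have h4 := std_last (w := w) i
  rw [h, std_last] at h4
  rw [Pi.smul_apply, smul_eq_mul]
  field_simp at h4 ⊢
  linear_combination h4

private theorem mul_J_mul' {A : Mat (n + 1)} (hA : Aᴴ * J n * A = J n) : A * J n * Aᴴ = J n := by
  have h1 : (J n * Aᴴ * J n) * A = 1 := by
    rw [Matrix.mul_assoc, Matrix.mul_assoc, ← Matrix.mul_assoc Aᴴ, hA, J_J]
  have h2 : A * (J n * Aᴴ * J n) = 1 := mul_eq_one_comm.1 h1
  calc A * J n * Aᴴ = A * (J n * Aᴴ * J n) * J n := by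
        simp only [Matrix.mul_assoc]
        rw [J_J, Matrix.mul_one]
    _ = J n := by rw [h2, Matrix.one_mul]

private theorem herm_uj {A : Mat (n + 1)} (hA : Aᴴ * J n * A = J n) (v w : Vec n) :
    herm (A *ᵥ v) (A *ᵥ w) = herm v w := by
  rw [herm, herm, star_mulVec, mulVec_mulVec, ← dotProduct_mulVec, mulVec_mulVec,
    ← Matrix.mul_assoc, hA]

private theorem q_uj {A : Mat (n + 1)} (hA : Aᴴ * J n * A = J n) (v : Vec n) :
    q (A *ᵥ v) = q v := by
  rw [q, q, herm_uj hA]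

/-- Congruence by an element of `U(n,1)`. -/
theorem std_uj {A : Mat (n + 1)} (hA : Aᴴ * J n * A = J n) (w : Vec n) :
    A * std w * Aᴴ = std (A *ᵥ w) := by
  rw [std, std, q_uj hA, Matrix.mul_add, Matrix.add_mul, mul_J_mul' hA, Matrix.mul_smul,
    Matrix.smul_mul, mul_vecMulVec, vecMulVec_mul, star_mulVec]

/-- The lift is equivariant. -/
theorem Lft.eqv {Γ : Subgroup (SUGroup m)} {ρ : Γ →* Mat (n + 1)} (hU : UJ ρ)
    {F : Vec m → Mat (n + 1)} (hFe : Equi ρ F) {x : Vec m → Vec n} (hx : Lft F x) : Eqv ρ x := by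
  intro γ v hv
  have h1 : act (γ : SUGroup m) v ∈ Cone m := act_mem _ hv
  refine std_inj (hx.cone _ h1) ?_ ?_
  · change q (ρ γ *ᵥ x v) < 0
    rw [q_uj (hU γ)]
    exact hx.cone v hv
  · rw [← hx.eq _ h1, hFe γ v hv, hx.eq v hv, std_uj (hU γ)]

end Pool.Agent.Lib.MP_5d4057_al.RG
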