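import Pool.Agent.Lib.MP_5d4057_al.RG.Defs
import Pool.Agent.Lib.MP_5d4057_al.RC.Max

/-!
# RG 4: a point where no direction is degenerate

`u v = (tr F v).re` is homogeneous, continuous and proper: `F (γ k e) = ρ γ F (k e) ρ γᴴ`, so
`‖ρ γ‖² ≤ C u (γ k e)` with `k` in a compact set, hence `u ≤ M` bounds `‖ρ γ‖`, `γ` is in a finite set
(`Prp`) and `v` in a compact set modulo scalars. On the slice `v_last = 1` (the ball) let
`φ v = u v - (1 + q v / |v_last|²)` (`1 + q v/|v_last|² = |z|²`, bounded): it attains its minimum at some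
`v₀`. For `ξ` with `ξ_last = 0` the function `s ↦ φ (v₀ + s ξ)` has a minimum at `0`, so
`0 ≤ D²u(ξ,ξ) + D²u(iξ,iξ) - 4 |ξ|²/|v_last|²`, and `D²u(ξ,ξ) + D²u(iξ,iξ) = 4 tr (pz (pb F · ξ) ξ) =
2 tr (pb F F⁻¹ pz F + pz F F⁻¹ pb F)` (`Harm.ph`) is `0` if `pz F ξ = 0`. So
`pz F v₀ ξ ≠ 0` for `ξ ≠ 0`, `ξ_last = 0`; in general subtract `(ξ_last/v_last) v₀` (`pz F v₀ v₀ = 0`, homogeneity).
-/

set_option autoImplicit false

namespace Pool.Agent.Lib.MP_5d4057_al.RG

open Matrix Filter Topology Pool.Agent.Lib.MP_5d4057_al Pool.Agent.Lib.MP_5d4057_al.Hyb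
  Pool.Agent.Lib.MP_5d4057_al.HM Pool.Agent.Lib.MP_5d4057_al.RC

open scoped ComplexOrder MatrixOrder Matrix.Norms.L2Operator

variable {m n : ℕ}

private theorem rk_algMap {k : ℕ} (r : ℝ) : algebraMap ℝ (Mat k) r = (r : ℂ) • (1 : Mat k) := by
  rw [Algebra.algebraMap_eq_smul_one]
  rfl

private theorem rk_norm_sq_le {k : ℕ} {H A : Mat k} (hH : H.PosDef) {C : ℝ} (hC : 0 < C)
    (h : ‖H⁻¹‖ ≤ C) : ‖A‖ ^ 2 ≤ C * (A * H * Aᴴ).trace.re := by
  have h1 : H⁻¹ ≤ (C : ℂ) • (1 : Mat k) := by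
    have h2 := (CStarAlgebra.norm_le_iff_le_algebraMap H⁻¹ hC.le hH.inv.posSemidef.nonneg).1 h
    rwa [rk_algMap] at h2
  have h2 : ((C : ℂ) • (1 : Mat k))⁻¹ ≤ H := by
    have h3 := inv_le_inv_of_le hH.inv h1
    rwa [nonsing_inv_nonsing_inv H ((isUnit_iff_isUnit_det H).1 hH.isUnit)] at h3
  have hC0 : (C : ℂ) ≠ 0 := by exact_mod_cast hC.ne'
  have h3 : ((C : ℂ) • (1 : Mat k))⁻¹ = ((C⁻¹ : ℝ) : ℂ) • (1 : Mat k) := by
    refine inv_eq_right_inv ?_
    rw [smul_mul_smul_comm, Matrix.one_mul, Complex.ofReal_inv, mul_inv_cancel₀ hC0, one_smul]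
  rw [h3] at h2
  have h4 := le_trace_mul (posSemidef_conjTranspose_mul_self A) h2
  have h5 : (H * (Aᴴ * A)).trace = (A * H * Aᴴ).trace := by
    rw [← Matrix.mul_assoc, Matrix.trace_mul_comm, ← Matrix.mul_assoc]
  rw [h5] at h4
  have h6 := norm_le_trace (posSemidef_conjTranspose_mul_self A)
  have h7 : ‖Aᴴ * A‖ = ‖A‖ * ‖A‖ := CStarRing.norm_star_mul_self
  rw [h7] at h6
  rw [inv_mul_le_iff₀ hC] at h4
  nlinarith

/-- Sublevel sets of the trace are compact. -/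
private theorem rk_compact {Γ : Subgroup (SUGroup m)} (hΓ : Coc Γ) {ρ : Γ →* Mat (n + 1)}
    (hP : Prp ρ) {F : Vec m → Mat (n + 1)} (hF : Harm F) (hFe : Equi ρ F) (M : ℝ) :
    ∃ K : Set (SUGroup m), IsCompact K ∧
      ∀ g : SUGroup m, (F (act g (base m))).trace.re ≤ M → g ∈ K := by
  obtain ⟨K₀, hK₀, hK⟩ := hΓ.cpt
  have hci : Continuous fun g : SUGroup m => (F (act g (base m)))⁻¹ :=
    hF.inv.cd.continuousOn.comp_continuous continuous_orbit orbit_mem
  obtain ⟨C, hC⟩ := hK₀.exists_bound_of_continuousOn hci.continuousOn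
  set C' := |C| + 1 with hC'
  have hC'0 : 0 < C' := by positivity
  have hfin := hP (C' * M + 1)
  refine ⟨⋃ γ ∈ {γ : Γ | ‖ρ γ‖ ≤ C' * M + 1}, (fun x : SUGroup m => (γ : SUGroup m) * x) '' K₀,
    hfin.isCompact_biUnion fun γ _ => hK₀.image (continuous_const.mul continuous_id), ?_⟩
  intro g hg
  obtain ⟨γ, hγ, hγg⟩ := hK g
  set δ : Γ := ⟨γ⁻¹, Γ.inv_mem hγ⟩ with hδ
  have h1 := hFe δ _ (orbit_mem (γ * g))
  have h2 : act (δ : SUGroup m) (act (γ * g) (base m)) = act g (base m) := by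
    rw [← act_mul, hδ]
    show act (γ⁻¹ * (γ * g)) (base m) = _
    rw [inv_mul_cancel_left]
  rw [h2] at h1
  have h3 : ‖ρ δ‖ ^ 2 ≤ C' * (F (act g (base m))).trace.re := by
    rw [h1]
    refine rk_norm_sq_le (hF.pos _ (orbit_mem _)) hC'0 ((hC _ hγg).trans ?_)
    rw [hC']
    linarith [le_abs_self C]
  have h4 : C' * (F (act g (base m))).trace.re ≤ C' * M := mul_le_mul_of_nonneg_left hg hC'0.le
  have h5 : ‖ρ δ‖ ≤ C' * M + 1 := by nlinarith [sq_nonneg (‖ρ δ‖ - 1), norm_nonneg (ρ δ)]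
  refine Set.mem_biUnion (x := δ) h5 ⟨γ * g, hγg, ?_⟩
  show γ⁻¹ * (γ * g) = g
  rw [inv_mul_cancel_left]

/-- The second derivative of `T ∘ F`. -/
private theorem rk_clm {E E' : Type} [NormedAddCommGroup E] [NormedSpace ℝ E]
    [NormedAddCommGroup E'] [NormedSpace ℝ E'] (T : E →L[ℝ] E') {F : Vec m → E} {v : Vec m}
    (h : ContDiffAt ℝ 2 F v) (a b : Vec m) :
    fderiv ℝ (fderiv ℝ fun w => T (F w)) v a b = T (fderiv ℝ (fderiv ℝ F) v a b) := by
  have hD : DifferentiableAt ℝ (fderiv ℝ F) v :=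
    (h.fderiv_right (m := 1) (by norm_num)).differentiableAt (by norm_num)
  have h1 : HasFDerivAt (fun w => (ContinuousLinearMap.compL ℝ (Vec m) E E' T) (fderiv ℝ F w))
      ((ContinuousLinearMap.compL ℝ (Vec m) E E' T).comp (fderiv ℝ (fderiv ℝ F) v)) v :=
    (ContinuousLinearMap.compL ℝ (Vec m) E E' T).hasFDerivAt.comp v hD.hasFDerivAt
  have h2 : fderiv ℝ (fun w => T (F w)) =ᶠ[𝓝 v] fun w =>
      (ContinuousLinearMap.compL ℝ (Vec m) E E' T) (fderiv ℝ F w) := by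
    filter_upwards [h.eventually (by simp)] with w hw
    exact (T.hasFDerivAt.comp w (hw.differentiableAt (by norm_num)).hasFDerivAt).fderiv
  rw [h2.fderiv_eq, h1.fderiv]
  rfl

private theorem rk_mixed {E : Type} [NormedAddCommGroup E] [NormedSpace ℂ E] {F : Vec m → E}
    {v : Vec m} (h : ContDiffAt ℝ 2 F v) (ξ : Vec m) :
    (4 : ℂ) • pz (fun w => pb F w ξ) v ξ = fderiv ℝ (fderiv ℝ F) v ξ ξ +
      fderiv ℝ (fderiv ℝ F) v (Complex.I • ξ) (Complex.I • ξ) := by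
  have hs : ∀ a b : Vec m, fderiv ℝ (fderiv ℝ F) v a b = fderiv ℝ (fderiv ℝ F) v b a :=
    fun a b => (h.isSymmSndFDerivAt (by simp)).eq a b
  have e1 : ∀ a : Vec m, fderiv ℝ (fun w => pb F w ξ) v a = (1 / 2 : ℂ) •
      (fderiv ℝ (fderiv ℝ F) v a ξ + Complex.I • fderiv ℝ (fderiv ℝ F) v a (Complex.I • ξ)) := by
    intro a
    rw [(hasFDerivAt_pb h ξ).fderiv]
    rfl
  rw [pz, e1, e1, hs (Complex.I • ξ) ξ]
  generalize fderiv ℝ (fderiv ℝ F) v ξ ξ = x
  generalize fderiv ℝ (fderiv ℝ F) v ξ (Complex.I • ξ) = y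
  generalize fderiv ℝ (fderiv ℝ F) v (Complex.I • ξ) (Complex.I • ξ) = z
  have hI : Complex.I • (1 / 2 : ℂ) • (y + Complex.I • z) =
      (1 / 2 : ℂ) • (Complex.I • y - z) := by
    rw [smul_comm, smul_add, II_smul, sub_eq_add_neg]
  rw [hI]
  module

/-- The second derivative test on a line. -/
private theorem rk_line {U : Vec m → ℝ} {v ξ : Vec m} (hU : ContDiffAt ℝ 2 U v) {A B C : ℝ}
    (hm : IsLocalMax (fun t : ℝ => (A + 2 * t * B + t ^ 2 * C) - U (v + t • ξ)) 0) :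
    2 * C ≤ fderiv ℝ (fderiv ℝ U) v ξ ξ := by
  have hl : ContDiff ℝ 2 fun t : ℝ => v + t • ξ := by fun_prop
  have hU0 : ContDiffAt ℝ 2 U (v + (0 : ℝ) • ξ) := by
    rw [zero_smul, add_zero]
    exact hU
  have hG : ContDiffAt ℝ 2 (fun t : ℝ => U (v + t • ξ)) 0 := hU0.comp (0 : ℝ) hl.contDiffAt
  have hQ : ContDiffAt ℝ 2 (fun t : ℝ => A + 2 * t * B + t ^ 2 * C) 0 := by fun_prop
  have h1 := deriv_two_nonpos hm (hQ.sub hG).continuousAt
  have h2 : deriv (deriv fun t : ℝ => (A + 2 * t * B + t ^ 2 * C) - U (v + t • ξ)) 0 =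
      iteratedDeriv 2 (fun t : ℝ => (A + 2 * t * B + t ^ 2 * C) - U (v + t • ξ)) 0 := by
    rw [iteratedDeriv_succ, iteratedDeriv_one]
  have h3 : iteratedDeriv 2 (fun t : ℝ => A + 2 * t * B + t ^ 2 * C) 0 = 2 * C := by
    rw [iteratedDeriv_succ, iteratedDeriv_one]
    have h4 : (deriv fun t : ℝ => A + 2 * t * B + t ^ 2 * C) = fun t : ℝ => 2 * B + 2 * t * C := by
      funext t
      have h5 : HasDerivAt (fun t : ℝ => A + 2 * t * B + t ^ 2 * C)
          (0 + 2 * 1 * B + (2 * t ^ (2 - 1) * 1) * C) t :=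
        ((hasDerivAt_const t A).add (((hasDerivAt_id t).const_mul 2).mul_const B)).add
          (((hasDerivAt_id t).pow 2).mul_const C)
      rw [h5.deriv]
      ring
    rw [h4]
    have h5 : HasDerivAt (fun t : ℝ => 2 * B + 2 * t * C) (2 * 1 * C) 0 :=
      (((hasDerivAt_id (0 : ℝ)).const_mul 2).mul_const C).const_add (2 * B)
    rw [h5.deriv]
    ring
  have h4 : iteratedDeriv 2 (fun t : ℝ => U (v + t • ξ)) 0 = fderiv ℝ (fderiv ℝ U) v ξ ξ := by
    rw [iteratedDeriv_succ, iteratedDeriv_one, fderiv_fderiv_line hU]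
  rw [h2, iteratedDeriv_fun_sub hQ hG, h3, h4] at h1
  linarith

/-- The trace as a real linear function. -/
private noncomputable def rkT (k : ℕ) : Mat k →L[ℝ] ℝ :=
  Complex.reCLM.comp (LinearMap.toContinuousLinearMap
    ((Matrix.traceLinearMap (Fin k) ℂ ℂ).restrictScalars ℝ))

private theorem rkT_apply {k : ℕ} (A : Mat k) : rkT k A = A.trace.re := rfl

theorem exists_full {Γ : Subgroup (SUGroup m)} (hΓ : Coc Γ) {ρ : Γ →* Mat (n + 1)} (hU : UJ ρ)
    (hP : Prp ρ) {F : Vec m → Mat (n + 1)} (hF : Harm F) (hFe : Equi ρ F) :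
    ∃ v ∈ Cone m, ∀ ξ : Vec m, pz F v ξ = 0 → ∃ c : ℂ, ξ = c • v := by
  have hc : Continuous fun g : SUGroup m => F (act g (base m)) :=
    hF.cd.continuousOn.comp_continuous continuous_orbit orbit_mem
  have hcu : Continuous fun g : SUGroup m => (F (act g (base m))).trace.re :=
    (rkT (n + 1)).continuous.comp hc
  have hch : ∀ g : SUGroup m, ch g ≠ 0 := fun g => (lt_of_lt_of_le one_pos (one_le_ch g)).ne'
  set φ : SUGroup m → ℝ := fun g => (F (act g (base m))).trace.re - (1 - (ch g ^ 2)⁻¹) with hφ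
  have hcφ : Continuous φ := by
    refine hcu.sub (continuous_const.sub ((continuous_ch.pow 2).inv₀ fun g => ?_))
    exact pow_ne_zero 2 (hch g)
  -- the minimum
  obtain ⟨K, hK, hKs⟩ := rk_compact hΓ hP hF hFe (φ 1 + 1)
  have hsub : {g | φ g ≤ φ 1} ⊆ K := by
    intro g hg
    refine hKs g ?_
    have h1 : φ g ≤ φ 1 := hg
    have h2 : 0 ≤ (ch g ^ 2)⁻¹ := by positivity
    rw [hφ] at h1
    simp only at h1
    linarith
  have hcomp : IsCompact {g | φ g ≤ φ 1} :=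
    hK.of_isClosed_subset (isClosed_le hcφ continuous_const) hsub
  obtain ⟨g₀, hg₀, hmin⟩ := hcomp.exists_isMinOn ⟨1, le_refl (φ 1)⟩ hcφ.continuousOn
  have hmin' : ∀ g, φ g₀ ≤ φ g := by
    intro g
    by_cases h : φ g ≤ φ 1
    · exact hmin h
    · have h1 : φ g₀ ≤ φ 1 := hg₀
      linarith
  -- the homogeneous function
  have hΦ : ∀ (g : SUGroup m) (c : ℂ), c ≠ 0 →
      (F (c • act g (base m))).trace.re - (1 + q (c • act g (base m)) /
        ‖(c • act g (base m)) (Fin.last m)‖ ^ 2) = φ g := by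
    intro g c hc0
    have h1 : ‖(c • act g (base m)) (Fin.last m)‖ ^ 2 = ‖c‖ ^ 2 * ch g ^ 2 := by
      have h2 := W_orbit g
      rw [W, q_orbit, neg_neg, div_one] at h2
      rw [Pi.smul_apply, smul_eq_mul, norm_mul, mul_pow, h2]
    have h3 : ‖c‖ ^ 2 ≠ 0 := pow_ne_zero 2 (norm_ne_zero_iff.2 hc0)
    rw [hF.hom c hc0 _ (orbit_mem g), h1, q_smul, q_orbit, mul_div_mul_left _ _ h3, hφ]
    simp only
    rw [neg_div, one_div]
    ring
  set l : ℂ := act g₀ (base m) (Fin.last m) with hl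
  have hl0 : l ≠ 0 := by
    intro h
    have h2 := W_orbit g₀
    rw [W, q_orbit, neg_neg, div_one, ← hl, h, norm_zero] at h2
    have h3 := hch g₀
    have h4 : ch g₀ ^ 2 = 0 := by
      rw [← h2]
      norm_num
    exact h3 (pow_eq_zero_iff two_ne_zero |>.1 h4)
  set v₀ : Vec m := l⁻¹ • act g₀ (base m) with hv₀
  have hv₀c : v₀ ∈ Cone m := smul_mem_cone (inv_ne_zero hl0) (orbit_mem g₀)
  have hv₀l : v₀ (Fin.last m) = 1 := by
    rw [hv₀, Pi.smul_apply, smul_eq_mul, ← hl, inv_mul_cancel₀ hl0]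
  set U : Vec m → ℝ := fun w => rkT (n + 1) (F w) with hUd
  have hFc : ContDiffAt ℝ 2 F v₀ := hF.cda hv₀c
  have hUc : ContDiffAt ℝ 2 U v₀ := (rkT (n + 1)).contDiff.contDiffAt.comp v₀ hFc
  have key : ∀ ξ : Vec m, ξ (Fin.last m) = 0 → 2 * q ξ ≤ fderiv ℝ (fderiv ℝ U) v₀ ξ ξ := by
    intro ξ hξ
    refine rk_line (A := q v₀) (B := (herm v₀ ξ).re) hUc ?_
    have hcl : Continuous fun t : ℝ => v₀ + t • ξ := by fun_prop
    have h0 : Tendsto (fun t : ℝ => v₀ + t • ξ) (𝓝 0) (𝓝 v₀) := by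
      have := hcl.tendsto 0
      simpa using this
    have hval : ∀ t : ℝ, v₀ + t • ξ ∈ Cone m →
        φ g₀ ≤ U (v₀ + t • ξ) - (1 + q (v₀ + t • ξ)) := by
      intro t ht
      obtain ⟨g, c, hc0, hg⟩ := exists_act_eq ht
      have h1 := hΦ g c hc0
      have h2 : (v₀ + t • ξ) (Fin.last m) = 1 := by
        rw [Pi.add_apply, Pi.smul_apply, hv₀l, hξ, smul_zero, add_zero]
      rw [← hg, h2, norm_one, one_pow, div_one] at h1
      have h3 := hmin' g
      rw [← h1] at h3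
      exact h3
    have hval0 : U v₀ - (1 + q v₀) = φ g₀ := by
      have h1 := hΦ g₀ l⁻¹ (inv_ne_zero hl0)
      rw [← hv₀, hv₀l, norm_one, one_pow, div_one] at h1
      exact h1
    filter_upwards [h0.eventually (mem_nhds_cone hv₀c)] with t ht
    have h1 := hval t ht
    rw [← hval0, lk_q_line] at h1
    rw [zero_smul, add_zero]
    linarith
  refine ⟨v₀, hv₀c, fun ξ hξ => ⟨ξ (Fin.last m), ?_⟩⟩
  set η : Vec m := ξ + (-ξ (Fin.last m)) • v₀ with hη
  have hηl : η (Fin.last m) = 0 := by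
    rw [hη, Pi.add_apply, Pi.smul_apply, hv₀l, smul_eq_mul]
    ring
  have hpzv : pz F v₀ v₀ = 0 := by
    have h1 := homog_fderiv hF.hom hv₀c (hF.diff hv₀c) 1
    rw [one_smul] at h1
    rw [pz, h1, homog_fderiv hF.hom hv₀c (hF.diff hv₀c), smul_zero, sub_zero, smul_zero]
  have hpz : pz F v₀ η = 0 := by
    rw [hη, pz_add_dir, pz_smul_dir, hξ, hpzv, smul_zero, add_zero]
  have hη0 : η = 0 := by
    by_contra hne
    have hq : 0 < q η := by
      have h1 : q η = ∑ i : Fin m, ‖η i.castSucc‖ ^ 2 := by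
        rw [q_eq, hηl, norm_zero]
        ring
      rw [h1]
      by_contra h2
      have h3 : ∑ i : Fin m, ‖η i.castSucc‖ ^ 2 = 0 :=
        le_antisymm (not_lt.1 h2) (Finset.sum_nonneg fun i _ => by positivity)
      apply hne
      funext j
      refine Fin.lastCases hηl (fun i => ?_) j
      have h4 := (Finset.sum_eq_zero_iff_of_nonneg (fun _ _ => by positivity)).1 h3 i
        (Finset.mem_univ i)
      exact norm_eq_zero.1 (pow_eq_zero_iff two_ne_zero |>.1 h4)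
    have h1 := key η hηl
    have h2 := key (Complex.I • η) (by rw [Pi.smul_apply, hηl, smul_zero])
    have h3 : q (Complex.I • η) = q η := by
      rw [q_smul, Complex.norm_I]
      ring
    rw [h3] at h2
    have h4 : fderiv ℝ (fderiv ℝ F) v₀ η η +
        fderiv ℝ (fderiv ℝ F) v₀ (Complex.I • η) (Complex.I • η) = 0 := by
      rw [← rk_mixed hFc η]
      have h5 := hF.ph v₀ hv₀c η η
      have h6 : dz F v₀ η = 0 := hpz
      rw [h6] at h5
      have h7 : pz (fun w => pb F w η) v₀ η = 0 := by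
        refine Eq.trans h5 ?_
        simp
      rw [h7, smul_zero]
    have h5 : fderiv ℝ (fderiv ℝ U) v₀ η η +
        fderiv ℝ (fderiv ℝ U) v₀ (Complex.I • η) (Complex.I • η) = 0 := by
      rw [hUd, rk_clm _ hFc, rk_clm _ hFc, ← map_add, h4, map_zero]
    linarith
  have h1 : ξ = η + ξ (Fin.last m) • v₀ := by
    rw [hη]
    module
  rw [hη0, zero_add] at h1
  exact h1

end Pool.Agent.Lib.MP_5d4057_al.RG
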