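import Pool.Agent.Lib.MP_5d4057_al.RG.Refl
import Pool.Agent.Lib.MP_5d4057_al.RG.Lift
import Pool.Agent.Lib.MP_5d4057_al.RG.Rank
import Pool.Agent.Lib.MP_5d4057_al.RG.Cont
import Pool.Agent.Lib.MP_5d4057_al.RC.Liou
import Pool.Agent.Lib.MP_5d4057_al.RC.Lip
import Pool.Agent.Lib.MP_5d4057_al.HM.AppPlur
import Pool.Agent.Lib.MP_5d4057_al.NU.CuspC

/-!
# RG 7: the holomorphic equivariant map (cocompact groups)
-/

set_option autoImplicit false

namespace Pool.Agent.Lib.MP_5d4057_al.RG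

open Matrix Filter Topology Pool.Agent.Lib.MP_5d4057_al Pool.Agent.Lib.MP_5d4057_al.Hyb
  Pool.Agent.Lib.MP_5d4057_al.HM Pool.Agent.Lib.MP_5d4057_al.RC

open scoped ComplexOrder MatrixOrder Matrix.Norms.L2Operator

variable {m n : ℕ}

/-- From the harmonic metric to the holomorphic map. -/
theorem hmap_of_harm (hm : 2 ≤ m) {Γ : Subgroup (SUGroup m)} (hΓ : Rec Γ) {ρ : Γ →* Mat (n + 1)}
    (hU : UJ ρ) (hspan : Submodule.span ℂ (Set.range ρ) = ⊤) {F : Vec m → Mat (n + 1)}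
    (hF : HarmG F) (hFe : Equi ρ F)
    (hfull : ∀ F' : Vec m → Mat (n + 1), Harm F' → Equi ρ F' →
      ∃ v ∈ Cone m, ∀ ξ : Vec m, pz F' v ξ = 0 → ∃ c : ℂ, ξ = c • v) :
    ∃ f : Vec m → Vec n, HMap f ∧ (Eqv ρ f ∨ Eqv (rcj ρ) f) := by
  obtain ⟨F', h1, h2, h3⟩ := exists_refl (by omega) hΓ hU hspan hF hFe
  obtain ⟨x, hx⟩ := exists_lift h1.toHarm h3
  obtain ⟨v, hv, hv'⟩ := hfull F' h1.toHarm h2
  rcases hx.alt_near hm h1.toHarm hv hv' with h4 | h4
  · have h5 : ∀ᶠ w in 𝓝 v, ∀ ξ, db (xc x) w ξ = 0 := by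
      filter_upwards [h4, (isOpen_cone m).mem_nhds hv] with w hw hw'
      exact (hx.db_conj hw').2 hw
    exact ⟨xc x, hx.conj.hmap (hx.conj.db_zero (harm_cj h1.toHarm) hv h5),
      Or.inr (hx.conj.eqv (uj_rcj hU) (equi_cj h2))⟩
  · exact ⟨x, hx.hmap (hx.db_zero h1.toHarm hv h4), Or.inl (hx.eqv hU h2)⟩

/-! ### the metric with growth -/

private theorem ta_pow_le {N N₀ : ℕ} {C C₀ a t : ℝ} (hN : N ≤ N₀) (hC : C ≤ C₀) (hC₀ : 0 ≤ C₀)
    (ht : 1 ≤ t) (h : a ≤ C * t ^ (2 * N)) : a ≤ C₀ * t ^ (2 * N₀) := by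
  have h0 : (0 : ℝ) ≤ t ^ (2 * N) := pow_nonneg (zero_le_one.trans ht) _
  exact h.trans ((mul_le_mul_of_nonneg_right hC h0).trans
    (mul_le_mul_of_nonneg_left (pow_le_pow_right₀ ht (Nat.mul_le_mul_left 2 hN)) hC₀))

private theorem ta_adm_mono {E : Type} [NormedAddCommGroup E] [NormedSpace ℝ E] {N N₀ : ℕ}
    {C C₀ : ℝ} (hN : N ≤ N₀) (hC : C ≤ C₀) (hC₀ : 0 ≤ C₀) {f : Vec m → E} (h : Adm N C f) :
    Adm N₀ C₀ f :=
  ⟨h.meas, fun y => ta_pow_le hN hC hC₀ (one_le_ch y) (h.bound y)⟩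

private theorem ta_approx_mono {N N₀ : ℕ} {C C₀ : ℝ} (hN : N ≤ N₀) (hC : C ≤ C₀) (hC₀ : 0 ≤ C₀)
    {s : ℕ → ℕ} {M : ℕ → Vec m → Mat n} {F F' : Vec m → Mat n} (h : Approx N C s M F)
    (hae : ∀ᵐ g ∂(mu m), F' (act g (base m)) = F (act g (base m))) : Approx N₀ C₀ s M F' where
  tends := h.tends
  hom := h.hom
  cont := h.cont
  pos := h.pos
  bound := fun j g => ta_pow_le hN hC hC₀ (one_le_ch g) (h.bound j g)
  boundInv := fun j g => ta_pow_le hN hC hC₀ (one_le_ch g) (h.boundInv j g)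
  sub := h.sub
  lim := by
    filter_upwards [h.lim, hae] with g h1 h2
    rw [h2]
    exact h1

/-- The pluriharmonic metric of a cocompact group has polynomial growth (the proof of `exists_plur` gives the
regular metric). -/
theorem exists_harmG (hm : 1 ≤ m) (hn : 0 < n) {Γ : Subgroup (SUGroup m)} (hΓ : Coc Γ)
    (ρ : Γ →* Mat n) (hρ : Submodule.span ℂ (Set.range ρ) = ⊤) :
    ∃ F : Vec m → Mat n, HarmG F ∧ Equi ρ F := by
  obtain ⟨χ, hχ⟩ := exists_cut hΓ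
  obtain ⟨N, C, F, hF⟩ := exists_limit hm hn hΓ hχ ρ hρ
  obtain ⟨F', hM, hae, N', C', hadm, hadmi, hlip⟩ := exists_lip hm hΓ hχ hF
  obtain ⟨N₀, hN₀⟩ : ∃ N₀ : ℕ, N₀ = max N N' := ⟨_, rfl⟩
  obtain ⟨C₀, hC₀⟩ : ∃ C₀ : ℝ, C₀ = max 0 (max C C') := ⟨_, rfl⟩
  have hN1 : N ≤ N₀ := hN₀ ▸ le_max_left _ _
  have hN2 : N' ≤ N₀ := hN₀ ▸ le_max_right _ _
  have hC0 : 0 ≤ C₀ := hC₀ ▸ le_max_left _ _
  have hC1 : C ≤ C₀ := hC₀ ▸ (le_max_left _ _).trans (le_max_right _ _)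
  have hC2 : C' ≤ C₀ := hC₀ ▸ (le_max_right _ _).trans (le_max_right _ _)
  have hA : Adm N₀ C₀ F' := ta_adm_mono hN2 hC2 hC0 hadm
  have hAi : Adm N₀ C₀ (fun v => (F' v)⁻¹) := ta_adm_mono hN2 hC2 hC0 hadmi
  have hcone : ∀ g : SUGroup m, act g (base m) ∈ Cone m := fun g => orbit_mem g
  have hinv : ∀ v ∈ Cone m, ((F' v)⁻¹)⁻¹ = F' v := fun v hv =>
    Matrix.nonsing_inv_nonsing_inv _ ((Matrix.isUnit_iff_isUnit_det _).1 (hM.pos v hv).isUnit)
  have hAii : Adm N₀ C₀ (fun v => ((F' v)⁻¹)⁻¹) := by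
    refine ⟨?_, fun y => ?_⟩
    · have h : (fun y : SUGroup m => ((F' (act y (base m)))⁻¹)⁻¹) =
          fun y : SUGroup m => F' (act y (base m)) := by
        funext y
        exact hinv _ (hcone y)
      rw [h]
      exact hA.meas
    · rw [hinv _ (hcone y)]
      exact hA.bound y
  have hL : LipMet m n N₀ C₀ F' :=
    { hom := hM.hom
      cont := hM.cont
      pos := hM.pos
      adm := hA
      admInv := hAi
      lip := fun a g ha => by
        refine (hlip a g ha).trans ?_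
        have h0 : 0 ≤ ‖a.toMatrix - 1‖ := norm_nonneg _
        have h1 : (0 : ℝ) ≤ ch g ^ (2 * N') := pow_nonneg (zero_le_one.trans (one_le_ch g)) _
        exact mul_le_mul (mul_le_mul_of_nonneg_right hC2 h0)
          (pow_le_pow_right₀ (one_le_ch g) (Nat.mul_le_mul_left 2 hN2)) h1 (mul_nonneg hC0 h0)
      sub := fun Φ hΦ hΦ1 v hv => by
        obtain ⟨s, M, hs⟩ := hF.sub
        exact lap_ge_en hm (ta_approx_mono hN1 hC1 hC0 hs hae) hM.hom hA hAi hM.pos hΦ hΦ1 hv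
      sub' := fun Φ hΦ hΦ1 v hv => by
        obtain ⟨s, M, hs⟩ := hF.sub'
        have hae' : ∀ᵐ g ∂(mu m), (fun v => (F' v)⁻¹) (act g (base m)) =
            (fun v => (F v)⁻¹) (act g (base m)) := by
          filter_upwards [hae] with g h2
          simp only [h2]
        have h3 : Approx N₀ C₀ s M (fun v => (F' v)⁻¹) := ta_approx_mono hN1 hC1 hC0 hs hae'
        have h4 : Homog (fun v => (F' v)⁻¹) := by
          intro c hc w hw
          simp only [hM.hom c hc w hw]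
        have h5 : ∀ w ∈ Cone m, ((fun v => (F' v)⁻¹) w).PosDef := fun w hw => (hM.pos w hw).inv
        exact lap_ge_en (F := fun v => (F' v)⁻¹) hm h3 h4 hAi hAii h5 hΦ hΦ1 hv }
  obtain ⟨hcd, hh⟩ := reg_two hm hL
  obtain ⟨h1, h2⟩ := pluriharmonic hm hΓ hM hcd hh
  have hP : Plur ρ F' := ⟨hM, hcd, hh, h1, h2⟩
  exact ⟨F', harmG_of_lip hP.toHarm hL, hM.equi⟩

/-- Existence for cocompact groups. (Existence of the metric: `HM.Thm` / `thmH`; growth from compactness as in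
`RC.harm_lat` or `harmG_of_lip`.) -/
theorem exists_hmap (hm : 2 ≤ m) {Γ : Subgroup (SUGroup m)} (hΓ : Coc Γ) {ρ : Γ →* Mat (n + 1)}
    (hU : UJ ρ) (hP : Prp ρ) (hspan : Submodule.span ℂ (Set.range ρ) = ⊤) :
    ∃ f : Vec m → Vec n, HMap f ∧ (Eqv ρ f ∨ Eqv (rcj ρ) f) := by
  obtain ⟨F, hF, hFe⟩ := exists_harmG (by omega) (Nat.succ_pos n) hΓ ρ hspan
  exact hmap_of_harm hm (rec_of_coc hΓ) hU hspan hF hFe
    fun F' h1 h2 => exists_full hΓ hU hP h1 h2

/-! ### elements of `U(n,1)` -/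

/-- Elements of `U(n,1)` preserve the form. -/
theorem uj_herm {A : Mat (n + 1)} (hA : Aᴴ * J n * A = J n) (v w : Vec n) :
    herm (A *ᵥ v) (A *ᵥ w) = herm v w := by
  rw [herm, herm, star_mulVec, mulVec_mulVec, ← dotProduct_mulVec, mulVec_mulVec,
    ← Matrix.mul_assoc, hA]

theorem uj_q {A : Mat (n + 1)} (hA : Aᴴ * J n * A = J n) (v : Vec n) : q (A *ᵥ v) = q v := by
  rw [q, q, uj_herm hA]

private theorem ta_J_sq : J n * J n = 1 := by
  rw [J, diagonal_mul_diagonal, ← diagonal_one]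
  congr 1
  funext i
  split_ifs <;> norm_num

/-- The adjoint is in `U(n,1)`. -/
theorem uj_adj {A : Mat (n + 1)} (hA : Aᴴ * J n * A = J n) : (Aᴴ)ᴴ * J n * Aᴴ = J n := by
  have h1 : (J n * Aᴴ * J n) * A = 1 := by
    rw [Matrix.mul_assoc, Matrix.mul_assoc, ← Matrix.mul_assoc Aᴴ, hA, ta_J_sq]
  have h2 : A * (J n * Aᴴ * J n) = 1 := mul_eq_one_comm.1 h1
  rw [conjTranspose_conjTranspose]
  calc A * J n * Aᴴ = A * (J n * Aᴴ * J n) * J n := by
        rw [Matrix.mul_assoc, Matrix.mul_assoc, Matrix.mul_assoc, Matrix.mul_assoc, ta_J_sq,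
          Matrix.mul_one]
    _ = J n := by rw [h2, Matrix.one_mul]

private theorem ta_q_single (j : Fin (n + 1)) : q (Pi.single j 1 : Vec n) ≤ 1 ∧
    (j = Fin.last n → q (Pi.single j 1 : Vec n) = -1) := by
  refine ⟨?_, fun h => ?_⟩
  · rw [q_eq]
    refine Fin.lastCases ?_ (fun i => ?_) j
    · have h1 : ∑ i : Fin n, ‖(Pi.single (Fin.last n) 1 : Vec n) i.castSucc‖ ^ 2 = 0 := by
        refine Finset.sum_eq_zero fun i _ => ?_
        rw [Pi.single_eq_of_ne (Fin.castSucc_lt_last i).ne]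
        simp
      rw [h1, Pi.single_eq_same]
      norm_num
    · have h1 : ∑ l : Fin n, ‖(Pi.single i.castSucc 1 : Vec n) l.castSucc‖ ^ 2 = 1 := by
        rw [Finset.sum_eq_single i]
        · rw [Pi.single_eq_same]
          norm_num
        · intro l _ hl
          rw [Pi.single_eq_of_ne (fun h => hl (Fin.castSucc_injective n h))]
          simp
        · intro h
          exact absurd (Finset.mem_univ _) h
      rw [h1]
      have h2 : 0 ≤ ‖(Pi.single i.castSucc 1 : Vec n) (Fin.last n)‖ ^ 2 := by positivity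
      linarith
  · rw [h]
    exact q_base n

/-- The entries of a column are bounded by the entry in the last row. -/
private theorem ta_col {A : Mat (n + 1)} (hA : Aᴴ * J n * A = J n) (i j : Fin (n + 1)) :
    ‖A i j‖ ^ 2 ≤ 1 + ‖A (Fin.last n) j‖ ^ 2 := by
  have h1 := uj_q hA (Pi.single j 1)
  have h2 : ∀ l, (A *ᵥ (Pi.single j 1 : Vec n)) l = A l j := by
    intro l
    rw [mulVec_single_one]
    rfl
  rw [q_eq] at h1
  simp only [h2] at h1
  have h3 := (ta_q_single (n := n) j).1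
  rw [← h1] at h3
  refine Fin.lastCases ?_ (fun l => ?_) i
  · linarith
  · have h4 : ‖A l.castSucc j‖ ^ 2 ≤ ∑ l : Fin n, ‖A l.castSucc j‖ ^ 2 :=
      Finset.single_le_sum (f := fun l : Fin n => ‖A l.castSucc j‖ ^ 2)
        (fun _ _ => sq_nonneg _) (Finset.mem_univ l)
    linarith

/-- The last row. -/
private theorem ta_row {A : Mat (n + 1)} (hA : Aᴴ * J n * A = J n) (j : Fin (n + 1)) :
    ‖A (Fin.last n) j‖ ^ 2 ≤ ‖A (Fin.last n) (Fin.last n)‖ ^ 2 := by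
  have h1 := uj_q (uj_adj hA) (Pi.single (Fin.last n) 1)
  have h2 : ∀ l, ‖(Aᴴ *ᵥ (Pi.single (Fin.last n) 1 : Vec n)) l‖ = ‖A (Fin.last n) l‖ := by
    intro l
    rw [mulVec_single_one]
    show ‖star (A (Fin.last n) l)‖ = _
    rw [norm_star]
  rw [(ta_q_single (n := n) (Fin.last n)).2 rfl, q_eq] at h1
  simp only [h2] at h1
  refine Fin.lastCases ?_ (fun l => ?_) j
  · exact le_refl _
  · have h4 : ‖A (Fin.last n) l.castSucc‖ ^ 2 ≤ ∑ l : Fin n, ‖A (Fin.last n) l.castSucc‖ ^ 2 :=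
      Finset.single_le_sum (f := fun l : Fin n => ‖A (Fin.last n) l.castSucc‖ ^ 2)
        (fun _ _ => sq_nonneg _) (Finset.mem_univ l)
    linarith

private theorem ta_fro {k : ℕ} {A : Mat k} {c : ℝ} (hc : 0 ≤ c) (h : ∀ i j, ‖A i j‖ ≤ c) :
    ‖A‖ ≤ k * c := by
  refine (NU.norm_le_fro A).trans ?_
  rw [NU.fro]
  refine Real.sqrt_le_iff.2 ⟨by positivity, ?_⟩
  calc ∑ i, ∑ j, ‖A i j‖ ^ 2 ≤ ∑ _i : Fin k, ∑ _j : Fin k, c ^ 2 :=
        Finset.sum_le_sum fun i _ => Finset.sum_le_sum fun j _ =>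
          pow_le_pow_left₀ (norm_nonneg _) (h i j) 2
    _ = (k * c) ^ 2 := by
        simp only [Finset.sum_const, Finset.card_univ, Fintype.card_fin, nsmul_eq_mul]
        ring

/-- The norm of an element of `U(n,1)` is bounded by its last entry. -/
theorem uj_norm {A : Mat (n + 1)} (hA : Aᴴ * J n * A = J n) :
    ‖A‖ ≤ (n + 1) * (1 + ‖A (Fin.last n) (Fin.last n)‖) := by
  have h1 : ∀ i j, ‖A i j‖ ≤ 1 + ‖A (Fin.last n) (Fin.last n)‖ := by
    intro i j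
    have h2 := ta_col hA i j
    have h3 := ta_row hA j
    have h4 : 0 ≤ ‖A (Fin.last n) (Fin.last n)‖ := norm_nonneg _
    refine abs_le_of_sq_le_sq' ?_ (by positivity) |>.2
    nlinarith
  have h2 := ta_fro (by positivity) h1
  push_cast at h2
  exact h2

/-! ### the distance -/

private theorem ta_cc_smul_left {c : ℂ} (hc : c ≠ 0) (v w : Vec n) : cc (c • v) w = cc v w := by
  have h : (‖c‖ ^ 2 : ℝ) ≠ 0 := pow_ne_zero 2 (norm_ne_zero_iff.2 hc)
  rw [cc, cc, herm_smul_left, q_smul, norm_mul, norm_star, mul_pow, mul_assoc,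
    mul_div_mul_left _ _ h]

private theorem ta_cc_smul_right {c : ℂ} (hc : c ≠ 0) (v w : Vec n) : cc v (c • w) = cc v w := by
  have h : (‖c‖ ^ 2 : ℝ) ≠ 0 := pow_ne_zero 2 (norm_ne_zero_iff.2 hc)
  rw [cc, cc, herm_smul_right, q_smul, norm_mul, mul_pow, mul_left_comm,
    mul_div_mul_left _ _ h]

theorem cc_uj {A : Mat (n + 1)} (hA : Aᴴ * J n * A = J n) (v w : Vec n) :
    cc (A *ᵥ v) (A *ᵥ w) = cc v w := by
  rw [cc, cc, uj_herm hA, uj_q hA, uj_q hA]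

/-- Invariance of the pulled back distance. -/
theorem Eqv.cc {Γ : Subgroup (SUGroup m)} {ρ : Γ →* Mat (n + 1)} (hU : UJ ρ)
    {f : Vec m → Vec n} (he : Eqv ρ f) (γ : Γ) {v w : Vec m} (hv : v ∈ Cone m) (hw : w ∈ Cone m) :
    cc (f (act (γ : SUGroup m) v)) (f (act (γ : SUGroup m) w)) = cc (f v) (f w) := by
  obtain ⟨c, hc, h1⟩ := he γ v hv
  obtain ⟨d, hd, h2⟩ := he γ w hw
  rw [h1, h2, ta_cc_smul_left hc, ta_cc_smul_right hd, cc_uj (hU γ)]

private theorem ta_cc_orbit (g h : SUGroup m) :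
    RG.cc (act g (base m)) (act h (base m)) = ch (g⁻¹ * h) ^ 2 := by
  rw [RG.cc, norm_herm_orbit, q_orbit, q_orbit]
  norm_num

/-- The last entry of `A h` is bounded if `A h e` is near `g e`. -/
private theorem ta_entry {A : Mat (n + 1)} (hA : Aᴴ * J n * A = J n) (g h : SUGroup n)
    (hcc : RG.cc (act g (base n)) (A *ᵥ act h (base n)) ≤ 1) :
    ‖(A * h.toMatrix) (Fin.last n) (Fin.last n)‖ ≤ (n + 1) * (2 * ch g) := by
  obtain ⟨z, hz⟩ : ∃ z, z = A *ᵥ act h (base n) := ⟨_, rfl⟩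
  have hqz : q z = -1 := by rw [hz, uj_q hA, q_orbit]
  have hlast : (A * h.toMatrix) (Fin.last n) (Fin.last n) = z (Fin.last n) := by
    rw [hz, act, mulVec_mulVec, base, mulVec_single_one]
    rfl
  rw [← hz] at hcc
  obtain ⟨y, hy⟩ : ∃ y, y = act g⁻¹ z := ⟨_, rfl⟩
  have hzy : z = act g y := by rw [hy, ← act_mul, mul_inv_cancel, act_one]
  have hqy : q y = -1 := by rw [hy, q_act, hqz]
  have hh : ‖herm (act g (base n)) z‖ ≤ 1 := by
    rw [RG.cc, q_orbit, hqz] at hcc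
    have h1 : ‖herm (act g (base n)) z‖ ^ 2 ≤ 1 := by
      have h2 : ‖herm (act g (base n)) z‖ ^ 2 / (-1 * -1) = ‖herm (act g (base n)) z‖ ^ 2 := by
        norm_num
      rwa [h2] at hcc
    have h3 := norm_nonneg (herm (act g (base n)) z)
    nlinarith
  have hyl : ‖y (Fin.last n)‖ ≤ 1 := by
    have h1 : herm (act g (base n)) z = herm (base n) y := by
      rw [hzy, herm_act]
    have h2 : herm (base n) y = -y (Fin.last n) := by
      rw [herm_eq, base, Pi.single_eq_same, Finset.sum_eq_zero]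
      · simp
      · intro i _
        rw [Pi.single_eq_of_ne (Fin.castSucc_lt_last i).ne]
        simp
    rw [h1, h2, norm_neg] at hh
    exact hh
  have hyi : ∀ i, ‖y i‖ ≤ 1 := by
    intro i
    refine Fin.lastCases hyl (fun l => ?_) i
    have h1 := hqy
    rw [q_eq] at h1
    have h4 : ‖y l.castSucc‖ ^ 2 ≤ ∑ l : Fin n, ‖y l.castSucc‖ ^ 2 :=
      Finset.single_le_sum (f := fun l : Fin n => ‖y l.castSucc‖ ^ 2)
        (fun _ _ => sq_nonneg _) (Finset.mem_univ l)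
    have h5 : ‖y (Fin.last n)‖ ^ 2 ≤ 1 := by
      have := norm_nonneg (y (Fin.last n))
      nlinarith
    have h6 := norm_nonneg (y l.castSucc)
    nlinarith
  rw [hlast, hzy, act, mulVec, dotProduct]
  calc ‖∑ i, g.toMatrix (Fin.last n) i * y i‖ ≤ ∑ i, ‖g.toMatrix (Fin.last n) i * y i‖ :=
        norm_sum_le _ _
    _ ≤ ∑ _i : Fin (n + 1), 2 * ch g := by
        refine Finset.sum_le_sum fun i _ => ?_
        rw [norm_mul]
        have h1 := HM.norm_entry_le g (Fin.last n) i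
        calc ‖g.toMatrix (Fin.last n) i‖ * ‖y i‖ ≤ (2 * ch g) * 1 :=
              mul_le_mul h1 (hyi i) (norm_nonneg _) (by have := one_le_ch g; positivity)
          _ = _ := mul_one _
    _ = _ := by
        simp only [Finset.sum_const, Finset.card_univ, Fintype.card_fin, nsmul_eq_mul]
        push_cast
        ring

/-- Bounded elements: if `A y` is near `x` then `‖A‖` is bounded in terms of `x` and `y`. -/
private theorem ta_bound {A : Mat (n + 1)} (hA : Aᴴ * J n * A = J n) {x y : Vec n}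
    (hx : x ∈ Cone n) (hy : y ∈ Cone n) (hcc : RG.cc x (A *ᵥ y) ≤ 1) {M : ℝ} (hM : 1 ≤ M)
    (hWx : W x ≤ M ^ 2) (hWy : W y ≤ M ^ 2) :
    ‖A‖ ≤ (n + 1) * (1 + (n + 1) * (2 * M)) * (2 * (n + 1) * M) := by
  obtain ⟨g, c, hc, rfl⟩ := exists_act_eq hx
  obtain ⟨h, d, hd, rfl⟩ := exists_act_eq hy
  have hg : ch g ≤ M := by
    have h1 : W (c • act g (base n)) = ch g ^ 2 := by rw [← W_orbit]; exact Lv.W_smul hc _
    rw [h1] at hWx
    have := one_le_ch g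
    nlinarith
  have hh : ch h ≤ M := by
    have h1 : W (d • act h (base n)) = ch h ^ 2 := by rw [← W_orbit]; exact Lv.W_smul hd _
    rw [h1] at hWy
    have := one_le_ch h
    nlinarith
  rw [mulVec_smul, ta_cc_smul_left hc, ta_cc_smul_right hd] at hcc
  have h1 := ta_entry hA g h hcc
  have hB : (A * h.toMatrix)ᴴ * J n * (A * h.toMatrix) = J n := by
    have h2 : h.toMatrixᴴ * J n * h.toMatrix = J n := pres h
    calc (A * h.toMatrix)ᴴ * J n * (A * h.toMatrix)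
        = h.toMatrixᴴ * (Aᴴ * J n * A) * h.toMatrix := by
          rw [conjTranspose_mul]
          simp only [Matrix.mul_assoc]
      _ = J n := by rw [hA, h2]
  have h2 := uj_norm hB
  have h3 : A = A * h.toMatrix * (h⁻¹).toMatrix := by
    rw [Matrix.mul_assoc, toMatrix_mul_inv, Matrix.mul_one]
  have h4 : ‖(h⁻¹).toMatrix‖ ≤ 2 * (n + 1) * M := by
    refine (lp_norm_le h⁻¹).trans ?_
    rw [ch_inv]
    exact mul_le_mul_of_nonneg_left hh (by positivity)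
  have h5 : ‖A * h.toMatrix‖ ≤ (n + 1) * (1 + (n + 1) * (2 * M)) := by
    refine h2.trans ?_
    refine mul_le_mul_of_nonneg_left ?_ (by positivity)
    refine add_le_add le_rfl (h1.trans ?_)
    refine mul_le_mul_of_nonneg_left ?_ (by positivity)
    linarith
  calc ‖A‖ = ‖A * h.toMatrix * (h⁻¹).toMatrix‖ := by rw [← h3]
    _ ≤ ‖A * h.toMatrix‖ * ‖(h⁻¹).toMatrix‖ := norm_mul_le _ _
    _ ≤ _ := mul_le_mul h5 h4 (norm_nonneg _) (by positivity)

/-- Points far apart have different images: `cc (f v) (f w) ≤ 1` means `f v`, `f w` proportional; move `v` into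
a compact set `K`, `w = γ k e`: `ρ γ` maps a compact set of points to meet a compact set, so `‖ρ γ‖` is
bounded, `γ` in a finite set, `w` in a compact set modulo scalars. -/
theorem far {Γ : Subgroup (SUGroup m)} (hΓ : Coc Γ) {ρ : Γ →* Mat (n + 1)}
    (hU : UJ ρ) (hP : Prp ρ) {f : Vec m → Vec n} (hf : HMap f) (he : Eqv ρ f) :
    ∃ T : ℝ, ∀ v ∈ Cone m, ∀ w ∈ Cone m, T ≤ cc v w → 1 < cc (f v) (f w) := by
  obtain ⟨K, hK, hcov⟩ := hΓ.cpt
  -- a bound for the images of the compact set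
  have hfc : ContinuousOn f (Cone m) := hf.diff.continuousOn
  have hcont : Continuous fun g : SUGroup m => W (f (act g (base m))) := by
    have h1 : ContinuousOn (fun v => W (f v)) (Cone m) :=
      Lv.continuousOn_W.comp hfc hf.maps
    exact h1.comp_continuous continuous_orbit orbit_mem
  obtain ⟨B, hB⟩ := (hK.image hcont).bddAbove
  obtain ⟨M, hM1, hM2⟩ : ∃ M : ℝ, 1 ≤ M ∧ B ≤ M ^ 2 := by
    refine ⟨1 + |B|, by linarith [abs_nonneg B], ?_⟩
    nlinarith [abs_nonneg B, le_abs_self B]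
  have hW : ∀ k ∈ K, W (f (act k (base m))) ≤ M ^ 2 := fun k hk =>
    (hB ⟨k, hk, rfl⟩).trans hM2
  obtain ⟨D, hD⟩ : ∃ D : ℝ, D = (n + 1) * (1 + (n + 1) * (2 * M)) * (2 * (n + 1) * M) := ⟨_, rfl⟩
  have hfin := hP D
  -- the bound for the distance
  have hcomp : IsCompact (⋃ δ ∈ {γ : Γ | ‖ρ γ‖ ≤ D},
      (fun p : SUGroup m × SUGroup m => ch (p.1⁻¹ * (δ : SUGroup m) * p.2) ^ 2) '' (K ×ˢ K)) := by
    refine hfin.isCompact_biUnion fun δ _ => (hK.prod hK).image ?_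
    exact (continuous_ch.comp ((continuous_fst.inv.mul continuous_const).mul
      continuous_snd)).pow 2
  obtain ⟨T, hT⟩ := hcomp.bddAbove
  refine ⟨T + 1, fun v hv w hw hvw => ?_⟩
  by_contra hcon
  rw [not_lt] at hcon
  obtain ⟨g, c, hc, rfl⟩ := exists_act_eq hv
  obtain ⟨h, d, hd, rfl⟩ := exists_act_eq hw
  obtain ⟨γ₁, hγ₁, hk⟩ := hcov g
  obtain ⟨γ₂, hγ₂, hl⟩ := hcov (γ₁ * h)
  obtain ⟨k, hkdef⟩ : ∃ k, k = γ₁ * g := ⟨_, rfl⟩
  obtain ⟨l, hldef⟩ : ∃ l, l = γ₂ * (γ₁ * h) := ⟨_, rfl⟩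
  rw [← hkdef] at hk
  rw [← hldef] at hl
  have hg : act g (base m) ∈ Cone m := orbit_mem g
  have hh : act h (base m) ∈ Cone m := orbit_mem h
  rw [hf.hom c hc _ hg, hf.hom d hd _ hh, ta_cc_smul_left hc, ta_cc_smul_right hd] at hcon
  rw [ta_cc_smul_left hc, ta_cc_smul_right hd] at hvw
  rw [← he.cc hU ⟨γ₁, hγ₁⟩ hg hh] at hcon
  have e1 : act γ₁ (act g (base m)) = act k (base m) := by rw [hkdef, act_mul]
  have e2 : act γ₁ (act h (base m)) = act γ₂⁻¹ (act l (base m)) := by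
    rw [← act_mul, ← act_mul, hldef]
    congr 1
    group
  have e3 : (((⟨γ₁, hγ₁⟩ : Γ) : SUGroup m)) = γ₁ := rfl
  rw [e3, e1, e2] at hcon
  have hγ₂' : γ₂⁻¹ ∈ Γ := Γ.inv_mem hγ₂
  obtain ⟨s, hs, h3⟩ := he ⟨γ₂⁻¹, hγ₂'⟩ (act l (base m)) (orbit_mem l)
  have e4 : (((⟨γ₂⁻¹, hγ₂'⟩ : Γ) : SUGroup m)) = γ₂⁻¹ := rfl
  rw [e4] at h3
  rw [h3, ta_cc_smul_right hs] at hcon
  have h4 := ta_bound (hU ⟨γ₂⁻¹, hγ₂'⟩) (hf.maps _ (orbit_mem k)) (hf.maps _ (orbit_mem l)) hcon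
    hM1 (hW k hk) (hW l hl)
  rw [← hD] at h4
  -- the distance
  have e5 : cc (act g (base m)) (act h (base m)) = ch (k⁻¹ * γ₂⁻¹ * l) ^ 2 := by
    rw [ta_cc_orbit, hkdef, hldef]
    congr 2
    group
  have h5 : ch (k⁻¹ * γ₂⁻¹ * l) ^ 2 ≤ T := by
    refine hT ?_
    refine Set.mem_biUnion (x := (⟨γ₂⁻¹, hγ₂'⟩ : Γ)) h4 ⟨(k, l), ⟨hk, hl⟩, rfl⟩
  rw [e5] at hvw
  linarith

theorem prp_rcj {Γ : Subgroup (SUGroup m)} {ρ : Γ →* Mat (n + 1)} (h : Prp ρ) : Prp (rcj ρ) := by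
  intro C
  refine (h ((n + 1) * |C|)).subset fun γ hγ => ?_
  have hγ' : ‖(ρ γ).map cj‖ ≤ C := hγ
  have h1 : ∀ i j, ‖ρ γ i j‖ ≤ |C| := by
    intro i j
    have h2 := Lv.norm_entry_le_norm ((ρ γ).map cj) i j
    have h3 : ‖((ρ γ).map cj) i j‖ = ‖ρ γ i j‖ := by
      rw [map_apply, cj_apply]
      exact RCLike.norm_conj _
    rw [h3] at h2
    exact (h2.trans hγ').trans (le_abs_self C)
  have h2 := ta_fro (abs_nonneg C) h1
  push_cast at h2
  exact h2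

end Pool.Agent.Lib.MP_5d4057_al.RG
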