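import Pool.Agent.Lib.MP_5d4057_al.RG.Lin
import Pool.Agent.Lib.MP_5d4057_al.RG.Frame
import Pool.Agent.Lib.MP_5d4057_al.RG.Red
import Pool.Agent.Lib.MP_5d4057_al.RG.ThmA

/-!
# RG A7: Theorem R for cocompact lattices (owner: helper53)
-/

set_option autoImplicit false

namespace Pool.Agent.Lib.MP_5d4057_al.RG

open Matrix Filter Topology Pool.Agent.Lib.MP_5d4057_al Pool.Agent.Lib.MP_5d4057_al.Hyb
  Pool.Agent.Lib.MP_5d4057_al.HM

open scoped ComplexOrder MatrixOrder Matrix.Norms.L2Operator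

variable {m n : ℕ}

/-- The geometric input: a representation of a lattice in `U(k,1)` with discrete image and finite kernel, whose image spans,
comes with an equivariant holomorphic map with the compactness property `Tm` and far points. -/
def Geo (Γ : Subgroup (SUGroup m)) : Prop :=
  ∀ (k : ℕ) (ρ₁ : Γ →* Mat (k + 1)), k ≤ m + 1 → UJ ρ₁ → Prp ρ₁ →
    Submodule.span ℂ (Set.range ρ₁) = ⊤ →
    ∃ f : Vec m → Vec k, HMap f ∧ (Eqv ρ₁ f ∨ Eqv (rcj ρ₁) f) ∧ Tm Γ f ∧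
      ∃ T : ℝ, ∀ v ∈ Cone m, ∀ w ∈ Cone m, T ≤ cc v w → 1 < cc (f v) (f w)

theorem geo_of_coc (hm : 2 ≤ m) {Γ : Subgroup (SUGroup m)} (hΓ : Coc Γ) : Geo Γ := by
  intro k ρ₁ _ hU hP hs
  obtain ⟨f, hf, he⟩ := exists_hmap hm hΓ hU hP hs
  refine ⟨f, hf, he, tm_of_coc hΓ f, ?_⟩
  rcases he with he | he
  · exact far hΓ hU hP hf he
  · exact far hΓ (uj_rcj hU) (prp_rcj hP) hf he

private theorem rp_map_mul {a b c : ℕ} (A : Matrix (Fin a) (Fin b) ℂ)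
    (B : Matrix (Fin b) (Fin c) ℂ) : (A * B).map cj = A.map cj * B.map cj :=
  Matrix.map_mul (f := (cj : ℂ ≃+* ℂ).toRingHom)

private theorem rp_map_ct {a b : ℕ} (A : Matrix (Fin a) (Fin b) ℂ) :
    Aᴴ.map cj = (A.map cj)ᴴ := by
  ext i j
  rfl

private theorem rp_J {k : ℕ} : (J k).map cj = J k := by
  ext i j
  rw [Matrix.map_apply, J, Matrix.diagonal_apply]
  split_ifs <;> simp [cj]

private theorem rp_inj {k : ℕ} {T : Matrix (Fin (n + 1)) (Fin (k + 1)) ℂ}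
    (hT : Tᴴ * J n * T = J k) {u : Vec k} (hu : u ∈ Cone k) : T *ᵥ u ≠ 0 := by
  intro h
  have h1 : herm u u = 0 := by
    rw [herm, ← hT, ← mulVec_mulVec, h, mulVec_zero, dotProduct_zero]
  have h2 : q u < 0 := hu
  rw [herm_self] at h1
  exact h2.ne (by exact_mod_cast h1)

private theorem rp_lin (hm : 2 ≤ m) {Γ : Subgroup (SUGroup m)} {k : ℕ} (hk : k ≤ m + 1)
    {ρ₁ : Γ →* Mat (k + 1)} (hU : UJ ρ₁) {f : Vec m → Vec k} (hf : HMap f) (he : Eqv ρ₁ f)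
    (hT : Tm Γ f) (hfar : ∃ T : ℝ, ∀ v ∈ Cone m, ∀ w ∈ Cone m, T ≤ cc v w → 1 < cc (f v) (f w)) :
    ∃ A : Matrix (Fin (k + 1)) (Fin (m + 1)) ℂ, Aᴴ * J k * A = J m ∧
      ∀ v ∈ Cone m, ∃ c : ℂ, c ≠ 0 ∧ f v = c • (A *ᵥ v) :=
  exists_lin hf (rigid hm hk hf hT
    (fun γ hγ v hv w hw => Eqv.cc hU he ⟨γ, hγ⟩ hv hw) hfar)

/-- **Theorem R.** -/
theorem rep_std (hm : 2 ≤ m) {Γ : Subgroup (SUGroup m)} (hΓ : Geo Γ)
    (ρ : Γ →* SUGroup (m + 1)) (hd : ∀ C : ℝ, {γ : Γ | ‖(ρ γ).toMatrix‖ ≤ C}.Finite)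
    (hnf : ∀ p : Vec (m + 1), p ≠ 0 → q p = 0 → ¬ ∀ γ : Γ, ∃ c : ℂ, act (ρ γ) p = c • p) :
    ∃ g : SUGroup (m + 1), Twd ρ g ∨ Twc ρ g := by
  obtain ⟨k, ρ₁, T, hk, hT, hTρ, hU, hP, hs⟩ := exists_red ρ hd hnf
  obtain ⟨f, hf, he, hTm, hfar⟩ := hΓ k ρ₁ hk hU hP hs
  rcases he with he | he
  · obtain ⟨A, hA, hA'⟩ := rp_lin hm hk hU hf he hTm hfar
    obtain ⟨g, hg⟩ := twd_of_lin (ρ := ρ) (f := fun v => T *ᵥ f v) (A := T * A)
      (fun v hv => rp_inj hT (hf.maps v hv)) (fun γ v hv => by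
        obtain ⟨c, hc, h⟩ := he γ v hv
        refine ⟨c, hc, ?_⟩
        rw [h, mulVec_smul, act, mulVec_mulVec, mulVec_mulVec, hTρ]) (by
        rw [conjTranspose_mul]
        calc Aᴴ * Tᴴ * J (m + 1) * (T * A) = Aᴴ * (Tᴴ * J (m + 1) * T) * A := by
              simp only [Matrix.mul_assoc]
          _ = J m := by rw [hT, hA]) (fun v hv => by
        obtain ⟨c, hc, h⟩ := hA' v hv
        exact ⟨c, hc, by rw [h, mulVec_smul, mulVec_mulVec]⟩)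
    exact ⟨g, Or.inl hg⟩
  · obtain ⟨A, hA, hA'⟩ := rp_lin hm hk (uj_rcj hU) hf he hTm hfar
    have hT' : (T.map cj)ᴴ * J (m + 1) * T.map cj = J k := by
      rw [← rp_map_ct, ← rp_J (k := m + 1), ← rp_map_mul, ← rp_map_mul, hT, rp_J]
    obtain ⟨g, hg⟩ := twc_of_lin (ρ := ρ) (f := fun v => T.map cj *ᵥ f v) (A := T.map cj * A)
      (fun v hv => rp_inj hT' (hf.maps v hv)) (fun γ v hv => by
        obtain ⟨c, hc, h⟩ := he γ v hv
        refine ⟨c, hc, ?_⟩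
        rw [h, mulVec_smul, mulVec_mulVec, mulVec_mulVec, ← rp_map_mul, hTρ, rp_map_mul]
        rfl) (by
        rw [conjTranspose_mul]
        calc Aᴴ * (T.map cj)ᴴ * J (m + 1) * (T.map cj * A) =
              Aᴴ * ((T.map cj)ᴴ * J (m + 1) * T.map cj) * A := by
              simp only [Matrix.mul_assoc]
          _ = J m := by rw [hT', hA]) (fun v hv => by
        obtain ⟨c, hc, h⟩ := hA' v hv
        exact ⟨c, hc, by rw [h, mulVec_smul, mulVec_mulVec]⟩)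
    exact ⟨g, Or.inr hg⟩

end Pool.Agent.Lib.MP_5d4057_al.RG
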