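import Pool.Agent.Lib.MP_5d4057_al.RG.RepS
import Pool.Agent.Lib.MP_5d4057_al.RG.RepC
import Pool.Agent.Lib.MP_5d4057_al.RG.FinA
import Pool.Agent.Lib.MP_5d4057_al.RC.Liou

/-!
# RG C10: `Geo` for torsion free lattices (owner: helper53)
-/

set_option autoImplicit false

namespace Pool.Agent.Lib.MP_5d4057_al.RG

open Matrix Filter Topology Metric Pool.Agent.Lib.MP_5d4057_al Pool.Agent.Lib.MP_5d4057_al.Hyb
  Pool.Agent.Lib.MP_5d4057_al.HM Pool.Agent.Lib.MP_5d4057_al.HM.Kak Pool.Agent.Lib.MP_5d4057_al.NU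
  Pool.Agent.Lib.MP_5d4057_al.RC

open scoped ComplexOrder MatrixOrder Matrix.Norms.L2Operator

variable {m n : ℕ} {Γ : Subgroup (SUGroup m)}

theorem geo_of_lat (hm : 2 ≤ m) {χ : SUGroup m → ℝ} (hL : Lat Γ χ) (hT : TF Γ) (hTor : Tor Γ) :
    Geo Γ := by
  intro k ρ₁ hk hU hP hs
  obtain ⟨f, hf, he, hiso⟩ := exists_iso_lat hm hL hT hTor hk hU hP hs
  exact ⟨f, hf, he, tm_of_iso hiso, far_of_iso hiso⟩

/-- Lattices with entries in a finitely generated ring. -/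
theorem geoV_of_lat (hm : 2 ≤ m) (hL : IsLattice Γ) (hf : FGG Γ) : GeoV Γ := by
  obtain ⟨χ, hχ⟩ := exists_lat hL
  obtain ⟨Γ', hle, hfi, hN, hTor⟩ := exists_tor hf
  obtain ⟨χ', hχ'⟩ := hχ.finite_index hle hfi
  exact ⟨Γ', hle, hfi, hN, geo_of_lat hm hχ' (tf_of_tor hχ'.disc hTor) hTor⟩

end Pool.Agent.Lib.MP_5d4057_al.RG
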