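import Pool.Agent.Lib.MP_5d4057_al.NU.CuspK
import Pool.Agent.Lib.MP_5d4057_al.NU.CuspL

/-!
# RG: coordinates on the unipotent elements preserving a horosphere

For `x ∈ PS ξ` with trivial rotation part (`Un ξ x`): `x pe(-ξ) = pe(-ξ) + a + v pe ξ` with `a = ua ξ x` orthogonal to
`pe (± ξ)` and `v = uv ξ x`, `Re v = q a / 4`.
-/

set_option autoImplicit false

namespace Pool.Agent.Lib.MP_5d4057_al.RG

open Matrix Filter Topology Pool.Agent.Lib.MP_5d4057_al Pool.Agent.Lib.MP_5d4057_al.Hyb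
  Pool.Agent.Lib.MP_5d4057_al.HM Pool.Agent.Lib.MP_5d4057_al.HM.Kak Pool.Agent.Lib.MP_5d4057_al.NU

open scoped ComplexOrder MatrixOrder Matrix.Norms.L2Operator

variable {n : ℕ} {ξ : Fin n → ℂ}

theorem sb_pp (hξ : nq ξ = 1) : herm (pe ξ) (pe ξ) = 0 := by
  rw [herm_self, q_pe, hξ, sub_self, Complex.ofReal_zero]

theorem sb_pn (hξ : nq ξ = 1) : herm (pe ξ) (pe (-ξ)) = -2 := by
  have h := congrArg (herm (pe ξ)) (two_smul_base ξ)
  rw [herm_add_right, sb_pp hξ, zero_add, herm_smul_right, herm_comm (base n) (pe ξ),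
    herm_base_pe] at h
  rw [h]
  simp

theorem sb_np (hξ : nq ξ = 1) : herm (pe (-ξ)) (pe ξ) = -2 := by
  rw [herm_comm (pe ξ) (pe (-ξ)), sb_pn hξ]
  simp

theorem sb_nn (hξ : nq ξ = 1) : herm (pe (-ξ)) (pe (-ξ)) = 0 :=
  sb_pp (by rw [nq_neg, hξ])

private theorem sb_dot (ξ : Fin n → ℂ) (v : Vec n) : star (pe ξ) ⬝ᵥ v = -herm (pe (-ξ)) v := by
  rw [herm_eq, dotProduct, Fin.sum_univ_castSucc, neg_sub, pe_last]
  have h : ∀ i : Fin n, star (pe (-ξ) i.castSucc) * v i.castSucc =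
      -(star (pe ξ) i.castSucc * v i.castSucc) := by
    intro i
    rw [pe_castSucc, Pi.star_apply, pe_castSucc, Pi.neg_apply, star_neg, neg_mul]
  rw [Finset.sum_congr rfl fun i _ => h i, Finset.sum_neg_distrib, Pi.star_apply, pe_last]
  ring

theorem sb_Pp (ξ : Fin n → ℂ) (v : Vec n) :
    Pp ξ *ᵥ v = (-(1 / 2 : ℂ) * herm (pe (-ξ)) v) • pe ξ := by
  rw [Pp, smul_mulVec, vecMulVec_mulVec, op_smul_eq_smul, sb_dot, smul_smul]
  congr 1
  ring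

theorem sb_Pn (ξ : Fin n → ℂ) (v : Vec n) :
    Pp (-ξ) *ᵥ v = (-(1 / 2 : ℂ) * herm (pe ξ) v) • pe (-ξ) := by
  rw [sb_Pp, neg_neg]

theorem sb_P0 (ξ : Fin n → ℂ) (v : Vec n) :
    P0 ξ *ᵥ v = v + ((1 / 2 : ℂ) * herm (pe (-ξ)) v) • pe ξ +
      ((1 / 2 : ℂ) * herm (pe ξ) v) • pe (-ξ) := by
  rw [P0, sub_mulVec, sub_mulVec, one_mulVec, sb_Pp, sb_Pn]
  module

/-- The decomposition of a vector. -/
theorem sb_decomp (ξ : Fin n → ℂ) (v : Vec n) :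
    v = P0 ξ *ᵥ v + (-(1 / 2 : ℂ) * herm (pe (-ξ)) v) • pe ξ +
      (-(1 / 2 : ℂ) * herm (pe ξ) v) • pe (-ξ) := by
  rw [sb_P0]
  module

theorem sb_P0_mem (hξ : nq ξ = 1) (v : Vec n) :
    herm (pe ξ) (P0 ξ *ᵥ v) = 0 ∧ herm (pe (-ξ)) (P0 ξ *ᵥ v) = 0 := by
  rw [sb_P0]
  constructor
  · rw [herm_add_right, herm_add_right, herm_smul_right, herm_smul_right, sb_pp hξ, sb_pn hξ]
    ring
  · rw [herm_add_right, herm_add_right, herm_smul_right, herm_smul_right, sb_np hξ, sb_nn hξ]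
    ring

theorem sb_P0_fix {v : Vec n} (h1 : herm (pe ξ) v = 0) (h2 : herm (pe (-ξ)) v = 0) :
    P0 ξ *ᵥ v = v := by
  rw [sb_P0, h1, h2]
  simp

theorem sb_swap {v w : Vec n} (h : herm v w = 0) : herm w v = 0 := by
  rw [herm_comm v w, h, star_zero]

/-- the last coordinate of a vector orthogonal to `pe ξ` and `pe (-ξ)` vanishes -/
theorem sb_last {v : Vec n} (h1 : herm (pe ξ) v = 0) (h2 : herm (pe (-ξ)) v = 0) :
    v (Fin.last n) = 0 := by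
  have h := herm_add_left (pe ξ) (pe (-ξ)) v
  rw [two_smul_base, herm_smul_left, h1, h2, add_zero] at h
  have h3 : herm (base n) v = 0 := (mul_eq_zero.1 h).resolve_left (by simp)
  have h4 : herm (base n) v = -v (Fin.last n) := by
    rw [herm_eq, base, Pi.single_eq_same, Finset.sum_eq_zero]
    · simp
    · intro i _
      rw [Pi.single_eq_of_ne (Fin.castSucc_lt_last i).ne]
      simp
  rw [h4] at h3
  exact neg_eq_zero.1 h3

/-- Elements preserving the horospheres at `ξ`, without rotation. -/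
def Un (ξ : Fin n → ℂ) (x : SUGroup n) : Prop := x ∈ PS ξ ∧ Dg ξ x = 1

/-- the horizontal coordinate -/
noncomputable def ua (ξ : Fin n → ℂ) (x : SUGroup n) : Vec n := P0 ξ *ᵥ act x (pe (-ξ))

/-- the vertical coordinate -/
noncomputable def uv (ξ : Fin n → ℂ) (x : SUGroup n) : ℂ :=
  -(1 / 2) * herm (pe (-ξ)) (act x (pe (-ξ)))

theorem ua_pe (hξ : nq ξ = 1) (x : SUGroup n) : herm (pe ξ) (ua ξ x) = 0 :=
  (sb_P0_mem hξ _).1

theorem ua_pn (hξ : nq ξ = 1) (x : SUGroup n) : herm (pe (-ξ)) (ua ξ x) = 0 :=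
  (sb_P0_mem hξ _).2

theorem Un.ml (hξ : nq ξ = 1) {x : SUGroup n} (h : Un ξ x) : ml x ξ = 1 := by
  obtain ⟨hx, hD⟩ := h
  have e3 : x.toMatrix *ᵥ pe ξ = NU.ml x ξ • pe ξ := act_of_mem_St hξ (PS_le_St ξ hx)
  have e1 : Pp ξ *ᵥ pe ξ = pe ξ := by rw [sb_Pp, sb_np hξ]; module
  have e2 : Pp (-ξ) *ᵥ pe ξ = 0 := by rw [sb_Pn, sb_pp hξ]; module
  have e4 : P0 ξ *ᵥ pe ξ = 0 := by
    rw [sb_P0, sb_pp hξ, sb_np hξ]
    module
  have h1 : Dg ξ x *ᵥ pe ξ = NU.ml x ξ • pe ξ := by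
    rw [Dg, add_mulVec, add_mulVec, ← mulVec_mulVec, ← mulVec_mulVec, ← mulVec_mulVec,
      ← mulVec_mulVec, ← mulVec_mulVec, ← mulVec_mulVec, e1, e2, e4, mulVec_zero,
      mulVec_zero, mulVec_zero, e3, mulVec_smul, e1, add_zero, add_zero]
  rw [hD, one_mulVec] at h1
  have h2 := congrFun h1 (Fin.last n)
  rw [Pi.smul_apply, pe_last, smul_eq_mul, mul_one] at h2
  exact h2.symm

theorem Un.pe (hξ : nq ξ = 1) {x : SUGroup n} (h : Un ξ x) : act x (NU.pe ξ) = NU.pe ξ := by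
  rw [act_of_mem_St hξ (PS_le_St ξ h.1), h.ml hξ, one_smul]

theorem Un.herm_pe (hξ : nq ξ = 1) {x : SUGroup n} (h : Un ξ x) (v : Vec n) :
    herm (NU.pe ξ) (act x v) = herm (NU.pe ξ) v := by
  conv_lhs => rw [← h.pe hξ]
  exact herm_act x _ _

/-- The action on `pe (-ξ)`. -/
theorem Un.pn (hξ : nq ξ = 1) {x : SUGroup n} (h : Un ξ x) :
    act x (NU.pe (-ξ)) = NU.pe (-ξ) + ua ξ x + uv ξ x • NU.pe ξ := by
  conv_lhs => rw [sb_decomp ξ (act x (NU.pe (-ξ)))]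
  rw [h.herm_pe hξ, sb_pn hξ, ua, uv]
  module

/-- The action on the orthogonal complement. -/
theorem Un.orth (hξ : nq ξ = 1) {x : SUGroup n} (h : Un ξ x) {v : Vec n}
    (h1 : herm (NU.pe ξ) v = 0) (h2 : herm (NU.pe (-ξ)) v = 0) :
    act x v = v + ((1 / 2 : ℂ) * herm (ua ξ x) v) • NU.pe ξ := by
  have e1 : P0 ξ *ᵥ act x v = v := by
    have e2 : Dg ξ x *ᵥ v = P0 ξ *ᵥ act x v := by
      have f1 : Pp ξ *ᵥ v = 0 := by rw [sb_Pp, h2, mul_zero, zero_smul]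
      have f2 : Pp (-ξ) *ᵥ v = 0 := by rw [sb_Pn, h1, mul_zero, zero_smul]
      rw [Dg, add_mulVec, add_mulVec, ← mulVec_mulVec, ← mulVec_mulVec, ← mulVec_mulVec,
        ← mulVec_mulVec, ← mulVec_mulVec, ← mulVec_mulVec, f1, f2, sb_P0_fix h1 h2, mulVec_zero,
        mulVec_zero, mulVec_zero, zero_add, add_zero, act]
    rw [← e2, h.2, one_mulVec]
  have e3 : act x v = v + (-(1 / 2 : ℂ) * herm (NU.pe (-ξ)) (act x v)) • NU.pe ξ := by
    conv_lhs => rw [sb_decomp ξ (act x v)]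
    rw [e1, h.herm_pe hξ, h1]
    module
  obtain ⟨c, hc⟩ : ∃ c : ℂ, c = -(1 / 2 : ℂ) * herm (NU.pe (-ξ)) (act x v) := ⟨_, rfl⟩
  rw [← hc] at e3
  have e4 := herm_act x (NU.pe (-ξ)) v
  have e5 : herm (ua ξ x) (NU.pe ξ) = 0 := sb_swap (ua_pe hξ x)
  rw [h.pn hξ, e3, h2, herm_add_left, herm_add_left, herm_add_right, herm_add_right,
    herm_add_right, herm_smul_right, herm_smul_right, herm_smul_right, herm_smul_left,
    herm_smul_left, e5, h1, h2, sb_np hξ, sb_pp hξ] at e4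
  have e6 : c = (1 / 2 : ℂ) * herm (ua ξ x) v := by linear_combination -(1 / 2) * e4
  rw [e3, e6]

theorem Un.re (hξ : nq ξ = 1) {x : SUGroup n} (h : Un ξ x) : (uv ξ x).re = q (ua ξ x) / 4 := by
  have e1 := herm_act x (NU.pe (-ξ)) (NU.pe (-ξ))
  have e5 : herm (ua ξ x) (NU.pe ξ) = 0 := sb_swap (ua_pe hξ x)
  have e6 : herm (ua ξ x) (NU.pe (-ξ)) = 0 := sb_swap (ua_pn hξ x)
  rw [h.pn hξ, herm_add_left, herm_add_left, herm_add_right, herm_add_right, herm_add_right,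
    herm_add_right, herm_add_right, herm_add_right, herm_smul_right, herm_smul_right,
    herm_smul_right, herm_smul_left, herm_smul_left, herm_smul_left, e5, e6, ua_pe hξ, ua_pn hξ,
    sb_np hξ, sb_pp hξ, sb_nn hξ, sb_pn hξ, herm_self] at e1
  have e2 := congrArg Complex.re e1
  simp at e2
  linarith

theorem Un.q_nonneg (hξ : nq ξ = 1) (x : SUGroup n) : 0 ≤ q (ua ξ x) := by
  rw [q_eq, sb_last (ua_pe hξ x) (ua_pn hξ x), norm_zero, zero_pow two_ne_zero, sub_zero]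
  exact Finset.sum_nonneg fun i _ => by positivity

theorem Un.one (hξ : nq ξ = 1) : Un ξ (1 : SUGroup n) := ⟨(PS ξ).one_mem, Dg_one hξ⟩

theorem Un.mul (hξ : nq ξ = 1) {x y : SUGroup n} (hx : Un ξ x) (hy : Un ξ y) : Un ξ (x * y) :=
  ⟨(PS ξ).mul_mem hx.1 hy.1, by
    rw [Dg_mul hξ (PS_le_St ξ hx.1) (PS_le_St ξ hy.1), hx.2, hy.2, Matrix.one_mul]⟩

theorem Un.inv (hξ : nq ξ = 1) {x : SUGroup n} (hx : Un ξ x) : Un ξ x⁻¹ := by
  have h0 : x⁻¹ ∈ PS ξ := (PS ξ).inv_mem hx.1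
  refine ⟨h0, ?_⟩
  have h1 := Dg_mul hξ (PS_le_St ξ hx.1) (PS_le_St ξ h0)
  rw [mul_inv_cancel, Dg_one hξ, hx.2, Matrix.one_mul] at h1
  exact h1.symm

/-- Conjugation by elements preserving the horospheres. -/
theorem Un.conj (hξ : nq ξ = 1) {x g : SUGroup n} (hx : Un ξ x) (hg : g ∈ PS ξ) :
    Un ξ (g⁻¹ * x * g) := by
  have h0 : g⁻¹ ∈ PS ξ := (PS ξ).inv_mem hg
  refine ⟨(PS ξ).mul_mem ((PS ξ).mul_mem h0 hx.1) hg, ?_⟩
  have hgi := PS_le_St ξ h0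
  have h1 : Dg ξ g⁻¹ * Dg ξ g = 1 := by
    rw [← Dg_mul hξ hgi (PS_le_St ξ hg), inv_mul_cancel, Dg_one hξ]
  rw [Dg_mul hξ ((St ξ).mul_mem hgi (PS_le_St ξ hx.1)) (PS_le_St ξ hg),
    Dg_mul hξ hgi (PS_le_St ξ hx.1), hx.2, Matrix.mul_one, h1]

theorem ua_mul (hξ : nq ξ = 1) {x y : SUGroup n} (hx : Un ξ x) (hy : Un ξ y) :
    ua ξ (x * y) = ua ξ x + ua ξ y ∧
      uv ξ (x * y) = uv ξ x + uv ξ y + (1 / 2 : ℂ) * herm (ua ξ x) (ua ξ y) := by
  have h1 : act (x * y) (pe (-ξ)) = pe (-ξ) + (ua ξ x + ua ξ y) +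
      (uv ξ x + uv ξ y + (1 / 2 : ℂ) * herm (ua ξ x) (ua ξ y)) • pe ξ := by
    rw [act_mul, hy.pn hξ, act_add, act_add, act_smul, hx.pe hξ, hx.pn hξ,
      hx.orth hξ (ua_pe hξ y) (ua_pn hξ y)]
    module
  constructor
  · rw [ua, h1, mulVec_add, mulVec_add, mulVec_smul, mulVec_add,
      sb_P0_fix (ua_pe hξ x) (ua_pn hξ x), sb_P0_fix (ua_pe hξ y) (ua_pn hξ y), sb_P0,
      sb_P0 ξ (pe ξ), sb_nn hξ, sb_pn hξ, sb_pp hξ, sb_np hξ]
    module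
  · rw [uv, h1, herm_add_right, herm_add_right, herm_add_right, herm_smul_right, ua_pn hξ,
      ua_pn hξ, sb_nn hξ, sb_np hξ]
    ring

theorem ua_one (hξ : nq ξ = 1) : ua ξ (1 : SUGroup n) = 0 ∧ uv ξ (1 : SUGroup n) = 0 := by
  constructor
  · rw [ua, act_one, sb_P0, sb_nn hξ, sb_pn hξ]
    module
  · rw [uv, act_one, sb_nn hξ, mul_zero]

theorem ua_inv (hξ : nq ξ = 1) {x : SUGroup n} (hx : Un ξ x) :
    ua ξ x⁻¹ = -ua ξ x ∧ uv ξ x⁻¹ = star (uv ξ x) := by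
  have h1 := ua_mul hξ hx (hx.inv hξ)
  rw [mul_inv_cancel, (ua_one hξ).1, (ua_one hξ).2] at h1
  have h2 : ua ξ x⁻¹ = -ua ξ x := (neg_eq_of_add_eq_zero_right h1.1.symm).symm
  refine ⟨h2, ?_⟩
  have h3 := h1.2
  have h4 : herm (ua ξ x) (ua ξ x⁻¹) = -((q (ua ξ x) : ℝ) : ℂ) := by
    rw [h2, ← neg_one_smul ℂ, herm_smul_right, herm_self]
    ring
  rw [h4] at h3
  have h5 := hx.re hξ
  apply Complex.ext
  · have h6 := congrArg Complex.re h3
    simp at h6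
    simp
    linarith
  · have h6 := congrArg Complex.im h3
    simp at h6
    simp
    linarith

/-- The displacement at the base point. -/
theorem Un.ch (hξ : nq ξ = 1) {x : SUGroup n} (h : Un ξ x) : ch x = ‖1 + uv ξ x / 2‖ := by
  have h1 : act x (base n) (Fin.last n) = x.toMatrix (Fin.last n) (Fin.last n) := by
    rw [act, base, mulVec_single_one]
    rfl
  have h2 : (2 : ℂ) • act x (base n) = NU.pe ξ + (NU.pe (-ξ) + ua ξ x + uv ξ x • NU.pe ξ) := by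
    rw [← act_smul, ← two_smul_base ξ, act_add, h.pe hξ, h.pn hξ]
  have h3 := congrFun h2 (Fin.last n)
  rw [Pi.smul_apply, Pi.add_apply, Pi.add_apply, Pi.add_apply, Pi.smul_apply, pe_last, pe_last,
    sb_last (ua_pe hξ x) (ua_pn hξ x), h1, smul_eq_mul, smul_eq_mul] at h3
  rw [HM.ch]
  congr 1
  linear_combination (1 / 2) * h3

/-- The flow contracts. -/
theorem Un.flow (hξ : nq ξ = 1) {x : SUGroup n} (h : Un ξ x) (s : ℝ) :
    Un ξ (fl ξ (-s) * x * fl ξ s) ∧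
      uv ξ (fl ξ (-s) * x * fl ξ s) = (Real.exp (-(2 * s)) : ℂ) * uv ξ x := by
  have hml : NU.ml (fl ξ (-s) * x * fl ξ s) ξ = 1 := by
    rw [ml_mul hξ, mv_fl hξ, ml_mul hξ, ((mem_PS hξ).1 h.1).1, ml_fl hξ, ml_fl hξ, h.ml hξ,
      mul_one, ← Complex.ofReal_mul, ← Real.exp_add]
    simp
  have hst : fl ξ (-s) * x * fl ξ s ∈ St ξ :=
    (St ξ).mul_mem ((St ξ).mul_mem (fl_mem_St hξ _) (PS_le_St ξ h.1)) (fl_mem_St hξ _)
  have hps : fl ξ (-s) * x * fl ξ s ∈ PS ξ := by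
    rw [mem_PS hξ]
    refine ⟨(mem_St hξ).1 hst, ?_⟩
    rw [hml, norm_one]
  have e1 : ((-s : ℝ) : ℝ) = -s := rfl
  refine ⟨⟨hps, ?_⟩, ?_⟩
  · have h1 := Dg_mul hξ (fl_mem_St hξ (-s)) (PS_le_St ξ h.1)
    rw [Dg_mul hξ ((St ξ).mul_mem (fl_mem_St hξ _) (PS_le_St ξ h.1)) (fl_mem_St hξ _), h1, h.2,
      Matrix.mul_one, ← Dg_mul hξ (fl_mem_St hξ _) (fl_mem_St hξ _), ← fl_add, neg_add_cancel,
      fl_zero, Dg_one hξ]
  · have e2 := (fl_pe_neg hξ s)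
    have e3 := (fl_pe hξ (-s))
    have e4 := (fl_pe_neg hξ (-s))
    have e5 := fl_orth hξ (-s) (ua_pe hξ x) (ua_pn hξ x)
    rw [uv, act_mul, act_mul, e2, act_smul, act_smul, h.pn hξ, act_add, act_add, act_smul, e4, e3,
      e5, herm_smul_right, herm_add_right, herm_add_right, herm_smul_right, herm_smul_right,
      herm_smul_right, sb_nn hξ, ua_pn hξ, sb_np hξ]
    have e6 : (Real.exp (-(2 * s)) : ℂ) = (Real.exp (-s) : ℂ) * (Real.exp (-s) : ℂ) := by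
      rw [← Complex.ofReal_mul, ← Real.exp_add]
      congr 2
      ring
    rw [e6]
    push_cast
    ring

/-! ### sizes -/

theorem Un.norm_uv_le (hξ : nq ξ = 1) {x : SUGroup n} (h : Un ξ x) : ‖uv ξ x‖ ≤ 2 * HM.ch x := by
  rw [h.ch hξ]
  have h1 : 0 ≤ (uv ξ x).re := by
    rw [h.re hξ]
    have := Un.q_nonneg hξ x
    positivity
  have h2 : ‖uv ξ x‖ ^ 2 ≤ (2 * ‖1 + uv ξ x / 2‖) ^ 2 := by
    rw [mul_pow, Complex.sq_norm, Complex.sq_norm, Complex.normSq_apply, Complex.normSq_apply]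
    simp only [Complex.add_re, Complex.one_re, Complex.div_ofNat_re, Complex.add_im,
      Complex.one_im, Complex.div_ofNat_im]
    nlinarith
  exact le_of_sq_le_sq h2 (by positivity)

theorem Un.q_le (hξ : nq ξ = 1) {x : SUGroup n} (h : Un ξ x) : q (ua ξ x) ≤ 8 * HM.ch x := by
  have h1 := h.re hξ
  have h2 := (Complex.re_le_norm _).trans (h.norm_uv_le hξ)
  linarith

theorem Un.ch_le (hξ : nq ξ = 1) {x : SUGroup n} (h : Un ξ x) :
    HM.ch x ≤ 1 + ‖uv ξ x‖ / 2 := by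
  rw [h.ch hξ]
  refine (norm_add_le _ _).trans ?_
  rw [norm_one, norm_div, Complex.norm_ofNat]

/-- The displacement seen from the point `fl ξ s e`. -/
theorem Un.ch_flow (hξ : nq ξ = 1) {x : SUGroup n} (h : Un ξ x) (s : ℝ) :
    HM.ch (fl ξ (-s) * x * fl ξ s) ≤ 1 + Real.exp (-(2 * s)) * ‖uv ξ x‖ / 2 := by
  obtain ⟨h1, h2⟩ := h.flow hξ s
  refine (h1.ch_le hξ).trans ?_
  rw [h2, norm_mul, Complex.norm_real, Real.norm_eq_abs, abs_of_pos (Real.exp_pos _)]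

/-- powers -/
theorem ua_pow (hξ : nq ξ = 1) {x : SUGroup n} (hx : Un ξ x) (k : ℕ) :
    Un ξ (x ^ k) ∧ ua ξ (x ^ k) = (k : ℂ) • ua ξ x ∧
      uv ξ (x ^ k) = k * uv ξ x + ((k : ℂ) * (k - 1) / 4) * (q (ua ξ x) : ℂ) := by
  induction k with
  | zero =>
    rw [pow_zero]
    refine ⟨Un.one hξ, ?_, ?_⟩
    · rw [(ua_one hξ).1]
      simp
    · rw [(ua_one hξ).2]
      simp
  | succ k ih =>
    obtain ⟨h1, h2, h3⟩ := ih
    obtain ⟨h4, h5⟩ := ua_mul hξ h1 hx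
    rw [pow_succ]
    refine ⟨h1.mul hξ hx, ?_, ?_⟩
    · rw [h4, h2]
      push_cast
      module
    · rw [h5, h3, h2, herm_smul_left, herm_self]
      push_cast
      rw [Complex.star_def, Complex.conj_natCast]
      ring

/-- bound for the powers -/
theorem uv_pow_le (hξ : nq ξ = 1) {x : SUGroup n} (hx : Un ξ x) {k : ℕ} (hk : 1 ≤ k) :
    ‖uv ξ (x ^ k)‖ ≤ 4 * HM.ch x * (k : ℝ) ^ 2 := by
  obtain ⟨-, -, h3⟩ := ua_pow hξ hx k
  have h4 := hx.norm_uv_le hξ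
  have h5 := hx.q_le hξ
  have h6 := Un.q_nonneg hξ x
  have hk1 : (1 : ℝ) ≤ k := by exact_mod_cast hk
  have hc := one_le_ch x
  rw [h3]
  refine (norm_add_le _ _).trans ?_
  have e1 : ‖((k : ℂ) * (k - 1) / 4)‖ = (k : ℝ) * (k - 1) / 4 := by
    have : ((k : ℂ) * (k - 1) / 4) = (((k : ℝ) * (k - 1) / 4 : ℝ) : ℂ) := by push_cast; ring
    rw [this, Complex.norm_real, Real.norm_eq_abs, abs_of_nonneg]
    have : (0 : ℝ) ≤ (k : ℝ) - 1 := by linarith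
    positivity
  rw [norm_mul, norm_mul, e1, Complex.norm_natCast, Complex.norm_real, Real.norm_eq_abs,
    abs_of_nonneg h6]
  have e2 : (k : ℝ) * ‖uv ξ x‖ ≤ k * (2 * HM.ch x) := by gcongr
  have e3 : (k : ℝ) * (k - 1) / 4 * q (ua ξ x) ≤ (k : ℝ) * (k - 1) / 4 * (8 * HM.ch x) := by
    have : (0 : ℝ) ≤ (k : ℝ) - 1 := by linarith
    gcongr
  have e4 : (k : ℝ) * (2 * HM.ch x) + (k : ℝ) * (k - 1) / 4 * (8 * HM.ch x) =
      2 * HM.ch x * (k : ℝ) ^ 2 := by ring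
  nlinarith [sq_nonneg (k : ℝ)]

/-! ### elements with given coordinates -/

theorem un_of (hξ : nq ξ = 1) {g : SUGroup n} (h1 : act g (pe ξ) = pe ξ)
    (h2 : ∀ v : Vec n, herm (pe ξ) v = 0 → herm (pe (-ξ)) v = 0 →
      ∃ c : ℂ, act g v = v + c • pe ξ) : Un ξ g := by
  refine ⟨⟨1, norm_one, by rw [h1, one_smul]⟩, ?_⟩
  have e1 : Pp ξ *ᵥ pe ξ = pe ξ := by rw [sb_Pp, sb_np hξ]; module
  have e4 : P0 ξ *ᵥ pe ξ = 0 := by
    rw [sb_P0, sb_pp hξ, sb_np hξ]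
    module
  have e5 : Pp (-ξ) *ᵥ (g.toMatrix *ᵥ pe (-ξ)) = pe (-ξ) := by
    rw [sb_Pn]
    have h3 : herm (pe ξ) (g.toMatrix *ᵥ pe (-ξ)) = -2 := by
      have h4 := herm_act g (pe ξ) (pe (-ξ))
      rw [h1, sb_pn hξ] at h4
      exact h4
    rw [h3]
    module
  apply Matrix.toLin'.injective
  apply LinearMap.ext
  intro v
  rw [toLin'_apply, toLin'_apply, one_mulVec]
  obtain ⟨c, hc⟩ := h2 (P0 ξ *ᵥ v) (sb_P0_mem hξ v).1 (sb_P0_mem hξ v).2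
  have hc' : g.toMatrix *ᵥ (P0 ξ *ᵥ v) = P0 ξ *ᵥ v + c • pe ξ := hc
  have h1' : g.toMatrix *ᵥ pe ξ = pe ξ := h1
  rw [Dg, add_mulVec, add_mulVec, ← mulVec_mulVec, ← mulVec_mulVec, ← mulVec_mulVec,
    ← mulVec_mulVec, ← mulVec_mulVec, ← mulVec_mulVec, hc', sb_Pp ξ v, sb_Pn ξ v, mulVec_smul,
    mulVec_smul, mulVec_smul, mulVec_smul, h1', e1, e5, mulVec_add, mulVec_smul, e4,
    sb_P0_fix (sb_P0_mem hξ v).1 (sb_P0_mem hξ v).2]
  conv_rhs => rw [sb_decomp ξ v]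
  module

/-- Horizontal translations. -/
theorem exists_T (hξ : nq ξ = 1) {ζ : Vec n} (hz1 : herm (pe ξ) ζ = 0)
    (hz2 : herm (pe (-ξ)) ζ = 0) : ∃ g : SUGroup n, Un ξ g ∧ ua ξ g = ζ ∧
      uv ξ g = ((q ζ / 4 : ℝ) : ℂ) := by
  obtain ⟨y, hy⟩ : ∃ y : Vec n, y = (-(1 / 2) : ℂ) • ζ := ⟨_, rfl⟩
  have h1 : hm n (pe ξ) (pe ξ) = 0 := sb_pp hξ
  have h2 : hm n (pe ξ) y = 0 := by
    show herm (pe ξ) y = 0
    rw [hy, herm_smul_right, hz1, mul_zero]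
  have h3 : hm n y (pe ξ) = 0 := sb_swap h2
  have h4 : hm n y (pe (-ξ)) = 0 := by
    refine sb_swap ?_
    rw [hy, herm_smul_right, hz2, mul_zero]
  have h5 : hm n (pe ξ) (pe (-ξ)) = -2 := sb_pn hξ
  have h7 : hm n y y = ((q ζ / 4 : ℝ) : ℂ) := by
    show herm y y = _
    rw [herm_self, hy, q_smul]
    congr 1
    rw [norm_neg, norm_div, norm_one, Complex.norm_ofNat]
    ring
  obtain ⟨g, hg⟩ : ∃ g : SUGroup n, g = ofMatrix (T n (pe ξ) y) (T_det _ _ h1 h2)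
    (T_pres _ _ h1 h2) := ⟨_, rfl⟩
  have hgm : g.toMatrix = T n (pe ξ) y := by rw [hg, toMatrix_ofMatrix]
  have hp : act g (pe ξ) = pe ξ := by
    rw [act, hgm, T, sub_mulVec, sub_mulVec, add_mulVec, one_mulVec, smul_mulVec, rk_mulVec,
      rk_mulVec, rk_mulVec, h1, h3]
    module
  have he : act g (pe (-ξ)) = pe (-ξ) + ζ + ((q ζ / 4 : ℝ) : ℂ) • pe ξ := by
    rw [act, hgm, T, sub_mulVec, sub_mulVec, add_mulVec, one_mulVec, smul_mulVec, rk_mulVec,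
      rk_mulVec, rk_mulVec, h4, h5, h7]
    have h6 : (-2 : ℂ) • y = ζ := by
      rw [hy, smul_smul]
      norm_num
    rw [h6]
    module
  have hun : Un ξ g := by
    refine un_of hξ hp fun v hv1 hv2 => ⟨-hm n y v, ?_⟩
    have h8 : hm n (pe ξ) v = 0 := hv1
    rw [act, hgm, T, sub_mulVec, sub_mulVec, add_mulVec, one_mulVec, smul_mulVec, rk_mulVec,
      rk_mulVec, rk_mulVec, h8]
    module
  refine ⟨g, hun, ?_, ?_⟩
  · rw [ua, he, mulVec_add, mulVec_add, mulVec_smul, sb_P0_fix hz1 hz2, sb_P0,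
      sb_P0 ξ (pe ξ), sb_nn hξ, sb_pn hξ, sb_pp hξ, sb_np hξ]
    module
  · rw [uv, he, herm_add_right, herm_add_right, herm_smul_right, hz2, sb_nn hξ, sb_np hξ]
    ring

/-! ### transvections -/

theorem tv_act {z : SUGroup n} {κ : ℝ} (h : IsTv z ξ κ) (v : Vec n) :
    act z v = v + ((κ : ℂ) * Complex.I * herm (pe ξ) v) • pe ξ := by
  rw [act, h.2.2, add_mulVec, one_mulVec, smul_mulVec, rk_mulVec, smul_smul]
  rfl

theorem tv_un {z : SUGroup n} {κ : ℝ} (h : IsTv z ξ κ) :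
    Un ξ z ∧ ua ξ z = 0 ∧ uv ξ z = -2 * κ * Complex.I := by
  have hξ := h.1
  refine ⟨un_of hξ ?_ fun v h1 _ => ⟨0, ?_⟩, ?_, ?_⟩
  · rw [tv_act h, sb_pp hξ]
    module
  · rw [tv_act h, h1]
    module
  · rw [ua, tv_act h, sb_pn hξ, mulVec_add, mulVec_smul, sb_P0, sb_P0 ξ (pe ξ), sb_nn hξ,
      sb_pn hξ, sb_pp hξ, sb_np hξ]
    module
  · rw [uv, tv_act h, sb_pn hξ, herm_add_right, herm_smul_right, sb_nn hξ, sb_np hξ]
    ring

/-- An element without horizontal part is a transvection. -/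
theorem tv_of_un (hξ : nq ξ = 1) {x : SUGroup n} (h : Un ξ x) (h0 : ua ξ x = 0)
    (h1 : x ≠ 1) : IsTv x ξ (-(uv ξ x).im / 2) := by
  have hre : (uv ξ x).re = 0 := by
    have hq0 : q (0 : Vec n) = 0 := by
      have := q_smul (0 : ℂ) (0 : Vec n)
      rw [zero_smul, norm_zero, zero_pow two_ne_zero, zero_mul] at this
      exact this
    rw [h.re hξ, h0, hq0, zero_div]
  obtain ⟨κ, hκ⟩ : ∃ κ : ℝ, κ = -(uv ξ x).im / 2 := ⟨_, rfl⟩
  have huv : uv ξ x = -2 * κ * Complex.I := by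
    apply Complex.ext
    · simp [hre]
    · simp [hκ]
      ring
  have key : x.toMatrix = 1 + ((κ : ℂ) * Complex.I) • rk n (pe ξ) (pe ξ) := by
    apply Matrix.toLin'.injective
    apply LinearMap.ext
    intro v
    rw [toLin'_apply, toLin'_apply, add_mulVec, one_mulVec, smul_mulVec, rk_mulVec]
    have e1 : x.toMatrix *ᵥ v = act x v := rfl
    have e2 : hm n (pe ξ) v = herm (pe ξ) v := rfl
    rw [e1, e2]
    conv_lhs => rw [sb_decomp ξ v]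
    have e3 : herm (0 : Vec n) (P0 ξ *ᵥ v) = 0 := by
      rw [herm_comm, herm, mulVec_zero, dotProduct_zero, star_zero]
    rw [act_add, act_add, act_smul, act_smul, h.pe hξ, h.pn hξ, h0,
      h.orth hξ (sb_P0_mem hξ v).1 (sb_P0_mem hξ v).2, h0, e3, huv]
    conv_rhs => rw [sb_decomp ξ v]
    have e4 : herm (pe ξ) (P0 ξ *ᵥ v + (-(1 / 2 : ℂ) * herm (pe (-ξ)) v) • pe ξ +
        (-(1 / 2 : ℂ) * herm (pe ξ) v) • pe (-ξ)) = herm (pe ξ) v := by rw [← sb_decomp ξ v]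
    rw [e4]
    module
  rw [← hκ]
  refine ⟨hξ, ?_, key⟩
  rintro rfl
  apply h1
  have : x.toMatrix = (1 : SUGroup n).toMatrix := by
    rw [key, toMatrix_one]
    simp
  exact (isClosedEmbedding_toMatrix n).injective this

/-- The commutator of two unipotent elements. -/
theorem un_comm (hξ : nq ξ = 1) {x y : SUGroup n} (hx : Un ξ x) (hy : Un ξ y) :
    Un ξ ((y * x)⁻¹ * (x * y)) ∧ ua ξ ((y * x)⁻¹ * (x * y)) = 0 ∧
      uv ξ ((y * x)⁻¹ * (x * y)) = ((herm (ua ξ x) (ua ξ y)).im : ℂ) * Complex.I := by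
  have h1 : Un ξ ((y * x)⁻¹ * (x * y)) := ((hy.mul hξ hx).inv hξ).mul hξ (hx.mul hξ hy)
  obtain ⟨h2, h3⟩ := ua_mul hξ (hy.mul hξ hx) h1
  rw [mul_inv_cancel_left] at h2 h3
  obtain ⟨h4, h5⟩ := ua_mul hξ hx hy
  obtain ⟨h6, h7⟩ := ua_mul hξ hy hx
  have h8 : ua ξ ((y * x)⁻¹ * (x * y)) = 0 := by
    rw [h4, h6, add_comm (ua ξ x)] at h2
    exact left_eq_add.1 h2
  refine ⟨h1, h8, ?_⟩
  have e3 : herm (ua ξ y + ua ξ x) (0 : Vec n) = 0 := by
    rw [herm, mulVec_zero, dotProduct_zero]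
  rw [h5, h6, h7, h8, e3, herm_comm (ua ξ x) (ua ξ y)] at h3
  have h9 : uv ξ ((y * x)⁻¹ * (x * y)) = (1 / 2 : ℂ) * (herm (ua ξ x) (ua ξ y) -
      star (herm (ua ξ x) (ua ξ y))) := by
    linear_combination -h3
  rw [h9]
  apply Complex.ext
  · simp
  · simp
    ring

/-! ### cobounded groups -/

/-- Cauchy - Schwarz on the horizontal part. -/
theorem hor_cauchy {a b : Vec n} (ha : a (Fin.last n) = 0) (hb : b (Fin.last n) = 0) :
    ‖herm a b‖ ≤ Real.sqrt (q a) * Real.sqrt (q b) := by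
  have h1 : herm a b = inner ℂ (WithLp.toLp 2 fun i : Fin n => a i.castSucc)
      (WithLp.toLp 2 fun i : Fin n => b i.castSucc) := by
    rw [herm_eq, ha, star_zero, zero_mul, sub_zero, PiLp.inner_apply]
    refine Finset.sum_congr rfl fun i _ => ?_
    rw [RCLike.inner_apply, mul_comm]
    rfl
  have h2 : ∀ a : Vec n, a (Fin.last n) = 0 →
      ‖(WithLp.toLp 2 fun i : Fin n => a i.castSucc : EuclideanSpace ℂ (Fin n))‖ =
        Real.sqrt (q a) := by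
    intro a ha
    rw [EuclideanSpace.norm_eq, q_eq, ha, norm_zero, zero_pow two_ne_zero, sub_zero]
  rw [h1, ← h2 a ha, ← h2 b hb]
  exact norm_inner_le_norm _ _

theorem hor_nonneg {a : Vec n} (ha : a (Fin.last n) = 0) : 0 ≤ q a := by
  rw [q_eq, ha, norm_zero, zero_pow two_ne_zero, sub_zero]
  exact Finset.sum_nonneg fun i _ => by positivity

theorem hor_pos {a : Vec n} (ha : a (Fin.last n) = 0) (h0 : a ≠ 0) : 0 < q a := by
  refine lt_of_le_of_ne (hor_nonneg ha) fun h => h0 ?_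
  rw [q_eq, ha, norm_zero, zero_pow two_ne_zero, sub_zero] at h
  funext j
  refine Fin.lastCases ha (fun i => ?_) j
  have h4 := (Finset.sum_eq_zero_iff_of_nonneg (fun _ _ => by positivity)).1 h.symm i
    (Finset.mem_univ i)
  exact norm_eq_zero.1 (pow_eq_zero_iff two_ne_zero |>.1 h4)

/-- The horizontal parts of a cobounded unipotent group are cobounded. -/
theorem cob_ua (hξ : nq ξ = 1) {Δ : Subgroup (SUGroup n)} (hΔ : ∀ x ∈ Δ, Un ξ x) {R : ℝ}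
    (hc : ∀ g ∈ PS ξ, ∃ δ ∈ Δ, HM.ch (δ * g) ≤ R) {ζ : Vec n} (h1 : herm (pe ξ) ζ = 0)
    (h2 : herm (pe (-ξ)) ζ = 0) : ∃ x ∈ Δ, ∃ b : Vec n, b (Fin.last n) = 0 ∧ q b ≤ 8 * R ∧
      ua ξ x = ζ - b ∧ HM.ch x ≤ 2 * R * (1 + q ζ / 8) := by
  obtain ⟨g, hg, hg1, hg2⟩ := exists_T hξ h1 h2
  obtain ⟨δ, hδ, hR⟩ := hc g hg.1
  have hu := hΔ δ hδ
  have hug := hu.mul hξ hg
  refine ⟨δ⁻¹, Δ.inv_mem hδ, ua ξ (δ * g), sb_last (ua_pe hξ _) (ua_pn hξ _), ?_, ?_, ?_⟩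
  · have := hug.q_le hξ
    linarith
  · rw [(ua_inv hξ hu).1, (ua_mul hξ hu hg).1, hg1]
    module
  · have h3 : HM.ch g ≤ 1 + q ζ / 8 := by
      refine (hg.ch_le hξ).trans (le_of_eq ?_)
      rw [hg2, Complex.norm_real, Real.norm_eq_abs, abs_of_nonneg]
      · ring
      · have := hor_nonneg (sb_last h1 h2)
        positivity
    have h4 : δ⁻¹ = g * (δ * g)⁻¹ := by group
    have h5 := one_le_ch g
    have h6 := one_le_ch (δ * g)
    have hq0 : 0 ≤ q ζ := hor_nonneg (sb_last h1 h2)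
    rw [h4]
    refine (ch_mul_le' _ _).trans ?_
    rw [ch_inv]
    calc 2 * HM.ch g * HM.ch (δ * g) ≤ 2 * (1 + q ζ / 8) * R := by gcongr
      _ = _ := by ring

/-- An element of bounded size whose commutator with a given element is large. -/
theorem exists_im_ge (hξ : nq ξ = 1) {Δ : Subgroup (SUGroup n)} (hΔ : ∀ x ∈ Δ, Un ξ x) {R : ℝ}
    (hc : ∀ g ∈ PS ξ, ∃ δ ∈ Δ, HM.ch (δ * g) ≤ R) : ∃ R' : ℝ, ∀ a : Vec n,
      herm (pe ξ) a = 0 → herm (pe (-ξ)) a = 0 →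
        ∃ y ∈ Δ, HM.ch y ≤ R' ∧ Real.sqrt (q a) ≤ (herm a (ua ξ y)).im := by
  have hR1 : 1 ≤ R := by
    obtain ⟨δ, -, h⟩ := hc 1 (PS ξ).one_mem
    exact (one_le_ch _).trans h
  obtain ⟨B, hB⟩ : ∃ B : ℝ, B = Real.sqrt (8 * R) := ⟨_, rfl⟩
  have hB0 : 0 ≤ B := hB ▸ Real.sqrt_nonneg _
  refine ⟨2 * R * (1 + (B + 1) ^ 2 / 8), fun a ha1 ha2 => ?_⟩
  have hal := sb_last ha1 ha2
  by_cases ha0 : a = 0
  · refine ⟨1, Δ.one_mem, ?_, ?_⟩
    · have h1 : HM.ch (1 : SUGroup n) = 1 := by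
        have h2 := (Un.one hξ).ch hξ (n := n)
        rw [h2, (ua_one hξ).2]
        simp
      rw [h1]
      have : 1 ≤ (1 + (B + 1) ^ 2 / 8) := by
        have : 0 ≤ (B + 1) ^ 2 / 8 := by positivity
        linarith
      nlinarith
    · rw [(ua_one hξ).1, ha0]
      have h1 : herm (0 : Vec n) 0 = 0 := by rw [herm, mulVec_zero, dotProduct_zero]
      have h2 : q (0 : Vec n) = 0 := by
        rw [q, h1]
        rfl
      rw [h1, h2, Real.sqrt_zero]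
      exact le_refl _
  · have hq := hor_pos hal ha0
    obtain ⟨r, hr⟩ : ∃ r : ℝ, r = Real.sqrt (q a) := ⟨_, rfl⟩
    have hr0 : 0 < r := hr ▸ Real.sqrt_pos.2 hq
    have hr2 : r ^ 2 = q a := by rw [hr]; exact Real.sq_sqrt hq.le
    obtain ⟨t, ht⟩ : ∃ t : ℝ, t = (B + 1) / r := ⟨_, rfl⟩
    have ht0 : 0 ≤ t := by rw [ht]; positivity
    have htr : t * r = B + 1 := by rw [ht]; field_simp
    obtain ⟨y, hy, b, hb0, hb, hyb, hch⟩ := cob_ua hξ hΔ hc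
      (ζ := ((t : ℂ) * Complex.I) • a) (by rw [herm_smul_right, ha1, mul_zero])
      (by rw [herm_smul_right, ha2, mul_zero])
    refine ⟨y, hy, ?_, ?_⟩
    · have h1 : q (((t : ℂ) * Complex.I) • a) = (B + 1) ^ 2 := by
        rw [q_smul, norm_mul, Complex.norm_I, mul_one, Complex.norm_real, Real.norm_eq_abs,
          abs_of_nonneg ht0, ← hr2, ← mul_pow, htr]
      rw [h1] at hch
      exact hch
    · have h1 : ua ξ y = ((t : ℂ) * Complex.I) • a + (-1 : ℂ) • b := by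
        rw [hyb]
        module
      have h2 := hor_cauchy hal hb0
      rw [← hr] at h2
      have h3 : Real.sqrt (q b) ≤ B := by
        rw [hB]
        exact Real.sqrt_le_sqrt hb
      have h4 : |(herm a b).im| ≤ r * B :=
        (Complex.abs_im_le_norm _).trans (h2.trans (mul_le_mul_of_nonneg_left h3 hr0.le))
      rw [h1, herm_add_right, herm_smul_right, herm_smul_right, herm_self, Complex.add_im]
      have h5 : ((t : ℂ) * Complex.I * (q a : ℂ)).im = t * q a := by simp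
      have h6 : ((-1 : ℂ) * herm a b).im = -(herm a b).im := by simp
      rw [h5, h6, ← hr, ← hr2]
      have h7 := (abs_le.1 h4).2
      have h8 : t * r ^ 2 = (B + 1) * r := by rw [← htr]; ring
      rw [h8]
      linarith

/-- A vector orthogonal to `pe ξ`, `pe (-ξ)`. -/
theorem exists_hor (hn : 2 ≤ n) (ξ : Fin n → ℂ) : ∃ v : Vec n, v ≠ 0 ∧ herm (pe ξ) v = 0 ∧
    herm (pe (-ξ)) v = 0 := by
  let hL : Vec n → Vec n →ₗ[ℂ] ℂ := fun z =>
    { toFun := fun w => herm z w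
      map_add' := fun u w => herm_add_right z u w
      map_smul' := fun c w => by rw [herm_smul_right, RingHom.id_apply, smul_eq_mul] }
  have h1 : LinearMap.ker ((hL (pe ξ)).prod (hL (pe (-ξ)))) ≠ ⊥ := by
    apply LinearMap.ker_ne_bot_of_finrank_lt
    rw [Module.finrank_prod, Module.finrank_self, Module.finrank_fin_fun]
    omega
  obtain ⟨v, hv, h0⟩ := Submodule.exists_mem_ne_zero_of_ne_bot h1
  exact ⟨v, h0, congrArg Prod.fst (LinearMap.mem_ker.1 hv),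
    congrArg Prod.snd (LinearMap.mem_ker.1 hv)⟩

/-- A transvection which is a commutator. -/
theorem exists_comm_tv (hn : 2 ≤ n) (hξ : nq ξ = 1) {Δ : Subgroup (SUGroup n)}
    (hΔ : ∀ x ∈ Δ, Un ξ x) {R : ℝ} (hc : ∀ g ∈ PS ξ, ∃ δ ∈ Δ, HM.ch (δ * g) ≤ R) :
    ∃ x ∈ Δ, ∃ y ∈ Δ, ∃ κ : ℝ, IsTv ((y * x)⁻¹ * (x * y)) ξ κ := by
  obtain ⟨v, hv0, hv1, hv2⟩ := exists_hor hn ξ
  have hvl := sb_last hv1 hv2
  have hR1 : 1 ≤ R := by
    obtain ⟨δ, -, h⟩ := hc 1 (PS ξ).one_mem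
    exact (one_le_ch _).trans h
  have hq := hor_pos hvl hv0
  obtain ⟨t, ht⟩ : ∃ t : ℝ, t = Real.sqrt ((8 * R + 1) / q v) := ⟨_, rfl⟩
  obtain ⟨x, hx, b, hb0, hb, hxb, -⟩ := cob_ua hξ hΔ hc (ζ := (t : ℂ) • v)
    (by rw [herm_smul_right, hv1, mul_zero]) (by rw [herm_smul_right, hv2, mul_zero])
  have hux : ua ξ x ≠ 0 := by
    intro h
    rw [h] at hxb
    have h1 : b = (t : ℂ) • v := (sub_eq_zero.1 hxb.symm).symm
    rw [h1, q_smul, Complex.norm_real, Real.norm_eq_abs, sq_abs, ht,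
      Real.sq_sqrt (by positivity), div_mul_cancel₀ _ hq.ne'] at hb
    linarith
  obtain ⟨R', hR'⟩ := exists_im_ge hξ hΔ hc
  obtain ⟨y, hy, -, him⟩ := hR' (ua ξ x) (ua_pe hξ x) (ua_pn hξ x)
  have hqx := hor_pos (sb_last (ua_pe hξ x) (ua_pn hξ x)) hux
  have him0 : 0 < (herm (ua ξ x) (ua ξ y)).im := lt_of_lt_of_le (Real.sqrt_pos.2 hqx) him
  obtain ⟨h1, h2, h3⟩ := un_comm hξ (hΔ x hx) (hΔ y hy)
  refine ⟨x, hx, y, hy, _, tv_of_un hξ h1 h2 ?_⟩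
  intro h
  rw [h, (ua_one hξ).2] at h3
  have h4 := congrArg Complex.im h3
  simp at h4
  linarith

end Pool.Agent.Lib.MP_5d4057_al.RG
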