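import Pool.Agent.Lib.MP_5d4057_al.RG.CpD
import Pool.Agent.Lib.MP_5d4057_al.RG.SepB

/-!
# RG C1a: the line of a transvection is a cusp
-/

set_option autoImplicit false

namespace Pool.Agent.Lib.MP_5d4057_al.RG

open Matrix Filter Topology Metric Pool.Agent.Lib.MP_5d4057_al Pool.Agent.Lib.MP_5d4057_al.Hyb
  Pool.Agent.Lib.MP_5d4057_al.HM Pool.Agent.Lib.MP_5d4057_al.HM.Kak Pool.Agent.Lib.MP_5d4057_al.NU

variable {m n : ℕ}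

/-- A parabolic line with a cobounded stabiliser is a cusp. -/
theorem cusp_of_par (hm : 2 ≤ m) {Γ : Subgroup (SUGroup m)} (hd : DiscreteTopology Γ)
    {ξ : Fin m → ℂ} (hP : Par Γ ξ) {R : ℝ}
    (hc : ∀ g ∈ PS ξ, ∃ γ ∈ Γ, γ ∈ St ξ ∧ ch (γ * g) ≤ R) :
    ∃ (z : SUGroup m) (κ : ℝ), Cusp Γ ξ z κ := by
  obtain ⟨Δ, hΔ, -, hΔ1, R₂, hR₂⟩ := exists_unip hd hP hc
  have hu : ∀ x ∈ Δ, Un ξ x := fun x hx => ⟨(hΔ hx).2, hΔ1 x hx⟩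
  obtain ⟨x, hx, y, hy, κ, hκ⟩ := exists_comm_tv hm hP.1 hu hR₂
  refine ⟨(y * x)⁻¹ * (x * y), κ, hP, ⟨R, hc⟩, ?_, hκ, x, (hΔ hx).1, y, (hΔ hy).1,
    PS_le_St ξ (hΔ hx).2, PS_le_St ξ (hΔ hy).2, ?_⟩
  · exact Γ.mul_mem (Γ.inv_mem (Γ.mul_mem (hΔ hy).1 (hΔ hx).1))
      (Γ.mul_mem (hΔ hx).1 (hΔ hy).1)
  · rw [mul_inv_cancel_left]

/-- The line of a transvection of `Γ` is a cusp. PROOF: `IsTv.par`, `exists_rays`, `horo`, `exists_unip`, and the proof of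
`exists_transv` (which constructs the transvection as `(y x)⁻¹ (x y)` with `x, y ∈ Δ`; export this). -/
theorem cusp_of_tv (hm : 2 ≤ m) {Γ : Subgroup (SUGroup m)} {χ : SUGroup m → ℝ} (hL : Lat Γ χ)
    (hT : TF Γ) (hTor : Tor Γ) {γ : SUGroup m} {ξ : Fin m → ℂ} {κ : ℝ} (hγ : γ ∈ Γ)
    (h : IsTv γ ξ κ) : ∃ (z : SUGroup m) (κ' : ℝ), Cusp Γ ξ z κ' := by
  have hP : Par Γ ξ := h.par hL.disc hγ
  obtain ⟨R, X, hX⟩ := exists_rays hL hT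
  obtain ⟨R', hR'⟩ := horo hT hTor hL.disc hX hP ⟨γ, hγ, h.ne_one, h.mem_St⟩
  exact cusp_of_par hm hL.disc hP hR'

end Pool.Agent.Lib.MP_5d4057_al.RG
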