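import Mathlib.Analysis.Complex.Schwarz
import Mathlib.Analysis.Complex.RemovableSingularity
import Mathlib.Analysis.Calculus.ParametricIntervalIntegral
import Mathlib.Analysis.Analytic.Basic
import Mathlib.LinearAlgebra.FiniteDimensional.Basic
import Mathlib.Analysis.InnerProductSpace.PiL2

/-!
# RG: holomorphic maps of several variables

Complex differentiable near a point: locally Lipschitz (`holo_lip`), the derivative is locally Lipschitz
(`holo_lip_fderiv`) and again complex differentiable (`holo_fderiv`), second order expansion along a curve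
(`holo_curve`).
-/

set_option autoImplicit false

namespace Pool.Agent.Lib.MP_5d4057_al.RG

open Filter Topology Asymptotics Metric MeasureTheory

variable {E F : Type*} [NormedAddCommGroup E] [NormedSpace ℂ E] [NormedAddCommGroup F]
  [NormedSpace ℂ F]

theorem holo_lip {φ : E → F} {x₀ : E} (hφ : ∀ᶠ x in 𝓝 x₀, DifferentiableAt ℂ φ x) :
    ∃ r > 0, ∃ C, 0 ≤ C ∧ (∀ x ∈ ball x₀ r, DifferentiableAt ℂ φ x) ∧
      ∀ x ∈ ball x₀ r, ∀ y ∈ ball x₀ r, ‖φ x - φ y‖ ≤ C * ‖x - y‖ := by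
  have hc : ContinuousAt φ x₀ := hφ.self_of_nhds.continuousAt
  have hb : ∀ᶠ x in 𝓝 x₀, ‖φ x‖ ≤ ‖φ x₀‖ + 1 := by
    have h1 : ∀ᶠ x in 𝓝 x₀, ‖φ x‖ < ‖φ x₀‖ + 1 := by
      apply hc.norm.eventually_lt_const
      linarith
    exact h1.mono fun x hx => hx.le
  obtain ⟨r, hr, hball⟩ := Metric.eventually_nhds_iff_ball.1 (hφ.and hb)
  refine ⟨r / 3, by positivity, 2 * (‖φ x₀‖ + 1) / (2 * (r / 3)), by positivity, fun x hx =>
    (hball x (ball_subset_ball (by linarith) hx)).1, fun x hx y hy => ?_⟩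
  rw [mem_ball] at hx hy
  have hsub : ball x (2 * (r / 3)) ⊆ ball x₀ r := by
    intro z hz
    rw [mem_ball] at hz ⊢
    have := dist_triangle z x x₀
    linarith
  have hd : DifferentiableOn ℂ φ (ball x (2 * (r / 3))) := fun z hz =>
    (hball z (hsub hz)).1.differentiableWithinAt
  have hm : Set.MapsTo φ (ball x (2 * (r / 3))) (closedBall (φ x) (2 * (‖φ x₀‖ + 1))) := by
    intro z hz
    rw [mem_closedBall, dist_eq_norm]
    have h1 := (hball z (hsub hz)).2
    have h2 := (hball x (ball_subset_ball (by linarith) (mem_ball.2 hx))).2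
    have h3 := norm_sub_le (φ z) (φ x)
    linarith
  have hy' : y ∈ ball x (2 * (r / 3)) := by
    rw [mem_ball]
    have := dist_triangle_right y x x₀
    linarith
  have h := Complex.dist_le_div_mul_dist_of_mapsTo_ball hd hm hy'
  rw [dist_comm (φ y), dist_comm y, dist_eq_norm, dist_eq_norm] at h
  exact h

theorem holo_lip_fderiv {φ : E → F} {x₀ : E} (hφ : ∀ᶠ x in 𝓝 x₀, DifferentiableAt ℂ φ x) :
    ∃ r > 0, ∃ C, 0 ≤ C ∧
      ∀ x ∈ ball x₀ r, ∀ y ∈ ball x₀ r, ‖fderiv ℂ φ x - fderiv ℂ φ y‖ ≤ C * ‖x - y‖ := by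
  obtain ⟨r, hr, C, hC, hd, hl⟩ := holo_lip hφ
  refine ⟨r / 2, by positivity, 2 * C / (r / 2), by positivity, fun x hx y hy => ?_⟩
  rw [mem_ball] at hx hy
  have hs1 : ball y (r / 2) ⊆ ball x₀ r := by
    intro z hz
    rw [mem_ball] at hz ⊢
    have := dist_triangle z y x₀
    linarith
  have hs2 : ∀ z ∈ ball y (r / 2), z + (x - y) ∈ ball x₀ r := by
    intro z hz
    rw [mem_ball, dist_eq_norm] at hz ⊢
    rw [dist_eq_norm] at hx
    have h1 : z + (x - y) - x₀ = (z - y) + (x - x₀) := by abel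
    rw [h1]
    have := norm_add_le (z - y) (x - x₀)
    linarith
  have hd1 : ∀ z ∈ ball y (r / 2), HasFDerivAt (fun z => φ (z + (x - y)) - φ z)
      (fderiv ℂ φ (z + (x - y)) - fderiv ℂ φ z) z := by
    intro z hz
    have h1 := (hd _ (hs2 z hz)).hasFDerivAt
    have h2 := (hd _ (hs1 hz)).hasFDerivAt
    have h3 : HasFDerivAt (fun z => φ (z + (x - y))) (fderiv ℂ φ (z + (x - y))) z := by
      have := h1.comp z ((hasFDerivAt_id z).add_const (x - y))
      simpa [Function.comp_def] using this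
    exact h3.sub h2
  have hm : Set.MapsTo (fun z => φ (z + (x - y)) - φ z) (ball y (r / 2))
      (closedBall (φ (y + (x - y)) - φ y) (2 * C * ‖x - y‖)) := by
    intro z hz
    rw [mem_closedBall, dist_eq_norm]
    have h1 := hl _ (hs2 z hz) _ (hs1 hz)
    have h2 := hl _ (hs2 y (mem_ball_self (by positivity))) _ (hs1 (mem_ball_self (by positivity)))
    have h3 := norm_sub_le (φ (z + (x - y)) - φ z) (φ (y + (x - y)) - φ y)
    have e1 : z + (x - y) - z = x - y := by abel
    have e2 : y + (x - y) - y = x - y := by abel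
    rw [e1] at h1
    rw [e2] at h2
    linarith
  have h := Complex.norm_fderiv_le_div_of_mapsTo_ball
    (fun z hz => (hd1 z hz).differentiableAt.differentiableWithinAt) hm (by positivity)
  rw [(hd1 y (mem_ball_self (by positivity))).fderiv] at h
  have e : y + (x - y) = x := by abel
  rw [e] at h
  refine h.trans (le_of_eq ?_)
  ring

theorem holo_dir [CompleteSpace F] {φ : E → F} {x₀ : E}
    (hφ : ∀ᶠ x in 𝓝 x₀, DifferentiableAt ℂ φ x) (w : E) :
    DifferentiableAt ℂ (fun x => fderiv ℂ φ x w) x₀ := by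
  obtain ⟨r₁, hr₁, C, hC, hd, hl⟩ := holo_lip hφ
  obtain ⟨r₂, hr₂, C₂, hC₂, hl₂⟩ := holo_lip_fderiv hφ
  set r := min r₁ r₂ with hrdef
  have hr : 0 < r := lt_min hr₁ hr₂
  set ρ := r / (2 * (‖w‖ + 1)) with hρdef
  have hw0 : 0 ≤ ‖w‖ := norm_nonneg w
  have hρ : 0 < ρ := by positivity
  have hρw : ρ * ‖w‖ < r / 2 := by
    rw [hρdef, div_mul_eq_mul_div, div_lt_div_iff₀ (by positivity) (by positivity)]
    nlinarith
  have hin : ∀ x ∈ ball x₀ (r / 2), ∀ ζ : ℂ, ‖ζ‖ ≤ ρ → x + ζ • w ∈ ball x₀ r := by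
    intro x hx ζ hζ
    rw [mem_ball, dist_eq_norm] at hx ⊢
    have h1 : x + ζ • w - x₀ = (x - x₀) + ζ • w := by abel
    rw [h1]
    have h2 := norm_add_le (x - x₀) (ζ • w)
    rw [norm_smul] at h2
    have h3 : ‖ζ‖ * ‖w‖ ≤ ρ * ‖w‖ := mul_le_mul_of_nonneg_right hζ hw0
    linarith
  have hin1 : ball x₀ r ⊆ ball x₀ r₁ := ball_subset_ball (min_le_left _ _)
  have hin2 : ball x₀ r ⊆ ball x₀ r₂ := ball_subset_ball (min_le_right _ _)
  have hcm : ∀ θ : ℝ, ‖circleMap 0 ρ θ‖ ≤ ρ := fun θ => by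
    rw [norm_circleMap_zero, abs_of_pos hρ]
  set K : ℝ → ℂ := fun θ => deriv (circleMap 0 ρ) θ * ((circleMap 0 ρ θ - 0) ^ 2)⁻¹ with hK
  have hKc : Continuous K := by
    have h1 : Continuous (fun θ : ℝ => deriv (circleMap 0 ρ) θ) := by
      have : deriv (circleMap 0 ρ) = fun θ => circleMap 0 ρ θ * Complex.I := by
        funext θ
        exact deriv_circleMap 0 ρ θ
      rw [this]
      exact (continuous_circleMap 0 ρ).mul continuous_const
    refine h1.mul (Continuous.inv₀ ?_ ?_)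
    · exact ((continuous_circleMap 0 ρ).sub continuous_const).pow 2
    · intro θ
      rw [sub_zero]
      exact pow_ne_zero _ (circleMap_ne_center hρ.ne')
  have hKn : ∀ θ, ‖K θ‖ ≤ 1 / ρ := by
    intro θ
    simp only [hK, deriv_circleMap, norm_mul, Complex.norm_I, mul_one, sub_zero, norm_inv,
      norm_pow, norm_circleMap_zero, abs_of_pos hρ]
    apply le_of_eq
    field_simp
  -- the Cauchy formula
  have hcauchy : ∀ x ∈ ball x₀ (r / 2), fderiv ℂ φ x w =
      (2 * Real.pi * Complex.I : ℂ)⁻¹ • ∫ θ in (0)..(2 * Real.pi),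
        K θ • φ (x + circleMap 0 ρ θ • w) := by
    intro x hx
    have hU : IsOpen {ζ : ℂ | x + ζ • w ∈ ball x₀ r} := by
      apply isOpen_ball.preimage
      fun_prop
    have hder : ∀ ζ ∈ {ζ : ℂ | x + ζ • w ∈ ball x₀ r},
        HasDerivAt (fun ζ : ℂ => φ (x + ζ • w)) (fderiv ℂ φ (x + ζ • w) w) ζ := by
      intro ζ hζ
      have h1 := (hd _ (hin1 hζ)).hasFDerivAt
      have h2 : HasDerivAt (fun ζ : ℂ => x + ζ • w) w ζ := by
        have := ((hasDerivAt_id ζ).smul_const w).const_add x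
        simpa using this
      exact h1.comp_hasDerivAt ζ h2
    have h3 := Complex.two_pi_I_inv_smul_circleIntegral_sub_sq_inv_smul_of_differentiable hU
      (c := 0) (R := ρ) (w₀ := 0) (f := fun ζ : ℂ => φ (x + ζ • w))
      (fun ζ hζ => hin x hx ζ (by simpa using hζ))
      (fun ζ hζ => (hder ζ hζ).differentiableAt.differentiableWithinAt)
      (mem_ball_self hρ)
    have h4 : deriv (fun ζ : ℂ => φ (x + ζ • w)) 0 = fderiv ℂ φ x w := by
      have := (hder 0 (hin x hx 0 (by simpa using hρ.le))).deriv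
      simpa using this
    rw [← h4, ← h3]
    simp only [circleIntegral, smul_smul, hK]
  have hev : (fun x => fderiv ℂ φ x w) =ᶠ[𝓝 x₀] fun x =>
      (2 * Real.pi * Complex.I : ℂ)⁻¹ • ∫ θ in (0)..(2 * Real.pi),
        K θ • φ (x + circleMap 0 ρ θ • w) := by
    filter_upwards [ball_mem_nhds x₀ (half_pos hr)] with x hx using hcauchy x hx
  have hφc : ContinuousOn φ (ball x₀ r) := fun x hx =>
    (hd x (hin1 hx)).continuousAt.continuousWithinAt
  have hFc : ∀ x ∈ ball x₀ (r / 2), Continuous fun θ : ℝ => K θ • φ (x + circleMap 0 ρ θ • w) := by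
    intro x hx
    refine hKc.smul ?_
    refine hφc.comp_continuous ?_ fun θ => hin x hx _ (hcm θ)
    exact continuous_const.add ((continuous_circleMap 0 ρ).smul continuous_const)
  have hGc : ContinuousOn (fderiv ℂ φ) (ball x₀ r) := by
    have : LipschitzOnWith (Real.toNNReal C₂) (fderiv ℂ φ) (ball x₀ r) := by
      apply LipschitzOnWith.of_dist_le_mul
      intro x hx y hy
      rw [dist_eq_norm, dist_eq_norm, Real.coe_toNNReal _ hC₂]
      exact hl₂ x (hin2 hx) y (hin2 hy)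
    exact this.continuousOn
  have hx₀ : x₀ ∈ ball x₀ (r / 2) := mem_ball_self (half_pos hr)
  have key := intervalIntegral.hasFDerivAt_integral_of_dominated_loc_of_lip (𝕜 := ℂ)
    (μ := volume) (a := 0) (b := 2 * Real.pi)
    (F := fun (x : E) (θ : ℝ) => K θ • φ (x + circleMap 0 ρ θ • w))
    (F' := fun θ : ℝ => K θ • fderiv ℂ φ (x₀ + circleMap 0 ρ θ • w)) (x₀ := x₀)
    (bound := fun _ => 1 / ρ * C)
    (ball_mem_nhds x₀ (half_pos hr))
    (by
      filter_upwards [ball_mem_nhds x₀ (half_pos hr)] with x hx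
      exact (hFc x hx).aestronglyMeasurable)
    ((hFc x₀ hx₀).intervalIntegrable _ _)
    (by
      apply Continuous.aestronglyMeasurable
      refine hKc.smul ?_
      refine hGc.comp_continuous ?_ fun θ => hin x₀ hx₀ _ (hcm θ)
      exact continuous_const.add ((continuous_circleMap 0 ρ).smul continuous_const))
    (by
      refine Eventually.of_forall fun θ _ => ?_
      apply LipschitzOnWith.of_dist_le_mul
      intro x hx y hy
      have h0 : (0 : ℝ) ≤ 1 / ρ * C := by positivity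
      rw [dist_eq_norm, dist_eq_norm, ← smul_sub, norm_smul, Real.coe_nnabs, abs_of_nonneg h0]
      have h1 := hl _ (hin1 (hin x hx _ (hcm θ))) _ (hin1 (hin y hy _ (hcm θ)))
      have e1 : x + circleMap 0 ρ θ • w - (y + circleMap 0 ρ θ • w) = x - y := by abel
      rw [e1] at h1
      calc ‖K θ‖ * ‖φ (x + circleMap 0 ρ θ • w) - φ (y + circleMap 0 ρ θ • w)‖
          ≤ 1 / ρ * (C * ‖x - y‖) := mul_le_mul (hKn θ) h1 (norm_nonneg _) (by positivity)
        _ = 1 / ρ * C * ‖x - y‖ := by ring)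
    intervalIntegrable_const
    (by
      refine Eventually.of_forall fun θ _ => ?_
      have h1 := (hd _ (hin1 (hin x₀ hx₀ _ (hcm θ)))).hasFDerivAt
      have h3 : HasFDerivAt (fun x => φ (x + circleMap 0 ρ θ • w))
          (fderiv ℂ φ (x₀ + circleMap 0 ρ θ • w)) x₀ := by
        have := h1.comp x₀ ((hasFDerivAt_id x₀).add_const (circleMap 0 ρ θ • w))
        simpa [Function.comp_def] using this
      exact h3.const_smul _)
  exact ((key.2.differentiableAt).const_smul _).congr_of_eventuallyEq hev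

theorem holo_fderiv_at [CompleteSpace F] [FiniteDimensional ℂ E] {φ : E → F} {x₀ : E}
    (hφ : ∀ᶠ x in 𝓝 x₀, DifferentiableAt ℂ φ x) :
    DifferentiableAt ℂ (fderiv ℂ φ) x₀ := by
  set b := Module.finBasis ℂ E with hb
  have h1 : (fderiv ℂ φ) = fun x => ∑ i, ContinuousLinearMap.smulRightL ℂ E F
      (LinearMap.toContinuousLinearMap (b.coord i)) (fderiv ℂ φ x (b i)) := by
    funext x
    apply ContinuousLinearMap.coe_injective
    apply b.ext
    intro j
    simp [Finsupp.single_apply]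
  rw [h1]
  apply DifferentiableAt.fun_sum
  intro i _
  exact (ContinuousLinearMap.differentiableAt _).comp x₀ (holo_dir hφ (b i))

/-- The derivative of a holomorphic map is holomorphic. -/
theorem holo_fderiv [CompleteSpace F] [FiniteDimensional ℂ E] {φ : E → F} {U : Set E}
    (hU : IsOpen U) (hφ : DifferentiableOn ℂ φ U) : DifferentiableOn ℂ (fderiv ℂ φ) U := by
  intro x hx
  refine (holo_fderiv_at ?_).differentiableWithinAt
  filter_upwards [hU.mem_nhds hx] with y hy using (hφ y hy).differentiableAt (hU.mem_nhds hy)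

theorem holo_fderiv_ev [CompleteSpace F] [FiniteDimensional ℂ E] {φ : E → F} {x₀ : E}
    (hφ : ∀ᶠ x in 𝓝 x₀, DifferentiableAt ℂ φ x) :
    ∀ᶠ x in 𝓝 x₀, DifferentiableAt ℂ (fderiv ℂ φ) x :=
  hφ.eventually_nhds.mono fun _ hx => holo_fderiv_at hx

/-- Holomorphic maps along a curve. -/
theorem holo_curve [CompleteSpace F] {φ : E → F} {x₀ x₁ x₂ : E} {x : ℂ → E}
    (hφ : ∀ᶠ y in 𝓝 x₀, DifferentiableAt ℂ φ y)
    (hx : (fun s : ℂ => x s - (x₀ + s • x₁ + s ^ 2 • x₂)) =O[𝓝 0] fun s : ℂ => ‖s‖ ^ 3) :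
    ∃ c : F, (fun s : ℂ => φ (x s) - (φ x₀ + s • fderiv ℂ φ x₀ x₁ + s ^ 2 • c)) =O[𝓝 0]
      fun s : ℂ => ‖s‖ ^ 3 := by
  set p : ℂ → E := fun s => x₀ + s • x₁ + s ^ 2 • x₂ with hp
  have hp0 : p 0 = x₀ := by simp [hp]
  have hpd : ∀ s, HasDerivAt p (x₁ + (2 * s) • x₂) s := by
    intro s
    have h1 : HasDerivAt (fun s : ℂ => s • x₁) x₁ s := by
      simpa using (hasDerivAt_id s).smul_const x₁
    have h2 : HasDerivAt (fun s : ℂ => s ^ 2 • x₂) ((2 * s) • x₂) s := by
      have := (hasDerivAt_pow 2 s).smul_const x₂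
      simpa using this
    exact (h1.const_add x₀).add h2
  have hpc : Tendsto p (𝓝 0) (𝓝 x₀) := by
    have := (hpd 0).continuousAt.tendsto
    rwa [hp0] at this
  have hg : ∀ᶠ s in 𝓝 (0 : ℂ), DifferentiableAt ℂ (fun s => φ (p s)) s := by
    filter_upwards [hpc.eventually hφ] with s hs
    exact hs.comp s (hpd s).differentiableAt
  have hga : AnalyticAt ℂ (fun s => φ (p s)) 0 := Complex.analyticAt_iff_eventually_differentiableAt.2 hg
  obtain ⟨P, hP⟩ := hga
  have h3 := hP.isBigO_sub_partialSum_pow 3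
  refine ⟨P.coeff 2, ?_⟩
  have hg0 : φ (p 0) = φ x₀ := by rw [hp0]
  have hc0 : P.coeff 0 = φ x₀ := by
    rw [← hg0]
    exact hP.coeff_zero 1
  have hc1 : P.coeff 1 = fderiv ℂ φ x₀ x₁ := by
    have h1 : HasDerivAt (fun s => φ (p s)) (fderiv ℂ φ (p 0) (x₁ + (2 * (0 : ℂ)) • x₂)) 0 := by
      have h2 : HasFDerivAt φ (fderiv ℂ φ (p 0)) (p 0) := by
        rw [hp0]
        exact hφ.self_of_nhds.hasFDerivAt
      exact h2.comp_hasDerivAt 0 (hpd 0)
    have h3 := hP.deriv
    rw [h1.deriv, hp0, mul_zero, zero_smul, add_zero] at h3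
    exact h3.symm
  have hsum : ∀ y : ℂ, P.partialSum 3 y = φ x₀ + y • fderiv ℂ φ x₀ x₁ + y ^ 2 • P.coeff 2 := by
    intro y
    rw [FormalMultilinearSeries.partialSum, Finset.sum_range_succ, Finset.sum_range_succ,
      Finset.sum_range_succ, Finset.sum_range_zero, zero_add]
    simp only [FormalMultilinearSeries.apply_eq_pow_smul_coeff, pow_zero, one_smul, pow_one, hc0,
      hc1]
  obtain ⟨r, hr, C, hC, hd, hl⟩ := holo_lip hφ
  have hs3 : Tendsto (fun s : ℂ => ‖s‖ ^ 3) (𝓝 0) (𝓝 0) := by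
    have : Tendsto (fun s : ℂ => ‖s‖ ^ 3) (𝓝 0) (𝓝 (‖(0 : ℂ)‖ ^ 3)) :=
      (continuous_norm.pow 3).continuousAt.tendsto
    simpa using this
  have hxc : Tendsto x (𝓝 0) (𝓝 x₀) := by
    have h1 : Tendsto (fun s => x s - p s) (𝓝 0) (𝓝 0) := hx.trans_tendsto hs3
    have h2 := h1.add hpc
    simpa using h2
  have h4 : (fun s => φ (x s) - φ (p s)) =O[𝓝 0] fun s : ℂ => ‖s‖ ^ 3 := by
    refine (IsBigO.of_bound C ?_).trans hx
    filter_upwards [hxc.eventually (ball_mem_nhds x₀ hr), hpc.eventually (ball_mem_nhds x₀ hr)]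
      with s h5 h6
    exact hl _ h5 _ h6
  have h5 : (fun s => φ (p s) - P.partialSum 3 s) =O[𝓝 0] fun s : ℂ => ‖s‖ ^ 3 := by
    simpa using h3
  refine (h4.add h5).congr_left fun s => ?_
  rw [hsum s]
  abel

end Pool.Agent.Lib.MP_5d4057_al.RG
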