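import Pool.Agent.Lib.MP_5d4057_al.RG.Jet
import Pool.Agent.Lib.MP_5d4057_al.RG.Holo

/-!
# RG: holomorphic maps of several variables along curves, for the predicate `Cv`

`Cv.compH`, `Cv.comp_fderivH`: as `Cv.comp`, `Cv.comp_fderiv` with the hypothesis that `φ` is complex differentiable
near the point.
-/

set_option autoImplicit false

namespace Pool.Agent.Lib.MP_5d4057_al.RG

open Filter Topology Asymptotics

variable {E : Type} [NormedAddCommGroup E] [InnerProductSpace ℂ E]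

/-- Holomorphic maps along a curve. -/
theorem Cv.compH {E' : Type} [NormedAddCommGroup E'] [InnerProductSpace ℂ E'] [CompleteSpace E']
    {x : ℂ → E} {x₀ x₁ : E} (hx : Cv x x₀ x₁) {φ : E → E'}
    (hφ : ∀ᶠ y in 𝓝 x₀, DifferentiableAt ℂ φ y) :
    Cv (fun s => φ (x s)) (φ x₀) (fderiv ℂ φ x₀ x₁) := by
  obtain ⟨x₂, hx₂⟩ := hx
  exact holo_curve hφ hx₂

/-- The derivative of a holomorphic map along a curve, applied to a curve. -/
theorem Cv.comp_fderivH {E' : Type} [NormedAddCommGroup E'] [InnerProductSpace ℂ E']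
    [CompleteSpace E'] [FiniteDimensional ℂ E]
    {x V : ℂ → E} {x₀ x₁ V₀ V₁ : E} (hx : Cv x x₀ x₁) (hV : Cv V V₀ V₁) {φ : E → E'}
    (hφ : ∀ᶠ y in 𝓝 x₀, DifferentiableAt ℂ φ y) :
    Cv (fun s => fderiv ℂ φ (x s) (V s)) (fderiv ℂ φ x₀ V₀)
      (fderiv ℂ (fderiv ℂ φ) x₀ x₁ V₀ + fderiv ℂ φ x₀ V₁) := by
  obtain ⟨x₂, hx₂⟩ := hx
  obtain ⟨V₂, hV₂⟩ := hV
  obtain ⟨A₂, hA₂⟩ := holo_curve (holo_fderiv_ev hφ) hx₂
  set A₀ := fderiv ℂ φ x₀ with hA₀
  set A₁ := fderiv ℂ (fderiv ℂ φ) x₀ x₁ with hA₁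
  set P : ℂ → (E →L[ℂ] E') := fun s => A₀ + s • A₁ + s ^ 2 • A₂ with hP
  set Q : ℂ → E := fun s => V₀ + s • V₁ + s ^ 2 • V₂ with hQ
  have hone : (fun s : ℂ => ‖s‖ ^ 3) =O[𝓝 0] fun _ : ℂ => (1 : ℝ) := by
    have : ContinuousAt (fun s : ℂ => ‖s‖ ^ 3) 0 := (continuous_norm.pow 3).continuousAt
    exact this.isBigO_one ℝ
  have hP1 : P =O[𝓝 0] fun _ : ℂ => (1 : ℝ) := by
    have : ContinuousAt P 0 := by
      apply Continuous.continuousAt
      fun_prop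
    exact this.isBigO_one ℝ
  have hQ1 : Q =O[𝓝 0] fun _ : ℂ => (1 : ℝ) := by
    have : ContinuousAt Q 0 := by
      apply Continuous.continuousAt
      fun_prop
    exact this.isBigO_one ℝ
  have hV1 : V =O[𝓝 0] fun _ : ℂ => (1 : ℝ) := by
    have := (hV₂.trans hone).add hQ1
    refine this.congr_left fun s => ?_
    simp [hQ]
  have hap : ∀ {B : ℂ → (E →L[ℂ] E')} {W : ℂ → E} {g h : ℂ → ℝ}, B =O[𝓝 0] g → W =O[𝓝 0] h →
      (fun s => B s (W s)) =O[𝓝 0] fun s => g s * h s := by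
    intro B W g h hB hW
    refine (IsBigO.of_bound 1 (Eventually.of_forall fun s => ?_)).trans (hB.norm_left.mul hW.norm_left)
    rw [one_mul, norm_mul, norm_norm, norm_norm]
    exact (B s).le_opNorm (W s)
  have h1 : (fun s => (fderiv ℂ φ (x s) - P s) (V s)) =O[𝓝 0] fun s : ℂ => ‖s‖ ^ 3 := by
    exact (hap hA₂ hV1).congr_right fun s => mul_one _
  have h2 : (fun s => P s (V s - Q s)) =O[𝓝 0] fun s : ℂ => ‖s‖ ^ 3 := by
    exact (hap hP1 hV₂).congr_right fun s => one_mul _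
  have h3 : (fun s : ℂ => s ^ 3 • (A₁ V₂ + A₂ V₁ + s • A₂ V₂)) =O[𝓝 0] fun s : ℂ => ‖s‖ ^ 3 := by
    have h4 : (fun s : ℂ => A₁ V₂ + A₂ V₁ + s • A₂ V₂) =O[𝓝 0] fun _ : ℂ => (1 : ℝ) := by
      have : ContinuousAt (fun s : ℂ => A₁ V₂ + A₂ V₁ + s • A₂ V₂) 0 := by
        apply Continuous.continuousAt
        fun_prop
      exact this.isBigO_one ℝ
    have h5 : (fun s : ℂ => s ^ 3) =O[𝓝 0] fun s : ℂ => ‖s‖ ^ 3 := by
      refine IsBigO.of_bound 1 (Eventually.of_forall fun s => ?_)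
      simp
    simpa using h5.smul h4
  refine ⟨A₁ V₁ + A₂ V₀ + A₀ V₂, ((h1.add h2).add h3).congr_left fun s => ?_⟩
  simp only [hP, hQ, sub_apply, add_apply, smul_apply, map_add, map_sub, map_smul, smul_add, smul_smul]
  have e1 : s ^ 3 • A₁ V₂ = s • (s ^ 2 • A₁ V₂) := by rw [smul_smul]; congr 1; ring
  have e2 : s ^ 3 • A₂ V₁ = s ^ 2 • (s • A₂ V₁) := by rw [smul_smul]; congr 1
  module

end Pool.Agent.Lib.MP_5d4057_al.RG
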