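import Pool.Agent.Lib.MP_5d4057_al.RG.BallD
import Pool.Agent.Lib.MP_5d4057_al.RG.CvH

/-!
# RG G6.1: the jet of `log nb` along a curve

`log nb = log (‖V‖² (1-‖x‖²) + ‖⟪x,V⟫‖²) - 2 log (1-‖x‖²)`: `Cv.normSq`, `Cv.innerSq` with `c = 0` (the value and the
first coefficient vanish, the second is `‖⟪x₀,V₁⟫‖² + ‖⟪x₁,V₀⟫‖²` because `⟪x₀,V₀⟫ = 0`), `Jet2.mul`, `Jet2.log`.
-/

set_option autoImplicit false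

namespace Pool.Agent.Lib.MP_5d4057_al.RG

open Filter Topology Asymptotics Metric

open scoped InnerProductSpace

variable {m n k : ℕ}

private theorem ba_den {z : E k} (hz : ‖z‖ < 1) : 0 < 1 - ‖z‖ ^ 2 := by
  have := norm_nonneg z
  nlinarith

theorem nb_nonneg {z : E k} (ξ : E k) : 0 ≤ nb z ξ ∨ 1 ≤ ‖z‖ := by
  by_cases h : ‖z‖ < 1
  · left
    have := ba_den h
    unfold nb
    positivity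
  · right
    exact not_lt.1 h

theorem nb_pos {z ξ : E k} (hz : ‖z‖ < 1) (hξ : ξ ≠ 0) : 0 < nb z ξ := by
  have h1 := ba_den hz
  have h2 : 0 < ‖ξ‖ := norm_pos_iff.2 hξ
  unfold nb
  positivity

theorem nb_zero (ξ : E k) : nb 0 ξ = ‖ξ‖ ^ 2 := by
  simp [nb]

theorem nb_smul (z ξ : E k) (c : ℂ) : nb z (c • ξ) = ‖c‖ ^ 2 * nb z ξ := by
  unfold nb
  rw [inner_smul_right, norm_smul, norm_mul]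
  ring

/-- At a point `z` orthogonal to the vector. -/
theorem nb_orth {z ξ : E k} (hz : ‖z‖ < 1) (h : ⟪z, ξ⟫_ℂ = 0) : nb z ξ = ‖ξ‖ ^ 2 / (1 - ‖z‖ ^ 2) := by
  have h1 := ba_den hz
  unfold nb
  rw [h]
  field_simp
  simp

private theorem ba_cube : Tendsto (fun s : ℂ => ‖s‖ ^ 3) (𝓝 0) (𝓝 0) := by
  have : Continuous fun s : ℂ => ‖s‖ ^ 3 := by fun_prop
  simpa using this.tendsto 0

private theorem ba_tendsto {x : ℂ → E k} {x₀ x₁ : E k} (hx : Cv x x₀ x₁) :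
    Tendsto x (𝓝 0) (𝓝 x₀) := by
  obtain ⟨x₂, h⟩ := hx
  have h1 := h.trans_tendsto ba_cube
  have h2 : Tendsto (fun s : ℂ => x₀ + s • x₁ + s ^ 2 • x₂) (𝓝 0) (𝓝 x₀) := by
    have : Continuous fun s : ℂ => x₀ + s • x₁ + s ^ 2 • x₂ := by fun_prop
    simpa using this.tendsto 0
  have h3 := h1.add h2
  simpa using h3

theorem jet_nb {x V : ℂ → E k} {x₀ x₁ V₀ V₁ : E k} (hx : Cv x x₀ x₁) (hV : Cv V V₀ V₁)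
    (h0 : ‖x₀‖ < 1) (hV0 : V₀ ≠ 0) (h1 : ⟪x₀, V₀⟫_ℂ = 0) (h2 : ⟪x₀, x₁⟫_ℂ = 0) :
    Jet2 (fun s => Real.log (nb (x s) (V s))) (Real.log (nb x₀ V₀)) (⟪V₀, V₁⟫_ℂ / (‖V₀‖ ^ 2 : ℝ))
      (‖V₁‖ ^ 2 / ‖V₀‖ ^ 2 - ‖⟪V₀, V₁⟫_ℂ‖ ^ 2 / ‖V₀‖ ^ 4 + ‖x₁‖ ^ 2 / (1 - ‖x₀‖ ^ 2) +
        (‖⟪x₀, V₁⟫_ℂ‖ ^ 2 + ‖⟪x₁, V₀⟫_ℂ‖ ^ 2) / ((1 - ‖x₀‖ ^ 2) * ‖V₀‖ ^ 2)) := by
  have hD : 0 < 1 - ‖x₀‖ ^ 2 := ba_den h0
  have hV0' : 0 < ‖V₀‖ := norm_pos_iff.2 hV0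
  have hN := (Jet2.const 1).sub hx.normSq
  have hI := hx.innerSq hV 0
  have hS := (hV.normSq.mul hN).add hI
  have hvS : ‖V₀‖ ^ 2 * (1 - ‖x₀‖ ^ 2) + ‖(0 : ℂ) - ⟪x₀, V₀⟫_ℂ‖ ^ 2 =
      ‖V₀‖ ^ 2 * (1 - ‖x₀‖ ^ 2) := by
    rw [h1]
    simp
  have hlS := hS.log (by rw [hvS]; positivity)
  have hlN := hN.log hD
  have h := hlS.sub (hlN.smul 2)
  have hxt := ba_tendsto hx
  have hVt := ba_tendsto hV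
  have e1 : ∀ᶠ s in 𝓝 (0 : ℂ), ‖x s‖ < 1 := hxt.norm.eventually (gt_mem_nhds h0)
  have e2 : ∀ᶠ s in 𝓝 (0 : ℂ), V s ≠ 0 := hVt.eventually_ne hV0
  have h3 := h.congr (h' := fun s => Real.log (nb (x s) (V s))) (by
    filter_upwards [e1, e2] with s s1 s2
    have d1 := ba_den s1
    have d2 : 0 < ‖V s‖ := norm_pos_iff.2 s2
    have d3 : 0 < ‖V s‖ ^ 2 * (1 - ‖x s‖ ^ 2) + ‖⟪x s, V s⟫_ℂ‖ ^ 2 := by positivity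
    have d4 : ‖(0 : ℂ) - ⟪x s, V s⟫_ℂ‖ ^ 2 = ‖⟪x s, V s⟫_ℂ‖ ^ 2 := by
      rw [zero_sub, norm_neg]
    rw [nb, Real.log_div d3.ne' (by positivity), Real.log_pow, d4]
    push_cast
    ring)
  have hv : Real.log (‖V₀‖ ^ 2 * (1 - ‖x₀‖ ^ 2) + ‖(0 : ℂ) - ⟪x₀, V₀⟫_ℂ‖ ^ 2) -
      2 * Real.log (1 - ‖x₀‖ ^ 2) = Real.log (nb x₀ V₀) := by
    rw [nb_orth h0 h1, hvS, Real.log_div (by positivity) hD.ne',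
      Real.log_mul (by positivity) hD.ne']
    ring
  rw [hv] at h3
  have hal : ∀ {a b : ℂ} {c d : ℝ}, Jet2 (fun s => Real.log (nb (x s) (V s)))
      (Real.log (nb x₀ V₀)) a c → a = b → c = d →
      Jet2 (fun s => Real.log (nb (x s) (V s))) (Real.log (nb x₀ V₀)) b d := by
    rintro a b c d hh rfl rfl
    exact hh
  refine hal h3 ?_ ?_
  · rw [hvS, h1, h2]
    have c1 : ((‖V₀‖ ^ 2 : ℝ) : ℂ) ≠ 0 := by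
      exact_mod_cast (by positivity : (‖V₀‖ ^ 2 : ℝ) ≠ 0)
    have c2 : ((1 - ‖x₀‖ ^ 2 : ℝ) : ℂ) ≠ 0 := by
      exact_mod_cast hD.ne'
    simp only [sub_zero, star_zero, zero_mul, mul_zero, neg_zero, add_zero, zero_div,
      Complex.ofReal_mul, zero_add]
    field_simp
  · rw [hvS, h1, h2]
    simp only [sub_zero, star_zero, zero_mul, mul_zero, add_zero,
      zero_add, Complex.zero_re, zero_sub, norm_zero, neg_zero]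
    have c3 : ‖((1 - ‖x₀‖ ^ 2 : ℝ) : ℂ) * ⟪V₀, V₁⟫_ℂ‖ = (1 - ‖x₀‖ ^ 2) * ‖⟪V₀, V₁⟫_ℂ‖ := by
      rw [norm_mul, Complex.norm_real, Real.norm_of_nonneg hD.le]
    rw [c3]
    field_simp
    ring

/-- The comparison at a minimum: along `x s = x₀ + s x₁`, `V s = V₀ + s V₁` the function
`log nb (φ x) (φ'(x) V) - log nb x V ≥ log μ` has a minimum at `s = 0` if equality holds there. -/
theorem Mn.compare {φ : E m → E n} {μ : ℝ} {e : E m} (h : Mn φ μ e) {x₀ x₁ V₀ V₁ : E m}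
    (h0 : ‖x₀‖ < 1) (hV0 : V₀ ≠ 0) (h1 : ⟪x₀, V₀⟫_ℂ = 0) (h2 : ⟪x₀, x₁⟫_ℂ = 0)
    (h1' : ⟪φ x₀, fderiv ℂ φ x₀ V₀⟫_ℂ = 0) (h2' : ⟪φ x₀, fderiv ℂ φ x₀ x₁⟫_ℂ = 0)
    (heq : nb (φ x₀) (fderiv ℂ φ x₀ V₀) = μ * nb x₀ V₀) {V₁' : E n}
    (hV1 : V₁' = fderiv ℂ (fderiv ℂ φ) x₀ x₁ V₀ + fderiv ℂ φ x₀ V₁) :
    ⟪fderiv ℂ φ x₀ V₀, V₁'⟫_ℂ / (‖fderiv ℂ φ x₀ V₀‖ ^ 2 : ℝ) = ⟪V₀, V₁⟫_ℂ / (‖V₀‖ ^ 2 : ℝ) ∧
      ‖V₁‖ ^ 2 / ‖V₀‖ ^ 2 - ‖⟪V₀, V₁⟫_ℂ‖ ^ 2 / ‖V₀‖ ^ 4 + ‖x₁‖ ^ 2 / (1 - ‖x₀‖ ^ 2) +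
        (‖⟪x₀, V₁⟫_ℂ‖ ^ 2 + ‖⟪x₁, V₀⟫_ℂ‖ ^ 2) / ((1 - ‖x₀‖ ^ 2) * ‖V₀‖ ^ 2) ≤
      ‖V₁'‖ ^ 2 / ‖fderiv ℂ φ x₀ V₀‖ ^ 2 - ‖⟪fderiv ℂ φ x₀ V₀, V₁'⟫_ℂ‖ ^ 2 /
          ‖fderiv ℂ φ x₀ V₀‖ ^ 4 + ‖fderiv ℂ φ x₀ x₁‖ ^ 2 / (1 - ‖φ x₀‖ ^ 2) +
        (‖⟪φ x₀, V₁'⟫_ℂ‖ ^ 2 + ‖⟪fderiv ℂ φ x₀ x₁, fderiv ℂ φ x₀ V₀⟫_ℂ‖ ^ 2) /
          ((1 - ‖φ x₀‖ ^ 2) * ‖fderiv ℂ φ x₀ V₀‖ ^ 2) := by
  have hev : ∀ᶠ y in 𝓝 x₀, DifferentiableAt ℂ φ y := by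
    have : ball (0 : E m) 1 ∈ 𝓝 x₀ := isOpen_ball.mem_nhds (by simpa using h0)
    filter_upwards [this] with y hy
    exact (h.diff y hy).differentiableAt (isOpen_ball.mem_nhds hy)
  have hx := Cv.affine x₀ x₁
  have hV := Cv.affine V₀ V₁
  have hx' := hx.compH hev
  have hV' := hx.comp_fderivH hV hev
  rw [← hV1] at hV'
  have hφ0 : ‖φ x₀‖ < 1 := by
    have := h.maps (by simpa using h0 : x₀ ∈ ball (0 : E m) 1)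
    simpa using this
  have hnb : 0 < nb x₀ V₀ := nb_pos h0 hV0
  have hφV : fderiv ℂ φ x₀ V₀ ≠ 0 := by
    intro h3
    rw [h3] at heq
    have h4 : nb (φ x₀) (0 : E n) = 0 := by simp [nb]
    rw [h4] at heq
    have := mul_pos h.pos hnb
    linarith
  have j1 := jet_nb hx hV h0 hV0 h1 h2
  have j2 := jet_nb hx' hV' hφ0 hφV h1' h2'
  have hxt := ba_tendsto hx
  have hVt := ba_tendsto hV
  have e1 : ∀ᶠ s in 𝓝 (0 : ℂ), ‖x₀ + s • x₁‖ < 1 := hxt.norm.eventually (gt_mem_nhds h0)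
  have e2 : ∀ᶠ s in 𝓝 (0 : ℂ), V₀ + s • V₁ ≠ 0 := hVt.eventually_ne hV0
  have key := (j2.sub j1).nonneg (by
    filter_upwards [e1, e2] with s s1 s2
    have p1 : 0 < nb (x₀ + s • x₁) (V₀ + s • V₁) := nb_pos s1 s2
    have p2 := h.low _ s1 (V₀ + s • V₁)
    have p3 : Real.log μ + Real.log (nb (x₀ + s • x₁) (V₀ + s • V₁)) ≤
        Real.log (nb (φ (x₀ + s • x₁)) (fderiv ℂ φ (x₀ + s • x₁) (V₀ + s • V₁))) := by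
      rw [← Real.log_mul h.pos.ne' p1.ne']
      exact Real.log_le_log (mul_pos h.pos p1) p2
    have p4 : Real.log (nb (φ x₀) (fderiv ℂ φ x₀ V₀)) = Real.log μ + Real.log (nb x₀ V₀) := by
      rw [heq, Real.log_mul h.pos.ne' hnb.ne']
    simp only [zero_smul, add_zero]
    rw [p4]
    linarith)
  refine ⟨sub_eq_zero.1 key.1, ?_⟩
  linarith [key.2]

end Pool.Agent.Lib.MP_5d4057_al.RG
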