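import Pool.Agent.Lib.MP_5d4057_al.RG.BallA

/-!
# RG G6.2: the orders one and two at the centre

`Mn.compare` at `x₀ = 0`, `V₀ = e`, `x₁ = ξ`, `V₁ = η`, `‖A e‖² = μ`. FIRST ORDER: `⟪A e, B(ξ,e) + A η⟫ = μ ⟪e, η⟫` for all `ξ, η`
(this is `fst` and `fst'`). SECOND: for all `ξ, η`, with `Y = B(ξ,e) + A η`,
`‖η‖² - ‖⟪e,η⟫‖² + ‖ξ‖² + ‖⟪ξ,e⟫‖² ≤ ‖Y‖²/μ - ‖⟪A e,Y⟫‖²/μ² + ‖A ξ‖² + ‖⟪A ξ, A e⟫‖²/μ`, where `⟪A ξ, A e⟫ = μ ⟪ξ,e⟫`.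
`ker`: if `B(ξ,e) = - A η` then `Y = 0`: `‖η‖² - ‖⟪e,η⟫‖² + (‖ξ‖² - ‖A ξ‖²) + (1-μ) ‖⟪ξ,e⟫‖² ≤ 0`, all three terms are `≥ 0`
(`schwarz`), so `‖A ξ‖ = ‖ξ‖`, `⟪e,ξ⟫ = 0`, `η = ⟪e,η⟫ e`, and `⟪e,η⟫ = 0` by the first order (`⟪A e, Y⟫ = 0`), so `η = 0`,
`B(ξ,e) = 0`. `exists_nr`: `A` is injective (`low` at `0`), its range has dimension `m ≥ n - 1`, so the linear map
`ξ ↦ B(ξ,e) mod range A` has a kernel of dimension `≥ m - 1`, contained in `K = e^⊥`, so equal to `K`; `B(e,e) ∉ range A`, so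
`n = m + 1`, `N` a unit vector of the orthogonal complement of `range A`.
-/

set_option autoImplicit false

namespace Pool.Agent.Lib.MP_5d4057_al.RG

open Filter Topology Asymptotics Metric

open scoped InnerProductSpace

variable {m n k : ℕ}

private theorem bb_cmp {φ : E m → E n} {μ : ℝ} {e : E m} (h : Mn φ μ e) (ξ η : E m) :
    ⟪fderiv ℂ φ 0 e, fderiv ℂ (fderiv ℂ φ) 0 ξ e + fderiv ℂ φ 0 η⟫_ℂ = μ * ⟪e, η⟫_ℂ ∧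
      ‖η‖ ^ 2 - ‖⟪e, η⟫_ℂ‖ ^ 2 + ‖ξ‖ ^ 2 + ‖⟪ξ, e⟫_ℂ‖ ^ 2 ≤
        ‖fderiv ℂ (fderiv ℂ φ) 0 ξ e + fderiv ℂ φ 0 η‖ ^ 2 / μ -
          ‖⟪fderiv ℂ φ 0 e, fderiv ℂ (fderiv ℂ φ) 0 ξ e + fderiv ℂ φ 0 η⟫_ℂ‖ ^ 2 / μ ^ 2 +
          ‖fderiv ℂ φ 0 ξ‖ ^ 2 + ‖⟪fderiv ℂ φ 0 ξ, fderiv ℂ φ 0 e⟫_ℂ‖ ^ 2 / μ := by
  have he : e ≠ 0 := by
    intro h0
    have := h.unit
    rw [h0, norm_zero] at this
    exact zero_ne_one this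
  have hμ := h.pos
  have hμ' : (μ : ℂ) ≠ 0 := by exact_mod_cast hμ.ne'
  obtain ⟨c1, c2⟩ := h.compare (x₀ := 0) (x₁ := ξ) (V₀ := e) (V₁ := η)
    (V₁' := fderiv ℂ (fderiv ℂ φ) 0 ξ e + fderiv ℂ φ 0 η) (by simp) he (by simp) (by simp)
    (by rw [h.zero, inner_zero_left]) (by rw [h.zero, inner_zero_left])
    (by rw [h.zero, nb_zero, nb_zero, h.eq, h.unit]; ring) rfl
  have e4 : ‖fderiv ℂ φ 0 e‖ ^ 4 = μ ^ 2 := by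
    rw [← h.eq]
    ring
  rw [h.unit, h.eq] at c1
  rw [h.unit, h.eq, e4, h.zero] at c2
  constructor
  · rw [one_pow, Complex.ofReal_one, div_one] at c1
    rw [← c1]
    field_simp
  · simp only [inner_zero_left, norm_zero, one_pow, div_one, mul_one, ne_eq, OfNat.ofNat_ne_zero,
      not_false_eq_true, zero_pow, sub_zero, zero_add, one_mul] at c2
    exact c2

theorem Mn.fst {φ : E m → E n} {μ : ℝ} {e : E m} (h : Mn φ μ e) (ξ : E m) :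
    ⟪fderiv ℂ φ 0 e, fderiv ℂ φ 0 ξ⟫_ℂ = μ * ⟪e, ξ⟫_ℂ := by
  have h1 := (bb_cmp h 0 ξ).1
  rw [map_zero, ContinuousLinearMap.zero_apply, zero_add] at h1
  exact h1

theorem Mn.fst' {φ : E m → E n} {μ : ℝ} {e : E m} (h : Mn φ μ e) (ξ : E m) :
    ⟪fderiv ℂ φ 0 e, fderiv ℂ (fderiv ℂ φ) 0 ξ e⟫_ℂ = 0 := by
  have h1 := (bb_cmp h ξ 0).1
  rw [map_zero, add_zero, inner_zero_right, mul_zero] at h1
  exact h1

theorem Mn.ker {φ : E m → E n} {μ : ℝ} {e : E m} (h : Mn φ μ e) {ξ η : E m}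
    (he : fderiv ℂ (fderiv ℂ φ) 0 ξ e = -fderiv ℂ φ 0 η) :
    ⟪e, ξ⟫_ℂ = 0 ∧ ‖fderiv ℂ φ 0 ξ‖ = ‖ξ‖ ∧ fderiv ℂ (fderiv ℂ φ) 0 ξ e = 0 := by
  obtain ⟨c1, c2⟩ := bb_cmp h ξ η
  have hμ := h.pos
  have hμ' : (μ : ℂ) ≠ 0 := by exact_mod_cast hμ.ne'
  have hY : fderiv ℂ (fderiv ℂ φ) 0 ξ e + fderiv ℂ φ 0 η = 0 := by
    rw [he, neg_add_cancel]
  rw [hY, inner_zero_right] at c1
  have hη0 : ⟪e, η⟫_ℂ = 0 := by
    rcases mul_eq_zero.1 c1.symm with h1 | h1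
    · exact absurd h1 hμ'
    · exact h1
  have hA : ⟪fderiv ℂ φ 0 ξ, fderiv ℂ φ 0 e⟫_ℂ = μ * ⟪ξ, e⟫_ℂ := by
    have h1 := congrArg (starRingEnd ℂ) (h.fst ξ)
    rw [inner_conj_symm, map_mul, inner_conj_symm, Complex.conj_ofReal] at h1
    exact h1
  rw [hY, hη0, hA, norm_mul, Complex.norm_real, Real.norm_of_nonneg hμ.le, inner_zero_right] at c2
  have e1 : (μ * ‖⟪ξ, e⟫_ℂ‖) ^ 2 / μ = μ * ‖⟪ξ, e⟫_ℂ‖ ^ 2 := by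
    field_simp
  rw [e1] at c2
  simp only [norm_zero, ne_eq, OfNat.ofNat_ne_zero, not_false_eq_true, zero_pow, zero_div,
    sub_zero, zero_add] at c2
  have hs := schwarz h.diff h.maps h.zero ξ
  have hs2 : ‖fderiv ℂ φ 0 ξ‖ ^ 2 ≤ ‖ξ‖ ^ 2 := pow_le_pow_left₀ (norm_nonneg _) hs 2
  have hη2 : 0 ≤ ‖η‖ ^ 2 := sq_nonneg _
  have hx2 : 0 ≤ (1 - μ) * ‖⟪ξ, e⟫_ℂ‖ ^ 2 :=
    mul_nonneg (by linarith [h.lt]) (sq_nonneg _)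
  have g1 : (1 - μ) * ‖⟪ξ, e⟫_ℂ‖ ^ 2 = 0 := by nlinarith
  have g2 : ‖η‖ ^ 2 = 0 := by nlinarith
  have g3 : ‖fderiv ℂ φ 0 ξ‖ ^ 2 = ‖ξ‖ ^ 2 := by nlinarith
  have g4 : ⟪ξ, e⟫_ℂ = 0 := by
    rcases mul_eq_zero.1 g1 with h1 | h1
    · linarith [h.lt]
    · exact norm_eq_zero.1 (pow_eq_zero_iff (two_ne_zero)|>.1 h1)
  have g5 : η = 0 := norm_eq_zero.1 ((pow_eq_zero_iff two_ne_zero).1 g2)
  refine ⟨?_, ?_, ?_⟩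
  · rw [← inner_conj_symm, g4, map_zero]
  · exact (pow_left_inj₀ (norm_nonneg _) (norm_nonneg _) two_ne_zero).1 g3
  · rw [he, g5, map_zero, neg_zero]

theorem Mn.exists_nr (hn : n ≤ m + 1) {φ : E m → E n} {μ : ℝ} {e : E m} (h : Mn φ μ e) :
    ∃ N : E n, Nr φ μ e N := by
  obtain ⟨A, hA⟩ : ∃ A : E m →ₗ[ℂ] E n, A = (fderiv ℂ φ 0 : E m →L[ℂ] E n).toLinearMap := ⟨_, rfl⟩
  have hA' : ∀ ξ, fderiv ℂ φ 0 ξ = A ξ := by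
    intro ξ
    rw [hA]
    rfl
  have hinj : Function.Injective A := by
    rw [injective_iff_map_eq_zero]
    intro ξ hξ
    have h1 := h.low 0 (by simp) ξ
    rw [h.zero, nb_zero, nb_zero, hA', hξ, norm_zero] at h1
    have h2 : ‖ξ‖ ^ 2 ≤ 0 := by
      have := h.pos
      by_contra h3
      rw [not_le] at h3
      have := mul_pos this h3
      simp at h1
      linarith
    exact norm_eq_zero.1 ((pow_eq_zero_iff two_ne_zero).1 (le_antisymm h2 (sq_nonneg _)))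
  have hfr : Module.finrank ℂ (LinearMap.range A) = m := by
    rw [LinearMap.finrank_range_of_inj hinj, finrank_euclideanSpace_fin]
  have hsum := Submodule.finrank_add_finrank_orthogonal (LinearMap.range A)
  rw [hfr, finrank_euclideanSpace_fin] at hsum
  have hle : Module.finrank ℂ (LinearMap.range A)ᗮ ≤ 1 := by omega
  obtain ⟨N₀, hN₀⟩ := finrank_le_one_iff.1 hle
  -- the range of `A`
  have hmem : ∀ y : E n, ⟪(N₀ : E n), y⟫_ℂ = 0 → ∃ ξ, A ξ = y := by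
    intro y hy
    have h1 : y ∈ (LinearMap.range A)ᗮᗮ := by
      rw [Submodule.mem_orthogonal]
      intro w hw
      obtain ⟨c, hc⟩ := hN₀ ⟨w, hw⟩
      have h2 : w = c • (N₀ : E n) := by
        rw [← Submodule.coe_smul, hc]
      rw [h2, inner_smul_left, hy, mul_zero]
    rw [Submodule.orthogonal_orthogonal] at h1
    exact h1
  have hB : ∀ ξ : E m, ⟪(N₀ : E n), fderiv ℂ (fderiv ℂ φ) 0 ξ e⟫_ℂ = 0 →
      ⟪e, ξ⟫_ℂ = 0 ∧ ‖fderiv ℂ φ 0 ξ‖ = ‖ξ‖ ∧ fderiv ℂ (fderiv ℂ φ) 0 ξ e = 0 := by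
    intro ξ hξ
    obtain ⟨η, hη⟩ := hmem _ hξ
    refine h.ker (η := -η) ?_
    rw [map_neg, neg_neg, hA', hη]
  have hee : ⟪e, e⟫_ℂ = 1 := by
    rw [inner_self_eq_norm_sq_to_K (𝕜 := ℂ), h.unit]
    simp
  have hne : ⟪(N₀ : E n), fderiv ℂ (fderiv ℂ φ) 0 e e⟫_ℂ ≠ 0 := by
    intro h0
    have h1 := (hB e h0).1
    rw [hee] at h1
    exact one_ne_zero h1
  have hK : ∀ ξ : E m, ⟪e, ξ⟫_ℂ = 0 → ⟪(N₀ : E n), fderiv ℂ (fderiv ℂ φ) 0 ξ e⟫_ℂ = 0 := by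
    intro ξ hξ
    obtain ⟨c, hc⟩ : ∃ c : ℂ, c = ⟪(N₀ : E n), fderiv ℂ (fderiv ℂ φ) 0 ξ e⟫_ℂ /
      ⟪(N₀ : E n), fderiv ℂ (fderiv ℂ φ) 0 e e⟫_ℂ := ⟨_, rfl⟩
    have h1 : ⟪(N₀ : E n), fderiv ℂ (fderiv ℂ φ) 0 (ξ - c • e) e⟫_ℂ = 0 := by
      rw [map_sub, map_smul, ContinuousLinearMap.sub_apply, ContinuousLinearMap.smul_apply,
        inner_sub_right, inner_smul_right, hc, div_mul_cancel₀ _ hne, sub_self]
    have h2 := (hB _ h1).1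
    rw [inner_sub_right, inner_smul_right, hξ, hee, mul_one, zero_sub, neg_eq_zero] at h2
    rw [h2] at hc
    rcases div_eq_zero_iff.1 hc.symm with h3 | h3
    · exact h3
    · exact absurd h3 hne
  have hN0 : (N₀ : E n) ≠ 0 := by
    intro h0
    rw [h0, inner_zero_left] at hne
    exact hne rfl
  have hNn : ‖(N₀ : E n)‖ ≠ 0 := norm_ne_zero_iff.2 hN0
  have hNc : ((‖(N₀ : E n)‖ : ℂ))⁻¹ ≠ 0 := inv_ne_zero (by exact_mod_cast hNn)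
  obtain ⟨N, hN⟩ : ∃ N : E n, N = ((‖(N₀ : E n)‖ : ℂ))⁻¹ • (N₀ : E n) := ⟨_, rfl⟩
  have hNu : ‖N‖ = 1 := by
    rw [hN, norm_smul, norm_inv, Complex.norm_real, norm_norm, inv_mul_cancel₀ hNn]
  have hNi : ∀ y : E n, ⟪N, y⟫_ℂ = 0 ↔ ⟪(N₀ : E n), y⟫_ℂ = 0 := by
    intro y
    rw [hN, inner_smul_left]
    constructor
    · intro h0
      rcases mul_eq_zero.1 h0 with h1 | h1
      · exact absurd ((map_eq_zero _).1 h1) hNc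
      · exact h1
    · intro h0
      rw [h0, mul_zero]
  refine ⟨N, ⟨h, h.fst, h.fst' e, fun ξ hξ => (hB ξ (hK ξ hξ)).2.1,
    fun ξ hξ => (hB ξ (hK ξ hξ)).2.2, hNu, ?_, ?_, ?_⟩⟩
  · intro ξ
    have h1 : (N₀ : E n) ∈ (LinearMap.range A)ᗮ := N₀.2
    rw [Submodule.mem_orthogonal] at h1
    have h2 := h1 (A ξ) ⟨ξ, rfl⟩
    rw [hA', hN, inner_smul_right, h2, mul_zero]
  · intro y
    have h1 : ⟪N, y - ⟪N, y⟫_ℂ • N⟫_ℂ = 0 := by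
      rw [inner_sub_right, inner_smul_right, inner_self_eq_norm_sq_to_K (𝕜 := ℂ), hNu]
      simp
    obtain ⟨ξ, hξ⟩ := hmem _ ((hNi _).1 h1)
    refine ⟨ξ, ?_⟩
    rw [hA', hξ, sub_add_cancel]
  · intro h0
    exact hne ((hNi _).1 h0)

end Pool.Agent.Lib.MP_5d4057_al.RG
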