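import Pool.Agent.Lib.MP_5d4057_al.RG.BallA

/-!
# RG G6.3: the map on the hyperplane `K = e^⊥`

`lin`: `schwarz_eq` for the unit vector `z/‖z‖ ∈ K` (`‖A u‖ = 1` by `iso`), `t = ‖z‖`. `dlin`: `φ (z + s ξ) = A (z + s ξ)` for
small `s` if `ξ ∈ K`. `perp`: `up` at `z` for the vectors `ξ + s e`, `ξ ∈ K`, `s ∈ ℂ` small: both sides agree at `s = 0`
(`φ'(z) ξ = A ξ`, `φ z = A z`, `A` preserves inner products on `K`), so the first order terms in `s` agree: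
`⟪e-part⟫`: with `X = φ'(z) e`: `(1-‖z‖²) ⟪A ξ, X⟫ + ⟪A ξ, A z⟫ ⟪A z, X⟫ = (1-‖z‖²) ⟪ξ, e⟫ + ⟪ξ, z⟫ ⟪z, e⟫ = 0`; `ξ = z` gives
`⟪A z, X⟫ = 0`, then `⟪A ξ, X⟫ = 0` for all `ξ ∈ K`. `dec`: the vector `X - (⟪A e,X⟫/μ) A e - ⟪N,X⟫ N` is orthogonal to `N`, so it is
`A ξ` (`spn`), and it is orthogonal to `A K` and to `A e`: with `ξ = ξ' + c e` (`ξ' ∈ K`) it is zero. `ineq`: `low` for `e` at `z`:
`μ nb z e = μ/(1-‖z‖²)`, `nb (A z) X = ‖X‖²/(1-‖z‖²)` (`nb_orth`).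
-/

set_option autoImplicit false

namespace Pool.Agent.Lib.MP_5d4057_al.RG

open Filter Topology Asymptotics Metric

open scoped InnerProductSpace

variable {m n k : ℕ}

/-- `A` preserves inner products on `K`. -/
theorem Nr.inner {φ : E m → E n} {μ : ℝ} {e : E m} {N : E n} (h : Nr φ μ e N) {ξ η : E m}
    (hξ : ⟪e, ξ⟫_ℂ = 0) (hη : ⟪e, η⟫_ℂ = 0) :
    ⟪fderiv ℂ φ 0 ξ, fderiv ℂ φ 0 η⟫_ℂ = ⟪ξ, η⟫_ℂ := by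
  have h1 : ∀ c : ℂ, ‖fderiv ℂ φ 0 ξ + c • fderiv ℂ φ 0 η‖ = ‖ξ + c • η‖ := by
    intro c
    rw [← map_smul, ← map_add]
    refine h.iso _ ?_
    rw [inner_add_right, inner_smul_right, hξ, hη, mul_zero, add_zero]
  have h2 := h1 1
  have h3 := h1 (-1)
  have h4 := h1 Complex.I
  have h5 := h1 (-Complex.I)
  rw [one_smul, one_smul] at h2
  rw [neg_smul, neg_smul, one_smul, one_smul, ← sub_eq_add_neg, ← sub_eq_add_neg] at h3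
  rw [neg_smul, neg_smul, ← sub_eq_add_neg, ← sub_eq_add_neg] at h5
  rw [inner_eq_sum_norm_sq_div_four, inner_eq_sum_norm_sq_div_four, h2, h3]
  simp only [RCLike.I_to_complex, h4, h5]

theorem Nr.lin {φ : E m → E n} {μ : ℝ} {e : E m} {N : E n} (h : Nr φ μ e N) {z : E m}
    (hz : ‖z‖ < 1) (he : ⟪e, z⟫_ℂ = 0) : φ z = fderiv ℂ φ 0 z := by
  rcases eq_or_ne z 0 with rfl | hz0
  · rw [h.zero, map_zero]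
  have hn : ‖z‖ ≠ 0 := norm_ne_zero_iff.2 hz0
  have hn' : (‖z‖ : ℂ) ≠ 0 := by exact_mod_cast hn
  have hu : ‖((‖z‖ : ℂ)⁻¹) • z‖ = 1 := by
    rw [norm_smul, norm_inv, Complex.norm_real, norm_norm, inv_mul_cancel₀ hn]
  have hk : ⟪e, ((‖z‖ : ℂ)⁻¹) • z⟫_ℂ = 0 := by rw [inner_smul_right, he, mul_zero]
  have h1 : ‖fderiv ℂ φ 0 (((‖z‖ : ℂ)⁻¹) • z)‖ = 1 := by rw [h.iso _ hk, hu]
  have ht : ‖(‖z‖ : ℂ)‖ < 1 := by rwa [Complex.norm_real, norm_norm]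
  have h2 := schwarz_eq h.diff h.maps h.zero hu h1 ht
  rwa [← map_smul, smul_inv_smul₀ hn'] at h2

private theorem line_deriv {φ : E m → E n} {z ξ : E m} {B : E m →L[ℂ] E n}
    (hB : HasFDerivAt φ B z) : HasDerivAt (fun s : ℂ => φ (z + s • ξ)) (B ξ) 0 := by
  have h3 : HasDerivAt (fun s : ℂ => z + s • ξ) ξ 0 := by
    have := ((hasDerivAt_id (0 : ℂ)).smul_const ξ).const_add z
    rwa [one_smul] at this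
  have h2 : HasFDerivAt φ B (z + (0 : ℂ) • ξ) := by
    rwa [zero_smul, add_zero]
  exact h2.comp_hasDerivAt (0 : ℂ) h3

theorem Nr.dlin {φ : E m → E n} {μ : ℝ} {e : E m} {N : E n} (h : Nr φ μ e N) {z : E m}
    (hz : ‖z‖ < 1) (he : ⟪e, z⟫_ℂ = 0) {ξ : E m} (hξ : ⟪e, ξ⟫_ℂ = 0) :
    fderiv ℂ φ z ξ = fderiv ℂ φ 0 ξ := by
  have hd : HasFDerivAt φ (fderiv ℂ φ z) z :=
    (h.diff.differentiableAt (isOpen_ball.mem_nhds (mem_ball_zero_iff.2 hz))).hasFDerivAt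
  have h1 := line_deriv (ξ := ξ) hd
  have h2 := line_deriv (ξ := ξ) (z := z) (fderiv ℂ φ 0).hasFDerivAt
  refine h1.unique (h2.congr_of_eventuallyEq ?_)
  have hc : Tendsto (fun s : ℂ => ‖z + s • ξ‖) (𝓝 0) (𝓝 ‖z + (0 : ℂ) • ξ‖) :=
    Continuous.tendsto (by fun_prop) 0
  rw [zero_smul, add_zero] at hc
  filter_upwards [hc.eventually (gt_mem_nhds hz)] with s hs
  refine h.lin hs ?_
  rw [inner_add_right, inner_smul_right, he, hξ, mul_zero, add_zero]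

private theorem eq_zero_of_le {β : ℂ} {δ : ℝ} (hδ : 0 < δ)
    (h : ∀ s : ℂ, 2 * (s * β).re ≤ δ * ‖s‖ ^ 2) : β = 0 := by
  have h1 := h ((δ : ℂ)⁻¹ * (starRingEnd ℂ) β)
  have h2 : (δ : ℂ)⁻¹ * (starRingEnd ℂ) β * β = ((δ⁻¹ * ‖β‖ ^ 2 : ℝ) : ℂ) := by
    rw [mul_assoc, Complex.conj_mul']
    push_cast
    rfl
  rw [h2, Complex.ofReal_re, norm_mul, norm_inv, Complex.norm_real, Real.norm_eq_abs,
    abs_of_pos hδ, RCLike.norm_conj] at h1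
  have h3 : δ * (δ⁻¹ * ‖β‖) ^ 2 = δ⁻¹ * ‖β‖ ^ 2 := by field_simp
  rw [h3] at h1
  have h4 : 0 < δ⁻¹ := inv_pos.2 hδ
  have h5 : ‖β‖ ^ 2 ≤ 0 := by
    by_contra hcon
    have := mul_pos h4 (not_le.1 hcon)
    linarith
  exact norm_eq_zero.1 (pow_eq_zero_iff two_ne_zero |>.1 (le_antisymm h5 (by positivity)))

private theorem norm_add_smul_sq {k : ℕ} (x y : E k) (s : ℂ) :
    ‖x + s • y‖ ^ 2 = ‖x‖ ^ 2 + 2 * (s * ⟪x, y⟫_ℂ).re + ‖s‖ ^ 2 * ‖y‖ ^ 2 := by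
  have h := norm_add_sq (𝕜 := ℂ) x (s • y)
  rw [inner_smul_right, norm_smul, mul_pow] at h
  exact h

private theorem norm_add_mul_sq (x y s : ℂ) :
    ‖x + s * y‖ ^ 2 = ‖x‖ ^ 2 + 2 * (s * ((starRingEnd ℂ) x * y)).re + ‖s‖ ^ 2 * ‖y‖ ^ 2 := by
  rw [← Complex.normSq_eq_norm_sq, ← Complex.normSq_eq_norm_sq, ← Complex.normSq_eq_norm_sq,
    ← Complex.normSq_eq_norm_sq, Complex.normSq_add, Complex.normSq_mul]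
  have : (x * (starRingEnd ℂ) (s * y)).re = (s * ((starRingEnd ℂ) x * y)).re := by
    rw [← Complex.conj_re (x * (starRingEnd ℂ) (s * y)), map_mul, Complex.conj_conj]
    congr 1
    ring
  rw [this]
  ring

theorem Nr.perp {φ : E m → E n} {μ : ℝ} {e : E m} {N : E n} (h : Nr φ μ e N) {z : E m}
    (hz : ‖z‖ < 1) (he : ⟪e, z⟫_ℂ = 0) {ξ : E m} (hξ : ⟪e, ξ⟫_ℂ = 0) :
    ⟪fderiv ℂ φ 0 ξ, fderiv ℂ φ z e⟫_ℂ = 0 := by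
  have hδ : 0 < 1 - ‖z‖ ^ 2 := by
    have := (sq_lt_one_iff₀ (norm_nonneg z)).2 hz
    linarith
  have hze : ⟪z, e⟫_ℂ = 0 := inner_eq_zero_symm.1 he
  have hAz : ‖fderiv ℂ φ 0 z‖ = ‖z‖ := h.iso z he
  have key : ∀ ξ : E m, ⟪e, ξ⟫_ℂ = 0 →
      (1 - ‖z‖ ^ 2 : ℝ) * ⟪fderiv ℂ φ 0 ξ, fderiv ℂ φ z e⟫_ℂ +
        ⟪fderiv ℂ φ 0 ξ, fderiv ℂ φ 0 z⟫_ℂ * ⟪fderiv ℂ φ 0 z, fderiv ℂ φ z e⟫_ℂ = 0 := by
    intro ξ hξ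
    refine eq_zero_of_le hδ fun s => ?_
    have hξe : ⟪ξ, e⟫_ℂ = 0 := inner_eq_zero_symm.1 hξ
    have h1 := h.up z hz (ξ + s • e)
    rw [map_add, map_smul, h.dlin hz he hξ, h.lin hz he, nb, nb, hAz,
      div_le_div_iff_of_pos_right (by positivity), inner_add_right, inner_smul_right,
      inner_add_right, inner_smul_right, hze, mul_zero, add_zero, norm_add_smul_sq,
      norm_add_smul_sq, norm_add_mul_sq, h.inner he hξ, h.iso ξ hξ, hξe, mul_zero, h.unit,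
      inner_conj_symm] at h1
    rw [h.inner hξ he, mul_add, Complex.add_re]
    have h2 : (s * (((1 - ‖z‖ ^ 2 : ℝ) : ℂ) * ⟪fderiv ℂ φ 0 ξ, fderiv ℂ φ z e⟫_ℂ)).re =
        (1 - ‖z‖ ^ 2) * (s * ⟪fderiv ℂ φ 0 ξ, fderiv ℂ φ z e⟫_ℂ).re := by
      rw [← Complex.re_ofReal_mul]
      congr 1
      ring
    rw [h2]
    have h3 : 0 ≤ ‖s‖ ^ 2 * ‖fderiv ℂ φ z e‖ ^ 2 * (1 - ‖z‖ ^ 2) := by positivity
    have h4 : 0 ≤ ‖s‖ ^ 2 * ‖⟪fderiv ℂ φ 0 z, fderiv ℂ φ z e⟫_ℂ‖ ^ 2 := by positivity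
    rw [Complex.zero_re] at h1
    nlinarith [h1, h3, h4]
  have h1 := key z he
  rw [h.inner he he, inner_self_eq_norm_sq_to_K] at h1
  have h2 : ⟪fderiv ℂ φ 0 z, fderiv ℂ φ z e⟫_ℂ = 0 := by
    have h3 : ((1 - ‖z‖ ^ 2 : ℝ) : ℂ) * ⟪fderiv ℂ φ 0 z, fderiv ℂ φ z e⟫_ℂ +
        (‖z‖ : ℂ) ^ 2 * ⟪fderiv ℂ φ 0 z, fderiv ℂ φ z e⟫_ℂ =
        ⟪fderiv ℂ φ 0 z, fderiv ℂ φ z e⟫_ℂ := by
      push_cast
      ring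
    rw [← h3]
    exact h1
  have h4 := key ξ hξ
  rw [h2, mul_zero, add_zero] at h4
  exact (mul_eq_zero.1 h4).resolve_left (by exact_mod_cast hδ.ne')

theorem Nr.dec {φ : E m → E n} {μ : ℝ} {e : E m} {N : E n} (h : Nr φ μ e N) {y : E n}
    (hy : ∀ ξ : E m, ⟪e, ξ⟫_ℂ = 0 → ⟪fderiv ℂ φ 0 ξ, y⟫_ℂ = 0) :
    y = (⟪fderiv ℂ φ 0 e, y⟫_ℂ / μ) • fderiv ℂ φ 0 e + ⟪N, y⟫_ℂ • N := by
  obtain ⟨ξ₀, hξ₀⟩ := h.spn y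
  have hee : ⟪e, e⟫_ℂ = 1 := by
    rw [inner_self_eq_norm_sq_to_K, h.unit]
    simp
  have hk : ⟪e, ξ₀ - ⟪e, ξ₀⟫_ℂ • e⟫_ℂ = 0 := by
    rw [inner_sub_right, inner_smul_right, hee, mul_one, sub_self]
  have h1 := hy _ hk
  have h2 : ⟪fderiv ℂ φ 0 (ξ₀ - ⟪e, ξ₀⟫_ℂ • e), y⟫_ℂ =
      ⟪fderiv ℂ φ 0 (ξ₀ - ⟪e, ξ₀⟫_ℂ • e), fderiv ℂ φ 0 (ξ₀ - ⟪e, ξ₀⟫_ℂ • e)⟫_ℂ := by
    have e1 : ⟪fderiv ℂ φ 0 (ξ₀ - ⟪e, ξ₀⟫_ℂ • e), fderiv ℂ φ 0 e⟫_ℂ = 0 := by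
      rw [inner_eq_zero_symm, h.adj, hk, mul_zero]
    have e2 : fderiv ℂ φ 0 ξ₀ = fderiv ℂ φ 0 (ξ₀ - ⟪e, ξ₀⟫_ℂ • e) +
        ⟪e, ξ₀⟫_ℂ • fderiv ℂ φ 0 e := by
      rw [← map_smul, ← map_add, sub_add_cancel]
    conv_lhs => rw [hξ₀]
    rw [inner_add_right, inner_smul_right, h.nor, mul_zero, add_zero]
    conv_lhs => rw [e2]
    rw [inner_add_right, inner_smul_right, e1, mul_zero, add_zero]
  have h3 : fderiv ℂ φ 0 (ξ₀ - ⟪e, ξ₀⟫_ℂ • e) = 0 := by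
    rw [h1] at h2
    exact inner_self_eq_zero.1 h2.symm
  have h4 : fderiv ℂ φ 0 ξ₀ = ⟪e, ξ₀⟫_ℂ • fderiv ℂ φ 0 e := by
    rw [map_sub, map_smul, sub_eq_zero] at h3
    exact h3
  have h5 : ⟪fderiv ℂ φ 0 e, y⟫_ℂ = ⟪e, ξ₀⟫_ℂ * μ := by
    have hAe : ⟪fderiv ℂ φ 0 e, fderiv ℂ φ 0 e⟫_ℂ = μ := by
      rw [h.adj, hee, mul_one]
    conv_lhs => rw [hξ₀]
    rw [inner_add_right, inner_smul_right, h.nor, mul_zero, add_zero, h4, inner_smul_right, hAe]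
  have hμ : (μ : ℂ) ≠ 0 := by exact_mod_cast h.pos.ne'
  rw [h5, mul_div_cancel_right₀ _ hμ, ← h4]
  exact hξ₀

/-- `μ ≤ |p|² μ + |r|²`. -/
theorem Nr.ineq {φ : E m → E n} {μ : ℝ} {e : E m} {N : E n} (h : Nr φ μ e N) {z : E m}
    (hz : ‖z‖ < 1) (he : ⟪e, z⟫_ℂ = 0) :
    μ ≤ ‖⟪fderiv ℂ φ 0 e, fderiv ℂ φ z e⟫_ℂ‖ ^ 2 / μ + ‖⟪N, fderiv ℂ φ z e⟫_ℂ‖ ^ 2 := by
  have hδ : 0 < 1 - ‖z‖ ^ 2 := by
    have := (sq_lt_one_iff₀ (norm_nonneg z)).2 hz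
    linarith
  have hze : ⟪z, e⟫_ℂ = 0 := inner_eq_zero_symm.1 he
  have hAz : ‖fderiv ℂ φ 0 z‖ = ‖z‖ := h.iso z he
  set X := fderiv ℂ φ z e with hX
  have h1 := h.low z hz e
  rw [h.lin hz he, ← hX, nb, nb, hze, h.perp hz he he, norm_zero, hAz, h.unit] at h1
  have h2 : μ * ((1 ^ 2 * (1 - ‖z‖ ^ 2) + 0 ^ 2) / (1 - ‖z‖ ^ 2) ^ 2) = μ / (1 - ‖z‖ ^ 2) := by
    field_simp
    ring
  have h3 : (‖X‖ ^ 2 * (1 - ‖z‖ ^ 2) + 0 ^ 2) / (1 - ‖z‖ ^ 2) ^ 2 = ‖X‖ ^ 2 / (1 - ‖z‖ ^ 2) := by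
    field_simp
    ring
  rw [h2, h3, div_le_div_iff_of_pos_right hδ] at h1
  have h4 := h.dec (y := X) fun ξ hξ => h.perp hz he hξ
  have hμ := h.pos
  have h5 : ‖X‖ ^ 2 = ‖⟪fderiv ℂ φ 0 e, X⟫_ℂ‖ ^ 2 / μ + ‖⟪N, X⟫_ℂ‖ ^ 2 := by
    conv_lhs => rw [h4]
    have h6 := norm_add_sq (𝕜 := ℂ) ((⟪fderiv ℂ φ 0 e, X⟫_ℂ / μ) • fderiv ℂ φ 0 e)
      (⟪N, X⟫_ℂ • N)
    rw [inner_smul_left, inner_smul_right, h.nor, mul_zero, mul_zero, map_zero, mul_zero,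
      add_zero, norm_smul, norm_smul, h.nunit, mul_one, mul_pow, h.eq, norm_div,
      Complex.norm_real, Real.norm_eq_abs, abs_of_pos hμ] at h6
    rw [h6]
    congr 1
    field_simp
  rw [← h5]
  exact h1

end Pool.Agent.Lib.MP_5d4057_al.RG
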