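import Pool.Agent.Lib.MP_5d4057_al.RG.NoMin

/-!
# RG G6.0: the situation at a minimum of the stretching factor. Definitions

`A = φ'(0) = fderiv ℂ φ 0`, `B(ξ,η) = φ''(0)(ξ,η) = fderiv ℂ (fderiv ℂ φ) 0 ξ η`, `K = e^⊥`.
-/

set_option autoImplicit false

namespace Pool.Agent.Lib.MP_5d4057_al.RG

open Filter Topology Asymptotics Metric

open scoped InnerProductSpace

variable {m n k : ℕ}

/-- The square of the norm of the tangent vector `ξ` at the point `z` of the ball. -/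
noncomputable def nb (z ξ : E k) : ℝ :=
  (‖ξ‖ ^ 2 * (1 - ‖z‖ ^ 2) + ‖⟪z, ξ⟫_ℂ‖ ^ 2) / (1 - ‖z‖ ^ 2) ^ 2

/-- A contraction of balls whose stretching factor is at least `μ`, with equality at the tangent vector `e` at the
centre. -/
structure Mn (φ : E m → E n) (μ : ℝ) (e : E m) : Prop where
  diff : DifferentiableOn ℂ φ (ball 0 1)
  maps : Set.MapsTo φ (ball 0 1) (ball 0 1)
  zero : φ 0 = 0
  pos : 0 < μ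
  low : ∀ z : E m, ‖z‖ < 1 → ∀ ξ : E m, μ * nb z ξ ≤ nb (φ z) (fderiv ℂ φ z ξ)
  up : ∀ z : E m, ‖z‖ < 1 → ∀ ξ : E m, nb (φ z) (fderiv ℂ φ z ξ) ≤ nb z ξ
  unit : ‖e‖ = 1
  eq : ‖fderiv ℂ φ 0 e‖ ^ 2 = μ
  lt : μ < 1

/-- The conclusions of the first two orders at the centre: `A` is isometric on `K = e^⊥`, `B(K, e) = 0`, and the range
of `A` has a unit normal vector `N` with `⟪N, B(e,e)⟫ ≠ 0`. -/
structure Nr (φ : E m → E n) (μ : ℝ) (e : E m) (N : E n) : Prop extends Mn φ μ e where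
  adj : ∀ ξ : E m, ⟪fderiv ℂ φ 0 e, fderiv ℂ φ 0 ξ⟫_ℂ = μ * ⟪e, ξ⟫_ℂ
  orth : ⟪fderiv ℂ φ 0 e, fderiv ℂ (fderiv ℂ φ) 0 e e⟫_ℂ = 0
  iso : ∀ ξ : E m, ⟪e, ξ⟫_ℂ = 0 → ‖fderiv ℂ φ 0 ξ‖ = ‖ξ‖
  van : ∀ ξ : E m, ⟪e, ξ⟫_ℂ = 0 → fderiv ℂ (fderiv ℂ φ) 0 ξ e = 0
  nunit : ‖N‖ = 1
  nor : ∀ ξ : E m, ⟪fderiv ℂ φ 0 ξ, N⟫_ℂ = 0
  spn : ∀ y : E n, ∃ ξ : E m, y = fderiv ℂ φ 0 ξ + ⟪N, y⟫_ℂ • N
  ne : ⟪N, fderiv ℂ (fderiv ℂ φ) 0 e e⟫_ℂ ≠ 0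

end Pool.Agent.Lib.MP_5d4057_al.RG
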