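import Pool.Agent.Lib.MP_5d4057_al.RG.BallC

/-!
# RG G6.4: the second order condition at the points of `K`

At a point `z ∈ K` with `φ'(z) e = A e` (so `φ'(z) = A` by `Nr.dlin`, `φ z = A z`) write (`spn`) `φ''(z)(e,e) = A η + b N`,
`b = ⟪N, φ''(z)(e,e)⟫`, and apply `Mn.compare` with `x₀ = z`, `x₁ = e`, `V₀ = e`, `V₁ = - η`: `V₁' = b N`, all the hypotheses are
orthogonality relations of `A` (`adj`, `nor`, `Nr.inner`), `‖A e‖² = μ`, `‖A z‖ = ‖z‖`, `T = 1-‖z‖²`: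
`(≥ 0) + 1/T + 1/T ≤ ‖η‖² - ‖⟪e,η⟫‖² + 1/T + (‖⟪z,η⟫‖² + 1)/T ≤ |b|²/μ + μ/T + μ²/(T μ)`, that is `2 μ (1-μ) ≤ |b|² T`.
(`heq`: `nb_orth` twice.)
-/

set_option autoImplicit false

namespace Pool.Agent.Lib.MP_5d4057_al.RG

open Filter Topology Asymptotics Metric

open scoped InnerProductSpace

variable {m n k : ℕ}

theorem Nr.bound {φ : E m → E n} {μ : ℝ} {e : E m} {N : E n} (h : Nr φ μ e N) {z : E m}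
    (hz : ‖z‖ < 1) (he : ⟪e, z⟫_ℂ = 0) (hd : fderiv ℂ φ z e = fderiv ℂ φ 0 e) :
    2 * μ * (1 - μ) ≤ ‖⟪N, fderiv ℂ (fderiv ℂ φ) z e e⟫_ℂ‖ ^ 2 * (1 - ‖z‖ ^ 2) := by
  have hδ : 0 < 1 - ‖z‖ ^ 2 := by
    have := (sq_lt_one_iff₀ (norm_nonneg z)).2 hz
    linarith
  have hμ := h.pos
  have hze : ⟪z, e⟫_ℂ = 0 := inner_eq_zero_symm.1 he
  have hee : ⟪e, e⟫_ℂ = 1 := by
    rw [inner_self_eq_norm_sq_to_K, h.unit]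
    simp
  have he0 : e ≠ 0 := fun h0 => by
    have := h.unit
    rw [h0, norm_zero] at this
    exact zero_ne_one this
  have hAz : ‖fderiv ℂ φ 0 z‖ = ‖z‖ := h.iso z he
  have hφz : φ z = fderiv ℂ φ 0 z := h.lin hz he
  have hAA : ∀ ξ : E m, fderiv ℂ φ z ξ = fderiv ℂ φ 0 ξ := by
    intro ξ
    have e1 : ξ = (ξ - ⟪e, ξ⟫_ℂ • e) + ⟪e, ξ⟫_ℂ • e := by rw [sub_add_cancel]
    have hk : ⟪e, ξ - ⟪e, ξ⟫_ℂ • e⟫_ℂ = 0 := by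
      rw [inner_sub_right, inner_smul_right, hee, mul_one, sub_self]
    conv_lhs => rw [e1]
    conv_rhs => rw [e1]
    rw [map_add, map_add, map_smul, map_smul, hd, h.dlin hz he hk]
  obtain ⟨η, hη⟩ := h.spn (fderiv ℂ (fderiv ℂ φ) z e e)
  set b := ⟪N, fderiv ℂ (fderiv ℂ φ) z e e⟫_ℂ with hb
  have hAzAe : ⟪fderiv ℂ φ 0 z, fderiv ℂ φ 0 e⟫_ℂ = 0 := by
    rw [inner_eq_zero_symm, h.adj, he, mul_zero]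
  have hAeAe : ⟪fderiv ℂ φ 0 e, fderiv ℂ φ 0 e⟫_ℂ = μ := by
    rw [h.adj, hee, mul_one]
  have hV1 : b • N = fderiv ℂ (fderiv ℂ φ) z e e + fderiv ℂ φ z (-η) := by
    rw [hAA, map_neg, hη]
    abel
  have heq : nb (φ z) (fderiv ℂ φ z e) = μ * nb z e := by
    rw [hφz, hAA, nb, nb, hAzAe, hze, norm_zero, hAz, h.unit, h.eq]
    ring
  have h1 := h.toMn.compare (x₀ := z) (x₁ := e) (V₀ := e) (V₁ := -η) hz he0 hze hze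
    (by rw [hφz, hAA]; exact hAzAe) (by rw [hφz, hAA]; exact hAzAe) heq hV1
  rw [hAA, hφz, hAz, h.eq, h.unit, hAeAe] at h1
  obtain ⟨h2, h3⟩ := h1
  have h4 : ⟪fderiv ℂ φ 0 e, b • N⟫_ℂ = 0 := by
    rw [inner_smul_right, h.nor, mul_zero]
  have h5 : ⟪fderiv ℂ φ 0 z, b • N⟫_ℂ = 0 := by
    rw [inner_smul_right, h.nor, mul_zero]
  have h6 : ⟪e, -η⟫_ℂ = 0 := by
    rw [h4, zero_div, one_pow, Complex.ofReal_one, div_one] at h2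
    exact h2.symm
  rw [h4, h5, h6, hee, norm_zero, norm_smul, h.nunit, norm_one, Complex.norm_real,
    Real.norm_eq_abs, abs_of_pos hμ] at h3
  have h7 : ‖fderiv ℂ φ 0 e‖ ^ 4 = μ ^ 2 := by
    rw [← h.eq]
    ring
  have h8 : 0 ≤ ‖-η‖ ^ 2 := by positivity
  have h9 : 0 ≤ ‖⟪z, -η⟫_ℂ‖ ^ 2 / (1 - ‖z‖ ^ 2) := by positivity
  have h10 : 2 / (1 - ‖z‖ ^ 2) ≤ ‖b‖ ^ 2 / μ + 2 * (μ / (1 - ‖z‖ ^ 2)) := by
    have e1 : μ ^ 2 / ((1 - ‖z‖ ^ 2) * μ) = μ / (1 - ‖z‖ ^ 2) := by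
      field_simp
    have e2 : (‖⟪z, -η⟫_ℂ‖ ^ 2 + 1 ^ 2) / ((1 - ‖z‖ ^ 2) * 1 ^ 2) =
        ‖⟪z, -η⟫_ℂ‖ ^ 2 / (1 - ‖z‖ ^ 2) + 1 / (1 - ‖z‖ ^ 2) := by
      rw [one_pow, mul_one, add_div]
    have e3 : 2 / (1 - ‖z‖ ^ 2) = 1 / (1 - ‖z‖ ^ 2) + 1 / (1 - ‖z‖ ^ 2) := by
      rw [← add_div]
      norm_num
    have e4 : ((0 : ℝ) ^ 2 + μ ^ 2) / ((1 - ‖z‖ ^ 2) * μ) = μ / (1 - ‖z‖ ^ 2) := by
      rw [← e1]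
      simp
    rw [e2, e4] at h3
    rw [e3]
    simp only [one_pow, div_one, mul_one, ne_eq, OfNat.ofNat_ne_zero, not_false_eq_true, zero_pow,
      zero_div, sub_zero] at h3
    linarith
  have h11 : 2 / (1 - ‖z‖ ^ 2) * (μ * (1 - ‖z‖ ^ 2)) ≤
      (‖b‖ ^ 2 / μ + 2 * (μ / (1 - ‖z‖ ^ 2))) * (μ * (1 - ‖z‖ ^ 2)) :=
    mul_le_mul_of_nonneg_right h10 (by positivity)
  have e5 : 2 / (1 - ‖z‖ ^ 2) * (μ * (1 - ‖z‖ ^ 2)) = 2 * μ := by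
    field_simp
  have e6 : (‖b‖ ^ 2 / μ + 2 * (μ / (1 - ‖z‖ ^ 2))) * (μ * (1 - ‖z‖ ^ 2)) =
      ‖b‖ ^ 2 * (1 - ‖z‖ ^ 2) + 2 * μ ^ 2 := by
    field_simp
  rw [e5, e6] at h11
  nlinarith [h11]

end Pool.Agent.Lib.MP_5d4057_al.RG
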