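import Pool.Agent.Lib.MP_5d4057_al.RG.BallC
import Pool.Agent.Lib.MP_5d4057_al.RG.Holo

/-!
# RG G6.5: the normal part of `φ'(z) e` vanishes for `z ∈ K`

`u ∈ K`, `z = t u`, `X(t) = φ'(t u) e = p(t) A e + r(t) N` (`Nr.perp`, `Nr.dec`), `B(e,e) = A τ + b N`, `b ≠ 0`, `τ ∈ K` (as `⟪A e, B(e,e)⟫ = 0`).
Let `ζ(t) = - r(t)/b`, `x(t) = t u + ζ e`, `V(t) = e - ζ τ`, `U(t) = φ'(x) V`, `P(t) = φ (x)`. STRICT differentiability of
`(x,V) ↦ φ'(x) V` at `(0,e)`: `U = X(t) + ζ B(e,e) - ζ A τ + o(|ζ|) = p(t) A e + o(|ζ|)`, so `U = F A e + R`, `F = ⟪A e,U⟫/μ`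
holomorphic, `F(0) = 1`, `R ⊥ A e`, `R = o(|ζ|)`; `P = t A u + ζ X(t) + O(|ζ|²)`, `X ⊥ A u`, so `‖P‖² = ‖t u‖² + μ |ζ|² + o(|ζ|²)`,
`⟪P,U⟫ = conj ζ μ F + o(|ζ|)`. With `T = 1 - ‖t u‖²`:
`nb P U = |F|² μ T⁻¹ (1 + 2 μ |ζ|² + o(|ζ|²))`, `nb x V = T⁻¹ (1 + 2|ζ|² + ‖τ‖²|ζ|² + o(|ζ|²))`, so `low` gives
`|F|² ≥ 1 + (1-μ)|ζ|²` for small `t`. By the minimum modulus principle `F = 1` near `0`, so `ζ = 0`, `r = 0` near `0`, and on the
disc by the identity theorem.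
-/

set_option autoImplicit false

namespace Pool.Agent.Lib.MP_5d4057_al.RG

open Filter Topology Asymptotics Metric

open scoped InnerProductSpace

variable {m n k : ℕ}

theorem min_ineq {μ : ℝ} (h0 : 0 < μ) (h1 : μ < 1) {s T F u a w y : ℂ → ℝ}
    (hs : ∀ t, 0 ≤ s t) (hs0 : Tendsto s (𝓝 0) (𝓝 0)) (hT : Tendsto T (𝓝 0) (𝓝 1))
    (hT1 : ∀ t, T t ≤ 1) (hF : Tendsto F (𝓝 0) (𝓝 1))
    (ha : (fun t => a t - (T t - μ * s t)) =o[𝓝 0] s) (hu : (fun t => u t - μ * F t) =o[𝓝 0] s)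
    (hw : (fun t => w t - μ ^ 2 * s t) =o[𝓝 0] s) (hy : (fun t => y t - s t) =o[𝓝 0] s)
    (hlow : ∀ᶠ t in 𝓝 0,
      μ * (T t - s t + y t) * a t ^ 2 ≤ (u t * a t + w t) * (T t - s t) ^ 2) :
    ∀ᶠ t in 𝓝 0, 1 + (1 - μ) * s t ≤ F t := by
  have hda : Tendsto (fun t => a t - (T t - μ * s t)) (𝓝 0) (𝓝 0) := ha.trans_tendsto hs0
  have hat : Tendsto a (𝓝 0) (𝓝 1) := by
    have h2 := hda.add (hT.sub (hs0.const_mul μ))
    simpa using h2
  have key : (fun t => (u t * a t + w t) * (T t - s t) ^ 2 - μ * (T t - s t + y t) * a t ^ 2 -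
      (μ * T t ^ 3 * (F t - 1) - 2 * μ * (1 - μ) * s t)) =o[𝓝 0] s := by
    have e1 : (fun t => s t * (-2 * μ * (F t * T t ^ 2 - 1) + 2 * μ ^ 2 * (T t ^ 2 - 1) +
        s t * (μ * F t * T t - μ ^ 3 * T t) + μ ^ 2 * (1 - F t) * (T t - s t) ^ 2)) =o[𝓝 0] s := by
      have h2 : Tendsto (fun t => -2 * μ * (F t * T t ^ 2 - 1) + 2 * μ ^ 2 * (T t ^ 2 - 1) +
        s t * (μ * F t * T t - μ ^ 3 * T t) + μ ^ 2 * (1 - F t) * (T t - s t) ^ 2) (𝓝 0) (𝓝 0) := by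
        have h3 := ((((hF.mul (hT.pow 2)).sub_const 1).const_mul (-2 * μ)).add
          (((hT.pow 2).sub_const 1).const_mul (2 * μ ^ 2))).add
          (hs0.mul (((hF.const_mul μ).mul hT).sub (hT.const_mul (μ ^ 3))))
        have h4 := h3.add (((hF.const_sub 1).const_mul (μ ^ 2)).mul ((hT.sub hs0).pow 2))
        simpa using h4
      have h3 := (isBigO_refl s (𝓝 0)).mul_isLittleO ((isLittleO_one_iff ℝ).2 h2)
      simpa using h3
    have e2 : (fun t => (a t - (T t - μ * s t)) * (μ * F t * (T t - s t) ^ 2 -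
        μ * T t * (2 * (T t - μ * s t) + (a t - (T t - μ * s t))))) =o[𝓝 0] s := by
      have h2 : Tendsto (fun t => μ * F t * (T t - s t) ^ 2 -
        μ * T t * (2 * (T t - μ * s t) + (a t - (T t - μ * s t)))) (𝓝 0)
          (𝓝 (μ * 1 * (1 - 0) ^ 2 - μ * 1 * (2 * (1 - μ * 0) + 0))) :=
        ((hF.const_mul μ).mul ((hT.sub hs0).pow 2)).sub ((hT.const_mul μ).mul
          (((hT.sub (hs0.const_mul μ)).const_mul 2).add hda))
      have h3 := ha.mul_isBigO (h2.isBigO_one ℝ)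
      simpa using h3
    have e3 : (fun t => (u t - μ * F t) * (a t * (T t - s t) ^ 2)) =o[𝓝 0] s := by
      have h2 : Tendsto (fun t => a t * (T t - s t) ^ 2) (𝓝 0) (𝓝 (1 * (1 - 0) ^ 2)) :=
        hat.mul ((hT.sub hs0).pow 2)
      have h3 := hu.mul_isBigO (h2.isBigO_one ℝ)
      simpa using h3
    have e4 : (fun t => (w t - μ ^ 2 * s t) * (T t - s t) ^ 2) =o[𝓝 0] s := by
      have h2 : Tendsto (fun t => (T t - s t) ^ 2) (𝓝 0) (𝓝 ((1 - 0) ^ 2)) := (hT.sub hs0).pow 2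
      have h3 := hw.mul_isBigO (h2.isBigO_one ℝ)
      simpa using h3
    have e5 : (fun t => (y t - s t) * (μ * a t ^ 2)) =o[𝓝 0] s := by
      have h2 : Tendsto (fun t => μ * a t ^ 2) (𝓝 0) (𝓝 (μ * 1 ^ 2)) := (hat.pow 2).const_mul μ
      have h3 := hy.mul_isBigO (h2.isBigO_one ℝ)
      simpa using h3
    refine ((((e1.add e2).add e3).add e4).sub e5).congr_left fun t => ?_
    ring
  have hpos : 0 < μ * (1 - μ) / 2 := by
    have : 0 < 1 - μ := by linarith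
    positivity
  have hTp : ∀ᶠ t in 𝓝 0, 0 < T t := hT.eventually (lt_mem_nhds one_pos)
  filter_upwards [key.def hpos, hlow, hTp] with t ht1 ht2 ht3
  rw [Real.norm_eq_abs, Real.norm_eq_abs, abs_of_nonneg (hs t)] at ht1
  have h4 := (abs_le.1 ht1).2
  have h5 : 3 / 2 * (μ * (1 - μ)) * s t ≤ μ * T t ^ 3 * (F t - 1) := by nlinarith
  have hT3 : 0 < T t ^ 3 := by positivity
  have hT31 : T t ^ 3 ≤ 1 := pow_le_one₀ ht3.le (hT1 t)
  have hμ1 : 0 < 1 - μ := by linarith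
  have h6 : 3 / 2 * (1 - μ) * s t ≤ T t ^ 3 * (F t - 1) := by
    have h7 : μ * (3 / 2 * (1 - μ) * s t) ≤ μ * (T t ^ 3 * (F t - 1)) := by nlinarith
    exact le_of_mul_le_mul_left h7 h0
  have hs' := hs t
  have h7 : 0 ≤ F t - 1 := by
    by_contra hneg
    rw [not_le] at hneg
    have : T t ^ 3 * (F t - 1) < 0 := mul_neg_of_pos_of_neg hT3 hneg
    have : 0 ≤ 3 / 2 * (1 - μ) * s t := by positivity
    linarith
  have h8 : T t ^ 3 * (F t - 1) ≤ F t - 1 := by nlinarith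
  have h9 : 0 ≤ (1 - μ) * s t := by positivity
  nlinarith

/-- `‖α + β‖² - ‖α‖² = o(ζ²)` if `α = O(ζ)`, `β = o(ζ)`. -/
theorem nsq_add_o {G : Type*} [NormedAddCommGroup G] [InnerProductSpace ℂ G] {α β : ℂ → G}
    {ζ : ℂ → ℂ} (hα : α =O[𝓝 0] ζ) (hβ : β =o[𝓝 0] ζ) :
    (fun t => ‖α t + β t‖ ^ 2 - ‖α t‖ ^ 2) =o[𝓝 0] fun t => ‖ζ t‖ ^ 2 := by
  have h1 : (fun t => ‖α t‖ * ‖β t‖) =o[𝓝 0] fun t => ‖ζ t‖ * ‖ζ t‖ :=
    hα.norm_norm.mul_isLittleO hβ.norm_norm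
  have h2 : (fun t => ‖β t‖ * ‖β t‖) =o[𝓝 0] fun t => ‖ζ t‖ * ‖ζ t‖ :=
    hβ.norm_norm.mul_isBigO hβ.isBigO.norm_norm
  have h3 : (fun t => 2 * (‖α t‖ * ‖β t‖) + ‖β t‖ * ‖β t‖) =o[𝓝 0] fun t => ‖ζ t‖ ^ 2 := by
    refine ((h1.const_mul_left 2).add h2).congr_right fun t => ?_
    ring
  refine IsBigO.trans_isLittleO (IsBigO.of_bound 1 (Eventually.of_forall fun t => ?_)) h3
  rw [one_mul, Real.norm_eq_abs, Real.norm_eq_abs, abs_of_nonneg (by positivity :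
    0 ≤ 2 * (‖α t‖ * ‖β t‖) + ‖β t‖ * ‖β t‖), abs_le]
  have h4 := norm_add_le (α t) (β t)
  have h5 := norm_sub_norm_le (α t) (-β t)
  rw [norm_neg, sub_neg_eq_add] at h5
  have h6 := norm_nonneg (α t)
  have h7 := norm_nonneg (β t)
  have h8 := norm_nonneg (α t + β t)
  constructor
  · by_cases hc : ‖β t‖ ≤ ‖α t‖
    · nlinarith
    · nlinarith
  · nlinarith

/-- The second order remainder of a holomorphic map near a point. -/
theorem holo_rem {E' F' : Type*} [NormedAddCommGroup E'] [NormedSpace ℂ E'] [NormedAddCommGroup F']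
    [NormedSpace ℂ F'] {φ : E' → F'} {x₀ : E'} (hφ : ∀ᶠ x in 𝓝 x₀, DifferentiableAt ℂ φ x) :
    ∃ r > 0, ∃ C, 0 ≤ C ∧ ∀ x ∈ ball x₀ r, ∀ y ∈ ball x₀ r,
      ‖φ x - φ y - fderiv ℂ φ y (x - y)‖ ≤ C * ‖x - y‖ ^ 2 := by
  obtain ⟨r₁, hr₁, C, hC, hl⟩ := holo_lip_fderiv hφ
  obtain ⟨r₂, hr₂, hd⟩ := Metric.eventually_nhds_iff_ball.1 hφ
  let _ : NormedSpace ℝ E' := NormedSpace.restrictScalars ℝ ℂ E'
  refine ⟨min r₁ r₂, lt_min hr₁ hr₂, C, hC, fun x hx y hy => ?_⟩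
  have hseg : segment ℝ y x ⊆ ball x₀ (min r₁ r₂) := (convex_ball _ _).segment_subset hy hx
  have h := Convex.norm_image_sub_le_of_norm_hasFDerivWithin_le' (𝕜 := ℂ) (f := φ)
    (s := segment ℝ y x) (x := y) (y := x) (f' := fderiv ℂ φ) (φ := fderiv ℂ φ y)
    (C := C * ‖x - y‖) (fun w hw => (hd w (ball_subset_ball (min_le_right _ _)
      (hseg hw))).hasFDerivAt.hasFDerivWithinAt) (fun w hw => ?_) (convex_segment _ _)
    (left_mem_segment ℝ y x) (right_mem_segment ℝ y x)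
  · refine h.trans (le_of_eq ?_)
    ring
  · refine (hl w (ball_subset_ball (min_le_left _ _) (hseg hw)) y
      (ball_subset_ball (min_le_left _ _) hy)).trans ?_
    refine mul_le_mul_of_nonneg_left ?_ hC
    have h2 := norm_sub_le_of_mem_segment hw
    exact h2

theorem Nr.mu_ne {φ : E m → E n} {μ : ℝ} {e : E m} {N : E n} (h : Nr φ μ e N) : (μ : ℂ) ≠ 0 :=
  Complex.ofReal_ne_zero.2 h.pos.ne'

theorem Nr.ev {φ : E m → E n} {μ : ℝ} {e : E m} {N : E n} (h : Nr φ μ e N) :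
    ∀ᶠ x in 𝓝 (0 : E m), DifferentiableAt ℂ φ x := by
  filter_upwards [ball_mem_nhds (0 : E m) one_pos] with x hx
  exact h.diff.differentiableAt (isOpen_ball.mem_nhds hx)

/-- `B(e,e) = A τ + b N`, `τ ∈ K`. -/
theorem Nr.exists_tau {φ : E m → E n} {μ : ℝ} {e : E m} {N : E n} (h : Nr φ μ e N) :
    ∃ τ : E m, ⟪e, τ⟫_ℂ = 0 ∧ fderiv ℂ (fderiv ℂ φ) 0 e e = fderiv ℂ φ 0 τ +
      ⟪N, fderiv ℂ (fderiv ℂ φ) 0 e e⟫_ℂ • N := by
  obtain ⟨τ, hτ⟩ := h.spn (fderiv ℂ (fderiv ℂ φ) 0 e e)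
  refine ⟨τ, ?_, hτ⟩
  have h1 := h.orth
  rw [hτ, inner_add_right, inner_smul_right, h.nor e, mul_zero, add_zero, h.adj] at h1
  exact (mul_eq_zero.1 h1).resolve_left h.mu_ne

/-- Near the centre. -/
theorem Nr.rloc {φ : E m → E n} {μ : ℝ} {e : E m} {N : E n} (h : Nr φ μ e N) {z : E m}
    (he : ⟪e, z⟫_ℂ = 0) : ∀ᶠ t : ℂ in 𝓝 0, ⟪N, fderiv ℂ φ (t • z) e⟫_ℂ = 0 := by
  obtain ⟨τ, hτ0, hτ⟩ := h.exists_tau
  set b : ℂ := ⟪N, fderiv ℂ (fderiv ℂ φ) 0 e e⟫_ℂ with hb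
  have hb0 : b ≠ 0 := h.ne
  have hμ := h.mu_ne
  have hφ := h.ev
  have hφ' := holo_fderiv_ev hφ
  have hφ'' := holo_fderiv_ev hφ'
  -- the curves
  set X : ℂ → E n := fun t => fderiv ℂ φ (t • z) e with hX
  set r : ℂ → ℂ := fun t => ⟪N, X t⟫_ℂ with hr
  set ζ : ℂ → ℂ := fun t => -(r t) / b with hζ
  set x : ℂ → E m := fun t => t • z + ζ t • e with hx
  set V : ℂ → E m := fun t => e - ζ t • τ with hV
  set U : ℂ → E n := fun t => fderiv ℂ φ (x t) (V t) with hU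
  set P : ℂ → E n := fun t => φ (x t) with hP
  set F : ℂ → ℂ := fun t => ⟪fderiv ℂ φ 0 e, U t⟫_ℂ / μ with hF
  have htz : Tendsto (fun t : ℂ => t • z) (𝓝 0) (𝓝 0) := by
    have : Continuous fun t : ℂ => t • z := by fun_prop
    simpa using this.tendsto 0
  have hXd : ∀ᶠ t in 𝓝 (0 : ℂ), DifferentiableAt ℂ X t := by
    filter_upwards [htz.eventually hφ'] with t ht
    have h1 : DifferentiableAt ℂ (fun t : ℂ => fderiv ℂ φ (t • z)) t :=
      DifferentiableAt.comp t ht (by fun_prop)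
    exact h1.clm_apply (differentiableAt_const e)
  have hrd : ∀ᶠ t in 𝓝 (0 : ℂ), DifferentiableAt ℂ r t := by
    filter_upwards [hXd] with t ht
    exact ((innerSL ℂ N).differentiableAt).comp t ht
  have hζd : ∀ᶠ t in 𝓝 (0 : ℂ), DifferentiableAt ℂ ζ t := by
    filter_upwards [hrd] with t ht
    exact ht.neg.div_const b
  have hr0 : r 0 = 0 := by
    simp only [hr, hX, zero_smul]
    rw [← inner_conj_symm, h.nor e, map_zero]
  have hζ0 : ζ 0 = 0 := by simp only [hζ, hr0, neg_zero, zero_div]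
  have hζt : Tendsto ζ (𝓝 0) (𝓝 0) := by
    have := hζd.self_of_nhds.continuousAt.tendsto
    rwa [hζ0] at this
  have hX0 : X 0 = fderiv ℂ φ 0 e := by simp only [hX, zero_smul]
  have hXt : Tendsto X (𝓝 0) (𝓝 (fderiv ℂ φ 0 e)) := by
    have := hXd.self_of_nhds.continuousAt.tendsto
    rwa [hX0] at this
  have hxd : ∀ᶠ t in 𝓝 (0 : ℂ), DifferentiableAt ℂ x t := by
    filter_upwards [hζd] with t ht
    exact (by fun_prop : DifferentiableAt ℂ (fun t : ℂ => t • z) t).add (ht.smul_const e)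
  have hx0 : x 0 = 0 := by simp only [hx, hζ0, zero_smul, add_zero]
  have hxt : Tendsto x (𝓝 0) (𝓝 0) := by
    have := hxd.self_of_nhds.continuousAt.tendsto
    rwa [hx0] at this
  have hVd : ∀ᶠ t in 𝓝 (0 : ℂ), DifferentiableAt ℂ V t := by
    filter_upwards [hζd] with t ht
    exact (differentiableAt_const e).sub (ht.smul_const τ)
  have hV0 : V 0 = e := by simp only [hV, hζ0, zero_smul, sub_zero]
  have hVt : Tendsto V (𝓝 0) (𝓝 e) := by
    have := hVd.self_of_nhds.continuousAt.tendsto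
    rwa [hV0] at this
  have hUd : ∀ᶠ t in 𝓝 (0 : ℂ), DifferentiableAt ℂ U t := by
    filter_upwards [hxt.eventually hφ', hxd, hVd] with t h1 h2 h3
    exact (h1.comp t h2).clm_apply h3
  have hU0 : U 0 = fderiv ℂ φ 0 e := by simp only [hU, hx0, hV0]
  have hUt : Tendsto U (𝓝 0) (𝓝 (fderiv ℂ φ 0 e)) := by
    have := hUd.self_of_nhds.continuousAt.tendsto
    rwa [hU0] at this
  have hFd : ∀ᶠ t in 𝓝 (0 : ℂ), DifferentiableAt ℂ F t := by
    filter_upwards [hUd] with t ht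
    exact (((innerSL ℂ (fderiv ℂ φ 0 e)).differentiableAt).comp t ht).div_const _
  have hAe : ⟪fderiv ℂ φ 0 e, fderiv ℂ φ 0 e⟫_ℂ = μ := by
    rw [h.adj, inner_self_eq_norm_sq_to_K (𝕜 := ℂ), h.unit]
    simp
  have hF0 : F 0 = 1 := by
    simp only [hF, hU0]
    rw [hAe, div_self hμ]
  have hFt : Tendsto F (𝓝 0) (𝓝 1) := by
    have := hFd.self_of_nhds.continuousAt.tendsto
    rwa [hF0] at this
  have hball : ∀ᶠ t in 𝓝 (0 : ℂ), ‖t • z‖ < 1 := by
    have := htz.norm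
    rw [norm_zero] at this
    exact this.eventually (gt_mem_nhds one_pos)
  have hball' : ∀ᶠ t in 𝓝 (0 : ℂ), ‖x t‖ < 1 := by
    have := hxt.norm
    rw [norm_zero] at this
    exact this.eventually (gt_mem_nhds one_pos)
  have hee : ∀ t : ℂ, ⟪e, t • z⟫_ℂ = 0 := fun t => by rw [inner_smul_right, he, mul_zero]
  -- first estimate
  have E1 : (fun t => U t - (⟪fderiv ℂ φ 0 e, X t⟫_ℂ / μ) • fderiv ℂ φ 0 e) =o[𝓝 0] ζ := by
    have hstrict : HasStrictFDerivAt (fderiv ℂ φ) (fderiv ℂ (fderiv ℂ φ) 0) 0 := by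
      refine hasStrictFDerivAt_of_hasFDerivAt_of_continuousAt ?_
        hφ''.self_of_nhds.continuousAt
      filter_upwards [hφ'] with y hy using hy.hasFDerivAt
    have h1 : Tendsto (fun t => (x t, t • z)) (𝓝 0) (𝓝 ((0 : E m), (0 : E m))) :=
      hxt.prodMk_nhds htz
    have h2 := hstrict.isLittleO.comp_tendsto h1
    have h3 : (fun t => fderiv ℂ φ (x t) - fderiv ℂ φ (t • z) -
        ζ t • fderiv ℂ (fderiv ℂ φ) 0 e) =o[𝓝 0] ζ := by
      refine (h2.congr_left fun t => ?_).trans_isBigO (IsBigO.of_bound 1 ?_)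
      · simp only [Function.comp, hx, add_sub_cancel_left, map_smul]
      · filter_upwards with t
        simp only [Function.comp, hx, add_sub_cancel_left, norm_smul, h.unit, mul_one, one_mul,
          le_refl]
    have h4 : (fun t => (fderiv ℂ φ (x t) - fderiv ℂ φ (t • z) -
        ζ t • fderiv ℂ (fderiv ℂ φ) 0 e) (V t)) =o[𝓝 0] ζ := by
      have h5 : (fun t => ‖fderiv ℂ φ (x t) - fderiv ℂ φ (t • z) -
        ζ t • fderiv ℂ (fderiv ℂ φ) 0 e‖ * ‖V t‖) =o[𝓝 0] fun t => ζ t * (1 : ℂ) :=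
        h3.norm_left.mul_isBigO (by
          have := (hVt.norm.isBigO_one ℂ)
          exact this)
      have h6 : (fun t => ζ t * (1 : ℂ)) = ζ := funext fun t => mul_one _
      rw [h6] at h5
      refine IsBigO.trans_isLittleO (IsBigO.of_bound 1 (Eventually.of_forall fun t => ?_)) h5
      rw [one_mul, Real.norm_of_nonneg (by positivity)]
      exact ContinuousLinearMap.le_opNorm _ _
    have h7 : (fun t => ζ t ^ 2 • fderiv ℂ (fderiv ℂ φ) 0 e τ) =o[𝓝 0] ζ := by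
      have h8 : (fun t => ζ t * ζ t) =o[𝓝 0] fun t => ζ t * (1 : ℂ) :=
        (isBigO_refl ζ _).mul_isLittleO ((isLittleO_one_iff ℂ).2 hζt)
      have h9 : (fun t => (ζ t * ζ t) • fderiv ℂ (fderiv ℂ φ) 0 e τ) =o[𝓝 0]
          fun t => (ζ t * (1 : ℂ)) • (1 : ℂ) :=
        h8.smul_isBigO (isBigO_const_const _ one_ne_zero _)
      refine (h9.congr_left fun t => ?_).congr_right fun t => ?_
      · rw [sq]
      · simp
    refine (h4.sub h7).congr' ?_ EventuallyEq.rfl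
    filter_upwards [hball] with t ht
    have h8 := h.dec (y := X t) fun ξ hξ => h.perp ht (hee t) hξ
    have h9 : fderiv ℂ φ (t • z) τ = fderiv ℂ φ 0 τ := h.dlin ht (hee t) hτ0
    have h10 : fderiv ℂ φ (t • z) (V t) = X t - ζ t • fderiv ℂ φ 0 τ := by
      simp only [hV, map_sub, map_smul, h9, hX]
    have h11 : r t = -(ζ t) * b := by
      simp only [hζ]
      field_simp
    have h12 : (⟪fderiv ℂ φ 0 e, X t⟫_ℂ / μ) • fderiv ℂ φ 0 e = X t + (ζ t * b) • N := by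
      have h13 : X t = (⟪fderiv ℂ φ 0 e, X t⟫_ℂ / μ) • fderiv ℂ φ 0 e + r t • N := h8
      rw [h11] at h13
      conv_rhs => rw [h13]
      module
    rw [h12]
    simp only [sub_apply, smul_apply, h10]
    have h13 : fderiv ℂ (fderiv ℂ φ) 0 e (V t) = fderiv ℂ φ 0 τ + b • N -
        ζ t • fderiv ℂ (fderiv ℂ φ) 0 e τ := by
      simp only [hV, map_sub, map_smul]
      rw [← hτ]
    rw [h13]
    change fderiv ℂ φ (x t) (V t) - _ - _ - _ = fderiv ℂ φ (x t) (V t) - _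
    module
  -- second estimate
  set s : ℂ → ℝ := fun t => ‖ζ t‖ ^ 2 with hs
  have hst : Tendsto s (𝓝 0) (𝓝 0) := by
    have := hζt.norm.pow 2
    simpa using this
  set α : ℂ → E n := fun t => t • fderiv ℂ φ 0 z + ζ t • X t with hα
  have hαt : Tendsto α (𝓝 0) (𝓝 0) := by
    have h1 : Tendsto (fun t : ℂ => t • fderiv ℂ φ 0 z) (𝓝 0) (𝓝 0) := by
      have : Continuous fun t : ℂ => t • fderiv ℂ φ 0 z := by fun_prop
      simpa using this.tendsto 0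
    have h2 := h1.add (hζt.smul hXt)
    simpa using h2
  have E2 : (fun t => P t - α t) =O[𝓝 0] s := by
    obtain ⟨ρ, hρ, C, hC, hrem⟩ := holo_rem hφ
    refine IsBigO.of_bound C ?_
    filter_upwards [hxt.eventually (ball_mem_nhds 0 hρ), htz.eventually (ball_mem_nhds 0 hρ),
      hball] with t h1 h2 h3
    have h4 := hrem _ h1 _ h2
    have h5 : φ (t • z) = t • fderiv ℂ φ 0 z := by rw [h.lin h3 (hee t), map_smul]
    have h6 : x t - t • z = ζ t • e := by simp only [hx, add_sub_cancel_left]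
    rw [h6, map_smul, norm_smul, h.unit, mul_one, h5] at h4
    have h7 : P t - α t = φ (x t) - t • fderiv ℂ φ 0 z - ζ t • fderiv ℂ φ (t • z) e := by
      simp only [hP, hα, hX]
      module
    rw [h7, Real.norm_of_nonneg (by positivity)]
    exact h4
  have hso : s =o[𝓝 0] ζ := by
    have h8 : (fun t => ζ t * ζ t) =o[𝓝 0] fun t => ζ t * (1 : ℂ) :=
      (isBigO_refl ζ _).mul_isLittleO ((isLittleO_one_iff ℂ).2 hζt)
    refine IsBigO.trans_isLittleO (IsBigO.of_bound 1 (Eventually.of_forall fun t => ?_))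
      (h8.congr_right fun t => mul_one _)
    simp only [hs, norm_mul, one_mul, norm_pow, norm_norm]
    rw [sq]
  -- `U = F A e + R`
  set R : ℂ → E n := fun t => U t - F t • fderiv ℂ φ 0 e with hR
  have hRo : R =o[𝓝 0] ζ := by
    have h1 : (fun t => ⟪fderiv ℂ φ 0 e, U t - (⟪fderiv ℂ φ 0 e, X t⟫_ℂ / μ) •
        fderiv ℂ φ 0 e⟫_ℂ) =o[𝓝 0] ζ := by
      refine IsBigO.trans_isLittleO (IsBigO.of_bound ‖fderiv ℂ φ 0 e‖
        (Eventually.of_forall fun t => ?_)) E1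
      exact norm_inner_le_norm _ _
    have h2 : (fun t => (⟪fderiv ℂ φ 0 e, U t - (⟪fderiv ℂ φ 0 e, X t⟫_ℂ / μ) •
        fderiv ℂ φ 0 e⟫_ℂ / μ) • fderiv ℂ φ 0 e) =o[𝓝 0] ζ := by
      refine IsBigO.trans_isLittleO (IsBigO.of_bound (‖(μ : ℂ)‖⁻¹ * ‖fderiv ℂ φ 0 e‖)
        (Eventually.of_forall fun t => ?_)) h1
      rw [norm_smul, norm_div]
      apply le_of_eq
      ring
    refine (E1.sub h2).congr_left fun t => ?_
    simp only [hR, hF]
    rw [inner_sub_right, inner_smul_right, hAe, div_mul_cancel₀ _ hμ, sub_div]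
    module
  have hRA : ∀ t, ⟪fderiv ℂ φ 0 e, R t⟫_ℂ = 0 := fun t => by
    simp only [hR, hF]
    rw [inner_sub_right, inner_smul_right, hAe, div_mul_cancel₀ _ hμ, sub_self]
  have hnA : ‖fderiv ℂ φ 0 e‖ ^ 2 = μ := h.eq
  -- norms
  have hT : Tendsto (fun t : ℂ => 1 - ‖t • z‖ ^ 2) (𝓝 0) (𝓝 1) := by
    have := (htz.norm.pow 2).const_sub 1
    simpa using this
  have hF2 : Tendsto (fun t => ‖F t‖ ^ 2) (𝓝 0) (𝓝 1) := by
    have := hFt.norm.pow 2
    simpa using this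
  have ndu : (fun t => ‖U t‖ ^ 2 - μ * ‖F t‖ ^ 2) =o[𝓝 0] s := by
    have h1 : (fun t => ‖R t‖ ^ 2) =o[𝓝 0] s := by
      have h2 := hRo.norm_norm.mul hRo.norm_norm
      refine (h2.congr_left fun t => ?_).congr_right fun t => ?_
      · rw [sq]
      · simp only [hs]
        rw [sq]
    refine h1.congr_left fun t => ?_
    have h2 : U t = F t • fderiv ℂ φ 0 e + R t := by simp only [hR]; module
    have h3 : ⟪F t • fderiv ℂ φ 0 e, R t⟫_ℂ = 0 := by rw [inner_smul_left, hRA t, mul_zero]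
    have h4 : ‖U t‖ ^ 2 = ‖F t • fderiv ℂ φ 0 e‖ ^ 2 + ‖R t‖ ^ 2 := by
      rw [h2, @norm_add_sq ℂ, h3]
      simp
    rw [h4, norm_smul, mul_pow, hnA]
    ring
  have hXn : Tendsto (fun t => ‖X t‖ ^ 2) (𝓝 0) (𝓝 μ) := by
    have := hXt.norm.pow 2
    rwa [hnA] at this
  have hperp : ∀ᶠ t in 𝓝 (0 : ℂ), ⟪fderiv ℂ φ 0 z, X t⟫_ℂ = 0 := by
    filter_upwards [hball] with t ht
    exact h.perp ht (hee t) he
  have hnz : ‖fderiv ℂ φ 0 z‖ = ‖z‖ := h.iso z he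
  have nda : (fun t => (1 - ‖P t‖ ^ 2) - ((1 - ‖t • z‖ ^ 2) - μ * s t)) =o[𝓝 0] s := by
    have h1 : (fun t => ‖α t‖ * ‖P t - α t‖) =o[𝓝 0] s := by
      have h2 : Tendsto (fun t => ‖α t‖) (𝓝 0) (𝓝 0) := by simpa using hαt.norm
      have h3 := ((isLittleO_one_iff ℝ).2 h2).mul_isBigO E2.norm_left
      simpa using h3
    have h1' : (fun t => ‖P t - α t‖ * ‖P t - α t‖) =o[𝓝 0] s := by
      have h2 : Tendsto (fun t => ‖P t - α t‖) (𝓝 0) (𝓝 0) := by
        have := (E2.trans_tendsto hst).norm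
        simpa using this
      have h3 := ((isLittleO_one_iff ℝ).2 h2).mul_isBigO E2.norm_left
      simpa using h3
    have h2 : (fun t => ‖P t‖ ^ 2 - ‖α t‖ ^ 2) =o[𝓝 0] s := by
      refine IsBigO.trans_isLittleO (IsBigO.of_bound 1 (Eventually.of_forall fun t => ?_))
        ((h1.const_mul_left 2).add h1')
      rw [one_mul, Real.norm_eq_abs, Real.norm_eq_abs, abs_of_nonneg (by positivity :
        0 ≤ 2 * (‖α t‖ * ‖P t - α t‖) + ‖P t - α t‖ * ‖P t - α t‖)]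
      have h3 := abs_norm_sub_norm_le (P t) (α t)
      have h4 : ‖P t‖ ^ 2 - ‖α t‖ ^ 2 = (‖P t‖ - ‖α t‖) * (2 * ‖α t‖ + (‖P t‖ - ‖α t‖)) := by ring
      rw [h4, abs_mul]
      have h5 : |2 * ‖α t‖ + (‖P t‖ - ‖α t‖)| ≤ 2 * ‖α t‖ + ‖P t - α t‖ := by
        refine (abs_add_le _ _).trans ?_
        rw [abs_of_nonneg (by positivity : 0 ≤ 2 * ‖α t‖)]
        linarith
      calc |‖P t‖ - ‖α t‖| * |2 * ‖α t‖ + (‖P t‖ - ‖α t‖)|
          ≤ ‖P t - α t‖ * (2 * ‖α t‖ + ‖P t - α t‖) :=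
            mul_le_mul h3 h5 (abs_nonneg _) (norm_nonneg _)
        _ = _ := by ring
    have h3 : (fun t => s t * (‖X t‖ ^ 2 - μ)) =o[𝓝 0] s := by
      have h4 : Tendsto (fun t => ‖X t‖ ^ 2 - μ) (𝓝 0) (𝓝 0) := by
        have := hXn.sub_const μ
        simpa using this
      have h5 := (isBigO_refl s (𝓝 0)).mul_isLittleO ((isLittleO_one_iff ℝ).2 h4)
      simpa using h5
    refine (h2.add h3).neg_left.congr' ?_ EventuallyEq.rfl
    filter_upwards [hperp] with t ht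
    have h4 : ‖α t‖ ^ 2 = ‖t • z‖ ^ 2 + s t * ‖X t‖ ^ 2 := by
      have h5 : ⟪t • fderiv ℂ φ 0 z, ζ t • X t⟫_ℂ = 0 := by
        rw [inner_smul_left, inner_smul_right, ht, mul_zero, mul_zero]
      simp only [hα, hs]
      rw [@norm_add_sq ℂ, h5, norm_smul, norm_smul, norm_smul, hnz]
      simp
      ring
    rw [h4]
    ring
  have ndw : (fun t => ‖⟪P t, U t⟫_ℂ‖ ^ 2 - μ ^ 2 * s t) =o[𝓝 0] s := by
    have h1 : (fun t => ⟪P t, U t⟫_ℂ - star (ζ t) * μ) =o[𝓝 0] ζ := by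
      have a1 : (fun t => star (ζ t) * (F t * ⟪X t, fderiv ℂ φ 0 e⟫_ℂ - μ)) =o[𝓝 0] ζ := by
        have h2 : Tendsto (fun t => F t * ⟪X t, fderiv ℂ φ 0 e⟫_ℂ - μ) (𝓝 0) (𝓝 0) := by
          have h3 := (hFt.mul (hXt.inner tendsto_const_nhds :
            Tendsto (fun t => ⟪X t, fderiv ℂ φ 0 e⟫_ℂ) (𝓝 0) _)).sub_const (μ : ℂ)
          rw [hAe] at h3
          simpa using h3
        have h3 : (fun t => star (ζ t)) =O[𝓝 0] ζ :=
          IsBigO.of_bound 1 (Eventually.of_forall fun t => by rw [norm_star, one_mul])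
        have h4 := h3.mul_isLittleO ((isLittleO_one_iff ℂ).2 h2)
        simpa using h4
      have a2 : (fun t => ⟪α t, R t⟫_ℂ) =o[𝓝 0] ζ := by
        have h2 : Tendsto (fun t => ‖α t‖) (𝓝 0) (𝓝 0) := by simpa using hαt.norm
        have h3 : (fun t => ‖α t‖ * ‖R t‖) =o[𝓝 0] fun t => (1 : ℝ) * ‖ζ t‖ :=
          ((isLittleO_one_iff ℝ).2 h2).mul_isBigO hRo.isBigO.norm_norm
        refine IsBigO.trans_isLittleO (IsBigO.of_bound 1 (Eventually.of_forall fun t => ?_))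
          (isLittleO_norm_right.1 (h3.congr_right fun t => one_mul _))
        rw [one_mul, Real.norm_of_nonneg (by positivity)]
        exact norm_inner_le_norm _ _
      have a3 : (fun t => ⟪P t - α t, U t⟫_ℂ) =o[𝓝 0] ζ := by
        have h2 : (fun t => ‖P t - α t‖ * ‖U t‖) =O[𝓝 0] fun t => s t * (1 : ℝ) :=
          E2.norm_left.mul (hUt.norm.isBigO_one ℝ)
        refine IsBigO.trans_isLittleO (IsBigO.of_bound 1 (Eventually.of_forall fun t => ?_))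
          ((h2.congr_right fun t => mul_one _).trans_isLittleO hso)
        rw [one_mul, Real.norm_of_nonneg (by positivity)]
        exact norm_inner_le_norm _ _
      refine ((a1.add a2).add a3).congr' ?_ EventuallyEq.rfl
      filter_upwards with t
      have h2 : U t = F t • fderiv ℂ φ 0 e + R t := by simp only [hR]; module
      have h3 : ⟪α t, fderiv ℂ φ 0 e⟫_ℂ = star (ζ t) * ⟪X t, fderiv ℂ φ 0 e⟫_ℂ := by
        have h4 : ⟪fderiv ℂ φ 0 z, fderiv ℂ φ 0 e⟫_ℂ = 0 := by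
          rw [← inner_conj_symm, h.adj, he, mul_zero, map_zero]
        simp only [hα]
        rw [inner_add_left, inner_smul_left, inner_smul_left, h4, mul_zero, zero_add]
        rfl
      have h4 : ⟪P t, U t⟫_ℂ = ⟪α t, U t⟫_ℂ + ⟪P t - α t, U t⟫_ℂ := by
        rw [← inner_add_left]
        congr 1
        module
      have h5 : ⟪α t, U t⟫_ℂ = F t * (star (ζ t) * ⟪X t, fderiv ℂ φ 0 e⟫_ℂ) + ⟪α t, R t⟫_ℂ := by
        rw [h2, inner_add_right, inner_smul_right, h3]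
      rw [h4, h5]
      ring
    have h2 : (fun t => star (ζ t) * (μ : ℂ)) =O[𝓝 0] ζ :=
      IsBigO.of_bound ‖(μ : ℂ)‖ (Eventually.of_forall fun t => by
        rw [norm_mul, norm_star, mul_comm])
    refine (nsq_add_o h2 h1).congr_left fun t => ?_
    rw [add_sub_cancel, norm_mul, norm_star, mul_pow, Complex.norm_real, Real.norm_eq_abs, sq_abs]
    simp only [hs]
    ring
  have ndy : (fun t => ‖⟪x t, V t⟫_ℂ‖ ^ 2 - s t) =o[𝓝 0] s := by
    have h1 : (fun t : ℂ => -(ζ t) * (star t * ⟪z, τ⟫_ℂ)) =o[𝓝 0] ζ := by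
      have h2 : Tendsto (fun t : ℂ => star t * ⟪z, τ⟫_ℂ) (𝓝 0) (𝓝 0) := by
        have : Continuous fun t : ℂ => star t * ⟪z, τ⟫_ℂ := by fun_prop
        simpa using this.tendsto 0
      have h3 := (isBigO_refl ζ (𝓝 0)).neg_left.mul_isLittleO ((isLittleO_one_iff ℂ).2 h2)
      simpa using h3
    have h2 : (fun t => star (ζ t)) =O[𝓝 0] ζ :=
      IsBigO.of_bound 1 (Eventually.of_forall fun t => by rw [norm_star, one_mul])
    refine (nsq_add_o h2 h1).congr_left fun t => ?_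
    have h3 : ⟪x t, V t⟫_ℂ = star (ζ t) + -(ζ t) * (star t * ⟪z, τ⟫_ℂ) := by
      have h4 : ⟪z, e⟫_ℂ = 0 := by rw [← inner_conj_symm, he, map_zero]
      have h5 : ⟪e, e⟫_ℂ = 1 := by
        rw [inner_self_eq_norm_sq_to_K (𝕜 := ℂ), h.unit]
        simp
      simp only [hx, hV]
      rw [inner_add_left, inner_sub_right, inner_sub_right, inner_smul_left, inner_smul_left,
        inner_smul_left, inner_smul_right, inner_smul_left, inner_smul_right, h4, h5, hτ0]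
      simp only [mul_zero, mul_one, zero_sub, sub_zero]
      change -((starRingEnd ℂ) t * (ζ t * ⟪z, τ⟫_ℂ)) + (starRingEnd ℂ) (ζ t) = _
      simp only [Complex.star_def]
      ring
    rw [h3, norm_star]
  have hlow : ∀ᶠ t in 𝓝 (0 : ℂ), μ * ((1 - ‖t • z‖ ^ 2) - s t + ‖⟪x t, V t⟫_ℂ‖ ^ 2) *
      (1 - ‖P t‖ ^ 2) ^ 2 ≤ (‖U t‖ ^ 2 * (1 - ‖P t‖ ^ 2) + ‖⟪P t, U t⟫_ℂ‖ ^ 2) *
        ((1 - ‖t • z‖ ^ 2) - s t) ^ 2 := by
    filter_upwards [hball'] with t ht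
    have h1 := h.low (x t) ht (V t)
    have h2 : ‖x t‖ ^ 2 = ‖t • z‖ ^ 2 + s t := by
      have h3 : ⟪t • z, ζ t • e⟫_ℂ = 0 := by
        rw [inner_smul_right, ← inner_conj_symm, hee, map_zero, mul_zero]
      simp only [hx, hs]
      rw [@norm_add_sq ℂ, h3, norm_smul (ζ t), h.unit]
      simp
    have h3 : 1 ≤ ‖V t‖ ^ 2 := by
      have h4 : ⟪e, ζ t • τ⟫_ℂ = 0 := by rw [inner_smul_right, hτ0, mul_zero]
      simp only [hV]
      rw [@norm_sub_sq ℂ, h4, h.unit]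
      have : 0 ≤ ‖ζ t • τ‖ ^ 2 := by positivity
      simp
    have h4 : 0 < 1 - ‖x t‖ ^ 2 := by
      have := norm_nonneg (x t)
      nlinarith
    have h5 : 0 < 1 - ‖P t‖ ^ 2 := by
      have h6 : ‖P t‖ < 1 := by
        have := h.maps (mem_ball_zero_iff.2 ht)
        exact mem_ball_zero_iff.1 this
      have := norm_nonneg (P t)
      nlinarith
    have h6 : μ * ((‖V t‖ ^ 2 * (1 - ‖x t‖ ^ 2) + ‖⟪x t, V t⟫_ℂ‖ ^ 2) / (1 - ‖x t‖ ^ 2) ^ 2) ≤
      (‖U t‖ ^ 2 * (1 - ‖P t‖ ^ 2) + ‖⟪P t, U t⟫_ℂ‖ ^ 2) / (1 - ‖P t‖ ^ 2) ^ 2 := h1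
    rw [← mul_div_assoc, div_le_div_iff₀ (by positivity) (by positivity)] at h6
    have h7 : (1 - ‖t • z‖ ^ 2) - s t = 1 - ‖x t‖ ^ 2 := by rw [h2]; ring
    rw [h7]
    refine le_trans ?_ h6
    refine mul_le_mul_of_nonneg_right ?_ (by positivity)
    refine mul_le_mul_of_nonneg_left ?_ h.pos.le
    nlinarith
  have hfin := min_ineq h.pos h.lt (s := s) (T := fun t => 1 - ‖t • z‖ ^ 2)
    (F := fun t => ‖F t‖ ^ 2) (u := fun t => ‖U t‖ ^ 2) (a := fun t => 1 - ‖P t‖ ^ 2)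
    (w := fun t => ‖⟪P t, U t⟫_ℂ‖ ^ 2) (y := fun t => ‖⟪x t, V t⟫_ℂ‖ ^ 2)
    (fun t => by positivity) hst hT (fun t => by
      have : 0 ≤ ‖t • z‖ ^ 2 := by positivity
      linarith) hF2 nda ndu ndw ndy hlow
  have hμ1 : 0 < 1 - μ := by linarith [h.lt]
  -- minimum modulus
  have hFne : ∀ᶠ t in 𝓝 (0 : ℂ), F t ≠ 0 := hFt.eventually_ne one_ne_zero
  have hmax : ∀ᶠ t in 𝓝 (0 : ℂ), (F t)⁻¹ = (F 0)⁻¹ := by
    refine Complex.eventually_eq_of_isLocalMax_norm (f := fun t => (F t)⁻¹) ?_ ?_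
    · filter_upwards [hFd, hFne] with t h1 h2 using h1.inv h2
    · filter_upwards [hfin, hFne] with t h1 h2
      simp only [Function.comp, norm_inv, hF0, norm_one, inv_one]
      have h3 : 1 ≤ ‖F t‖ ^ 2 := by
        have h4 : 0 ≤ (1 - μ) * s t := by positivity
        linarith
      have h4 : 1 ≤ ‖F t‖ := by
        by_contra hc
        rw [not_le] at hc
        have := norm_nonneg (F t)
        nlinarith
      exact inv_le_one_of_one_le₀ h4
  filter_upwards [hfin, hmax] with t h1 h2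
  rw [hF0, inv_one] at h2
  have h2 : F t = 1 := by rw [← inv_inv (F t), h2, inv_one]
  rw [h2, norm_one, one_pow] at h1
  have h3 : s t = 0 := by
    have h4 : 0 ≤ s t := by positivity
    nlinarith
  have h4 : ζ t = 0 := by
    simp only [hs] at h3
    exact norm_eq_zero.1 (pow_eq_zero_iff two_ne_zero |>.1 h3)
  have h5 : r t = 0 := by
    simp only [hζ] at h4
    rcases div_eq_zero_iff.1 h4 with h6 | h6
    · exact neg_eq_zero.1 h6
    · exact absurd h6 hb0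
  exact h5

theorem Nr.rzero {φ : E m → E n} {μ : ℝ} {e : E m} {N : E n} (h : Nr φ μ e N) {z : E m}
    (hz : ‖z‖ < 1) (he : ⟪e, z⟫_ℂ = 0) : ⟪N, fderiv ℂ φ z e⟫_ℂ = 0 := by
  have hopen : IsOpen {t : ℂ | t • z ∈ ball (0 : E m) 1} := by
    apply isOpen_ball.preimage
    fun_prop
  have hconv : Convex ℝ {t : ℂ | t • z ∈ ball (0 : E m) 1} := by
    have h1 : IsLinearMap ℝ fun t : ℂ => t • z :=
      { map_add := fun a b => add_smul a b z
        map_smul := fun a b => smul_assoc a b z }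
    exact (convex_ball (0 : E m) 1).is_linear_preimage h1
  have hd : DifferentiableOn ℂ (fun t : ℂ => ⟪N, fderiv ℂ φ (t • z) e⟫_ℂ)
      {t : ℂ | t • z ∈ ball (0 : E m) 1} := by
    intro t ht
    have h1 : DifferentiableAt ℂ (fderiv ℂ φ) (t • z) :=
      (holo_fderiv isOpen_ball h.diff).differentiableAt (isOpen_ball.mem_nhds ht)
    have h2 : DifferentiableAt ℂ (fun t : ℂ => fderiv ℂ φ (t • z)) t :=
      DifferentiableAt.comp t h1 (by fun_prop)
    have h3 := h2.clm_apply (differentiableAt_const e)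
    exact (((innerSL ℂ N).differentiableAt).comp t h3).differentiableWithinAt
  have h1 := (hd.analyticOnNhd hopen).eqOn_zero_of_preconnected_of_eventuallyEq_zero
    hconv.isPreconnected (z₀ := 0) (by simp) (h.rloc he)
  have h2 := h1 (x := (1 : ℂ)) (by simpa using hz)
  simpa using h2

end Pool.Agent.Lib.MP_5d4057_al.RG
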