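import Pool.Agent.Lib.MP_5d4057_al.RG.BallB
import Pool.Agent.Lib.MP_5d4057_al.RG.BallE
import Pool.Agent.Lib.MP_5d4057_al.RG.BallF

/-!
# RG G6: a contraction of balls of codimension at most one which attains its minimal stretching factor is isometric

SUPPOSE `μ < 1`. `Mn.exists_nr`; `r = 0` (`Nr.rzero`), so `|p| ≥ 1 = |p(0)|` on `K` (`Nr.ineq`): `p = 1` (`Nr.same`, minimum modulus
on the disc `t u`), `φ'(z) e = A e` on `K`. Then `Nr.bound` holds for all `z = t u`, `u ∈ K` a unit vector (`m ≥ 2`), `b` is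
holomorphic on the disc and `|1/b|² ≤ (1-|t|²)/(2μ(1-μ))`: maximum principle, `1/b(0) = 0`.
-/

set_option autoImplicit false

namespace Pool.Agent.Lib.MP_5d4057_al.RG

open Filter Topology Asymptotics Metric

open scoped InnerProductSpace

variable {m n k : ℕ}

private theorem diff_line {G : Type*} [NormedAddCommGroup G] [NormedSpace ℂ G] {g : E m → G}
    {u : E m} {t : ℂ} (h : DifferentiableAt ℂ g (t • u)) :
    DifferentiableAt ℂ (fun t : ℂ => g (t • u)) t :=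
  DifferentiableAt.comp t h (by fun_prop)

theorem Nr.same {φ : E m → E n} {μ : ℝ} {e : E m} {N : E n} (h : Nr φ μ e N) {z : E m}
    (hz : ‖z‖ < 1) (he : ⟪e, z⟫_ℂ = 0) : fderiv ℂ φ z e = fderiv ℂ φ 0 e := by
  have hμ := h.mu_ne
  have hopen : IsOpen {t : ℂ | t • z ∈ ball (0 : E m) 1} := by
    apply isOpen_ball.preimage
    fun_prop
  have hconv : Convex ℝ {t : ℂ | t • z ∈ ball (0 : E m) 1} := by
    have h1 : IsLinearMap ℝ fun t : ℂ => t • z :=
      { map_add := fun a b => add_smul a b z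
        map_smul := fun a b => smul_assoc a b z }
    exact (convex_ball (0 : E m) 1).is_linear_preimage h1
  have hee : ∀ t : ℂ, ⟪e, t • z⟫_ℂ = 0 := fun t => by rw [inner_smul_right, he, mul_zero]
  have hAe : ⟪fderiv ℂ φ 0 e, fderiv ℂ φ 0 e⟫_ℂ = μ := by
    rw [h.adj, inner_self_eq_norm_sq_to_K (𝕜 := ℂ), h.unit]
    simp
  set p : ℂ → ℂ := fun t => ⟪fderiv ℂ φ 0 e, fderiv ℂ φ (t • z) e⟫_ℂ / μ with hp
  have hp1 : ∀ t ∈ {t : ℂ | t • z ∈ ball (0 : E m) 1}, 1 ≤ ‖p t‖ := by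
    intro t ht
    have ht' : ‖t • z‖ < 1 := mem_ball_zero_iff.1 ht
    have h1 := h.ineq ht' (hee t)
    rw [h.rzero ht' (hee t), norm_zero] at h1
    have h2 : ‖p t‖ ^ 2 = ‖⟪fderiv ℂ φ 0 e, fderiv ℂ φ (t • z) e⟫_ℂ‖ ^ 2 / μ / μ := by
      simp only [hp]
      rw [norm_div, Complex.norm_real, Real.norm_of_nonneg h.pos.le, div_pow, sq μ, div_div]
    have h3 : 1 ≤ ‖p t‖ ^ 2 := by
      rw [h2, le_div_iff₀ h.pos, one_mul]
      linarith
    by_contra hc
    rw [not_le] at hc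
    have := norm_nonneg (p t)
    nlinarith
  have hp0 : p 0 = 1 := by
    simp only [hp, zero_smul]
    rw [hAe, div_self hμ]
  have hd : DifferentiableOn ℂ (fun t => (p t)⁻¹) {t : ℂ | t • z ∈ ball (0 : E m) 1} := by
    intro t ht
    have h1 : DifferentiableAt ℂ (fderiv ℂ φ) (t • z) :=
      (holo_fderiv isOpen_ball h.diff).differentiableAt (isOpen_ball.mem_nhds ht)
    have h2 : DifferentiableAt ℂ (fun t : ℂ => fderiv ℂ φ (t • z)) t :=
      DifferentiableAt.comp t h1 (by fun_prop)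
    have h3 := h2.clm_apply (differentiableAt_const e)
    have h4 : DifferentiableAt ℂ p t :=
      (((innerSL ℂ (fderiv ℂ φ 0 e)).differentiableAt).comp t h3).div_const _
    refine (h4.inv ?_).differentiableWithinAt
    intro h5
    have := hp1 t ht
    rw [h5, norm_zero] at this
    linarith
  have hmax := Complex.eqOn_of_isPreconnected_of_isMaxOn_norm hconv.isPreconnected hopen hd
    (c := 0) (by simp) (fun t ht => by
      simp only [Set.mem_ofPred_eq, Function.comp, norm_inv, hp0, norm_one, inv_one]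
      exact inv_le_one_of_one_le₀ (hp1 t ht))
  have h1 : p 1 = 1 := by
    have h2 := hmax (x := (1 : ℂ)) (by simpa using hz)
    simp only [Function.const, hp0, inv_one] at h2
    rw [← inv_inv (p 1), h2, inv_one]
  have h2 := h.dec (y := fderiv ℂ φ z e) fun ξ hξ => h.perp hz he hξ
  simp only [hp, one_smul] at h1
  rw [h1, one_smul, h.rzero hz he, zero_smul, add_zero] at h2
  exact h2

theorem Nr.false (hm : 2 ≤ m) {φ : E m → E n} {μ : ℝ} {e : E m} {N : E n} (h : Nr φ μ e N) :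
    False := by
  -- a unit vector of `K`
  obtain ⟨u, hu1, hu⟩ : ∃ u : E m, ‖u‖ = 1 ∧ ⟪e, u⟫_ℂ = 0 := by
    have h1 : (ℂ ∙ e)ᗮ ≠ ⊥ := by
      intro hbot
      have h2 := Submodule.finrank_add_finrank_orthogonal (ℂ ∙ e)
      rw [hbot, finrank_bot, finrank_euclideanSpace, Fintype.card_fin] at h2
      have h3 := finrank_span_le_card (R := ℂ) ({e} : Set (E m))
      simp at h3
      omega
    obtain ⟨v, hv, hv0⟩ := Submodule.exists_mem_ne_zero_of_ne_bot h1
    have hn : (‖v‖ : ℂ) ≠ 0 := Complex.ofReal_ne_zero.2 (norm_ne_zero_iff.2 hv0)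
    refine ⟨(‖v‖ : ℂ)⁻¹ • v, ?_, ?_⟩
    · rw [norm_smul, norm_inv, Complex.norm_real, norm_norm, inv_mul_cancel₀]
      exact norm_ne_zero_iff.2 hv0
    · rw [inner_smul_right, (Submodule.mem_orthogonal_singleton_iff_inner_right.1 hv), mul_zero]
  have hμ := h.pos
  have hμ1 : 0 < 1 - μ := by linarith [h.lt]
  set b : ℂ → ℂ := fun t => ⟪N, fderiv ℂ (fderiv ℂ φ) (t • u) e e⟫_ℂ with hb
  have htu : ∀ t : ℂ, ‖t • u‖ = ‖t‖ := fun t => by rw [norm_smul, hu1, mul_one]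
  have hbd : ∀ t ∈ ball (0 : ℂ) 1, 2 * μ * (1 - μ) ≤ ‖b t‖ ^ 2 * (1 - ‖t‖ ^ 2) := by
    intro t ht
    have ht' : ‖t • u‖ < 1 := by
      rw [htu]
      exact mem_ball_zero_iff.1 ht
    have hee : ⟪e, t • u⟫_ℂ = 0 := by rw [inner_smul_right, hu, mul_zero]
    have h1 := h.bound ht' hee (h.same ht' hee)
    rwa [htu] at h1
  have hc : 0 < 2 * μ * (1 - μ) := by positivity
  have hbne : ∀ t ∈ ball (0 : ℂ) 1, b t ≠ 0 := by
    intro t ht h0
    have h1 := hbd t ht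
    rw [h0, norm_zero] at h1
    linarith
  have hd : DifferentiableOn ℂ (fun t => (b t)⁻¹) (ball 0 1) := by
    intro t ht
    have ht' : t • u ∈ ball (0 : E m) 1 := by
      rw [mem_ball_zero_iff, htu]
      exact mem_ball_zero_iff.1 ht
    have h1 : DifferentiableAt ℂ (fderiv ℂ (fderiv ℂ φ)) (t • u) :=
      (holo_fderiv isOpen_ball (holo_fderiv isOpen_ball h.diff)).differentiableAt
        (isOpen_ball.mem_nhds ht')
    have h2 := diff_line (G := E m →L[ℂ] E m →L[ℂ] E n) (g := fderiv ℂ (fderiv ℂ φ)) h1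
    have h3 := (h2.clm_apply (differentiableAt_const e)).clm_apply (differentiableAt_const e)
    have h4 : DifferentiableAt ℂ b t := ((innerSL ℂ N).differentiableAt).comp t h3
    exact (h4.inv (hbne t ht)).differentiableWithinAt
  -- the maximum principle
  have hb0 : 0 < ‖(b 0)⁻¹‖ ^ 2 * (2 * μ * (1 - μ)) := by
    have : 0 < ‖(b 0)⁻¹‖ := norm_pos_iff.2 (inv_ne_zero (hbne 0 (mem_ball_self one_pos)))
    positivity
  set c := ‖(b 0)⁻¹‖ ^ 2 * (2 * μ * (1 - μ)) with hcdef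
  set δ := min (c / 4) (1 / 2) with hδ
  have hδ0 : 0 < δ := lt_min (by positivity) (by norm_num)
  have hδ1 : δ ≤ 1 / 2 := min_le_right _ _
  have hδc : δ ≤ c / 4 := min_le_left _ _
  have hρ0 : 0 < 1 - δ := by linarith
  have hsub : closedBall (0 : ℂ) (1 - δ) ⊆ ball 0 1 := closedBall_subset_ball (by linarith)
  have hmp := Complex.norm_le_of_forall_mem_frontier_norm_le (f := fun t => (b t)⁻¹)
    (U := ball (0 : ℂ) (1 - δ)) isBounded_ball
    ((hd.mono (by
      rw [closure_ball _ hρ0.ne']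
      exact hsub)).diffContOnCl)
    (C := Real.sqrt ((1 - (1 - δ) ^ 2) / (2 * μ * (1 - μ)))) (fun t ht => by
      rw [frontier_ball _ hρ0.ne'] at ht
      have ht' : ‖t‖ = 1 - δ := mem_sphere_zero_iff_norm.1 ht
      have h1 := hbd t (hsub (sphere_subset_closedBall ht))
      rw [ht'] at h1
      apply Real.le_sqrt_of_sq_le
      have h2 : 0 < ‖b t‖ := norm_pos_iff.2 (hbne t (hsub (sphere_subset_closedBall ht)))
      rw [norm_inv, inv_pow, le_div_iff₀ hc, ← div_eq_inv_mul, div_le_iff₀ (by positivity)]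
      linarith) (z := 0) (subset_closure (mem_ball_self hρ0))
  have h1 : ‖(b 0)⁻¹‖ ^ 2 ≤ (1 - (1 - δ) ^ 2) / (2 * μ * (1 - μ)) := by
    have h2 : 0 ≤ (1 - (1 - δ) ^ 2) / (2 * μ * (1 - μ)) := by
      apply div_nonneg _ hc.le
      nlinarith
    calc ‖(b 0)⁻¹‖ ^ 2 ≤ Real.sqrt ((1 - (1 - δ) ^ 2) / (2 * μ * (1 - μ))) ^ 2 :=
          pow_le_pow_left₀ (norm_nonneg _) hmp 2
      _ = _ := Real.sq_sqrt h2
  rw [le_div_iff₀ hc, ← hcdef] at h1
  nlinarith

theorem ball_rigid (hm : 2 ≤ m) (hn : n ≤ m + 1) {φ : E m → E n}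
    (hd : DifferentiableOn ℂ φ (ball 0 1)) (hmap : Set.MapsTo φ (ball 0 1) (ball 0 1))
    (h0 : φ 0 = 0) {μ : ℝ} (hμ : 0 < μ)
    (hlow : ∀ z : E m, ‖z‖ < 1 → ∀ ξ : E m, μ * nb z ξ ≤ nb (φ z) (fderiv ℂ φ z ξ))
    (hup : ∀ z : E m, ‖z‖ < 1 → ∀ ξ : E m, nb (φ z) (fderiv ℂ φ z ξ) ≤ nb z ξ)
    {e : E m} (he : ‖e‖ = 1) (heq : ‖fderiv ℂ φ 0 e‖ ^ 2 = μ) : 1 ≤ μ := by
  by_contra hlt
  rw [not_le] at hlt
  obtain ⟨N, hN⟩ := Mn.exists_nr hn
    { diff := hd, maps := hmap, zero := h0, pos := hμ, low := hlow, up := hup, unit := he,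
      eq := heq, lt := hlt : Mn φ μ e }
  exact hN.false hm

end Pool.Agent.Lib.MP_5d4057_al.RG
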