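import Pool.Agent.Lib.MP_5d4057_al.RG.LevV
import Mathlib.Analysis.Complex.Schwarz

/-!
# RG G3: the Schwarz lemma at the centre of the ball

(The function `W - g(V)` of the first version is not needed: see `NoMax`.)
-/

set_option autoImplicit false

namespace Pool.Agent.Lib.MP_5d4057_al.RG

open Filter Topology Asymptotics Metric

open scoped InnerProductSpace

variable {m n : ℕ}

/-- Schwarz. -/
theorem schwarz {φ : E m → E n} (hd : DifferentiableOn ℂ φ (ball 0 1))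
    (hmap : Set.MapsTo φ (ball 0 1) (ball 0 1)) (h0 : φ 0 = 0) (u : E m) :
    ‖fderiv ℂ φ 0 u‖ ≤ ‖u‖ := by
  have hm : Set.MapsTo φ (ball 0 1) (closedBall (φ 0) 1) := by
    intro z hz
    rw [h0]
    exact ball_subset_closedBall (hmap hz)
  have h1 := Complex.norm_fderiv_le_one_of_mapsTo_ball hd hm one_pos
  calc ‖fderiv ℂ φ 0 u‖ ≤ ‖fderiv ℂ φ 0‖ * ‖u‖ := (fderiv ℂ φ 0).le_opNorm u
    _ ≤ 1 * ‖u‖ := mul_le_mul_of_nonneg_right h1 (norm_nonneg u)
    _ = ‖u‖ := one_mul _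

/-- Equality in the Schwarz lemma. -/
theorem schwarz_eq {φ : E m → E n} (hd : DifferentiableOn ℂ φ (ball 0 1))
    (hmap : Set.MapsTo φ (ball 0 1) (ball 0 1)) (h0 : φ 0 = 0) {u : E m} (hu : ‖u‖ = 1)
    (he : ‖fderiv ℂ φ 0 u‖ = 1) {t : ℂ} (ht : ‖t‖ < 1) : φ (t • u) = t • fderiv ℂ φ 0 u := by
  have hin : ∀ z ∈ ball (0 : ℂ) 1, z • u ∈ ball (0 : E m) 1 := by
    intro z hz
    rw [mem_ball_zero_iff] at hz ⊢
    rwa [norm_smul, hu, mul_one]
  have hder : ∀ z ∈ ball (0 : ℂ) 1, HasDerivAt (fun z : ℂ => φ (z • u))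
      (fderiv ℂ φ (z • u) u) z := by
    intro z hz
    have h1 : HasFDerivAt φ (fderiv ℂ φ (z • u)) (z • u) :=
      ((hd _ (hin z hz)).differentiableAt (isOpen_ball.mem_nhds (hin z hz))).hasFDerivAt
    have h2 : HasDerivAt (fun z : ℂ => z • u) u z := by
      simpa using (hasDerivAt_id z).smul_const u
    exact h1.comp_hasDerivAt z h2
  have h00 : (fun z : ℂ => φ (z • u)) 0 = 0 := by simp [h0]
  have hm : Set.MapsTo (fun z : ℂ => φ (z • u)) (ball 0 1)
      (closedBall ((fun z : ℂ => φ (z • u)) 0) 1) := by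
    intro z hz
    rw [h00]
    exact ball_subset_closedBall (hmap (hin z hz))
  have hz0 : (0 : ℂ) ∈ ball (0 : ℂ) 1 := mem_ball_self one_pos
  have hd0 : dslope (fun z : ℂ => φ (z • u)) 0 0 = fderiv ℂ φ 0 u := by
    rw [dslope_same, (hder 0 hz0).deriv, zero_smul]
  have h := Complex.affine_of_mapsTo_ball_of_norm_dslope_eq_div
    (fun z hz => (hder z hz).differentiableAt.differentiableWithinAt) hm hz0
    (by rw [hd0, he, div_one]) (mem_ball_zero_iff.2 ht)
  have h2 : φ (t • u) = φ ((0 : ℂ) • u) + (t - 0) • dslope (fun z : ℂ => φ (z • u)) 0 0 := h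
  rw [hd0, zero_smul, h0, zero_add, sub_zero] at h2
  exact h2

end Pool.Agent.Lib.MP_5d4057_al.RG
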