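import Pool.Agent.Lib.MP_5d4057_al.RG.Defs
import Pool.Agent.Lib.MP_5d4057_al.RG.NoMin

/-!
# RG G4: from the cone to the ball
-/

set_option autoImplicit false

namespace Pool.Agent.Lib.MP_5d4057_al.RG

open Matrix Filter Topology Metric Pool.Agent.Lib.MP_5d4057_al Pool.Agent.Lib.MP_5d4057_al.Hyb
  Pool.Agent.Lib.MP_5d4057_al.HM

open scoped InnerProductSpace

variable {m n k : ℕ}

/-- `z ↦ (z, 1)` -/
noncomputable def bl (z : E k) : Vec k := Fin.snoc (α := fun _ => ℂ) (fun i => z i) 1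

/-- the coordinates of a point in the ball -/
noncomputable def pr (v : Vec k) : E k :=
  WithLp.toLp 2 fun i => v i.castSucc / v (Fin.last k)

theorem bl_castSucc (z : E k) (i : Fin k) : bl z i.castSucc = z i := by
  rw [bl, Fin.snoc_castSucc]

theorem bl_last (z : E k) : bl z (Fin.last k) = 1 := by
  rw [bl, Fin.snoc_last]

theorem pr_apply (v : Vec k) (i : Fin k) : pr v i = v i.castSucc / v (Fin.last k) := rfl

theorem bl_zero : bl (0 : E k) = base k := by
  ext i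
  refine Fin.lastCases ?_ (fun i => ?_) i
  · rw [bl_last, base, Pi.single_eq_same]
  · rw [bl_castSucc, base, Pi.single_eq_of_ne (Fin.castSucc_lt_last i).ne]
    rfl

theorem herm_bl (z ζ : E k) : herm (bl z) (bl ζ) = ⟪z, ζ⟫_ℂ - 1 := by
  rw [herm_eq, bl_last, bl_last, star_one, one_mul, PiLp.inner_apply]
  congr 1
  refine Finset.sum_congr rfl fun i _ => ?_
  rw [bl_castSucc, bl_castSucc, RCLike.inner_apply, mul_comm]
  rfl

theorem q_bl (z : E k) : q (bl z) = ‖z‖ ^ 2 - 1 := by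
  rw [q_eq, bl_last, norm_one, one_pow, EuclideanSpace.norm_sq_eq]
  congr 1
  exact Finset.sum_congr rfl fun i _ => by rw [bl_castSucc]

theorem bl_mem {z : E k} : bl z ∈ Cone k ↔ ‖z‖ < 1 := by
  show q (bl z) < 0 ↔ _
  rw [q_bl, sub_neg, sq_lt_one_iff₀ (norm_nonneg z)]

theorem cc_bl (z ζ : E k) : cc (bl z) (bl ζ) = ccb z ζ := by
  rw [cc, ccb, herm_bl, q_bl, q_bl, norm_sub_rev]
  congr 1
  ring

theorem last_ne {v : Vec k} (hv : v ∈ Cone k) : v (Fin.last k) ≠ 0 := by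
  intro h
  have h1 : q v < 0 := hv
  rw [q_eq, h, norm_zero] at h1
  have h2 : 0 ≤ ∑ i : Fin k, ‖v i.castSucc‖ ^ 2 := Finset.sum_nonneg fun i _ => by positivity
  rw [zero_pow two_ne_zero, sub_zero] at h1
  exact absurd h1 (not_lt.2 h2)

theorem bl_pr {v : Vec k} (hv : v ∈ Cone k) : v = v (Fin.last k) • bl (pr v) := by
  have h := last_ne hv
  ext i
  refine Fin.lastCases ?_ (fun i => ?_) i
  · rw [Pi.smul_apply, bl_last, smul_eq_mul, mul_one]
  · rw [Pi.smul_apply, bl_castSucc, pr_apply, smul_eq_mul, mul_div_cancel₀ _ h]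

theorem pr_mem {v : Vec k} (hv : v ∈ Cone k) : ‖pr v‖ < 1 := by
  have h1 : q v < 0 := hv
  have h2 : 0 ≤ ‖v (Fin.last k)‖ ^ 2 := by positivity
  rw [bl_pr hv, q_smul] at h1
  have h3 : q (bl (pr v)) < 0 := by
    by_contra hcon
    exact absurd h1 (not_lt.2 (mul_nonneg (by positivity) (not_lt.1 hcon)))
  exact bl_mem.1 h3

theorem cc_act (g : SUGroup k) (v w : Vec k) : cc (act g v) (act g w) = cc v w := by
  rw [cc, cc, herm_act, q_act, q_act]

theorem cc_smul_left {c : ℂ} (hc : c ≠ 0) (v w : Vec k) : cc (c • v) w = cc v w := by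
  have h : ‖c‖ ^ 2 ≠ 0 := pow_ne_zero _ (norm_ne_zero_iff.2 hc)
  rw [cc, cc, herm_smul_left, q_smul, norm_mul, norm_star, mul_pow, mul_assoc,
    mul_div_mul_left _ _ h]

theorem cc_smul_right {c : ℂ} (hc : c ≠ 0) (v w : Vec k) : cc v (c • w) = cc v w := by
  have h : ‖c‖ ^ 2 ≠ 0 := pow_ne_zero _ (norm_ne_zero_iff.2 hc)
  rw [cc, cc, herm_smul_right, q_smul, norm_mul, mul_pow, mul_left_comm,
    mul_div_mul_left _ _ h]

/-- `cosh² ≥ 1`. -/
theorem one_le_cc {v w : Vec k} (hv : v ∈ Cone k) (hw : w ∈ Cone k) : 1 ≤ cc v w := by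
  have h1 : q v < 0 := hv
  have h2 : q w < 0 := hw
  rw [cc, one_le_div (mul_pos_of_neg_of_neg h1 h2)]
  exact q_mul_q_le hv hw

private theorem act_inv_act (g : SUGroup k) (v : Vec k) : act g (act g⁻¹ v) = v := by
  rw [← act_mul, mul_inv_cancel, act_one]

private theorem act_act_inv (g : SUGroup k) (v : Vec k) : act g⁻¹ (act g v) = v := by
  rw [← act_mul, inv_mul_cancel, act_one]

private theorem differentiable_bl : Differentiable ℂ (bl : E k → Vec k) := by
  rw [differentiable_pi]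
  intro i
  refine Fin.lastCases ?_ (fun i => ?_) i
  · simp only [bl_last]
    exact differentiable_const _
  · simp only [bl_castSucc]
    exact (EuclideanSpace.proj (𝕜 := ℂ) i : E k →L[ℂ] ℂ).differentiable

private theorem differentiable_act (g : SUGroup k) : Differentiable ℂ (act g : Vec k → Vec k) :=
  (LinearMap.toContinuousLinearMap (Matrix.mulVecLin g.toMatrix)).differentiable

/-- The map in the ball, normalised at the point `g 0`. -/
theorem exists_ball {f : Vec m → Vec n} (hf : HMap f) (g : SUGroup m) :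
    ∃ (φ : E m → E n) (g' : SUGroup n), DifferentiableOn ℂ φ (ball 0 1) ∧
      Set.MapsTo φ (ball 0 1) (ball 0 1) ∧ φ 0 = 0 ∧
      ∀ z : E m, ‖z‖ < 1 → ∃ c : ℂ, c ≠ 0 ∧ f (act g (bl z)) = c • act g' (bl (φ z)) := by
  obtain ⟨g', c', hc', he⟩ := exists_act_eq (hf.maps _ (act_mem g (base_mem m)))
  have hmem : ∀ z : E m, ‖z‖ < 1 → act g (bl z) ∈ Cone m := fun z hz =>
    act_mem g (bl_mem.2 hz)
  have hu : ∀ z : E m, ‖z‖ < 1 → act g'⁻¹ (f (act g (bl z))) ∈ Cone n := fun z hz =>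
    act_mem _ (hf.maps _ (hmem z hz))
  refine ⟨fun z => pr (act g'⁻¹ (f (act g (bl z)))), g', ?_, ?_, ?_, ?_⟩
  · rw [differentiableOn_euclidean]
    intro i
    have h1 : DifferentiableOn ℂ (fun z : E m => act g'⁻¹ (f (act g (bl z)))) (ball 0 1) := by
      refine (differentiable_act g'⁻¹).comp_differentiableOn (hf.diff.comp
        ((differentiable_act g).comp differentiable_bl).differentiableOn ?_)
      intro z hz
      exact hmem z (mem_ball_zero_iff.1 hz)
    rw [differentiableOn_pi] at h1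
    show DifferentiableOn ℂ (fun z : E m => act g'⁻¹ (f (act g (bl z))) i.castSucc /
      act g'⁻¹ (f (act g (bl z))) (Fin.last n)) (ball 0 1)
    simp only [div_eq_mul_inv]
    exact (h1 i.castSucc).mul ((h1 (Fin.last n)).inv
      fun z hz => last_ne (hu z (mem_ball_zero_iff.1 hz)))
  · intro z hz
    exact mem_ball_zero_iff.2 (pr_mem (hu z (mem_ball_zero_iff.1 hz)))
  · show pr (act g'⁻¹ (f (act g (bl 0)))) = 0
    rw [bl_zero, he, act_smul, act_act_inv]
    ext i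
    rw [pr_apply, Pi.smul_apply, base, Pi.single_eq_of_ne (Fin.castSucc_lt_last i).ne, smul_zero,
      zero_div]
    rfl
  · intro z hz
    refine ⟨_, last_ne (hu z hz), ?_⟩
    rw [← act_smul, ← bl_pr (hu z hz), act_inv_act]

/-- In particular distances agree. -/
theorem cc_ball {f : Vec m → Vec n} {g : SUGroup m} {φ : E m → E n} {g' : SUGroup n}
    (h : ∀ z : E m, ‖z‖ < 1 → ∃ c : ℂ, c ≠ 0 ∧ f (act g (bl z)) = c • act g' (bl (φ z)))
    {z ζ : E m} (hz : ‖z‖ < 1) (hζ : ‖ζ‖ < 1) :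
    cc (f (act g (bl z))) (f (act g (bl ζ))) = ccb (φ z) (φ ζ) := by
  obtain ⟨c, hc, h1⟩ := h z hz
  obtain ⟨d, hd, h2⟩ := h ζ hζ
  rw [h1, h2, cc_smul_left hc, cc_smul_right hd, cc_act, cc_bl]

/-- Schwarz and Pick: holomorphic maps do not increase distances. -/
theorem HMap.cc_le {f : Vec m → Vec n} (hf : HMap f) {v w : Vec m} (hv : v ∈ Cone m)
    (hw : w ∈ Cone m) : cc (f v) (f w) ≤ cc v w := by
  obtain ⟨g, c, hc, rfl⟩ := exists_act_eq hv
  obtain ⟨φ, g', hd, hm, h0, h⟩ := exists_ball hf g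
  have hw' : act g⁻¹ w ∈ Cone m := act_mem _ hw
  have hl := last_ne hw'
  have hζ := pr_mem hw'
  have e1 : w = act g⁻¹ w (Fin.last m) • act g (bl (pr (act g⁻¹ w))) := by
    rw [← act_smul, ← bl_pr hw', act_inv_act]
  have hz0 : ‖(0 : E m)‖ < 1 := by rw [norm_zero]; exact one_pos
  rw [e1, hf.hom c hc _ (orbit_mem g), hf.hom _ hl _ (act_mem g (bl_mem.2 hζ)), cc_smul_left hc,
    cc_smul_left hc, cc_smul_right hl, cc_smul_right hl, cc_act, ← bl_zero, cc_ball h hz0 hζ,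
    cc_bl, h0]
  set ζ := pr (act g⁻¹ w)
  have h1 : ‖φ ζ‖ ≤ ‖ζ‖ := Complex.norm_le_norm_of_mapsTo_ball hd
    (hm.mono_right ball_subset_closedBall) h0 hζ
  rw [ccb, ccb, inner_zero_left, inner_zero_left, norm_zero, norm_zero, sub_zero, norm_one]
  have h2 : ‖φ ζ‖ ^ 2 ≤ ‖ζ‖ ^ 2 := pow_le_pow_left₀ (norm_nonneg _) h1 2
  have h3 : ‖ζ‖ ^ 2 < 1 := (sq_lt_one_iff₀ (norm_nonneg _)).2 hζ
  have h4 : 0 < (1 - (0 : ℝ) ^ 2) * (1 - ‖ζ‖ ^ 2) := by nlinarith
  exact div_le_div_of_nonneg_left (by norm_num) h4 (by nlinarith)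

end Pool.Agent.Lib.MP_5d4057_al.RG
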