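import Pool.Agent.Lib.MP_5d4057_al.RG.Theta

/-!
# RG 6: complex conjugation of the target
-/

set_option autoImplicit false

namespace Pool.Agent.Lib.MP_5d4057_al.RG

open Matrix Filter Topology Pool.Agent.Lib.MP_5d4057_al Pool.Agent.Lib.MP_5d4057_al.Hyb
  Pool.Agent.Lib.MP_5d4057_al.HM Pool.Agent.Lib.MP_5d4057_al.RC

open scoped ComplexOrder MatrixOrder Matrix.Norms.L2Operator

variable {m n : ℕ}

/-- The complex conjugate of a metric is harmonic (`pz` and `pb` are exchanged:
`pz (F.map cj) ξ = (pb F ξ).map cj`; the commutation of the `pb F` is the adjoint of that of the `pz F`). -/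
theorem harm_cj {F : Vec m → Mat (n + 1)} (hF : Harm F) : Harm fun v => (F v).map cj :=
  hF.cj

theorem equi_cj {Γ : Subgroup (SUGroup m)} {ρ : Γ →* Mat (n + 1)} {F : Vec m → Mat (n + 1)}
    (hFe : Equi ρ F) : Equi (rcj ρ) fun v => (F v).map cj := by
  intro γ v hv
  show (F (act (γ : SUGroup m) v)).map cj = (ρ γ).map cj * (F v).map cj * ((ρ γ).map cj)ᴴ
  rw [hFe γ v hv, tm_mul, tm_mul, cj_ct]

theorem uj_rcj {Γ : Subgroup (SUGroup m)} {ρ : Γ →* Mat (n + 1)} (h : UJ ρ) : UJ (rcj ρ) := by
  intro γ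
  show ((ρ γ).map cj)ᴴ * J n * (ρ γ).map cj = J n
  have h1 := congrArg (fun A : Mat (n + 1) => A.map cj) (h γ)
  simp only [tm_mul, J_cj] at h1
  rw [cj_ct]
  exact h1

/-- The conjugate lift. -/
noncomputable def xc (x : Vec m → Vec n) (v : Vec m) : Vec n :=
  (v (Fin.last m) / star (v (Fin.last m))) • star (x v)

private theorem last_ne {v : Vec m} (hv : v ∈ Cone m) : v (Fin.last m) ≠ 0 := by
  intro h
  have h1 : q v < 0 := hv
  rw [q_eq, h, norm_zero] at h1
  have h2 : 0 ≤ ∑ i : Fin m, ‖v i.castSucc‖ ^ 2 := Finset.sum_nonneg fun i _ => by positivity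
  simp at h1
  linarith

private theorem fac_ne {v : Vec m} (hv : v ∈ Cone m) :
    v (Fin.last m) / star (v (Fin.last m)) ≠ 0 :=
  div_ne_zero (last_ne hv) (star_ne_zero.2 (last_ne hv))

private theorem q_star (w : Vec n) : q (star w) = q w := by
  rw [q_eq, q_eq]
  simp

private theorem herm_star (w u : Vec n) : herm (star w) (star u) = star (herm w u) := by
  rw [herm_eq, herm_eq]
  simp

private theorem prj_star (w u : Vec n) : prj (star w) (star u) = star (prj w u) := by
  rw [star_prj, prj, herm_star, q_star, ← herm_comm]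

private theorem prj_smul {c : ℂ} (hc : c ≠ 0) {w : Vec n} (hw : w ∈ Cone n) (b d : ℂ)
    (u : Vec n) : prj (c • w) (b • u + d • w) = b • prj w u := by
  have hq := q_ne hw
  have hc' : star c ≠ 0 := star_ne_zero.2 hc
  rw [prj, prj, herm_smul_left, herm_add_right, herm_smul_right, herm_smul_right, herm_self,
    q_smul', smul_smul, smul_sub, smul_smul]
  have h1 : star c * (b * herm w u + d * (q w : ℂ)) * (star c * c * (q w : ℂ))⁻¹ * c =
      b * (herm w u * (q w : ℂ)⁻¹) + d := by
    field_simp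
  rw [h1]
  module

private theorem std_star (w : Vec n) : std (star w) = (std w).map cj := by
  have h1 : (J n).map cj = J n := J_cj
  have h2 : star (-2 * (q w : ℂ)⁻¹) = -2 * (q w : ℂ)⁻¹ := by
    rw [star_mul', star_inv₀]
    have : star (q w : ℂ) = (q w : ℂ) := Complex.conj_ofReal _
    rw [this]
    simp
  ext i j
  have h3 := congrFun (congrFun h1 i) j
  rw [Matrix.map_apply] at h3
  rw [std, std, Matrix.map_apply, Matrix.add_apply, Matrix.add_apply, map_add, h3, q_star,
    Matrix.smul_apply, Matrix.smul_apply, vecMulVec_apply, vecMulVec_apply, smul_eq_mul,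
    smul_eq_mul, map_mul cj (-2 * (q w : ℂ)⁻¹), star_star, Pi.star_apply, Pi.star_apply,
    show cj (-2 * (q w : ℂ)⁻¹) = -2 * (q w : ℂ)⁻¹ from h2, map_mul]
  congr 2
  show star (w i) * w j = star (w i) * star (star (w j))
  rw [star_star]

theorem Lft.conj {F : Vec m → Mat (n + 1)} {x : Vec m → Vec n} (hx : Lft F x) :
    Lft (fun v => (F v).map cj) (xc x) where
  cd := by
    have h1 : ContDiffOn ℝ 2 (fun v => star (x v)) (Cone m) :=
      (starL' ℝ : Vec n ≃L[ℝ] Vec n).contDiff.comp_contDiffOn hx.cd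
    have h2 : ContDiff ℝ 2 fun v : Vec m => v (Fin.last m) := contDiff_apply ℝ ℂ (Fin.last m)
    have h3 : ContDiff ℝ 2 fun v : Vec m => star (v (Fin.last m)) :=
      Complex.conjCLE.contDiff.comp h2
    have h4 : ContDiffOn ℝ 2 (fun v : Vec m => v (Fin.last m) * (star (v (Fin.last m)))⁻¹)
        (Cone m) := h2.contDiffOn.mul (h3.contDiffOn.inv fun v hv => star_ne_zero.2 (last_ne hv))
    exact (h4.smul h1).congr fun v _ => by
      rw [xc, div_eq_mul_inv]
      rfl
  hom := by
    intro c hc v hv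
    have hl := last_ne hv
    have hl' : star (v (Fin.last m)) ≠ 0 := star_ne_zero.2 hl
    have hc' : star c ≠ 0 := star_ne_zero.2 hc
    rw [xc, xc, hx.hom c hc v hv, star_smul, smul_smul, smul_smul, Pi.smul_apply, smul_eq_mul,
      star_mul']
    congr 1
    field_simp
  last := by
    intro v hv
    have hl' : star (v (Fin.last m)) ≠ 0 := star_ne_zero.2 (last_ne hv)
    rw [xc, Pi.smul_apply, Pi.star_apply, hx.last v hv, smul_eq_mul, div_mul_cancel₀ _ hl']
  cone := by
    intro v hv
    refine smul_mem_cone (fac_ne hv) ?_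
    show q (star (x v)) < 0
    rw [q_star]
    exact hx.cone v hv
  eq := by
    intro v hv
    have h1 : star (x v) ∈ Cone n := by
      show q (star (x v)) < 0
      rw [q_star]
      exact hx.cone v hv
    show (F v).map cj = std (xc x v)
    rw [xc, std_homog _ (fac_ne hv) _ h1, std_star, hx.eq v hv]

/-- `db (xc x) = 0` iff `da x = 0` at `v`. -/
theorem Lft.db_conj {F : Vec m → Mat (n + 1)} {x : Vec m → Vec n} (hx : Lft F x) {v : Vec m}
    (hv : v ∈ Cone m) : (∀ ξ, db (xc x) v ξ = 0) ↔ ∀ ξ, da x v ξ = 0 := by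
  have hd : DifferentiableAt ℝ x v :=
    (hx.cd.differentiableOn (by norm_num)).differentiableAt (mem_nhds_cone hv)
  have hl' : star (v (Fin.last m)) ≠ 0 := star_ne_zero.2 (last_ne hv)
  have hs : star (x v) ∈ Cone n := by
    show q (star (x v)) < 0
    rw [q_star]
    exact hx.cone v hv
  have key : ∀ ξ, db (xc x) v ξ =
      (v (Fin.last m) / star (v (Fin.last m))) • star (da x v ξ) := by
    intro ξ
    have h1 : HasZ (fun w => star (x w)) v ξ (star (pb x v ξ)) (star (pz x v ξ)) :=
      (hasZ hd ξ).comp_anti (F := Vec n) (starL' ℝ : Vec n ≃L[ℝ] Vec n).toContinuousLinearMap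
        (by
          intro y
          show star (Complex.I • y) = -(Complex.I • star y)
          rw [star_smul]
          simp)
    have h2 : HasZ (fun w : Vec m => w (Fin.last m)) v ξ (ξ (Fin.last m)) 0 :=
      hasZ_clm (ContinuousLinearMap.proj (Fin.last m)) v ξ
    have h3 : HasZ (fun w : Vec m => star (w (Fin.last m))) v ξ 0 (star (ξ (Fin.last m))) := by
      have h := h2.comp_anti (F := ℂ) (Complex.conjCLE : ℂ ≃L[ℝ] ℂ).toContinuousLinearMap
        (by
          intro y
          show (starRingEnd ℂ) (Complex.I • y) = -(Complex.I • (starRingEnd ℂ) y)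
          simp)
      have h0 : (Complex.conjCLE : ℂ ≃L[ℝ] ℂ).toContinuousLinearMap 0 = 0 := map_zero _
      rw [h0] at h
      exact h
    have h4 := ((h2.mul' (h3.inv hl')).smul h1)
    have h5 : HasZ (xc x) v ξ _ _ := h4.congr (Eventually.of_forall fun w => by
      rw [xc, div_eq_mul_inv])
    rw [db, h5.pb, da]
    have h6 := prj_smul (fac_ne hv) hs (v (Fin.last m) / star (v (Fin.last m)))
      (v (Fin.last m) * (-star (ξ (Fin.last m)) / star (v (Fin.last m)) ^ 2) +
        0 * (star (v (Fin.last m)))⁻¹) (star (pz x v ξ))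
    rw [prj_star] at h6
    rw [xc, ← h6, div_eq_mul_inv]
  constructor
  · intro h ξ
    have h1 := key ξ
    rw [h ξ] at h1
    have h2 := (smul_eq_zero.1 h1.symm).resolve_left (fac_ne hv)
    exact star_eq_zero.1 h2
  · intro h ξ
    rw [key ξ, h ξ, star_zero, smul_zero]

/-- If the `(0,1)` part vanishes the lift is holomorphic: `pb x v ξ = c • x v` and the last coordinate
`x_last = v_last` is holomorphic, so `c * v_last = 0`. -/
theorem Lft.hmap {F : Vec m → Mat (n + 1)} {x : Vec m → Vec n} (hx : Lft F x)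
    (h : ∀ v ∈ Cone m, ∀ ξ, db x v ξ = 0) : HMap x where
  diff := by
    intro v hv
    have hd : DifferentiableAt ℝ x v :=
      (hx.cd.differentiableOn (by norm_num)).differentiableAt (mem_nhds_cone hv)
    refine (differentiableAt_of_pb hd fun ξ => ?_).differentiableWithinAt
    have h1 : pb x v ξ = (herm (x v) (pb x v ξ) * (q (x v) : ℂ)⁻¹) • x v := by
      have h2 := h v hv ξ
      rw [db, prj, sub_eq_zero] at h2
      exact h2
    have h3 : HasZ (fun w => x w (Fin.last n)) v ξ (pz x v ξ (Fin.last n))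
        (pb x v ξ (Fin.last n)) :=
      (hasZ hd ξ).clm (ContinuousLinearMap.proj (Fin.last n))
    have h4 : HasZ (fun w : Vec m => w (Fin.last m)) v ξ (ξ (Fin.last m)) 0 :=
      hasZ_clm (ContinuousLinearMap.proj (Fin.last m)) v ξ
    have h5 := (h4.congr (g := fun w => x w (Fin.last n)) (by
      filter_upwards [mem_nhds_cone hv] with w hw
      exact hx.last w hw)).pb
    rw [h3.pb] at h5
    rw [h1, Pi.smul_apply, hx.last v hv, smul_eq_mul] at h5
    rw [h1, (mul_eq_zero.1 h5).resolve_right (last_ne hv), zero_smul]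
  hom := hx.hom
  maps := hx.cone

end Pool.Agent.Lib.MP_5d4057_al.RG
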