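import Pool.Agent.Lib.MP_5d4057_al.RG.CpD

/-!
# RG C6b: invariance and upper bound
-/

set_option autoImplicit false

namespace Pool.Agent.Lib.MP_5d4057_al.RG

open Matrix Filter Topology Metric Pool.Agent.Lib.MP_5d4057_al Pool.Agent.Lib.MP_5d4057_al.Hyb
  Pool.Agent.Lib.MP_5d4057_al.HM Pool.Agent.Lib.MP_5d4057_al.HM.Kak Pool.Agent.Lib.MP_5d4057_al.NU

open scoped ComplexOrder MatrixOrder Matrix.Norms.L2Operator

variable {m n : ℕ} {Γ : Subgroup (SUGroup m)} {ξ : Fin m → ℂ} {z : SUGroup m} {κ : ℝ}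

/-- Invariance. -/
theorem Aq_inv (hpar : Par Γ ξ) {ρ : Γ →* Mat (n + 1)} (hU : UJ ρ) {p' : Vec n}
    (hp : CuspIm ρ ξ p') {f : Vec m → Vec n} (he : Eqv ρ f) (γ : Γ)
    (hγ : (γ : SUGroup m) ∈ St ξ) {v : Vec m} (hv : v ∈ Cone m) :
    Aq f p' (NU.pe ξ) (act (γ : SUGroup m) v) = Aq f p' (NU.pe ξ) v := by
  sorry

/-- Going up: `v + t • p'` direction. For `v` in the cone and `Y ≥ yp p v` there is a point `w` vertically above `v` with height `Y` and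
`cc v w = cosh² (log (Y/yp p v)/2)`. (`w = v + t • p`, `herm p v < 0` normalised.) -/
theorem exists_up {p : Vec n} (hp : p ≠ 0) (hq : q p = 0) {v : Vec n} (hv : v ∈ Cone n) {Y : ℝ}
    (hY : yp p v ≤ Y) : ∃ w ∈ Cone n, yp p w = Y ∧
      cc v w = Real.cosh (Real.log (Y / yp p v) / 2) ^ 2 := by
  sorry

/-- Upper bound: on `yp = 1` the function is bounded (compact modulo `Γ ∩ St ξ` by `cob`), and `Aq w ≤ Aq v` if `w` is vertically above `v`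
(`yp_exp`, `exists_up`, `HMap.cc_le`). -/
theorem Aq_upper (hc : Cusp Γ ξ z κ) {ρ : Γ →* Mat (n + 1)} (hU : UJ ρ) {p' : Vec n}
    (hp : CuspIm ρ ξ p') {f : Vec m → Vec n} (hf : HMap f) (he : Eqv ρ f) :
    ∃ C : ℝ, ∀ v ∈ Cone m, 1 ≤ yp (NU.pe ξ) v → Aq f p' (NU.pe ξ) v ≤ C := by
  sorry

end Pool.Agent.Lib.MP_5d4057_al.RG
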