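import Pool.Agent.Lib.MP_5d4057_al.RG.CpD

/-!
# RG C2c: the displacement of unipotent elements
-/

set_option autoImplicit false

namespace Pool.Agent.Lib.MP_5d4057_al.RG

open Matrix Filter Topology Metric Pool.Agent.Lib.MP_5d4057_al Pool.Agent.Lib.MP_5d4057_al.Hyb
  Pool.Agent.Lib.MP_5d4057_al.HM Pool.Agent.Lib.MP_5d4057_al.HM.Kak Pool.Agent.Lib.MP_5d4057_al.NU

open scoped ComplexOrder MatrixOrder Matrix.Norms.L2Operator

variable {m n : ℕ}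

/-- Either `U` is a transvection or it has a horizontal part, and the displacement is large. PROOF: let `p⁻` be isotropic with
`herm p' p⁻ = -1` (exists). `U` preserves the flag `p' ⊂ p'^⊥`, acts trivially on `p'^⊥ / p'` (unipotent and unitary for a definite form). For `w` in
the cone let `d = (U - 1) w`: `herm p' d = 0`, so `q d ≥ 0`, and `q (U w) = q w` gives `Re herm w (U w) = q w - q d / 2`, so
`cc (U w) w ≥ (1 + q d/(2 |q w|))² ≥ 1 + q d / |q w|`. Modulo `p'`: `d = -herm p' w • b₀`, `b₀ = (U-1) p⁻`, so `q d = |herm p' w|² q b₀` (`q` on `p'^⊥` factors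
through `p'^⊥/p'`): `q d/|q w| = q b₀ / yp p' w`. If `q b₀ = 0` then `b₀ ∈ ℂ p'`, `U p⁻ = p⁻ + c p'`, `U = 1` on `p'^⊥ ∩ p⁻^⊥` too (dual statement), and
`U = 1 + iτ rk p' p'` with `τ` real (`q (U p⁻) = 0`). -/
theorem vert_or {U : Mat (n + 1)} (hU : Uᴴ * J n * U = J n) (h1 : U ≠ 1)
    (hn : (U - 1) ^ (n + 1) = 0) {p' : Vec n} (hp : p' ≠ 0) (hq : q p' = 0) (hf : U *ᵥ p' = p') :
    (∃ τ : ℝ, τ ≠ 0 ∧ U = 1 + ((τ : ℂ) * Complex.I) • rk n p' p') ∨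
      ∃ c : ℝ, 0 < c ∧ ∀ w ∈ Cone n, 1 + c / yp p' w ≤ cc (U *ᵥ w) w := by
  sorry

/-- The displacement of a transvection of `U(n,1)`. -/
theorem rk_cc {p' : Vec n} (hp : p' ≠ 0) (hq : q p' = 0) (τ : ℝ) {w : Vec n} (hw : w ∈ Cone n) :
    cc ((1 + ((τ : ℂ) * Complex.I) • rk n p' p') *ᵥ w) w = 1 + τ ^ 2 / yp p' w ^ 2 := by
  sorry

end Pool.Agent.Lib.MP_5d4057_al.RG
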