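import Pool.Agent.Lib.MP_5d4057_al.RG.CpI
import Pool.Agent.Lib.MP_5d4057_al.RG.CpM3
import Pool.Agent.Lib.MP_5d4057_al.RG.CpA2

/-!
# RG C6c: lower bound
-/

set_option autoImplicit false

namespace Pool.Agent.Lib.MP_5d4057_al.RG

open Matrix Filter Topology Metric Pool.Agent.Lib.MP_5d4057_al Pool.Agent.Lib.MP_5d4057_al.Hyb
  Pool.Agent.Lib.MP_5d4057_al.HM Pool.Agent.Lib.MP_5d4057_al.HM.Kak Pool.Agent.Lib.MP_5d4057_al.NU

open scoped ComplexOrder MatrixOrder Matrix.Norms.L2Operator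

variable {m n : ℕ} {Γ : Subgroup (SUGroup m)} {ξ : Fin m → ℂ} {z : SUGroup m} {κ : ℝ}

/-- Lower bound. PROOF: `U = ρ (z^M)`: `cc (U w) w ≤ cc (z^M v) v = 1 + M²κ²/y²`, `w = f v` (`HMap.cc_le`, `Eqv`). `vert_or`: in the second case `c/y' ≤ M²κ²/y²`, while
`y' ≤ C y` for `y ≥ 1` (upper bound `Aq_upper`): contradiction for large `y` (there are points of every height). In the first case `τ²/y'² ≤ M²κ²/y²`. -/
theorem Aq_lower (hc : Cusp Γ ξ z κ) {ρ : Γ →* Mat (n + 1)} (hU : UJ ρ) (hP : Prp ρ)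
    {p' : Vec n} (hp : CuspIm ρ ξ p') {f : Vec m → Vec n} (hf : HMap f) (he : Eqv ρ f) :
    ∃ C : ℝ, ∀ v ∈ Cone m, 1 ≤ yp (NU.pe ξ) v → -C ≤ Aq f p' (NU.pe ξ) v := by
  obtain ⟨-, M, hM, -, h1, hn, -, -⟩ := exists_im hc hU hP
  set γ : Γ := (⟨z, hc.mem⟩ : Γ) ^ M with hγ
  have hγz : (γ : SUGroup m) = z ^ M := by rw [hγ, Subgroup.coe_pow]
  have hnil : IsNilpotent (ρ γ - 1) := ⟨n + 1, hn⟩
  have hSt : (γ : SUGroup m) ∈ St ξ := by
    rw [hγz]
    exact pow_mem hc.tv.mem_St M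
  -- `ρ γ` fixes `p'`
  obtain ⟨c, -, hcp⟩ := hp.fix γ hSt
  have hc1 : c = 1 := by
    have hk : ∀ k : ℕ, ((ρ γ - 1) ^ k) *ᵥ p' = (c - 1) ^ k • p' := by
      intro k
      induction k with
      | zero => simp
      | succ k ih =>
        have e : (ρ γ - 1) *ᵥ p' = (c - 1) • p' := by
          rw [sub_mulVec, one_mulVec, hcp, sub_smul, one_smul]
        rw [pow_succ, ← mulVec_mulVec, e, mulVec_smul, ih, smul_smul, pow_succ, mul_comm]
    have h2 := hk (n + 1)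
    rw [hn, zero_mulVec] at h2
    have h3 := (smul_eq_zero.1 h2.symm).resolve_right hp.ne
    have h4 := pow_eq_zero_iff (Nat.succ_ne_zero n) |>.1 h3
    exact sub_eq_zero.1 h4
  have hfix : ρ γ *ᵥ p' = p' := by rw [hcp, hc1, one_smul]
  have hpe : (NU.pe ξ) ≠ 0 := by
    intro h0
    have h5 := congrFun h0 (Fin.last m)
    simp [NU.pe, vec_last, base_last] at h5
  have hqe : q (NU.pe ξ) = 0 := by rw [q_pe, hc.tv.1, sub_self]
  -- the displacement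
  have hkey : ∀ v ∈ Cone m, cc (ρ γ *ᵥ f v) (f v) ≤ 1 + (M * κ) ^ 2 / yp (NU.pe ξ) v ^ 2 := by
    intro v hv
    obtain ⟨d, hd, hfe⟩ := he γ v hv
    have h6 : cc (ρ γ *ᵥ f v) (f v) = cc (f (act (γ : SUGroup m) v)) (f v) := by
      rw [hfe, cc_smul_left hd]
    rw [h6, ← tv_cc (tv_pow hc.tv hM) hv, ← hγz]
    exact hf.cc_le (act_mem _ hv) hv
  have hMκ : 0 < ((M : ℝ) * κ) ^ 2 := by
    have h7 : (M : ℝ) * κ ≠ 0 := mul_ne_zero (by exact_mod_cast hM.ne') hc.tv.2.1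
    positivity
  -- a lower bound of the height
  have hK : ∃ K : ℝ, 0 < K ∧ ∀ v ∈ Cone m, 1 ≤ yp (NU.pe ξ) v →
      K * yp (NU.pe ξ) v ≤ yp p' (f v) := by
    rcases vert_or (hU γ) h1 hn hp.ne hp.isot hfix with ⟨τ, hτ, hτU⟩ | ⟨c', hc', hc'w⟩
    · refine ⟨|τ| / |(M : ℝ) * κ|, by
        have h8 : (M : ℝ) * κ ≠ 0 := fun h => by rw [h] at hMκ; simp at hMκ
        positivity, ?_⟩
      intro v hv _
      have hy : 0 < yp (NU.pe ξ) v := yp_pos hpe hqe hv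
      have hy' : 0 < yp p' (f v) := yp_pos hp.ne hp.isot (hf.maps v hv)
      have h9 := hkey v hv
      rw [hτU, rk_cc hp.ne hp.isot τ (hf.maps v hv)] at h9
      have h10 : τ ^ 2 / yp p' (f v) ^ 2 ≤ ((M : ℝ) * κ) ^ 2 / yp (NU.pe ξ) v ^ 2 := by linarith
      rw [div_le_div_iff₀ (by positivity) (by positivity)] at h10
      have h11 : |τ| * yp (NU.pe ξ) v ≤ |(M : ℝ) * κ| * yp p' (f v) := by
        apply abs_le_of_sq_le_sq' _ (by positivity) |>.2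
        rw [mul_pow, mul_pow, sq_abs, sq_abs]
        exact h10
      have h12 : 0 < |(M : ℝ) * κ| := abs_pos.2 fun h => by rw [h] at hMκ; simp at hMκ
      rw [div_mul_eq_mul_div, div_le_iff₀ h12]
      linarith
    · refine ⟨c' / ((M : ℝ) * κ) ^ 2, by positivity, ?_⟩
      intro v hv hv1
      have hy : 0 < yp (NU.pe ξ) v := yp_pos hpe hqe hv
      have hy' : 0 < yp p' (f v) := yp_pos hp.ne hp.isot (hf.maps v hv)
      have h9 := (hc'w (f v) (hf.maps v hv)).trans (hkey v hv)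
      have h10 : c' / yp p' (f v) ≤ ((M : ℝ) * κ) ^ 2 / yp (NU.pe ξ) v ^ 2 := by linarith
      rw [div_le_div_iff₀ hy' (by positivity)] at h10
      rw [div_mul_eq_mul_div, div_le_iff₀ hMκ]
      have h13 : c' * yp (NU.pe ξ) v ≤ c' * yp (NU.pe ξ) v ^ 2 := by
        apply mul_le_mul_of_nonneg_left _ hc'.le
        nlinarith
      linarith
  obtain ⟨K, hK0, hK1⟩ := hK
  refine ⟨-Real.log K, ?_⟩
  intro v hv hv1
  have hy : 0 < yp (NU.pe ξ) v := yp_pos hpe hqe hv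
  have h14 := Real.log_le_log (by positivity) (hK1 v hv hv1)
  rw [Real.log_mul hK0.ne' hy.ne'] at h14
  rw [Aq]
  linarith

end Pool.Agent.Lib.MP_5d4057_al.RG
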