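import Pool.Agent.Lib.MP_5d4057_al.RG.CpA1
import Pool.Agent.Lib.MP_5d4057_al.RG.CpA3

/-!
# RG C6: the limit of the height at a cusp
-/

set_option autoImplicit false

namespace Pool.Agent.Lib.MP_5d4057_al.RG

open Matrix Filter Topology Metric Pool.Agent.Lib.MP_5d4057_al Pool.Agent.Lib.MP_5d4057_al.Hyb
  Pool.Agent.Lib.MP_5d4057_al.HM Pool.Agent.Lib.MP_5d4057_al.HM.Kak Pool.Agent.Lib.MP_5d4057_al.NU

open scoped ComplexOrder MatrixOrder Matrix.Norms.L2Operator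

variable {m n : ℕ} {Γ : Subgroup (SUGroup m)} {ξ : Fin m → ℂ} {z : SUGroup m} {κ : ℝ}

/-- `Aq` has a limit at the cusp. PROOF: `a = inf_{y ≥ 1} Aq` over the heights of `sup`: for `ω > 0` choose `v₀` (height `≥ Y`) with `Aq v₀ ≤ a + ω` where
`a = lim_{Y} inf_{yp ≥ Y} Aq`; for `v` higher than `v₀`: let `w₀` be above `v₀` with the height of `v`: `Aq w₀ ≤ a + ω`; `close_mod`: `cc v (γ w₀) ≤ 1 + ε`, and `Aq` is
`4`-Lipschitz (`yp_exp` for both heights), so `Aq v ≤ a + 2ω`. -/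
theorem Aq_lim (hc : Cusp Γ ξ z κ) {ρ : Γ →* Mat (n + 1)} (hU : UJ ρ) (hP : Prp ρ)
    {p' : Vec n} (hp : CuspIm ρ ξ p') {f : Vec m → Vec n} (hf : HMap f) (he : Eqv ρ f) :
    ∃ a : ℝ, ∀ ω : ℝ, 0 < ω → ∃ Y : ℝ, ∀ v ∈ Cone m, Y ≤ yp (NU.pe ξ) v →
      |Aq f p' (NU.pe ξ) v - a| ≤ ω := by
  sorry

end Pool.Agent.Lib.MP_5d4057_al.RG
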