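import Pool.Agent.Lib.MP_5d4057_al.RG.CpD

/-!
# RG C6a: points of the same height are close modulo the cusp group
-/

set_option autoImplicit false

namespace Pool.Agent.Lib.MP_5d4057_al.RG

open Matrix Filter Topology Metric Pool.Agent.Lib.MP_5d4057_al Pool.Agent.Lib.MP_5d4057_al.Hyb
  Pool.Agent.Lib.MP_5d4057_al.HM Pool.Agent.Lib.MP_5d4057_al.HM.Kak Pool.Agent.Lib.MP_5d4057_al.NU

open scoped ComplexOrder MatrixOrder Matrix.Norms.L2Operator

variable {m n : ℕ} {Γ : Subgroup (SUGroup m)} {ξ : Fin m → ℂ} {z : SUGroup m} {κ : ℝ}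

/-- Complex reflections, corrected by a scalar. -/
private theorem exists_crefl (d : Vec n) (c : ℂ) (h : c + star c + c * star c * (q d : ℂ) = 0) :
    ∃ (g : SUGroup n) (μ : ℂ), ‖μ‖ = 1 ∧ ∀ v, act g v = μ • (v + (c * herm d v) • d) := by
  obtain ⟨A, hA⟩ : ∃ A : Mat (n + 1), A = 1 + c • rk n d d := ⟨_, rfl⟩
  have hAv : ∀ v, A *ᵥ v = v + (c * herm d v) • d := by
    intro v
    rw [hA, add_mulVec, one_mulVec, smul_mulVec, rk_mulVec, smul_smul]
    rfl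
  have hherm : ∀ v w, herm (A *ᵥ v) (A *ᵥ w) = herm v w := by
    intro v w
    rw [hAv, hAv, herm_add_left, herm_add_right, herm_add_right, herm_smul_left, herm_smul_left,
      herm_smul_right, herm_smul_right, herm_self, star_mul', ← herm_comm]
    linear_combination (herm v d * herm d w) * h
  have hdet : A.det = 1 + c * (q d : ℂ) := by
    have h1 : A = 1 + (Matrix.of fun i (_ : Unit) => d i) *
        (Matrix.of fun (_ : Unit) j => c * (star d ᵥ* J n) j) := by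
      rw [hA]
      ext i j
      simp only [rk, Matrix.add_apply, Matrix.smul_apply, Matrix.mul_apply,
        vecMulVec_apply, Matrix.of_apply, Finset.univ_unique, Finset.sum_singleton, smul_eq_mul]
      ring
    have h2 : (star d ᵥ* J n) ⬝ᵥ d = (q d : ℂ) := by
      rw [← dotProduct_mulVec, ← herm_self, herm]
    rw [h1, det_one_add_mul_comm, det_unique]
    simp only [Matrix.add_apply, Matrix.one_apply_eq, Matrix.mul_apply, Matrix.of_apply, mul_assoc,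
      ← Finset.mul_sum]
    rw [dotProduct] at h2
    rw [h2]
  obtain ⟨l, hl⟩ : ∃ l : ℂ, l = 1 + c * (q d : ℂ) := ⟨_, rfl⟩
  have hl1 : star l * l = 1 := by
    rw [hl, star_add, star_one, star_mul']
    have h3 : star (q d : ℂ) = (q d : ℂ) := Complex.conj_ofReal _
    rw [h3]
    linear_combination (q d : ℂ) * h
  have hl2 : ‖l‖ = 1 := by
    have h4 : ‖star l * l‖ = 1 := by rw [hl1, norm_one]
    rw [norm_mul, norm_star] at h4
    nlinarith [norm_nonneg l]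
  have hl0 : l ≠ 0 := by
    intro h5
    rw [h5, norm_zero] at hl2
    exact zero_ne_one hl2
  obtain ⟨μ, hμ⟩ : ∃ μ : ℂ, μ ^ (n + 1) = l⁻¹ := IsAlgClosed.exists_pow_nat_eq _ (Nat.succ_pos n)
  have hμ1 : ‖μ‖ = 1 := by
    have h1 := congrArg norm hμ
    rw [norm_pow, norm_inv, hl2, inv_one] at h1
    exact (pow_eq_one_iff_of_nonneg (norm_nonneg μ) (Nat.succ_ne_zero n)).1 h1
  have hμμ : star μ * μ = 1 := by
    rw [RCLike.star_def, Complex.conj_mul', hμ1]; simp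
  have hdet' : (μ • A).det = 1 := by
    rw [det_smul, hdet, Fintype.card_fin, hμ, ← hl, inv_mul_cancel₀ hl0]
  have hpres : (μ • A)ᴴ * J n * (μ • A) = J n := by
    apply pres_of_herm
    intro v w
    rw [smul_mulVec, smul_mulVec, herm_smul_left, herm_smul_right, hherm, ← mul_assoc,
      hμμ, one_mul]
  refine ⟨ofMatrix (μ • A) hdet' hpres, μ, hμ1, fun v => ?_⟩
  rw [act, toMatrix_ofMatrix, smul_mulVec, hAv]

/-- The stabiliser of the base point acts transitively on the isotropic lines. -/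
private theorem exists_rot {ξ η : Fin n → ℂ} (hξ : nq ξ = 1) (hη : nq η = 1) :
    ∃ (k : SUGroup n) (μ : ℂ), ‖μ‖ = 1 ∧ act k (base n) = μ • base n ∧
      act k (NU.pe ξ) = μ • NU.pe η := by
  by_cases hne : ξ = η
  · exact ⟨1, 1, norm_one, by rw [act_one, one_smul], by rw [act_one, one_smul, hne]⟩
  · obtain ⟨z, hz⟩ : ∃ z : ℂ, z = herm (NU.pe η) (NU.pe ξ) := ⟨_, rfl⟩
    have hz0 : z ≠ 0 := by
      rw [hz]
      exact herm_pe_ne hη hξ (Ne.symm hne)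
    have hzs : star z ≠ 0 := star_ne_zero.2 hz0
    have e1 : herm (NU.pe ξ) (NU.pe ξ) = 0 := by
      rw [herm_self, q_pe, hξ, sub_self, Complex.ofReal_zero]
    have e2 : herm (NU.pe η) (NU.pe η) = 0 := by
      rw [herm_self, q_pe, hη, sub_self, Complex.ofReal_zero]
    have e3 : herm (NU.pe ξ) (NU.pe η) = star z := by rw [hz, ← herm_comm]
    have hde : NU.pe ξ - NU.pe η = NU.pe ξ + (-1 : ℂ) • NU.pe η := by module
    have hdp : herm (NU.pe ξ - NU.pe η) (NU.pe ξ) = -z := by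
      rw [hde, herm_add_left, herm_smul_left, e1, ← hz]
      simp
    have hqd : (q (NU.pe ξ - NU.pe η) : ℂ) = -(z + star z) := by
      rw [← herm_self]
      conv_lhs => rw [hde, herm_add_left, herm_add_right, herm_add_right, herm_smul_left,
        herm_smul_left, herm_smul_right, herm_smul_right, e1, e2, e3, ← hz]
      simp
    have hdb : herm (NU.pe ξ - NU.pe η) (base n) = 0 := by
      have h1 := herm_base_pe ξ
      have h2 := herm_base_pe η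
      rw [herm_comm, hde, herm_add_right, herm_smul_right, h1, h2]
      simp
    obtain ⟨g, μ, hμ, hg⟩ := exists_crefl (NU.pe ξ - NU.pe η) z⁻¹ (by
      rw [hqd, star_inv₀]
      field_simp
      ring)
    refine ⟨g, μ, hμ, ?_, ?_⟩
    · rw [hg, hdb, mul_zero, zero_smul, add_zero]
    · rw [hg, hdp, mul_neg, inv_mul_cancel₀ hz0]
      congr 1
      module

/-- The group `PS ξ` and the flow act transitively. -/
theorem exists_ps_fl {ξ : Fin n → ℂ} (hξ : nq ξ = 1) {v : Vec n} (hv : v ∈ Cone n) :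
    ∃ h ∈ PS ξ, ∃ c : ℂ, c ≠ 0 ∧
      v = c • act (h * fl ξ (Real.log (yp (NU.pe ξ) v) / 2)) (base n) := by
  obtain ⟨g, c, hc, hg⟩ := exists_act_eq hv
  obtain ⟨k, μ, hμ, hk1, hk2⟩ := exists_rot hξ (nq_mv hξ g⁻¹)
  have hμ0 : μ ≠ 0 := by
    intro h
    rw [h, norm_zero] at hμ
    exact zero_ne_one hμ
  have hmv : mv (g * k) ξ = ξ := by
    rw [mv_mul hξ, (eq_of_act_pe hξ hk2).2, mv_mv_inv hξ]
  have hv1 : v = (c * μ⁻¹) • act (g * k) (base n) := by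
    rw [act_mul, hk1, act_smul, smul_smul, mul_assoc, inv_mul_cancel₀ hμ0, mul_one, hg]
  obtain ⟨x, hx⟩ : ∃ x : SUGroup n, x = g * k := ⟨_, rfl⟩
  rw [← hx] at hmv hv1
  have hcμ : c * μ⁻¹ ≠ 0 := mul_ne_zero hc (inv_ne_zero hμ0)
  have hinv : mv x⁻¹ ξ = ξ := by
    conv_lhs => rw [← hmv]
    exact mv_inv_mv hξ x
  have hml : ml x⁻¹ ξ = (ml x ξ)⁻¹ := by rw [ml_inv hξ, hinv]
  have hy : yp (NU.pe ξ) v = ‖ml x ξ‖ ^ 2 := by
    rw [hv1, yp_homog (NU.pe ξ) _ hcμ _ (orbit_mem x), yp_pe, hml, norm_inv,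
      inv_pow, inv_inv]
  have h0 : 0 < ‖ml x ξ‖ := norm_pos_iff.2 (ml_ne_zero hξ x)
  obtain ⟨s, hs⟩ : ∃ s : ℝ, s = Real.log (yp (NU.pe ξ) v) / 2 := ⟨_, rfl⟩
  have hs1 : s = Real.log ‖ml x ξ‖ := by
    rw [hs, hy, Real.log_pow]
    push_cast
    ring
  rw [← hs]
  refine ⟨x * fl ξ (-s), (mem_PS hξ).2 ⟨?_, ?_⟩, c * μ⁻¹, hcμ, ?_⟩
  · rw [mv_mul hξ, mv_fl hξ, hmv]
  · rw [ml_mul hξ, mv_fl hξ, ml_fl hξ, norm_mul, Complex.norm_real, Real.norm_eq_abs,
      abs_of_pos (Real.exp_pos _), hs1, Real.exp_neg, Real.exp_log h0, mul_inv_cancel₀ h0.ne']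
  · rw [fl_neg, inv_mul_cancel_right, hv1]

/-- The conjugates of an element of `PS ξ` by the flow. -/
theorem ch_flow_ps {ξ : Fin n → ℂ} (hξ : nq ξ = 1) {k : SUGroup n} (hk : k ∈ PS ξ) (s t : ℝ) :
    ch (fl ξ (-s) * k * fl ξ t) ≤ Real.cosh (s - t) + Real.exp (-(s + t)) * (ch k + 1) := by
  obtain ⟨c, hc1, hc⟩ := hk
  have hcc : star c * c = 1 := by
    rw [RCLike.star_def, Complex.conj_mul', hc1]; simp
  have hc0 : c ≠ 0 := by
    intro h
    rw [h, norm_zero] at hc1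
    exact zero_ne_one hc1
  have e1 : herm (NU.pe ξ) (NU.pe ξ) = 0 := by
    rw [herm_self, q_pe, hξ, sub_self, Complex.ofReal_zero]
  have e3 : herm (NU.pe ξ) (NU.pe (-ξ)) = -2 := by
    have h1 : NU.pe (-ξ) = (2 : ℂ) • base n + (-1 : ℂ) • NU.pe ξ := by
      rw [← two_smul_base ξ]
      module
    rw [h1, herm_add_right, herm_smul_right, herm_smul_right, e1, herm_comm, herm_base_pe]
    simp
  have e4 : herm (NU.pe (-ξ)) (NU.pe ξ) = -2 := by
    rw [herm_comm, e3]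
    simp
  -- the key formula
  have key : ∀ s t : ℝ, herm (act (fl ξ s) (base n)) (act k (act (fl ξ t) (base n))) =
      -c * (Real.cosh (s - t) : ℂ) + (1 / 4 : ℂ) * (Real.exp (-(s + t)) : ℂ) *
        herm (NU.pe (-ξ)) (act k (NU.pe (-ξ))) := by
    intro s t
    have hb : ∀ t : ℝ, act (fl ξ t) (base n) = ((1 / 2 : ℂ) * (Real.exp t : ℂ)) • NU.pe ξ +
        ((1 / 2 : ℂ) * (Real.exp (-t) : ℂ)) • NU.pe (-ξ) := by
      intro t
      have h1 : base n = (1 / 2 : ℂ) • NU.pe ξ + (1 / 2 : ℂ) • NU.pe (-ξ) := by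
        rw [← smul_add, two_smul_base, smul_smul]
        norm_num
      rw [h1, act_add, act_smul, act_smul, fl_pe hξ, fl_pe_neg hξ, smul_smul, smul_smul]
    have h2 : herm (NU.pe ξ) (act k (NU.pe (-ξ))) = -2 * c := by
      have h3 : herm (c • NU.pe ξ) (act k (NU.pe (-ξ))) = -2 := by
        rw [← hc, herm_act, e3]
      rw [herm_smul_left] at h3
      linear_combination c * h3 - herm (NU.pe ξ) (act k (NU.pe (-ξ))) * hcc
    rw [hb s, hb t, act_add, act_smul, act_smul, hc, herm_add_left, herm_add_right, herm_add_right,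
      herm_smul_left, herm_smul_left, herm_smul_left, herm_smul_left, herm_smul_right,
      herm_smul_right, herm_smul_right, herm_smul_right, herm_smul_right, herm_smul_right,
      e1, e4, h2]
    have h5 : ∀ t : ℝ, star ((1 / 2 : ℂ) * (Real.exp t : ℂ)) = (1 / 2 : ℂ) * (Real.exp t : ℂ) := by
      intro t
      rw [star_mul']
      have : star (Real.exp t : ℂ) = (Real.exp t : ℂ) := Complex.conj_ofReal _
      rw [this]
      simp
    rw [h5, h5]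
    have h6 : (Real.cosh (s - t) : ℂ) = ((Real.exp s : ℂ) * (Real.exp (-t) : ℂ) +
        (Real.exp (-s) : ℂ) * (Real.exp t : ℂ)) / 2 := by
      rw [Real.cosh_eq, neg_sub, sub_eq_add_neg, sub_eq_add_neg, Real.exp_add, Real.exp_add]
      push_cast
      ring
    have h7 : (Real.exp (-(s + t)) : ℂ) = (Real.exp (-s) : ℂ) * (Real.exp (-t) : ℂ) := by
      rw [neg_add, Real.exp_add]
      push_cast
      ring
    rw [h6, h7]
    ring
  have h1 : ch (fl ξ (-s) * k * fl ξ t) =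
      ‖herm (act (fl ξ s) (base n)) (act k (act (fl ξ t) (base n)))‖ := by
    rw [← act_mul, norm_herm_orbit, fl_neg, mul_assoc]
  have h2 : ch k = ‖herm (act (fl ξ 0) (base n)) (act k (act (fl ξ 0) (base n)))‖ := by
    rw [← act_mul, norm_herm_orbit, fl_zero, inv_one, one_mul, mul_one]
  rw [key 0 0] at h2
  obtain ⟨B, hB⟩ : ∃ B : ℂ, B = herm (NU.pe (-ξ)) (act k (NU.pe (-ξ))) := ⟨_, rfl⟩
  rw [← hB] at h2
  have h3 : ‖B‖ ≤ 4 * (ch k + 1) := by
    have h4 : (1 / 4 : ℂ) * B = (-c * (Real.cosh (0 - 0) : ℂ) +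
        (1 / 4 : ℂ) * (Real.exp (-(0 + 0)) : ℂ) * B) + c := by
      simp
    have h5 := congrArg norm h4
    have h6 := norm_add_le (-c * (Real.cosh (0 - 0) : ℂ) +
        (1 / 4 : ℂ) * (Real.exp (-(0 + 0)) : ℂ) * B) c
    rw [← h5, ← h2, hc1, norm_mul] at h6
    have h7 : ‖(1 / 4 : ℂ)‖ = 1 / 4 := by norm_num
    rw [h7] at h6
    linarith
  rw [h1, key, ← hB]
  refine (norm_add_le _ _).trans ?_
  rw [norm_mul, norm_neg, hc1, one_mul, Complex.norm_real, Real.norm_eq_abs,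
    abs_of_pos (Real.cosh_pos _), norm_mul, norm_mul, Complex.norm_real, Real.norm_eq_abs,
    abs_of_pos (Real.exp_pos _)]
  have h7 : ‖(1 / 4 : ℂ)‖ = 1 / 4 := by norm_num
  rw [h7]
  have h8 := mul_le_mul_of_nonneg_left h3 (Real.exp_pos (-(s + t))).le
  linarith

/-- Two points of almost the same large height are close modulo the cusp group. PROOF: `v = c • h (fl ξ s) e`, `w = c' • h' (fl ξ s') e` with `h, h' ∈ PS ξ` (the group
`PS ξ` and the flow act transitively on the ball), choose `γ` with `ch (h'⁻¹ γ h) ≤ R` (`cob` for `h` and `h'`, or for `h'⁻¹...`), and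
`fl ξ (-s) k (fl ξ s) e → e` uniformly for `k ∈ PS ξ`, `ch k ≤ R` (`ch_flow_le`, `ds_flow_lim`). -/
theorem close_mod (hc : Cusp Γ ξ z κ) {ε : ℝ} (hε : 0 < ε) : ∃ (Y δ : ℝ), 0 < δ ∧
    ∀ v ∈ Cone m, ∀ w ∈ Cone m, Y ≤ yp (NU.pe ξ) v → Y ≤ yp (NU.pe ξ) w →
      |Real.log (yp (NU.pe ξ) v) - Real.log (yp (NU.pe ξ) w)| ≤ δ →
      ∃ γ ∈ Γ, γ ∈ St ξ ∧ cc v (act γ w) ≤ 1 + ε := by
  have hξ : nq ξ = 1 := hc.par.1
  obtain ⟨R, hR⟩ := hc.cob
  have hR1 : 1 ≤ R := by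
    obtain ⟨γ, _, _, h⟩ := hR 1 (PS ξ).one_mem
    exact (one_le_ch _).trans h
  obtain ⟨K, hK⟩ : ∃ K : ℝ, K = 2 * R * R := ⟨_, rfl⟩
  have hK0 : 0 < K := by rw [hK]; positivity
  obtain ⟨η, hη⟩ : ∃ η : ℝ, η = min 1 ε / 8 := ⟨_, rfl⟩
  have hη0 : 0 < η := by rw [hη]; have := lt_min one_pos hε; positivity
  have hη1 : (1 + 2 * η) ^ 2 ≤ 1 + ε := by
    have h1 : 8 * η ≤ 1 := by rw [hη]; linarith [min_le_left 1 ε]
    have h2 : 8 * η ≤ ε := by rw [hη]; linarith [min_le_right 1 ε]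
    nlinarith
  obtain ⟨δ₀, hδ₀, hcosh⟩ : ∃ δ₀ > 0, ∀ x : ℝ, |x| < δ₀ → Real.cosh x ≤ 1 + η := by
    have h1 := Metric.continuousAt_iff.1 (Real.continuous_cosh.continuousAt (x := 0)) η hη0
    obtain ⟨δ₀, hδ₀, h⟩ := h1
    refine ⟨δ₀, hδ₀, fun x hx => ?_⟩
    have h2 := h (x := x) (by rwa [dist_zero_right, Real.norm_eq_abs])
    rw [Real.cosh_zero, Real.dist_eq] at h2
    linarith [(abs_lt.1 h2).2]
  refine ⟨(K + 1) / η, δ₀, hδ₀, fun v hv w hw hyv hyw hd => ?_⟩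
  have hY0 : 0 < (K + 1) / η := by positivity
  obtain ⟨h, hh, c, hc0, hvh⟩ := exists_ps_fl hξ hv
  obtain ⟨h', hh', c', hc0', hwh⟩ := exists_ps_fl hξ hw
  obtain ⟨s, hs⟩ : ∃ s : ℝ, s = Real.log (yp (NU.pe ξ) v) / 2 := ⟨_, rfl⟩
  obtain ⟨t, ht⟩ : ∃ t : ℝ, t = Real.log (yp (NU.pe ξ) w) / 2 := ⟨_, rfl⟩
  rw [← hs] at hvh
  rw [← ht] at hwh
  obtain ⟨γ₁, hγ₁, hγ₁s, hr₁⟩ := hR h hh
  obtain ⟨γ₂, hγ₂, hγ₂s, hr₂⟩ := hR h' hh'
  refine ⟨γ₁⁻¹ * γ₂, Γ.mul_mem (Γ.inv_mem hγ₁) hγ₂,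
    (St ξ).mul_mem ((St ξ).inv_mem hγ₁s) hγ₂s, ?_⟩
  have hkP : (γ₁ * h)⁻¹ * (γ₂ * h') ∈ PS ξ :=
    (PS ξ).mul_mem ((PS ξ).inv_mem ((PS ξ).mul_mem (hc.par.2 _ hγ₁ hγ₁s) hh))
      ((PS ξ).mul_mem (hc.par.2 _ hγ₂ hγ₂s) hh')
  have hkc : ch ((γ₁ * h)⁻¹ * (γ₂ * h')) ≤ K := by
    refine (ch_mul_le' _ _).trans ?_
    rw [ch_inv, hK]
    have h1 := one_le_ch (γ₁ * h)
    have h2 := one_le_ch (γ₂ * h')
    gcongr
  have hcc : cc v (act (γ₁⁻¹ * γ₂) w) = ch (fl ξ (-s) * ((γ₁ * h)⁻¹ * (γ₂ * h')) * fl ξ t) ^ 2 := by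
    have e1 : act (γ₁⁻¹ * γ₂) w = c' • act (γ₁⁻¹ * γ₂ * (h' * fl ξ t)) (base m) := by
      rw [hwh, act_smul, ← act_mul]
    rw [e1, cc_smul_right hc0', hvh, cc_smul_left hc0, cc, norm_herm_orbit, q_orbit, q_orbit, fl_neg]
    norm_num
    congr 2
    group
  rw [hcc]
  refine le_trans (pow_le_pow_left₀ (by linarith [one_le_ch (fl ξ (-s) *
    ((γ₁ * h)⁻¹ * (γ₂ * h')) * fl ξ t)]) ?_ 2) hη1
  refine (ch_flow_ps hξ hkP s t).trans ?_
  have h1 : Real.cosh (s - t) ≤ 1 + η := by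
    apply hcosh
    have h2 : s - t = (Real.log (yp (NU.pe ξ) v) - Real.log (yp (NU.pe ξ) w)) / 2 := by
      rw [hs, ht]; ring
    rw [h2, abs_div, abs_two]
    linarith
  have h3 : Real.exp (-(s + t)) ≤ ((K + 1) / η)⁻¹ := by
    have h4 : Real.log ((K + 1) / η) ≤ s + t := by
      have h5 := Real.log_le_log hY0 hyv
      have h6 := Real.log_le_log hY0 hyw
      rw [hs, ht]
      linarith
    rw [Real.exp_neg]
    apply inv_anti₀ hY0
    rw [← Real.log_le_iff_le_exp hY0]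
    exact h4
  have h7 : Real.exp (-(s + t)) * (ch ((γ₁ * h)⁻¹ * (γ₂ * h')) + 1) ≤
      ((K + 1) / η)⁻¹ * (K + 1) := by
    have := one_le_ch ((γ₁ * h)⁻¹ * (γ₂ * h'))
    gcongr
  have h8 : ((K + 1) / η)⁻¹ * (K + 1) = η := by
    field_simp
  rw [h8] at h7
  linarith

end Pool.Agent.Lib.MP_5d4057_al.RG
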