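import Pool.Agent.Lib.MP_5d4057_al.RG.NoMax

/-!
# RG: the infinitesimal Schwarz - Pick lemma, and the symmetric pairs

`nb_le_of_ccb`: a holomorphic map which does not increase distances does not increase the norms of tangent
vectors. `imm`: if `c S_X² ≤ S_Y` then the derivative is injective: for `φ'(z) ξ = 0` the pairs
`z + t ξ`, `z - t ξ` have `S_Y = O(t⁶)` and `S_X² ≥ 16 t⁴ |ξ|⁴`.
-/

set_option autoImplicit false

namespace Pool.Agent.Lib.MP_5d4057_al.RG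

open Filter Topology Asymptotics Metric

open scoped InnerProductSpace

variable {m n k : ℕ}

theorem diffAt_of_on {φ : E m → E n} (hd : DifferentiableOn ℂ φ (ball 0 1)) {z : E m}
    (hz : ‖z‖ < 1) : DifferentiableAt ℂ φ z := by
  have h2 : z ∈ ball (0 : E m) 1 := by simpa using hz
  exact (hd z h2).differentiableAt (isOpen_ball.mem_nhds h2)

theorem ccb_lim {y : ℝ → E k} {y₀ V : E k} (h0 : ‖y₀‖ < 1) (hy0 : y 0 = y₀)
    (hy : HasDerivAt y V 0) :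
    Tendsto (fun t : ℝ => (ccb y₀ (y t) - 1) / t ^ 2) (𝓝[≠] 0) (𝓝 (nb y₀ V)) := by
  have h1 := one_sub_pos h0
  have hsl : Tendsto (fun t : ℝ => t⁻¹ • (y t - y₀)) (𝓝[≠] 0) (𝓝 V) := by
    have h2 := hasDerivAt_iff_tendsto_slope.1 hy
    refine h2.congr fun t => ?_
    rw [slope_def_module, hy0, sub_zero]
  have hyt : Tendsto y (𝓝[≠] 0) (𝓝 y₀) := by
    have := hy.continuousAt.tendsto
    rw [hy0] at this
    exact this.mono_left nhdsWithin_le_nhds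
  have h3 : Tendsto (fun t : ℝ => (‖t⁻¹ • (y t - y₀)‖ ^ 2 * (1 - ‖y₀‖ ^ 2) +
      ‖⟪y₀, t⁻¹ • (y t - y₀)⟫_ℂ‖ ^ 2) / ((1 - ‖y₀‖ ^ 2) * (1 - ‖y t‖ ^ 2))) (𝓝[≠] 0)
      (𝓝 ((‖V‖ ^ 2 * (1 - ‖y₀‖ ^ 2) + ‖⟪y₀, V⟫_ℂ‖ ^ 2) /
        ((1 - ‖y₀‖ ^ 2) * (1 - ‖y₀‖ ^ 2)))) := by
    refine Tendsto.div ?_ ?_ (by positivity)
    · exact ((hsl.norm.pow 2).mul_const _).add (((tendsto_const_nhds.inner hsl).norm).pow 2)
    · exact tendsto_const_nhds.mul (tendsto_const_nhds.sub (hyt.norm.pow 2))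
  have h4 : (‖V‖ ^ 2 * (1 - ‖y₀‖ ^ 2) + ‖⟪y₀, V⟫_ℂ‖ ^ 2) /
      ((1 - ‖y₀‖ ^ 2) * (1 - ‖y₀‖ ^ 2)) = nb y₀ V := by
    rw [nb, sq (1 - ‖y₀‖ ^ 2)]
  rw [h4] at h3
  refine h3.congr' ?_
  have h5 : ∀ᶠ t in 𝓝[≠] (0 : ℝ), ‖y t‖ < 1 := hyt.norm.eventually (gt_mem_nhds h0)
  filter_upwards [h5, self_mem_nhdsWithin] with t ht htne
  have ht0 : t ≠ 0 := htne
  have ht2 := (one_sub_pos ht).ne'
  rw [ccb_sub_one h0 ht, inner_smul_right_eq_smul, norm_smul, norm_smul, norm_inv,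
    Real.norm_eq_abs, mul_pow, mul_pow, inv_pow, sq_abs]
  field_simp

theorem hasDerivAt_line {φ : E m → E n} {z : E m} (hd : DifferentiableAt ℂ φ z) (ξ : E m) :
    HasDerivAt (fun t : ℝ => φ (z + (t : ℂ) • ξ)) (fderiv ℂ φ z ξ) 0 := by
  have h1 : HasDerivAt (fun t : ℝ => z + (t : ℂ) • ξ) ξ 0 := by
    have h2 : HasDerivAt (fun t : ℝ => (t : ℂ)) 1 0 := Complex.ofRealCLM.hasDerivAt
    have h3 := (h2.smul_const ξ).const_add z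
    rwa [one_smul] at h3
  have h4 : HasFDerivAt φ (fderiv ℂ φ z) (z + ((0 : ℝ) : ℂ) • ξ) := by
    rw [Complex.ofReal_zero, zero_smul, add_zero]
    exact hd.hasFDerivAt
  exact (h4.restrictScalars ℝ).comp_hasDerivAt (0 : ℝ) h1

/-- The infinitesimal Schwarz - Pick lemma. -/
theorem nb_le_of_ccb {φ : E m → E n} (hd : DifferentiableOn ℂ φ (ball 0 1))
    (hmap : Set.MapsTo φ (ball 0 1) (ball 0 1))
    (hle : ∀ z ζ : E m, ‖z‖ < 1 → ‖ζ‖ < 1 → ccb (φ z) (φ ζ) ≤ ccb z ζ) :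
    ∀ z : E m, ‖z‖ < 1 → ∀ ξ : E m, nb (φ z) (fderiv ℂ φ z ξ) ≤ nb z ξ := by
  intro z hz ξ
  have hφz : ‖φ z‖ < 1 := by
    have := hmap (by simpa using hz : z ∈ ball (0 : E m) 1)
    simpa using this
  have h1 := ccb_lim hφz (y := fun t : ℝ => φ (z + (t : ℂ) • ξ)) (by simp)
    (hasDerivAt_line (diffAt_of_on hd hz) ξ)
  have h2 := ccb_lim hz (y := fun t : ℝ => z + (t : ℂ) • ξ) (V := ξ) (by simp) (by
    have h2 : HasDerivAt (fun t : ℝ => (t : ℂ)) 1 0 := Complex.ofRealCLM.hasDerivAt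
    have h3 := (h2.smul_const ξ).const_add z
    rwa [one_smul] at h3)
  refine le_of_tendsto_of_tendsto h1 h2 ?_
  have hc : Tendsto (fun t : ℝ => z + (t : ℂ) • ξ) (𝓝[≠] 0) (𝓝 z) := by
    have : Continuous fun t : ℝ => z + (t : ℂ) • ξ := by fun_prop
    have h3 := this.tendsto 0
    rw [Complex.ofReal_zero, zero_smul, add_zero] at h3
    exact h3.mono_left nhdsWithin_le_nhds
  filter_upwards [hc.norm.eventually (gt_mem_nhds hz)] with t ht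
  have h4 := hle z (z + (t : ℂ) • ξ) hz ht
  exact div_le_div_of_nonneg_right (by linarith) (by positivity)

/-- The distance is at least the euclidean one. -/
theorem le_ccb {z ζ : E k} (hz : ‖z‖ < 1) (hζ : ‖ζ‖ < 1) : ‖ζ - z‖ ^ 2 ≤ ccb z ζ - 1 := by
  have h1 := one_sub_pos hz
  have h2 := one_sub_pos hζ
  rw [ccb_sub_one hz hζ, le_div_iff₀ (by positivity)]
  have h3 : 0 ≤ ‖ζ - z‖ ^ 2 := by positivity
  have h4 : 0 ≤ ‖⟪z, ζ - z⟫_ℂ‖ ^ 2 := by positivity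
  have h5 : 1 - ‖ζ‖ ^ 2 ≤ 1 := by nlinarith [norm_nonneg ζ]
  nlinarith [mul_nonneg h3 h1.le]

/-- Symmetric pairs. -/
theorem imm {φ : E m → E n} (hd : DifferentiableOn ℂ φ (ball 0 1))
    (hmap : Set.MapsTo φ (ball 0 1) (ball 0 1)) {c T : ℝ} (hc : 0 < c) (hT : 1 < T)
    (h : ∀ z ζ : E m, ‖z‖ < 1 → ‖ζ‖ < 1 → ccb z ζ ≤ T →
      c * (ccb z ζ - 1) ^ 2 ≤ ccb (φ z) (φ ζ) - 1) {z : E m} (hz : ‖z‖ < 1) {ξ : E m}
    (hξ : ξ ≠ 0) : fderiv ℂ φ z ξ ≠ 0 := by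
  intro h0
  have hφz : ‖φ z‖ < 1 := by
    have := hmap (by simpa using hz : z ∈ ball (0 : E m) 1)
    simpa using this
  -- the difference of the values
  obtain ⟨x₂, hx⟩ := (Cv.aff z ξ).map hd hz
  rw [h0] at hx
  have hneg : Tendsto (fun s : ℂ => -s) (𝓝 0) (𝓝 0) := by
    have : Continuous fun s : ℂ => -s := by fun_prop
    simpa using this.tendsto 0
  have hx' := hx.comp_tendsto hneg
  have hdiff : (fun s : ℂ => φ (z + -s • ξ) - φ (z + s • ξ)) =O[𝓝 0] fun s : ℂ => ‖s‖ ^ 3 := by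
    have h1 : ((fun s : ℂ => ‖s‖ ^ 3) ∘ fun s => -s) = fun s : ℂ => ‖s‖ ^ 3 := by
      funext s
      simp
    rw [h1] at hx'
    refine (hx'.sub hx).congr_left fun s => ?_
    simp only [Function.comp_apply, smul_zero, add_zero, neg_sq]
    abel
  obtain ⟨C, hC⟩ := hdiff.bound
  -- the values stay in a smaller ball
  obtain ⟨r, hr1, hr2⟩ := exists_between hφz
  have hr0 : 0 ≤ r := (norm_nonneg _).trans hr1.le
  have hl1 : Tendsto (fun s : ℂ => z + s • ξ) (𝓝 0) (𝓝 z) := by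
    have : Continuous fun s : ℂ => z + s • ξ := by fun_prop
    simpa using this.tendsto 0
  have hl2 : Tendsto (fun s : ℂ => z + -s • ξ) (𝓝 0) (𝓝 z) := by
    have : Continuous fun s : ℂ => z + -s • ξ := by fun_prop
    simpa using this.tendsto 0
  have hφc : Tendsto φ (𝓝 z) (𝓝 (φ z)) := (diffAt_of_on hd hz).continuousAt.tendsto
  have hcc : Tendsto (fun s : ℂ => ccb (z + s • ξ) (z + -s • ξ)) (𝓝 0) (𝓝 1) := by
    have h1 := one_sub_pos hz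
    have h2 : Tendsto (fun s : ℂ => ccb (z + s • ξ) (z + -s • ξ)) (𝓝 0)
        (𝓝 (‖1 - ⟪z, z⟫_ℂ‖ ^ 2 / ((1 - ‖z‖ ^ 2) * (1 - ‖z‖ ^ 2)))) := by
      refine Tendsto.div ?_ ?_ (by positivity)
      · exact ((tendsto_const_nhds.sub (hl1.inner hl2)).norm).pow 2
      · exact (tendsto_const_nhds.sub (hl1.norm.pow 2)).mul
          (tendsto_const_nhds.sub (hl2.norm.pow 2))
    have h3 : ‖1 - ⟪z, z⟫_ℂ‖ ^ 2 / ((1 - ‖z‖ ^ 2) * (1 - ‖z‖ ^ 2)) = 1 := by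
      rw [inner_self_cast, ← Complex.ofReal_one, ← Complex.ofReal_sub, Complex.norm_real,
        Real.norm_of_nonneg h1.le, sq, div_self (by positivity)]
    rwa [h3] at h2
  have hev : ∀ᶠ s in 𝓝 (0 : ℂ), 16 * c * ‖s‖ ^ 4 * ‖ξ‖ ^ 4 ≤
      2 / (1 - r ^ 2) ^ 2 * (C * ‖s‖ ^ 3) ^ 2 := by
    filter_upwards [hC, hl1.norm.eventually (gt_mem_nhds hz), hl2.norm.eventually (gt_mem_nhds hz),
      (hφc.comp hl1).norm.eventually (gt_mem_nhds hr1),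
      (hφc.comp hl2).norm.eventually (gt_mem_nhds hr1), hcc.eventually (gt_mem_nhds hT)]
      with s a1 a2 a3 a4 a5 a6
    have b1 := h _ _ a2 a3 a6.le
    have b2 := le_ccb a2 a3
    have e1 : z + -s • ξ - (z + s • ξ) = (-2 * s) • ξ := by module
    rw [e1, norm_smul, norm_mul, norm_neg, Complex.norm_ofNat] at b2
    have a4' : ‖φ (z + s • ξ)‖ < r := a4
    have a5' : ‖φ (z + -s • ξ)‖ < r := a5
    have b3 : (2 * ‖s‖ * ‖ξ‖) ^ 2 * ((2 * ‖s‖ * ‖ξ‖) ^ 2) ≤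
        (ccb (z + s • ξ) (z + -s • ξ) - 1) ^ 2 := by
      rw [sq (ccb (z + s • ξ) (z + -s • ξ) - 1)]
      exact mul_le_mul b2 b2 (by positivity) ((by positivity : (0:ℝ) ≤ _).trans b2)
    have a4'' : ‖φ (z + s • ξ)‖ < 1 := a4'.trans hr2
    have a5'' : ‖φ (z + -s • ξ)‖ < 1 := a5'.trans hr2
    have b4 := ccb_sub_one a4'' a5''
    have c1 : 1 - r ^ 2 ≤ 1 - ‖φ (z + s • ξ)‖ ^ 2 := by nlinarith [norm_nonneg (φ (z + s • ξ))]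
    have c2 : 1 - r ^ 2 ≤ 1 - ‖φ (z + -s • ξ)‖ ^ 2 := by nlinarith [norm_nonneg (φ (z + -s • ξ))]
    have c0 : 0 < 1 - r ^ 2 := by nlinarith
    obtain ⟨δ, hδ⟩ : ∃ δ, δ = φ (z + -s • ξ) - φ (z + s • ξ) := ⟨_, rfl⟩
    rw [← hδ] at a1 b4
    have c3 : ‖⟪φ (z + s • ξ), δ⟫_ℂ‖ ^ 2 ≤ ‖δ‖ ^ 2 := by
      refine pow_le_pow_left₀ (norm_nonneg _) ((norm_inner_le_norm _ _).trans ?_) 2
      nlinarith [norm_nonneg δ]
    have c4 : ‖δ‖ ^ 2 * (1 - ‖φ (z + s • ξ)‖ ^ 2) ≤ ‖δ‖ ^ 2 := by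
      have : 0 ≤ ‖δ‖ ^ 2 * ‖φ (z + s • ξ)‖ ^ 2 := by positivity
      nlinarith
    have c5 : (1 - r ^ 2) ^ 2 ≤ (1 - ‖φ (z + s • ξ)‖ ^ 2) * (1 - ‖φ (z + -s • ξ)‖ ^ 2) := by
      rw [sq]
      exact mul_le_mul c1 c2 c0.le (c0.le.trans c1)
    have c6 : ccb (φ (z + s • ξ)) (φ (z + -s • ξ)) - 1 ≤ 2 / (1 - r ^ 2) ^ 2 * ‖δ‖ ^ 2 := by
      rw [b4, div_mul_eq_mul_div]
      exact div_le_div₀ (by positivity) (by linarith) (by positivity) c5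
    have c7 : ‖δ‖ ^ 2 ≤ (C * ‖s‖ ^ 3) ^ 2 := by
      refine pow_le_pow_left₀ (norm_nonneg _) (a1.trans_eq ?_) 2
      rw [Real.norm_of_nonneg (by positivity)]
    have c8 : 2 / (1 - r ^ 2) ^ 2 * ‖δ‖ ^ 2 ≤ 2 / (1 - r ^ 2) ^ 2 * (C * ‖s‖ ^ 3) ^ 2 :=
      mul_le_mul_of_nonneg_left c7 (by positivity)
    have c9 : c * ((2 * ‖s‖ * ‖ξ‖) ^ 2 * ((2 * ‖s‖ * ‖ξ‖) ^ 2)) ≤
        c * (ccb (z + s • ξ) (z + -s • ξ) - 1) ^ 2 := mul_le_mul_of_nonneg_left b3 hc.le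
    calc 16 * c * ‖s‖ ^ 4 * ‖ξ‖ ^ 4 = c * ((2 * ‖s‖ * ‖ξ‖) ^ 2 * ((2 * ‖s‖ * ‖ξ‖) ^ 2)) := by ring
      _ ≤ _ := c9.trans (b1.trans (c6.trans c8))
  -- contradiction for small `s`
  have hξ0 : 0 < ‖ξ‖ := norm_pos_iff.2 hξ
  have c0 : 0 < 1 - r ^ 2 := by nlinarith
  have hlim : Tendsto (fun s : ℂ => 2 / (1 - r ^ 2) ^ 2 * C ^ 2 * ‖s‖ ^ 2) (𝓝[≠] 0) (𝓝 0) := by
    have : Continuous fun s : ℂ => 2 / (1 - r ^ 2) ^ 2 * C ^ 2 * ‖s‖ ^ 2 := by fun_prop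
    have h1 := this.tendsto 0
    simp only [norm_zero, ne_eq, OfNat.ofNat_ne_zero, not_false_eq_true, zero_pow, mul_zero] at h1
    exact h1.mono_left nhdsWithin_le_nhds
  have hpos : 0 < 16 * c * ‖ξ‖ ^ 4 := by positivity
  obtain ⟨s, ⟨hs1, hs2⟩, hs3⟩ := ((hlim.eventually (gt_mem_nhds hpos)).and
    (hev.filter_mono nhdsWithin_le_nhds)).and self_mem_nhdsWithin |>.exists
  have hs0 : 0 < ‖s‖ := norm_pos_iff.2 hs3
  have h4 : 0 < ‖s‖ ^ 4 := by positivity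
  have h5 : 2 / (1 - r ^ 2) ^ 2 * (C * ‖s‖ ^ 3) ^ 2 =
      (2 / (1 - r ^ 2) ^ 2 * C ^ 2 * ‖s‖ ^ 2) * ‖s‖ ^ 4 := by ring
  rw [h5] at hs2
  have h6 := mul_lt_mul_of_pos_right hs1 h4
  nlinarith

end Pool.Agent.Lib.MP_5d4057_al.RG
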