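import Pool.Agent.Lib.MP_5d4057_al.RG.Bridge
import Pool.Agent.Lib.MP_5d4057_al.RG.Imm

/-!
# RG G5: the lower bound for the distance of the images

Hypothesis `Tm` (trivial for cocompact groups): for every `ε > 0` and `T` there is a compact set modulo which either the
first point lies in it, or the pair is almost isometric. `pair_sq`: `c S_X² ≤ S_Y` for `S_X ≤ T`, from `no_max`.
-/

set_option autoImplicit false

namespace Pool.Agent.Lib.MP_5d4057_al.RG

open Matrix Filter Topology Metric Pool.Agent.Lib.MP_5d4057_al Pool.Agent.Lib.MP_5d4057_al.Hyb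
  Pool.Agent.Lib.MP_5d4057_al.HM

open scoped InnerProductSpace

variable {m n k : ℕ}

/-- Compactness modulo `Γ` up to almost isometric pairs. -/
def Tm (Γ : Subgroup (SUGroup m)) (f : Vec m → Vec n) : Prop :=
  ∀ ε : ℝ, 0 < ε → ∀ T : ℝ, ∃ K : Set (SUGroup m), IsCompact K ∧ ∀ g : SUGroup m,
    (∃ γ ∈ Γ, γ * g ∈ K) ∨ ∀ w ∈ Cone m, cc (act g (base m)) w ≤ T →
      (1 - ε) * (cc (act g (base m)) w - 1) ≤ cc (f (act g (base m))) (f w) - 1

theorem tm_of_coc {Γ : Subgroup (SUGroup m)} (h : Coc Γ) (f : Vec m → Vec n) : Tm Γ f := by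
  obtain ⟨K, hK, hK'⟩ := h.cpt
  exact fun ε _ T => ⟨K, hK, fun g => Or.inl (hK' g)⟩

theorem ccb_zero_left (ζ : E k) : ccb 0 ζ = 1 / (1 - ‖ζ‖ ^ 2) := by
  simp [ccb]

theorem continuous_bl : Continuous (bl : E k → Vec k) := by
  rw [continuous_pi_iff]
  intro i
  refine Fin.lastCases ?_ (fun i => ?_) i
  · simp only [bl_last]
    exact continuous_const
  · simp only [bl_castSucc]
    exact (EuclideanSpace.proj (𝕜 := ℂ) i : E k →L[ℂ] ℂ).continuous

theorem continuous_act2 : Continuous fun p : SUGroup k × E k => act p.1 (bl p.2) := by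
  have h1 : Continuous fun p : SUGroup k × E k => p.1.toMatrix :=
    (isClosedEmbedding_toMatrix k).continuous.comp continuous_fst
  exact h1.matrix_mulVec (continuous_bl.comp continuous_snd)

theorem continuous_herm {X : Type} [TopologicalSpace X] {v w : X → Vec k} (hv : Continuous v)
    (hw : Continuous w) : Continuous fun x => herm (v x) (w x) := by
  unfold herm
  exact (continuous_star.comp hv).dotProduct (continuous_const.matrix_mulVec hw)

theorem continuousOn_herm {X : Type} [TopologicalSpace X] {s : Set X} {v w : X → Vec k}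
    (hv : ContinuousOn v s) (hw : ContinuousOn w s) : ContinuousOn (fun x => herm (v x) (w x)) s := by
  rw [continuousOn_iff_continuous_domRestrict] at hv hw ⊢
  exact continuous_herm hv hw

theorem continuousOn_q {X : Type} [TopologicalSpace X] {s : Set X} {v : X → Vec k}
    (hv : ContinuousOn v s) : ContinuousOn (fun x => q (v x)) s := by
  have h1 := (Complex.continuous_re.comp_continuousOn (continuousOn_herm hv hv))
  refine h1.congr fun x _ => ?_
  show q (v x) = (herm (v x) (v x)).re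
  rw [herm_self, Complex.ofReal_re]

theorem continuousOn_cc {X : Type} [TopologicalSpace X] {s : Set X} {v w : X → Vec k}
    (hv : ContinuousOn v s) (hw : ContinuousOn w s) (hv' : ∀ x ∈ s, v x ∈ Cone k)
    (hw' : ∀ x ∈ s, w x ∈ Cone k) : ContinuousOn (fun x => cc (v x) (w x)) s := by
  refine ((continuousOn_herm hv hw).norm.pow 2).div ((continuousOn_q hv).mul (continuousOn_q hw)) ?_
  intro x hx
  have h1 : q (v x) < 0 := hv' x hx
  have h2 : q (w x) < 0 := hw' x hx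
  exact (mul_pos_of_neg_of_neg h1 h2).ne'

/-- Two points in the frame of the first one. -/
theorem exists_pair {v w : Vec m} (hv : v ∈ Cone m) (hw : w ∈ Cone m) :
    ∃ (g : SUGroup m) (ζ : E m) (c d : ℂ), c ≠ 0 ∧ d ≠ 0 ∧ ‖ζ‖ < 1 ∧
      v = c • act g (bl 0) ∧ w = d • act g (bl ζ) := by
  obtain ⟨g, c, hc, h1⟩ := exists_act_eq hv
  have hw' : act g⁻¹ w ∈ Cone m := act_mem _ hw
  refine ⟨g, pr (act g⁻¹ w), c, act g⁻¹ w (Fin.last m), hc, last_ne hw', pr_mem hw', ?_, ?_⟩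
  · rw [bl_zero]
    exact h1
  · rw [← act_smul, ← bl_pr hw', ← act_mul, mul_inv_cancel, act_one]

/-- **The lower bound.** -/
theorem pair_sq (hmn : n < 2 * m) {f : Vec m → Vec n} (hf : HMap f)
    {Γ : Subgroup (SUGroup m)} (hT : Tm Γ f)
    (hinv : ∀ γ ∈ Γ, ∀ v ∈ Cone m, ∀ w ∈ Cone m, cc (f (act γ v)) (f (act γ w)) = cc (f v) (f w))
    (hfar : ∃ T : ℝ, ∀ v ∈ Cone m, ∀ w ∈ Cone m, T ≤ cc v w → 1 < cc (f v) (f w)) (T : ℝ) :
    ∃ c : ℝ, 0 < c ∧ ∀ v ∈ Cone m, ∀ w ∈ Cone m, cc v w ≤ T →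
      c * (cc v w - 1) ^ 2 ≤ cc (f v) (f w) - 1 := by
  obtain ⟨T₀, hT₀⟩ := hfar
  obtain ⟨R, hR⟩ : ∃ R : ℝ, R = max (max T T₀) 2 := ⟨_, rfl⟩
  have hRT : T ≤ R := by rw [hR]; exact (le_max_left _ _).trans (le_max_left _ _)
  have hRT₀ : T₀ ≤ R := by rw [hR]; exact (le_max_right _ _).trans (le_max_left _ _)
  have hR2 : 2 ≤ R := by rw [hR]; exact le_max_right _ _
  obtain ⟨K, hK, hK'⟩ := hT (1 / 2) (by norm_num) R
  -- the radius
  obtain ⟨ρ, hρ⟩ : ∃ ρ : ℝ, ρ = √(1 - 1 / R) := ⟨_, rfl⟩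
  have hRi : 1 / R ≤ 1 / 2 := one_div_le_one_div_of_le (by norm_num) hR2
  have hRi0 : 0 < 1 / R := by positivity
  have hρ2 : ρ ^ 2 = 1 - 1 / R := by rw [hρ]; exact Real.sq_sqrt (by linarith)
  have hρ0 : 0 ≤ ρ := by rw [hρ]; exact Real.sqrt_nonneg _
  have hρ1 : ρ < 1 := by nlinarith
  have hball : ∀ ζ : E m, ‖ζ‖ < 1 → (ccb 0 ζ ≤ R ↔ ‖ζ‖ ≤ ρ) := by
    intro ζ hζ
    have h1 := one_sub_pos hζ
    rw [ccb_zero_left, div_le_iff₀ h1]
    have hR0 : 0 < R := by linarith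
    have e1 : R * (1 / R) = 1 := by field_simp
    constructor
    · intro h2
      by_contra h3
      push Not at h3
      have h4 : ρ ^ 2 < ‖ζ‖ ^ 2 := by nlinarith [norm_nonneg ζ]
      rw [hρ2] at h4
      nlinarith
    · intro h2
      have h4 : ‖ζ‖ ^ 2 ≤ ρ ^ 2 := by nlinarith [norm_nonneg ζ]
      rw [hρ2] at h4
      nlinarith
  -- `sinh²` of the distance of the images
  obtain ⟨H, hH⟩ : ∃ H : SUGroup m × E m → ℝ,
      H = fun p => cc (f (act p.1 (bl 0))) (f (act p.1 (bl p.2))) - 1 := ⟨_, rfl⟩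
  have hz0 : ‖(0 : E m)‖ < 1 := by rw [norm_zero]; exact one_pos
  have hmem : ∀ (g : SUGroup m) (ζ : E m), ‖ζ‖ < 1 → act g (bl ζ) ∈ Cone m :=
    fun g ζ hζ => act_mem g (bl_mem.2 hζ)
  have hHc : ContinuousOn H (K ×ˢ closedBall (0 : E m) ρ) := by
    rw [hH]
    have hζ : ∀ p ∈ K ×ˢ closedBall (0 : E m) ρ, ‖p.2‖ < 1 := by
      rintro p ⟨-, hp⟩
      rw [mem_closedBall_zero_iff] at hp
      exact hp.trans_lt hρ1
    refine (continuousOn_cc ?_ ?_ ?_ ?_).sub continuousOn_const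
    · refine hf.diff.continuousOn.comp (t := Cone m) ?_ fun p _ => hmem _ _ hz0
      exact (continuous_act2.comp (continuous_fst.prodMk continuous_const)).continuousOn
    · exact hf.diff.continuousOn.comp (t := Cone m) continuous_act2.continuousOn
        fun p hp => hmem _ _ (hζ p hp)
    · exact fun p _ => hf.maps _ (hmem _ _ hz0)
    · exact fun p hp => hf.maps _ (hmem _ _ (hζ p hp))
  have hX : ∀ (g : SUGroup m) (ζ : E m), cc (act g (bl 0)) (act g (bl ζ)) = ccb 0 ζ := by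
    intro g ζ
    rw [cc_act, cc_bl]
  have hsph : ∀ p ∈ K ×ˢ sphere (0 : E m) ρ, 0 < H p := by
    rintro ⟨g, ζ⟩ ⟨-, hp⟩
    rw [mem_sphere_zero_iff_norm] at hp
    have hp' : ‖ζ‖ = ρ := hp
    have hζ : ‖ζ‖ < 1 := by rw [hp']; exact hρ1
    have h1 : ccb 0 ζ = R := by
      rw [ccb_zero_left, hp', hρ2]
      field_simp
      ring
    have h2 := hT₀ _ (hmem g 0 hz0) _ (hmem g ζ hζ) (by rw [hX, h1]; exact hRT₀)
    rw [hH]
    exact sub_pos.2 h2
  have hcomp : IsCompact (K ×ˢ sphere (0 : E m) ρ) := hK.prod (isCompact_sphere _ _)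
  obtain ⟨s, hs0, hs⟩ := hcomp.exists_forall_le' (hHc.mono
    (Set.prod_mono_right sphere_subset_closedBall)) hsph
  obtain ⟨c, hc⟩ : ∃ c : ℝ, c = min (s / (R - 1) ^ 2) (1 / (2 * (R - 1))) := ⟨_, rfl⟩
  have hR1 : 0 < R - 1 := by linarith
  have hc0 : 0 < c := by rw [hc]; exact lt_min (by positivity) (by positivity)
  have hc1 : c * (R - 1) ^ 2 ≤ s := by
    have : c ≤ s / (R - 1) ^ 2 := by rw [hc]; exact min_le_left _ _
    rwa [le_div_iff₀ (by positivity)] at this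
  have hc2 : c * (R - 1) ≤ 1 / 2 := by
    have : c ≤ 1 / (2 * (R - 1)) := by rw [hc]; exact min_le_right _ _
    rw [le_div_iff₀ (by positivity)] at this
    linarith
  refine ⟨c, hc0, ?_⟩
  -- the function
  obtain ⟨G, hG⟩ : ∃ G : SUGroup m × E m → ℝ, G = fun p => c * (ccb 0 p.2 - 1) ^ 2 - H p :=
    ⟨_, rfl⟩
  have hGc : ContinuousOn G (K ×ˢ closedBall (0 : E m) ρ) := by
    rw [hG]
    refine (continuousOn_const.mul (ContinuousOn.pow (ContinuousOn.sub ?_ continuousOn_const) 2)).sub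
      hHc
    simp only [ccb_zero_left]
    refine continuousOn_const.div
      (continuousOn_const.sub ((continuous_snd.continuousOn.norm).pow 2)) ?_
    rintro p ⟨-, hp⟩
    rw [mem_closedBall_zero_iff] at hp
    exact (one_sub_pos (hp.trans_lt hρ1)).ne'
  have hGinv : ∀ γ ∈ Γ, ∀ (g : SUGroup m) (ζ : E m), ‖ζ‖ < 1 → G (γ * g, ζ) = G (g, ζ) := by
    intro γ hγ g ζ hζ
    rw [hG, hH]
    simp only
    rw [act_mul, act_mul, hinv γ hγ _ (hmem g 0 hz0) _ (hmem g ζ hζ)]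
  have hGcusp : ∀ (g : SUGroup m) (ζ : E m), ‖ζ‖ ≤ ρ → (∃ γ ∈ Γ, γ * g ∈ K) ∨ G (g, ζ) ≤ 0 := by
    intro g ζ hζ
    rcases hK' g with h | h
    · exact Or.inl h
    · right
      have hζ1 := hζ.trans_lt hρ1
      have h1 := h _ (hmem g ζ hζ1) (by
        rw [← bl_zero, hX]
        exact (hball ζ hζ1).2 hζ)
      rw [← bl_zero, hX] at h1
      have h2 : ccb 0 ζ - 1 ≤ R - 1 := by linarith [(hball ζ hζ1).2 hζ]
      have h3 : 0 ≤ ccb 0 ζ - 1 := by linarith [ccb_pos_iff hz0 hζ1]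
      rw [hG, hH]
      simp only
      have h4 : c * (ccb 0 ζ - 1) ≤ 1 / 2 := by
        have := mul_le_mul_of_nonneg_left h2 hc0.le
        linarith
      have h5 := mul_le_mul_of_nonneg_right h4 h3
      nlinarith
  -- the claim in the frame of the first point
  have key : ∀ (g : SUGroup m) (ζ : E m), ‖ζ‖ ≤ ρ → G (g, ζ) ≤ 0 := by
    by_contra hcon
    push Not at hcon
    obtain ⟨g₀, ζ₀, hζ₀, hG₀⟩ := hcon
    obtain ⟨γ, hγ, hγK⟩ : ∃ γ ∈ Γ, γ * g₀ ∈ K := by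
      rcases hGcusp g₀ ζ₀ hζ₀ with h | h
      · exact h
      · exact absurd h (not_le.2 hG₀)
    have hne : (K ×ˢ closedBall (0 : E m) ρ).Nonempty :=
      ⟨(γ * g₀, ζ₀), hγK, mem_closedBall_zero_iff.2 hζ₀⟩
    obtain ⟨⟨g₁, q⟩, ⟨hg₁, hq⟩, hmax⟩ :=
      (hK.prod (isCompact_closedBall (0 : E m) ρ)).exists_isMaxOn hne hGc
    have hg₁' : g₁ ∈ K := hg₁
    have hq' : ‖q‖ ≤ ρ := mem_closedBall_zero_iff.1 hq
    have hq1 := hq'.trans_lt hρ1
    have hpos : 0 < G (g₁, q) := by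
      have h1 := hmax (a := (γ * g₀, ζ₀)) ⟨hγK, mem_closedBall_zero_iff.2 hζ₀⟩
      have h2 : G (γ * g₀, ζ₀) ≤ G (g₁, q) := h1
      rw [hGinv γ hγ g₀ ζ₀ (hζ₀.trans_lt hρ1)] at h2
      exact hG₀.trans_le h2
    have hall : ∀ (g : SUGroup m) (ζ : E m), ‖ζ‖ ≤ ρ → G (g, ζ) ≤ G (g₁, q) := by
      intro g ζ hζ
      rcases hGcusp g ζ hζ with ⟨γ', hγ', hK'⟩ | h
      · rw [← hGinv γ' hγ' g ζ (hζ.trans_lt hρ1)]
        exact hmax (a := (γ' * g, ζ)) ⟨hK', mem_closedBall_zero_iff.2 hζ⟩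
      · exact h.trans hpos.le
    have hqρ : ‖q‖ < ρ := by
      refine lt_of_le_of_ne hq' fun h => ?_
      have h1 := hs (g₁, q) ⟨hg₁', mem_sphere_zero_iff_norm.2 h⟩
      have h2 : ccb 0 q = R := by
        rw [ccb_zero_left, h, hρ2]
        field_simp
        ring
      rw [hG] at hpos
      simp only [h2] at hpos
      linarith
    have hq0 : q ≠ 0 := by
      rintro rfl
      rw [hG, hH] at hpos
      simp only at hpos
      have h1 : cc (f (act g₁ (bl 0))) (f (act g₁ (bl 0))) = 1 := by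
        have h2 : q (f (act g₁ (bl 0))) < 0 := hf.maps _ (hmem g₁ 0 hz0)
        rw [cc, herm_self, Complex.norm_real, Real.norm_eq_abs, sq_abs, sq]
        exact div_self (mul_ne_zero h2.ne h2.ne)
      rw [h1, ccb_zero_left, norm_zero] at hpos
      norm_num at hpos
    -- the map in the ball
    obtain ⟨φ, g', hd, hm, h0, h⟩ := exists_ball hf g₁
    have hφ : ∀ z ζ : E m, ‖z‖ < 1 → ‖ζ‖ < 1 →
        cc (f (act g₁ (bl z))) (f (act g₁ (bl ζ))) = ccb (φ z) (φ ζ) :=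
      fun z ζ hz hζ => cc_ball h hz hζ
    have hle : ∀ z ζ : E m, ‖z‖ < 1 → ‖ζ‖ < 1 → ccb (φ z) (φ ζ) ≤ ccb z ζ := by
      intro z ζ hz hζ
      rw [← hφ z ζ hz hζ, ← cc_bl z ζ, ← cc_act g₁]
      exact hf.cc_le (hmem _ _ hz) (hmem _ _ hζ)
    have hGq : G (g₁, q) = c * (ccb 0 q - 1) ^ 2 - (ccb (φ 0) (φ q) - 1) := by
      rw [hG, hH]
      simp only
      rw [hφ 0 q hz0 hq1]
    obtain ⟨u, w, huw⟩ := no_max hmn hd hm h0 (nb_le_of_ccb hd hm hle) hq1 hq0 hc0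
      (by rw [hGq] at hpos; linarith)
    apply huw
    have hl1 : Tendsto (fun s : ℂ => s • u) (𝓝 0) (𝓝 0) := by
      have : Continuous fun s : ℂ => s • u := by fun_prop
      simpa using this.tendsto 0
    have hl2 : Tendsto (fun s : ℂ => q + s • w) (𝓝 0) (𝓝 q) := by
      have : Continuous fun s : ℂ => q + s • w := by fun_prop
      simpa using this.tendsto 0
    have hcc : Tendsto (fun s : ℂ => ccb (s • u) (q + s • w)) (𝓝 0) (𝓝 (ccb 0 q)) := by
      have h1 := one_sub_pos hq1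
      refine Tendsto.div ?_ ?_ (by
        rw [norm_zero]
        simp only [ne_eq, OfNat.ofNat_ne_zero, not_false_eq_true, zero_pow, sub_zero, one_mul]
        exact h1.ne')
      · exact ((tendsto_const_nhds.sub (hl1.inner hl2)).norm).pow 2
      · exact (tendsto_const_nhds.sub (hl1.norm.pow 2)).mul
          (tendsto_const_nhds.sub (hl2.norm.pow 2))
    have hlt : ccb 0 q < R := by
      rw [ccb_zero_left, div_lt_iff₀ (one_sub_pos hq1)]
      have h4 : ‖q‖ ^ 2 < ρ ^ 2 := by nlinarith [norm_nonneg q]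
      rw [hρ2] at h4
      have hR0 : 0 < R := by linarith
      have e1 : R * (1 / R) = 1 := by field_simp
      nlinarith
    have hl1' := hl1.norm
    rw [norm_zero] at hl1'
    filter_upwards [hl1'.eventually (gt_mem_nhds one_pos), hl2.norm.eventually (gt_mem_nhds hq1),
      hcc.eventually (gt_mem_nhds hlt)] with s a1 a2 a3
    rw [← hGq]
    -- the frame of the first point
    obtain ⟨g, ζ, c₁, d₁, hc₁, hd₁, hζ1, e1, e2⟩ :=
      exists_pair (hmem g₁ (s • u) a1) (hmem g₁ (q + s • w) a2)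
    have e3 : ccb (s • u) (q + s • w) = ccb 0 ζ := by
      rw [← cc_bl (s • u), ← cc_act g₁, e1, e2, cc_smul_left hc₁, cc_smul_right hd₁, hX]
    have e4 : ccb (φ (s • u)) (φ (q + s • w)) - 1 = H (g, ζ) := by
      rw [← hφ _ _ a1 a2, e1, e2, hf.hom _ hc₁ _ (hmem g 0 hz0), hf.hom _ hd₁ _ (hmem g ζ hζ1),
        cc_smul_left hc₁, cc_smul_right hd₁, hH]
    have h6 := hall g ζ ((hball ζ hζ1).1 (by rw [← e3]; exact a3.le))
    have h7 : G (g, ζ) = c * (ccb (s • u) (q + s • w) - 1) ^ 2 -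
        (ccb (φ (s • u)) (φ (q + s • w)) - 1) := by
      rw [e3, e4, hG]
    rw [← h7]
    exact h6
  intro v hv w hw hvw
  obtain ⟨g, ζ, c₁, d₁, hc₁, hd₁, hζ1, rfl, rfl⟩ := exists_pair hv hw
  rw [cc_smul_left hc₁, cc_smul_right hd₁, hX] at hvw
  rw [hf.hom _ hc₁ _ (hmem g 0 hz0), hf.hom _ hd₁ _ (hmem g ζ hζ1), cc_smul_left hc₁,
    cc_smul_right hd₁, cc_smul_left hc₁, cc_smul_right hd₁, hX]
  have h1 := key g ζ ((hball ζ hζ1).1 (hvw.trans hRT))
  rw [hG, hH] at h1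
  simp only at h1
  linarith

/-- The derivative is injective. -/
theorem fderiv_ne_zero (hmn : n < 2 * m) {f : Vec m → Vec n} (hf : HMap f)
    {Γ : Subgroup (SUGroup m)} (hT : Tm Γ f)
    (hinv : ∀ γ ∈ Γ, ∀ v ∈ Cone m, ∀ w ∈ Cone m, cc (f (act γ v)) (f (act γ w)) = cc (f v) (f w))
    (hfar : ∃ T : ℝ, ∀ v ∈ Cone m, ∀ w ∈ Cone m, T ≤ cc v w → 1 < cc (f v) (f w))
    {g : SUGroup m} {φ : E m → E n} {g' : SUGroup n} (hd : DifferentiableOn ℂ φ (ball 0 1))
    (hmap : Set.MapsTo φ (ball 0 1) (ball 0 1))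
    (h : ∀ z : E m, ‖z‖ < 1 → ∃ c : ℂ, c ≠ 0 ∧ f (act g (bl z)) = c • act g' (bl (φ z)))
    {z : E m} (hz : ‖z‖ < 1) {ξ : E m} (hξ : ξ ≠ 0) : fderiv ℂ φ z ξ ≠ 0 := by
  obtain ⟨c, hc, hc'⟩ := pair_sq hmn hf hT hinv hfar 2
  refine imm hd hmap hc one_lt_two ?_ hz hξ
  intro z ζ hz hζ hle
  have h1 := hc' (act g (bl z)) (act_mem g (bl_mem.2 hz)) (act g (bl ζ)) (act_mem g (bl_mem.2 hζ))
    (by rw [cc_act, cc_bl]; exact hle)
  rwa [cc_act, cc_bl, cc_ball h hz hζ] at h1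

end Pool.Agent.Lib.MP_5d4057_al.RG
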