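import Pool.Agent.Lib.MP_5d4057_al.RG.Bridge
import Pool.Agent.Lib.MP_5d4057_al.RG.ThmA
import Pool.Agent.Lib.MP_5d4057_al.RG.Level
import Pool.Agent.Lib.MP_5d4057_al.NU.CuspN

/-!
# RG C0: cusps, definitions

`Γ` is a torsion free lattice of `SU(m,1)` (`Lat Γ χ`, `TF Γ`, `Tor Γ`).
-/

set_option autoImplicit false

namespace Pool.Agent.Lib.MP_5d4057_al.RG

open Matrix Filter Topology Metric Pool.Agent.Lib.MP_5d4057_al Pool.Agent.Lib.MP_5d4057_al.Hyb
  Pool.Agent.Lib.MP_5d4057_al.HM Pool.Agent.Lib.MP_5d4057_al.HM.Kak Pool.Agent.Lib.MP_5d4057_al.NU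

open scoped ComplexOrder MatrixOrder Matrix.Norms.L2Operator

variable {m n : ℕ}

/-- The line of `ξ` is a cusp of `Γ`: the stabiliser preserves the horospheres and is cobounded on them, and it
contains a transvection `z` which is a commutator. -/
structure Cusp (Γ : Subgroup (SUGroup m)) (ξ : Fin m → ℂ) (z : SUGroup m) (κ : ℝ) : Prop where
  par : Par Γ ξ
  cob : ∃ R : ℝ, ∀ g ∈ PS ξ, ∃ γ ∈ Γ, γ ∈ St ξ ∧ ch (γ * g) ≤ R
  mem : z ∈ Γ
  tv : IsTv z ξ κ
  comm : ∃ x ∈ Γ, ∃ y ∈ Γ, x ∈ St ξ ∧ y ∈ St ξ ∧ x * y = y * x * z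

/-- The line of `p'` is the image of the cusp `ξ`: the group `ρ (Γ ∩ St ξ)` fixes `p'` up to unit scalars. -/
structure CuspIm {Γ : Subgroup (SUGroup m)} (ρ : Γ →* Mat (n + 1)) (ξ : Fin m → ℂ) (p' : Vec n) :
    Prop where
  ne : p' ≠ 0
  isot : q p' = 0
  fix : ∀ γ : Γ, (γ : SUGroup m) ∈ St ξ → ∃ c : ℂ, ‖c‖ = 1 ∧ ρ γ *ᵥ p' = c • p'

/-- The difference of the logarithms of the heights. -/
noncomputable def Aq (f : Vec m → Vec n) (p' : Vec n) (p : Vec m) (v : Vec m) : ℝ :=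
  Real.log (yp p' (f v)) - Real.log (yp p v)

private theorem rk_sq {ξ : Fin m → ℂ} (hξ : nq ξ = 1) :
    rk m (NU.pe ξ) (NU.pe ξ) * rk m (NU.pe ξ) (NU.pe ξ) = 0 := by
  have h : hm m (NU.pe ξ) (NU.pe ξ) = 0 := by
    have h1 : herm (NU.pe ξ) (NU.pe ξ) = 0 := by
      rw [herm_self, q_pe, hξ]
      simp
    exact h1
  rw [rk_mul, h, zero_smul]

private theorem hsr (v w u : Vec n) : herm v (w - u) = herm v w - herm v u := by
  rw [sub_eq_add_neg, herm_add_right, ← neg_one_smul ℂ u, herm_smul_right]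
  ring

private theorem hsl (v w u : Vec n) : herm (v - w) u = herm v u - herm w u := by
  rw [herm_comm u (v - w), hsr, star_sub, ← herm_comm, ← herm_comm]

/-- Powers of a transvection. -/
theorem tv_pow {z : SUGroup m} {ξ : Fin m → ℂ} {κ : ℝ} (h : IsTv z ξ κ) {k : ℕ} (hk : 0 < k) :
    IsTv (z ^ k) ξ (k * κ) := by
  obtain ⟨hξ, hκ, hz⟩ := h
  refine ⟨hξ, mul_ne_zero (by exact_mod_cast hk.ne') hκ, ?_⟩
  clear hk
  induction k with
  | zero => simp [toMatrix_one]
  | succ k ih =>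
    rw [pow_succ, toMatrix_mul, ih, hz, add_mul, one_mul, mul_add, mul_one, smul_mul_smul_comm,
      rk_sq hξ, smul_zero, add_zero, add_assoc, ← add_smul]
    congr 2
    push_cast
    ring

/-- A transvection commutes with the elements which preserve the horospheres. -/
theorem tv_comm {z : SUGroup m} {ξ : Fin m → ℂ} {κ : ℝ} (h : IsTv z ξ κ) {γ : SUGroup m}
    (hγ : γ ∈ PS ξ) : γ * z = z * γ := by
  have h1 := IsTv.conj (γ' := γ) h
  obtain ⟨h2, h3⟩ := (mem_PS h.1).1 hγ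
  rw [h2, h3, one_pow, mul_one] at h1
  have h4 : γ * z * γ⁻¹ = z := toMatrix_injective (h1.2.2.trans h.2.2.symm)
  calc γ * z = γ * z * γ⁻¹ * γ := by group
    _ = z * γ := by rw [h4]

/-- The displacement of a transvection: `herm v (z v) = q v + iκ |herm p v|²`. -/
theorem tv_cc {z : SUGroup m} {ξ : Fin m → ℂ} {κ : ℝ} (h : IsTv z ξ κ) {v : Vec m}
    (hv : v ∈ Cone m) : cc (act z v) v = 1 + κ ^ 2 / yp (NU.pe ξ) v ^ 2 := by
  obtain ⟨hξ, hκ, hz⟩ := h
  have hq : q v < 0 := hv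
  set p : Vec m := NU.pe ξ with hp
  have hqp : q p = 0 := by rw [hp, q_pe, hξ, sub_self]
  have hp0 : p ≠ 0 := by
    intro h0
    have h1 := herm_base_pe ξ
    rw [← hp, h0] at h1
    simp [herm] at h1
  have ha : act z v = v + ((κ : ℂ) * Complex.I * herm p v) • p := by
    rw [act, hz, add_mulVec, one_mulVec, smul_mulVec, rk_mulVec, smul_smul]
    rfl
  have hne : herm p v ≠ 0 := herm_null_ne hp0 hqp hv
  have hvp : herm v p = star (herm p v) := herm_comm p v
  have hnn : ‖herm v p‖ ^ 2 = Complex.normSq (herm p v) := by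
    rw [hvp, norm_star, Complex.sq_norm]
  have hh : herm (act z v) v = (q v : ℂ) - ((κ * Complex.normSq (herm p v) : ℝ) : ℂ) * Complex.I := by
    rw [ha, herm_add_left, herm_smul_left, herm_self]
    have h1 : star (herm p v) * herm p v = ((Complex.normSq (herm p v) : ℝ) : ℂ) := by
      rw [mul_comm]
      exact Complex.mul_conj _
    have h2 : star ((κ : ℂ) * Complex.I * herm p v) = -((κ : ℂ) * Complex.I) * star (herm p v) := by
      simp [star_mul', Complex.conj_I]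
    rw [h2, mul_assoc, h1]
    push_cast
    ring
  have hN : ‖herm (act z v) v‖ ^ 2 = q v ^ 2 + κ ^ 2 * Complex.normSq (herm p v) ^ 2 := by
    rw [hh, Complex.sq_norm, Complex.normSq_apply]
    simp
    ring
  have hN0 : 0 < Complex.normSq (herm p v) := Complex.normSq_pos.2 hne
  rw [cc, hN, q_act, yp, hnn]
  have hq0 : q v ≠ 0 := hq.ne
  field_simp

/-- `log (height)` is `2`-Lipschitz: for lifts with `herm p v = herm p w = -1` one has
`Re herm v w = -(1/2) (y v + y w + q (v - w))`, `q (v - w) ≥ 0`, so `cc v w ≥ (y v + y w)²/(4 y v y w) = cosh² (log (y w/y v)/2)`. -/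
theorem yp_exp {p : Vec n} (hp : p ≠ 0) (hq : q p = 0) {v w : Vec n} (hv : v ∈ Cone n)
    (hw : w ∈ Cone n) {t : ℝ} (ht : 0 ≤ t) (h : cc v w ≤ Real.cosh t ^ 2) :
    yp p w ≤ Real.exp (2 * t) * yp p v := by
  have ha : herm p v ≠ 0 := herm_null_ne hp hq hv
  have hb : herm p w ≠ 0 := herm_null_ne hp hq hw
  set v' : Vec n := (herm p v)⁻¹ • v with hv'
  set w' : Vec n := (herm p w)⁻¹ • w with hw'
  have hcv : v' ∈ Cone n := by
    show q v' < 0
    rw [hv', q_smul]
    exact mul_neg_of_pos_of_neg (pow_pos (norm_pos_iff.2 (inv_ne_zero ha)) 2) hv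
  have hcw : w' ∈ Cone n := by
    show q w' < 0
    rw [hw', q_smul]
    exact mul_neg_of_pos_of_neg (pow_pos (norm_pos_iff.2 (inv_ne_zero hb)) 2) hw
  have hpv : herm p v' = 1 := by rw [hv', herm_smul_right, inv_mul_cancel₀ ha]
  have hpw : herm p w' = 1 := by rw [hw', herm_smul_right, inv_mul_cancel₀ hb]
  have h1 : cc v' w' ≤ Real.cosh t ^ 2 := by
    rw [hv', hw', cc_smul_left (inv_ne_zero ha), cc_smul_right (inv_ne_zero hb)]
    exact h
  have hyv : yp p v = -q v' := by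
    rw [← yp_homog p (herm p v)⁻¹ (inv_ne_zero ha) v hv, ← hv', yp, herm_comm, hpv]
    simp
  have hyw : yp p w = -q w' := by
    rw [← yp_homog p (herm p w)⁻¹ (inv_ne_zero hb) w hw, ← hw', yp, herm_comm, hpw]
    simp
  have hu : 0 ≤ q (v' - w') := by
    by_contra hlt
    push Not at hlt
    exact herm_null_ne hp hq (show v' - w' ∈ Cone n from hlt)
      (by rw [hsr, hpv, hpw, sub_self])
  have hexp : q (v' - w') = q v' + q w' - 2 * (herm v' w').re := by
    have e : herm (v' - w') (v' - w') = herm v' v' + herm w' w' - (herm v' w' + herm w' v') := by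
      rw [hsl, hsr, hsr]
      ring
    rw [q, e, herm_self, herm_self, herm_comm v' w']
    simp
    ring
  set A : ℝ := -q v' with hA
  set B : ℝ := -q w' with hB
  have hA0 : 0 < A := by rw [hA]; exact neg_pos.2 hcv
  have hB0 : 0 < B := by rw [hB]; exact neg_pos.2 hcw
  have h2 : (A + B) / 2 ≤ ‖herm v' w'‖ := by
    have h3 : -(herm v' w').re ≤ ‖herm v' w'‖ :=
      (neg_le_abs _).trans (Complex.abs_re_le_norm _)
    linarith
  have h4 : (A + B) ^ 2 ≤ 4 * (A * B) * Real.cosh t ^ 2 := by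
    have h5 : ‖herm v' w'‖ ^ 2 ≤ A * B * Real.cosh t ^ 2 := by
      have h6 : ‖herm v' w'‖ ^ 2 / (q v' * q w') ≤ Real.cosh t ^ 2 := h1
      have h7 : q v' * q w' = A * B := by rw [hA, hB]; ring
      rw [h7, div_le_iff₀ (by positivity)] at h6
      linarith
    nlinarith [norm_nonneg (herm v' w')]
  have hE : 4 * Real.cosh t ^ 2 = Real.exp (2 * t) + 2 + (Real.exp (2 * t))⁻¹ := by
    have e1 : Real.exp (2 * t) = Real.exp t ^ 2 := by rw [← Real.exp_nat_mul]; norm_num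
    have e2 : Real.exp t ≠ 0 := (Real.exp_pos _).ne'
    rw [Real.cosh_eq, Real.exp_neg, e1]
    field_simp
    ring
  set E : ℝ := Real.exp (2 * t) with hEd
  have hE1 : 1 ≤ E := Real.one_le_exp (by positivity)
  have hE0 : 0 < E := by linarith
  have hE2 : E⁻¹ ≤ E := (inv_le_one_of_one_le₀ hE1).trans hE1
  rw [hyv, hyw]
  by_contra hlt
  push Not at hlt
  have h8 : A * E⁻¹ < B := by nlinarith
  have h9 : 0 < (B - E * A) * (B - E⁻¹ * A) := mul_pos (by linarith) (by linarith)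
  have h10 : E * E⁻¹ = 1 := mul_inv_cancel₀ hE0.ne'
  have h11 : (B - E * A) * (B - E⁻¹ * A) = (A + B) ^ 2 - A * B * (E + 2 + E⁻¹) +
      (E * E⁻¹ - 1) * A ^ 2 := by ring
  rw [h11, h10, ← hE] at h9
  linarith

end Pool.Agent.Lib.MP_5d4057_al.RG
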