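import Pool.Agent.Lib.MP_5d4057_al.RG.CpD

/-!
# RG C8a: Shimizu lemma
-/

set_option autoImplicit false

namespace Pool.Agent.Lib.MP_5d4057_al.RG

open Matrix Filter Topology Metric Pool.Agent.Lib.MP_5d4057_al Pool.Agent.Lib.MP_5d4057_al.Hyb
  Pool.Agent.Lib.MP_5d4057_al.HM Pool.Agent.Lib.MP_5d4057_al.HM.Kak Pool.Agent.Lib.MP_5d4057_al.NU

open scoped ComplexOrder MatrixOrder Matrix.Norms.L2Operator

variable {m n : ℕ} {Γ : Subgroup (SUGroup m)} {ξ : Fin m → ℂ} {z : SUGroup m} {κ : ℝ}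

/-- Conjugation of a rank one operator. -/
private theorem cj_rk {X X' : Mat (n + 1)} (hX : Xᴴ * J n * X = J n) (hXX : X * X' = 1)
    (p : Vec n) : X * rk n p p * X' = rk n (X *ᵥ p) (X *ᵥ p) := by
  rw [rk, rk, mul_vecMulVec, vecMulVec_mul, star_mulVec]
  congr 1
  rw [vecMul_vecMul, vecMul_vecMul]
  congr 1
  calc J n * X' = (Xᴴ * J n * X) * X' := by rw [hX]
    _ = Xᴴ * J n * (X * X') := by simp only [Matrix.mul_assoc]
    _ = _ := by rw [hXX, Matrix.mul_one]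

private theorem rk_bd (a : ℂ) (R : ℝ) : ∃ M : ℝ, ∀ p : Vec n, ‖p‖ ≤ R →
    ‖(1 : Mat (n + 1)) + a • rk n p p‖ ≤ M := by
  have hc : Continuous fun p : Vec n => (1 : Mat (n + 1)) + a • rk n p p := by
    have h1 : Continuous fun p : Vec n => rk n p p := by
      refine continuous_matrix fun i j => ?_
      have h2 : ∀ p : Vec n, rk n p p i j = p i * (star p ᵥ* J n) j := fun p => by
        rw [rk, vecMulVec_apply]
      simp only [h2]
      refine (continuous_apply i).mul ?_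
      exact (continuous_apply j).comp (Continuous.matrix_vecMul continuous_star continuous_const)
    exact continuous_const.add (h1.const_smul a)
  obtain ⟨M, hM⟩ := (isCompact_closedBall (0 : Vec n) R).exists_bound_of_continuousOn
    (f := fun p : Vec n => (1 : Mat (n + 1)) + a • rk n p p) hc.continuousOn
  exact ⟨M, fun p hp => hM p (by simpa using hp)⟩

/-- The iteration of Shimizu's lemma. -/
private noncomputable def sg (γ₁ γ₂ : Γ) : ℕ → Γ
  | 0 => γ₂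
  | k + 1 => sg γ₁ γ₂ k * γ₁ * (sg γ₁ γ₂ k)⁻¹

/-- Shimizu's lemma. PROOF: `Y_0 = U₂`, `Y_{k+1} = Y_k U₁ Y_k⁻¹ = 1 + ia rk (q_k) (q_k)`, `q_k = Y_k p₁`; `q_{k+1} = Y_{k+1} p₁ = p₁ + ia herm(q_k, p₁) q_k`;
`s_k = |a| |herm p₁ q_k|` satisfies `s_{k+1} = s_k²`, `s_0 = |a b| |herm p₁ p₂|²` (for `q_0 = U₂ p₁`). If `0 < s_0 < 1` then the `s_k` are different and the `q_k` bounded: infinitely many elements
of bounded norm, against `Prp`. -/
theorem shimizu {ρ : Γ →* Mat (n + 1)} (hU : UJ ρ) (hP : Prp ρ) {γ₁ γ₂ : Γ} {a b : ℝ}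
    {p₁ p₂ : Vec n} (h1 : ρ γ₁ = 1 + ((a : ℂ) * Complex.I) • rk n p₁ p₁)
    (h2 : ρ γ₂ = 1 + ((b : ℂ) * Complex.I) • rk n p₂ p₂) (hq1 : q p₁ = 0) (hq2 : q p₂ = 0)
    (ha : a ≠ 0) (hb : b ≠ 0) (hne : herm p₁ p₂ ≠ 0) : 1 ≤ |a * b| * ‖herm p₁ p₂‖ ^ 2 := by
  by_contra hlt
  push Not at hlt
  have h11 : herm p₁ p₁ = 0 := by rw [herm_self, hq1, Complex.ofReal_zero]
  set g : ℕ → Γ := sg γ₁ γ₂ with hg
  have hgs : ∀ k, g (k + 1) = g k * γ₁ * (g k)⁻¹ := fun k => rfl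
  set p : ℕ → Vec n := fun k => ρ (g k) *ᵥ p₁ with hp
  have hY : ∀ k, ρ (g (k + 1)) = 1 + ((a : ℂ) * Complex.I) • rk n (p k) (p k) := by
    intro k
    have hinv : ρ (g k) * ρ (g k)⁻¹ = 1 := by rw [← map_mul, mul_inv_cancel, map_one]
    rw [hgs, map_mul, map_mul, h1, mul_add, add_mul, mul_one, hinv, mul_smul_comm, smul_mul_assoc,
      cj_rk (hU _) hinv]
  have hp0 : p 0 = p₁ + ((b : ℂ) * Complex.I * herm p₂ p₁) • p₂ := by
    show ρ (g 0) *ᵥ p₁ = _
    rw [show g 0 = γ₂ from rfl, h2, add_mulVec, one_mulVec, smul_mulVec, rk_mulVec, smul_smul]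
    rfl
  have hps : ∀ k, p (k + 1) = p₁ + ((a : ℂ) * Complex.I * herm (p k) p₁) • p k := by
    intro k
    show ρ (g (k + 1)) *ᵥ p₁ = _
    rw [hY, add_mulVec, one_mulVec, smul_mulVec, rk_mulVec, smul_smul]
    rfl
  set s : ℕ → ℝ := fun k => |a| * ‖herm p₁ (p k)‖ with hs
  have hcomm : ∀ x y : Vec n, ‖herm x y‖ = ‖herm y x‖ := fun x y => by
    rw [herm_comm y x, norm_star]
  have hs0 : s 0 = |a * b| * ‖herm p₁ p₂‖ ^ 2 := by
    show |a| * ‖herm p₁ (p 0)‖ = _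
    rw [hp0, herm_add_right, h11, zero_add, herm_smul_right, norm_mul, norm_mul, norm_mul,
      Complex.norm_I, Complex.norm_real, Real.norm_eq_abs, hcomm p₂ p₁, abs_mul]
    ring
  have hss : ∀ k, s (k + 1) = s k ^ 2 := by
    intro k
    show |a| * ‖herm p₁ (p (k + 1))‖ = (|a| * ‖herm p₁ (p k)‖) ^ 2
    rw [hps, herm_add_right, h11, zero_add, herm_smul_right, norm_mul, norm_mul, norm_mul,
      Complex.norm_I, Complex.norm_real, Real.norm_eq_abs, hcomm (p k) p₁]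
    ring
  have hs0p : 0 < s 0 := by
    rw [hs0]
    have h3 : 0 < |a * b| := abs_pos.2 (mul_ne_zero ha hb)
    have h4 : 0 < ‖herm p₁ p₂‖ := norm_pos_iff.2 hne
    positivity
  have hs01 : s 0 < 1 := by rw [hs0]; exact hlt
  have hsb : ∀ k, 0 < s k ∧ s k ≤ s 0 := by
    intro k
    induction k with
    | zero => exact ⟨hs0p, le_rfl⟩
    | succ k ih =>
      rw [hss]
      refine ⟨by have := ih.1; positivity, ?_⟩
      nlinarith [ih.1, ih.2]
  have hanti : StrictAnti s := by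
    refine strictAnti_nat_of_succ_lt fun k => ?_
    rw [hss]
    nlinarith [(hsb k).1, (hsb k).2]
  have hinj : Function.Injective g := by
    intro k l hkl
    refine hanti.injective ?_
    show |a| * ‖herm p₁ (ρ (g k) *ᵥ p₁)‖ = |a| * ‖herm p₁ (ρ (g l) *ᵥ p₁)‖
    rw [hkl]
  -- the vectors are bounded
  set R : ℝ := max ‖p 0‖ (‖p₁‖ / (1 - s 0)) with hR
  have hpR : ∀ k, ‖p k‖ ≤ R := by
    intro k
    induction k with
    | zero => exact le_max_left _ _
    | succ k ih =>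
      have h3 : ‖p (k + 1)‖ ≤ ‖p₁‖ + s k * ‖p k‖ := by
        rw [hps]
        refine (norm_add_le _ _).trans ?_
        rw [norm_smul, norm_mul, norm_mul, Complex.norm_I, Complex.norm_real, Real.norm_eq_abs,
          hcomm (p k) p₁, mul_one]
      have h4 : ‖p₁‖ ≤ R * (1 - s 0) := by
        have h5 : ‖p₁‖ / (1 - s 0) ≤ R := le_max_right _ _
        rwa [div_le_iff₀ (by linarith)] at h5
      have h5 : s k * ‖p k‖ ≤ s 0 * R := mul_le_mul (hsb k).2 ih (norm_nonneg _) hs0p.le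
      calc ‖p (k + 1)‖ ≤ ‖p₁‖ + s k * ‖p k‖ := h3
        _ ≤ R * (1 - s 0) + s 0 * R := add_le_add h4 h5
        _ = R := by ring
  obtain ⟨M, hM⟩ := rk_bd (n := n) ((a : ℂ) * Complex.I) R
  have hfin := hP M
  have hinf : (Set.range fun k => g (k + 1)).Infinite :=
    Set.infinite_range_of_injective fun k l h => by
      have := hinj h
      omega
  refine hinf (hfin.subset ?_)
  rintro _ ⟨k, rfl⟩
  show ‖ρ (g (k + 1))‖ ≤ M
  rw [hY]
  exact hM _ (hpR k)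

end Pool.Agent.Lib.MP_5d4057_al.RG
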