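import Pool.Agent.Lib.MP_5d4057_al.RG.CpA
import Pool.Agent.Lib.MP_5d4057_al.RG.CpF1

/-!
# RG C8d: points high in different cusps
-/

set_option autoImplicit false

namespace Pool.Agent.Lib.MP_5d4057_al.RG

open Matrix Filter Topology Metric Pool.Agent.Lib.MP_5d4057_al Pool.Agent.Lib.MP_5d4057_al.Hyb
  Pool.Agent.Lib.MP_5d4057_al.HM Pool.Agent.Lib.MP_5d4057_al.HM.Kak Pool.Agent.Lib.MP_5d4057_al.NU

open scoped ComplexOrder MatrixOrder Matrix.Norms.L2Operator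

variable {m n : ℕ} {Γ : Subgroup (SUGroup m)} {ξ : Fin m → ℂ} {z : SUGroup m} {κ : ℝ}

/-- High in different cusps (`δ ξ₂ ≠ ξ₁`): the transvections `ρ (z₁^M)`, `ρ (δ z₂^M' δ⁻¹)` have the isotropic lines `p'₁`, `ρ δ p'₂`; if `f v = f w = x`, `|herm|² ≤ 4 |herm p'₁ x|² |herm .. x|²/q(x)² = 4/(y'₁ y'₂)`, small
(`Aq_lower`); `shimizu`: `herm = 0`, the lines agree, the transvections commute, so by injectivity (`Prp`, no torsion) `z₁^M` and `δ z₂^M' δ⁻¹` commute and have the same line (`comm_fixed`, `two_fixed`). -/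
theorem far_diff (hT : TF Γ) (hTor : Tor Γ) {ξ₁ ξ₂ : Fin m → ℂ} {z₁ z₂ : SUGroup m}
    {κ₁ κ₂ : ℝ} (hc₁ : Cusp Γ ξ₁ z₁ κ₁) (hc₂ : Cusp Γ ξ₂ z₂ κ₂) {ρ : Γ →* Mat (n + 1)}
    (hU : UJ ρ) (hP : Prp ρ) {f : Vec m → Vec n} (hf : HMap f) (he : Eqv ρ f) :
    ∃ Y : ℝ, ∀ δ ∈ Γ, mv δ ξ₂ ≠ ξ₁ → ∀ v ∈ Cone m, ∀ w ∈ Cone m, Y ≤ yp (NU.pe ξ₁) v →
      Y ≤ yp (NU.pe ξ₂) w → 1 < cc (f v) (f (act δ w)) := by
  sorry

end Pool.Agent.Lib.MP_5d4057_al.RG
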