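import Pool.Agent.Lib.MP_5d4057_al.RG.CpD

/-!
# RG C8e: one point in a compact set
-/

set_option autoImplicit false

namespace Pool.Agent.Lib.MP_5d4057_al.RG

open Matrix Filter Topology Metric Pool.Agent.Lib.MP_5d4057_al Pool.Agent.Lib.MP_5d4057_al.Hyb
  Pool.Agent.Lib.MP_5d4057_al.HM Pool.Agent.Lib.MP_5d4057_al.HM.Kak Pool.Agent.Lib.MP_5d4057_al.NU

open scoped ComplexOrder MatrixOrder Matrix.Norms.L2Operator

variable {m n : ℕ} {Γ : Subgroup (SUGroup m)} {ξ : Fin m → ℂ} {z : SUGroup m} {κ : ℝ}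

/-- One point in a compact set, the other high in a cusp. PROOF: otherwise there are `k_j → k`, heights `Y_j → ∞`, `δ_j ∈ Γ` with `f (k_j e) = f (δ_j w_j)`; the transvection `δ_j z δ_j⁻¹` has displacement `→ 0` at
`δ_j w_j`, so `cc (ρ (δ_j z δ_j⁻¹) f(k_j e)) (f (k_j e)) → 1`, the norms are bounded, `Prp`: constant along a subsequence, `= ρ(ζ)`, which fixes the limit `f (k e)`: its powers are
bounded, against `Prp` (`ζ` has infinite order). -/
theorem far_mixed (hc : Cusp Γ ξ z κ) {ρ : Γ →* Mat (n + 1)} (hU : UJ ρ) (hP : Prp ρ)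
    {f : Vec m → Vec n} (hf : HMap f) (he : Eqv ρ f) {K : Set (SUGroup m)} (hK : IsCompact K) :
    ∃ Y : ℝ, ∀ g ∈ K, ∀ δ ∈ Γ, ∀ w ∈ Cone m, Y ≤ yp (NU.pe ξ) w →
      1 < cc (f (act g (base m))) (f (act δ w)) := by
  sorry

/-- Both points in a compact set modulo `Γ`: the proof of `far` in RG/ThmA. -/
theorem far_thick {ρ : Γ →* Mat (n + 1)} (hU : UJ ρ) (hP : Prp ρ) {f : Vec m → Vec n}
    (hf : HMap f) (he : Eqv ρ f) {K : Set (SUGroup m)} (hK : IsCompact K) :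
    ∃ T : ℝ, ∀ g ∈ K, ∀ h ∈ K, ∀ δ ∈ Γ, T ≤ cc (act g (base m)) (act (δ * h) (base m)) →
      1 < cc (f (act g (base m))) (f (act (δ * h) (base m))) := by
  sorry

end Pool.Agent.Lib.MP_5d4057_al.RG
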