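import Pool.Agent.Lib.MP_5d4057_al.RG.CpT1

/-!
# RG C1b: the thick-thin decomposition with finitely many cusps
-/

set_option autoImplicit false

namespace Pool.Agent.Lib.MP_5d4057_al.RG

open Matrix Filter Topology Metric Pool.Agent.Lib.MP_5d4057_al Pool.Agent.Lib.MP_5d4057_al.Hyb
  Pool.Agent.Lib.MP_5d4057_al.HM Pool.Agent.Lib.MP_5d4057_al.HM.Kak Pool.Agent.Lib.MP_5d4057_al.NU

variable {m n : ℕ}

/-- The loxodromic ends are compact. -/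
private theorem ct_lox {Γ : Subgroup (SUGroup n)} {δ : SUGroup n} {ξ : Fin n → ℂ} (hδ : δ ∈ Γ)
    (hξ : nq ξ = 1) (hs : δ ∈ St ξ) (h1 : ‖ml δ ξ‖ ≠ 1) (R₀ : ℝ) :
    ∃ R' : ℝ, ∀ (κ : SUGroup n) (t : ℝ) (x : SUGroup n), ch κ ≤ R₀ → 0 ≤ t → wt x ≤ 2 →
      ∃ γ ∈ Γ, ch (γ * (κ * fl (mv κ⁻¹ ξ) t * x)) ≤ R' := by
  obtain ⟨R', hR'⟩ := lox_end (Γ := Γ) hδ hξ hs h1 R₀
  refine ⟨2 * R' * 2, fun κ t x hκ ht hx => ?_⟩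
  obtain ⟨γ, hγ, h2⟩ := hR' κ t hκ ht
  refine ⟨γ, hγ, ?_⟩
  rw [← mul_assoc γ]
  have h3 := ch_mul_le' (γ * (κ * fl (mv κ⁻¹ ξ) t)) x
  have h4 := one_le_ch (γ * (κ * fl (mv κ⁻¹ ξ) t))
  have h5 := one_le_ch x
  have h6 := (ch_le_wt x).trans hx
  calc _ ≤ 2 * ch (γ * (κ * fl (mv κ⁻¹ ξ) t)) * ch x := h3
    _ ≤ 2 * R' * 2 := by gcongr; linarith

/-- The height on a ray controls the distance. -/
private theorem ct_ray {ξ : Fin n → ℂ} (hξ : nq ξ = 1) {R₀ : ℝ} (κ : SUGroup n) (t : ℝ)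
    (x : SUGroup n) (hκ : ch κ ≤ R₀) (ht : 0 ≤ t) (hx : wt x ≤ 2) :
    ch (κ * fl (mv κ⁻¹ ξ) t * x) ^ 2 ≤ (8 * R₀) ^ 2 * (16 * R₀ ^ 2) *
      yp (NU.pe ξ) (act (κ * fl (mv κ⁻¹ ξ) t * x) (base n)) := by
  have hq : q (NU.pe ξ) = 0 := by rw [q_pe, hξ, sub_self]
  have hch := one_le_ch κ
  have hR₀ : 1 ≤ R₀ := hch.trans hκ
  have h2 := yp_harn (pe_ne_zero ξ) hq (κ * fl (mv κ⁻¹ ξ) t * x) x⁻¹
  rw [mul_inv_cancel_right, yp_ray hξ, wt_inv] at h2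
  have h3 : (1 : ℝ) / (2 * R₀) ^ 2 ≤ yp (NU.pe ξ) (act κ (base n)) := by
    rw [yp_pe, one_div]
    have h4 := (norm_ml_le hξ κ⁻¹).1
    rw [wt_inv] at h4
    have h5 : 0 < ‖ml κ⁻¹ ξ‖ := norm_pos_iff.2 (ml_ne_zero hξ _)
    have h6 : ‖ml κ⁻¹ ξ‖ ≤ 2 * R₀ := h4.trans ((wt_le κ).trans (by linarith))
    gcongr
  set Y := yp (NU.pe ξ) (act (κ * fl (mv κ⁻¹ ξ) t * x) (base n)) with hY
  have hY0 : 0 < Y := yp_pos (pe_ne_zero ξ) hq (orbit_mem _)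
  have hwx := one_le_wt x
  have h7 : Real.exp (2 * t) * (1 / (2 * R₀) ^ 2) ≤ 2 ^ 2 * Y := by
    calc Real.exp (2 * t) * (1 / (2 * R₀) ^ 2)
        ≤ Real.exp (2 * t) * yp (NU.pe ξ) (act κ (base n)) :=
          mul_le_mul_of_nonneg_left h3 (Real.exp_pos _).le
      _ ≤ wt x ^ 2 * Y := h2
      _ ≤ 2 ^ 2 * Y := by gcongr
  have h8 : Real.exp (2 * t) ≤ 16 * R₀ ^ 2 * Y := by
    rw [mul_one_div, div_le_iff₀ (by positivity)] at h7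
    calc Real.exp (2 * t) ≤ 2 ^ 2 * Y * (2 * R₀) ^ 2 := h7
      _ = 16 * R₀ ^ 2 * Y := by ring
  have h9 : ch (fl (mv κ⁻¹ ξ) t) ≤ Real.exp t := by
    refine (ch_le_wt _).trans ((wt_fl_le _ _).trans ?_)
    rw [abs_of_nonneg ht]
  have h10 := ch_mul_le' (κ * fl (mv κ⁻¹ ξ) t) x
  have h11 := ch_mul_le' κ (fl (mv κ⁻¹ ξ) t)
  have h12 := (ch_le_wt x).trans hx
  have h13 := one_le_ch x
  have h14 := one_le_ch (fl (mv κ⁻¹ ξ) t)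
  have h15 : ch (κ * fl (mv κ⁻¹ ξ) t * x) ≤ 8 * R₀ * Real.exp t := by
    calc ch (κ * fl (mv κ⁻¹ ξ) t * x) ≤ 2 * ch (κ * fl (mv κ⁻¹ ξ) t) * ch x := h10
      _ ≤ 2 * (2 * ch κ * ch (fl (mv κ⁻¹ ξ) t)) * ch x := by gcongr
      _ ≤ 2 * (2 * R₀ * Real.exp t) * 2 := by gcongr
      _ = _ := by ring
  have h16 := one_le_ch (κ * fl (mv κ⁻¹ ξ) t * x)
  calc ch (κ * fl (mv κ⁻¹ ξ) t * x) ^ 2 ≤ (8 * R₀ * Real.exp t) ^ 2 := by gcongr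
    _ = (8 * R₀) ^ 2 * Real.exp (2 * t) := by
        rw [two_mul, Real.exp_add]
        ring
    _ ≤ (8 * R₀) ^ 2 * (16 * R₀ ^ 2 * Y) := by gcongr
    _ = _ := by ring

/-- Finitely many cusps. PROOF: the rays of `exists_rays`; the parabolic ones are cusps (`horo`, `cusp_of_par`), the others are bounded modulo `Γ`
(`lox_end`); on a parabolic ray the height controls the distance. -/
theorem exists_cusps (hm : 2 ≤ m) {Γ : Subgroup (SUGroup m)} {χ : SUGroup m → ℝ} (hL : Lat Γ χ)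
    (hT : TF Γ) (hTor : Tor Γ) :
    ∃ X : Set (Fin m → ℂ), X.Finite ∧ (∀ ξ ∈ X, ∃ z κ, Cusp Γ ξ z κ) ∧
      ∀ Y : ℝ, ∃ K : Set (SUGroup m), IsCompact K ∧ ∀ g : SUGroup m,
        (∃ γ ∈ Γ, γ * g ∈ K) ∨ ∃ ξ ∈ X, ∃ γ ∈ Γ, Y ≤ yp (NU.pe ξ) (act (γ * g) (base m)) := by
  obtain ⟨R₀, X, hX⟩ := exists_rays hL hT
  refine ⟨{ξ | ξ ∈ X ∧ Par Γ ξ}, hX.fin.subset fun ξ h => h.1, ?_, fun Y => ?_⟩
  · rintro ξ ⟨hξX, hP⟩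
    obtain ⟨x₀, hx₀, hx₀1, hx₀s⟩ := hX.fixed ξ hξX
    obtain ⟨R₁, hR₁⟩ := horo hT hTor hL.disc hX hP ⟨x₀, hx₀, hx₀1, hx₀s⟩
    exact cusp_of_par hm hL.disc hP hR₁
  · have key : ∀ ξ ∈ X, ¬ Par Γ ξ → ∃ R' : ℝ, ∀ (κ : SUGroup m) (t : ℝ) (x : SUGroup m),
        ch κ ≤ R₀ → 0 ≤ t → wt x ≤ 2 → ∃ γ ∈ Γ, ch (γ * (κ * fl (mv κ⁻¹ ξ) t * x)) ≤ R' := by
      intro ξ hξX hP
      have hξ := hX.unit ξ hξX
      have h1 : ∃ δ ∈ Γ, δ ∈ St ξ ∧ ‖ml δ ξ‖ ≠ 1 := by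
        by_contra hne
        push Not at hne
        refine hP ⟨hξ, fun δ hδ hs => ?_⟩
        rw [mem_PS hξ]
        exact ⟨(mem_St hξ).1 hs, hne δ hδ hs⟩
      obtain ⟨δ, hδ, hs, h2⟩ := h1
      exact ct_lox hδ hξ hs h2 R₀
    choose! B hB using key
    obtain ⟨M, hM⟩ : ∃ M : ℝ, ∀ ξ ∈ X, B ξ ≤ M := by
      obtain ⟨M, hM⟩ := (hX.fin.image B).bddAbove
      exact ⟨M, fun ξ hξ => hM ⟨ξ, hξ, rfl⟩⟩
    obtain ⟨D, hD⟩ : ∃ D : ℝ, D = (8 * R₀) ^ 2 * (16 * R₀ ^ 2) * Y := ⟨_, rfl⟩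
    refine ⟨{x | ch x ≤ max R₀ (max M D)}, isCompact_ball _, fun g => ?_⟩
    obtain ⟨γ, hγ, h1 | ⟨κ, ξ, t, x, hξ, hκ, ht, hx, h2⟩⟩ := hX.cover g
    · exact Or.inl ⟨γ, hγ, h1.trans (le_max_left _ _)⟩
    · by_cases hP : Par Γ ξ
      · by_cases hY : Y ≤ yp (NU.pe ξ) (act (γ * g) (base m))
        · exact Or.inr ⟨ξ, ⟨hξ, hP⟩, γ, hγ, hY⟩
        · refine Or.inl ⟨γ, hγ, ?_⟩
          have h3 := ct_ray hP.1 κ t x hκ ht hx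
          rw [← h2] at h3
          have h4 := one_le_ch (γ * g)
          have h5 : 0 ≤ (8 * R₀) ^ 2 * (16 * R₀ ^ 2) := by positivity
          have h6 : ch (γ * g) ≤ D := by
            calc ch (γ * g) ≤ ch (γ * g) ^ 2 := by nlinarith
              _ ≤ _ := h3
              _ ≤ D := by
                rw [hD]
                exact mul_le_mul_of_nonneg_left (not_le.1 hY).le h5
          exact h6.trans ((le_max_right _ _).trans (le_max_right _ _))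
      · obtain ⟨γ', hγ', h3⟩ := hB ξ hξ hP κ t x hκ ht hx
        refine Or.inl ⟨γ' * γ, Γ.mul_mem hγ' hγ, ?_⟩
        rw [← h2, ← mul_assoc] at h3
        exact h3.trans ((hM ξ hξ).trans ((le_max_left _ _).trans (le_max_right _ _)))

end Pool.Agent.Lib.MP_5d4057_al.RG
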