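import Pool.Agent.Lib.MP_5d4057_al.RG.CpF3
import Pool.Agent.Lib.MP_5d4057_al.RG.CpF4
import Pool.Agent.Lib.MP_5d4057_al.RG.CpF5
import Pool.Agent.Lib.MP_5d4057_al.RG.CpT

/-!
# RG C8: far points have different images; `Tm`
-/

set_option autoImplicit false

namespace Pool.Agent.Lib.MP_5d4057_al.RG

open Matrix Filter Topology Metric Pool.Agent.Lib.MP_5d4057_al Pool.Agent.Lib.MP_5d4057_al.Hyb
  Pool.Agent.Lib.MP_5d4057_al.HM Pool.Agent.Lib.MP_5d4057_al.HM.Kak Pool.Agent.Lib.MP_5d4057_al.NU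

open scoped ComplexOrder MatrixOrder Matrix.Norms.L2Operator

variable {m n : ℕ} {Γ : Subgroup (SUGroup m)} {ξ : Fin m → ℂ} {z : SUGroup m} {κ : ℝ}

theorem far_lat (hm : 2 ≤ m) {χ : SUGroup m → ℝ} (hL : Lat Γ χ) (hT : TF Γ) (hTor : Tor Γ)
    {ρ : Γ →* Mat (n + 1)} (hU : UJ ρ) (hP : Prp ρ) {f : Vec m → Vec n} (hf : HMap f)
    (he : Eqv ρ f) :
    ∃ T : ℝ, ∀ v ∈ Cone m, ∀ w ∈ Cone m, T ≤ cc v w → 1 < cc (f v) (f w) := by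
  sorry

theorem tm_lat (hm : 2 ≤ m) {χ : SUGroup m → ℝ} (hL : Lat Γ χ) (hT : TF Γ) (hTor : Tor Γ)
    {ρ : Γ →* Mat (n + 1)} (hU : UJ ρ) (hP : Prp ρ) {f : Vec m → Vec n} (hf : HMap f)
    (he : Eqv ρ f) : Tm Γ f := by
  sorry

end Pool.Agent.Lib.MP_5d4057_al.RG
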