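import Pool.Agent.Lib.MP_5d4057_al.RG.CpD

/-!
# RG C8b: comparison with the vertical
-/

set_option autoImplicit false

namespace Pool.Agent.Lib.MP_5d4057_al.RG

open Matrix Filter Topology Metric Pool.Agent.Lib.MP_5d4057_al Pool.Agent.Lib.MP_5d4057_al.Hyb
  Pool.Agent.Lib.MP_5d4057_al.HM Pool.Agent.Lib.MP_5d4057_al.HM.Kak Pool.Agent.Lib.MP_5d4057_al.NU

open scoped ComplexOrder MatrixOrder Matrix.Norms.L2Operator

variable {m n : ℕ} {Γ : Subgroup (SUGroup m)} {ξ : Fin m → ℂ} {z : SUGroup m} {κ : ℝ}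

private theorem cf2_sr (v w u : Vec n) : herm v (w - u) = herm v w - herm v u := by
  rw [sub_eq_add_neg, herm_add_right, ← neg_one_smul ℂ u, herm_smul_right]
  ring

private theorem cf2_sl (v w u : Vec n) : herm (v - w) u = herm v u - herm w u := by
  rw [herm_comm u (v - w), cf2_sr, star_sub, ← herm_comm, ← herm_comm]

private theorem cf2_qsub (v w : Vec n) : q (v - w) = q v + q w - 2 * (herm v w).re := by
  have e : herm (v - w) (v - w) = herm v v + herm w w - (herm v w + herm w v) := by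
    rw [cf2_sl, cf2_sr, cf2_sr]
    ring
  rw [q, e, herm_self, herm_self, herm_comm v w]
  simp
  ring

/-- The form is nonnegative on the orthogonal space of an isotropic vector. -/
private theorem cf2_nonneg {p : Vec n} (hp : p ≠ 0) (hq : q p = 0) {y : Vec n}
    (h : herm p y = 0) : 0 ≤ q y := by
  by_contra hlt
  push Not at hlt
  exact herm_null_ne hp hq (show y ∈ Cone n from hlt) h

/-- Two orthogonal null vectors are proportional. -/
private theorem cf2_null {a b : Vec n} (ha : q a = 0) (hb : q b = 0) (hab : herm a b = 0)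
    (ha0 : a ≠ 0) : ∃ c : ℂ, b = c • a := by
  by_contra hne
  have hbc : base n ∈ Cone n := by
    show q _ < 0
    rw [q_base]; norm_num
  set x := herm (base n) a with hx
  set y := herm (base n) b with hy
  have hx0 : x ≠ 0 := by
    intro h
    have := q_pos_of_orth hbc h ha0
    rw [ha] at this
    exact lt_irrefl _ this
  set w := b - (y / x) • a with hw
  have h1 : herm (base n) w = 0 := by
    rw [hw, cf2_sr, herm_smul_right, ← hx, ← hy, div_mul_cancel₀ _ hx0, sub_self]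
  have h2 : w ≠ 0 := fun h => hne ⟨y / x, sub_eq_zero.1 h⟩
  have h3 := q_pos_of_orth hbc h1 h2
  have hba : herm b a = 0 := by rw [herm_comm, hab, star_zero]
  have h4 : (q w : ℂ) = 0 := by
    rw [← herm_self, hw, cf2_sr, cf2_sl, cf2_sl, herm_smul_right, herm_smul_left,
      herm_smul_left, herm_smul_right, herm_self, herm_self, ha, hb, hab, hba]
    simp
  rw [show q w = 0 by exact_mod_cast h4] at h3
  exact lt_irrefl _ h3

/-- The case of equality: the point `w` is vertically above (or below) `x`. -/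
private theorem cf2_vert {p x w : Vec n} (hp : p ≠ 0) (hq : q p = 0) (hx : x ∈ Cone n)
    (hw : w ∈ Cone n) (hpx : herm p x = 1) (hpw : herm p w = 1)
    (hc : ‖herm x w‖ ^ 2 = (q x + q w) ^ 2 / 4) :
    w = x + (((q w - q x) / 2 : ℝ) : ℂ) • p := by
  have hqx : q x < 0 := hx
  have hqw : q w < 0 := hw
  have h0 : herm p (w - x) = 0 := by rw [cf2_sr, hpx, hpw, sub_self]
  have h1 : 0 ≤ q (w - x) := cf2_nonneg hp hq h0
  rw [cf2_qsub] at h1
  have hre : (herm w x).re = (herm x w).re := by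
    rw [herm_comm x w]
    exact Complex.conj_re _
  rw [hre] at h1
  have h2 : ‖herm x w‖ ^ 2 = (herm x w).re ^ 2 + (herm x w).im ^ 2 := by
    rw [Complex.sq_norm, Complex.normSq_apply]
    ring
  have h3 : (herm x w).re = (q x + q w) / 2 := by
    nlinarith [sq_nonneg (herm x w).im]
  have h4 : (herm x w).im = 0 := by
    have : (herm x w).im ^ 2 = 0 := by
      rw [h3] at h2
      rw [hc] at h2
      linarith
    exact pow_eq_zero_iff (two_ne_zero) |>.1 this
  have h5 : q (w - x) = 0 := by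
    rw [cf2_qsub, hre, h3]
    ring
  obtain ⟨c, hc'⟩ := cf2_null hq h5 h0 hp
  have hw' : w = x + c • p := by rw [← hc']; abel
  have hxp : herm x p = 1 := by rw [herm_comm, hpx, star_one]
  have h6 : herm x w = (q x : ℂ) + c := by
    rw [hw', herm_add_right, herm_smul_right, herm_self, hxp, mul_one]
  have h7 : herm x w = (((q x + q w) / 2 : ℝ) : ℂ) := by
    apply Complex.ext
    · rw [h3, Complex.ofReal_re]
    · rw [h4, Complex.ofReal_im]
  have h8 : c = (((q w - q x) / 2 : ℝ) : ℂ) := by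
    have : c = herm x w - (q x : ℂ) := by rw [h6]; ring
    rw [this, h7]
    push_cast
    ring
  rw [h8] at hw'
  exact hw'

/-- Normalised lifts. -/
private theorem cf2_nrm {p v : Vec n} (hp : p ≠ 0) (hq : q p = 0) (hv : v ∈ Cone n) :
    ∃ a : ℂ, a ≠ 0 ∧ a • v ∈ Cone n ∧ herm p (a • v) = 1 ∧ yp p v = -q (a • v) := by
  have ha : herm p v ≠ 0 := herm_null_ne hp hq hv
  refine ⟨(herm p v)⁻¹, inv_ne_zero ha, ?_, ?_, ?_⟩
  · show q _ < 0
    rw [q_smul]
    exact mul_neg_of_pos_of_neg (pow_pos (norm_pos_iff.2 (inv_ne_zero ha)) 2) hv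
  · rw [herm_smul_right, inv_mul_cancel₀ ha]
  · have h1 : herm ((herm p v)⁻¹ • v) p = 1 := by
      rw [herm_comm p, herm_smul_right, inv_mul_cancel₀ ha, star_one]
    rw [← yp_homog p (herm p v)⁻¹ (inv_ne_zero ha) v hv, yp, h1]
    simp

/-- `cosh²` of half a logarithm. -/
private theorem cf2_cosh {A B : ℝ} (hA : 0 < A) (hB : 0 < B) :
    Real.cosh (Real.log (B / A) / 2) ^ 2 = (A + B) ^ 2 / (4 * (A * B)) := by
  have h1 : Real.cosh (Real.log (B / A) / 2) ^ 2 = (Real.cosh (Real.log (B / A)) + 1) / 2 := by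
    have h := Real.cosh_two_mul (Real.log (B / A) / 2)
    have h' := Real.cosh_sq (Real.log (B / A) / 2)
    rw [mul_div_cancel₀ _ (two_ne_zero)] at h
    rw [h]
    linarith
  rw [h1, Real.cosh_log (by positivity)]
  field_simp
  ring

/-- The comparison of a point with the vertical. `x` in the cone, `u` at distance at most `s` from `x` whose height is almost the largest possible: then `u` is near the
point vertically above `x` with the same height. PROOF: lifts with `herm p' x = herm p' u = -1`: heights `h`, `H`, `Re herm x u = -(1/2)(h + H + q (u - x))`; the hypothesis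
gives `q (u - x) ≤ C ω H`, `|Im herm x u| ≤ C √ω H`; `x_H = x + ((H-h)/2) p'` and `herm x_H u = herm x u - (H-h)/2`. -/
theorem vert_close {ε : ℝ} (hε : 0 < ε) : ∃ ω : ℝ, 0 < ω ∧ ∀ (p' x u : Vec n), p' ≠ 0 →
    q p' = 0 → x ∈ Cone n → u ∈ Cone n → ∀ s : ℝ, 0 ≤ s → cc x u ≤ Real.cosh s ^ 2 →
      Real.exp (2 * s - ω) * yp p' x ≤ yp p' u → ∀ w ∈ Cone n, yp p' w = yp p' u →
        cc x w = Real.cosh (Real.log (yp p' u / yp p' x) / 2) ^ 2 → cc w u ≤ 1 + ε := by
  refine ⟨Real.log (1 + ε), Real.log_pos (by linarith), ?_⟩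
  intro p x u hp hq hx hu s hs hxu hyu w hw hwu hxw
  have hupper := yp_exp hp hq hx hu hs hxu
  obtain ⟨a, ha, hX, hpX, hyX⟩ := cf2_nrm hp hq hx
  obtain ⟨b, hb, hU, hpU, hyU⟩ := cf2_nrm hp hq hu
  obtain ⟨c, hc, hW, hpW, hyW⟩ := cf2_nrm hp hq hw
  rw [← cc_smul_left ha, ← cc_smul_right hb] at hxu
  rw [← cc_smul_left ha, ← cc_smul_right hc] at hxw
  rw [← cc_smul_left hc, ← cc_smul_right hb]
  rw [hyX, hyU] at hyu hupper hxw
  rw [hyW, hyU] at hwu
  generalize a • x = X at *
  generalize b • u = U at *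
  generalize c • w = W at *
  have hqX : q X < 0 := hX
  have hqU : q U < 0 := hU
  have hqW : q W < 0 := hW
  have hWU : q W = q U := neg_injective hwu
  set h : ℝ := -q X with hh
  set H : ℝ := -q U with hH
  have hh0 : 0 < h := by rw [hh]; linarith
  have hH0 : 0 < H := by rw [hH]; linarith
  have hqX' : q X = -h := by rw [hh]; ring
  have hqU' : q U = -H := by rw [hH]; ring
  have hqW' : q W = -H := by rw [hWU, hqU']
  -- the vertical point
  have h1 : ‖herm X W‖ ^ 2 = (q X + q W) ^ 2 / 4 := by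
    rw [cf2_cosh hh0 hH0, cc, hqX', hqW'] at hxw
    have h2 : (-h) * (-H) ≠ 0 := by
      rw [neg_mul_neg]
      positivity
    rw [div_eq_iff h2] at hxw
    rw [hxw, hqX', hqW']
    field_simp
    ring
  have h2 : W = X + (((h - H) / 2 : ℝ) : ℂ) • p := by
    have h3 := cf2_vert hp hq hX hW hpX hpW h1
    rw [hqX', hqW', show -H - -h = h - H by ring] at h3
    exact h3
  have hXp : herm X p = 1 := by rw [herm_comm, hpX, star_one]
  have h3 : herm W U = herm X U + (((h - H) / 2 : ℝ) : ℂ) := by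
    rw [h2, herm_add_left, herm_smul_left, hpU, mul_one]
    congr 1
    exact Complex.conj_ofReal _
  -- the excess
  have he : 0 ≤ q (X - U) := cf2_nonneg hp hq (by rw [cf2_sr, hpX, hpU, sub_self])
  rw [cf2_qsub, hqX', hqU'] at he
  set e : ℝ := -h + -H - 2 * (herm X U).re with hedef
  have hre : (herm X U).re = -(h + H + e) / 2 := by rw [hedef]; ring
  set β : ℝ := (herm X U).im with hβ
  have hN : ‖herm X U‖ ^ 2 = ((h + H + e) / 2) ^ 2 + β ^ 2 := by
    rw [Complex.sq_norm, Complex.normSq_apply, hre]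
    ring
  have hN' : ‖herm W U‖ ^ 2 = (H + e / 2) ^ 2 + β ^ 2 := by
    rw [h3, Complex.sq_norm, Complex.normSq_apply, Complex.add_re, Complex.add_im,
      Complex.ofReal_re, Complex.ofReal_im, hre]
    ring
  have hE : 4 * Real.cosh s ^ 2 = Real.exp (2 * s) + 2 + (Real.exp (2 * s))⁻¹ := by
    have e1 : Real.exp (2 * s) = Real.exp s ^ 2 := by rw [← Real.exp_nat_mul]; norm_num
    have e2 : Real.exp s ≠ 0 := (Real.exp_pos _).ne'
    rw [Real.cosh_eq, Real.exp_neg, e1]
    field_simp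
    ring
  set E : ℝ := Real.exp (2 * s) with hEd
  have hE0 : 0 < E := Real.exp_pos _
  have hyu' : E * h ≤ (1 + ε) * H := by
    rw [Real.exp_sub, Real.exp_log (by linarith), ← hEd, div_mul_eq_mul_div,
      div_le_iff₀ (by linarith)] at hyu
    linarith
  have h4 : (h + H + e) ^ 2 + 4 * β ^ 2 ≤ h * H * (E + 2 + E⁻¹) := by
    rw [cc, hqX', hqU', neg_mul_neg, div_le_iff₀ (mul_pos hh0 hH0), hN] at hxu
    have h40 : h * H * (E + 2 + E⁻¹) = 4 * (Real.cosh s ^ 2 * (h * H)) := by
      rw [← hE]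
      ring
    rw [h40]
    nlinarith [hxu]
  -- `h H (E + 2 + 1/E) - (h + H)² ≤ H² ε`
  have h5 : h * H * (E + 2 + E⁻¹) ≤ (h + H) ^ 2 + ε * H ^ 2 := by
    have h6 : h * H * E⁻¹ ≤ h ^ 2 := by
      have h7 : H * E⁻¹ ≤ h := by
        rw [← div_eq_mul_inv, div_le_iff₀ hE0]
        linarith
      nlinarith
    have h8 : h * H * E ≤ (1 + ε) * H ^ 2 := by nlinarith
    nlinarith
  have h9 : (H + e / 2) ^ 2 + β ^ 2 ≤ (1 + ε) * H ^ 2 := by
    nlinarith [sq_nonneg β, mul_nonneg hh0.le he, mul_nonneg hH0.le he, sq_nonneg e, sq_nonneg H]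
  rw [cc, hqW', hqU', neg_mul_neg, hN', div_le_iff₀ (by positivity)]
  nlinarith

/-- The displacement decreases on the way up. PROOF: lift with `herm p' x = -1`, `B p' = c p'`, `‖c‖ = 1`; `conj c • B x` has `herm p' = -1`; `N = herm x (conj c • B x) = -h - q(...)/2 + i Im`, and for
`x_σ = x + t p'`, `σ = h + 2t`: `herm x_σ (conj c • B x_σ) = N - 2t`, so `cc = ((σ + β/2)² + Im²)/σ²`. The point `w` is `x_σ` up to a scalar (equality in `yp_exp`). -/
theorem disp_up {B : Mat (n + 1)} (hB : Bᴴ * J n * B = J n) {p' : Vec n} (hp : p' ≠ 0)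
    (hq : q p' = 0) {c : ℂ} (hc : ‖c‖ = 1) (hBp : B *ᵥ p' = c • p') {x w : Vec n} (hx : x ∈ Cone n)
    (hw : w ∈ Cone n) (hy : yp p' x ≤ yp p' w)
    (hv : cc x w = Real.cosh (Real.log (yp p' w / yp p' x) / 2) ^ 2) :
    cc (B *ᵥ w) w ≤ cc (B *ᵥ x) x := by
  obtain ⟨a, ha, hX, hpX, hyX⟩ := cf2_nrm hp hq hx
  obtain ⟨b, hb, hW, hpW, hyW⟩ := cf2_nrm hp hq hw
  have hc0 : c ≠ 0 := by
    intro h
    rw [h] at hc
    simp at hc
  have hcc : star c * c = 1 := by
    rw [mul_comm]
    have := Complex.mul_conj c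
    rw [Complex.normSq_eq_norm_sq, hc] at this
    simpa using this
  have hBx : cc (B *ᵥ x) x = cc (star c • (B *ᵥ (a • x))) (a • x) := by
    rw [cc_smul_left (star_ne_zero.2 hc0), mulVec_smul, cc_smul_left ha, cc_smul_right ha]
  have hBw : cc (B *ᵥ w) w = cc (star c • (B *ᵥ (b • w))) (b • w) := by
    rw [cc_smul_left (star_ne_zero.2 hc0), mulVec_smul, cc_smul_left hb, cc_smul_right hb]
  rw [hBx, hBw]
  rw [← cc_smul_left ha, ← cc_smul_right hb] at hv
  rw [hyX, hyW] at hy hv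
  clear hBx hBw hyX hyW
  generalize a • x = X at *
  generalize b • w = W at *
  have hqX : q X < 0 := hX
  have hqW : q W < 0 := hW
  set h : ℝ := -q X with hh
  set H : ℝ := -q W with hH
  have hh0 : 0 < h := by rw [hh]; linarith
  have hH0 : 0 < H := by rw [hH]; linarith
  have hqX' : q X = -h := by rw [hh]; ring
  have hqW' : q W = -H := by rw [hH]; ring
  clear_value h H
  have h1 : ‖herm X W‖ ^ 2 = (q X + q W) ^ 2 / 4 := by
    rw [cf2_cosh hh0 hH0, cc, hqX', hqW'] at hv
    have h2 : (-h) * (-H) ≠ 0 := by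
      rw [neg_mul_neg]
      positivity
    rw [div_eq_iff h2] at hv
    rw [hv, hqX', hqW']
    field_simp
    ring
  have h2 : W = X + (((h - H) / 2 : ℝ) : ℂ) • p' := by
    have h3 := cf2_vert hp hq hX hW hpX hpW h1
    rw [hqX', hqW', show -H - -h = h - H by ring] at h3
    exact h3
  have hXp : herm X p' = 1 := by rw [herm_comm, hpX, star_one]
  -- the image
  obtain ⟨Y, hY⟩ : ∃ Y : Vec n, Y = star c • (B *ᵥ X) := ⟨_, rfl⟩
  rw [← hY]
  have hqY : q Y = -h := by
    rw [hY, q_smul, norm_star, hc, uj_q hB, hqX']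
    ring
  have hpY : herm p' Y = 1 := by
    have h3 : herm (B *ᵥ p') (B *ᵥ X) = 1 := by rw [uj_herm hB, hpX]
    rw [hBp, herm_smul_left] at h3
    rw [hY, herm_smul_right, h3]
  have hYp : herm Y p' = 1 := by rw [herm_comm, hpY, star_one]
  have hZ : star c • (B *ᵥ W) = Y + (((h - H) / 2 : ℝ) : ℂ) • p' := by
    rw [h2, mulVec_add, mulVec_smul, hBp, smul_add, ← hY, smul_smul, smul_smul]
    congr 2
    linear_combination (((h - H) / 2 : ℝ) : ℂ) * hcc
  have hpp : herm p' p' = 0 := by rw [herm_self, hq, Complex.ofReal_zero]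
  have hZW : herm (star c • (B *ᵥ W)) W = herm Y X + ((h - H : ℝ) : ℂ) := by
    have h4 : star ((((h - H) / 2 : ℝ) : ℂ)) = (((h - H) / 2 : ℝ) : ℂ) := Complex.conj_ofReal _
    rw [hZ, h2, herm_add_left, herm_add_right, herm_add_right, herm_smul_left, herm_smul_left,
      herm_smul_right, herm_smul_right, hYp, hpX, hpp, h4]
    push_cast
    ring
  have he : 0 ≤ q (Y - X) := cf2_nonneg hp hq (by rw [cf2_sr, hpX, hpY, sub_self])
  rw [cf2_qsub, hqX', hqY] at he
  set e : ℝ := -h + -h - 2 * (herm Y X).re with hedef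
  have hre : (herm Y X).re = -(h + e / 2) := by rw [hedef]; ring
  set β : ℝ := (herm Y X).im with hβ
  have hN : ‖herm Y X‖ ^ 2 = (h + e / 2) ^ 2 + β ^ 2 := by
    rw [Complex.sq_norm, Complex.normSq_apply, hre]
    ring
  have hN' : ‖herm (star c • (B *ᵥ W)) W‖ ^ 2 = (H + e / 2) ^ 2 + β ^ 2 := by
    rw [hZW, Complex.sq_norm, Complex.normSq_apply, Complex.add_re, Complex.add_im,
      Complex.ofReal_re, Complex.ofReal_im, hre]
    ring
  have hqZ : q (star c • (B *ᵥ W)) = -H := by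
    rw [q_smul, norm_star, hc, uj_q hB, hqW']
    ring
  rw [cc, cc, hN, hN', hqZ, hqW', hqY, hqX', neg_mul_neg, neg_mul_neg,
    div_le_div_iff₀ (mul_pos hH0 hH0) (mul_pos hh0 hh0)]
  have h5 : h * (H + e / 2) ≤ H * (h + e / 2) := by nlinarith
  have h6 : (h * (H + e / 2)) ^ 2 ≤ (H * (h + e / 2)) ^ 2 :=
    pow_le_pow_left₀ (by positivity) h5 2
  have h7 : (h * β) ^ 2 ≤ (H * β) ^ 2 := by
    rw [mul_pow, mul_pow]
    exact mul_le_mul_of_nonneg_right (pow_le_pow_left₀ hh0.le hy 2) (sq_nonneg β)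
  nlinarith

end Pool.Agent.Lib.MP_5d4057_al.RG
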