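import Pool.Agent.Lib.MP_5d4057_al.RG.ThmA
import Pool.Agent.Lib.MP_5d4057_al.RG.Bridge

/-!
# RG: the triangle inequality

`dx v w = e^d`, where `cc v w = cosh² d`.
-/

set_option autoImplicit false

namespace Pool.Agent.Lib.MP_5d4057_al.RG

open Matrix Filter Topology Metric Pool.Agent.Lib.MP_5d4057_al Pool.Agent.Lib.MP_5d4057_al.Hyb
  Pool.Agent.Lib.MP_5d4057_al.HM

variable {m n : ℕ}

/-- The exponential of the distance. -/
noncomputable def dx (v w : Vec n) : ℝ := √(cc v w) + √(cc v w - 1)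

theorem cc_symm (v w : Vec n) : cc v w = cc w v := by
  rw [cc, cc, herm_comm w v, norm_star, mul_comm (q v)]

theorem dx_symm (v w : Vec n) : dx v w = dx w v := by
  rw [dx, dx, cc_symm]

theorem cc_orbit (g h : SUGroup n) :
    cc (act g (base n)) (act h (base n)) = ch (g⁻¹ * h) ^ 2 := by
  rw [cc, norm_herm_orbit, q_orbit, q_orbit]
  norm_num

theorem dx_orbit (g h : SUGroup n) : dx (act g (base n)) (act h (base n)) = wt (g⁻¹ * h) := by
  rw [dx, cc_orbit, Real.sqrt_sq (zero_le_one.trans (one_le_ch _)), wt]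

theorem dx_smul_left {c : ℂ} (hc : c ≠ 0) (v w : Vec n) : dx (c • v) w = dx v w := by
  rw [dx, dx, cc_smul_left hc]

theorem dx_smul_right {c : ℂ} (hc : c ≠ 0) (v w : Vec n) : dx v (c • w) = dx v w := by
  rw [dx, dx, cc_smul_right hc]

/-- **The triangle inequality.** -/
theorem dx_tri {x y z : Vec n} (hx : x ∈ Cone n) (hy : y ∈ Cone n) (hz : z ∈ Cone n) :
    dx x z ≤ dx x y * dx y z := by
  obtain ⟨a, c, hc, rfl⟩ := exists_act_eq hx
  obtain ⟨b, d, hd, rfl⟩ := exists_act_eq hy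
  obtain ⟨g, e, he, rfl⟩ := exists_act_eq hz
  rw [dx_smul_left hc, dx_smul_left hc, dx_smul_right he, dx_smul_right hd, dx_smul_left hd,
    dx_smul_right he, dx_orbit, dx_orbit, dx_orbit]
  refine (le_of_eq ?_).trans (wt_mul_le (a⁻¹ * b) (b⁻¹ * g))
  congr 1
  group

theorem cc_le_dx {x y : Vec n} (hx : x ∈ Cone n) (hy : y ∈ Cone n) : cc x y ≤ dx x y ^ 2 := by
  have h0 : 0 ≤ cc x y := zero_le_one.trans (one_le_cc hx hy)
  have h1 := Real.sqrt_nonneg (cc x y - 1)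
  have h2 := Real.sqrt_nonneg (cc x y)
  have h3 := Real.sq_sqrt h0
  rw [dx]
  nlinarith

theorem one_le_dx {x y : Vec n} (hx : x ∈ Cone n) (hy : y ∈ Cone n) : 1 ≤ dx x y := by
  have h1 := Real.sqrt_nonneg (cc x y - 1)
  have h2 : 1 ≤ √(cc x y) := Real.one_le_sqrt.2 (one_le_cc hx hy)
  rw [dx]
  linarith

theorem dx_le {x y : Vec n} {a b : ℝ} (ha : 0 ≤ a) (hb : 0 ≤ b) (h1 : cc x y ≤ a ^ 2)
    (h2 : cc x y ≤ 1 + b ^ 2) : dx x y ≤ a + b := by
  have e1 : √(cc x y) ≤ a := Real.sqrt_le_iff.2 ⟨ha, h1⟩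
  have e2 : √(cc x y - 1) ≤ b := Real.sqrt_le_iff.2 ⟨hb, by linarith⟩
  rw [dx]
  linarith

theorem dx_uj {A : Mat (n + 1)} (hA : Aᴴ * J n * A = J n) (v w : Vec n) :
    dx (A *ᵥ v) (A *ᵥ w) = dx v w := by
  rw [dx, dx, cc_uj hA]

theorem dx_act (g : SUGroup n) (v w : Vec n) : dx (act g v) (act g w) = dx v w := by
  rw [dx, dx, cc_act]

theorem uj_mem {A : Mat (n + 1)} (hA : Aᴴ * J n * A = J n) {v : Vec n} (hv : v ∈ Cone n) :
    A *ᵥ v ∈ Cone n := by
  show q (A *ᵥ v) < 0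
  rw [uj_q hA]
  exact hv

/-- Points at distance zero are proportional. -/
theorem eq_of_cc {x y : Vec n} (hx : x ∈ Cone n) (hy : y ∈ Cone n) (h : cc x y ≤ 1) :
    ∃ c : ℂ, c ≠ 0 ∧ y = c • x := by
  have hqx : q x < 0 := hx
  have hqy : q y < 0 := hy
  have hqx' : (q x : ℂ) ≠ 0 := by exact_mod_cast hqx.ne
  obtain ⟨c, hc⟩ : ∃ c : ℂ, c = herm x y / (q x : ℂ) := ⟨_, rfl⟩
  have h1 : herm x (y - c • x) = 0 := by
    rw [sub_eq_add_neg, ← neg_smul, herm_add_right, herm_smul_right, herm_self, hc]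
    field_simp
    ring
  have h2 : y = (y - c • x) + c • x := by abel
  have h4 : herm (y - c • x) x = 0 := by rw [herm_comm, h1, star_zero]
  have h3 : q y = q (y - c • x) + ‖c‖ ^ 2 * q x := by
    have h5 : (q y : ℂ) = (q (y - c • x) : ℂ) + ((‖c‖ ^ 2 * q x : ℝ) : ℂ) := by
      rw [← q_smul, ← herm_self, ← herm_self, ← herm_self]
      conv_lhs => rw [h2]
      rw [herm_add_left, herm_add_right, herm_add_right, herm_smul_right, h4, herm_smul_left, h1]
      ring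
    exact_mod_cast h5
  have h6 : ‖herm x y‖ ^ 2 ≤ q x * q y := by
    rwa [cc, div_le_one (mul_pos_of_neg_of_neg hqx hqy)] at h
  have h7 : ‖c‖ ^ 2 * q x = ‖herm x y‖ ^ 2 / q x := by
    rw [hc, norm_div, Complex.norm_real, Real.norm_eq_abs, div_pow, sq_abs]
    field_simp
  have h8 : q (y - c • x) ≤ 0 := by
    have h9 : q y ≤ ‖herm x y‖ ^ 2 / q x := by
      rw [le_div_iff_of_neg hqx]
      linarith
    rw [h7] at h3
    linarith
  have h10 : y - c • x = 0 := by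
    by_contra hne
    exact absurd (q_pos_of_orth hx h1 hne) (not_lt.2 h8)
  have h11 : y = c • x := sub_eq_zero.1 h10
  refine ⟨c, ?_, h11⟩
  rintro rfl
  rw [zero_smul] at h11
  rw [h11, q_eq] at hqy
  simp at hqy

end Pool.Agent.Lib.MP_5d4057_al.RG
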