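import Pool.Agent.Lib.MP_5d4057_al.RG.CpN
import Pool.Agent.Lib.MP_5d4057_al.RG.CpF2
import Pool.Agent.Lib.MP_5d4057_al.RG.Tri

/-!
# RG C8c: both points high in the same cusp
-/

set_option autoImplicit false

namespace Pool.Agent.Lib.MP_5d4057_al.RG

open Matrix Filter Topology Metric Pool.Agent.Lib.MP_5d4057_al Pool.Agent.Lib.MP_5d4057_al.Hyb
  Pool.Agent.Lib.MP_5d4057_al.HM Pool.Agent.Lib.MP_5d4057_al.HM.Kak Pool.Agent.Lib.MP_5d4057_al.NU

open scoped ComplexOrder MatrixOrder Matrix.Norms.L2Operator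

variable {m n : ℕ} {Γ : Subgroup (SUGroup m)} {ξ : Fin m → ℂ} {z : SUGroup m} {κ : ℝ}

private theorem f3_yp_smul {c : ℂ} (hc : c ≠ 0) (p : Vec n) {v : Vec n} (hv : v ∈ Cone n) :
    yp p (c • v) = yp p v := yp_homog p c hc v hv

/-- The points vertically above `v`. -/
private theorem f3_up {p v : Vec n} (hq : q p = 0) (hv : v ∈ Cone n) (h1 : herm p v = -1)
    {t : ℝ} (ht : 0 ≤ t) :
    v + (t : ℂ) • p ∈ Cone n ∧ q (v + (t : ℂ) • p) = q v - 2 * t ∧
      yp p (v + (t : ℂ) • p) = -q v + 2 * t ∧ herm v (v + (t : ℂ) • p) = ((q v - t : ℝ) : ℂ) := by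
  have h2 : herm v p = -1 := by rw [herm_comm, h1]; simp
  have e1 : q (v + (t : ℂ) • p) = q v - 2 * t := by
    have h3 : (q (v + (t : ℂ) • p) : ℂ) = ((q v - 2 * t : ℝ) : ℂ) := by
      rw [← herm_self, herm_add_left, herm_add_right, herm_add_right, herm_smul_left,
        herm_smul_left, herm_smul_right, herm_smul_right, herm_self, herm_self, hq, h1, h2]
      have : star (t : ℂ) = (t : ℂ) := Complex.conj_ofReal t
      rw [this]
      push_cast
      ring
    exact_mod_cast h3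
  have hqv : q v < 0 := hv
  refine ⟨?_, e1, ?_, ?_⟩
  · show q (v + (t : ℂ) • p) < 0
    rw [e1]
    linarith
  · have h4 : herm (v + (t : ℂ) • p) p = -1 := by
      rw [herm_add_left, herm_smul_left, herm_self, hq, h2]
      simp
    rw [yp, e1, h4]
    norm_num
    ring
  · rw [herm_add_right, herm_smul_right, herm_self, h2]
    push_cast
    ring

/-- Going up until the displacement is two. -/
private theorem f3_ivt {p : Vec n} (hp : p ≠ 0) (hq : q p = 0) {γ : SUGroup n} {c : ℂ}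
    (hc : ‖c‖ = 1) (hγ : act γ p = c • p) {v : Vec n} (hv : v ∈ Cone n)
    (h2 : 2 ≤ cc v (act γ v)) :
    ∃ w ∈ Cone n, ∃ s : ℝ, 0 ≤ s ∧ yp p w = Real.exp (2 * s) * yp p v ∧
      cc v w = Real.cosh s ^ 2 ∧ cc w (act γ w) = 2 := by
  have ha : herm p v ≠ 0 := herm_null_ne hp hq hv
  have hna : -(herm p v)⁻¹ ≠ 0 := neg_ne_zero.2 (inv_ne_zero ha)
  obtain ⟨v', hv'⟩ : ∃ v' : Vec n, v' = (-(herm p v)⁻¹) • v := ⟨_, rfl⟩
  have hv'c : v' ∈ Cone n := by
    have h0 : q v < 0 := hv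
    show q v' < 0
    rw [hv', q_smul]
    exact mul_neg_of_pos_of_neg (pow_pos (norm_pos_iff.2 hna) 2) h0
  have h1 : herm p v' = -1 := by
    rw [hv', herm_smul_right]
    field_simp
  have h1' : herm v' p = -1 := by rw [herm_comm, h1]; simp
  have hqv : q v' < 0 := hv'c
  have hyv : yp p v = -q v' := by
    have h3 := (f3_up hq hv'c h1 le_rfl).2.2.1
    rw [Complex.ofReal_zero, zero_smul, add_zero, mul_zero, add_zero] at h3
    rw [← h3, hv', f3_yp_smul hna p hv]
  have hcc : cc v' (act γ v') = cc v (act γ v) := by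
    rw [hv', act_smul, cc_smul_left hna, cc_smul_right hna]
  -- the path
  obtain ⟨g, hg⟩ : ∃ g : ℝ → ℝ, g = fun t : ℝ => cc (v' + (t : ℂ) • p) (act γ (v' + (t : ℂ) • p)) :=
    ⟨_, rfl⟩
  have hpc : Continuous fun t : ℝ => v' + (t : ℂ) • p := by fun_prop
  have hpa : Continuous fun t : ℝ => act γ (v' + (t : ℂ) • p) :=
    Continuous.matrix_mulVec (A := fun _ : ℝ => γ.toMatrix) continuous_const hpc
  have hgc : ContinuousOn g (Set.Ici 0) := by
    rw [hg]
    refine continuousOn_cc hpc.continuousOn hpa.continuousOn ?_ ?_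
    · exact fun t ht => (f3_up hq hv'c h1 ht).1
    · exact fun t ht => act_mem γ (f3_up hq hv'c h1 ht).1
  obtain ⟨N, hN⟩ : ∃ N : ℂ, N = herm v' (act γ v') := ⟨_, rfl⟩
  have hgt : ∀ t : ℝ, 0 ≤ t → g t = ‖N - 2 * (t : ℂ) * c‖ ^ 2 / (q v' - 2 * t) ^ 2 := by
    intro t ht
    have e1 := (f3_up hq hv'c h1 ht).2.1
    have e2 : herm p (act γ v') = -c := by
      have h3 : herm (act γ p) (act γ v') = -1 := by rw [herm_act, h1]
      rw [hγ, herm_smul_left] at h3
      have hcs : c * star c = 1 := by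
        have h5 := Complex.mul_conj c
        rw [Complex.normSq_eq_norm_sq, hc] at h5
        rw [one_pow, Complex.ofReal_one] at h5
        exact h5
      calc herm p (act γ v') = (c * star c) * herm p (act γ v') := by rw [hcs, one_mul]
        _ = c * (star c * herm p (act γ v')) := by ring
        _ = -c := by rw [h3]; ring
    have e3 : herm (v' + (t : ℂ) • p) (act γ (v' + (t : ℂ) • p)) = N - 2 * (t : ℂ) * c := by
      have hst : star (t : ℂ) = (t : ℂ) := Complex.conj_ofReal t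
      rw [act_add, act_smul, hγ, herm_add_left, herm_add_right, herm_add_right, herm_smul_left,
        herm_smul_left, herm_smul_right, herm_smul_right, herm_smul_right, herm_smul_right,
        herm_self, hq, h1', e2, ← hN, hst]
      push_cast
      ring
    rw [hg]
    simp only
    rw [cc, e3, q_act, e1, sq (q v' - 2 * t)]
  have hN0 : 0 < ‖N‖ := by
    rw [norm_pos_iff, hN]
    exact herm_ne_zero hv'c (act_mem γ hv'c)
  have hend : g (2 * ‖N‖) ≤ 2 := by
    have ht : 0 ≤ 2 * ‖N‖ := by positivity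
    rw [hgt _ ht, div_le_iff₀ (by
      have : q v' - 2 * (2 * ‖N‖) < 0 := by linarith
      exact (by nlinarith : (0 : ℝ) < (q v' - 2 * (2 * ‖N‖)) ^ 2))]
    have e1 : ‖N - 2 * ((2 * ‖N‖ : ℝ) : ℂ) * c‖ ≤ 5 * ‖N‖ := by
      refine (norm_sub_le _ _).trans ?_
      rw [norm_mul, norm_mul, hc, Complex.norm_real, Complex.norm_ofNat, Real.norm_of_nonneg ht]
      linarith
    have e2 : ‖N - 2 * ((2 * ‖N‖ : ℝ) : ℂ) * c‖ ^ 2 ≤ (5 * ‖N‖) ^ 2 :=
      pow_le_pow_left₀ (norm_nonneg _) e1 2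
    nlinarith
  have hstart : 2 ≤ g 0 := by
    rw [hg]
    simp only
    rw [Complex.ofReal_zero, zero_smul, add_zero, hcc]
    exact h2
  obtain ⟨t, ht, hgt2⟩ := intermediate_value_Icc' (by positivity : (0 : ℝ) ≤ 2 * ‖N‖)
    (hgc.mono Set.Icc_subset_Ici_self) ⟨hend, hstart⟩
  have ht0 : 0 ≤ t := ht.1
  obtain ⟨u1, u2, u3, u4⟩ := f3_up hq hv'c h1 ht0
  obtain ⟨s, hs⟩ : ∃ s : ℝ, s = Real.log ((-q v' + 2 * t) / (-q v')) / 2 := ⟨_, rfl⟩
  have hq0 : 0 < -q v' := by linarith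
  have hes : Real.exp (2 * s) = (-q v' + 2 * t) / (-q v') := by
    rw [hs, mul_div_cancel₀ _ two_ne_zero, Real.exp_log (by positivity)]
  refine ⟨v' + (t : ℂ) • p, u1, s, ?_, ?_, ?_, ?_⟩
  · rw [hs]
    refine div_nonneg (Real.log_nonneg ?_) zero_le_two
    rw [le_div_iff₀ hq0]
    linarith
  · rw [u3, hes, hyv, div_mul_cancel₀ _ hq0.ne']
  · have e1 : cc v (v' + (t : ℂ) • p) = cc v' (v' + (t : ℂ) • p) := by
      have e0 : ∀ y : Vec n, cc v' y = cc v y := fun y => by rw [hv', cc_smul_left hna]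
      rw [e0]
    have e2 : Real.cosh s ^ 2 = (Real.exp (2 * s) + 2 + (Real.exp (2 * s))⁻¹) / 4 := by
      have h3 : Real.exp (2 * s) = Real.exp s ^ 2 := by
        rw [← Real.exp_nat_mul]
        norm_num
      have h4 := Real.exp_pos s
      rw [Real.cosh_eq, h3, Real.exp_neg]
      field_simp
      ring
    rw [e1, e2, hes, cc, u4, u2, Complex.norm_real, Real.norm_eq_abs, sq_abs]
    have h5 : q v' ≠ 0 := hqv.ne
    have h6 : q v' - 2 * t ≠ 0 := by linarith
    have h7 : -q v' + 2 * t ≠ 0 := by linarith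
    have h8 : -q v' ≠ 0 := hq0.ne'
    rw [inv_div, div_eq_div_iff (mul_ne_zero h5 h6) four_ne_zero, div_add' _ _ _ h8,
      div_add_div _ _ h8 h7, div_mul_eq_mul_div, eq_div_iff (mul_ne_zero h8 h7)]
    ring
  · rw [hg] at hgt2
    exact hgt2

/-- Both points high in the same cusp. PROOF: let `f v = f w` projectively. `Aq` near its limit gives almost equal heights; `close_mod`: `λ ∈ Γ ∩ St ξ` with `cc v (λ w) ≤ 1 + ε`, so
`cc (f v) (ρ λ f v) ≤ 1 + ε`. If `cc v (λ v) ≤ 2` then `cc v w` is bounded. Otherwise there is `v_σ` above `v` with `cc v_σ (λ v_σ) = 2` (intermediate values,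
limit `1`). `tm_cusp`: `cc (f v_σ) (ρ λ f v_σ) ≥ 3/2`. But `f v_σ` is near the point above `f v` (`vert_close`, `Aq_lim`), where the displacement of `ρ λ` is
`≤ 1 + ε` (`disp_up`): contradiction (`dx_tri`). -/
theorem far_same (hc : Cusp Γ ξ z κ) {ρ : Γ →* Mat (n + 1)} (hU : UJ ρ) (hP : Prp ρ)
    {p' : Vec n} (hp : CuspIm ρ ξ p') {f : Vec m → Vec n} (hf : HMap f) (he : Eqv ρ f) :
    ∃ Y T : ℝ, ∀ v ∈ Cone m, ∀ w ∈ Cone m, Y ≤ yp (NU.pe ξ) v → Y ≤ yp (NU.pe ξ) w → T ≤ cc v w →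
      1 < cc (f v) (f w) := by
  have hξ : nq ξ = 1 := hc.par.1
  have hqp : q (NU.pe ξ) = 0 := by rw [q_pe, hξ, sub_self]
  have hpe : NU.pe ξ ≠ 0 := by
    intro h0
    have h1 := congrFun h0 (Fin.last m)
    rw [pe_last, Pi.zero_apply] at h1
    exact one_ne_zero h1
  -- the constants
  obtain ⟨ω, hω, hvert⟩ := vert_close (n := n) (ε := 1 / 1000) (by norm_num)
  obtain ⟨ω', hω', hωle, hωc⟩ : ∃ ω' : ℝ, 0 < ω' ∧ ω' ≤ ω ∧
      Real.cosh (ω' / 2) ^ 2 ≤ 1 + 1 / 1000 := by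
    have h1 : Tendsto (fun x : ℝ => Real.cosh (x / 2) ^ 2) (𝓝[>] 0) (𝓝 1) := by
      have h2 : Continuous fun x : ℝ => Real.cosh (x / 2) ^ 2 := by
        have := Real.continuous_cosh
        fun_prop
      have h3 := h2.tendsto 0
      rw [zero_div, Real.cosh_zero, one_pow] at h3
      exact h3.mono_left nhdsWithin_le_nhds
    obtain ⟨x, ⟨h2, h3⟩, h4⟩ := ((h1.eventually (ge_mem_nhds (by norm_num : (1 : ℝ) < 1 + 1 / 1000))).and
      ((tendsto_id.mono_left nhdsWithin_le_nhds).eventually (ge_mem_nhds hω))).and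
      self_mem_nhdsWithin |>.exists
    exact ⟨x, h4, h3, h2⟩
  obtain ⟨Y₁, δ, hδ, hclose⟩ := close_mod hc (ε := 1 / 1000) (by norm_num)
  obtain ⟨Y₂, htm⟩ := tm_cusp hc hU hP hp hf he (ε := 1 / 2) (by norm_num) 2
  obtain ⟨a, ha⟩ := Aq_lim hc hU hP hp hf he
  obtain ⟨Y₃, hA⟩ := ha (min δ ω' / 2) (by positivity)
  obtain ⟨Y, hY⟩ : ∃ Y : ℝ, Y = max (max Y₁ Y₂) Y₃ := ⟨_, rfl⟩
  have hY1 : Y₁ ≤ Y := by rw [hY]; exact (le_max_left _ _).trans (le_max_left _ _)
  have hY2 : Y₂ ≤ Y := by rw [hY]; exact (le_max_right _ _).trans (le_max_left _ _)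
  have hY3 : Y₃ ≤ Y := by rw [hY]; exact le_max_right _ _
  have hAq : ∀ v ∈ Cone m, ∀ w ∈ Cone m, Y ≤ yp (NU.pe ξ) v → Y ≤ yp (NU.pe ξ) w →
      |Aq f p' (NU.pe ξ) v - Aq f p' (NU.pe ξ) w| ≤ min δ ω' := by
    intro v hv w hw h1 h2
    have h3 := abs_le.1 (hA v hv (hY3.trans h1))
    have h4 := abs_le.1 (hA w hw (hY3.trans h2))
    rw [abs_le]
    constructor <;> linarith
  refine ⟨Y, 7, fun v hv w hw hYv hYw hT => ?_⟩
  by_contra hcon
  rw [not_lt] at hcon
  have hfv := hf.maps v hv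
  have hfw := hf.maps w hw
  obtain ⟨d, hd, hdw⟩ := eq_of_cc hfv hfw hcon
  -- the heights are almost equal
  have hyv := yp_pos hpe hqp hv
  have hyw := yp_pos hpe hqp hw
  have hyf : yp p' (f w) = yp p' (f v) := by rw [hdw, f3_yp_smul hd p' hfv]
  have hheight : |Real.log (yp (NU.pe ξ) v) - Real.log (yp (NU.pe ξ) w)| ≤ δ := by
    have h1 := hAq w hw v hv hYw hYv
    rw [Aq, Aq, hyf] at h1
    have h2 : Real.log (yp p' (f v)) - Real.log (yp (NU.pe ξ) w) -
        (Real.log (yp p' (f v)) - Real.log (yp (NU.pe ξ) v)) =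
        Real.log (yp (NU.pe ξ) v) - Real.log (yp (NU.pe ξ) w) := by ring
    rw [h2] at h1
    exact h1.trans (min_le_left _ _)
  obtain ⟨γ, hγ, hγS, hγc⟩ := hclose v hv w hw (hY1.trans hYv) (hY1.trans hYw) hheight
  obtain ⟨c, hc1, hγp⟩ := hc.par.2 γ hγ hγS
  obtain ⟨B, hB⟩ : ∃ B : Mat (n + 1), B = ρ ⟨γ, hγ⟩ := ⟨_, rfl⟩
  have hBU : Bᴴ * J n * B = J n := by rw [hB]; exact hU _
  obtain ⟨c', hc', hBp⟩ := hp.fix ⟨γ, hγ⟩ hγS
  rw [← hB] at hBp
  -- the displacement at `f v` is small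
  have hBv : cc (B *ᵥ f v) (f v) ≤ 1 + 1 / 1000 := by
    obtain ⟨e, he0, h1⟩ := he ⟨γ, hγ⟩ w hw
    have h2 := (hf.cc_le hv (act_mem γ hw)).trans hγc
    have h1' : f (act γ w) = e • (B *ᵥ f w) := by rw [hB]; exact h1
    rw [h1', cc_smul_right he0, hdw, mulVec_smul, cc_smul_right hd, cc_symm] at h2
    exact h2
  -- small displacements
  have hsm : ∀ {k : ℕ} {x y : Vec k}, cc x y ≤ 1 + 1 / 1000 → dx x y ≤ 104 / 100 := by
    intro k x y h
    have := dx_le (x := x) (y := y) (a := 1001 / 1000) (b := 32 / 1000) (by norm_num) (by norm_num)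
      (h.trans (by norm_num)) (h.trans (by norm_num))
    linarith
  have hγw := act_mem γ hw
  have hγv := act_mem γ hv
  by_cases hcase : cc v (act γ v) ≤ 2
  · -- bounded
    have h1 : dx v w ≤ dx (act γ v) v * dx v (act γ w) := by
      rw [← dx_act γ v w]
      exact dx_tri hγv hv hγw
    have h2 : dx (act γ v) v ≤ 25 / 10 := by
      rw [dx_symm]
      have := dx_le (x := v) (y := act γ v) (a := 15 / 10) (b := 1) (by norm_num) (by norm_num)
        (hcase.trans (by norm_num)) (hcase.trans (by norm_num))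
      linarith
    have h3 := hsm hγc
    have h4 := one_le_dx hγv hv
    have h5 := one_le_dx hv hγw
    have h6 : dx v w ≤ 26 / 10 := by
      refine h1.trans ((mul_le_mul h2 h3 (by linarith) (by norm_num)).trans (by norm_num))
    have h7 := cc_le_dx hv hw
    have h8 := one_le_dx hv hw
    have h9 : dx v w ^ 2 ≤ (26 / 10) ^ 2 := pow_le_pow_left₀ (by linarith) h6 2
    norm_num at h9
    linarith
  · rw [not_le] at hcase
    obtain ⟨u, hu, s, hs, hyu, hcu, h2⟩ := f3_ivt hpe hqp hc1 hγp hv hcase.le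
    have hes : 1 ≤ Real.exp (2 * s) := Real.one_le_exp (by positivity)
    have hYu : Y ≤ yp (NU.pe ξ) u := by
      rw [hyu]
      refine hYv.trans ?_
      nlinarith
    have hfu := hf.maps u hu
    -- the displacement at `f u` is large
    have hlarge : 3 / 2 ≤ cc (B *ᵥ f u) (f u) := by
      have h3 := htm u hu (hY2.trans hYu) (act γ u) (act_mem γ hu) h2.le
      obtain ⟨e, he0, h4⟩ := he ⟨γ, hγ⟩ u hu
      have h4' : f (act γ u) = e • (B *ᵥ f u) := by rw [hB]; exact h4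
      rw [h2, h4', cc_smul_right he0, cc_symm] at h3
      linarith
    -- the image of `u` is high above the image of `v`
    have hxu : cc (f v) (f u) ≤ Real.cosh s ^ 2 := (hf.cc_le hv hu).trans hcu.le
    have hpv := yp_pos hp.ne hp.isot hfv
    have hpu := yp_pos hp.ne hp.isot hfu
    have hyu' := yp_pos hpe hqp hu
    have hlow : Real.exp (2 * s - ω') * yp p' (f v) ≤ yp p' (f u) := by
      have h3 := (hAq u hu v hv hYu hYv).trans (min_le_right _ _)
      rw [Aq, Aq, hyu, Real.log_mul (Real.exp_pos _).ne' hyv.ne', Real.log_exp] at h3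
      have h4 := (abs_le.1 h3).1
      have h5 : 2 * s - ω' + Real.log (yp p' (f v)) ≤ Real.log (yp p' (f u)) := by linarith
      calc Real.exp (2 * s - ω') * yp p' (f v) =
          Real.exp (2 * s - ω' + Real.log (yp p' (f v))) := by rw [Real.exp_add, Real.exp_log hpv]
        _ ≤ Real.exp (Real.log (yp p' (f u))) := Real.exp_le_exp.2 h5
        _ = _ := Real.exp_log hpu
    -- a nearby point with small displacement
    obtain ⟨w₀, hw₀, hw₀u, hw₀B⟩ : ∃ w₀ ∈ Cone n, cc w₀ (f u) ≤ 1 + 1 / 1000 ∧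
        cc (B *ᵥ w₀) w₀ ≤ 1 + 1 / 1000 := by
      rcases le_total (yp p' (f v)) (yp p' (f u)) with hle | hle
      · obtain ⟨w₀, hw₀, hy₀, hc₀⟩ := exists_up hp.ne hp.isot hfv hle
        refine ⟨w₀, hw₀, ?_, ?_⟩
        · refine hvert p' (f v) (f u) hp.ne hp.isot hfv hfu s hs hxu ?_ w₀ hw₀ hy₀ hc₀
          refine le_trans (mul_le_mul_of_nonneg_right (Real.exp_le_exp.2 ?_) hpv.le) hlow
          linarith
        · refine (disp_up hBU hp.ne hp.isot hc' hBp hfv hw₀ (by rw [hy₀]; exact hle) ?_).trans hBv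
          rw [hy₀]
          exact hc₀
      · refine ⟨f v, hfv, ?_, hBv⟩
        have h3 : 2 * s ≤ ω' := by
          by_contra hcn
          rw [not_le] at hcn
          have h4 : 1 < Real.exp (2 * s - ω') := Real.one_lt_exp_iff.2 (by linarith)
          nlinarith
        refine hxu.trans (le_trans ?_ hωc)
        have h4 : Real.cosh s ≤ Real.cosh (ω' / 2) := by
          rw [Real.cosh_le_cosh, abs_of_nonneg hs, abs_of_nonneg (by positivity)]
          linarith
        exact pow_le_pow_left₀ (Real.cosh_pos s).le h4 2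
    have hBu := uj_mem hBU hfu
    have hBw := uj_mem hBU hw₀
    have h3 : dx (B *ᵥ f u) (f u) ≤ dx (B *ᵥ f u) (B *ᵥ w₀) * dx (B *ᵥ w₀) (f u) :=
      dx_tri hBu hBw hfu
    have h4 : dx (B *ᵥ w₀) (f u) ≤ dx (B *ᵥ w₀) w₀ * dx w₀ (f u) := dx_tri hBw hw₀ hfu
    rw [dx_uj hBU, dx_symm (f u) w₀] at h3
    have h5 := hsm hw₀u
    have h6 := hsm hw₀B
    have h7 := one_le_dx hw₀ hfu
    have h8 := one_le_dx hBw hw₀
    have h9 := one_le_dx hBw hfu
    have h10 : dx (B *ᵥ w₀) (f u) ≤ 104 / 100 * (104 / 100) :=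
      h4.trans (mul_le_mul h6 h5 (by linarith) (by norm_num))
    have h11 : dx (B *ᵥ f u) (f u) ≤ 104 / 100 * (104 / 100 * (104 / 100)) :=
      h3.trans (mul_le_mul h5 h10 (by linarith) (by norm_num))
    have h12 := cc_le_dx hBu hfu
    have h13 := one_le_dx hBu hfu
    have h14 : dx (B *ᵥ f u) (f u) ^ 2 ≤ (104 / 100 * (104 / 100 * (104 / 100))) ^ 2 :=
      pow_le_pow_left₀ (by linarith) h11 2
    norm_num at h14
    linarith

end Pool.Agent.Lib.MP_5d4057_al.RG
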