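import Pool.Agent.Lib.MP_5d4057_al.RG.CpG2
import Pool.Agent.Lib.MP_5d4057_al.RG.CpG3

/-!
# RG C4: polynomial growth of `ρ`
-/

set_option autoImplicit false

namespace Pool.Agent.Lib.MP_5d4057_al.RG

open Matrix Filter Topology Metric Pool.Agent.Lib.MP_5d4057_al Pool.Agent.Lib.MP_5d4057_al.Hyb
  Pool.Agent.Lib.MP_5d4057_al.HM Pool.Agent.Lib.MP_5d4057_al.HM.Kak Pool.Agent.Lib.MP_5d4057_al.NU

open scoped ComplexOrder MatrixOrder Matrix.Norms.L2Operator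

variable {m n : ℕ} {Γ : Subgroup (SUGroup m)} {ξ : Fin m → ℂ} {z : SUGroup m} {κ : ℝ}

theorem exists_grow (hm : 2 ≤ m) {χ : SUGroup m → ℝ} (hL : Lat Γ χ) (hT : TF Γ) (hTor : Tor Γ)
    {ρ : Γ →* Mat (n + 1)} (hU : UJ ρ) (hP : Prp ρ) : ∃ (N : ℕ) (C : ℝ), 0 < C ∧ Grow ρ N C := by
  refine grow_of_St hm hL hT hTor ρ fun ξ z κ hc => ?_
  obtain ⟨p', M, -, hp, -⟩ := exists_im hc hU hP
  exact grow_im hL.disc hc hU hp

end Pool.Agent.Lib.MP_5d4057_al.RG
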