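import Pool.Agent.Lib.MP_5d4057_al.RG.CpD

/-!
# RG C4a: products of elements preserving the horospheres
-/

set_option autoImplicit false

namespace Pool.Agent.Lib.MP_5d4057_al.RG

open Matrix Filter Topology Metric Pool.Agent.Lib.MP_5d4057_al Pool.Agent.Lib.MP_5d4057_al.Hyb
  Pool.Agent.Lib.MP_5d4057_al.HM Pool.Agent.Lib.MP_5d4057_al.HM.Kak Pool.Agent.Lib.MP_5d4057_al.NU

open scoped ComplexOrder MatrixOrder Matrix.Norms.L2Operator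

variable {m n : ℕ} {Γ : Subgroup (SUGroup m)} {ξ : Fin m → ℂ} {z : SUGroup m} {κ : ℝ}

private theorem cg_blk {ξ : Fin n → ℂ} (hξ : nq ξ = 1) {x : SUGroup n} (hx : x ∈ PS ξ) :
    P0 ξ * x.toMatrix * Pp ξ = 0 ∧ Pp (-ξ) * x.toMatrix * Pp ξ = 0 ∧
      Pp (-ξ) * x.toMatrix * P0 ξ = 0 :=
  block_zero hξ hξ ((mem_St hξ).1 (PS_le_St ξ hx))

private theorem cg_np {ξ : Fin n → ℂ} (hξ : nq ξ = 1) : nq (-ξ) = 1 := by rw [nq_neg, hξ]

private theorem cg_ins (ξ : Fin n → ℂ) (A B : Mat (n + 1)) :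
    A * B = A * Pp ξ * B + A * P0 ξ * B + A * Pp (-ξ) * B := by
  rw [← Matrix.add_mul, ← Matrix.add_mul, ← Matrix.mul_add, ← Matrix.mul_add, P_sum,
    Matrix.mul_one]

private theorem cg_D1 {ξ : Fin n → ℂ} (hξ : nq ξ = 1) (x : SUGroup n) :
    Dg ξ x * Pp ξ = Pp ξ * x.toMatrix * Pp ξ := by
  rw [Dg, Matrix.add_mul, Matrix.add_mul, Matrix.mul_assoc _ (Pp ξ) (Pp ξ),
    Matrix.mul_assoc _ (P0 ξ) (Pp ξ), Matrix.mul_assoc _ (Pp (-ξ)) (Pp ξ), Pp_mul_self hξ,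
    P0_mul_Pp ξ hξ, Pp_neg_mul ξ hξ, Matrix.mul_zero, Matrix.mul_zero, add_zero, add_zero]

private theorem cg_D2 {ξ : Fin n → ℂ} (hξ : nq ξ = 1) (x : SUGroup n) :
    Dg ξ x * P0 ξ = P0 ξ * x.toMatrix * P0 ξ := by
  have h := Pp_mul_P0 (-ξ) (cg_np hξ)
  rw [P0_neg] at h
  rw [Dg, Matrix.add_mul, Matrix.add_mul, Matrix.mul_assoc _ (Pp ξ) (P0 ξ),
    Matrix.mul_assoc _ (P0 ξ) (P0 ξ), Matrix.mul_assoc _ (Pp (-ξ)) (P0 ξ), P0_mul_self hξ,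
    Pp_mul_P0 ξ hξ, h, Matrix.mul_zero, Matrix.mul_zero, add_zero, zero_add]

private theorem cg_D3 {ξ : Fin n → ℂ} (hξ : nq ξ = 1) (x : SUGroup n) :
    P0 ξ * Dg ξ x = P0 ξ * x.toMatrix * P0 ξ := by
  have h := P0_mul_Pp (-ξ) (cg_np hξ)
  rw [P0_neg] at h
  rw [Dg, Matrix.mul_add, Matrix.mul_add, ← Matrix.mul_assoc, ← Matrix.mul_assoc,
    ← Matrix.mul_assoc, ← Matrix.mul_assoc, ← Matrix.mul_assoc, ← Matrix.mul_assoc,
    P0_mul_self hξ, P0_mul_Pp ξ hξ, h, Matrix.zero_mul, Matrix.zero_mul, Matrix.zero_mul,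
    add_zero, zero_add]

private theorem cg_D4 {ξ : Fin n → ℂ} (hξ : nq ξ = 1) (x : SUGroup n) :
    Pp (-ξ) * Dg ξ x = Pp (-ξ) * x.toMatrix * Pp (-ξ) := by
  have h := Pp_mul_P0 (-ξ) (cg_np hξ)
  rw [P0_neg] at h
  rw [Dg, Matrix.mul_add, Matrix.mul_add, ← Matrix.mul_assoc, ← Matrix.mul_assoc,
    ← Matrix.mul_assoc, ← Matrix.mul_assoc, ← Matrix.mul_assoc, ← Matrix.mul_assoc,
    Pp_mul_self (cg_np hξ), h, Pp_neg_mul ξ hξ, Matrix.zero_mul, Matrix.zero_mul,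
    Matrix.zero_mul, zero_add, zero_add]

private theorem cg_fl {ξ : Fin n → ℂ} (hξ : nq ξ = 1) {x : SUGroup n} (hx : x ∈ PS ξ)
    (A : Mat (n + 1)) : fro (Dg ξ x * A) = fro A := fro_unitary_mul (Dg_unitary hξ hx).1 A

private theorem cg_fr {ξ : Fin n → ℂ} (hξ : nq ξ = 1) {x : SUGroup n} (hx : x ∈ PS ξ)
    (A : Mat (n + 1)) : fro (A * Dg ξ x) = fro A := fro_mul_unitary (Dg_unitary hξ hx).2 A

private theorem cg_b {ξ : Fin n → ℂ} (hξ : nq ξ = 1) {x y : SUGroup n} (hx : x ∈ PS ξ)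
    (hy : y ∈ PS ξ) : fro (Pp ξ * (x * y).toMatrix * P0 ξ) ≤
      fro (Pp ξ * x.toMatrix * P0 ξ) + fro (Pp ξ * y.toMatrix * P0 ξ) := by
  have h1 : Pp ξ * (x * y).toMatrix * P0 ξ = Dg ξ x * (Pp ξ * y.toMatrix * P0 ξ) +
      (Pp ξ * x.toMatrix * P0 ξ) * Dg ξ y := by
    rw [toMatrix_mul, ← Matrix.mul_assoc, Matrix.mul_assoc, cg_ins ξ,
      Matrix.mul_assoc _ (Pp (-ξ)), ← Matrix.mul_assoc (Pp (-ξ)), (cg_blk hξ hy).2.2,
      Matrix.mul_zero, add_zero, ← Matrix.mul_assoc (Dg ξ x), ← Matrix.mul_assoc (Dg ξ x),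
      cg_D1 hξ, Matrix.mul_assoc _ _ (Dg ξ y), cg_D3 hξ]
    simp only [Matrix.mul_assoc]
  rw [h1]
  refine (fro_add_le _ _).trans ?_
  rw [cg_fl hξ hx, cg_fr hξ hy, add_comm]

private theorem cg_c {ξ : Fin n → ℂ} (hξ : nq ξ = 1) {x y : SUGroup n} (hx : x ∈ PS ξ)
    (hy : y ∈ PS ξ) : fro (P0 ξ * (x * y).toMatrix * Pp (-ξ)) ≤
      fro (P0 ξ * x.toMatrix * Pp (-ξ)) + fro (P0 ξ * y.toMatrix * Pp (-ξ)) := by
  have h1 : P0 ξ * (x * y).toMatrix * Pp (-ξ) = Dg ξ x * (P0 ξ * y.toMatrix * Pp (-ξ)) +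
      (P0 ξ * x.toMatrix * Pp (-ξ)) * Dg ξ y := by
    rw [toMatrix_mul, ← Matrix.mul_assoc, Matrix.mul_assoc, cg_ins ξ,
      (cg_blk hξ hx).1, Matrix.zero_mul, zero_add, ← Matrix.mul_assoc (Dg ξ x),
      ← Matrix.mul_assoc (Dg ξ x), cg_D2 hξ, Matrix.mul_assoc _ _ (Dg ξ y), cg_D4 hξ]
    simp only [Matrix.mul_assoc]
  rw [h1]
  refine (fro_add_le _ _).trans ?_
  rw [cg_fl hξ hx, cg_fr hξ hy, add_comm]

private theorem cg_mul (A B : Mat n) : fro (A * B) ≤ fro A * fro B :=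
  (fro_mul_le_left A B).trans (mul_le_mul_of_nonneg_right (norm_le_fro A) (fro_nonneg B))

private theorem cg_a {ξ : Fin n → ℂ} (hξ : nq ξ = 1) {x y : SUGroup n} (hx : x ∈ PS ξ)
    (hy : y ∈ PS ξ) : fro (Pp ξ * (x * y).toMatrix * Pp (-ξ)) ≤
      fro (Pp ξ * x.toMatrix * Pp (-ξ)) + fro (Pp ξ * y.toMatrix * Pp (-ξ)) +
        fro (Pp ξ * x.toMatrix * P0 ξ) * fro (P0 ξ * y.toMatrix * Pp (-ξ)) := by
  have h1 : Pp ξ * (x * y).toMatrix * Pp (-ξ) = Dg ξ x * (Pp ξ * y.toMatrix * Pp (-ξ)) +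
      (Pp ξ * x.toMatrix * P0 ξ) * (P0 ξ * y.toMatrix * Pp (-ξ)) +
      (Pp ξ * x.toMatrix * Pp (-ξ)) * Dg ξ y := by
    have h2 : (Pp ξ * x.toMatrix * P0 ξ) * (P0 ξ * y.toMatrix * Pp (-ξ)) =
        Pp ξ * x.toMatrix * P0 ξ * (y.toMatrix * Pp (-ξ)) := by
      rw [Matrix.mul_assoc (P0 ξ), ← Matrix.mul_assoc, Matrix.mul_assoc _ (P0 ξ) (P0 ξ),
        P0_mul_self hξ]
    rw [h2, toMatrix_mul, ← Matrix.mul_assoc, Matrix.mul_assoc, cg_ins ξ,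
      ← Matrix.mul_assoc (Dg ξ x), ← Matrix.mul_assoc (Dg ξ x), cg_D1 hξ,
      Matrix.mul_assoc _ _ (Dg ξ y), cg_D4 hξ]
    simp only [Matrix.mul_assoc]
  rw [h1]
  refine (fro_add_le _ _).trans ?_
  rw [cg_fr hξ hy]
  have h3 := fro_add_le (Dg ξ x * (Pp ξ * y.toMatrix * Pp (-ξ)))
    ((Pp ξ * x.toMatrix * P0 ξ) * (P0 ξ * y.toMatrix * Pp (-ξ)))
  rw [cg_fl hξ hx] at h3
  have h4 := cg_mul (Pp ξ * x.toMatrix * P0 ξ) (P0 ξ * y.toMatrix * Pp (-ξ))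
  linarith

/-- The matrix is the sum of its blocks. -/
private theorem cg_ch {ξ : Fin n → ℂ} (hξ : nq ξ = 1) {x : SUGroup n} (hx : x ∈ PS ξ) :
    ch x ≤ fro (1 : Mat (n + 1)) + fro (Pp ξ * x.toMatrix * P0 ξ) +
      fro (P0 ξ * x.toMatrix * Pp (-ξ)) + fro (Pp ξ * x.toMatrix * Pp (-ξ)) := by
  have h1 : x.toMatrix = Dg ξ x + Pp ξ * x.toMatrix * P0 ξ + P0 ξ * x.toMatrix * Pp (-ξ) +
      Pp ξ * x.toMatrix * Pp (-ξ) := by
    have h2 : x.toMatrix = (Pp ξ + P0 ξ + Pp (-ξ)) * x.toMatrix * (Pp ξ + P0 ξ + Pp (-ξ)) := by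
      rw [P_sum, Matrix.one_mul, Matrix.mul_one]
    obtain ⟨h3, h4, h5⟩ := cg_blk hξ hx
    conv_lhs => rw [h2]
    simp only [Matrix.add_mul, Matrix.mul_add]
    rw [h3, h4, h5, Dg]
    abel
  have h6 : fro (Dg ξ x) = fro (1 : Mat (n + 1)) := by
    have h := cg_fl hξ hx (1 : Mat (n + 1))
    rwa [Matrix.mul_one] at h
  have h7 := ch_le_fro x
  have h8 := fro_add_le (Dg ξ x + Pp ξ * x.toMatrix * P0 ξ + P0 ξ * x.toMatrix * Pp (-ξ))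
    (Pp ξ * x.toMatrix * Pp (-ξ))
  have h9 := fro_add_le (Dg ξ x + Pp ξ * x.toMatrix * P0 ξ) (P0 ξ * x.toMatrix * Pp (-ξ))
  have h10 := fro_add_le (Dg ξ x) (Pp ξ * x.toMatrix * P0 ξ)
  rw [← h1] at h8
  linarith

private theorem cg_ent (A B : Mat (n + 1)) (x : SUGroup n) :
    fro (A * x.toMatrix * B) ≤ ‖A‖ * ‖B‖ * (2 * Real.sqrt (n + 1)) * ch x := by
  refine (fro_mul_le_right _ _).trans ?_
  have h1 : fro (A * x.toMatrix) ≤ ‖A‖ * (2 * Real.sqrt (n + 1) * ch x) :=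
    (fro_mul_le_left _ _).trans (mul_le_mul_of_nonneg_left (fro_toMatrix_le x) (norm_nonneg _))
  refine (mul_le_mul_of_nonneg_right h1 (norm_nonneg B)).trans (le_of_eq ?_)
  ring

/-- Products of `l` elements of bounded size in the group preserving the horospheres grow at most quadratically. PROOF: for
`x ∈ PS ξ`, `e = base`, `p = NU.pe ξ`, `p⁻ = NU.pe (-ξ)`, `2 e = p + p⁻`: let `v₀(x) = P0 (x e)`, `a(x) = herm p⁻ (x e)`. Then `‖herm p (x e)‖ = 1`, `ch x ≤ (|a(x)| + 1)/2`,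
`|v₀(x y)| ≤ |v₀(x)| + |v₀(y)|` (norm of the definite form `q` on the range of `P0`), `|a(x y)| ≤ |a(x)| + |a(y)| + 1 + 2 |v₀(x)| |v₀(y)|`. (See the private
lemmas `rA`, `rb`, `P0_act` of NU/CuspK.) -/
theorem ps_prod {ξ : Fin n → ℂ} (hξ : nq ξ = 1) (K : ℝ) : ∃ C : ℝ, 0 < C ∧
    ∀ l : List (SUGroup n), (∀ s ∈ l, s ∈ PS ξ ∧ ch s ≤ K) →
      ch l.prod ≤ C * ((l.length : ℝ) + 1) ^ 2 := by
  have h0 : ∀ A B : Mat (n + 1), ∃ C : ℝ, 0 ≤ C ∧ ∀ x : SUGroup n, ch x ≤ K →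
      fro (A * x.toMatrix * B) ≤ C := by
    intro A B
    refine ⟨‖A‖ * ‖B‖ * (2 * Real.sqrt (n + 1)) * |K|, by positivity, fun x hx => ?_⟩
    refine (cg_ent A B x).trans ?_
    exact mul_le_mul_of_nonneg_left (hx.trans (le_abs_self K)) (by positivity)
  obtain ⟨B1, hB1, h1⟩ := h0 (Pp ξ) (P0 ξ)
  obtain ⟨B2, hB2, h2⟩ := h0 (P0 ξ) (Pp (-ξ))
  obtain ⟨B3, hB3, h3⟩ := h0 (Pp ξ) (Pp (-ξ))
  obtain ⟨B, hB⟩ : ∃ B : ℝ, B = B1 + B2 + B3 := ⟨_, rfl⟩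
  have hB0 : 0 ≤ B := by rw [hB]; positivity
  have hone : ∀ A C : Mat (n + 1), A * C = 0 → fro (A * (1 : SUGroup n).toMatrix * C) = 0 := by
    intro A C h
    rw [toMatrix_one, Matrix.mul_one, h, fro_eq_zero]
  have hQR : P0 ξ * Pp (-ξ) = 0 := by
    have h := P0_mul_Pp (-ξ) (cg_np hξ)
    rwa [P0_neg] at h
  have key : ∀ l : List (SUGroup n), (∀ s ∈ l, s ∈ PS ξ ∧ ch s ≤ K) → l.prod ∈ PS ξ ∧
      fro (Pp ξ * l.prod.toMatrix * P0 ξ) ≤ B * l.length ∧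
      fro (P0 ξ * l.prod.toMatrix * Pp (-ξ)) ≤ B * l.length ∧
      fro (Pp ξ * l.prod.toMatrix * Pp (-ξ)) ≤ B * l.length + B ^ 2 * (l.length : ℝ) ^ 2 := by
    intro l
    induction l with
    | nil =>
      intro _
      refine ⟨(PS ξ).one_mem, ?_, ?_, ?_⟩
      · rw [List.prod_nil, hone _ _ (Pp_mul_P0 ξ hξ)]
        positivity
      · rw [List.prod_nil, hone _ _ hQR]
        positivity
      · rw [List.prod_nil, hone _ _ (Pp_mul_neg ξ hξ)]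
        positivity
    | cons s l ih =>
      intro hl
      obtain ⟨hs, hsK⟩ := hl s List.mem_cons_self
      obtain ⟨i0, i1, i2, i3⟩ := ih fun x hx => hl x (List.mem_cons_of_mem _ hx)
      have e1 := h1 s hsK
      have e2 := h2 s hsK
      have e3 := h3 s hsK
      have f1 := cg_b hξ hs i0
      have f2 := cg_c hξ hs i0
      have f3 := cg_a hξ hs i0
      have g1 : B1 ≤ B := by linarith
      have g2 : B2 ≤ B := by linarith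
      have g3 : B3 ≤ B := by linarith
      rw [List.prod_cons, List.length_cons]
      push_cast
      refine ⟨(PS ξ).mul_mem hs i0, by linarith, by linarith, ?_⟩
      have g4 : fro (Pp ξ * s.toMatrix * P0 ξ) * fro (P0 ξ * l.prod.toMatrix * Pp (-ξ)) ≤
          B * (B * l.length) :=
        mul_le_mul (by linarith) i2 (fro_nonneg _) hB0
      have g5 : 0 ≤ B ^ 2 * (l.length : ℝ) := by positivity
      nlinarith [sq_nonneg B]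
  have hf := fro_nonneg (1 : Mat (n + 1))
  refine ⟨fro (1 : Mat (n + 1)) + 3 * B + B ^ 2 + 1, by positivity, fun l hl => ?_⟩
  obtain ⟨i0, i1, i2, i3⟩ := key l hl
  have h4 := cg_ch hξ i0
  have hl0 : (0 : ℝ) ≤ (l.length : ℝ) := Nat.cast_nonneg _
  have h5 : (1 : ℝ) ≤ ((l.length : ℝ) + 1) ^ 2 := by nlinarith
  have h6 : (l.length : ℝ) ≤ ((l.length : ℝ) + 1) ^ 2 := by nlinarith
  have h7 : (l.length : ℝ) ^ 2 ≤ ((l.length : ℝ) + 1) ^ 2 := by nlinarith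
  have h8 := mul_le_mul_of_nonneg_left h5 hf
  have h9 := mul_le_mul_of_nonneg_left h6 hB0
  have h10 := mul_le_mul_of_nonneg_left h7 (sq_nonneg B)
  nlinarith

end Pool.Agent.Lib.MP_5d4057_al.RG
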