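import Pool.Agent.Lib.MP_5d4057_al.RG.CpI
import Pool.Agent.Lib.MP_5d4057_al.RG.CpG1

/-!
# RG C4b: growth on a cusp group
-/

set_option autoImplicit false

namespace Pool.Agent.Lib.MP_5d4057_al.RG

open Matrix Filter Topology Metric Pool.Agent.Lib.MP_5d4057_al Pool.Agent.Lib.MP_5d4057_al.Hyb
  Pool.Agent.Lib.MP_5d4057_al.HM Pool.Agent.Lib.MP_5d4057_al.HM.Kak Pool.Agent.Lib.MP_5d4057_al.NU

open scoped ComplexOrder MatrixOrder Matrix.Norms.L2Operator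

variable {m n : ℕ} {Γ : Subgroup (SUGroup m)} {ξ : Fin m → ℂ} {z : SUGroup m} {κ : ℝ}

/-- Elements of `U(n,1)` are unit scalars times elements of `SU(n,1)`. -/
private theorem cg_su {A : Mat (n + 1)} (hA : Aᴴ * J n * A = J n) : ∃ (u : ℂ) (g : SUGroup n),
    ‖u‖ = 1 ∧ A = u • g.toMatrix := by
  have hJ : (J n).det ≠ 0 := by
    have h : J n * J n = 1 := J_mul_J n
    have h1 := congrArg Matrix.det h
    rw [det_mul, det_one] at h1
    intro h2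
    rw [h2, mul_zero] at h1
    exact zero_ne_one h1
  have hd : ‖A.det‖ = 1 := by
    have h := congrArg Matrix.det hA
    rw [det_mul, det_mul, det_conjTranspose] at h
    have h1 : (star A.det * A.det - 1) * (J n).det = 0 := by linear_combination h
    have h2 := (mul_eq_zero.1 h1).resolve_right hJ
    have h3 : star A.det * A.det = 1 := by linear_combination h2
    have h4 := congrArg norm h3
    rw [norm_mul, norm_star, norm_one] at h4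
    have h5 := norm_nonneg A.det
    nlinarith
  obtain ⟨u, hu⟩ := IsAlgClosed.exists_pow_nat_eq A.det (Nat.succ_pos n)
  have hu1 : ‖u‖ = 1 := by
    have h := congrArg norm hu
    rw [norm_pow, hd] at h
    exact (pow_eq_one_iff_of_nonneg (norm_nonneg u) (Nat.succ_ne_zero n)).1 h
  have hu0 : u ≠ 0 := by
    intro h
    rw [h, norm_zero] at hu1
    exact zero_ne_one hu1
  have hs : star u⁻¹ * u⁻¹ = 1 := by
    have h : star u⁻¹ * u⁻¹ = ((‖u⁻¹‖ ^ 2 : ℝ) : ℂ) := by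
      rw [RCLike.star_def, RCLike.conj_mul]
      simp
    rw [h, norm_inv, hu1]
    simp
  refine ⟨u, ofMatrix (u⁻¹ • A) ?_ ?_, hu1, ?_⟩
  · rw [det_smul, Fintype.card_fin, inv_pow, hu, inv_mul_cancel₀]
    intro h
    rw [h, norm_zero] at hd
    exact zero_ne_one hd
  · rw [conjTranspose_smul, Matrix.smul_mul, Matrix.smul_mul, Matrix.mul_smul, smul_smul, hA, hs,
      one_smul]
  · rw [toMatrix_ofMatrix, smul_smul, mul_inv_cancel₀ hu0, one_smul]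

/-- Growth on a cusp group. PROOF: `exists_unip`, `exists_word`: `δ = s_1 ⋯ s_l`, `s_i ∈ S` finite, `l ≤ C ch δ`. Each `ρ s_i` is a unit scalar times an element of
`SU(n,1)` (determinant) which is in `PS ξ'`, `ℂ p' = ℂ NU.pe ξ'` (`exists_pe`); `ps_prod` and `‖A‖ ≤ C (1 + |A_nn|)` (`uj_norm`). Finitely many
cosets as in `grow_St`. -/
theorem grow_im (hd : DiscreteTopology Γ) (hc : Cusp Γ ξ z κ) {ρ : Γ →* Mat (n + 1)} (hU : UJ ρ)
    {p' : Vec n} (hp : CuspIm ρ ξ p') : ∃ C : ℝ, 0 < C ∧ ∀ γ : Γ, (γ : SUGroup m) ∈ St ξ →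
      ‖ρ γ‖ ≤ C * ch (γ : SUGroup m) ^ 2 := by
  classical
  have hξ := hc.par.1
  obtain ⟨R, hR⟩ := hc.cob
  obtain ⟨Δ, hle, hfi, h1, R', hR'⟩ := exists_unip hd hc.par hR
  have hlΓ : Δ ≤ Γ := hle.trans inf_le_left
  have hdΔ : DiscreteTopology Δ :=
    DiscreteTopology.of_continuous_injective (continuous_inclusion hlΓ)
      (Set.inclusion_injective hlΓ)
  obtain ⟨S, C, hS, hSΔ, hw⟩ := exists_word hξ hdΔ (hle.trans inf_le_right) hR'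
  obtain ⟨hp0, ξ', hξ', hpe⟩ := exists_pe hp.ne hp.isot
  choose u g hu hg using fun γ : Γ => cg_su (hU γ)
  -- the representation on the whole group
  obtain ⟨T, hT⟩ : ∃ T : SUGroup m → Mat (n + 1), ∀ γ : Γ, T (γ : SUGroup m) = ρ γ :=
    ⟨fun x => if h : x ∈ Γ then ρ ⟨x, h⟩ else 0, fun γ => dif_pos γ.2⟩
  obtain ⟨G, hG⟩ : ∃ G : SUGroup m → SUGroup n, ∀ γ : Γ, G (γ : SUGroup m) = g γ :=
    ⟨fun x => if h : x ∈ Γ then g ⟨x, h⟩ else 1, fun γ => dif_pos γ.2⟩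
  have hTm : ∀ x ∈ Γ, ∀ y ∈ Γ, T (x * y) = T x * T y := by
    intro x hx y hy
    have h := map_mul ρ ⟨x, hx⟩ ⟨y, hy⟩
    rw [← hT, ← hT, ← hT] at h
    exact h
  have hT1 : T 1 = 1 := by
    have h := map_one ρ
    rw [← hT] at h
    exact h
  have hprod : ∀ l : List (SUGroup m), (∀ s ∈ l, s ∈ Γ) → ∃ c : ℂ, ‖c‖ = 1 ∧
      T l.prod = c • ((l.map G).prod).toMatrix := by
    intro l
    induction l with
    | nil =>
      intro _
      refine ⟨1, norm_one, ?_⟩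
      rw [List.map_nil, List.prod_nil, List.prod_nil, toMatrix_one, one_smul, hT1]
    | cons s l ih =>
      intro hl
      obtain ⟨c, hc1, hc2⟩ := ih fun x hx => hl x (List.mem_cons_of_mem _ hx)
      have hs : s ∈ Γ := hl s List.mem_cons_self
      have hlp : l.prod ∈ Γ := Γ.list_prod_mem fun x hx => hl x (List.mem_cons_of_mem _ hx)
      refine ⟨u ⟨s, hs⟩ * c, by rw [norm_mul, hu, hc1, one_mul], ?_⟩
      have h2 : T s = u ⟨s, hs⟩ • (G s).toMatrix := by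
        have h := hg ⟨s, hs⟩
        rw [← hT, ← hG] at h
        exact h
      rw [List.prod_cons, List.map_cons, List.prod_cons, hTm s hs _ hlp, hc2, h2, toMatrix_mul,
        smul_mul_smul_comm]
  have hGS : ∀ s ∈ S, G s ∈ PS ξ' := by
    intro s hs
    have hsΓ : s ∈ Γ := hlΓ (hSΔ s hs)
    obtain ⟨c, hc1, hc2⟩ := hp.fix ⟨s, hsΓ⟩ (PS_le_St ξ (hle (hSΔ s hs)).2)
    have hus := hu ⟨s, hsΓ⟩
    have hu0 : u ⟨s, hsΓ⟩ ≠ 0 := by
      intro h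
      rw [h, norm_zero] at hus
      exact zero_ne_one hus
    refine ⟨(u ⟨s, hsΓ⟩)⁻¹ * c, by rw [norm_mul, norm_inv, hus, hc1, inv_one, one_mul], ?_⟩
    have h3 := hg ⟨s, hsΓ⟩
    rw [← hG] at h3
    rw [h3, hpe, mulVec_smul, smul_mulVec, smul_comm c] at hc2
    have h4 := smul_right_injective (Vec n) hp0 hc2
    have h5 : (G s).toMatrix *ᵥ NU.pe ξ' = ((u ⟨s, hsΓ⟩)⁻¹ * c) • NU.pe ξ' := by
      rw [← smul_smul, eq_inv_smul_iff₀ hu0]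
      exact h4
    exact h5
  obtain ⟨K, hK⟩ := (hS.image fun s => ch (G s)).bddAbove
  have hK' : ∀ s ∈ S, ch (G s) ≤ K := fun s hs => hK (Set.mem_image_of_mem _ hs)
  obtain ⟨C₂, hC₂, hps⟩ := ps_prod hξ' K
  obtain ⟨C₃, hC₃⟩ : ∃ C₃ : ℝ, C₃ = 2 * Real.sqrt (n + 1) * C₂ * (|C| + 1) ^ 2 := ⟨_, rfl⟩
  have hC₃0 : 0 ≤ C₃ := by rw [hC₃]; positivity
  have hΔ : ∀ δ ∈ Δ, ‖T δ‖ ≤ C₃ * ch δ ^ 2 := by
    intro δ hδ
    obtain ⟨l, hl, hlδ, hlen⟩ := hw δ hδ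
    obtain ⟨c, hc1, hc2⟩ := hprod l fun s hs => hlΓ (hSΔ s (hl s hs))
    have hch := one_le_ch δ
    have h2 : ch (l.map G).prod ≤ C₂ * ((l.length : ℝ) + 1) ^ 2 := by
      have h := hps (l.map G) (by
        intro s hs
        obtain ⟨r, hr, rfl⟩ := List.mem_map.1 hs
        exact ⟨hGS r (hl r hr), hK' r (hl r hr)⟩)
      rwa [List.length_map] at h
    have h3 : (l.length : ℝ) + 1 ≤ (|C| + 1) * ch δ := by
      have h := mul_le_mul_of_nonneg_right (le_abs_self C) (zero_le_one.trans hch)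
      nlinarith
    have h4 : ‖T δ‖ = ‖((l.map G).prod).toMatrix‖ := by
      rw [← hlδ, hc2, norm_smul, hc1, one_mul]
    rw [h4]
    calc ‖((l.map G).prod).toMatrix‖ ≤ fro ((l.map G).prod).toMatrix := norm_le_fro _
      _ ≤ 2 * Real.sqrt (n + 1) * ch (l.map G).prod := fro_toMatrix_le _
      _ ≤ 2 * Real.sqrt (n + 1) * (C₂ * ((l.length : ℝ) + 1) ^ 2) := by gcongr
      _ ≤ 2 * Real.sqrt (n + 1) * (C₂ * ((|C| + 1) * ch δ) ^ 2) := by gcongr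
      _ = C₃ * ch δ ^ 2 := by rw [hC₃]; ring
  have hfin : Finite ((Γ ⊓ PS ξ : Subgroup (SUGroup m)) ⧸ Δ.subgroupOf (Γ ⊓ PS ξ)) :=
    Nat.finite_of_card_ne_zero hfi
  obtain ⟨M, hM⟩ := (Set.finite_range fun c : ((Γ ⊓ PS ξ : Subgroup (SUGroup m)) ⧸
    Δ.subgroupOf (Γ ⊓ PS ξ)) => ‖T (c.out : SUGroup m)‖ *
      (C₃ * (2 * ch (c.out : SUGroup m)) ^ 2)).bddAbove
  refine ⟨|M| + 1, by positivity, ?_⟩
  rintro ⟨γ, hγ⟩ hs
  have hγ' : γ ∈ Γ ⊓ PS ξ := ⟨hγ, hc.par.2 γ hγ hs⟩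
  obtain ⟨c, hcdef⟩ : ∃ c : ((Γ ⊓ PS ξ : Subgroup (SUGroup m)) ⧸ Δ.subgroupOf (Γ ⊓ PS ξ)),
    c = QuotientGroup.mk ⟨γ, hγ'⟩ := ⟨_, rfl⟩
  have hout : (QuotientGroup.mk c.out : ((Γ ⊓ PS ξ : Subgroup (SUGroup m)) ⧸
      Δ.subgroupOf (Γ ⊓ PS ξ))) = QuotientGroup.mk ⟨γ, hγ'⟩ := by
    rw [QuotientGroup.out_eq', hcdef]
  have hδ : (c.out : SUGroup m)⁻¹ * γ ∈ Δ := by
    have := QuotientGroup.eq.1 hout
    rw [Subgroup.mem_subgroupOf] at this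
    exact this
  have hMc : ‖T (c.out : SUGroup m)‖ * (C₃ * (2 * ch (c.out : SUGroup m)) ^ 2) ≤ |M| :=
    (hM (Set.mem_range_self c)).trans (le_abs_self M)
  have hrΓ : (c.out : SUGroup m) ∈ Γ := c.out.2.1
  obtain ⟨r, hr⟩ : ∃ r : SUGroup m, r = (c.out : SUGroup m) := ⟨_, rfl⟩
  rw [← hr] at hδ hMc hrΓ
  have e1 : ρ ⟨γ, hγ⟩ = T r * T (r⁻¹ * γ) := by
    rw [← hTm r hrΓ _ (hlΓ hδ), mul_inv_cancel_left, ← hT]
  have e2 := hΔ _ hδ
  have e3 := ch_mul_le' r⁻¹ γ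
  rw [ch_inv] at e3
  have hch := one_le_ch γ
  have hchr := one_le_ch r
  have hchd := one_le_ch (r⁻¹ * γ)
  rw [e1]
  calc ‖T r * T (r⁻¹ * γ)‖
      ≤ ‖T r‖ * ‖T (r⁻¹ * γ)‖ := norm_mul_le _ _
    _ ≤ ‖T r‖ * (C₃ * (2 * ch r * ch γ) ^ 2) := by gcongr; exact e2.trans (by gcongr)
    _ = ‖T r‖ * (C₃ * (2 * ch r) ^ 2) * ch γ ^ 2 := by ring
    _ ≤ |M| * ch γ ^ 2 := by gcongr
    _ ≤ (|M| + 1) * ch γ ^ 2 := by gcongr; linarith

end Pool.Agent.Lib.MP_5d4057_al.RG
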