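import Pool.Agent.Lib.MP_5d4057_al.RG.CpD
import Pool.Agent.Lib.MP_5d4057_al.NU.ThmL

/-!
# RG C5a: the harmonic metric
-/

set_option autoImplicit false

namespace Pool.Agent.Lib.MP_5d4057_al.RG

open Matrix Filter Topology Metric Pool.Agent.Lib.MP_5d4057_al Pool.Agent.Lib.MP_5d4057_al.Hyb
  Pool.Agent.Lib.MP_5d4057_al.HM Pool.Agent.Lib.MP_5d4057_al.HM.Kak Pool.Agent.Lib.MP_5d4057_al.NU
  Pool.Agent.Lib.MP_5d4057_al.RC

open scoped ComplexOrder MatrixOrder Matrix.Norms.L2Operator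

variable {m n : ℕ} {Γ : Subgroup (SUGroup m)}

/-- `exists_harm_N` with the height function `hty`, and `harmG_of_lip`. -/
theorem exists_harmG_N (hm : 2 ≤ m) {χ : SUGroup m → ℝ} (hL : Lat Γ χ) (hT : TF Γ) (hTor : Tor Γ)
    {k : ℕ} (hk : 0 < k) (ρ : Γ →* Mat k) {N : ℕ} {C : ℝ} (hg : Grow ρ N C)
    (hρ : Submodule.span ℂ (Set.range ρ) = ⊤) : ∃ F : Vec m → Mat k, HarmG F ∧ Equi ρ F := by
  obtain ⟨F, h1, h2, N', C', h3⟩ := exists_harm_N (by omega) hk hL (ht_hty hm hL hT hTor) ρ hg hρ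
  exact ⟨F, harmG_of_lip h1 h3, h2⟩

end Pool.Agent.Lib.MP_5d4057_al.RG
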