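import Pool.Agent.Lib.MP_5d4057_al.RG.CpD
import Pool.Agent.Lib.MP_5d4057_al.NU.ThmL
import Pool.Agent.Lib.MP_5d4057_al.RG.Rank

/-!
# RG C5b: a point where no direction is degenerate

On the slice `v_last = 1` (the ball) let `W₀ = tr F - |z|²`. If `W₀` attains its infimum, the proof of `exists_full`
applies. Otherwise `W₀` attains its infimum `μ` over `{hty ≤ 64}` and `W₀ < μ` at some point `g₁`; for small
`δ` the function `W = W₀ + δ max (log (hty/64)) 0` satisfies `W < μ` at `g₁` and is proper, so it attains its minimum, at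
a point where `hty > 64`. Near this point `hty = yp p` and the Levi form of `log (yp p)` is `≤ 0`.
-/

set_option autoImplicit false

namespace Pool.Agent.Lib.MP_5d4057_al.RG

open Matrix Filter Topology Metric Pool.Agent.Lib.MP_5d4057_al Pool.Agent.Lib.MP_5d4057_al.Hyb
  Pool.Agent.Lib.MP_5d4057_al.HM Pool.Agent.Lib.MP_5d4057_al.HM.Kak Pool.Agent.Lib.MP_5d4057_al.NU
  Pool.Agent.Lib.MP_5d4057_al.RC

open scoped ComplexOrder MatrixOrder Matrix.Norms.L2Operator

variable {m n : ℕ} {Γ : Subgroup (SUGroup m)}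

private theorem fn_algMap {k : ℕ} (r : ℝ) : algebraMap ℝ (Mat k) r = (r : ℂ) • (1 : Mat k) := by
  rw [Algebra.algebraMap_eq_smul_one]
  rfl

private theorem fn_norm_sq_le {k : ℕ} {H A : Mat k} (hH : H.PosDef) {C : ℝ} (hC : 0 < C)
    (h : ‖H⁻¹‖ ≤ C) : ‖A‖ ^ 2 ≤ C * (A * H * Aᴴ).trace.re := by
  have h1 : H⁻¹ ≤ (C : ℂ) • (1 : Mat k) := by
    have h2 := (CStarAlgebra.norm_le_iff_le_algebraMap H⁻¹ hC.le hH.inv.posSemidef.nonneg).1 h
    rwa [fn_algMap] at h2
  have h2 : ((C : ℂ) • (1 : Mat k))⁻¹ ≤ H := by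
    have h3 := inv_le_inv_of_le hH.inv h1
    rwa [nonsing_inv_nonsing_inv H ((isUnit_iff_isUnit_det H).1 hH.isUnit)] at h3
  have hC0 : (C : ℂ) ≠ 0 := by exact_mod_cast hC.ne'
  have h3 : ((C : ℂ) • (1 : Mat k))⁻¹ = ((C⁻¹ : ℝ) : ℂ) • (1 : Mat k) := by
    refine inv_eq_right_inv ?_
    rw [smul_mul_smul_comm, Matrix.one_mul, Complex.ofReal_inv, mul_inv_cancel₀ hC0, one_smul]
  rw [h3] at h2
  have h4 := le_trace_mul (posSemidef_conjTranspose_mul_self A) h2
  have h5 : (H * (Aᴴ * A)).trace = (A * H * Aᴴ).trace := by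
    rw [← Matrix.mul_assoc, Matrix.trace_mul_comm, ← Matrix.mul_assoc]
  rw [h5] at h4
  have h6 := norm_le_trace (posSemidef_conjTranspose_mul_self A)
  have h7 : ‖Aᴴ * A‖ = ‖A‖ * ‖A‖ := CStarRing.norm_star_mul_self
  rw [h7] at h6
  rw [inv_mul_le_iff₀ hC] at h4
  nlinarith

/-- Sublevel sets of the trace are compact on sets which are compact modulo `Γ`. -/
private theorem fn_compact {ρ : Γ →* Mat (n + 1)} (hP : Prp ρ) {F : Vec m → Mat (n + 1)}
    (hF : Harm F) (hFe : Equi ρ F) {K₀ : Set (SUGroup m)} (hK₀ : IsCompact K₀) (M : ℝ) :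
    ∃ K : Set (SUGroup m), IsCompact K ∧ ∀ g : SUGroup m, (∃ γ ∈ Γ, γ * g ∈ K₀) →
      (F (act g (base m))).trace.re ≤ M → g ∈ K := by
  have hci : Continuous fun g : SUGroup m => (F (act g (base m)))⁻¹ :=
    hF.inv.cd.continuousOn.comp_continuous continuous_orbit orbit_mem
  obtain ⟨C, hC⟩ := hK₀.exists_bound_of_continuousOn hci.continuousOn
  set C' := |C| + 1 with hC'
  have hC'0 : 0 < C' := by positivity
  have hfin := hP (C' * M + 1)
  refine ⟨⋃ γ ∈ {γ : Γ | ‖ρ γ‖ ≤ C' * M + 1}, (fun x : SUGroup m => (γ : SUGroup m) * x) '' K₀,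
    hfin.isCompact_biUnion fun γ _ => hK₀.image (continuous_const.mul continuous_id), ?_⟩
  rintro g ⟨γ, hγ, hγg⟩ hg
  set δ : Γ := ⟨γ⁻¹, Γ.inv_mem hγ⟩ with hδ
  have h1 := hFe δ _ (orbit_mem (γ * g))
  have h2 : act (δ : SUGroup m) (act (γ * g) (base m)) = act g (base m) := by
    rw [← act_mul, hδ]
    show act (γ⁻¹ * (γ * g)) (base m) = _
    rw [inv_mul_cancel_left]
  rw [h2] at h1
  have h3 : ‖ρ δ‖ ^ 2 ≤ C' * (F (act g (base m))).trace.re := by
    rw [h1]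
    refine fn_norm_sq_le (hF.pos _ (orbit_mem _)) hC'0 ((hC _ hγg).trans ?_)
    rw [hC']
    linarith [le_abs_self C]
  have h4 : C' * (F (act g (base m))).trace.re ≤ C' * M := mul_le_mul_of_nonneg_left hg hC'0.le
  have h5 : ‖ρ δ‖ ≤ C' * M + 1 := by nlinarith [sq_nonneg (‖ρ δ‖ - 1), norm_nonneg (ρ δ)]
  refine Set.mem_biUnion (x := δ) h5 ⟨γ * g, hγg, ?_⟩
  show γ⁻¹ * (γ * g) = g
  rw [inv_mul_cancel_left]

/-- The second derivative of `T ∘ F`. -/
private theorem fn_clm {E E' : Type} [NormedAddCommGroup E] [NormedSpace ℝ E]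
    [NormedAddCommGroup E'] [NormedSpace ℝ E'] (T : E →L[ℝ] E') {F : Vec m → E} {v : Vec m}
    (h : ContDiffAt ℝ 2 F v) (a b : Vec m) :
    fderiv ℝ (fderiv ℝ fun w => T (F w)) v a b = T (fderiv ℝ (fderiv ℝ F) v a b) := by
  have hD : DifferentiableAt ℝ (fderiv ℝ F) v :=
    (h.fderiv_right (m := 1) (by norm_num)).differentiableAt (by norm_num)
  have h1 : HasFDerivAt (fun w => (ContinuousLinearMap.compL ℝ (Vec m) E E' T) (fderiv ℝ F w))
      ((ContinuousLinearMap.compL ℝ (Vec m) E E' T).comp (fderiv ℝ (fderiv ℝ F) v)) v :=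
    (ContinuousLinearMap.compL ℝ (Vec m) E E' T).hasFDerivAt.comp v hD.hasFDerivAt
  have h2 : fderiv ℝ (fun w => T (F w)) =ᶠ[𝓝 v] fun w =>
      (ContinuousLinearMap.compL ℝ (Vec m) E E' T) (fderiv ℝ F w) := by
    filter_upwards [h.eventually (by simp)] with w hw
    exact (T.hasFDerivAt.comp w (hw.differentiableAt (by norm_num)).hasFDerivAt).fderiv
  rw [h2.fderiv_eq, h1.fderiv]
  rfl

private theorem fn_mixed {E : Type} [NormedAddCommGroup E] [NormedSpace ℂ E] {F : Vec m → E}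
    {v : Vec m} (h : ContDiffAt ℝ 2 F v) (ξ : Vec m) :
    (4 : ℂ) • pz (fun w => pb F w ξ) v ξ = fderiv ℝ (fderiv ℝ F) v ξ ξ +
      fderiv ℝ (fderiv ℝ F) v (Complex.I • ξ) (Complex.I • ξ) := by
  have hs : ∀ a b : Vec m, fderiv ℝ (fderiv ℝ F) v a b = fderiv ℝ (fderiv ℝ F) v b a :=
    fun a b => (h.isSymmSndFDerivAt (by simp)).eq a b
  have e1 : ∀ a : Vec m, fderiv ℝ (fun w => pb F w ξ) v a = (1 / 2 : ℂ) •
      (fderiv ℝ (fderiv ℝ F) v a ξ + Complex.I • fderiv ℝ (fderiv ℝ F) v a (Complex.I • ξ)) := by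
    intro a
    rw [(hasFDerivAt_pb h ξ).fderiv]
    rfl
  rw [pz, e1, e1, hs (Complex.I • ξ) ξ]
  generalize fderiv ℝ (fderiv ℝ F) v ξ ξ = x
  generalize fderiv ℝ (fderiv ℝ F) v ξ (Complex.I • ξ) = y
  generalize fderiv ℝ (fderiv ℝ F) v (Complex.I • ξ) (Complex.I • ξ) = z
  have hI : Complex.I • (1 / 2 : ℂ) • (y + Complex.I • z) =
      (1 / 2 : ℂ) • (Complex.I • y - z) := by
    rw [smul_comm, smul_add, II_smul, sub_eq_add_neg]
  rw [hI]
  module

/-- The second derivative test on a line. -/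
private theorem fn_line {U : Vec m → ℝ} {v ξ : Vec m} (hU : ContDiffAt ℝ 2 U v)
    {A B C δ a b c : ℝ} (ha : 0 < a)
    (hm : IsLocalMax (fun t : ℝ => (A + 2 * t * B + t ^ 2 * C) +
      δ * Real.log (a + 2 * t * b + t ^ 2 * c) - U (v + t • ξ)) 0) :
    2 * C + δ * ((2 * c * a - 4 * b ^ 2) / a ^ 2) ≤ fderiv ℝ (fderiv ℝ U) v ξ ξ := by
  have hl : ContDiff ℝ 2 fun t : ℝ => v + t • ξ := by fun_prop
  have hU0 : ContDiffAt ℝ 2 U (v + (0 : ℝ) • ξ) := by
    rw [zero_smul, add_zero]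
    exact hU
  have hG : ContDiffAt ℝ 2 (fun t : ℝ => U (v + t • ξ)) 0 := hU0.comp (0 : ℝ) hl.contDiffAt
  have hg0 : a + 2 * (0 : ℝ) * b + (0 : ℝ) ^ 2 * c = a := by ring
  have hne : a + 2 * (0 : ℝ) * b + (0 : ℝ) ^ 2 * c ≠ 0 := by
    rw [hg0]
    exact ha.ne'
  have hgc : ContDiffAt ℝ 2 (fun t : ℝ => a + 2 * t * b + t ^ 2 * c) 0 := by fun_prop
  have hP : ContDiffAt ℝ 2 (fun t : ℝ => A + 2 * t * B + t ^ 2 * C) 0 := by fun_prop
  have hQ : ContDiffAt ℝ 2 (fun t : ℝ => (A + 2 * t * B + t ^ 2 * C) +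
      δ * Real.log (a + 2 * t * b + t ^ 2 * c)) 0 := by
    refine hP.add (contDiffAt_const.mul ?_)
    exact hgc.log hne
  have h1 := deriv_two_nonpos hm (hQ.sub hG).continuousAt
  have h2 : deriv (deriv fun t : ℝ => (A + 2 * t * B + t ^ 2 * C) +
      δ * Real.log (a + 2 * t * b + t ^ 2 * c) - U (v + t • ξ)) 0 =
      iteratedDeriv 2 (fun t : ℝ => (A + 2 * t * B + t ^ 2 * C) +
      δ * Real.log (a + 2 * t * b + t ^ 2 * c) - U (v + t • ξ)) 0 := by
    rw [iteratedDeriv_succ, iteratedDeriv_one]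
  have hpoly : ∀ (a b c t : ℝ), HasDerivAt (fun t : ℝ => a + 2 * t * b + t ^ 2 * c)
      (2 * b + 2 * t * c) t := by
    intro a b c t
    have h5 : HasDerivAt (fun t : ℝ => a + 2 * t * b + t ^ 2 * c)
        (0 + 2 * 1 * b + (2 * t ^ (2 - 1) * 1) * c) t :=
      ((hasDerivAt_const t a).add (((hasDerivAt_id t).const_mul 2).mul_const b)).add
        (((hasDerivAt_id t).pow 2).mul_const c)
    have e : 0 + 2 * 1 * b + (2 * t ^ (2 - 1) * 1) * c = 2 * b + 2 * t * c := by ring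
    rwa [e] at h5
  have h3 : iteratedDeriv 2 (fun t : ℝ => (A + 2 * t * B + t ^ 2 * C) +
      δ * Real.log (a + 2 * t * b + t ^ 2 * c)) 0 =
      2 * C + δ * ((2 * c * a - 4 * b ^ 2) / a ^ 2) := by
    rw [iteratedDeriv_succ, iteratedDeriv_one]
    have hpos : ∀ᶠ t in 𝓝 (0 : ℝ), a + 2 * t * b + t ^ 2 * c ≠ 0 :=
      hgc.continuousAt.eventually_ne hne
    have h4 : (deriv fun t : ℝ => (A + 2 * t * B + t ^ 2 * C) +
        δ * Real.log (a + 2 * t * b + t ^ 2 * c)) =ᶠ[𝓝 0]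
        fun t : ℝ => (2 * B + 2 * t * C) + δ * ((2 * b + 2 * t * c) /
          (a + 2 * t * b + t ^ 2 * c)) := by
      filter_upwards [hpos] with t ht
      exact ((hpoly A B C t).add (((hpoly a b c t).log ht).const_mul δ)).deriv
    rw [h4.deriv_eq]
    have h5 : HasDerivAt (fun t : ℝ => 2 * B + 2 * t * C) (2 * C) 0 := by
      have h6 : HasDerivAt (fun t : ℝ => 2 * B + 2 * t * C) (2 * 1 * C) 0 :=
        (((hasDerivAt_id (0 : ℝ)).const_mul 2).mul_const C).const_add (2 * B)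
      rwa [mul_one] at h6
    have h6 : HasDerivAt (fun t : ℝ => 2 * b + 2 * t * c) (2 * c) 0 := by
      have h6 : HasDerivAt (fun t : ℝ => 2 * b + 2 * t * c) (2 * 1 * c) 0 :=
        (((hasDerivAt_id (0 : ℝ)).const_mul 2).mul_const c).const_add (2 * b)
      rwa [mul_one] at h6
    have h7 := h5.add ((h6.div (hpoly a b c 0) hne).const_mul δ)
    refine h7.deriv.trans ?_
    rw [hg0]
    ring
  have h4 : iteratedDeriv 2 (fun t : ℝ => U (v + t • ξ)) 0 = fderiv ℝ (fderiv ℝ U) v ξ ξ := by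
    rw [iteratedDeriv_succ, iteratedDeriv_one, fderiv_fderiv_line hU]
  rw [h2, iteratedDeriv_fun_sub hQ hG, h3, h4] at h1
  linarith

/-- The trace as a real linear function. -/
private noncomputable def fnT (k : ℕ) : Mat k →L[ℝ] ℝ :=
  Complex.reCLM.comp (LinearMap.toContinuousLinearMap
    ((Matrix.traceLinearMap (Fin k) ℂ ℂ).restrictScalars ℝ))

private theorem fnT_apply {k : ℕ} (A : Mat k) : fnT k A = A.trace.re := rfl

private theorem fn_herm_line (p v ξ : Vec m) (t : ℝ) : ‖herm (v + t • ξ) p‖ ^ 2 =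
    ‖herm v p‖ ^ 2 + 2 * t * (star (herm v p) * herm ξ p).re + t ^ 2 * ‖herm ξ p‖ ^ 2 := by
  have h1 : herm (v + t • ξ) p = herm v p + (t : ℂ) * herm ξ p := by
    have h2 : (t • ξ : Vec m) = (t : ℂ) • ξ := by
      funext i
      simp
    rw [herm_add_left, h2, herm_smul_left, Complex.star_def, Complex.conj_ofReal]
  rw [h1, ← Complex.normSq_eq_norm_sq, ← Complex.normSq_eq_norm_sq, ← Complex.normSq_eq_norm_sq]
  simp only [Complex.normSq_apply, Complex.add_re, Complex.add_im, Complex.mul_re, Complex.mul_im,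
    Complex.ofReal_re, Complex.ofReal_im, Complex.star_def, Complex.conj_re, Complex.conj_im]
  ring

/-- The local statement. -/
private theorem fn_local {F : Vec m → Mat (n + 1)} (hF : Harm F) {v₀ p : Vec m} (hv₀ : v₀ ∈ Cone m)
    (hl : v₀ (Fin.last m) = 1) {δ : ℝ} (hδ : 0 ≤ δ) (hp : herm v₀ p ≠ 0)
    (hmin : ∀ᶠ v in 𝓝 v₀, v (Fin.last m) = 1 →
      fnT (n + 1) (F v₀) - (1 + q v₀) + δ * Real.log (yp p v₀) ≤
        fnT (n + 1) (F v) - (1 + q v) + δ * Real.log (yp p v)) (ξ : Vec m) (hξ : pz F v₀ ξ = 0) :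
    ∃ c : ℂ, ξ = c • v₀ := by
  set U : Vec m → ℝ := fun w => fnT (n + 1) (F w) with hUd
  have hFc : ContDiffAt ℝ 2 F v₀ := hF.cda hv₀
  have hUc : ContDiffAt ℝ 2 U v₀ := (fnT (n + 1)).contDiff.contDiffAt.comp v₀ hFc
  have hq0 : 0 < -q v₀ := by
    have : q v₀ < 0 := hv₀
    linarith
  have hn0 : 0 < ‖herm v₀ p‖ ^ 2 := pow_pos (norm_pos_iff.2 hp) 2
  have key : ∀ ξ : Vec m, ξ (Fin.last m) = 0 →
      2 * (q ξ * (1 + δ / (-q v₀))) + δ * ((2 * ‖herm ξ p‖ ^ 2 * ‖herm v₀ p‖ ^ 2 -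
        4 * (star (herm v₀ p) * herm ξ p).re ^ 2) / (‖herm v₀ p‖ ^ 2) ^ 2) ≤
          fderiv ℝ (fderiv ℝ U) v₀ ξ ξ := by
    intro ξ hξ
    refine fn_line (A := U v₀ - δ * Real.log (‖herm v₀ p‖ ^ 2))
      (B := (herm v₀ ξ).re * (1 + δ / (-q v₀))) hUc hn0 ?_
    have hcl : Continuous fun t : ℝ => v₀ + t • ξ := by fun_prop
    have h0 : Tendsto (fun t : ℝ => v₀ + t • ξ) (𝓝 0) (𝓝 v₀) := by
      have := hcl.tendsto 0
      simpa using this
    have hne : ∀ᶠ t in 𝓝 (0 : ℝ), herm (v₀ + t • ξ) p ≠ 0 := by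
      have h1 : Continuous fun t : ℝ => ‖herm (v₀ + t • ξ) p‖ ^ 2 := by
        simp only [fn_herm_line]
        fun_prop
      have h2 := h1.tendsto 0
      rw [zero_smul, add_zero] at h2
      filter_upwards [h2.eventually (lt_mem_nhds hn0)] with t ht h3
      rw [h3, norm_zero] at ht
      norm_num at ht
    filter_upwards [h0.eventually (mem_nhds_cone hv₀), h0.eventually hmin, hne] with t ht h1 h2
    have h3 : (v₀ + t • ξ) (Fin.last m) = 1 := by
      rw [Pi.add_apply, Pi.smul_apply, hl, hξ, smul_zero, add_zero]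
    have h4 := h1 h3
    have hqt : 0 < -q (v₀ + t • ξ) := by
      have : q (v₀ + t • ξ) < 0 := ht
      linarith
    have hnt : 0 < ‖herm (v₀ + t • ξ) p‖ ^ 2 := pow_pos (norm_pos_iff.2 h2) 2
    rw [yp, yp, Real.log_div hq0.ne' hn0.ne', Real.log_div hqt.ne' hnt.ne'] at h4
    have h5 : Real.log (-q (v₀ + t • ξ)) ≤ Real.log (-q v₀) +
        (-q (v₀ + t • ξ) - -q v₀) / (-q v₀) := by
      have h6 := Real.log_le_sub_one_of_pos (div_pos hqt hq0)
      rw [Real.log_div hqt.ne' hq0.ne'] at h6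
      have h7 : (-q (v₀ + t • ξ) - -q v₀) / (-q v₀) = -q (v₀ + t • ξ) / -q v₀ - 1 := by
        rw [sub_div, div_self hq0.ne']
      rw [h7]
      linarith
    have h6 := mul_le_mul_of_nonneg_left h5 hδ
    rw [lk_q_line] at h4 h6
    rw [← fn_herm_line]
    have h7 : δ * (Real.log (-q v₀) + (-(q v₀ + 2 * t * (herm v₀ ξ).re + t ^ 2 * q ξ) - -q v₀) /
        -q v₀) = δ * Real.log (-q v₀) - (2 * t * (herm v₀ ξ).re + t ^ 2 * q ξ) *
          (δ / (-q v₀)) := by
      field_simp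
      ring
    rw [h7] at h6
    simp only [zero_smul, add_zero]
    have h8 : U v₀ - δ * Real.log (‖herm v₀ p‖ ^ 2) + 2 * 0 *
        ((herm v₀ ξ).re * (1 + δ / -q v₀)) + 0 ^ 2 * (q ξ * (1 + δ / -q v₀)) +
        δ * Real.log (‖herm v₀ p‖ ^ 2) - U v₀ = 0 := by ring
    have e0 : ‖herm v₀ p‖ ^ 2 + 2 * 0 * (star (herm v₀ p) * herm ξ p).re + 0 ^ 2 * ‖herm ξ p‖ ^ 2 =
        ‖herm v₀ p‖ ^ 2 := by ring
    rw [e0, h8]
    have h9 : U (v₀ + t • ξ) = fnT (n + 1) (F (v₀ + t • ξ)) := rfl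
    have h10 : U v₀ = fnT (n + 1) (F v₀) := rfl
    rw [h9, h10]
    nlinarith
  refine ⟨ξ (Fin.last m), ?_⟩
  set η : Vec m := ξ + (-ξ (Fin.last m)) • v₀ with hη
  have hηl : η (Fin.last m) = 0 := by
    rw [hη, Pi.add_apply, Pi.smul_apply, hl, smul_eq_mul]
    ring
  have hpzv : pz F v₀ v₀ = 0 := by
    have h1 := homog_fderiv hF.hom hv₀ (hF.diff hv₀) 1
    rw [one_smul] at h1
    rw [pz, h1, homog_fderiv hF.hom hv₀ (hF.diff hv₀), smul_zero, sub_zero, smul_zero]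
  have hpz : pz F v₀ η = 0 := by
    rw [hη, pz_add_dir, pz_smul_dir, hξ, hpzv, smul_zero, add_zero]
  have hη0 : η = 0 := by
    by_contra hne
    have hq : 0 < q η := by
      have h1 : q η = ∑ i : Fin m, ‖η i.castSucc‖ ^ 2 := by
        rw [q_eq, hηl, norm_zero]
        ring
      rw [h1]
      by_contra h2
      have h3 : ∑ i : Fin m, ‖η i.castSucc‖ ^ 2 = 0 :=
        le_antisymm (not_lt.1 h2) (Finset.sum_nonneg fun i _ => by positivity)
      apply hne
      funext j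
      refine Fin.lastCases hηl (fun i => ?_) j
      have h4 := (Finset.sum_eq_zero_iff_of_nonneg (fun _ _ => by positivity)).1 h3 i
        (Finset.mem_univ i)
      exact norm_eq_zero.1 (pow_eq_zero_iff two_ne_zero |>.1 h4)
    have h1 := key η hηl
    have h2 := key (Complex.I • η) (by rw [Pi.smul_apply, hηl, smul_zero])
    have h3 : q (Complex.I • η) = q η := by
      rw [q_smul, Complex.norm_I]
      ring
    have h3' : herm (Complex.I • η) p = -Complex.I * herm η p := by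
      rw [herm_smul_left, Complex.star_def, Complex.conj_I]
    have h3'' : ‖-Complex.I * herm η p‖ = ‖herm η p‖ := by
      rw [norm_mul, norm_neg, Complex.norm_I, one_mul]
    rw [h3, h3', h3''] at h2
    have h4 : fderiv ℝ (fderiv ℝ F) v₀ η η +
        fderiv ℝ (fderiv ℝ F) v₀ (Complex.I • η) (Complex.I • η) = 0 := by
      rw [← fn_mixed hFc η]
      have h5 := hF.ph v₀ hv₀ η η
      have h6 : dz F v₀ η = 0 := hpz
      rw [h6] at h5
      have h7 : pz (fun w => pb F w η) v₀ η = 0 := by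
        refine Eq.trans h5 ?_
        simp
      rw [h7, smul_zero]
    have h5 : fderiv ℝ (fderiv ℝ U) v₀ η η +
        fderiv ℝ (fderiv ℝ U) v₀ (Complex.I • η) (Complex.I • η) = 0 := by
      rw [hUd, fn_clm _ hFc, fn_clm _ hFc, ← map_add, h4, map_zero]
    have h6 : (star (herm v₀ p) * herm η p).re ^ 2 +
        (star (herm v₀ p) * (-Complex.I * herm η p)).re ^ 2 =
          ‖herm v₀ p‖ ^ 2 * ‖herm η p‖ ^ 2 := by
      rw [← Complex.normSq_eq_norm_sq, ← Complex.normSq_eq_norm_sq]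
      simp only [Complex.normSq_apply, Complex.mul_re, Complex.mul_im, Complex.neg_re,
        Complex.neg_im, Complex.I_re, Complex.I_im, Complex.star_def, Complex.conj_re,
        Complex.conj_im]
      ring
    have h7 : (2 * ‖herm η p‖ ^ 2 * ‖herm v₀ p‖ ^ 2 -
        4 * (star (herm v₀ p) * herm η p).re ^ 2) / (‖herm v₀ p‖ ^ 2) ^ 2 +
        (2 * ‖herm η p‖ ^ 2 * ‖herm v₀ p‖ ^ 2 -
        4 * (star (herm v₀ p) * (-Complex.I * herm η p)).re ^ 2) / (‖herm v₀ p‖ ^ 2) ^ 2 = 0 := by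
      rw [← add_div, div_eq_zero_iff]
      left
      linarith
    have h8 := congrArg (fun x => δ * x) h7
    simp only [mul_add, mul_zero] at h8
    have h9 : 0 < q η * (1 + δ / (-q v₀)) := by positivity
    linarith
  have h1 : ξ = η + ξ (Fin.last m) • v₀ := by
    rw [hη]
    module
  rw [hη0, zero_add] at h1
  exact h1

/-- From the minimum on the group to the local statement. -/
private theorem fn_min {F : Vec m → Mat (n + 1)} (hF : Harm F) {Y : Vec m → ℝ} (hY : Homog Y)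
    {δ : ℝ} (hδ : 0 ≤ δ) {g₀ : SUGroup m} (hmin : ∀ g : SUGroup m,
      (F (act g₀ (base m))).trace.re - (1 - (ch g₀ ^ 2)⁻¹) + δ * Y (act g₀ (base m)) ≤
        (F (act g (base m))).trace.re - (1 - (ch g ^ 2)⁻¹) + δ * Y (act g (base m)))
    {p : Vec m} {b : ℝ} (hp : herm (act g₀ (base m)) p ≠ 0)
    (hYp : Y =ᶠ[𝓝 (act g₀ (base m))] fun v => Real.log (yp p v) - b) :
    ∃ v ∈ Cone m, ∀ ξ : Vec m, pz F v ξ = 0 → ∃ c : ℂ, ξ = c • v := by
  have hch : ∀ g : SUGroup m, ch g ≠ 0 := fun g => (lt_of_lt_of_le one_pos (one_le_ch g)).ne'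
  -- the homogeneous function
  have hΦ : ∀ (g : SUGroup m) (c : ℂ), c ≠ 0 →
      (F (c • act g (base m))).trace.re - (1 + q (c • act g (base m)) /
        ‖(c • act g (base m)) (Fin.last m)‖ ^ 2) + δ * Y (c • act g (base m)) =
      (F (act g (base m))).trace.re - (1 - (ch g ^ 2)⁻¹) + δ * Y (act g (base m)) := by
    intro g c hc0
    have h1 : ‖(c • act g (base m)) (Fin.last m)‖ ^ 2 = ‖c‖ ^ 2 * ch g ^ 2 := by
      have h2 := W_orbit g
      rw [W, q_orbit, neg_neg, div_one] at h2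
      rw [Pi.smul_apply, smul_eq_mul, norm_mul, mul_pow, h2]
    have h3 : ‖c‖ ^ 2 ≠ 0 := pow_ne_zero 2 (norm_ne_zero_iff.2 hc0)
    rw [hF.hom c hc0 _ (orbit_mem g), hY c hc0 _ (orbit_mem g), h1, q_smul, q_orbit,
      mul_div_mul_left _ _ h3, neg_div, one_div]
    ring
  set l : ℂ := act g₀ (base m) (Fin.last m) with hl
  have hl0 : l ≠ 0 := by
    intro h
    have h2 := W_orbit g₀
    rw [W, q_orbit, neg_neg, div_one, ← hl, h, norm_zero] at h2
    have h3 := hch g₀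
    have h4 : ch g₀ ^ 2 = 0 := by
      rw [← h2]
      norm_num
    exact h3 (pow_eq_zero_iff two_ne_zero |>.1 h4)
  set v₀ : Vec m := l⁻¹ • act g₀ (base m) with hv₀
  have hv₀c : v₀ ∈ Cone m := smul_mem_cone (inv_ne_zero hl0) (orbit_mem g₀)
  have hv₀l : v₀ (Fin.last m) = 1 := by
    rw [hv₀, Pi.smul_apply, smul_eq_mul, ← hl, inv_mul_cancel₀ hl0]
  have hlv : l • v₀ = act g₀ (base m) := by
    rw [hv₀, smul_smul, mul_inv_cancel₀ hl0, one_smul]
  have hnear : ∀ᶠ v in 𝓝 v₀, Y v = Real.log (yp p v) - b := by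
    have h1 : Tendsto (fun v : Vec m => l • v) (𝓝 v₀) (𝓝 (act g₀ (base m))) := by
      have h2 : Continuous fun v : Vec m => l • v := continuous_const_smul l
      have h3 := h2.tendsto v₀
      rwa [hlv] at h3
    filter_upwards [h1.eventually hYp, (isOpen_cone m).mem_nhds hv₀c] with v hv hvc
    rw [hY l hl0 v hvc, yp_homog p l hl0 v hvc] at hv
    exact hv
  refine ⟨v₀, hv₀c, fn_local hF hv₀c hv₀l (p := p) hδ ?_ ?_⟩
  · rw [hv₀, herm_smul_left]
    exact mul_ne_zero (star_ne_zero.2 (inv_ne_zero hl0)) hp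
  · filter_upwards [hnear, (isOpen_cone m).mem_nhds hv₀c] with v hv hvc hvl
    obtain ⟨g, c, hc0, hg⟩ := exists_act_eq hvc
    have h1 := hΦ g c hc0
    rw [← hg, hvl, norm_one, one_pow, div_one, hv] at h1
    have h2 := hΦ g₀ l⁻¹ (inv_ne_zero hl0)
    rw [← hv₀, hv₀l, norm_one, one_pow, div_one, hnear.self_of_nhds] at h2
    have h3 := hmin g
    rw [← h1, ← h2] at h3
    rw [fnT_apply, fnT_apply]
    linarith

theorem exists_full_N (hm : 2 ≤ m) {χ : SUGroup m → ℝ} (hL : Lat Γ χ) (hT : TF Γ) (hTor : Tor Γ)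
    {ρ : Γ →* Mat (n + 1)} (hU : UJ ρ) (hP : Prp ρ) {F : Vec m → Mat (n + 1)} (hF : Harm F)
    (hFe : Equi ρ F) : ∃ v ∈ Cone m, ∀ ξ : Vec m, pz F v ξ = 0 → ∃ c : ℂ, ξ = c • v := by
  have hy := ht_hty hm hL hT hTor
  set y : Vec m → ℝ := hty Γ with hyd
  have hc : Continuous fun g : SUGroup m => F (act g (base m)) :=
    hF.cd.continuousOn.comp_continuous continuous_orbit orbit_mem
  have hcu : Continuous fun g : SUGroup m => (F (act g (base m))).trace.re :=
    (fnT (n + 1)).continuous.comp hc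
  have hch : ∀ g : SUGroup m, ch g ≠ 0 := fun g => (lt_of_lt_of_le one_pos (one_le_ch g)).ne'
  obtain ⟨W₀, hW₀⟩ : ∃ W₀ : SUGroup m → ℝ, W₀ = fun g => (F (act g (base m))).trace.re -
    (1 - (ch g ^ 2)⁻¹) := ⟨_, rfl⟩
  have hcW : Continuous W₀ := by
    rw [hW₀]
    refine hcu.sub (continuous_const.sub ((continuous_ch.pow 2).inv₀ fun g => ?_))
    exact pow_ne_zero 2 (hch g)
  have htr : ∀ g : SUGroup m, 0 ≤ (F (act g (base m))).trace.re := fun g =>
    (Complex.le_def.1 (hF.pos _ (orbit_mem g)).posSemidef.trace_nonneg).1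
  have hW1 : ∀ g, (F (act g (base m))).trace.re ≤ W₀ g + 1 := by
    intro g
    have h2 : 0 ≤ (ch g ^ 2)⁻¹ := by positivity
    rw [hW₀]
    simp only
    linarith
  by_cases hA : ∃ g₀, ∀ g, W₀ g₀ ≤ W₀ g
  · obtain ⟨g₀, hg₀⟩ := hA
    refine fn_min hF (Y := fun v => Real.log (yp (act g₀ (base m)) v) - 0) (δ := 0) (g₀ := g₀)
      (p := act g₀ (base m)) (b := 0) ?_ le_rfl ?_ ?_ (Filter.EventuallyEq.refl _ _)
    · intro c hc0 v hv
      simp only
      rw [yp_homog _ c hc0 v hv]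
    · intro g
      have h1 := hg₀ g
      rw [hW₀] at h1
      simp only at h1
      simp only [zero_mul, add_zero]
      exact h1
    · rw [herm_self, q_orbit]
      norm_num
  push Not at hA
  -- a point below the minimum over the thick part
  obtain ⟨g₁, μ, hg₁, hμ⟩ : ∃ (g₁ : SUGroup m) (μ : ℝ), W₀ g₁ < μ ∧
      ∀ g : SUGroup m, y (act g (base m)) ≤ 64 → μ ≤ W₀ g := by
    by_cases hS : ∃ g : SUGroup m, y (act g (base m)) ≤ 64
    · obtain ⟨gs, hgs⟩ := hS
      obtain ⟨K₀, hK₀, hK₀'⟩ := hy.cpt 64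
      obtain ⟨K, hK, hK'⟩ := fn_compact hP hF hFe hK₀ (W₀ gs + 1)
      have hcy : Continuous fun g : SUGroup m => y (act g (base m)) :=
        hy.cont_c.comp_continuous continuous_orbit orbit_mem
      have hcl : IsClosed {g | y (act g (base m)) ≤ 64 ∧ W₀ g ≤ W₀ gs} :=
        (isClosed_le hcy continuous_const).inter (isClosed_le hcW continuous_const)
      have hcomp : IsCompact {g | y (act g (base m)) ≤ 64 ∧ W₀ g ≤ W₀ gs} := by
        refine hK.of_isClosed_subset hcl fun g hg => hK' g (hK₀' g hg.1) ?_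
        have := hW1 g
        linarith [hg.2]
      obtain ⟨gm, hgm, hmin⟩ := hcomp.exists_isMinOn ⟨gs, hgs, le_refl _⟩ hcW.continuousOn
      obtain ⟨g₁, hg₁⟩ := hA gm
      refine ⟨g₁, W₀ gm, hg₁, fun g hg => ?_⟩
      by_cases h : W₀ g ≤ W₀ gs
      · exact hmin ⟨hg, h⟩
      · have h1 : W₀ gm ≤ W₀ gs := hgm.2
        linarith
    · push Not at hS
      exact ⟨1, W₀ 1 + 1, by linarith, fun g hg => absurd hg (not_le.2 (hS g))⟩
  -- the perturbation
  obtain ⟨Y, hYd⟩ : ∃ Y : Vec m → ℝ, Y = fun v => max (Real.log (y v) - Real.log 64) 0 := ⟨_, rfl⟩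
  have hY0 : ∀ v, 0 ≤ Y v := by
    intro v
    rw [hYd]
    exact le_max_right _ _
  have hYh : Homog Y := by
    intro c hc0 v hv
    rw [hYd]
    simp only
    rw [hy.hom c hc0 v hv]
  have hcY : Continuous fun g : SUGroup m => Y (act g (base m)) := by
    have hcy : Continuous fun g : SUGroup m => y (act g (base m)) :=
      hy.cont_c.comp_continuous continuous_orbit orbit_mem
    rw [hYd]
    refine Continuous.max (Continuous.sub (hcy.log fun g => ?_) continuous_const) continuous_const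
    exact (hy.pos (orbit_mem g)).ne'
  obtain ⟨δ, hδ, hδ1⟩ : ∃ δ : ℝ, 0 < δ ∧ W₀ g₁ + δ * Y (act g₁ (base m)) < μ := by
    have h1 := hY0 (act g₁ (base m))
    refine ⟨(μ - W₀ g₁) / (2 * (Y (act g₁ (base m)) + 1)), div_pos (by linarith) (by linarith), ?_⟩
    have h2 : (μ - W₀ g₁) / (2 * (Y (act g₁ (base m)) + 1)) * Y (act g₁ (base m)) ≤
        (μ - W₀ g₁) / 2 := by
      rw [div_mul_eq_mul_div, div_le_div_iff₀ (by linarith) two_pos]
      nlinarith
    linarith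
  obtain ⟨W, hW⟩ : ∃ W : SUGroup m → ℝ, W = fun g => W₀ g + δ * Y (act g (base m)) := ⟨_, rfl⟩
  have hcW' : Continuous W := by
    rw [hW]
    exact hcW.add (continuous_const.mul hcY)
  have hWg : ∀ g, W g = W₀ g + δ * Y (act g (base m)) := by
    intro g
    rw [hW]
  obtain ⟨K₀, hK₀, hK₀'⟩ := hy.cpt (Real.exp (Real.log 64 + (W g₁ + 1) / δ))
  obtain ⟨K, hK, hK'⟩ := fn_compact hP hF hFe hK₀ (W g₁ + 1)
  have hsub : {g | W g ≤ W g₁} ⊆ K := by
    intro g hg
    have h1 : W g ≤ W g₁ := hg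
    have h2 := hWg g
    have h3 := hW1 g
    have h4 := htr g
    have h5 : 0 ≤ δ * Y (act g (base m)) := mul_nonneg hδ.le (hY0 _)
    refine hK' g (hK₀' g ?_) (by linarith)
    have h6 : Real.log (y (act g (base m))) - Real.log 64 ≤ Y (act g (base m)) := by
      rw [hYd]
      exact le_max_left _ _
    have h7 : Y (act g (base m)) ≤ (W g₁ + 1) / δ := by
      rw [le_div_iff₀ hδ]
      linarith
    rw [← Real.log_le_iff_le_exp (hy.pos (orbit_mem g))]
    linarith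
  have hcomp : IsCompact {g | W g ≤ W g₁} :=
    hK.of_isClosed_subset (isClosed_le hcW' continuous_const) hsub
  obtain ⟨g₀, hg₀, hmin⟩ := hcomp.exists_isMinOn ⟨g₁, le_refl (W g₁)⟩ hcW'.continuousOn
  have hmin' : ∀ g, W g₀ ≤ W g := by
    intro g
    by_cases h : W g ≤ W g₁
    · exact hmin h
    · have h1 : W g₀ ≤ W g₁ := hg₀
      linarith
  have hy0 : 64 < y (act g₀ (base m)) := by
    by_contra h
    rw [not_lt] at h
    have h1 := hμ g₀ h
    have h2 : W g₀ ≤ W g₁ := hg₀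
    have h3 : 0 ≤ δ * Y (act g₀ (base m)) := mul_nonneg hδ.le (hY0 _)
    rw [hWg, hWg] at h2
    linarith
  obtain ⟨p, hp, hyp⟩ := hy.smooth (orbit_mem g₀) hy0.le
  refine fn_min hF hYh hδ.le (g₀ := g₀) (p := p) (b := Real.log 64) ?_ hp ?_
  · intro g
    have h1 := hmin' g
    rw [hWg, hWg, hW₀] at h1
    exact h1
  · have hcy : ContinuousAt y (act g₀ (base m)) :=
      hy.cont_c.continuousAt ((isOpen_cone m).mem_nhds (orbit_mem g₀))
    filter_upwards [hyp, hcy.eventually (lt_mem_nhds hy0)] with v h1 h2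
    rw [hYd]
    simp only
    rw [← h1, max_eq_left]
    have h3 := Real.log_le_log (by norm_num : (0 : ℝ) < 64) h2.le
    linarith

end Pool.Agent.Lib.MP_5d4057_al.RG
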