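import Pool.Agent.Lib.MP_5d4057_al.RG.CpD

/-!
# RG C2b: unipotent elements of `U(n,1)`
-/

set_option autoImplicit false

namespace Pool.Agent.Lib.MP_5d4057_al.RG

open Matrix Filter Topology Metric Pool.Agent.Lib.MP_5d4057_al Pool.Agent.Lib.MP_5d4057_al.Hyb
  Pool.Agent.Lib.MP_5d4057_al.HM Pool.Agent.Lib.MP_5d4057_al.HM.Kak Pool.Agent.Lib.MP_5d4057_al.NU

open scoped ComplexOrder MatrixOrder Matrix.Norms.L2Operator

variable {m n : ℕ}

private theorem cm_herm {Y : Mat (n + 1)} (h : Yᴴ * J n * Y = J n) (v w : Vec n) :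
    herm (Y *ᵥ v) (Y *ᵥ w) = herm v w := by
  rw [herm, herm, star_mulVec, mulVec_mulVec, ← dotProduct_mulVec, mulVec_mulVec,
    ← Matrix.mul_assoc, h]

private theorem cm_q {Y : Mat (n + 1)} (h : Yᴴ * J n * Y = J n) (w : Vec n) :
    q (Y *ᵥ w) = q w := by
  rw [q, q, cm_herm h]

private theorem cm_sub_r (v w u : Vec n) : herm v (w - u) = herm v w - herm v u := by
  rw [sub_eq_add_neg, herm_add_right, ← neg_one_smul ℂ u, herm_smul_right, neg_one_mul,
    ← sub_eq_add_neg]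

private theorem cm_sub_l (v w u : Vec n) : herm (v - w) u = herm v u - herm w u := by
  rw [herm_comm u (v - w), cm_sub_r, star_sub, ← herm_comm, ← herm_comm]

private theorem cm_nd {u : Vec n} (h : ∀ b : Vec n, herm u b = 0) : u = 0 := by
  have h1 := h (J n *ᵥ u)
  rw [herm, mulVec_mulVec, J_mul_J, one_mulVec] at h1
  exact dotProduct_star_self_eq_zero.1 h1

/-- Two orthogonal isotropic vectors are proportional. -/
theorem null_prop {u v : Vec n} (hu : u ≠ 0) (hqu : q u = 0) (hqv : q v = 0)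
    (h : herm u v = 0) : ∃ c : ℂ, v = c • u := by
  have hl : u (Fin.last n) ≠ 0 := by
    intro h0
    apply hu
    rw [q_eq, h0, norm_zero, zero_pow two_ne_zero, sub_zero] at hqu
    have h1 := (Finset.sum_eq_zero_iff_of_nonneg fun i _ => by positivity).1 hqu
    funext i
    refine Fin.lastCases h0 (fun j => ?_) i
    have h2 := h1 j (Finset.mem_univ _)
    exact norm_eq_zero.1 (pow_eq_zero_iff two_ne_zero |>.1 h2)
  refine ⟨v (Fin.last n) / u (Fin.last n), ?_⟩
  set c : ℂ := v (Fin.last n) / u (Fin.last n) with hc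
  set w : Vec n := v - c • u with hw
  have hwl : w (Fin.last n) = 0 := by
    rw [hw, Pi.sub_apply, Pi.smul_apply, smul_eq_mul, hc, div_mul_cancel₀ _ hl, sub_self]
  have hqw : q w = 0 := by
    have h3 : herm v u = 0 := by rw [herm_comm, h, star_zero]
    have h4 : herm w w = 0 := by
      rw [hw, cm_sub_l, cm_sub_r, cm_sub_r, herm_smul_left, herm_smul_right,
        herm_smul_left, herm_smul_right, herm_self, herm_self, hqu, hqv, h, h3]
      simp
    rw [q, h4, Complex.zero_re]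
  have hw0 : w = 0 := by
    rw [q_eq, hwl, norm_zero, zero_pow two_ne_zero, sub_zero] at hqw
    have h1 := (Finset.sum_eq_zero_iff_of_nonneg fun i _ => by positivity).1 hqw
    funext i
    refine Fin.lastCases hwl (fun j => ?_) i
    have h2 := h1 j (Finset.mem_univ _)
    exact norm_eq_zero.1 (pow_eq_zero_iff two_ne_zero |>.1 h2)
  exact sub_eq_zero.1 (hw ▸ hw0)

/-- A unipotent element `U ≠ 1` of `U(n,1)` has exactly one isotropic eigenline; it is preserved by the centraliser, with a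
multiplier of modulus one. PROOF: choose `x` with `u = (U-1) x ≠ 0`, `(U-1) u = 0`. For `v ∈ ker (U-1)`:
`herm x v = herm (U x) (U v) = herm (x + u) v`, so `herm u v = 0`; with `v = u`: `q u = 0`. If `u'` is another isotropic vector fixed by `U`
(the only eigenvalue is `1`) then `herm u u' = 0`, so `u' ∈ ℂ u` (two orthogonal isotropic vectors are proportional). So `B u = c u`.
If `‖c‖ ≠ 1` then `B` (times a unit scalar: an element of `SU(n,1)`) has a second isotropic eigenline (`exists_second` in NU), unique with its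
eigenvalue, so preserved by `U`: contradiction with uniqueness. -/
theorem exists_par {U : Mat (n + 1)} (hU : Uᴴ * J n * U = J n) (h1 : U ≠ 1)
    (hn : (U - 1) ^ (n + 1) = 0) : ∃ p' : Vec n, p' ≠ 0 ∧ q p' = 0 ∧ U *ᵥ p' = p' ∧
      (∀ u : Vec n, u ≠ 0 → q u = 0 → U *ᵥ u = u → ∃ c : ℂ, u = c • p') ∧
      ∀ B : Mat (n + 1), Bᴴ * J n * B = J n → B * U = U * B →
        ∃ c : ℂ, ‖c‖ = 1 ∧ B *ᵥ p' = c • p' := by
  obtain ⟨N, hN⟩ : ∃ N, N = U - 1 := ⟨_, rfl⟩
  rw [← hN] at hn
  have hN0 : N ≠ 0 := fun h => h1 (sub_eq_zero.1 (hN ▸ h))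
  -- the nilpotency index
  have hex : ∃ k : ℕ, N ^ (k + 1) = 0 := ⟨n, hn⟩
  classical
  obtain ⟨k, hk0, hk⟩ : ∃ k : ℕ, N ^ (k + 1) ≠ 0 ∧ N ^ (k + 2) = 0 := by
    have h2 := Nat.find_spec hex
    have h3 : Nat.find hex ≠ 0 := by
      intro h0
      rw [h0, zero_add, pow_one] at h2
      exact hN0 h2
    obtain ⟨j, hj⟩ := Nat.exists_eq_succ_of_ne_zero h3
    refine ⟨j, Nat.find_min hex (by omega), ?_⟩
    rw [hj] at h2
    exact h2
  have hUc : U = N + 1 := by rw [hN, sub_add_cancel]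
  have hNU : ∀ v : Vec n, N *ᵥ v = U *ᵥ v - v := fun v => by rw [hN, sub_mulVec, one_mulVec]
  -- vectors in the image are orthogonal to the fixed vectors
  have horth : ∀ x v : Vec n, U *ᵥ v = v → herm (N *ᵥ x) v = 0 := by
    intro x v hv
    have h2 := cm_herm hU x v
    rw [hv] at h2
    rw [hNU, cm_sub_l, h2, sub_self]
  have hT : ∀ y : Vec n, U *ᵥ (N ^ (k + 1) *ᵥ y) = N ^ (k + 1) *ᵥ y := by
    intro y
    have h2 : N *ᵥ (N ^ (k + 1) *ᵥ y) = 0 := by
      rw [mulVec_mulVec, ← pow_succ', hk, zero_mulVec]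
    rw [hNU, sub_eq_zero] at h2
    exact h2
  have hTo : ∀ y v : Vec n, U *ᵥ v = v → herm (N ^ (k + 1) *ᵥ y) v = 0 := by
    intro y v hv
    rw [pow_succ', ← mulVec_mulVec]
    exact horth _ v hv
  have hTq : ∀ y : Vec n, q (N ^ (k + 1) *ᵥ y) = 0 := by
    intro y
    rw [q, hTo y _ (hT y), Complex.zero_re]
  obtain ⟨y, hy⟩ : ∃ y : Vec n, N ^ (k + 1) *ᵥ y ≠ 0 := by
    by_contra h2
    push Not at h2
    exact hk0 (Matrix.ext_of_mulVec_single fun i => by rw [h2, zero_mulVec])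
  obtain ⟨u, hu⟩ : ∃ u, u = N ^ (k + 1) *ᵥ y := ⟨_, rfl⟩
  have hu0 : u ≠ 0 := hu ▸ hy
  have huq : q u = 0 := hu ▸ hTq y
  have hUu : U *ᵥ u = u := by rw [hu, hT]
  have hun : ∀ v : Vec n, v ≠ 0 → q v = 0 → U *ᵥ v = v → ∃ c : ℂ, v = c • u := by
    intro v _ hqv hv
    refine null_prop hu0 huq hqv ?_
    rw [hu]
    exact hTo y v hv
  have hrk : ∀ b : Vec n, ∃ c : ℂ, N ^ (k + 1) *ᵥ b = c • u := by
    intro b
    refine null_prop hu0 huq (hTq b) ?_
    rw [hu]
    exact hTo y _ (hT b)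
  -- the adjoint of `N ^ j`
  have hadj : ∀ (j : ℕ) (a b : Vec n),
      herm a (N ^ j *ᵥ b) = (-1) ^ j * herm (N ^ j *ᵥ a) (U ^ j *ᵥ b) := by
    intro j
    induction j with
    | zero => intro a b; simp
    | succ j ih =>
      intro a b
      have hc : Commute N U := by rw [hUc]; exact (Commute.refl N).add_right (Commute.one_right N)
      have e0 : herm a (N *ᵥ (N ^ j *ᵥ b)) = -herm (N *ᵥ a) (U *ᵥ (N ^ j *ᵥ b)) := by
        rw [hNU, hNU, cm_sub_l, cm_sub_r, cm_herm hU]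
        ring
      have e1 : U *ᵥ (N ^ j *ᵥ b) = N ^ j *ᵥ (U *ᵥ b) := by
        rw [mulVec_mulVec, mulVec_mulVec, (hc.pow_left j).eq]
      rw [pow_succ', ← mulVec_mulVec, e0, e1, ih, mulVec_mulVec, mulVec_mulVec, ← pow_succ,
        ← pow_succ, pow_succ' N j]
      rw [← pow_succ' N j, pow_succ N j]
      ring
  have hUp : ∀ (j : ℕ) (a b : Vec n), herm (U ^ j *ᵥ a) (U ^ j *ᵥ b) = herm a b := by
    intro j
    induction j with
    | zero => intro a b; simp
    | succ j ih =>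
      intro a b
      rw [pow_succ, ← mulVec_mulVec, ← mulVec_mulVec, ih, cm_herm hU]
  have hUju : ∀ j : ℕ, U ^ j *ᵥ u = u := by
    intro j
    induction j with
    | zero => simp
    | succ j ih => rw [pow_succ, ← mulVec_mulVec, hUu, ih]
  have hTa : ∀ b : Vec n, herm y (N ^ (k + 1) *ᵥ b) = (-1) ^ (k + 1) * herm u b := by
    intro b
    rw [hadj, ← hu]
    conv_lhs => rw [← hUju (k + 1)]
    rw [hUp]
  have hyu : herm y u ≠ 0 := by
    intro h0
    refine hu0 (cm_nd fun b => ?_)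
    obtain ⟨c, hc⟩ := hrk b
    have h2 := hTa b
    rw [hc, herm_smul_right, h0, mul_zero] at h2
    exact (mul_eq_zero.1 h2.symm).resolve_left (pow_ne_zero _ (neg_ne_zero.2 one_ne_zero))
  refine ⟨u, hu0, huq, hUu, hun, fun B hB hBU => ?_⟩
  have hBu0 : B *ᵥ u ≠ 0 := by
    intro h0
    refine hu0 (cm_nd fun b => ?_)
    rw [← cm_herm hB, h0, herm, star_zero, zero_dotProduct]
  obtain ⟨c, hc⟩ := hun (B *ᵥ u) hBu0 (by rw [cm_q hB, huq])
    (by rw [mulVec_mulVec, ← hBU, ← mulVec_mulVec, hUu])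
  refine ⟨c, ?_, hc⟩
  have hBN : Commute B N := by
    rw [hN]
    exact Commute.sub_right hBU (Commute.one_right B)
  have e1 : N ^ (k + 1) *ᵥ (B *ᵥ y) = c • u := by
    rw [mulVec_mulVec, ← (hBN.pow_right (k + 1)).eq, ← mulVec_mulVec, ← hu, hc]
  have e2 : c * herm y u = (-1) ^ (k + 1) * herm u (B *ᵥ y) := by
    rw [← hTa, e1, herm_smul_right]
  have e3 : star c * herm u (B *ᵥ y) = herm u y := by
    rw [← herm_smul_left, ← hc, cm_herm hB]
  have e4 : herm y u = (-1) ^ (k + 1) * herm u y := by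
    have := hTa y
    rwa [← hu] at this
  have e5 : (star c * c) * herm y u = herm y u := by
    calc (star c * c) * herm y u = star c * (c * herm y u) := by ring
      _ = (-1) ^ (k + 1) * (star c * herm u (B *ᵥ y)) := by rw [e2]; ring
      _ = herm y u := by rw [e3, ← e4]
  have e6 : star c * c = 1 := by
    have := mul_right_cancel₀ hyu (e5.trans (one_mul _).symm)
    exact this
  have e7 : (((‖c‖ ^ 2 : ℝ)) : ℂ) = 1 := by
    rw [← e6, Complex.star_def, Complex.conj_mul']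
    push_cast
    rfl
  have e8 : ‖c‖ ^ 2 = 1 := by exact_mod_cast e7
  exact (pow_eq_one_iff_of_nonneg (norm_nonneg c) two_ne_zero).1 e8

end Pool.Agent.Lib.MP_5d4057_al.RG
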