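import Pool.Agent.Lib.MP_5d4057_al.RG.CpM1
import Pool.Agent.Lib.MP_5d4057_al.RG.CpM2

/-!
# RG C3: the image of a cusp
-/

set_option autoImplicit false

namespace Pool.Agent.Lib.MP_5d4057_al.RG

open Matrix Filter Topology Metric Pool.Agent.Lib.MP_5d4057_al Pool.Agent.Lib.MP_5d4057_al.Hyb
  Pool.Agent.Lib.MP_5d4057_al.HM Pool.Agent.Lib.MP_5d4057_al.HM.Kak Pool.Agent.Lib.MP_5d4057_al.NU

open scoped ComplexOrder MatrixOrder Matrix.Norms.L2Operator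

variable {m n : ℕ} {Γ : Subgroup (SUGroup m)} {ξ : Fin m → ℂ} {z : SUGroup m} {κ : ℝ}

/-- PROOF. `x, y, z` of `Cusp`, `M = (n+1)!`, `U = ρ (z^M)`: `comm_root` (`z` commutes with `x`, `y` by `tv_comm`, `Par`), `U ≠ 1` since the powers of `z^M`
are pairwise different (`tv_pow`) and `Prp` makes the kernel finite; `exists_par` for `U`; all `ρ γ`, `γ ∈ Γ ∩ St ξ = Γ ∩ PS ξ`, commute with `U`. -/
theorem exists_im (hc : Cusp Γ ξ z κ) {ρ : Γ →* Mat (n + 1)} (hU : UJ ρ) (hP : Prp ρ) :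
    ∃ (p' : Vec n) (M : ℕ), 0 < M ∧ CuspIm ρ ξ p' ∧ ρ (⟨z, hc.mem⟩ ^ M) ≠ 1 ∧
      (ρ (⟨z, hc.mem⟩ ^ M) - 1) ^ (n + 1) = 0 ∧ ρ (⟨z, hc.mem⟩ ^ M) *ᵥ p' = p' ∧
      ∀ u : Vec n, u ≠ 0 → q u = 0 → ρ (⟨z, hc.mem⟩ ^ M) *ᵥ u = u → ∃ c : ℂ, u = c • p' := by
  obtain ⟨x, hx, y, hy, hxS, hyS, hxy⟩ := hc.comm
  have hxz : x * z = z * x := tv_comm hc.tv (hc.par.2 x hx hxS)
  have hyz : y * z = z * y := tv_comm hc.tv (hc.par.2 y hy hyS)
  have hroot : ((ρ (⟨z, hc.mem⟩ : Γ)) ^ (n + 1).factorial - 1) ^ (n + 1) = 0 := by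
    refine comm_root (X := ρ ⟨x, hx⟩) (Y := ρ ⟨y, hy⟩) ((Group.isUnit _).map ρ)
      ((Group.isUnit _).map ρ) ?_ ?_ ?_
    · rw [← map_mul, ← map_mul, ← map_mul]
      exact congrArg ρ (Subtype.ext hxy)
    · rw [← map_mul, ← map_mul]
      exact congrArg ρ (Subtype.ext hxz)
    · rw [← map_mul, ← map_mul]
      exact congrArg ρ (Subtype.ext hyz)
  rw [← map_pow] at hroot
  have hM : 0 < (n + 1).factorial := Nat.factorial_pos _
  have hord : ¬ IsOfFinOrder (⟨z, hc.mem⟩ : Γ) := by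
    rw [isOfFinOrder_iff_pow_eq_one]
    rintro ⟨k, hk, h⟩
    exact (tv_pow hc.tv hk).ne_one (congrArg Subtype.val h)
  have hne : ρ (⟨z, hc.mem⟩ ^ (n + 1).factorial) ≠ 1 := by
    intro h
    have hfin := hP ‖(1 : Mat (n + 1))‖
    have hinj : Function.Injective
        (fun k : ℕ => (⟨z, hc.mem⟩ : Γ) ^ ((n + 1).factorial * k)) := by
      intro a b hab
      exact Nat.eq_of_mul_eq_mul_left hM (injective_pow_iff_not_isOfFinOrder.2 hord hab)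
    refine Set.infinite_range_of_injective hinj (hfin.subset ?_)
    rintro _ ⟨k, rfl⟩
    show ‖ρ ((⟨z, hc.mem⟩ : Γ) ^ ((n + 1).factorial * k))‖ ≤ ‖(1 : Mat (n + 1))‖
    rw [pow_mul, map_pow, h, one_pow]
  obtain ⟨p', h0, hq, hfix, hun, hcen⟩ := exists_par (hU _) hne hroot
  refine ⟨p', (n + 1).factorial, hM, ⟨h0, hq, fun γ hγ => ?_⟩, hne, hroot, hfix, hun⟩
  refine hcen (ρ γ) (hU γ) ?_
  have h1 : (γ : SUGroup m) * z = z * γ := tv_comm hc.tv (hc.par.2 γ γ.2 hγ)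
  have h2 : Commute γ (⟨z, hc.mem⟩ : Γ) := Subtype.ext h1
  rw [← map_mul, ← map_mul]
  exact congrArg ρ (h2.pow_right _).eq

end Pool.Agent.Lib.MP_5d4057_al.RG
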