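import Pool.Agent.Lib.MP_5d4057_al.RG.CpD

/-!
# RG C2a: central commutators
-/

set_option autoImplicit false

namespace Pool.Agent.Lib.MP_5d4057_al.RG

open Matrix Filter Topology Metric Pool.Agent.Lib.MP_5d4057_al Pool.Agent.Lib.MP_5d4057_al.Hyb
  Pool.Agent.Lib.MP_5d4057_al.HM Pool.Agent.Lib.MP_5d4057_al.HM.Kak Pool.Agent.Lib.MP_5d4057_al.NU

open scoped ComplexOrder MatrixOrder Matrix.Norms.L2Operator

variable {m n : ℕ}

private theorem cm_unip {k : ℕ} (W : Matrix (Fin k) (Fin k) ℂ) (h : ∀ μ ∈ spectrum ℂ W, μ = 1) :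
    (W - 1) ^ k = 0 := by
  have hs : W.charpoly.Splits := IsAlgClosed.splits _
  have hp := hs.eq_prod_roots_of_monic (Matrix.charpoly_monic W)
  have hr : W.charpoly.roots = Multiset.replicate k 1 := by
    rw [Multiset.eq_replicate]
    constructor
    · rw [← hs.natDegree_eq_card_roots, Matrix.charpoly_natDegree_eq_dim, Fintype.card_fin]
    · intro b hb
      exact h b (Matrix.mem_spectrum_iff_isRoot_charpoly.2 (Polynomial.isRoot_of_mem_roots hb))
  rw [hr, Multiset.map_replicate, Multiset.prod_replicate] at hp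
  have hc := Matrix.aeval_self_charpoly W
  rw [hp] at hc
  simpa using hc

private theorem cm_root {X Y Z : Matrix (Fin (n + 1)) (Fin (n + 1)) ℂ} (hX : IsUnit X)
    (hY : IsUnit Y) (h : X * Y = Y * X * Z) (hXZ : X * Z = Z * X) (hYZ : Y * Z = Z * Y) {l : ℂ}
    (hl : l ∈ spectrum ℂ Z) : l ^ (n + 1).factorial = 1 := by
  set E : Submodule ℂ (Fin (n + 1) → ℂ) := Module.End.eigenspace (Matrix.toLin' Z) l with hE
  have hmem : ∀ v, v ∈ E ↔ Z *ᵥ v = l • v := fun v => by
    rw [hE, Module.End.mem_eigenspace_iff, Matrix.toLin'_apply]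
  have hXE : ∀ v ∈ E, Matrix.toLin' X v ∈ E := by
    intro v hv
    rw [hmem] at hv ⊢
    rw [Matrix.toLin'_apply, mulVec_mulVec, ← hXZ, ← mulVec_mulVec, hv, mulVec_smul]
  have hYE : ∀ v ∈ E, Matrix.toLin' Y v ∈ E := by
    intro v hv
    rw [hmem] at hv ⊢
    rw [Matrix.toLin'_apply, mulVec_mulVec, ← hYZ, ← mulVec_mulVec, hv, mulVec_smul]
  set XE := (Matrix.toLin' X).restrict hXE with hXEd
  set YE := (Matrix.toLin' Y).restrict hYE with hYEd
  have hcomp : XE * YE = l • (YE * XE) := by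
    refine LinearMap.ext fun v => Subtype.ext ?_
    have hv := (hmem v.1).1 v.2
    show X *ᵥ (Y *ᵥ v.1) = l • (Y *ᵥ (X *ᵥ v.1))
    rw [mulVec_mulVec, h, ← mulVec_mulVec, hv, mulVec_smul, ← mulVec_mulVec]
  have hinj : ∀ {A : Matrix (Fin (n + 1)) (Fin (n + 1)) ℂ} (hA : IsUnit A)
      (hAE : ∀ v ∈ E, Matrix.toLin' A v ∈ E), LinearMap.det ((Matrix.toLin' A).restrict hAE) ≠ 0 := by
    intro A hA hAE
    have h1 : IsUnit ((Matrix.toLin' A).restrict hAE) := by
      rw [LinearMap.isUnit_iff_ker_eq_bot, LinearMap.ker_eq_bot']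
      intro v hv
      have h2 : A *ᵥ v.1 = 0 := congrArg Subtype.val hv
      have h3 := (Matrix.mulVec_injective_of_isUnit hA) (h2.trans (Matrix.mulVec_zero A).symm)
      exact Subtype.ext h3
    exact (LinearMap.isUnit_det _ h1).ne_zero
  have hdet := congrArg LinearMap.det hcomp
  rw [map_mul, LinearMap.det_smul, map_mul, mul_comm (LinearMap.det YE)] at hdet
  have hne : LinearMap.det XE * LinearMap.det YE ≠ 0 := mul_ne_zero (hinj hX hXE) (hinj hY hYE)
  have hpow : l ^ Module.finrank ℂ E = 1 := by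
    have := mul_right_cancel₀ hne ((one_mul _).trans hdet)
    exact this.symm
  have hpos : 0 < Module.finrank ℂ E := by
    have h1 : Module.End.HasEigenvalue (Matrix.toLin' Z) l := by
      rw [Module.End.hasEigenvalue_iff_mem_spectrum, Matrix.spectrum_toLin']
      exact hl
    have h2 : E ≠ ⊥ := h1
    exact Submodule.one_le_finrank_iff.2 h2
  have hle : Module.finrank ℂ E ≤ n + 1 := by
    have := Submodule.finrank_le E
    rwa [Module.finrank_fin_fun] at this
  obtain ⟨c, hc⟩ := Nat.dvd_factorial hpos hle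
  rw [hc, pow_mul, hpow, one_pow]

/-- A central commutator is unipotent up to a power. PROOF: let `l` be an eigenvalue of `Z` and `E = ker (Z - l)`, of dimension `d ≥ 1`,
`d ≤ n + 1`. `X`, `Y` preserve `E`, so `l^d = det (Z|E) = det (X⁻¹... commutator on E) = 1` (`X Y = Y X Z` on `E`: `det` of both sides). So
`l^(n+1)! = 1`, all eigenvalues of `Z^(n+1)!` are `1`, and `(Z^(n+1)! - 1)^(n+1) = 0` (Cayley-Hamilton). -/
theorem comm_root {X Y Z : Mat (n + 1)} (hX : IsUnit X) (hY : IsUnit Y) (h : X * Y = Y * X * Z)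
    (hXZ : X * Z = Z * X) (hYZ : Y * Z = Z * Y) :
    (Z ^ (n + 1).factorial - 1) ^ (n + 1) = 0 := by
  refine cm_unip _ fun μ hμ => ?_
  rw [spectrum.map_pow_of_pos Z (Nat.factorial_pos _)] at hμ
  obtain ⟨l, hl, rfl⟩ := hμ
  exact cm_root hX hY h hXZ hYZ hl

end Pool.Agent.Lib.MP_5d4057_al.RG
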