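import Pool.Agent.Lib.MP_5d4057_al.RG.CpN2
import Pool.Agent.Lib.MP_5d4057_al.RG.CpA

/-!
# RG C7: almost isometric pairs at a cusp
-/

set_option autoImplicit false

namespace Pool.Agent.Lib.MP_5d4057_al.RG

open Matrix Filter Topology Metric Pool.Agent.Lib.MP_5d4057_al Pool.Agent.Lib.MP_5d4057_al.Hyb
  Pool.Agent.Lib.MP_5d4057_al.HM Pool.Agent.Lib.MP_5d4057_al.HM.Kak Pool.Agent.Lib.MP_5d4057_al.NU

variable {m n : ℕ} {Γ : Subgroup (SUGroup m)} {ξ : Fin m → ℂ} {z : SUGroup m} {κ : ℝ}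

private theorem cpn_comm {k : ℕ} (v w : Vec k) : cc v w = cc w v := by
  rw [cc, cc, herm_comm v w, norm_star, mul_comm]

private theorem cpn_cosh : (4 / 3 : ℝ) ≤ Real.cosh 1 ^ 2 := by
  have h1 : (1 : ℝ) + 1 ≤ Real.exp 1 := by
    have := Real.add_one_le_exp (1 : ℝ)
    linarith
  have h2 : Real.cosh 1 ^ 2 = 1 + Real.sinh 1 ^ 2 := by
    have := Real.cosh_sq 1
    linarith
  have h3 : (3 / 4 : ℝ) ≤ Real.sinh 1 := by
    rw [Real.sinh_eq, Real.exp_neg]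
    have h4 : (Real.exp 1)⁻¹ ≤ 2⁻¹ := by
      refine inv_anti₀ (by norm_num) ?_
      linarith
    linarith
  rw [h2]
  nlinarith

/-- The oscillation of `Aq` on balls of radius `cc ≤ 4/3` is small at the cusp (`Aq_lim`, `yp_exp`), and `near_iso`. -/
theorem tm_cusp (hc : Cusp Γ ξ z κ) {ρ : Γ →* Mat (n + 1)} (hU : UJ ρ) (hP : Prp ρ)
    {p' : Vec n} (hp : CuspIm ρ ξ p') {f : Vec m → Vec n} (hf : HMap f) (he : Eqv ρ f)
    {ε : ℝ} (hε : 0 < ε) (T : ℝ) : ∃ Y : ℝ, ∀ v ∈ Cone m, Y ≤ yp (NU.pe ξ) v →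
      ∀ w ∈ Cone m, cc v w ≤ T → (1 - ε) * (cc v w - 1) ≤ cc (f v) (f w) - 1 := by
  have hq : q (NU.pe ξ) = 0 := by rw [q_pe, hc.tv.1, sub_self]
  have h0 : NU.pe ξ ≠ 0 := by
    intro h
    have h1 := herm_base_pe ξ
    rw [h] at h1
    simp [herm] at h1
  obtain ⟨ω, hω, hn⟩ := near_iso (m := m) (n := n) T hε
  obtain ⟨a, ha⟩ := Aq_lim hc hU hP hp hf he
  obtain ⟨Y, hY⟩ := ha (ω / 2) (by linarith)
  refine ⟨Real.exp (2 * 1) * Y, fun v hv hYv w hw hT => ?_⟩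
  have key : ∀ u ∈ Cone m, cc v u ≤ 4 / 3 → |Aq f p' (NU.pe ξ) u - a| ≤ ω / 2 := by
    intro u hu hcu
    refine hY u hu ?_
    have h1 : yp (NU.pe ξ) v ≤ Real.exp (2 * 1) * yp (NU.pe ξ) u :=
      yp_exp h0 hq hu hv zero_le_one ((cpn_comm u v).trans_le (hcu.trans cpn_cosh))
    exact le_of_mul_le_mul_left (hYv.trans h1) (Real.exp_pos _)
  have hvv : cc v v ≤ 4 / 3 := by
    have h1 : q v < 0 := hv
    have h2 : cc v v = 1 := by
      rw [cc, herm_self, Complex.norm_real, Real.norm_eq_abs, sq_abs, sq, div_self]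
      exact (mul_pos_of_neg_of_neg h1 h1).ne'
    rw [h2]
    norm_num
  refine hn f hf (NU.pe ξ) p' h0 hq hp.ne hp.isot v hv (fun u hu hcu => ?_) w hw hT
  have h1 := abs_le.1 (key u hu hcu)
  have h2 := abs_le.1 (key v hv hvv)
  rw [abs_le]
  constructor <;> linarith [h1.1, h1.2, h2.1, h2.2]

end Pool.Agent.Lib.MP_5d4057_al.RG
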