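import Pool.Agent.Lib.MP_5d4057_al.RG.Bridge
import Mathlib.Analysis.Complex.BorelCaratheodory

/-!
# RG C7a: almost isometric discs
-/

set_option autoImplicit false

namespace Pool.Agent.Lib.MP_5d4057_al.RG

open Matrix Filter Topology Metric Pool.Agent.Lib.MP_5d4057_al Pool.Agent.Lib.MP_5d4057_al.Hyb
  Pool.Agent.Lib.MP_5d4057_al.HM Pool.Agent.Lib.MP_5d4057_al.HM.Kak Pool.Agent.Lib.MP_5d4057_al.NU

variable {m n : ℕ} {Γ : Subgroup (SUGroup m)} {ξ : Fin m → ℂ} {z : SUGroup m} {κ : ℝ}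

/-- Harnack's inequality for holomorphic functions with nonnegative real part. -/
private theorem di_harn {F : ℂ → ℂ} {c : ℂ} {R : ℝ} (hF : DifferentiableOn ℂ F (ball c R))
    (hre : ∀ z ∈ ball c R, 0 ≤ (F z).re) {z : ℂ} (hz : z ∈ ball c R) :
    ‖F z‖ ≤ ‖F c‖ * (R + ‖z - c‖) / (R - ‖z - c‖) := by
  have hz' : ‖z - c‖ < R := by rwa [mem_ball_iff_norm] at hz
  have hR : 0 < R := lt_of_le_of_lt (norm_nonneg _) hz'
  have hmaps : ∀ w ∈ ball (0 : ℂ) R, c + w ∈ ball c R := by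
    intro w hw
    rw [mem_ball_iff_norm, add_sub_cancel_left]
    rwa [mem_ball_zero_iff] at hw
  have key : ∀ M : ℝ, 0 < M → ‖F z‖ ≤ 2 * M * ‖z - c‖ / (R - ‖z - c‖) +
      ‖F c‖ * (R + ‖z - c‖) / (R - ‖z - c‖) := by
    intro M hM
    have h1 := Complex.borelCaratheodory (f := fun w => -F (c + w)) (R := R) (z := z - c) hM
      ((hF.comp (by fun_prop) hmaps).neg) (by
        intro w hw
        show (-F (c + w)).re ≤ M
        rw [Complex.neg_re]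
        linarith [hre _ (hmaps w hw)]) hR (by rwa [mem_ball_zero_iff])
    simpa only [norm_neg, add_zero, add_sub_cancel] using h1
  refine le_of_forall_pos_le_add fun e he => ?_
  have hden : 0 < R - ‖z - c‖ := by linarith
  obtain ⟨M, hM, hMe⟩ : ∃ M : ℝ, 0 < M ∧ 2 * M * ‖z - c‖ / (R - ‖z - c‖) ≤ e := by
    refine ⟨e * (R - ‖z - c‖) / (2 * (‖z - c‖ + 1)), by positivity, ?_⟩
    rw [div_le_iff₀ hden]
    have h1 : 0 ≤ ‖z - c‖ := norm_nonneg _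
    have h2 : 2 * (e * (R - ‖z - c‖) / (2 * (‖z - c‖ + 1))) * ‖z - c‖ =
        e * (R - ‖z - c‖) * (‖z - c‖ / (‖z - c‖ + 1)) := by
      field_simp
    rw [h2]
    have h3 : ‖z - c‖ / (‖z - c‖ + 1) ≤ 1 := by
      rw [div_le_one (by positivity)]
      linarith
    have h4 : 0 ≤ e * (R - ‖z - c‖) := by positivity
    nlinarith
  have := key M hM
  linarith

/-- One variable. PROOF: `g = φ/t` has values in the closed unit ball (Schwarz). On `|t| = 1/2`: `1 - |φ|² = (1 - |t|²) + |t|²(1 - |g|²)`, so by hypothesis the circle mean of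
`log (1 + (1/3)(1 - |g|²))` is `≤ ω`, so some `t₁` on the circle has `1 - |g(t₁)|² ≤ 4ω`, say. `h(t) = ⟪g(t₁), g(t)⟫` is holomorphic, `|h| ≤ 1`, `h(t₁) = |g(t₁)|² ≥ 1 - 4ω`; Harnack for
the nonnegative harmonic function `1 - Re h` (or Schwarz - Pick): `1 - Re h(t) ≤ C(r) ω` for `|t| ≤ r`, and `|g(t)| ≥ Re h(t)`.
The hypothesis is stated as: `log (1 - |φ|²) - log (1 - |t|²) ≤ ω + Re k(t)` with `k` holomorphic, `k(0) = 0` (so its circle mean vanishes). -/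
theorem disc_iso {r : ℝ} (hr : r < 1) {ε : ℝ} (hε : 0 < ε) : ∃ ω : ℝ, 0 < ω ∧
    ∀ (n : ℕ) (φ : ℂ → E n) (k : ℂ → ℂ), DifferentiableOn ℂ φ (ball 0 1) →
      Set.MapsTo φ (ball 0 1) (ball 0 1) → φ 0 = 0 → DifferentiableOn ℂ k (ball 0 1) → k 0 = 0 →
      (∀ t : ℂ, ‖t‖ ≤ 1 / 2 →
        Real.log (1 - ‖φ t‖ ^ 2) - Real.log (1 - ‖t‖ ^ 2) ≤ ω + (k t).re) →
      ∀ t : ℂ, ‖t‖ ≤ r → (1 - ε) * ‖t‖ ≤ ‖φ t‖ := by
  rcases lt_or_ge r 0 with hr0 | hr0
  · refine ⟨1, one_pos, fun n φ k _ _ _ _ _ _ t ht => ?_⟩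
    have := norm_nonneg t
    linarith
  have h1r : 0 < 1 - r := by linarith
  obtain ⟨δ, hδ⟩ : ∃ δ, δ = ε * (1 - r) / (18 * (1 + r)) := ⟨_, rfl⟩
  have hδ0 : 0 < δ := by
    rw [hδ]
    positivity
  refine ⟨Real.log (1 + δ), Real.log_pos (by linarith), ?_⟩
  intro n φ k hφ hm hφ0 hk hk0 hlog t ht
  -- a point of the circle
  obtain ⟨t₁, ht₁, hk₁⟩ : ∃ t₁ : ℂ, ‖t₁‖ = 1 / 2 ∧ (k t₁).re ≤ 0 := by
    have hsub : closedBall (0 : ℂ) (1 / 2) ⊆ ball 0 1 := closedBall_subset_ball (by norm_num)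
    have hd : DifferentiableOn ℂ (fun t => Complex.exp (-k t)) (closedBall (0 : ℂ) (1 / 2)) :=
      (hk.mono hsub).neg.cexp
    obtain ⟨z, hz, hmax⟩ := Complex.exists_mem_frontier_isMaxOn_norm (U := ball (0 : ℂ) (1 / 2))
      isBounded_ball ⟨0, mem_ball_self (by norm_num)⟩ (hd.diffContOnCl_ball subset_rfl)
    refine ⟨z, ?_, ?_⟩
    · have h1 := frontier_ball_subset_sphere hz
      rwa [mem_sphere_zero_iff_norm] at h1
    · have h1 : ‖Complex.exp (-k 0)‖ ≤ ‖Complex.exp (-k z)‖ :=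
        hmax (subset_closure (mem_ball_self (by norm_num)))
      rw [hk0, neg_zero, Complex.exp_zero, norm_one, Complex.norm_exp, Real.one_le_exp_iff,
        Complex.neg_re] at h1
      linarith
  have ht₁b : t₁ ∈ ball (0 : ℂ) 1 := by
    rw [mem_ball_zero_iff, ht₁]
    norm_num
  have ht₁0 : t₁ ≠ 0 := by
    rw [← norm_ne_zero_iff, ht₁]
    norm_num
  -- the quotient
  obtain ⟨g, hg⟩ : ∃ g, g = dslope φ 0 := ⟨_, rfl⟩
  have hgd : DifferentiableOn ℂ g (ball 0 1) := by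
    rw [hg]
    exact (Complex.differentiableOn_dslope (ball_mem_nhds 0 one_pos)).2 hφ
  have hg1 : ∀ z ∈ ball (0 : ℂ) 1, ‖g z‖ ≤ 1 := by
    intro z hz
    rw [hg]
    have h1 := Complex.norm_dslope_le_div_of_mapsTo_ball (R₂ := 1) hφ (by
      rw [hφ0]
      exact hm.mono_right ball_subset_closedBall) hz
    rwa [div_one] at h1
  have hgs : ∀ z : ℂ, φ z = z • g z := by
    intro z
    have h1 := sub_smul_dslope φ 0 z
    rw [hφ0, sub_zero, sub_zero] at h1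
    rw [hg, h1]
  -- the value at the point of the circle
  have hφ1 : ‖φ t₁‖ = 1 / 2 * ‖g t₁‖ := by rw [hgs, norm_smul, ht₁]
  have hg₁ : 1 - 3 * δ ≤ ‖g t₁‖ ^ 2 := by
    have h1 := hlog t₁ ht₁.le
    have h2 : 0 < 1 - ‖φ t₁‖ ^ 2 := by
      have h3 := hm ht₁b
      rw [mem_ball_zero_iff] at h3
      nlinarith [norm_nonneg (φ t₁)]
    have h3 : (0 : ℝ) < 1 - ‖t₁‖ ^ 2 := by
      rw [ht₁]
      norm_num
    have h4 : Real.log (1 - ‖φ t₁‖ ^ 2) ≤ Real.log ((1 + δ) * (1 - ‖t₁‖ ^ 2)) := by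
      rw [Real.log_mul (by positivity) h3.ne']
      linarith
    have h5 := (Real.log_le_log_iff h2 (by positivity)).1 h4
    rw [hφ1, ht₁] at h5
    nlinarith
  -- the scalar function
  obtain ⟨F, hF⟩ : ∃ F : ℂ → ℂ, F = fun z => 1 - inner ℂ (g t₁) (g z) := ⟨_, rfl⟩
  have hFd : DifferentiableOn ℂ F (ball 0 1) := by
    rw [hF]
    exact ((innerSL ℂ (g t₁)).differentiable.comp_differentiableOn hgd).const_sub 1
  have hFre : ∀ z ∈ ball (0 : ℂ) 1, 0 ≤ (F z).re := by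
    intro z hz
    rw [hF]
    simp only [Complex.sub_re, Complex.one_re]
    have h1 := Complex.re_le_norm (inner ℂ (g t₁) (g z))
    have h2 := norm_inner_le_norm (𝕜 := ℂ) (g t₁) (g z)
    have h3 : ‖g t₁‖ * ‖g z‖ ≤ 1 * 1 :=
      mul_le_mul (hg1 _ ht₁b) (hg1 z hz) (norm_nonneg _) zero_le_one
    linarith
  have hF1 : ‖F t₁‖ ≤ 3 * δ := by
    have h1 : F t₁ = ((1 - ‖g t₁‖ ^ 2 : ℝ) : ℂ) := by
      rw [hF]
      simp only
      rw [inner_self_eq_norm_sq_to_K]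
      push_cast
      rfl
    rw [h1, Complex.norm_real, Real.norm_eq_abs, abs_of_nonneg]
    · linarith
    · have h2 := hg1 _ ht₁b
      nlinarith [norm_nonneg (g t₁)]
  -- the chain
  have hs1 : ball t₁ (1 / 2) ⊆ ball (0 : ℂ) 1 := by
    refine ball_subset_ball' ?_
    rw [dist_zero_right, ht₁]
    norm_num
  have hn2 : ‖t₁ / 2‖ = 1 / 4 := by
    rw [norm_div, ht₁, Complex.norm_ofNat]
    norm_num
  have hs2 : ball (t₁ / 2) (3 / 4) ⊆ ball (0 : ℂ) 1 := by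
    refine ball_subset_ball' ?_
    rw [dist_zero_right, hn2]
    norm_num
  have hd1 : ‖t₁ / 2 - t₁‖ = 1 / 4 := by
    rw [show t₁ / 2 - t₁ = -(t₁ / 2) by ring, norm_neg, hn2]
  have hd2 : ‖(0 : ℂ) - t₁ / 2‖ = 1 / 4 := by rw [zero_sub, norm_neg, hn2]
  have c1 : ‖F (t₁ / 2)‖ ≤ 3 * ‖F t₁‖ := by
    have h1 := di_harn (hFd.mono hs1) (fun z hz => hFre z (hs1 hz)) (z := t₁ / 2) (by
      rw [mem_ball_iff_norm, hd1]
      norm_num)
    rw [hd1] at h1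
    have h2 : ‖F t₁‖ * (1 / 2 + 1 / 4) / (1 / 2 - 1 / 4) = 3 * ‖F t₁‖ := by ring
    linarith
  have c2 : ‖F 0‖ ≤ 2 * ‖F (t₁ / 2)‖ := by
    have h1 := di_harn (hFd.mono hs2) (fun z hz => hFre z (hs2 hz)) (z := 0) (by
      rw [mem_ball_iff_norm, hd2]
      norm_num)
    rw [hd2] at h1
    have h2 : ‖F (t₁ / 2)‖ * (3 / 4 + 1 / 4) / (3 / 4 - 1 / 4) = 2 * ‖F (t₁ / 2)‖ := by ring
    linarith
  have htb : t ∈ ball (0 : ℂ) 1 := by
    rw [mem_ball_zero_iff]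
    linarith
  have c3 : ‖F t‖ ≤ ‖F 0‖ * ((1 + r) / (1 - r)) := by
    have h1 := di_harn hFd hFre htb
    rw [sub_zero, mul_div_assoc] at h1
    refine h1.trans (mul_le_mul_of_nonneg_left ?_ (norm_nonneg _))
    have h2 : 0 < 1 - ‖t‖ := by linarith
    rw [div_le_div_iff₀ h2 h1r]
    nlinarith
  have hFt : ‖F t‖ ≤ ε := by
    have h1 : 0 ≤ (1 + r) / (1 - r) := by positivity
    have h2 : ‖F 0‖ ≤ 18 * δ := by linarith
    have h3 : ‖F t‖ ≤ 18 * δ * ((1 + r) / (1 - r)) :=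
      c3.trans (mul_le_mul_of_nonneg_right h2 h1)
    have h4 : 18 * δ * ((1 + r) / (1 - r)) = ε := by
      rw [hδ]
      field_simp
    linarith
  have hgt : 1 - ε ≤ ‖g t‖ := by
    have h1 : (F t).re ≤ ‖F t‖ := Complex.re_le_norm _
    rw [hF] at h1
    simp only [Complex.sub_re, Complex.one_re] at h1
    have h2 := Complex.re_le_norm (inner ℂ (g t₁) (g t))
    have h3 := norm_inner_le_norm (𝕜 := ℂ) (g t₁) (g t)
    have h4 : ‖g t₁‖ * ‖g t‖ ≤ 1 * ‖g t‖ :=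
      mul_le_mul_of_nonneg_right (hg1 _ ht₁b) (norm_nonneg _)
    have h5 : ‖F t‖ = ‖1 - inner ℂ (g t₁) (g t)‖ := by rw [hF]
    rw [h5] at hFt
    linarith
  rw [hgs t, norm_smul, mul_comm]
  exact mul_le_mul_of_nonneg_left hgt (norm_nonneg _)

end Pool.Agent.Lib.MP_5d4057_al.RG
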