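import Pool.Agent.Lib.MP_5d4057_al.RG.CpN1
import Pool.Agent.Lib.MP_5d4057_al.RG.CpD

/-!
# RG C7b: small oscillation gives almost isometry
-/

set_option autoImplicit false

namespace Pool.Agent.Lib.MP_5d4057_al.RG

open Matrix Filter Topology Metric Pool.Agent.Lib.MP_5d4057_al Pool.Agent.Lib.MP_5d4057_al.Hyb
  Pool.Agent.Lib.MP_5d4057_al.HM Pool.Agent.Lib.MP_5d4057_al.HM.Kak Pool.Agent.Lib.MP_5d4057_al.NU

variable {m n : ℕ} {Γ : Subgroup (SUGroup m)} {ξ : Fin m → ℂ} {z : SUGroup m} {κ : ℝ}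

open scoped InnerProductSpace in
/-- A point at infinity in the ball. -/
private theorem cpn2_null {k : ℕ} {p : Vec k} (hp : p ≠ 0) (hq : q p = 0) :
    ∃ (ξ : E k) (c : ℂ), ‖ξ‖ = 1 ∧ c ≠ 0 ∧ p = c • bl ξ := by
  have hl : p (Fin.last k) ≠ 0 := by
    intro h
    apply hp
    rw [q_eq, h, norm_zero] at hq
    have h1 : ∑ i : Fin k, ‖p i.castSucc‖ ^ 2 = 0 := by linarith
    rw [Finset.sum_eq_zero_iff_of_nonneg fun i _ => by positivity] at h1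
    ext i
    refine Fin.lastCases h (fun i => ?_) i
    have h2 := h1 i (Finset.mem_univ i)
    rw [Pi.zero_apply]
    exact norm_eq_zero.1 (pow_eq_zero_iff two_ne_zero |>.1 h2)
  have he : p = p (Fin.last k) • bl (pr p) := by
    ext i
    refine Fin.lastCases ?_ (fun i => ?_) i
    · rw [Pi.smul_apply, bl_last, smul_eq_mul, mul_one]
    · rw [Pi.smul_apply, bl_castSucc, pr_apply, smul_eq_mul, mul_div_cancel₀ _ hl]
  refine ⟨pr p, p (Fin.last k), ?_, hl, he⟩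
  rw [he, q_smul, q_bl] at hq
  have h3 : ‖p (Fin.last k)‖ ^ 2 ≠ 0 := pow_ne_zero _ (norm_ne_zero_iff.2 hl)
  have h4 : ‖pr p‖ ^ 2 - 1 = 0 := (mul_eq_zero.1 hq).resolve_left h3
  have h5 := norm_nonneg (pr p)
  nlinarith

open scoped InnerProductSpace in
private theorem cpn2_slit {k : ℕ} {ξ z : E k} (hξ : ‖ξ‖ = 1) (hz : ‖z‖ < 1) :
    1 - ⟪ξ, z⟫_ℂ ∈ Complex.slitPlane := by
  left
  have h1 : ‖⟪ξ, z⟫_ℂ‖ ≤ ‖ξ‖ * ‖z‖ := norm_inner_le_norm _ _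
  have h2 := Complex.re_le_norm ⟪ξ, z⟫_ℂ
  rw [hξ, one_mul] at h1
  rw [Complex.sub_re, Complex.one_re]
  linarith

open scoped InnerProductSpace in
/-- The height in the ball. -/
private theorem cpn2_yp {k : ℕ} {p : Vec k} (hp : p ≠ 0) (hq : q p = 0) (g : SUGroup k) :
    ∃ (ξ : E k) (C : ℝ), ‖ξ‖ = 1 ∧ ∀ z : E k, ‖z‖ < 1 → Real.log (yp p (act g (bl z))) =
      C + Real.log (1 - ‖z‖ ^ 2) - 2 * (Complex.log (1 - ⟪ξ, z⟫_ℂ)).re := by
  have hp' : act g⁻¹ p ≠ 0 := by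
    intro h
    apply hp
    have h1 : act g (act g⁻¹ p) = p := by rw [← act_mul, mul_inv_cancel, act_one]
    rw [← h1, h, act, mulVec_zero]
  obtain ⟨ξ, c, hξ, hc, he⟩ := cpn2_null hp' (by rw [q_act, hq])
  have h1 : act g (act g⁻¹ p) = p := by rw [← act_mul, mul_inv_cancel, act_one]
  refine ⟨ξ, -Real.log (‖c‖ ^ 2), hξ, fun z hz => ?_⟩
  have h2 : 1 - ⟪ξ, z⟫_ℂ ≠ 0 := Complex.slitPlane_ne_zero (cpn2_slit hξ hz)
  have h3 : ‖1 - ⟪ξ, z⟫_ℂ‖ ≠ 0 := norm_ne_zero_iff.2 h2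
  have h4 : (0 : ℝ) < 1 - ‖z‖ ^ 2 := by
    have := (sq_lt_one_iff₀ (norm_nonneg z)).2 hz
    linarith
  have h5 : ‖c‖ ≠ 0 := norm_ne_zero_iff.2 hc
  have h6 : yp p (act g (bl z)) = (1 - ‖z‖ ^ 2) / (‖c‖ ^ 2 * ‖1 - ⟪ξ, z⟫_ℂ‖ ^ 2) := by
    rw [← h1, yp_act, yp, he, q_bl, herm_smul_right, herm_bl, norm_mul, mul_pow]
    congr 1
    · ring
    · rw [norm_sub_rev 1, ← norm_star (⟪ξ, z⟫_ℂ - 1), star_sub, star_one]
      congr 4
      exact (inner_conj_symm z ξ).symm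
  rw [h6, Real.log_div h4.ne' (by positivity), Real.log_mul (by positivity) (by positivity),
    Complex.log_re, Real.log_pow (n := 2) (x := ‖1 - ⟪ξ, z⟫_ℂ‖)]
  push_cast
  ring

private theorem cpn2_real {a b δ ε T : ℝ} (a0 : 0 ≤ a) (a1 : a < 1) (b0 : 0 ≤ b) (b1 : b < 1)
    (hab : (1 - δ) ^ 2 * a ≤ b) (hT : 1 / (1 - a) ≤ T) (_hT0 : 0 < T) (hδ : 0 < δ)
    (hδ1 : δ ≤ 1 / 2)
    (h : 2 * δ * T ≤ ε) (hε : 0 < ε) : (1 - ε) * (1 / (1 - a) - 1) ≤ 1 / (1 - b) - 1 := by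
  have e1 : 1 / (1 - a) - 1 = a / (1 - a) := by
    have : 1 - a ≠ 0 := by linarith
    field_simp
    ring
  have e2 : 1 / (1 - b) - 1 = b / (1 - b) := by
    have : 1 - b ≠ 0 := by linarith
    field_simp
    ring
  rw [e1, e2]
  have k1 : 0 < 1 - a := by linarith
  have k2 : 0 < 1 - b := by linarith
  rcases le_or_gt 1 ε with h1 | h1
  · have h2 : (1 - ε) * (a / (1 - a)) ≤ 0 :=
      mul_nonpos_of_nonpos_of_nonneg (by linarith) (by positivity)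
    have h3 : 0 ≤ b / (1 - b) := by positivity
    linarith
  rw [← mul_div_assoc, div_le_div_iff₀ k1 k2]
  have k3 : 1 ≤ T * (1 - a) := by rwa [div_le_iff₀ k1] at hT
  have k4 : 2 * δ ≤ ε * (1 - a) := by
    have h2 : 2 * δ * 1 ≤ 2 * δ * (T * (1 - a)) := mul_le_mul_of_nonneg_left k3 (by linarith)
    have h3 : 2 * δ * T * (1 - a) ≤ ε * (1 - a) := mul_le_mul_of_nonneg_right h k1.le
    linarith
  have k5 : 0 ≤ (b - (1 - δ) ^ 2 * a) * (1 - ε * a) := by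
    refine mul_nonneg (by linarith) ?_
    nlinarith
  have k6 : 0 ≤ a * (ε * (1 - a) - 2 * δ) := mul_nonneg a0 (by linarith)
  have k7 : (1 - δ) ^ 2 * a ≤ a := by
    have : (1 - δ) ^ 2 ≤ 1 := by nlinarith
    nlinarith
  have k8 : 0 ≤ ε * a * (a - (1 - δ) ^ 2 * a) := mul_nonneg (by positivity) (by linarith)
  have k9 : 0 ≤ a * δ ^ 2 := by positivity
  linarith [k5, k6, k8, k9]

open scoped InnerProductSpace in
/-- Small oscillation of `Aq` gives almost isometry. PROOF: move `v` and `f v` to the base points (`exists_act_eq`), take the lift `φ` of `f` (`exists_ball` at `g`), and restrict to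
the disc through `w`: `Aq = log (1 - |φ|²) - log (1 - |t|²) - log |herm p' φ̂|² + log |herm p t̂|²`, the last two terms are real parts of holomorphic functions on the disc
(nonvanishing holomorphic functions on the disc have logarithms). `cc = 4/3` corresponds to `|t| = 1/2`. Conclusion from `disc_iso` with `r`
given by `T`, and `|φ|² ≥ |t|²(1-δ)` gives `|φ|²/(1-|φ|²) ≥ (1-ε)|t|²/(1-|t|²)` for `δ` small. -/
theorem near_iso (T : ℝ) {ε : ℝ} (hε : 0 < ε) : ∃ ω : ℝ, 0 < ω ∧ ∀ (f : Vec m → Vec n),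
    HMap f → ∀ (p : Vec m) (p' : Vec n), p ≠ 0 → q p = 0 → p' ≠ 0 → q p' = 0 → ∀ v ∈ Cone m,
      (∀ w ∈ Cone m, cc v w ≤ 4 / 3 → |Aq f p' p w - Aq f p' p v| ≤ ω) →
      ∀ w ∈ Cone m, cc v w ≤ T → (1 - ε) * (cc v w - 1) ≤ cc (f v) (f w) - 1 := by
  -- constants
  obtain ⟨T', hT, hT1⟩ : ∃ T' : ℝ, T ≤ T' ∧ 1 ≤ T' := ⟨max T 1, le_max_left _ _, le_max_right _ _⟩
  have hT0 : 0 < T' := by linarith
  obtain ⟨δ, hδ0, hδ1, hδ2⟩ : ∃ δ : ℝ, 0 < δ ∧ δ ≤ 1 / 2 ∧ 2 * δ * T' ≤ ε := by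
    refine ⟨min (1 / 2) (ε / (2 * T')), by positivity, min_le_left _ _, ?_⟩
    have h1 : min (1 / 2) (ε / (2 * T')) ≤ ε / (2 * T') := min_le_right _ _
    rw [le_div_iff₀ (by positivity)] at h1
    linarith
  have hr1 : 1 - 1 / (2 * T') < 1 := by
    have : 0 < 1 / (2 * T') := by positivity
    linarith
  obtain ⟨ω, hω, hdi⟩ := disc_iso hr1 hδ0
  refine ⟨ω, hω, fun f hf p p' hp hqp hp' hqp' v hv hA w hw hcw => ?_⟩
  obtain ⟨g, c, hc, rfl⟩ := exists_act_eq hv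
  obtain ⟨φ, g', hd, hm, h0, h⟩ := exists_ball hf g
  obtain ⟨ξ, C, hξ, hy⟩ := cpn2_yp hp hqp g
  obtain ⟨ξ', C', hξ', hy'⟩ := cpn2_yp hp' hqp' g'
  have hφ : ∀ z : E m, ‖z‖ < 1 → ‖φ z‖ < 1 := fun z hz =>
    mem_ball_zero_iff.1 (hm (mem_ball_zero_iff.2 hz))
  have hmem : ∀ z : E m, ‖z‖ < 1 → act g (bl z) ∈ Cone m := fun z hz =>
    act_mem g (bl_mem.2 hz)
  have hz0 : ‖(0 : E m)‖ < 1 := by rw [norm_zero]; exact one_pos
  have hyf : ∀ z : E m, ‖z‖ < 1 → Real.log (yp p' (f (act g (bl z)))) =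
      C' + Real.log (1 - ‖φ z‖ ^ 2) - 2 * (Complex.log (1 - ⟪ξ', φ z⟫_ℂ)).re := by
    intro z hz
    obtain ⟨d, hd0, hd1⟩ := h z hz
    rw [hd1, yp_homog p' d hd0 _ (act_mem g' (bl_mem.2 (hφ z hz)))]
    exact hy' _ (hφ z hz)
  have hAz : ∀ z : E m, ‖z‖ < 1 → Aq f p' p (act g (bl z)) =
      C' + Real.log (1 - ‖φ z‖ ^ 2) - 2 * (Complex.log (1 - ⟪ξ', φ z⟫_ℂ)).re -
        (C + Real.log (1 - ‖z‖ ^ 2) - 2 * (Complex.log (1 - ⟪ξ, z⟫_ℂ)).re) := by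
    intro z hz
    rw [Aq, hyf z hz, hy z hz]
  have hA0 : Aq f p' p (c • act g (base m)) = C' - C := by
    have e1 : Aq f p' p (c • act g (base m)) = Aq f p' p (act g (bl 0)) := by
      rw [Aq, Aq, ← bl_zero, hf.hom c hc _ (hmem 0 hz0), yp_homog p' c hc _
        (hf.maps _ (hmem 0 hz0)), yp_homog p c hc _ (hmem 0 hz0)]
    rw [e1, hAz 0 hz0, h0]
    simp
  -- the point `w`
  have hw' : act g⁻¹ w ∈ Cone m := act_mem _ hw
  have hl := last_ne hw'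
  have hζ := pr_mem hw'
  have e1 : w = act g⁻¹ w (Fin.last m) • act g (bl (pr (act g⁻¹ w))) := by
    rw [← act_smul, ← bl_pr hw', ← act_mul, mul_inv_cancel, act_one]
  obtain ⟨ζ, hζe⟩ : ∃ ζ, ζ = pr (act g⁻¹ w) := ⟨_, rfl⟩
  rw [← hζe] at hζ e1
  have hccz : ∀ z : E m, ‖z‖ < 1 → cc (c • act g (base m)) (act g (bl z)) =
      1 / (1 - ‖z‖ ^ 2) := by
    intro z hz
    rw [cc_smul_left hc, cc_act, ← bl_zero, cc_bl, ccb, inner_zero_left, norm_zero, sub_zero,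
      norm_one]
    norm_num
  have hc1 : cc (c • act g (base m)) w = 1 / (1 - ‖ζ‖ ^ 2) := by
    rw [e1, cc_smul_right hl, hccz ζ hζ]
  have hc2 : cc (f (c • act g (base m))) (f w) = 1 / (1 - ‖φ ζ‖ ^ 2) := by
    rw [e1, hf.hom c hc _ (orbit_mem g), hf.hom _ hl _ (hmem ζ hζ), cc_smul_left hc,
      cc_smul_right hl, ← bl_zero, cc_ball h hz0 hζ, h0, ccb, inner_zero_left, norm_zero,
      sub_zero, norm_one]
    norm_num
  rw [hc1, hc2]
  rw [hc1] at hcw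
  have a1 : ‖ζ‖ ^ 2 < 1 := (sq_lt_one_iff₀ (norm_nonneg _)).2 hζ
  have b1 : ‖φ ζ‖ ^ 2 < 1 := (sq_lt_one_iff₀ (norm_nonneg _)).2 (hφ ζ hζ)
  refine cpn2_real (by positivity) a1 (by positivity) b1 ?_ (hcw.trans hT) hT0 hδ0 hδ1 hδ2 hε
  rw [← mul_pow]
  refine pow_le_pow_left₀ (mul_nonneg (by linarith) (norm_nonneg _)) ?_ 2
  by_cases hζ0 : ζ = 0
  · rw [hζ0, norm_zero, mul_zero]
    exact norm_nonneg _
  have hn0 : ‖ζ‖ ≠ 0 := norm_ne_zero_iff.2 hζ0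
  obtain ⟨u, hu1, hu2⟩ : ∃ u : E m, ‖u‖ = 1 ∧ ζ = ((‖ζ‖ : ℝ) : ℂ) • u := by
    refine ⟨(((‖ζ‖ : ℝ) : ℂ))⁻¹ • ζ, ?_, ?_⟩
    · rw [norm_smul, norm_inv, Complex.norm_real, norm_norm, inv_mul_cancel₀ hn0]
    · rw [smul_smul, mul_inv_cancel₀ (by exact_mod_cast hn0), one_smul]
  have hnu : ∀ t : ℂ, ‖t • u‖ = ‖t‖ := fun t => by rw [norm_smul, hu1, mul_one]
  have hdu : Differentiable ℂ (fun t : ℂ => t • u) := differentiable_id.smul_const u
  have hmu : Set.MapsTo (fun t : ℂ => t • u) (ball 0 1) (ball 0 1) := by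
    intro t ht
    rw [mem_ball_zero_iff] at ht ⊢
    rw [hnu]
    exact ht
  have hφu : DifferentiableOn ℂ (fun t : ℂ => φ (t • u)) (ball 0 1) :=
    hd.comp hdu.differentiableOn hmu
  have key := hdi n (fun t => φ (t • u)) (fun t => 2 * Complex.log (1 - ⟪ξ', φ (t • u)⟫_ℂ) -
    2 * Complex.log (1 - ⟪ξ, t • u⟫_ℂ)) hφu (fun t ht => hm (hmu ht)) (by simp [h0]) ?_
    (by simp [h0]) ?_ ((‖ζ‖ : ℝ) : ℂ) ?_
  · rw [← hu2, Complex.norm_real, norm_norm] at key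
    exact key
  · have i1 : DifferentiableOn ℂ (fun t : ℂ => 1 - ⟪ξ', φ (t • u)⟫_ℂ) (ball 0 1) :=
      (differentiableOn_const 1).sub ((innerSL ℂ ξ').differentiable.comp_differentiableOn hφu)
    have i2 : DifferentiableOn ℂ (fun t : ℂ => 1 - ⟪ξ, t • u⟫_ℂ) (ball 0 1) :=
      (differentiableOn_const 1).sub
        ((innerSL ℂ ξ).differentiable.comp_differentiableOn hdu.differentiableOn)
    refine ((i1.clog fun t ht => ?_).const_mul 2).sub ((i2.clog fun t ht => ?_).const_mul 2)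
    · exact cpn2_slit hξ' (hφ _ (mem_ball_zero_iff.1 (hmu ht)))
    · exact cpn2_slit hξ (mem_ball_zero_iff.1 (hmu ht))
  · intro t ht
    have ht1 : ‖t • u‖ < 1 := by
      rw [hnu]
      linarith
    have ht2 : ‖t • u‖ ^ 2 ≤ 1 / 4 := by
      rw [hnu]
      have := pow_le_pow_left₀ (norm_nonneg t) ht 2
      linarith
    have h2 := hA _ (hmem _ ht1) (by
      rw [hccz _ ht1, div_le_div_iff₀ (by linarith) (by norm_num)]
      linarith)
    rw [hAz _ ht1, hA0, hnu] at h2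
    have h3 := (abs_le.1 h2).2
    simp only [Complex.sub_re, Complex.mul_re, Complex.re_ofNat, Complex.im_ofNat, zero_mul,
      sub_zero]
    linarith
  · rw [Complex.norm_real, norm_norm]
    have h2 : 1 / T' ≤ 1 - ‖ζ‖ ^ 2 := by
      have := hcw.trans hT
      rw [div_le_iff₀ (by linarith)] at this
      rw [div_le_iff₀ hT0]
      linarith
    have h3 : ‖ζ‖ ^ 2 ≤ (1 - 1 / (2 * T')) ^ 2 := by
      have h4 : (1 - 1 / (2 * T')) ^ 2 = 1 - 1 / T' + (1 / (2 * T')) ^ 2 := by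
        field_simp
        ring
      rw [h4]
      have := sq_nonneg (1 / (2 * T'))
      linarith
    have h4 : 0 ≤ 1 - 1 / (2 * T') := by
      have : 1 / (2 * T') ≤ 1 := by
        rw [div_le_one (by positivity)]
        linarith
      linarith
    exact (sq_le_sq₀ (norm_nonneg _) h4).1 h3

end Pool.Agent.Lib.MP_5d4057_al.RG
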