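import Pool.Agent.Lib.MP_5d4057_al.RC.Orth
import Pool.Agent.Lib.MP_5d4057_al.HM.AppStdH

/-!
# RG: rigidity in codimension one. Definitions

A discrete faithful representation of a lattice of `SU(m,1)`, `m ≥ 3`, in `SU(m+1,1)` preserves a
complex hyperplane.
-/

set_option autoImplicit false

namespace Pool.Agent.Lib.MP_5d4057_al.RG

open Matrix Filter Topology Pool.Agent.Lib.MP_5d4057_al Pool.Agent.Lib.MP_5d4057_al.Hyb
  Pool.Agent.Lib.MP_5d4057_al.HM

open scoped ComplexOrder MatrixOrder Matrix.Norms.L2Operator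

variable {m n : ℕ}

/-- `cosh²` of the distance of two points of complex hyperbolic space. -/
noncomputable def cc (v w : Vec n) : ℝ := ‖herm v w‖ ^ 2 / (q v * q w)

/-- Holomorphic maps of complex hyperbolic spaces (homogeneous lifts). -/
structure HMap (f : Vec m → Vec n) : Prop where
  diff : DifferentiableOn ℂ f (Cone m)
  hom : ∀ c : ℂ, c ≠ 0 → ∀ v ∈ Cone m, f (c • v) = c • f v
  maps : ∀ v ∈ Cone m, f v ∈ Cone n

/-- Representations with values in `U(n,1)`. -/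
def UJ {Γ : Subgroup (SUGroup m)} (ρ : Γ →* Mat (n + 1)) : Prop :=
  ∀ γ : Γ, (ρ γ)ᴴ * J n * ρ γ = J n

/-- Finite kernel and discrete image. -/
def Prp {Γ : Subgroup (SUGroup m)} (ρ : Γ →* Mat (n + 1)) : Prop :=
  ∀ C : ℝ, {γ : Γ | ‖ρ γ‖ ≤ C}.Finite

/-- Equivariance of a map of hyperbolic spaces. -/
def Eqv {Γ : Subgroup (SUGroup m)} (ρ : Γ →* Mat (n + 1)) (f : Vec m → Vec n) : Prop :=
  ∀ γ : Γ, ∀ v ∈ Cone m, ∃ c : ℂ, c ≠ 0 ∧ f (act (γ : SUGroup m) v) = c • (ρ γ *ᵥ f v)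

/-- The complex conjugate of a representation. -/
noncomputable def rcj {Γ : Subgroup (SUGroup m)} (ρ : Γ →* Mat (n + 1)) : Γ →* Mat (n + 1) where
  toFun γ := (ρ γ).map cj
  map_one' := by simp
  map_mul' a b := by rw [map_mul, Matrix.map_mul]

/-- The metric `F` is `std ∘ x`, with `x` normalised by `x_last = v_last`. -/
structure Lft (F : Vec m → Mat (n + 1)) (x : Vec m → Vec n) : Prop where
  cd : ContDiffOn ℝ 2 x (Cone m)
  hom : ∀ c : ℂ, c ≠ 0 → ∀ v ∈ Cone m, x (c • v) = c • x v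
  last : ∀ v ∈ Cone m, x v (Fin.last n) = v (Fin.last m)
  cone : ∀ v ∈ Cone m, x v ∈ Cone n
  eq : ∀ v ∈ Cone m, F v = std (x v)

end Pool.Agent.Lib.MP_5d4057_al.RG
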