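import Pool.Agent.Lib.MP_5d4057_al.RG.RepN
import Pool.Agent.Lib.MP_5d4057_al.RG.FGN
import Pool.Agent.Lib.MP_5d4057_al.RG.Final

/-!
# RG C11: the theorem for the amalgam, all lattices (owner: helper53)
-/

set_option autoImplicit false

namespace Pool.Agent.Lib.MP_5d4057_al.RG

open Matrix Filter Topology Pool.Agent.Lib.MP_5d4057_al Pool.Agent.Lib.MP_5d4057_al.Hyb
  Pool.Agent.Lib.MP_5d4057_al.HM Pool.Agent.Lib.MP_5d4057_al.NU

/-- **The theorem for all arithmetic lattices.** -/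
theorem amalgam_all (k : ℕ) (hk : 1 ≤ k) (Γ₃ : Subgroup (SUGroup k))
    (Γ : Fin 2 → Subgroup (SUGroup (k + 1))) (h₃ : IsLattice Γ₃) (hL : ∀ b, IsLattice (Γ b))
    (hA : ∀ b, IsArith (k + 1) (Γ b))
    (ι : ∀ b, Γ₃ →* Γ b) (hι : ∀ b, Function.Injective (ι b))
    (ρ : Monoid.PushoutI ι →* SUGroup (k + 2))
    (hinj : ∀ b, Function.Injective (ρ.comp (Monoid.PushoutI.of b)))
    (hfin : ∀ b, FinCh (ρ.comp (Monoid.PushoutI.of b)))
    (hlat : IsLattice ρ.range) : IsArith (k + 2) ρ.range := by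
  have hf : ∀ b, FGG (Γ b) := fun b => RC.fgg_of_isArith (hA b)
  exact amalgam_rig k hk Γ₃ Γ h₃ hL hA (fun b => geoV_of_lat (by omega) (hL b) (hf b))
    (fun b => fg_of_lat (by omega) (hL b) (hf b)) ι hι ρ hinj hfin hlat

end Pool.Agent.Lib.MP_5d4057_al.RG
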