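import Mathlib.Analysis.Complex.MeanValue
import Mathlib.Analysis.InnerProductSpace.Basic
import Mathlib.Analysis.SpecialFunctions.Log.Deriv

/-!
# RG G1: expansions of order two along holomorphic curves

`JetK.nonneg`: choose `H`; at `s = 0` the expansion gives `h 0 = Re H 0`. The mean of `Re H` over a small
circle of radius `r` is `Re H 0`, so `0 ≤ κ r^(2k) + C r^(2k+1)`.
-/

set_option autoImplicit false

namespace Pool.Agent.Lib.MP_5d4057_al.RG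

open Filter Topology Asymptotics

open scoped InnerProductSpace

variable {E : Type} [NormedAddCommGroup E] [InnerProductSpace ℂ E]

/-- `h(s) = Re H(s) + κ |s|^(2k) + O(|s|^(2k+1))` with `H` holomorphic. -/
def JetK (k : ℕ) (h : ℂ → ℝ) (κ : ℝ) : Prop :=
  ∃ H : ℂ → ℂ, AnalyticAt ℂ H 0 ∧
    (fun s : ℂ => h s - (H s).re - κ * ‖s‖ ^ (2 * k)) =O[𝓝 0] fun s : ℂ => ‖s‖ ^ (2 * k + 1)

private theorem jt_ev {p : ℂ → Prop} (h : ∀ᶠ s in 𝓝 (0 : ℂ), p s) :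
    ∃ δ > 0, ∀ s : ℂ, ‖s‖ < δ → p s := by
  obtain ⟨δ, hδ, h1⟩ := Metric.eventually_nhds_iff.1 h
  exact ⟨δ, hδ, fun s hs => h1 (by rwa [dist_zero_right])⟩

theorem JetK.nonneg {k : ℕ} (hk : 1 ≤ k) {h : ℂ → ℝ} {κ : ℝ} (hj : JetK k h κ)
    (hmin : ∀ᶠ s in 𝓝 (0 : ℂ), h 0 ≤ h s) : 0 ≤ κ := by
  obtain ⟨H, hH, hO⟩ := hj
  obtain ⟨C, hC0, hC⟩ := hO.exists_pos
  rw [IsBigOWith] at hC
  have h0 : h 0 = (H 0).re := by
    have h1 := hC.self_of_nhds
    have h2 : 2 * k ≠ 0 := by omega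
    rw [norm_zero, zero_pow h2, zero_pow (Nat.succ_ne_zero _), norm_zero, mul_zero, mul_zero,
      sub_zero, norm_le_zero_iff] at h1
    linarith
  obtain ⟨δ₁, hδ₁, h1⟩ := jt_ev (hC.and (hmin.and hH.eventually_analyticAt))
  have key : ∀ r : ℝ, 0 < r → r < δ₁ → 0 ≤ κ + C * r := by
    intro r hr hrδ
    have hd : DiffContOnCl ℂ H (Metric.ball 0 |r|) := by
      refine DifferentiableOn.diffContOnCl ?_
      intro z hz
      have hz' := Metric.closure_ball_subset_closedBall hz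
      rw [Metric.mem_closedBall, dist_zero_right, abs_of_pos hr] at hz'
      exact (h1 z (by linarith)).2.2.differentiableAt.differentiableWithinAt
    have hcont : ContinuousOn H (Metric.sphere 0 |r|) := by
      refine hd.continuousOn.mono ?_
      rw [closure_ball _ (abs_pos.2 hr.ne').ne']
      exact Metric.sphere_subset_closedBall
    have hint : CircleIntegrable H 0 r := hcont.circleIntegrable'
    have h2 := hd.circleAverage
    have h3 : Real.circleAverage (fun z => (H z).re) 0 r = (H 0).re := by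
      have h4 := Complex.reCLM.circleAverage_comp_comm (f := H) (c := 0) (R := r) hint
      rw [h2] at h4
      exact h4
    have hre : CircleIntegrable (fun z => (H z).re) 0 r :=
      (Complex.continuous_re.comp_continuousOn hcont).circleIntegrable'
    have h5 : Real.circleAverage (fun _ : ℂ => (H 0).re - (κ * r ^ (2 * k) + C * r ^ (2 * k + 1)))
        0 r ≤ Real.circleAverage (fun z => (H z).re) 0 r := by
      refine Real.circleAverage_mono ?_ hre ?_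
      · exact continuousOn_const.circleIntegrable'
      · intro z hz
        rw [Metric.mem_sphere, dist_zero_right, abs_of_pos hr] at hz
        obtain ⟨h6, h7, -⟩ := h1 z (by rw [hz]; exact hrδ)
        rw [Real.norm_eq_abs, hz, Real.norm_eq_abs, abs_of_pos (pow_pos hr _)] at h6
        have h8 := (abs_le.1 h6).2
        rw [h0] at h7
        linarith
    rw [Real.circleAverage_const, h3] at h5
    have h9 : 0 ≤ r ^ (2 * k) * (κ + C * r) := by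
      have : r ^ (2 * k) * (κ + C * r) = κ * r ^ (2 * k) + C * r ^ (2 * k + 1) := by ring
      rw [this]
      linarith
    exact nonneg_of_mul_nonneg_right h9 (pow_pos hr _)
  by_contra hneg
  rw [not_le] at hneg
  obtain ⟨r, hr⟩ : ∃ r, r = min (δ₁ / 2) (-κ / (2 * C)) := ⟨_, rfl⟩
  have hr0 : 0 < r := by
    rw [hr]
    exact lt_min (by linarith) (div_pos (by linarith) (by linarith))
  have hr1 : r < δ₁ := by
    rw [hr]
    exact (min_le_left _ _).trans_lt (by linarith)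
  have hr2 : C * r ≤ -κ / 2 := by
    have h2 : r ≤ -κ / (2 * C) := by rw [hr]; exact min_le_right _ _
    calc C * r ≤ C * (-κ / (2 * C)) := mul_le_mul_of_nonneg_left h2 hC0.le
      _ = -κ / 2 := by field_simp
  have := key r hr0 hr1
  linarith

/-- `h(s) = a + 2 Re(α s) + κ |s|² + 2 Re(β s²) + O(|s|³)`. -/
def Jet2 (h : ℂ → ℝ) (a : ℝ) (α : ℂ) (κ : ℝ) : Prop :=
  ∃ β : ℂ, (fun s : ℂ => h s - (a + 2 * (α * s).re + κ * ‖s‖ ^ 2 + 2 * (β * s ^ 2).re)) =O[𝓝 0]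
    fun s : ℂ => ‖s‖ ^ 3

theorem Jet2.jetK {h : ℂ → ℝ} {a κ : ℝ} {α : ℂ} (hj : Jet2 h a α κ) : JetK 1 h κ := by
  obtain ⟨β, hβ⟩ := hj
  refine ⟨fun s => a + 2 * (α * s) + 2 * (β * s ^ 2), ?_, ?_⟩
  · have : Differentiable ℂ fun s : ℂ => (a : ℂ) + 2 * (α * s) + 2 * (β * s ^ 2) := by fun_prop
    exact this.analyticAt 0
  · refine hβ.congr_left fun s => ?_
    have h1 : ((a : ℂ) + 2 * (α * s) + 2 * (β * s ^ 2)).re =
        a + 2 * (α * s).re + 2 * (β * s ^ 2).re := by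
      rw [Complex.add_re, Complex.add_re, Complex.ofReal_re]
      congr 1
      · congr 1
        simp
      · simp
    rw [h1, mul_one]
    ring

theorem Jet2.val {h : ℂ → ℝ} {a κ : ℝ} {α : ℂ} (hj : Jet2 h a α κ) : h 0 = a := by
  obtain ⟨β, hβ⟩ := hj
  obtain ⟨C, hC⟩ := hβ.bound
  have h1 := hC.self_of_nhds
  simp only [norm_zero, mul_zero, Complex.zero_re, ne_eq, OfNat.ofNat_ne_zero, not_false_eq_true,
    zero_pow, add_zero, norm_le_zero_iff] at h1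
  linarith

private theorem jt_lin (α : ℂ) : (fun s : ℂ => 2 * (α * s).re) =O[𝓝 0] fun s : ℂ => ‖s‖ := by
  refine IsBigO.of_bound (2 * ‖α‖) (Eventually.of_forall fun s => ?_)
  rw [Real.norm_eq_abs, abs_mul, abs_two, norm_norm, mul_assoc, ← norm_mul]
  exact mul_le_mul_of_nonneg_left (Complex.abs_re_le_norm _) (by norm_num)

private theorem jt_quad (κ : ℝ) (β : ℂ) :
    (fun s : ℂ => κ * ‖s‖ ^ 2 + 2 * (β * s ^ 2).re) =O[𝓝 0] fun s : ℂ => ‖s‖ ^ 2 := by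
  refine IsBigO.of_bound (|κ| + 2 * ‖β‖) (Eventually.of_forall fun s => ?_)
  rw [Real.norm_eq_abs, Real.norm_eq_abs, abs_of_nonneg (sq_nonneg ‖s‖)]
  refine (abs_add_le _ _).trans ?_
  rw [abs_mul, abs_mul, abs_two, abs_of_nonneg (sq_nonneg ‖s‖), add_mul]
  refine add_le_add le_rfl ?_
  rw [mul_assoc, ← norm_pow, ← norm_mul]
  exact mul_le_mul_of_nonneg_left (Complex.abs_re_le_norm _) (by norm_num)

private theorem jt_pow {i j : ℕ} (h : j ≤ i) :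
    (fun s : ℂ => ‖s‖ ^ i) =O[𝓝 0] fun s : ℂ => ‖s‖ ^ j := by
  refine IsBigO.of_bound 1 ?_
  filter_upwards [Metric.ball_mem_nhds (0 : ℂ) one_pos] with s hs
  rw [Metric.mem_ball, dist_zero_right] at hs
  rw [norm_pow, norm_pow, norm_norm, one_mul]
  exact pow_le_pow_of_le_one (norm_nonneg _) hs.le h

private theorem jt_mul {f g : ℂ → ℝ} {i j l : ℕ} (hf : f =O[𝓝 0] fun s : ℂ => ‖s‖ ^ i)
    (hg : g =O[𝓝 0] fun s : ℂ => ‖s‖ ^ j) (h : l ≤ i + j) :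
    (fun s => f s * g s) =O[𝓝 0] fun s : ℂ => ‖s‖ ^ l := by
  refine ((hf.mul hg).congr_right fun s => ?_).trans (jt_pow h)
  rw [pow_add]

private theorem jt_lin' (α : ℂ) : (fun s : ℂ => 2 * (α * s).re) =O[𝓝 0] fun s : ℂ => ‖s‖ ^ 1 := by
  simpa only [pow_one] using jt_lin α

/-- The first order part. -/
theorem Jet2.one {h : ℂ → ℝ} {a κ : ℝ} {α : ℂ} (hj : Jet2 h a α κ) :
    (fun s : ℂ => h s - (a + 2 * (α * s).re)) =O[𝓝 0] fun s : ℂ => ‖s‖ ^ 2 := by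
  obtain ⟨β, hβ⟩ := hj
  refine ((hβ.trans (jt_pow (by norm_num : 2 ≤ 3))).add (jt_quad κ β)).congr_left fun s => ?_
  ring

theorem Jet2.zero {h : ℂ → ℝ} {a κ : ℝ} {α : ℂ} (hj : Jet2 h a α κ) :
    (fun s : ℂ => h s - a) =O[𝓝 0] fun s : ℂ => ‖s‖ ^ 1 := by
  refine ((hj.one.trans (jt_pow (by norm_num : 1 ≤ 2))).add (jt_lin' α)).congr_left fun s => ?_
  ring

theorem Jet2.tendsto {h : ℂ → ℝ} {a κ : ℝ} {α : ℂ} (hj : Jet2 h a α κ) :
    Tendsto h (𝓝 0) (𝓝 a) := by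
  have h1 : Tendsto (fun s : ℂ => ‖s‖ ^ 1) (𝓝 0) (𝓝 0) := by
    have : Continuous fun s : ℂ => ‖s‖ ^ 1 := by fun_prop
    simpa using this.tendsto 0
  have h2 := hj.zero.trans_tendsto h1
  have h3 := h2.add_const a
  simpa using h3

/-- At a local minimum. -/
theorem Jet2.nonneg {h : ℂ → ℝ} {a κ : ℝ} {α : ℂ} (hj : Jet2 h a α κ)
    (hmin : ∀ᶠ s in 𝓝 (0 : ℂ), h 0 ≤ h s) : α = 0 ∧ 0 ≤ κ := by
  refine ⟨?_, hj.jetK.nonneg le_rfl hmin⟩
  by_contra hα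
  have hα' : 0 < ‖α‖ := norm_pos_iff.2 hα
  obtain ⟨C, hC0, hC⟩ := hj.one.exists_pos
  rw [IsBigOWith] at hC
  obtain ⟨δ, hδ, h1⟩ := jt_ev (hC.and hmin)
  obtain ⟨t, ht⟩ : ∃ t, t = min (δ / (2 * ‖α‖)) (1 / C) := ⟨_, rfl⟩
  have ht0 : 0 < t := by
    rw [ht]
    exact lt_min (div_pos hδ (by linarith)) (one_div_pos.2 hC0)
  have ht1 : t * ‖α‖ < δ := by
    have h2 : t ≤ δ / (2 * ‖α‖) := by rw [ht]; exact min_le_left _ _
    calc t * ‖α‖ ≤ δ / (2 * ‖α‖) * ‖α‖ := mul_le_mul_of_nonneg_right h2 hα'.le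
      _ = δ / 2 := by field_simp
      _ < δ := by linarith
  have ht2 : C * t ≤ 1 := by
    have h2 : t ≤ 1 / C := by rw [ht]; exact min_le_right _ _
    calc C * t ≤ C * (1 / C) := mul_le_mul_of_nonneg_left h2 hC0.le
      _ = 1 := by field_simp
  have hs : ‖-((t : ℂ) * star α)‖ = t * ‖α‖ := by
    rw [norm_neg, norm_mul, norm_star, Complex.norm_real, Real.norm_eq_abs, abs_of_pos ht0]
  obtain ⟨h2, h3⟩ := h1 (-((t : ℂ) * star α)) (by rw [hs]; exact ht1)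
  have h4 : (α * -((t : ℂ) * star α)).re = -(t * ‖α‖ ^ 2) := by
    have : α * -((t : ℂ) * star α) = -((t : ℂ) * (α * star α)) := by ring
    rw [this, Complex.star_def, Complex.mul_conj, Complex.normSq_eq_norm_sq, ← Complex.ofReal_mul,
      Complex.neg_re, Complex.ofReal_re]
  rw [h4, norm_pow, norm_norm, hs, Real.norm_eq_abs] at h2
  have h5 := (abs_le.1 h2).2
  rw [hj.val] at h3
  have h6 : t * ‖α‖ ^ 2 * (2 - C * t) ≤ 0 := by nlinarith
  have h7 : 0 < t * ‖α‖ ^ 2 * (2 - C * t) := by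
    refine mul_pos (by positivity) (by linarith)
  linarith

theorem Jet2.congr {h h' : ℂ → ℝ} {a κ : ℝ} {α : ℂ} (hj : Jet2 h a α κ)
    (he : ∀ᶠ s in 𝓝 (0 : ℂ), h' s = h s) : Jet2 h' a α κ := by
  obtain ⟨β, hβ⟩ := hj
  refine ⟨β, hβ.congr' ?_ EventuallyEq.rfl⟩
  filter_upwards [he] with s hs
  rw [hs]

theorem Jet2.const (a : ℝ) : Jet2 (fun _ => a) a 0 0 := by
  refine ⟨0, ?_⟩
  have h1 : (fun s : ℂ => a - (a + 2 * (0 * s).re + 0 * ‖s‖ ^ 2 + 2 * (0 * s ^ 2).re)) =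
      fun _ => 0 := by
    funext s
    simp
  rw [h1]
  exact isBigO_zero _ _

theorem Jet2.add {h h' : ℂ → ℝ} {a a' κ κ' : ℝ} {α α' : ℂ} (hj : Jet2 h a α κ)
    (hj' : Jet2 h' a' α' κ') : Jet2 (fun s => h s + h' s) (a + a') (α + α') (κ + κ') := by
  obtain ⟨β, hβ⟩ := hj
  obtain ⟨β', hβ'⟩ := hj'
  refine ⟨β + β', (hβ.add hβ').congr_left fun s => ?_⟩
  rw [add_mul α, add_mul β, Complex.add_re, Complex.add_re]
  ring

theorem Jet2.smul {h : ℂ → ℝ} {a κ : ℝ} {α : ℂ} (hj : Jet2 h a α κ) (c : ℝ) :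
    Jet2 (fun s => c * h s) (c * a) (c * α) (c * κ) := by
  obtain ⟨β, hβ⟩ := hj
  refine ⟨c * β, (hβ.const_mul_left c).congr_left fun s => ?_⟩
  rw [mul_assoc (c : ℂ), mul_assoc (c : ℂ), Complex.re_ofReal_mul, Complex.re_ofReal_mul]
  ring

theorem Jet2.sub {h h' : ℂ → ℝ} {a a' κ κ' : ℝ} {α α' : ℂ} (hj : Jet2 h a α κ)
    (hj' : Jet2 h' a' α' κ') : Jet2 (fun s => h s - h' s) (a - a') (α - α') (κ - κ') := by
  obtain ⟨β, hβ⟩ := hj
  obtain ⟨β', hβ'⟩ := hj'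
  refine ⟨β - β', (hβ.sub hβ').congr_left fun s => ?_⟩
  rw [sub_mul α, sub_mul β, Complex.sub_re, Complex.sub_re]
  ring

theorem Jet2.mul {h h' : ℂ → ℝ} {a a' κ κ' : ℝ} {α α' : ℂ} (hj : Jet2 h a α κ)
    (hj' : Jet2 h' a' α' κ') : Jet2 (fun s => h s * h' s) (a * a') (a * α' + a' * α)
      (a * κ' + a' * κ + 2 * (α * star α').re) := by
  obtain ⟨β, hβ⟩ := id hj
  obtain ⟨β', hβ'⟩ := id hj'
  refine ⟨a * β' + a' * β + α * α', ?_⟩
  have hb : h' =O[𝓝 0] fun s : ℂ => ‖s‖ ^ 0 := by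
    simp only [pow_zero]
    exact hj'.tendsto.isBigO_one ℝ
  have hP : (fun s : ℂ => a + 2 * (α * s).re + κ * ‖s‖ ^ 2 + 2 * (β * s ^ 2).re) =O[𝓝 0]
      fun s : ℂ => ‖s‖ ^ 0 := by
    simp only [pow_zero]
    have : Continuous fun s : ℂ => a + 2 * (α * s).re + κ * ‖s‖ ^ 2 + 2 * (β * s ^ 2).re := by
      fun_prop
    exact this.continuousAt.isBigO_one ℝ
  have e1 := jt_mul hβ hb (show 3 ≤ 3 + 0 by norm_num)
  have e2 := jt_mul hP hβ' (show 3 ≤ 0 + 3 by norm_num)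
  have e3 := jt_mul (jt_lin' α) (jt_quad κ' β') (show 3 ≤ 1 + 2 by norm_num)
  have e4 := jt_mul (jt_quad κ β) (jt_lin' α') (show 3 ≤ 2 + 1 by norm_num)
  have e5 := jt_mul (jt_quad κ β) (jt_quad κ' β') (show 3 ≤ 2 + 2 by norm_num)
  refine ((((e1.add e2).add e3).add e4).add e5).congr_left fun s => ?_
  have h1 : ((((a : ℂ) * α' + a' * α)) * s).re = a * (α' * s).re + a' * (α * s).re := by
    rw [add_mul, Complex.add_re, mul_assoc, mul_assoc, Complex.re_ofReal_mul, Complex.re_ofReal_mul]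
  have h2 : (((a : ℂ) * β' + a' * β + α * α') * s ^ 2).re =
      a * (β' * s ^ 2).re + a' * (β * s ^ 2).re + (α * α' * s ^ 2).re := by
    rw [add_mul, add_mul, Complex.add_re, Complex.add_re, mul_assoc, mul_assoc,
      Complex.re_ofReal_mul, Complex.re_ofReal_mul]
  have h3 : 2 * (α * s).re * (2 * (α' * s).re) = 2 * (α * star α').re * ‖s‖ ^ 2 +
      2 * (α * α' * s ^ 2).re := by
    rw [← Complex.normSq_eq_norm_sq, Complex.normSq_apply, pow_two]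
    simp only [Complex.mul_re, Complex.mul_im, Complex.star_def, Complex.conj_re, Complex.conj_im]
    ring
  rw [h1, h2]
  linear_combination -h3

/-- A function with a second order expansion at the value. -/
theorem Jet2.comp {h : ℂ → ℝ} {a κ : ℝ} {α : ℂ} (hj : Jet2 h a α κ) {g : ℝ → ℝ} {g₁ g₂ : ℝ}
    (hg : (fun t => g t - (g a + g₁ * (t - a) + g₂ / 2 * (t - a) ^ 2)) =O[𝓝 a]
      fun t => |t - a| ^ 3) :
    Jet2 (fun s => g (h s)) (g a) (g₁ * α) (g₁ * κ + g₂ * ‖α‖ ^ 2) := by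
  have h0 := hg.comp_tendsto hj.tendsto
  have h1 : ((fun t => |t - a| ^ 3) ∘ h) =O[𝓝 0] fun s : ℂ => ‖s‖ ^ 3 := by
    have h2 := hj.zero.norm_left.pow 3
    refine (h2.congr_left fun s => ?_).congr_right fun s => ?_
    · rw [Real.norm_eq_abs]
      rfl
    · rw [pow_one]
  have h3 := h0.trans h1
  have h4 : Jet2 (fun s => g a + g₁ * (h s - a) + g₂ / 2 * ((h s - a) * (h s - a)))
      (g a) (g₁ * α) (g₁ * κ + g₂ * ‖α‖ ^ 2) := by
    have h5 := hj.sub (Jet2.const a)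
    have h6 := ((Jet2.const (g a)).add (h5.smul g₁)).add ((h5.mul h5).smul (g₂ / 2))
    rw [sub_self, sub_zero, sub_zero] at h6
    have h7 : (α * star α).re = ‖α‖ ^ 2 := by
      rw [Complex.star_def, Complex.mul_conj, Complex.normSq_eq_norm_sq, Complex.ofReal_re]
    rw [h7] at h6
    convert h6 using 1
    · ring
    · push_cast
      ring
    · ring
  obtain ⟨β, hβ⟩ := h4
  refine ⟨β, (h3.add hβ).congr_left fun s => ?_⟩
  simp only [Function.comp]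
  ring

theorem Jet2.log {h : ℂ → ℝ} {a κ : ℝ} {α : ℂ} (hj : Jet2 h a α κ) (ha : 0 < a) :
    Jet2 (fun s => Real.log (h s)) (Real.log a) (α / a) (κ / a - ‖α‖ ^ 2 / a ^ 2) := by
  have h1 : (fun t => Real.log t - (Real.log a + a⁻¹ * (t - a) + -(a ^ 2)⁻¹ / 2 * (t - a) ^ 2))
      =O[𝓝 a] fun t => |t - a| ^ 3 := by
    refine IsBigO.of_bound (2 / a ^ 3) ?_
    filter_upwards [Metric.ball_mem_nhds a (half_pos ha)] with t ht
    rw [Metric.mem_ball, Real.dist_eq] at ht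
    have ht0 : 0 < t := by
      have := (abs_lt.1 ht).1
      linarith
    obtain ⟨x, hx⟩ : ∃ x, x = (a - t) / a := ⟨_, rfl⟩
    have hxa : |x| = |t - a| / a := by rw [hx, abs_div, abs_of_pos ha, abs_sub_comm]
    have hx2 : |x| ≤ 1 / 2 := by
      rw [hxa, div_le_iff₀ ha]
      linarith
    have h2 := Real.abs_log_sub_add_sum_range_le (x := x) (by linarith) 2
    have h3 : Real.log (1 - x) = Real.log t - Real.log a := by
      rw [← Real.log_div ht0.ne' ha.ne']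
      congr 1
      rw [hx]
      field_simp
      ring
    have h4 : Real.log t - (Real.log a + a⁻¹ * (t - a) + -(a ^ 2)⁻¹ / 2 * (t - a) ^ 2) =
        ∑ i ∈ Finset.range 2, x ^ (i + 1) / (i + 1) + Real.log (1 - x) := by
      rw [h3, Finset.sum_range_succ, Finset.sum_range_one, hx]
      push_cast
      field_simp
      ring
    rw [Real.norm_eq_abs, Real.norm_eq_abs, h4]
    refine h2.trans ?_
    rw [abs_of_nonneg (pow_nonneg (abs_nonneg (t - a)) 3)]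
    have h5 : 0 ≤ |x| ^ (2 + 1) := by positivity
    calc |x| ^ (2 + 1) / (1 - |x|) ≤ |x| ^ (2 + 1) / (1 / 2) :=
          div_le_div_of_nonneg_left h5 (by norm_num) (by linarith)
      _ = 2 / a ^ 3 * |t - a| ^ 3 := by
          rw [hxa, div_pow]
          field_simp
  have h2 := hj.comp h1
  convert h2 using 1
  · push_cast
    ring
  · ring

/-- A curve with a second order expansion. -/
def Cv (x : ℂ → E) (x₀ x₁ : E) : Prop :=
  ∃ x₂ : E, (fun s : ℂ => x s - (x₀ + s • x₁ + s ^ 2 • x₂)) =O[𝓝 0] fun s : ℂ => ‖s‖ ^ 3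

theorem Cv.affine (x₀ x₁ : E) : Cv (fun s : ℂ => x₀ + s • x₁) x₀ x₁ := by
  refine ⟨0, ?_⟩
  have h1 : (fun s : ℂ => x₀ + s • x₁ - (x₀ + s • x₁ + s ^ 2 • (0 : E))) = fun _ => 0 := by
    funext s
    rw [smul_zero, add_zero, sub_self]
  rw [h1]
  exact isBigO_zero _ _

/-- Complex valued functions with an expansion in `s` and its conjugate. -/
private def CJ (f : ℂ → ℂ) (c A B D : ℂ) : Prop :=
  ∃ P Q : ℂ, (fun s : ℂ => f s - (c + A * s + B * star s + D * (‖s‖ ^ 2 : ℝ) + P * s ^ 2 +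
    Q * star s ^ 2)) =O[𝓝 0] fun s : ℂ => ‖s‖ ^ 3

private theorem CJ.re {f : ℂ → ℂ} {c A B D : ℂ} (h : CJ f c A B D) :
    Jet2 (fun s => (f s).re) c.re ((A + star B) / 2) D.re := by
  obtain ⟨P, Q, hO⟩ := h
  refine ⟨(P + star Q) / 2, ?_⟩
  have h1 : (fun s : ℂ => (f s - (c + A * s + B * star s + D * (‖s‖ ^ 2 : ℝ) + P * s ^ 2 +
    Q * star s ^ 2)).re) =O[𝓝 0] fun s : ℂ => ‖s‖ ^ 3 := by
    refine IsBigO.trans ?_ hO
    refine IsBigO.of_bound 1 (Eventually.of_forall fun s => ?_)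
    rw [one_mul, Real.norm_eq_abs]
    exact Complex.abs_re_le_norm _
  refine h1.congr_left fun s => ?_
  have e1 : ∀ z w : ℂ, ((z + (starRingEnd ℂ) w) / 2).re = (z.re + w.re) / 2 := by
    intro z w
    rw [show (2 : ℂ) = ((2 : ℝ) : ℂ) by norm_num, Complex.div_ofReal_re, Complex.add_re,
      Complex.conj_re]
  have e2 : ∀ z w : ℂ, ((z + (starRingEnd ℂ) w) / 2).im = (z.im - w.im) / 2 := by
    intro z w
    rw [show (2 : ℂ) = ((2 : ℝ) : ℂ) by norm_num, Complex.div_ofReal_im, Complex.add_im,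
      Complex.conj_im]
    ring
  simp only [Complex.sub_re, Complex.add_re, Complex.mul_re, Complex.ofReal_re, Complex.ofReal_im,
    Complex.star_def, Complex.conj_re, Complex.conj_im, pow_two, Complex.mul_im]
  rw [e1, e2, e1, e2]
  ring

private theorem CJ.normSq {f : ℂ → ℂ} {c A B D : ℂ} (h : CJ f c A B D) :
    Jet2 (fun s => ‖f s‖ ^ 2) (‖c‖ ^ 2) (star c * A + c * star B)
      (‖A‖ ^ 2 + ‖B‖ ^ 2 + 2 * (star c * D).re) := by
  have h1 := h.re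
  have h2 : CJ (fun s => -(Complex.I * f s)) (-(Complex.I * c)) (-(Complex.I * A))
      (-(Complex.I * B)) (-(Complex.I * D)) := by
    obtain ⟨P, Q, hO⟩ := h
    refine ⟨-(Complex.I * P), -(Complex.I * Q), ?_⟩
    refine (hO.const_mul_left (-Complex.I)).congr_left fun s => ?_
    ring
  have h3 := h2.re
  have h4 := (h1.mul h1).add (h3.mul h3)
  have e0 : ∀ z : ℂ, (-(Complex.I * z)).re = z.im := by
    intro z
    simp
  have e1 : ∀ z : ℂ, ‖z‖ ^ 2 = z.re * z.re + z.im * z.im := by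
    intro z
    rw [← Complex.normSq_eq_norm_sq, Complex.normSq_apply]
  convert h4 using 1
  · funext s
    rw [e0, e1]
  · rw [e0, e1]
  · rw [e0]
    apply Complex.ext
    · simp only [Complex.add_re, Complex.mul_re, Complex.star_def, Complex.conj_re,
        Complex.conj_im, Complex.ofReal_re, Complex.ofReal_im, Complex.neg_re, Complex.neg_im,
        Complex.mul_im, Complex.I_re, Complex.I_im, Complex.add_im, Complex.div_ofNat_re,
        Complex.div_ofNat_im, Complex.re_ofNat, Complex.im_ofNat]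
      ring
    · simp only [Complex.add_re, Complex.mul_re, Complex.star_def, Complex.conj_re,
        Complex.conj_im, Complex.ofReal_re, Complex.ofReal_im, Complex.neg_re, Complex.neg_im,
        Complex.mul_im, Complex.I_re, Complex.I_im, Complex.add_im, Complex.div_ofNat_re,
        Complex.div_ofNat_im, Complex.re_ofNat, Complex.im_ofNat]
      ring
  · rw [e0, e0, e1, e1]
    simp only [Complex.add_re, Complex.mul_re, Complex.star_def, Complex.conj_re,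
        Complex.conj_im, Complex.ofReal_re, Complex.ofReal_im, Complex.neg_re, Complex.neg_im,
        Complex.mul_im, Complex.I_re, Complex.I_im, Complex.add_im, Complex.div_ofNat_re,
        Complex.div_ofNat_im, Complex.re_ofNat, Complex.im_ofNat]
    ring

private theorem CJ.of_inner {x y : ℂ → E} {x₀ x₁ y₀ y₁ : E} (hx : Cv x x₀ x₁) (hy : Cv y y₀ y₁)
    (c : ℂ) : CJ (fun s => c - ⟪x s, y s⟫_ℂ) (c - ⟪x₀, y₀⟫_ℂ) (-⟪x₀, y₁⟫_ℂ) (-⟪x₁, y₀⟫_ℂ)
      (-⟪x₁, y₁⟫_ℂ) := by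
  obtain ⟨x₂, hx₂⟩ := hx
  obtain ⟨y₂, hy₂⟩ := hy
  refine ⟨-⟪x₀, y₂⟫_ℂ, -⟪x₂, y₀⟫_ℂ, ?_⟩
  obtain ⟨p, hp⟩ : ∃ p : ℂ → E, p = fun s => x₀ + s • x₁ + s ^ 2 • x₂ := ⟨_, rfl⟩
  obtain ⟨r, hr⟩ : ∃ r : ℂ → E, r = fun s => y₀ + s • y₁ + s ^ 2 • y₂ := ⟨_, rfl⟩
  have hpc : Continuous p := by rw [hp]; fun_prop
  have hrc : Continuous r := by rw [hr]; fun_prop
  have hone : (fun s : ℂ => ‖s‖ ^ 3) =O[𝓝 0] fun _ : ℂ => (1 : ℝ) := by
    have : Continuous fun s : ℂ => ‖s‖ ^ 3 := by fun_prop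
    exact this.continuousAt.isBigO_one ℝ
  have hp1 : p =O[𝓝 0] fun _ : ℂ => (1 : ℝ) := hpc.continuousAt.isBigO_one ℝ
  have hr1 : r =O[𝓝 0] fun _ : ℂ => (1 : ℝ) := hrc.continuousAt.isBigO_one ℝ
  have hxp : (fun s => x s - p s) =O[𝓝 0] fun s : ℂ => ‖s‖ ^ 3 := by rw [hp]; exact hx₂
  have hyr : (fun s => y s - r s) =O[𝓝 0] fun s : ℂ => ‖s‖ ^ 3 := by rw [hr]; exact hy₂
  have hy1 : y =O[𝓝 0] fun _ : ℂ => (1 : ℝ) := by
    refine ((hyr.trans hone).add hr1).congr_left fun s => ?_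
    rw [sub_add_cancel]
  have hin : ∀ {u v : ℂ → E} {g k : ℂ → ℝ}, u =O[𝓝 0] g → v =O[𝓝 0] k →
      (fun s => ⟪u s, v s⟫_ℂ) =O[𝓝 0] fun s => g s * k s := by
    intro u v g k hu hv
    refine IsBigO.trans ?_ (hu.norm_norm.mul hv.norm_norm |>.trans ?_)
    · refine IsBigO.of_bound 1 (Eventually.of_forall fun s => ?_)
      rw [one_mul, norm_mul, norm_norm, norm_norm]
      exact norm_inner_le_norm _ _
    · refine IsBigO.of_bound 1 (Eventually.of_forall fun s => ?_)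
      rw [one_mul, norm_mul, norm_mul, norm_norm, norm_norm]
  have e1 := (hin hxp hy1).congr_right (g₂ := fun s : ℂ => ‖s‖ ^ 3) fun s => by rw [mul_one]
  have e2 := (hin hp1 hyr).congr_right (g₂ := fun s : ℂ => ‖s‖ ^ 3) fun s => by rw [one_mul]
  have mono : ∀ (a : ℂ) (i j : ℕ), 3 ≤ i + j →
      (fun s : ℂ => a * (s ^ i * star s ^ j)) =O[𝓝 0] fun s : ℂ => ‖s‖ ^ 3 := by
    intro a i j hij
    refine IsBigO.trans ?_ (jt_pow hij)
    refine IsBigO.of_bound ‖a‖ (Eventually.of_forall fun s => ?_)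
    rw [norm_mul, norm_mul, norm_pow, norm_pow, norm_star, ← pow_add, norm_pow, norm_norm]
  have e3 := mono ⟪x₁, y₂⟫_ℂ 2 1 (by norm_num)
  have e4 := mono ⟪x₂, y₁⟫_ℂ 1 2 (by norm_num)
  have e5 := mono ⟪x₂, y₂⟫_ℂ 2 2 (by norm_num)
  have e6 := ((((e1.add e2).add e3).add e4).add e5).neg_left
  refine e6.congr_left fun s => ?_
  have hs : ((‖s‖ ^ 2 : ℝ) : ℂ) = star s * s := by
    rw [← Complex.normSq_eq_norm_sq, Complex.normSq_eq_conj_mul_self, Complex.star_def]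
  have h1 : ⟪p s, r s⟫_ℂ = ⟪x₀, y₀⟫_ℂ + s * ⟪x₀, y₁⟫_ℂ + s ^ 2 * ⟪x₀, y₂⟫_ℂ +
      star s * (⟪x₁, y₀⟫_ℂ + s * ⟪x₁, y₁⟫_ℂ + s ^ 2 * ⟪x₁, y₂⟫_ℂ) +
      star s ^ 2 * (⟪x₂, y₀⟫_ℂ + s * ⟪x₂, y₁⟫_ℂ + s ^ 2 * ⟪x₂, y₂⟫_ℂ) := by
    rw [hp, hr]
    simp only [inner_add_left, inner_add_right, inner_smul_left, inner_smul_right, map_pow,
      Complex.star_def]
    ring
  have h2 : ⟪x s - p s, y s⟫_ℂ + ⟪p s, y s - r s⟫_ℂ = ⟪x s, y s⟫_ℂ - ⟪p s, r s⟫_ℂ := by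
    rw [inner_sub_left, inner_sub_right]
    ring
  rw [hs]
  linear_combination h1 - h2

theorem Cv.normSq {x : ℂ → E} {x₀ x₁ : E} (hx : Cv x x₀ x₁) :
    Jet2 (fun s => ‖x s‖ ^ 2) (‖x₀‖ ^ 2) ⟪x₀, x₁⟫_ℂ (‖x₁‖ ^ 2) := by
  have h1 := (CJ.of_inner hx hx 0).re.smul (-1)
  have e : ∀ u : E, (⟪u, u⟫_ℂ).re = ‖u‖ ^ 2 := fun u => by
    rw [inner_self_eq_norm_sq_to_K]
    norm_cast
  convert h1 using 1
  · funext s
    rw [zero_sub, Complex.neg_re, e]
    ring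
  · rw [zero_sub, Complex.neg_re, e]
    ring
  · rw [star_neg, Complex.star_def, inner_conj_symm]
    push_cast
    ring
  · rw [Complex.neg_re, e]
    ring

theorem Cv.innerSq {x y : ℂ → E} {x₀ x₁ y₀ y₁ : E} (hx : Cv x x₀ x₁) (hy : Cv y y₀ y₁) (c : ℂ) :
    Jet2 (fun s => ‖c - ⟪x s, y s⟫_ℂ‖ ^ 2) (‖c - ⟪x₀, y₀⟫_ℂ‖ ^ 2)
      (-(star (c - ⟪x₀, y₀⟫_ℂ) * ⟪x₀, y₁⟫_ℂ) - (c - ⟪x₀, y₀⟫_ℂ) * star ⟪x₁, y₀⟫_ℂ)
      (‖⟪x₀, y₁⟫_ℂ‖ ^ 2 + ‖⟪x₁, y₀⟫_ℂ‖ ^ 2 - 2 * (star (c - ⟪x₀, y₀⟫_ℂ) * ⟪x₁, y₁⟫_ℂ).re) := by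
  have h1 := (CJ.of_inner hx hy c).normSq
  convert h1 using 1
  · rw [star_neg]
    ring
  · rw [norm_neg, norm_neg, mul_neg, Complex.neg_re]
    ring

end Pool.Agent.Lib.MP_5d4057_al.RG
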