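import Pool.Agent.Lib.MP_5d4057_al.RG.Jet
import Mathlib.Analysis.InnerProductSpace.PiL2

/-!
# RG G2: the Levi form of `log sinh²` of the distance in the unit ball

With `D = |1 - ⟪x,y⟫|² - (1-|x|²)(1-|y|²)`, `N₁ = 1-|x|²`, `N₂ = 1-|y|²`: `Vb = log D - log N₁ - log N₂`. At `x₀ = 0`,
`|y₀| = r`: `D` has value `r²`, first order coefficient `⟪y₀, Z-U⟫`, second `|Z-U|² - r²|U|² + |⟪y₀,U⟫|²`
(`Cv.innerSq` and `Jet2.mul`, or `D = |x-y|² - (|x|²|y|² - |⟪x,y⟫|²)`), `N₁`: `1, 0, -|U|²`, `N₂`: `1-r², -⟪y₀,Z⟫, -|Z|²`.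
`ka_eq`, `ka_ge`, `ka_pos`: with `U = U' + a y₀/r`, `Z = Z' + b y₀/r` (`U', Z' ⊥ y₀`)
`ka = |U|² + |Z' - (1-r²) U'|²/(r²(1-r²)) + |b|²/(1-r²)²`.
-/

set_option autoImplicit false

namespace Pool.Agent.Lib.MP_5d4057_al.RG

open Filter Topology Asymptotics Metric

open scoped InnerProductSpace

/-- The ball lives in this space. -/
abbrev E (k : ℕ) : Type := EuclideanSpace ℂ (Fin k)

variable {k : ℕ}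

/-- `cosh²` of the distance in the ball. -/
noncomputable def ccb (z ζ : E k) : ℝ := ‖1 - ⟪z, ζ⟫_ℂ‖ ^ 2 / ((1 - ‖z‖ ^ 2) * (1 - ‖ζ‖ ^ 2))

/-- `log sinh²` of the distance in the ball. -/
noncomputable def Vb (z ζ : E k) : ℝ := Real.log (ccb z ζ - 1)

/-- the first order coefficient -/
noncomputable def al (y₀ U Z : E k) : ℂ :=
  ⟪y₀, Z - U⟫_ℂ / (‖y₀‖ ^ 2 : ℝ) + ⟪y₀, Z⟫_ℂ / (1 - ‖y₀‖ ^ 2 : ℝ)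

/-- the Levi form -/
noncomputable def ka (y₀ U Z : E k) : ℝ :=
  ‖Z‖ ^ 2 / (1 - ‖y₀‖ ^ 2) + ‖⟪y₀, Z⟫_ℂ‖ ^ 2 / (1 - ‖y₀‖ ^ 2) ^ 2 + ‖Z - U‖ ^ 2 / ‖y₀‖ ^ 2 +
    ‖⟪y₀, U⟫_ℂ‖ ^ 2 / ‖y₀‖ ^ 2 - ‖⟪y₀, Z - U⟫_ℂ‖ ^ 2 / ‖y₀‖ ^ 4

private theorem nsq_sub (u v : E k) :
    ‖u - v‖ ^ 2 = ‖u‖ ^ 2 - 2 * (⟪u, v⟫_ℂ).re + ‖v‖ ^ 2 := @norm_sub_sq ℂ _ _ _ _ u v

private theorem csq_sub (a b : ℂ) :
    ‖a - b‖ ^ 2 = ‖a‖ ^ 2 - 2 * (star a * b).re + ‖b‖ ^ 2 := by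
  rw [Complex.sq_norm, Complex.sq_norm, Complex.sq_norm, Complex.normSq_sub]
  have : (a * (starRingEnd ℂ) b).re = (star a * b).re := by
    simp [Complex.mul_re]
  rw [this]
  ring

/-- The denominator times `sinh²`. -/
private theorem num_eq (z ζ : E k) :
    ‖1 - ⟪z, ζ⟫_ℂ‖ ^ 2 - (1 - ‖z‖ ^ 2) * (1 - ‖ζ‖ ^ 2) =
      ‖ζ - z‖ ^ 2 * (1 - ‖z‖ ^ 2) + ‖⟪z, ζ - z⟫_ℂ‖ ^ 2 := by
  rw [inner_sub_right, csq_sub, csq_sub, nsq_sub, inner_self_eq_norm_sq_to_K (𝕜 := ℂ)]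
  have h1 : (⟪ζ, z⟫_ℂ).re = (⟪z, ζ⟫_ℂ).re := by
    rw [← inner_conj_symm, Complex.conj_re]
  have h2 : ‖((‖z‖ : ℂ)) ^ 2‖ = ‖z‖ ^ 2 := by simp
  have h3 : (star ⟪z, ζ⟫_ℂ * ((‖z‖ : ℂ)) ^ 2).re = (⟪z, ζ⟫_ℂ).re * ‖z‖ ^ 2 := by
    rw [← Complex.ofReal_pow, Complex.re_mul_ofReal, Complex.star_def, Complex.conj_re]
  have h4 : (star (1 : ℂ) * ⟪z, ζ⟫_ℂ).re = (⟪z, ζ⟫_ℂ).re := by simp
  simp only [Complex.coe_algebraMap]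
  rw [h2, h3, h4, norm_one, h1]
  ring

private theorem den_pos {z : E k} (hz : ‖z‖ < 1) : 0 < 1 - ‖z‖ ^ 2 := by
  have := norm_nonneg z
  nlinarith

private theorem ccb_sub (z ζ : E k) (hz : ‖z‖ < 1) (hζ : ‖ζ‖ < 1) :
    ccb z ζ - 1 = (‖ζ - z‖ ^ 2 * (1 - ‖z‖ ^ 2) + ‖⟪z, ζ - z⟫_ℂ‖ ^ 2) /
      ((1 - ‖z‖ ^ 2) * (1 - ‖ζ‖ ^ 2)) := by
  have h1 := den_pos hz
  have h2 := den_pos hζ
  rw [← num_eq, ccb]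
  field_simp

theorem ccb_pos_iff {z ζ : E k} (hz : ‖z‖ < 1) (hζ : ‖ζ‖ < 1) : 1 ≤ ccb z ζ := by
  have h1 := den_pos hz
  have h2 := den_pos hζ
  have h := ccb_sub z ζ hz hζ
  have : 0 ≤ ccb z ζ - 1 := by
    rw [h]
    positivity
  linarith

theorem one_lt_ccb {z ζ : E k} (hz : ‖z‖ < 1) (hζ : ‖ζ‖ < 1) (h : z ≠ ζ) : 1 < ccb z ζ := by
  have h1 := den_pos hz
  have h2 := den_pos hζ
  have h3 := ccb_sub z ζ hz hζ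
  have h4 : 0 < ‖ζ - z‖ := norm_pos_iff.2 (sub_ne_zero.2 h.symm)
  have : 0 < ccb z ζ - 1 := by
    rw [h3]
    positivity
  linarith

private theorem cube_tendsto : Tendsto (fun s : ℂ => ‖s‖ ^ 3) (𝓝 0) (𝓝 0) := by
  have : Continuous fun s : ℂ => ‖s‖ ^ 3 := by fun_prop
  simpa using this.tendsto 0

private theorem Cv.tendsto {x : ℂ → E k} {x₀ x₁ : E k} (hx : Cv x x₀ x₁) :
    Tendsto x (𝓝 0) (𝓝 x₀) := by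
  obtain ⟨x₂, h⟩ := hx
  have h1 := h.trans_tendsto cube_tendsto
  have h2 : Tendsto (fun s : ℂ => x₀ + s • x₁ + s ^ 2 • x₂) (𝓝 0) (𝓝 x₀) := by
    have : Continuous fun s : ℂ => x₀ + s • x₁ + s ^ 2 • x₂ := by fun_prop
    simpa using this.tendsto 0
  have h3 := h1.add h2
  simpa using h3

theorem jet_Vb {x y : ℂ → E k} {y₀ U Z : E k} (hx : Cv x 0 U) (hy : Cv y y₀ Z) (h0 : y₀ ≠ 0)
    (h1 : ‖y₀‖ < 1) : Jet2 (fun s => Vb (x s) (y s)) (Vb 0 y₀) (al y₀ U Z) (ka y₀ U Z) := by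
  have hr : 0 < ‖y₀‖ := norm_pos_iff.2 h0
  have hr2 : 0 < 1 - ‖y₀‖ ^ 2 := den_pos h1
  have hN1 := (Jet2.const 1).sub hx.normSq
  have hN2 := (Jet2.const 1).sub hy.normSq
  have hD := (hx.innerSq hy 1).sub (hN1.mul hN2)
  have hvN1 : (1 : ℝ) - ‖(0 : E k)‖ ^ 2 = 1 := by simp
  have hvD : ‖(1 : ℂ) - ⟪(0 : E k), y₀⟫_ℂ‖ ^ 2 - (1 - ‖(0 : E k)‖ ^ 2) * (1 - ‖y₀‖ ^ 2) =
      ‖y₀‖ ^ 2 := by simp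
  have hlD := hD.log (by rw [hvD]; positivity)
  have hlN1 := hN1.log (by rw [hvN1]; exact one_pos)
  have hlN2 := hN2.log hr2
  have h := (hlD.sub hlN1).sub hlN2
  have hxt := hx.tendsto
  have hyt := hy.tendsto
  have e1 : ∀ᶠ s in 𝓝 (0 : ℂ), ‖x s‖ < 1 := by
    have := hxt.norm
    rw [norm_zero] at this
    exact this.eventually (gt_mem_nhds one_pos)
  have e2 : ∀ᶠ s in 𝓝 (0 : ℂ), ‖y s‖ < 1 := hyt.norm.eventually (gt_mem_nhds h1)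
  have e3 : ∀ᶠ s in 𝓝 (0 : ℂ), x s ≠ y s := by
    have := (hyt.sub hxt).eventually_ne (by simpa using h0 : y₀ - 0 ≠ 0)
    filter_upwards [this] with s hs he
    exact hs (by rw [he, sub_self])
  have h2 := h.congr (h' := fun s => Vb (x s) (y s)) (by
    filter_upwards [e1, e2, e3] with s s1 s2 s3
    have d1 := den_pos s1
    have d2 := den_pos s2
    have d3 : 0 < ‖1 - ⟪x s, y s⟫_ℂ‖ ^ 2 - (1 - ‖x s‖ ^ 2) * (1 - ‖y s‖ ^ 2) := by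
      rw [num_eq]
      have h4 : 0 < ‖y s - x s‖ := norm_pos_iff.2 (sub_ne_zero.2 s3.symm)
      positivity
    rw [Vb, ccb_sub _ _ s1 s2, ← num_eq, Real.log_div d3.ne' (by positivity),
      Real.log_mul d1.ne' d2.ne']
    ring)
  have hv : Real.log (‖(1 : ℂ) - ⟪(0 : E k), y₀⟫_ℂ‖ ^ 2 -
      (1 - ‖(0 : E k)‖ ^ 2) * (1 - ‖y₀‖ ^ 2)) - Real.log (1 - ‖(0 : E k)‖ ^ 2) -
      Real.log (1 - ‖y₀‖ ^ 2) = Vb 0 y₀ := by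
    rw [Vb, ccb_sub _ _ (by simp) h1, ← num_eq, hvD, hvN1, Real.log_div (by positivity)
      (by positivity), one_mul, Real.log_one]
    ring
  rw [hv] at h2
  have hal : ∀ {a b : ℂ} {c d : ℝ}, Jet2 (fun s => Vb (x s) (y s)) (Vb 0 y₀) a c → a = b → c = d →
      Jet2 (fun s => Vb (x s) (y s)) (Vb 0 y₀) b d := by
    rintro a b c d hh rfl rfl
    exact hh
  have e4 : star ⟪U, y₀⟫_ℂ = ⟪y₀, U⟫_ℂ := inner_conj_symm _ _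
  have e5 : ‖⟪U, y₀⟫_ℂ‖ = ‖⟪y₀, U⟫_ℂ‖ := norm_inner_symm _ _
  refine hal h2 ?_ ?_
  · rw [hvD, hvN1, al]
    simp only [inner_zero_left, sub_zero, star_one, mul_zero, neg_zero,
      zero_sub, one_mul, Complex.ofReal_one, inner_sub_right, e4]
    push_cast
    ring
  · rw [hvD, hvN1, ka]
    simp only [inner_zero_left, sub_zero, star_one, mul_zero, neg_zero,
      zero_sub, one_mul, Complex.ofReal_one, e4, e5, zero_mul, norm_zero, norm_neg,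
      Complex.zero_re, add_zero]
    have e6 : -⟪y₀, U⟫_ℂ - -⟪y₀, Z⟫_ℂ = ⟪y₀, Z - U⟫_ℂ := by
      rw [inner_sub_right]
      ring
    have e7 : (⟪U, Z⟫_ℂ).re = (⟪Z, U⟫_ℂ).re := by
      rw [← inner_conj_symm, Complex.conj_re]
    rw [e6, e7, nsq_sub]
    have := hr2.ne'
    field_simp
    ring

private theorem normSq_orth {y₀ : E k} (h0 : y₀ ≠ 0) (v : E k) :
    ‖v - (⟪y₀, v⟫_ℂ / (‖y₀‖ ^ 2 : ℝ)) • y₀‖ ^ 2 = ‖v‖ ^ 2 - ‖⟪y₀, v⟫_ℂ‖ ^ 2 / ‖y₀‖ ^ 2 := by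
  have hr : 0 < ‖y₀‖ := norm_pos_iff.2 h0
  have h1 : ⟪v, y₀⟫_ℂ = star ⟪y₀, v⟫_ℂ := (inner_conj_symm _ _).symm
  rw [nsq_sub, inner_smul_right, norm_smul, norm_div, Complex.norm_real, h1]
  have h2 : (⟪y₀, v⟫_ℂ / ((‖y₀‖ ^ 2 : ℝ) : ℂ) * star ⟪y₀, v⟫_ℂ) =
      ((‖⟪y₀, v⟫_ℂ‖ ^ 2 / ‖y₀‖ ^ 2 : ℝ) : ℂ) := by
    rw [div_mul_eq_mul_div, Complex.star_def, Complex.mul_conj, Complex.normSq_eq_norm_sq]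
    push_cast
    rfl
  rw [h2, Complex.ofReal_re, Real.norm_of_nonneg (by positivity)]
  field_simp
  ring

private theorem ka_id {y₀ U Z : E k} (h0 : y₀ ≠ 0) (h1 : ‖y₀‖ < 1) :
    ka y₀ U Z = ‖U‖ ^ 2 +
      ‖(Z - ((1 - ‖y₀‖ ^ 2 : ℝ) : ℂ) • U) - (⟪y₀, Z - ((1 - ‖y₀‖ ^ 2 : ℝ) : ℂ) • U⟫_ℂ /
        (‖y₀‖ ^ 2 : ℝ)) • y₀‖ ^ 2 / (‖y₀‖ ^ 2 * (1 - ‖y₀‖ ^ 2)) +
      ‖⟪y₀, Z⟫_ℂ‖ ^ 2 / (‖y₀‖ ^ 2 * (1 - ‖y₀‖ ^ 2) ^ 2) := by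
  have hr : 0 < ‖y₀‖ := norm_pos_iff.2 h0
  have hr2 : 0 < 1 - ‖y₀‖ ^ 2 := den_pos h1
  rw [normSq_orth h0, ka, inner_sub_right, inner_sub_right, inner_smul_right, nsq_sub, nsq_sub,
    csq_sub, csq_sub, inner_smul_right, norm_smul, norm_mul, Complex.norm_real,
    Real.norm_of_nonneg hr2.le]
  have h2 : (((1 - ‖y₀‖ ^ 2 : ℝ) : ℂ) * ⟪Z, U⟫_ℂ).re = (1 - ‖y₀‖ ^ 2) * (⟪Z, U⟫_ℂ).re :=
    Complex.re_ofReal_mul _ _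
  have h3 : (star ⟪y₀, Z⟫_ℂ * (((1 - ‖y₀‖ ^ 2 : ℝ) : ℂ) * ⟪y₀, U⟫_ℂ)).re =
      (1 - ‖y₀‖ ^ 2) * (star ⟪y₀, Z⟫_ℂ * ⟪y₀, U⟫_ℂ).re := by
    rw [mul_left_comm, Complex.re_ofReal_mul]
  rw [h2, h3]
  have h4 := hr2.ne'
  field_simp
  ring

theorem ka_eq {y₀ U Z : E k} (h0 : y₀ ≠ 0) (h1 : ‖y₀‖ < 1)
    (h : Z = ((1 - ‖y₀‖ ^ 2 : ℝ) : ℂ) • (U - (⟪y₀, U⟫_ℂ / (‖y₀‖ ^ 2 : ℝ)) • y₀)) :
    ka y₀ U Z = ‖U‖ ^ 2 := by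
  have hr : 0 < ‖y₀‖ := norm_pos_iff.2 h0
  have hr2 : ((‖y₀‖ ^ 2 : ℝ) : ℂ) ≠ 0 := by
    have : (‖y₀‖ ^ 2 : ℝ) ≠ 0 := by positivity
    exact_mod_cast this
  have hyy : ⟪y₀, y₀⟫_ℂ = ((‖y₀‖ ^ 2 : ℝ) : ℂ) := by
    rw [inner_self_eq_norm_sq_to_K (𝕜 := ℂ)]
    push_cast
    rfl
  have h2 : ⟪y₀, Z⟫_ℂ = 0 := by
    rw [h, inner_smul_right, inner_sub_right, inner_smul_right, hyy, div_mul_cancel₀ _ hr2,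
      sub_self, mul_zero]
  have h3 : (Z - ((1 - ‖y₀‖ ^ 2 : ℝ) : ℂ) • U) - (⟪y₀, Z - ((1 - ‖y₀‖ ^ 2 : ℝ) : ℂ) • U⟫_ℂ /
      (‖y₀‖ ^ 2 : ℝ)) • y₀ = 0 := by
    rw [inner_sub_right, h2, inner_smul_right, h, smul_sub, smul_smul, zero_sub]
    rw [show (-(((1 - ‖y₀‖ ^ 2 : ℝ) : ℂ) * ⟪y₀, U⟫_ℂ) / ((‖y₀‖ ^ 2 : ℝ) : ℂ)) =
      -(((1 - ‖y₀‖ ^ 2 : ℝ) : ℂ) * (⟪y₀, U⟫_ℂ / ((‖y₀‖ ^ 2 : ℝ) : ℂ))) by ring]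
    module
  rw [ka_id h0 h1, h3, h2]
  simp

theorem ka_ge {y₀ U Z : E k} (h0 : y₀ ≠ 0) (h1 : ‖y₀‖ < 1) : ‖U‖ ^ 2 ≤ ka y₀ U Z := by
  have hr : 0 < ‖y₀‖ := norm_pos_iff.2 h0
  have hr2 : 0 < 1 - ‖y₀‖ ^ 2 := den_pos h1
  rw [ka_id h0 h1, add_assoc]
  refine le_add_of_nonneg_right ?_
  positivity

theorem ka_pos {y₀ U Z : E k} (h0 : y₀ ≠ 0) (h1 : ‖y₀‖ < 1) (h : U ≠ 0 ∨ Z ≠ 0) :
    0 < ka y₀ U Z := by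
  have hr : 0 < ‖y₀‖ := norm_pos_iff.2 h0
  have hr2 : 0 < 1 - ‖y₀‖ ^ 2 := den_pos h1
  rcases eq_or_ne U 0 with hU | hU
  · have hZ : Z ≠ 0 := by
      rcases h with h | h
      · exact absurd hU h
      · exact h
    rw [ka_id h0 h1, hU, smul_zero, sub_zero]
    by_cases hb : ⟪y₀, Z⟫_ℂ = 0
    · rw [hb, zero_div, zero_smul, sub_zero]
      have : 0 < ‖Z‖ := norm_pos_iff.2 hZ
      positivity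
    · have : 0 < ‖⟪y₀, Z⟫_ℂ‖ := norm_pos_iff.2 hb
      positivity
  · have h2 := ka_ge (Z := Z) (U := U) h0 h1
    have : 0 < ‖U‖ := norm_pos_iff.2 hU
    have : 0 < ‖U‖ ^ 2 := by positivity
    linarith

end Pool.Agent.Lib.MP_5d4057_al.RG
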