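import Pool.Agent.Lib.MP_5d4057_al.RG.BallD

/-!
# RG: two estimates of the Levi form of `log sinh²` of the distance

`ka_half`: the Levi form is larger than half the square of the norm. `ka_par`: if the perpendicular parts of the
directions are parallel it is at most the square of the norm.
-/

set_option autoImplicit false

namespace Pool.Agent.Lib.MP_5d4057_al.RG

open Filter Topology Asymptotics Metric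

open scoped InnerProductSpace

variable {k : ℕ}

theorem one_sub_pos {z : E k} (hz : ‖z‖ < 1) : 0 < 1 - ‖z‖ ^ 2 := by
  have := norm_nonneg z
  nlinarith

/-- The component orthogonal to `y₀`. -/
noncomputable def pe (y₀ U : E k) : E k := U - (⟪y₀, U⟫_ℂ / (‖y₀‖ ^ 2 : ℝ)) • y₀

theorem inner_self_cast (y₀ : E k) : ⟪y₀, y₀⟫_ℂ = ((‖y₀‖ ^ 2 : ℝ) : ℂ) := by
  rw [inner_self_eq_norm_sq_to_K (𝕜 := ℂ)]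
  push_cast
  rfl

theorem inner_pe {y₀ : E k} (h0 : y₀ ≠ 0) (U : E k) : ⟪y₀, pe y₀ U⟫_ℂ = 0 := by
  have hr2 : ((‖y₀‖ ^ 2 : ℝ) : ℂ) ≠ 0 := by
    have h1 : 0 < ‖y₀‖ := norm_pos_iff.2 h0
    have : (‖y₀‖ ^ 2 : ℝ) ≠ 0 := by positivity
    exact_mod_cast this
  rw [pe, inner_sub_right, inner_smul_right, inner_self_cast, div_mul_cancel₀ _ hr2, sub_self]

/-- The real part of the inner product, decomposed. -/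
theorem re_inner_dec {y₀ : E k} (h0 : y₀ ≠ 0) (U Z : E k) :
    (⟪U, Z⟫_ℂ).re = (⟪pe y₀ U, pe y₀ Z⟫_ℂ).re +
      (star ⟪y₀, U⟫_ℂ * ⟪y₀, Z⟫_ℂ).re / ‖y₀‖ ^ 2 := by
  have h1 : 0 < ‖y₀‖ := norm_pos_iff.2 h0
  have hU : U = pe y₀ U + (⟪y₀, U⟫_ℂ / (‖y₀‖ ^ 2 : ℝ)) • y₀ := by rw [pe]; abel
  have hZ : Z = pe y₀ Z + (⟪y₀, Z⟫_ℂ / (‖y₀‖ ^ 2 : ℝ)) • y₀ := by rw [pe]; abel
  obtain ⟨a, ha⟩ : ∃ a, a = ⟪y₀, U⟫_ℂ := ⟨_, rfl⟩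
  obtain ⟨b, hb⟩ : ∃ b, b = ⟪y₀, Z⟫_ℂ := ⟨_, rfl⟩
  have e1 : ⟪pe y₀ U, y₀⟫_ℂ = 0 := by
    rw [← inner_conj_symm, inner_pe h0, map_zero]
  conv_lhs => rw [hU, hZ]
  rw [← ha, ← hb, inner_add_left, inner_add_right, inner_add_right, inner_smul_right,
    inner_smul_left, inner_smul_left, inner_smul_right, e1, inner_pe h0, inner_self_cast]
  have h2 : (‖y₀‖ ^ 2 : ℝ) ≠ 0 := by positivity
  have h3 : (starRingEnd ℂ) (a / ((‖y₀‖ ^ 2 : ℝ) : ℂ)) *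
      (b / ((‖y₀‖ ^ 2 : ℝ) : ℂ) * ((‖y₀‖ ^ 2 : ℝ) : ℂ)) =
      ((1 / ‖y₀‖ ^ 2 : ℝ) : ℂ) * (star a * b) := by
    have h4 : ((‖y₀‖ ^ 2 : ℝ) : ℂ) ≠ 0 := by exact_mod_cast h2
    rw [map_div₀, Complex.conj_ofReal, div_mul_cancel₀ _ h4, Complex.ofReal_div, Complex.ofReal_one]
    show (star a) / _ * b = _
    ring
  rw [h3, mul_zero, mul_zero, add_zero, zero_add, Complex.add_re, Complex.re_ofReal_mul]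
  ring

theorem norm_dec {y₀ : E k} (h0 : y₀ ≠ 0) (U : E k) :
    ‖U‖ ^ 2 = ‖pe y₀ U‖ ^ 2 + ‖⟪y₀, U⟫_ℂ‖ ^ 2 / ‖y₀‖ ^ 2 := by
  have h := re_inner_dec h0 U U
  have h1 : ∀ V : E k, (⟪V, V⟫_ℂ).re = ‖V‖ ^ 2 := fun V => by
    rw [inner_self_cast, Complex.ofReal_re]
  have h2 : (star ⟪y₀, U⟫_ℂ * ⟪y₀, U⟫_ℂ).re = ‖⟪y₀, U⟫_ℂ‖ ^ 2 := by
    rw [Complex.star_def, mul_comm, Complex.mul_conj, Complex.normSq_eq_norm_sq,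
      Complex.ofReal_re]
  rw [h1, h1, h2] at h
  exact h

theorem nsq_sub' (u v : E k) :
    ‖u - v‖ ^ 2 = ‖u‖ ^ 2 - 2 * (⟪u, v⟫_ℂ).re + ‖v‖ ^ 2 := @norm_sub_sq ℂ _ _ _ _ u v

theorem csq_sub' (a b : ℂ) :
    ‖a - b‖ ^ 2 = ‖a‖ ^ 2 - 2 * (star a * b).re + ‖b‖ ^ 2 := by
  rw [Complex.sq_norm, Complex.sq_norm, Complex.sq_norm, Complex.normSq_sub]
  have : (a * (starRingEnd ℂ) b).re = (star a * b).re := by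
    simp [Complex.mul_re]
  rw [this]
  ring

theorem re_star_mul (a b : ℂ) : (star a * b).re = (star b * a).re := by
  simp only [Complex.star_def, Complex.mul_re, Complex.conj_re, Complex.conj_im]
  ring

/-- The Levi form in components. -/
theorem ka_dec {y₀ : E k} (h0 : y₀ ≠ 0) (h1 : ‖y₀‖ < 1) (U Z : E k) :
    ka y₀ U Z = ‖⟪y₀, U⟫_ℂ‖ ^ 2 / ‖y₀‖ ^ 2 +
      ‖⟪y₀, Z⟫_ℂ‖ ^ 2 / (‖y₀‖ ^ 2 * (1 - ‖y₀‖ ^ 2) ^ 2) + ‖pe y₀ U‖ ^ 2 / ‖y₀‖ ^ 2 +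
      ‖pe y₀ Z‖ ^ 2 / (‖y₀‖ ^ 2 * (1 - ‖y₀‖ ^ 2)) -
      2 / ‖y₀‖ ^ 2 * (⟪pe y₀ U, pe y₀ Z⟫_ℂ).re := by
  have hr : 0 < ‖y₀‖ := norm_pos_iff.2 h0
  have hr2 := one_sub_pos h1
  have e1 := re_inner_dec h0 U Z
  have e2 := norm_dec h0 U
  have e3 := norm_dec h0 Z
  have e4 : (⟪Z, U⟫_ℂ).re = (⟪U, Z⟫_ℂ).re := by
    rw [← inner_conj_symm, Complex.conj_re]
  have e5 : (star ⟪y₀, Z⟫_ℂ * ⟪y₀, U⟫_ℂ).re = (star ⟪y₀, U⟫_ℂ * ⟪y₀, Z⟫_ℂ).re :=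
    re_star_mul _ _
  rw [ka, nsq_sub', inner_sub_right, csq_sub', e4, e1, e2, e3, e5]
  have h2 := hr.ne'
  have h3 := hr2.ne'
  field_simp
  ring

theorem nb_dec {y₀ : E k} (h0 : y₀ ≠ 0) (h1 : ‖y₀‖ < 1) (Z : E k) :
    nb y₀ Z = ‖pe y₀ Z‖ ^ 2 / (1 - ‖y₀‖ ^ 2) +
      ‖⟪y₀, Z⟫_ℂ‖ ^ 2 / (‖y₀‖ ^ 2 * (1 - ‖y₀‖ ^ 2) ^ 2) := by
  have hr : 0 < ‖y₀‖ := norm_pos_iff.2 h0
  have hr2 := one_sub_pos h1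
  rw [nb, norm_dec h0 Z]
  have h2 := hr.ne'
  have h3 := hr2.ne'
  field_simp
  ring

/-- The Levi form is larger than half the square of the norm. -/
theorem ka_half {y₀ U Z : E k} (h0 : y₀ ≠ 0) (h1 : ‖y₀‖ < 1) (h : U ≠ 0 ∨ Z ≠ 0) :
    ‖U‖ ^ 2 + nb y₀ Z < 2 * ka y₀ U Z := by
  have hr : 0 < ‖y₀‖ := norm_pos_iff.2 h0
  have hr2 := one_sub_pos h1
  obtain ⟨ρ, hρ⟩ : ∃ ρ, ρ = ‖y₀‖ ^ 2 := ⟨_, rfl⟩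
  have hρ0 : 0 < ρ := by rw [hρ]; positivity
  have hρ1 : 0 < 1 - ρ := by rw [hρ]; exact hr2
  have hρ2 : 0 < 2 - ρ := by linarith
  have e1 : ‖pe y₀ U - ((2 / (2 - ρ) : ℝ) : ℂ) • pe y₀ Z‖ ^ 2 =
      ‖pe y₀ U‖ ^ 2 - 2 * (2 / (2 - ρ) * (⟪pe y₀ U, pe y₀ Z⟫_ℂ).re) +
        (2 / (2 - ρ)) ^ 2 * ‖pe y₀ Z‖ ^ 2 := by
    rw [nsq_sub', inner_smul_right, Complex.re_ofReal_mul, norm_smul, Complex.norm_real,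
      Real.norm_of_nonneg (by positivity), mul_pow]
  have key : 2 * ka y₀ U Z - (‖U‖ ^ 2 + nb y₀ Z) = ‖⟪y₀, U⟫_ℂ‖ ^ 2 / ρ +
      ‖⟪y₀, Z⟫_ℂ‖ ^ 2 / (ρ * (1 - ρ) ^ 2) +
      (2 - ρ) / ρ * ‖pe y₀ U - ((2 / (2 - ρ) : ℝ) : ℂ) • pe y₀ Z‖ ^ 2 +
      ρ / ((1 - ρ) * (2 - ρ)) * ‖pe y₀ Z‖ ^ 2 := by
    rw [e1, ka_dec h0 h1, nb_dec h0 h1, norm_dec h0 U, ← hρ]
    have h2 := hρ0.ne'
    have h3 := hρ1.ne'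
    have h4 := hρ2.ne'
    field_simp
    ring
  have hnn : 0 < 2 * ka y₀ U Z - (‖U‖ ^ 2 + nb y₀ Z) := by
    rw [key]
    by_cases hZ : Z = 0
    · have hU : U ≠ 0 := by
        rcases h with h | h
        · exact h
        · exact absurd hZ h
      have hZ' : pe y₀ Z = 0 := by rw [hZ, pe, inner_zero_right, zero_div, zero_smul, sub_zero]
      rw [hZ', smul_zero, sub_zero, hZ, inner_zero_right]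
      have h5 := norm_dec h0 U
      rw [← hρ] at h5
      have h6 : 0 < ‖U‖ := norm_pos_iff.2 hU
      have h7 : 0 < ‖⟪y₀, U⟫_ℂ‖ ^ 2 / ρ ∨ 0 < ‖pe y₀ U‖ ^ 2 := by
        by_contra hcon
        push Not at hcon
        have : 0 < ‖U‖ ^ 2 := by positivity
        linarith
      have h8 : 0 ≤ ‖⟪y₀, U⟫_ℂ‖ ^ 2 / ρ := by positivity
      have h9 : 0 ≤ ‖pe y₀ U‖ ^ 2 := by positivity
      have h10 : 0 ≤ (2 - ρ) / ρ * ‖pe y₀ U‖ ^ 2 := by positivity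
      simp only [norm_zero, ne_eq, OfNat.ofNat_ne_zero, not_false_eq_true, zero_pow, zero_div,
        add_zero, mul_zero]
      rcases h7 with h7 | h7
      · linarith
      · have : 0 < (2 - ρ) / ρ * ‖pe y₀ U‖ ^ 2 := by positivity
        linarith
    · have h5 := norm_dec h0 Z
      rw [← hρ] at h5
      have h6 : 0 < ‖Z‖ := norm_pos_iff.2 hZ
      have h8 : 0 ≤ ‖⟪y₀, U⟫_ℂ‖ ^ 2 / ρ := by positivity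
      have h9 : 0 ≤ (2 - ρ) / ρ * ‖pe y₀ U - ((2 / (2 - ρ) : ℝ) : ℂ) • pe y₀ Z‖ ^ 2 := by
        positivity
      by_cases hz : ⟪y₀, Z⟫_ℂ = 0
      · rw [hz, norm_zero] at h5
        have h7 : 0 < ‖pe y₀ Z‖ ^ 2 := by
          have : 0 < ‖Z‖ ^ 2 := by positivity
          simp only [ne_eq, OfNat.ofNat_ne_zero, not_false_eq_true, zero_pow, zero_div,
            add_zero] at h5
          linarith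
        have h10 : 0 < ρ / ((1 - ρ) * (2 - ρ)) * ‖pe y₀ Z‖ ^ 2 := by positivity
        have h11 : 0 ≤ ‖⟪y₀, Z⟫_ℂ‖ ^ 2 / (ρ * (1 - ρ) ^ 2) := by positivity
        linarith
      · have h7 : 0 < ‖⟪y₀, Z⟫_ℂ‖ := norm_pos_iff.2 hz
        have h10 : 0 ≤ ρ / ((1 - ρ) * (2 - ρ)) * ‖pe y₀ Z‖ ^ 2 := by positivity
        have h11 : 0 < ‖⟪y₀, Z⟫_ℂ‖ ^ 2 / (ρ * (1 - ρ) ^ 2) := by positivity
        linarith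
  linarith

/-- The direction at `y₀` which corresponds to the direction `U` at `0`. -/
noncomputable def Tr (y₀ : E k) : E k →ₗ[ℂ] E k where
  toFun U := ((√(1 - ‖y₀‖ ^ 2) : ℝ) : ℂ) • U +
    (((1 - ‖y₀‖ ^ 2 - √(1 - ‖y₀‖ ^ 2)) / ‖y₀‖ ^ 2 : ℝ) : ℂ) • (⟪y₀, U⟫_ℂ • y₀)
  map_add' U V := by
    rw [inner_add_right]
    module
  map_smul' c U := by
    rw [inner_smul_right, RingHom.id_apply]
    module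

theorem Tr_apply (y₀ U : E k) : Tr y₀ U = ((√(1 - ‖y₀‖ ^ 2) : ℝ) : ℂ) • U +
    (((1 - ‖y₀‖ ^ 2 - √(1 - ‖y₀‖ ^ 2)) / ‖y₀‖ ^ 2 : ℝ) : ℂ) • (⟪y₀, U⟫_ℂ • y₀) := rfl

theorem Tr_zero (U : E k) : Tr (0 : E k) U = U := by
  rw [Tr_apply]
  simp

theorem inner_Tr {y₀ : E k} (h0 : y₀ ≠ 0) (U : E k) :
    ⟪y₀, Tr y₀ U⟫_ℂ = ((1 - ‖y₀‖ ^ 2 : ℝ) : ℂ) * ⟪y₀, U⟫_ℂ := by
  have hr : 0 < ‖y₀‖ := norm_pos_iff.2 h0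
  have h2 : ((‖y₀‖ : ℝ) : ℂ) ≠ 0 := by exact_mod_cast hr.ne'
  rw [Tr_apply, inner_add_right, inner_smul_right, inner_smul_right, inner_smul_right,
    inner_self_cast]
  push_cast
  field_simp
  ring

theorem pe_Tr {y₀ : E k} (h0 : y₀ ≠ 0) (U : E k) :
    pe y₀ (Tr y₀ U) = ((√(1 - ‖y₀‖ ^ 2) : ℝ) : ℂ) • pe y₀ U := by
  have hr : 0 < ‖y₀‖ := norm_pos_iff.2 h0
  have h2 : ((‖y₀‖ : ℝ) : ℂ) ≠ 0 := by exact_mod_cast hr.ne'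
  rw [pe, inner_Tr h0, Tr_apply, pe]
  have h3 : ((1 - ‖y₀‖ ^ 2 : ℝ) : ℂ) * ⟪y₀, U⟫_ℂ / ((‖y₀‖ ^ 2 : ℝ) : ℂ) =
      (((1 - ‖y₀‖ ^ 2 - √(1 - ‖y₀‖ ^ 2)) / ‖y₀‖ ^ 2 : ℝ) : ℂ) * ⟪y₀, U⟫_ℂ +
      ((√(1 - ‖y₀‖ ^ 2) : ℝ) : ℂ) * (⟪y₀, U⟫_ℂ / ((‖y₀‖ ^ 2 : ℝ) : ℂ)) := by
    push_cast
    field_simp
    ring
  rw [h3]
  module

theorem al_Tr {y₀ : E k} (h0 : y₀ ≠ 0) (h1 : ‖y₀‖ < 1) (U : E k) : al y₀ U (Tr y₀ U) = 0 := by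
  have hr : 0 < ‖y₀‖ := norm_pos_iff.2 h0
  have hr2 := one_sub_pos h1
  have h2 : ((‖y₀‖ : ℝ) : ℂ) ≠ 0 := by exact_mod_cast hr.ne'
  have h3 : (1 : ℂ) - (‖y₀‖ : ℂ) ^ 2 ≠ 0 := by exact_mod_cast hr2.ne'
  rw [al, inner_sub_right, inner_Tr h0]
  push_cast
  field_simp
  ring

/-- The Levi form in the direction of parallel vectors. -/
theorem ka_par {y₀ : E k} (h0 : y₀ ≠ 0) (h1 : ‖y₀‖ < 1) (U : E k) :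
    ka y₀ U (Tr y₀ U) ≤ ‖U‖ ^ 2 + nb y₀ (Tr y₀ U) := by
  have hr : 0 < ‖y₀‖ := norm_pos_iff.2 h0
  have hr2 := one_sub_pos h1
  obtain ⟨x, hx⟩ : ∃ x, x = √(1 - ‖y₀‖ ^ 2) := ⟨_, rfl⟩
  have hx0 : 0 < x := by rw [hx]; exact Real.sqrt_pos.2 hr2
  have hx2 : x ^ 2 = 1 - ‖y₀‖ ^ 2 := by rw [hx]; exact Real.sq_sqrt hr2.le
  have hρ : ‖y₀‖ ^ 2 = 1 - x ^ 2 := by linarith
  have hρ0 : 0 < 1 - x ^ 2 := by rw [← hρ]; positivity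
  have hx1 : x < 1 := by nlinarith
  have e1 : ‖⟪y₀, Tr y₀ U⟫_ℂ‖ ^ 2 = (1 - ‖y₀‖ ^ 2) ^ 2 * ‖⟪y₀, U⟫_ℂ‖ ^ 2 := by
    rw [inner_Tr h0, norm_mul, Complex.norm_real, Real.norm_of_nonneg hr2.le, mul_pow]
  have e2 : ‖pe y₀ (Tr y₀ U)‖ ^ 2 = (1 - ‖y₀‖ ^ 2) * ‖pe y₀ U‖ ^ 2 := by
    rw [pe_Tr h0, norm_smul, Complex.norm_real, ← hx, Real.norm_of_nonneg hx0.le, mul_pow, hx2]
  have e3 : (⟪pe y₀ U, pe y₀ (Tr y₀ U)⟫_ℂ).re = x * ‖pe y₀ U‖ ^ 2 := by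
    rw [pe_Tr h0, inner_smul_right, Complex.re_ofReal_mul, inner_self_cast, Complex.ofReal_re, hx]
  rw [ka_dec h0 h1, nb_dec h0 h1, norm_dec h0 U, e1, e2, e3, hρ]
  have h5 : 0 ≤ ‖pe y₀ U‖ ^ 2 := by positivity
  have hA : ‖⟪y₀, U⟫_ℂ‖ ^ 2 / (1 - x ^ 2) +
      (1 - (1 - x ^ 2)) ^ 2 * ‖⟪y₀, U⟫_ℂ‖ ^ 2 / ((1 - x ^ 2) * (1 - (1 - x ^ 2)) ^ 2) +
      ‖pe y₀ U‖ ^ 2 / (1 - x ^ 2) +
      (1 - (1 - x ^ 2)) * ‖pe y₀ U‖ ^ 2 / ((1 - x ^ 2) * (1 - (1 - x ^ 2))) -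
      2 / (1 - x ^ 2) * (x * ‖pe y₀ U‖ ^ 2) =
      2 * (‖⟪y₀, U⟫_ℂ‖ ^ 2 / (1 - x ^ 2)) + 2 / (1 + x) * ‖pe y₀ U‖ ^ 2 := by
    have h6 := hx0.ne'
    have h7 := hρ0.ne'
    have h8 : 1 + x ≠ 0 := by positivity
    have h9 : 1 - x ≠ 0 := by linarith
    have h10 : 1 - x ^ 2 = (1 - x) * (1 + x) := by ring
    have h11 : 1 - (1 - x ^ 2) = x ^ 2 := by ring
    rw [h11, h10]
    field_simp
    ring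
  have hB : ‖pe y₀ U‖ ^ 2 + ‖⟪y₀, U⟫_ℂ‖ ^ 2 / (1 - x ^ 2) +
      ((1 - (1 - x ^ 2)) * ‖pe y₀ U‖ ^ 2 / (1 - (1 - x ^ 2)) +
      (1 - (1 - x ^ 2)) ^ 2 * ‖⟪y₀, U⟫_ℂ‖ ^ 2 / ((1 - x ^ 2) * (1 - (1 - x ^ 2)) ^ 2)) =
      2 * (‖⟪y₀, U⟫_ℂ‖ ^ 2 / (1 - x ^ 2)) + 2 * ‖pe y₀ U‖ ^ 2 := by
    have h6 := hx0.ne'
    have h7 := hρ0.ne'
    field_simp
    ring
  rw [hA, hB]
  have h11 : 2 / (1 + x) ≤ 2 := by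
    rw [div_le_iff₀ (by positivity)]
    nlinarith
  nlinarith

end Pool.Agent.Lib.MP_5d4057_al.RG
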