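import Pool.Agent.Lib.MP_5d4057_al.RG.LevV
import Mathlib.Analysis.Complex.Schwarz
import Mathlib.Analysis.Complex.RemovableSingularity
import Mathlib.Topology.Algebra.Module.FiniteDimension

/-!
# RG: limits of holomorphic maps of balls along an ultrafilter
-/

set_option autoImplicit false

namespace Pool.Agent.Lib.MP_5d4057_al.RG

open Filter Topology Metric

open scoped InnerProductSpace

section unif

variable {E' F' : Type*} [NormedAddCommGroup E'] [NormedSpace ℂ E'] [NormedAddCommGroup F']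
  [NormedSpace ℂ F'] [CompleteSpace F']

/-- The second order remainder in one variable. -/
theorem rem_one {g : ℂ → F'} {ρ M : ℝ} (hρ : 0 < ρ) (hd : DifferentiableOn ℂ g (ball 0 ρ))
    (hM : ∀ t ∈ ball (0 : ℂ) ρ, ‖g t‖ ≤ M) {t : ℂ} (ht : ‖t‖ < ρ) :
    ‖g t - g 0 - t • deriv g 0‖ ≤ 4 * M / ρ ^ 2 * ‖t‖ ^ 2 := by
  have h0 : (0 : ℂ) ∈ ball (0 : ℂ) ρ := mem_ball_self hρ
  have ht' : t ∈ ball (0 : ℂ) ρ := mem_ball_zero_iff.2 ht
  have hnh : ball (0 : ℂ) ρ ∈ 𝓝 (0 : ℂ) := ball_mem_nhds _ hρ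
  have h1 : Set.MapsTo g (ball 0 ρ) (closedBall (g 0) (2 * M)) := by
    intro x hx
    rw [mem_closedBall, dist_eq_norm]
    have := norm_sub_le (g x) (g 0)
    have := hM x hx
    have := hM 0 h0
    linarith
  have h2 : DifferentiableOn ℂ (dslope g 0) (ball 0 ρ) :=
    (Complex.differentiableOn_dslope hnh).2 hd
  have h3 : ∀ x ∈ ball (0 : ℂ) ρ, ‖dslope g 0 x‖ ≤ 2 * M / ρ := fun x hx =>
    Complex.norm_dslope_le_div_of_mapsTo_ball hd h1 hx
  have h4 : Set.MapsTo (dslope g 0) (ball 0 ρ) (closedBall (dslope g 0 0) (2 * (2 * M / ρ))) := by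
    intro x hx
    rw [mem_closedBall, dist_eq_norm]
    have := norm_sub_le (dslope g 0 x) (dslope g 0 0)
    have := h3 x hx
    have := h3 0 h0
    linarith
  have h5 := Complex.norm_dslope_le_div_of_mapsTo_ball h2 h4 ht'
  have e1 : g t - g 0 = t • dslope g 0 t := by
    have := sub_smul_dslope g 0 t
    rw [sub_zero] at this
    exact this.symm
  have e2 : dslope g 0 t - dslope g 0 0 = t • dslope (dslope g 0) 0 t := by
    have := sub_smul_dslope (dslope g 0) 0 t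
    rw [sub_zero] at this
    exact this.symm
  have e3 : g t - g 0 - t • deriv g 0 = (t * t) • dslope (dslope g 0) 0 t := by
    rw [e1, ← dslope_same g 0, ← smul_sub, e2, smul_smul]
  rw [e3, norm_smul, norm_mul]
  calc ‖t‖ * ‖t‖ * ‖dslope (dslope g 0) 0 t‖ ≤ ‖t‖ * ‖t‖ * (2 * (2 * M / ρ) / ρ) :=
        mul_le_mul_of_nonneg_left h5 (by positivity)
    _ = 4 * M / ρ ^ 2 * ‖t‖ ^ 2 := by
        field_simp
        ring

/-- The second order remainder, with a uniform constant. -/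
theorem rem_unif {φ : E' → F'} {x₀ : E'} {ρ M : ℝ} (hρ : 0 < ρ)
    (hd : DifferentiableOn ℂ φ (ball x₀ ρ)) (hM : ∀ x ∈ ball x₀ ρ, ‖φ x‖ ≤ M) {h : E'}
    (hh : ‖h‖ < ρ) :
    ‖φ (x₀ + h) - φ x₀ - fderiv ℂ φ x₀ h‖ ≤ 4 * M / ρ ^ 2 * ‖h‖ ^ 2 := by
  rcases eq_or_ne h 0 with rfl | hne
  · simp
  have hn : 0 < ‖h‖ := norm_pos_iff.2 hne
  have hr : 0 < ρ / ‖h‖ := by positivity
  have hmem : ∀ t ∈ ball (0 : ℂ) (ρ / ‖h‖), x₀ + t • h ∈ ball x₀ ρ := by
    intro t ht
    rw [mem_ball_zero_iff, lt_div_iff₀ hn] at ht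
    rw [mem_ball, dist_eq_norm, add_sub_cancel_left, norm_smul]
    exact ht
  have hder : ∀ t ∈ ball (0 : ℂ) (ρ / ‖h‖),
      HasDerivAt (fun t : ℂ => φ (x₀ + t • h)) (fderiv ℂ φ (x₀ + t • h) h) t := by
    intro t ht
    have h1 := (hd.differentiableAt (isOpen_ball.mem_nhds (hmem t ht))).hasFDerivAt
    have h2 : HasDerivAt (fun t : ℂ => x₀ + t • h) h t := by
      have := ((hasDerivAt_id t).smul_const h).const_add x₀
      simpa using this
    exact h1.comp_hasDerivAt t h2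
  have h1 := rem_one (g := fun t : ℂ => φ (x₀ + t • h)) hr
    (fun t ht => (hder t ht).differentiableAt.differentiableWithinAt)
    (fun t ht => hM _ (hmem t ht)) (t := 1) (by
      rw [norm_one, lt_div_iff₀ hn, one_mul]
      exact hh)
  have h2 := (hder 0 (mem_ball_self hr)).deriv
  simp only [one_smul, zero_smul, add_zero] at h1 h2
  rw [h2, norm_one, one_pow, mul_one] at h1
  refine h1.trans (le_of_eq ?_)
  field_simp

end unif

variable {m n k : ℕ}

private theorem sub_ball {z : E k} : ball z (1 - ‖z‖) ⊆ ball 0 1 := by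
  intro x hx
  rw [mem_ball, dist_eq_norm] at hx
  rw [mem_ball_zero_iff]
  have := norm_add_le (x - z) z
  rw [sub_add_cancel] at this
  linarith

/-- The limit along an ultrafilter. -/
theorem exists_lim {ι : Type*} (u : Ultrafilter ι) {φ : ι → E m → E n}
    (hd : ∀ i, DifferentiableOn ℂ (φ i) (ball 0 1))
    (hmap : ∀ i, Set.MapsTo (φ i) (ball 0 1) (ball 0 1)) (h0 : ∀ i, φ i 0 = 0) :
    ∃ ψ : E m → E n, DifferentiableOn ℂ ψ (ball 0 1) ∧ Set.MapsTo ψ (ball 0 1) (ball 0 1) ∧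
      ψ 0 = 0 ∧ (∀ z, ‖z‖ < 1 → Tendsto (fun i => fderiv ℂ (φ i) z) u (𝓝 (fderiv ℂ ψ z))) ∧
      ∀ (z : ι → E m) (z₀ : E m), ‖z₀‖ < 1 → Tendsto z u (𝓝 z₀) →
        Tendsto (fun i => φ i (z i)) u (𝓝 (ψ z₀)) := by
  -- uniform bounds
  have hb : ∀ i (z : E m), ‖z‖ < 1 → ‖φ i z‖ ≤ ‖z‖ := by
    intro i z hz
    have h1 : Set.MapsTo (φ i) (ball 0 1) (closedBall (φ i 0) 1) := by
      rw [h0]
      exact (hmap i).mono_right ball_subset_closedBall
    have h2 := Complex.dist_le_div_mul_dist_of_mapsTo_ball (hd i) h1 (mem_ball_zero_iff.2 hz)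
    simpa [h0 i] using h2
  have hM : ∀ i (z : E m), ‖z‖ < 1 → ∀ x ∈ ball z (1 - ‖z‖), ‖φ i x‖ ≤ 1 := by
    intro i z hz x hx
    have hx' := mem_ball_zero_iff.1 (sub_ball hx)
    exact (hb i x hx').trans hx'.le
  have hrem : ∀ i (z : E m), ‖z‖ < 1 → ∀ h : E m, ‖h‖ < 1 - ‖z‖ →
      ‖φ i (z + h) - φ i z - fderiv ℂ (φ i) z h‖ ≤ 4 * 1 / (1 - ‖z‖) ^ 2 * ‖h‖ ^ 2 :=
    fun i z hz h hh => rem_unif (by linarith) ((hd i).mono (sub_ball)) (hM i z hz) hh
  have hmt : ∀ i (z : E m), ‖z‖ < 1 → Set.MapsTo (φ i) (ball z (1 - ‖z‖))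
      (closedBall (φ i z) 2) := by
    intro i z hz x hx
    rw [mem_closedBall, dist_eq_norm]
    have h1 := norm_sub_le (φ i x) (φ i z)
    have h2 := hM i z hz x hx
    have h3 := (hb i z hz).trans hz.le
    linarith
  have hder : ∀ i (z : E m), ‖z‖ < 1 → ‖fderiv ℂ (φ i) z‖ ≤ 2 / (1 - ‖z‖) := by
    intro i z hz
    exact Complex.norm_fderiv_le_div_of_mapsTo_ball ((hd i).mono (sub_ball)) (hmt i z hz)
      (by linarith)
  have hlip : ∀ i (z : E m), ‖z‖ < 1 → ∀ x, ‖x - z‖ < 1 - ‖z‖ →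
      ‖φ i x - φ i z‖ ≤ 2 / (1 - ‖z‖) * ‖x - z‖ := by
    intro i z hz x hx
    have h1 := Complex.dist_le_div_mul_dist_of_mapsTo_ball ((hd i).mono (sub_ball))
      (hmt i z hz) (by rw [mem_ball, dist_eq_norm]; exact hx)
    rwa [dist_eq_norm, dist_eq_norm] at h1
  -- the limits
  have hex : ∀ z : E m, ‖z‖ < 1 → ∃ y : E n, Tendsto (fun i => φ i z) u (𝓝 y) := by
    intro z hz
    obtain ⟨y, -, hy⟩ := (isCompact_closedBall (0 : E n) 1).ultrafilter_le_nhds
      (u.map fun i => φ i z) (by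
        rw [Ultrafilter.coe_map, le_principal_iff]
        exact Filter.mem_map.2 (Eventually.of_forall fun i =>
          mem_closedBall_zero_iff.2 ((hb i z hz).trans hz.le)))
    exact ⟨y, hy⟩
  have : ProperSpace (E m →L[ℂ] E n) := FiniteDimensional.proper ℂ _
  have hex' : ∀ z : E m, ‖z‖ < 1 → ∃ y : E m →L[ℂ] E n,
      Tendsto (fun i => fderiv ℂ (φ i) z) u (𝓝 y) := by
    intro z hz
    obtain ⟨y, -, hy⟩ := (isCompact_closedBall (0 : E m →L[ℂ] E n)
      (2 / (1 - ‖z‖))).ultrafilter_le_nhds (u.map fun i => fderiv ℂ (φ i) z) (by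
        rw [Ultrafilter.coe_map, le_principal_iff]
        exact Filter.mem_map.2 (Eventually.of_forall fun i =>
          mem_closedBall_zero_iff.2 (hder i z hz)))
    exact ⟨y, hy⟩
  choose! ψ hψ using hex
  choose! D hD using hex'
  have hψb : ∀ z : E m, ‖z‖ < 1 → ‖ψ z‖ ≤ ‖z‖ := fun z hz =>
    le_of_tendsto (hψ z hz).norm (Eventually.of_forall fun i => hb i z hz)
  have hfd : ∀ z : E m, ‖z‖ < 1 → HasFDerivAt ψ (D z) z := by
    intro z hz
    have hρ : 0 < 1 - ‖z‖ := by linarith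
    have key : ∀ h : E m, ‖h‖ < 1 - ‖z‖ →
        ‖ψ (z + h) - ψ z - D z h‖ ≤ 4 * 1 / (1 - ‖z‖) ^ 2 * ‖h‖ ^ 2 := by
      intro h hh
      have hzh : ‖z + h‖ < 1 := (norm_add_le z h).trans_lt (by linarith)
      have h1 : Tendsto (fun i => φ i (z + h) - φ i z - fderiv ℂ (φ i) z h) u
          (𝓝 (ψ (z + h) - ψ z - D z h)) :=
        ((hψ _ hzh).sub (hψ z hz)).sub
          (((ContinuousLinearMap.apply ℂ (E n) h).continuous.tendsto _).comp (hD z hz))
      exact le_of_tendsto h1.norm (Eventually.of_forall fun i => hrem i z hz h hh)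
    rw [hasFDerivAt_iff_isLittleO_nhds_zero]
    have h2 : (fun h : E m => ψ (z + h) - ψ z - D z h) =O[𝓝 0] fun h => ‖h‖ ^ 2 := by
      refine Asymptotics.IsBigO.of_bound (4 * 1 / (1 - ‖z‖) ^ 2) ?_
      filter_upwards [ball_mem_nhds (0 : E m) hρ] with h hh
      have := key h (mem_ball_zero_iff.1 hh)
      rwa [Real.norm_of_nonneg (by positivity)]
    refine h2.trans_isLittleO ?_
    have h3 : (fun h : E m => ‖h‖ ^ 2) =o[𝓝 0] fun h => ‖h‖ ^ 1 :=
      Asymptotics.isLittleO_norm_pow_norm_pow (by norm_num)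
    simp only [pow_one] at h3
    exact h3.of_norm_right
  refine ⟨ψ, fun z hz => (hfd z (mem_ball_zero_iff.1 hz)).differentiableAt.differentiableWithinAt,
    fun z hz => ?_, ?_, fun z hz => ?_, fun z z₀ hz₀ hz => ?_⟩
  · rw [mem_ball_zero_iff] at hz ⊢
    exact (hψb z hz).trans_lt hz
  · have := hψb 0 (by simp)
    rw [norm_zero] at this
    exact norm_le_zero_iff.1 this
  · rw [(hfd z hz).fderiv]
    exact hD z hz
  · have hρ : 0 < 1 - ‖z₀‖ := by linarith
    have h1 : Tendsto (fun i => φ i (z i) - φ i z₀) u (𝓝 0) := by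
      have h2 : Tendsto (fun i => 2 / (1 - ‖z₀‖) * ‖z i - z₀‖) u (𝓝 0) := by
        have h3 : Tendsto (fun i => ‖z i - z₀‖) u (𝓝 0) := by
          have := (hz.sub_const z₀).norm
          simpa using this
        simpa using h3.const_mul (2 / (1 - ‖z₀‖))
      refine squeeze_zero_norm' ?_ h2
      have h3 : ∀ᶠ i in (u : Filter ι), z i ∈ ball z₀ (1 - ‖z₀‖) :=
        hz.eventually (ball_mem_nhds z₀ hρ)
      filter_upwards [h3] with i hi
      rw [mem_ball, dist_eq_norm] at hi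
      exact hlip i z₀ hz₀ (z i) hi
    have h2 := h1.add (hψ z₀ hz₀)
    simpa using h2

end Pool.Agent.Lib.MP_5d4057_al.RG
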