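import Pool.Agent.Lib.MP_5d4057_al.RG.Rigid

/-!
# RG A1: an isometric holomorphic map is linear

PROOF. `exists_ball` at `g = 1`: `f (bl z) = c • act g' (bl (φ z))`. By `cc_ball` `ccb (φ z) 0 = ccb z 0`, so `|φ z| = |z|`
(`(1 - |z|²)⁻¹ = (1 - |φ z|²)⁻¹`), so `|φ'(0) u| = lim |φ (s u)|/|s| = |u|`, and `schwarz_eq` gives `φ z = B z` with `B = φ'(0)` a linear
isometry. `A = g' (B ⊕ 1)`: `A *ᵥ v = v_last • act g' (bl (B (pr v)))` on the cone (`bl_pr`), and
`(B ⊕ 1)ᴴ J (B ⊕ 1) = J` since `Bᴴ B = 1`.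
-/

set_option autoImplicit false

namespace Pool.Agent.Lib.MP_5d4057_al.RG

open Matrix Filter Topology Metric Pool.Agent.Lib.MP_5d4057_al Pool.Agent.Lib.MP_5d4057_al.Hyb
  Pool.Agent.Lib.MP_5d4057_al.HM

open scoped InnerProductSpace

variable {m n : ℕ}

/-- a matrix which preserves the forms -/
private theorem lin_mat {A : Matrix (Fin (n + 1)) (Fin (m + 1)) ℂ}
    (h : ∀ v w : Vec m, herm (A *ᵥ v) (A *ᵥ w) = herm v w) : Aᴴ * J n * A = J m := by
  ext i j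
  have h1 := h (Pi.single i 1) (Pi.single j 1)
  have h2 : ∀ X : Matrix (Fin (m + 1)) (Fin (m + 1)) ℂ,
      star (Pi.single i (1 : ℂ)) ⬝ᵥ (X *ᵥ Pi.single j 1) = X i j := by
    intro X
    have : star (Pi.single i (1 : ℂ) : Vec m) = Pi.single i 1 := by
      ext k
      by_cases hk : k = i
      · subst hk
        simp
      · simp [hk]
    rw [this, mulVec_single_one, single_one_dotProduct]
    rfl
  have h3 : herm (A *ᵥ (Pi.single i 1 : Vec m)) (A *ᵥ (Pi.single j 1 : Vec m)) =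
      (Aᴴ * J n * A) i j := by
    rw [herm, star_mulVec, ← dotProduct_mulVec, mulVec_mulVec, mulVec_mulVec]
    exact h2 _
  rw [← h3, h1, herm, h2]

/-- the first coordinates -/
private noncomputable def lin_fst (m : ℕ) : Vec m →ₗ[ℂ] E m where
  toFun v := WithLp.toLp 2 fun i => v i.castSucc
  map_add' v w := by ext i; rfl
  map_smul' c v := by ext i; rfl

/-- `(z, w) ↦ (B z, w)` -/
private noncomputable def lin_ext (B : E m →ₗ[ℂ] E n) : Vec m →ₗ[ℂ] Vec n where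
  toFun v := Fin.snoc (α := fun _ => ℂ) (fun i => B (lin_fst m v) i) (v (Fin.last m))
  map_add' v w := by
    ext i
    refine Fin.lastCases ?_ (fun i => ?_) i
    · simp only [Pi.add_apply, Fin.snoc_last]
    · simp only [Pi.add_apply, Fin.snoc_castSucc, map_add, PiLp.add_apply]
  map_smul' c v := by
    ext i
    refine Fin.lastCases ?_ (fun i => ?_) i
    · simp only [Pi.smul_apply, Fin.snoc_last, RingHom.id_apply]
    · simp only [Pi.smul_apply, Fin.snoc_castSucc, map_smul, PiLp.smul_apply, RingHom.id_apply]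

private theorem lin_ext_last (B : E m →ₗ[ℂ] E n) (v : Vec m) :
    lin_ext B v (Fin.last n) = v (Fin.last m) :=
  Fin.snoc_last (α := fun _ => ℂ) _ _

private theorem lin_ext_cast (B : E m →ₗ[ℂ] E n) (v : Vec m) (i : Fin n) :
    lin_ext B v i.castSucc = B (lin_fst m v) i :=
  Fin.snoc_castSucc (α := fun _ => ℂ) _ _ _

private theorem lin_ext_bl (B : E m →ₗ[ℂ] E n) (z : E m) : lin_ext B (bl z) = bl (B z) := by
  ext i
  refine Fin.lastCases ?_ (fun i => ?_) i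
  · rw [lin_ext_last, bl_last, bl_last]
  · have h : lin_fst m (bl z) = z := by
      ext j
      exact bl_castSucc z j
    rw [lin_ext_cast, bl_castSucc, h]

private theorem lin_ext_herm (B : E m →ₗ[ℂ] E n) (hB : ∀ x y, ⟪B x, B y⟫_ℂ = ⟪x, y⟫_ℂ)
    (v w : Vec m) : herm (lin_ext B v) (lin_ext B w) = herm v w := by
  have h := hB (lin_fst m v) (lin_fst m w)
  rw [PiLp.inner_apply, PiLp.inner_apply] at h
  rw [herm_eq, herm_eq, lin_ext_last, lin_ext_last]
  congr 1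
  have e1 : ∀ i : Fin n, star (lin_ext B v i.castSucc) * lin_ext B w i.castSucc =
      ⟪B (lin_fst m v) i, B (lin_fst m w) i⟫_ℂ := by
    intro i
    rw [lin_ext_cast, lin_ext_cast, RCLike.inner_apply, mul_comm]
    rfl
  have e2 : ∀ i : Fin m, star (v i.castSucc) * w i.castSucc =
      ⟪lin_fst m v i, lin_fst m w i⟫_ℂ := by
    intro i
    rw [RCLike.inner_apply, mul_comm]
    rfl
  simp only [e1, e2, h]

private theorem lin_ccb (z : E m) : ccb z 0 = (1 - ‖z‖ ^ 2)⁻¹ := by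
  rw [ccb, inner_zero_right, norm_zero, sub_zero, norm_one]
  norm_num

theorem exists_lin {f : Vec m → Vec n} (hf : HMap f)
    (h : ∀ v ∈ Cone m, ∀ w ∈ Cone m, cc (f v) (f w) = cc v w) :
    ∃ A : Matrix (Fin (n + 1)) (Fin (m + 1)) ℂ, Aᴴ * J n * A = J m ∧
      ∀ v ∈ Cone m, ∃ c : ℂ, c ≠ 0 ∧ f v = c • (A *ᵥ v) := by
  obtain ⟨φ, g', hd, hm, h0, hφ⟩ := exists_ball hf (1 : SUGroup m)
  have hz0 : ‖(0 : E m)‖ < 1 := by rw [norm_zero]; exact one_pos
  -- the norm is preserved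
  have hnorm : ∀ z : E m, ‖z‖ < 1 → ‖φ z‖ = ‖z‖ := by
    intro z hz
    have h1 := cc_ball hφ hz hz0
    rw [h _ (act_mem _ (bl_mem.2 hz)) _ (act_mem _ (bl_mem.2 hz0)), cc_act, cc_bl, h0,
      lin_ccb, lin_ccb] at h1
    have hm1 : ‖φ z‖ < 1 := mem_ball_zero_iff.1 (hm (mem_ball_zero_iff.2 hz))
    have h2 : ‖z‖ ^ 2 < 1 := (sq_lt_one_iff₀ (norm_nonneg _)).2 hz
    have h3 : ‖φ z‖ ^ 2 < 1 := (sq_lt_one_iff₀ (norm_nonneg _)).2 hm1
    have h4 : ‖z‖ ^ 2 = ‖φ z‖ ^ 2 := by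
      have := inv_injective h1
      linarith
    exact ((sq_eq_sq₀ (norm_nonneg _) (norm_nonneg _)).1 h4).symm
  have hda : DifferentiableAt ℂ φ 0 :=
    hd.differentiableAt (isOpen_ball.mem_nhds (mem_ball_self one_pos))
  -- the derivative preserves the norm
  have hder : ∀ u : E m, ‖fderiv ℂ φ 0 u‖ = ‖u‖ := by
    intro u
    have h1 : HasDerivAt (fun s : ℂ => φ (s • u)) (fderiv ℂ φ 0 u) 0 := by
      have h2 : HasDerivAt (fun s : ℂ => s • u) u 0 := by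
        simpa using (hasDerivAt_id (0 : ℂ)).smul_const u
      have h3 : HasFDerivAt φ (fderiv ℂ φ 0) ((0 : ℂ) • u) := by
        rw [zero_smul]
        exact hda.hasFDerivAt
      exact h3.comp_hasDerivAt (0 : ℂ) h2
    have h2 := (hasDerivAt_iff_tendsto_slope.1 h1).norm
    have h3 : ∀ᶠ s : ℂ in 𝓝[≠] 0, ‖slope (fun s : ℂ => φ (s • u)) 0 s‖ = ‖u‖ := by
      have h4 : ∀ᶠ s : ℂ in 𝓝 0, ‖s • u‖ < 1 := by
        have : Continuous fun s : ℂ => ‖s • u‖ := by fun_prop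
        have h5 := this.tendsto 0
        rw [zero_smul, norm_zero] at h5
        exact h5.eventually (gt_mem_nhds one_pos)
      filter_upwards [nhdsWithin_le_nhds h4, self_mem_nhdsWithin] with s hs hs0
      have hs0' : s ≠ 0 := hs0
      rw [slope_def_module, zero_smul, h0, sub_zero, sub_zero, norm_smul, hnorm _ hs, norm_smul,
        norm_inv, ← mul_assoc, inv_mul_cancel₀ (norm_ne_zero_iff.2 hs0'), one_mul]
    exact tendsto_nhds_unique h2 (tendsto_const_nhds.congr' (h3.mono fun s hs => hs.symm))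
  have hlin : ∀ z : E m, ‖z‖ < 1 → φ z = fderiv ℂ φ 0 z := by
    intro z hz
    by_cases hz1 : z = 0
    · rw [hz1, h0, map_zero]
    have hn : ‖z‖ ≠ 0 := norm_ne_zero_iff.2 hz1
    have hn' : ((‖z‖ : ℝ) : ℂ) ≠ 0 := Complex.ofReal_ne_zero.2 hn
    have hu : ‖((‖z‖ : ℝ) : ℂ)⁻¹ • z‖ = 1 := by
      rw [norm_smul, norm_inv, Complex.norm_real, norm_norm, inv_mul_cancel₀ hn]
    have hu' : ‖fderiv ℂ φ 0 (((‖z‖ : ℝ) : ℂ)⁻¹ • z)‖ = 1 := by rw [hder, hu]
    have ht : ‖((‖z‖ : ℝ) : ℂ)‖ < 1 := by rwa [Complex.norm_real, norm_norm]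
    have h1 := schwarz_eq hd hm h0 hu hu' ht
    rwa [smul_smul, mul_inv_cancel₀ hn', one_smul, map_smul, smul_smul, mul_inv_cancel₀ hn',
      one_smul] at h1
  set B : E m →ₗ[ℂ] E n := (fderiv ℂ φ 0 : E m →L[ℂ] E n).toLinearMap with hBdef
  have hB : ∀ x y, ⟪B x, B y⟫_ℂ = ⟪x, y⟫_ℂ := by
    intro x y
    exact LinearIsometry.inner_map_map (⟨B, hder⟩ : E m →ₗᵢ[ℂ] E n) x y
  set L : Vec m →ₗ[ℂ] Vec n := (Matrix.mulVecLin g'.toMatrix).comp (lin_ext B) with hL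
  have hLm : ∀ v, LinearMap.toMatrix' L *ᵥ v = act g' (lin_ext B v) := by
    intro v
    rw [LinearMap.toMatrix'_mulVec]
    rfl
  refine ⟨LinearMap.toMatrix' L, lin_mat ?_, ?_⟩
  · intro v w
    rw [hLm, hLm, herm_act, lin_ext_herm B hB]
  · intro v hv
    have hl := last_ne hv
    obtain ⟨c, hc, e⟩ := hφ (pr v) (pr_mem hv)
    refine ⟨c, hc, ?_⟩
    rw [hLm]
    conv_lhs => rw [bl_pr hv, hf.hom _ hl _ (bl_mem.2 (pr_mem hv))]
    conv_rhs => rw [bl_pr hv, map_smul, act_smul, lin_ext_bl]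
    rw [act_one] at e
    rw [e, hlin _ (pr_mem hv), smul_comm]
    rfl

end Pool.Agent.Lib.MP_5d4057_al.RG
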