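import Pool.Agent.Lib.MP_5d4057_al.RG.LevW
import Pool.Agent.Lib.MP_5d4057_al.RG.Holo

/-!
# RG: the function `c S_X² - S_Y` on pairs of points has no positive local maximum

`S = sinh²` of the distance. The direction `(u, w)` is chosen with `φ'(q) w` parallel to `φ'(0) u`
(`n` linear equations in `ℂ^(2m)`); then `d S_Y = 0`, so `d S_X = 0` by the first order condition, and the Levi
form of `c S_X²` is larger than that of `S_Y` by `ka_half`, `ka_par` and the Schwarz lemma at both points.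
-/

set_option autoImplicit false

namespace Pool.Agent.Lib.MP_5d4057_al.RG

open Filter Topology Asymptotics Metric

open scoped InnerProductSpace

variable {m n k : ℕ}

theorem ccb_sub_one {z ζ : E k} (hz : ‖z‖ < 1) (hζ : ‖ζ‖ < 1) :
    ccb z ζ - 1 = (‖ζ - z‖ ^ 2 * (1 - ‖z‖ ^ 2) + ‖⟪z, ζ - z⟫_ℂ‖ ^ 2) /
      ((1 - ‖z‖ ^ 2) * (1 - ‖ζ‖ ^ 2)) := by
  have h1 := one_sub_pos hz
  have h2 := one_sub_pos hζ
  have key : ‖1 - ⟪z, ζ⟫_ℂ‖ ^ 2 - (1 - ‖z‖ ^ 2) * (1 - ‖ζ‖ ^ 2) =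
      ‖ζ - z‖ ^ 2 * (1 - ‖z‖ ^ 2) + ‖⟪z, ζ - z⟫_ℂ‖ ^ 2 := by
    rw [inner_sub_right, csq_sub', csq_sub', nsq_sub', inner_self_cast]
    have h1 : (⟪ζ, z⟫_ℂ).re = (⟪z, ζ⟫_ℂ).re := by
      rw [← inner_conj_symm, Complex.conj_re]
    have h3 : (star ⟪z, ζ⟫_ℂ * ((‖z‖ ^ 2 : ℝ) : ℂ)).re = (⟪z, ζ⟫_ℂ).re * ‖z‖ ^ 2 := by
      rw [Complex.re_mul_ofReal, Complex.star_def, Complex.conj_re]
    have h4 : (star (1 : ℂ) * ⟪z, ζ⟫_ℂ).re = (⟪z, ζ⟫_ℂ).re := by simp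
    rw [h3, h4, h1, norm_one, Complex.norm_real, Real.norm_of_nonneg (by positivity)]
    ring
  rw [← key, ccb]
  field_simp

theorem Cv.tendsto' {x : ℂ → E k} {x₀ x₁ : E k} (hx : Cv x x₀ x₁) :
    Tendsto x (𝓝 0) (𝓝 x₀) := by
  obtain ⟨x₂, h⟩ := hx
  have h0 : Tendsto (fun s : ℂ => ‖s‖ ^ 3) (𝓝 0) (𝓝 0) := by
    have : Continuous fun s : ℂ => ‖s‖ ^ 3 := by fun_prop
    simpa using this.tendsto 0
  have h1 := h.trans_tendsto h0
  have h2 : Tendsto (fun s : ℂ => x₀ + s • x₁ + s ^ 2 • x₂) (𝓝 0) (𝓝 x₀) := by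
    have : Continuous fun s : ℂ => x₀ + s • x₁ + s ^ 2 • x₂ := by fun_prop
    simpa using this.tendsto 0
  have h3 := h1.add h2
  simpa using h3

theorem exp_jet (a : ℝ) :
    (fun t => Real.exp t - (Real.exp a + Real.exp a * (t - a) + Real.exp a / 2 * (t - a) ^ 2))
      =O[𝓝 a] fun t => |t - a| ^ 3 := by
  have h1 := Real.exp_sub_sum_range_isBigO_pow 3
  have h2 : Tendsto (fun t : ℝ => t - a) (𝓝 a) (𝓝 0) := by
    have : Continuous fun t : ℝ => t - a := by fun_prop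
    simpa using this.tendsto a
  have h3 := (h1.comp_tendsto h2).const_mul_left (Real.exp a)
  have h4 : ((fun x : ℝ => x ^ 3) ∘ fun t => t - a) =O[𝓝 a] fun t => |t - a| ^ 3 := by
    refine IsBigO.of_bound 1 (Eventually.of_forall fun t => ?_)
    simp
  refine (h3.trans h4).congr_left fun t => ?_
  simp only [Function.comp_apply, Finset.sum_range_succ, Finset.sum_range_zero]
  have h5 : Real.exp t = Real.exp a * Real.exp (t - a) := by
    rw [← Real.exp_add]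
    congr 1
    ring
  rw [h5]
  norm_num [Nat.factorial]
  ring

/-- The jet of `sinh²` of the distance of two different points. -/
theorem jet_Sb {x y : ℂ → E k} {y₀ U Z : E k} (hx : Cv x 0 U) (hy : Cv y y₀ Z) (h0 : y₀ ≠ 0)
    (h1 : ‖y₀‖ < 1) : Jet2 (fun s => ccb (x s) (y s) - 1) (ccb 0 y₀ - 1)
      ((ccb 0 y₀ - 1 : ℝ) * al y₀ U Z)
      ((ccb 0 y₀ - 1) * ka y₀ U Z + (ccb 0 y₀ - 1) * ‖al y₀ U Z‖ ^ 2) := by
  have hS : 0 < ccb 0 y₀ - 1 := by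
    have := one_lt_ccb (by simp) h1 h0.symm
    linarith
  have e1 : Real.exp (Vb 0 y₀) = ccb 0 y₀ - 1 := Real.exp_log hS
  have h := (jet_Vb hx hy h0 h1).comp (exp_jet (Vb 0 y₀))
  rw [e1] at h
  refine h.congr ?_
  have hxt := hx.tendsto'
  have hyt := hy.tendsto'
  have e1 : ∀ᶠ s in 𝓝 (0 : ℂ), ‖x s‖ < 1 := by
    have := hxt.norm
    rw [norm_zero] at this
    exact this.eventually (gt_mem_nhds one_pos)
  have e2 : ∀ᶠ s in 𝓝 (0 : ℂ), ‖y s‖ < 1 := hyt.norm.eventually (gt_mem_nhds h1)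
  have e3 : ∀ᶠ s in 𝓝 (0 : ℂ), x s ≠ y s := by
    have := (hyt.sub hxt).eventually_ne (by simpa using h0 : y₀ - 0 ≠ 0)
    filter_upwards [this] with s hs he
    exact hs (by rw [he, sub_self])
  filter_upwards [e1, e2, e3] with s s1 s2 s3
  have h4 := one_lt_ccb s1 s2 s3
  exact (Real.exp_log (by linarith)).symm

/-- The jet of `sinh²` of the distance at a double point, along parallel directions. -/
theorem jet_Sb_zero {x y : ℂ → E k} {U : E k} (hx : Cv x 0 U) (hy : Cv y 0 U) :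
    Jet2 (fun s => ccb (x s) (y s) - 1) 0 0 0 := by
  obtain ⟨x₂, hx2⟩ := id hx
  obtain ⟨y₂, hy2⟩ := id hy
  have hxt := hx.tendsto'
  have hyt := hy.tendsto'
  have h1 : (fun s : ℂ => y s - x s) =O[𝓝 0] fun s : ℂ => ‖s‖ ^ 2 := by
    have h2 := hy2.sub hx2
    have h3 : (fun s : ℂ => ‖s‖ ^ 3) =O[𝓝 0] fun s : ℂ => ‖s‖ ^ 2 := by
      refine IsBigO.of_bound 1 ?_
      filter_upwards [ball_mem_nhds (0 : ℂ) one_pos] with s hs
      have hs1 : ‖s‖ < 1 := by simpa using hs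
      have := norm_nonneg s
      rw [Real.norm_of_nonneg (by positivity), Real.norm_of_nonneg (by positivity), one_mul]
      exact pow_le_pow_of_le_one this hs1.le (by norm_num)
    have h4 : (fun s : ℂ => s ^ 2 • (y₂ - x₂)) =O[𝓝 0] fun s : ℂ => ‖s‖ ^ 2 := by
      refine IsBigO.of_bound ‖y₂ - x₂‖ (Eventually.of_forall fun s => ?_)
      rw [norm_smul, norm_pow, Real.norm_of_nonneg (by positivity), mul_comm]
    refine ((h2.trans h3).add h4).congr_left fun s => ?_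
    module
  have hN : ∀ᶠ s in 𝓝 (0 : ℂ), ‖x s‖ ≤ 1 / 2 ∧ ‖y s‖ ≤ 1 / 2 := by
    have a1 := hxt.norm
    have a2 := hyt.norm
    rw [norm_zero] at a1 a2
    exact (a1.eventually (ge_mem_nhds (by norm_num))).and (a2.eventually (ge_mem_nhds (by norm_num)))
  have h5 : (fun s => ccb (x s) (y s) - 1) =O[𝓝 0] fun s => ‖y s - x s‖ ^ 2 := by
    refine IsBigO.of_bound 4 ?_
    filter_upwards [hN] with s hs
    have b1 : ‖x s‖ < 1 := by linarith [hs.1]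
    have b2 : ‖y s‖ < 1 := by linarith [hs.2]
    have c1 : 3 / 4 ≤ 1 - ‖x s‖ ^ 2 := by nlinarith [norm_nonneg (x s), hs.1]
    have c2 : 3 / 4 ≤ 1 - ‖y s‖ ^ 2 := by nlinarith [norm_nonneg (y s), hs.2]
    have c3 : ‖⟪x s, y s - x s⟫_ℂ‖ ^ 2 ≤ ‖x s‖ ^ 2 * ‖y s - x s‖ ^ 2 := by
      rw [← mul_pow]
      exact pow_le_pow_left₀ (norm_nonneg _) (norm_inner_le_norm _ _) 2
    have c4 : ‖y s - x s‖ ^ 2 * (1 - ‖x s‖ ^ 2) + ‖⟪x s, y s - x s⟫_ℂ‖ ^ 2 ≤ ‖y s - x s‖ ^ 2 := by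
      nlinarith
    have c5 : 0 ≤ ‖y s - x s‖ ^ 2 := by positivity
    have c6 : 0 ≤ ‖y s - x s‖ ^ 2 * (1 - ‖x s‖ ^ 2) + ‖⟪x s, y s - x s⟫_ℂ‖ ^ 2 := by
      have : 0 ≤ 1 - ‖x s‖ ^ 2 := by linarith
      positivity
    have c7 : 1 / 4 ≤ (1 - ‖x s‖ ^ 2) * (1 - ‖y s‖ ^ 2) := by nlinarith
    rw [ccb_sub_one b1 b2, Real.norm_of_nonneg (by positivity), Real.norm_of_nonneg c5,
      div_le_iff₀ (by linarith)]
    nlinarith
  refine ⟨0, ?_⟩
  have h6 : (fun s : ℂ => ‖y s - x s‖ ^ 2) =O[𝓝 0] fun s : ℂ => ‖s‖ ^ 3 := by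
    have h7 := (h1.norm_left.pow 2)
    refine h7.trans (IsBigO.of_bound 1 ?_)
    filter_upwards [ball_mem_nhds (0 : ℂ) one_pos] with s hs
    have hs1 : ‖s‖ < 1 := by simpa using hs
    have := norm_nonneg s
    rw [Real.norm_of_nonneg (by positivity), Real.norm_of_nonneg (by positivity), one_mul,
      ← pow_mul]
    exact pow_le_pow_of_le_one this hs1.le (by norm_num)
  refine (h5.trans h6).congr_left fun s => ?_
  simp

theorem Cv.map {φ : E m → E n} {x : ℂ → E m} {x₀ x₁ : E m}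
    (hd : DifferentiableOn ℂ φ (ball 0 1)) (h0 : ‖x₀‖ < 1) (hx : Cv x x₀ x₁) :
    Cv (fun s => φ (x s)) (φ x₀) (fderiv ℂ φ x₀ x₁) := by
  obtain ⟨x₂, h⟩ := hx
  have h1 : ∀ᶠ y in 𝓝 x₀, DifferentiableAt ℂ φ y := by
    have h2 : x₀ ∈ ball (0 : E m) 1 := by simpa using h0
    filter_upwards [isOpen_ball.mem_nhds h2] with y hy
    exact (hd y hy).differentiableAt (isOpen_ball.mem_nhds hy)
  exact holo_curve h1 h

theorem Cv.aff (x₀ x₁ : E k) : Cv (fun s : ℂ => x₀ + s • x₁) x₀ x₁ := by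
  refine ⟨0, ?_⟩
  have : (fun s : ℂ => x₀ + s • x₁ - (x₀ + s • x₁ + s ^ 2 • (0 : E k))) = fun _ => 0 := by
    funext s
    rw [smul_zero, add_zero, sub_self]
  rw [this]
  exact isBigO_zero _ _

/-- Parallel directions in the image. -/
theorem exists_dir (hmn : n < 2 * m) (A B : E m →ₗ[ℂ] E n) :
    ∃ u w : E m, (u ≠ 0 ∨ w ≠ 0) ∧ B w = A u := by
  let L : (E m × E m) →ₗ[ℂ] E n := B ∘ₗ LinearMap.snd ℂ _ _ - A ∘ₗ LinearMap.fst ℂ _ _
  have h1 : LinearMap.ker L ≠ ⊥ := by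
    apply LinearMap.ker_ne_bot_of_finrank_lt
    rw [Module.finrank_prod, finrank_euclideanSpace_fin, finrank_euclideanSpace_fin]
    omega
  obtain ⟨x, hx, hx0⟩ := (Submodule.ne_bot_iff _).1 h1
  have h2 : B x.2 - A x.1 = 0 := hx
  refine ⟨x.1, x.2, ?_, sub_eq_zero.1 h2⟩
  by_contra hcon
  push Not at hcon
  exact hx0 (Prod.ext hcon.1 hcon.2)

/-- **`c S_X² - S_Y` has no positive local maximum.** -/
theorem no_max (hmn : n < 2 * m) {φ : E m → E n} (hd : DifferentiableOn ℂ φ (ball 0 1))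
    (hmap : Set.MapsTo φ (ball 0 1) (ball 0 1)) (h0 : φ 0 = 0)
    (hup : ∀ z : E m, ‖z‖ < 1 → ∀ ξ : E m, nb (φ z) (fderiv ℂ φ z ξ) ≤ nb z ξ)
    {q : E m} (hq : ‖q‖ < 1) (hq0 : q ≠ 0) {c : ℝ} (hc : 0 < c)
    (hG : ccb (φ 0) (φ q) - 1 < c * (ccb 0 q - 1) ^ 2) :
    ∃ u w : E m, ¬ ∀ᶠ s in 𝓝 (0 : ℂ),
      c * (ccb (s • u) (q + s • w) - 1) ^ 2 - (ccb (φ (s • u)) (φ (q + s • w)) - 1) ≤
        c * (ccb 0 q - 1) ^ 2 - (ccb (φ 0) (φ q) - 1) := by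
  have hφq : ‖φ q‖ < 1 := by
    have := hmap (by simpa using hq : q ∈ ball (0 : E m) 1)
    simpa using this
  obtain ⟨u, w, hne, huw⟩ := exists_dir hmn
    ((Tr (φ q)) ∘ₗ ((fderiv ℂ φ 0 : E m →L[ℂ] E n) : E m →ₗ[ℂ] E n))
    ((fderiv ℂ φ q : E m →L[ℂ] E n) : E m →ₗ[ℂ] E n)
  have huw' : fderiv ℂ φ q w = Tr (φ q) (fderiv ℂ φ 0 u) := huw
  refine ⟨u, w, fun hev => ?_⟩
  have hx : Cv (fun s : ℂ => s • u) 0 u := by simpa using Cv.aff (0 : E m) u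
  have hy : Cv (fun s : ℂ => q + s • w) q w := Cv.aff q w
  have hfx := hx.map hd (by simp)
  rw [h0] at hfx
  have hfy := hy.map hd hq
  have hz : ‖(0 : E m)‖ < 1 := by simp
  -- the source
  obtain ⟨S, hS⟩ : ∃ S, S = ccb 0 q - 1 := ⟨_, rfl⟩
  have hSp : 0 < S := by
    have := one_lt_ccb hz hq hq0.symm
    rw [hS]
    linarith
  have hjX := jet_Sb hx hy hq0 hq
  rw [← hS] at hjX hG
  have hsq := hjX.mul hjX
  have hka := ka_half (U := u) (Z := w) hq0 hq hne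
  have hcon0 : nb (0 : E m) u = ‖u‖ ^ 2 := by simp [nb]
  have hcon1 : ∀ V : E n, nb (0 : E n) V = ‖V‖ ^ 2 := fun V => by simp [nb]
  -- the target
  obtain ⟨T, hT⟩ : ∃ T, T = ccb (φ 0) (φ q) - 1 := ⟨_, rfl⟩
  have hT0 : 0 ≤ T := by
    rw [hT, h0]
    have := ccb_pos_iff (z := (0 : E n)) (by simp) hφq
    linarith
  have hY : ∃ κ : ℝ, Jet2 (fun s : ℂ => ccb (φ (s • u)) (φ (q + s • w)) - 1) T 0 κ ∧
      κ ≤ T * (‖u‖ ^ 2 + nb q w) := by
    have b1 := hup 0 hz u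
    rw [h0, hcon1, hcon0] at b1
    have b2 := hup q hq w
    by_cases hφ0 : φ q = 0
    · refine ⟨0, ?_, ?_⟩
      · have e1 : T = 0 := by rw [hT, h0, hφ0]; simp [ccb]
        rw [e1]
        have e2 : fderiv ℂ φ q w = fderiv ℂ φ 0 u := by rw [huw', hφ0, Tr_zero]
        rw [hφ0, e2] at hfy
        exact jet_Sb_zero hfx hfy
      · have : 0 ≤ ‖u‖ ^ 2 + nb q w := by
          have h4 := one_sub_pos hq
          have : 0 ≤ nb q w := by unfold nb; positivity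
          positivity
        positivity
    · have hj := jet_Sb hfx hfy hφ0 hφq
      rw [huw', al_Tr hφ0 hφq, mul_zero, norm_zero] at hj
      have hT' : ccb 0 (φ q) - 1 = T := by rw [hT, h0]
      rw [hT'] at hj
      refine ⟨_, hj, ?_⟩
      have h5 := ka_par hφ0 hφq (fderiv ℂ φ 0 u)
      rw [← huw'] at h5 ⊢
      have h6 : ka (φ q) (fderiv ℂ φ 0 u) (fderiv ℂ φ q w) ≤ ‖u‖ ^ 2 + nb q w := by linarith
      have h7 := mul_le_mul_of_nonneg_left h6 hT0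
      linarith
  obtain ⟨κ, hjY, hκ⟩ := hY
  rw [← hT] at hG
  have hj := hjY.sub (hsq.smul c)
  have hmin : ∀ᶠ s in 𝓝 (0 : ℂ),
      (ccb (φ ((0 : ℂ) • u)) (φ (q + (0 : ℂ) • w)) - 1 -
        c * ((ccb ((0 : ℂ) • u) (q + (0 : ℂ) • w) - 1) *
          (ccb ((0 : ℂ) • u) (q + (0 : ℂ) • w) - 1))) ≤
      (ccb (φ (s • u)) (φ (q + s • w)) - 1 -
        c * ((ccb (s • u) (q + s • w) - 1) * (ccb (s • u) (q + s • w) - 1))) := by
    filter_upwards [hev] with s hs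
    simp only [zero_smul, add_zero]
    nlinarith
  obtain ⟨hα, hκ0⟩ := hj.nonneg hmin
  -- the first order condition
  have hal : al q u w = 0 := by
    have hS' : (S : ℂ) ≠ 0 := by exact_mod_cast hSp.ne'
    have hc' : (c : ℂ) ≠ 0 := by exact_mod_cast hc.ne'
    have h8 : (c : ℂ) * (2 * (S : ℂ) * (S : ℂ)) * al q u w = 0 := by linear_combination -hα
    exact (mul_eq_zero.1 h8).resolve_left
      (mul_ne_zero hc' (mul_ne_zero (mul_ne_zero two_ne_zero hS') hS'))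
  rw [hal] at hκ0
  simp only [mul_zero, norm_zero, star_zero, Complex.zero_re, ne_eq, OfNat.ofNat_ne_zero,
    not_false_eq_true, zero_pow, add_zero] at hκ0
  have hb : 0 < ‖u‖ ^ 2 + nb q w := by
    have h4 := one_sub_pos hq
    rcases hne with h | h
    · have h5 : 0 < ‖u‖ := norm_pos_iff.2 h
      have : 0 ≤ nb q w := by unfold nb; positivity
      positivity
    · have h5 : 0 < ‖w‖ := norm_pos_iff.2 h
      have : 0 < nb q w := by unfold nb; positivity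
      positivity
  have h9 : S * S * (‖u‖ ^ 2 + nb q w) < S * S * (2 * ka q u w) :=
    mul_lt_mul_of_pos_left hka (by positivity)
  have h10 : T * (‖u‖ ^ 2 + nb q w) < c * S ^ 2 * (‖u‖ ^ 2 + nb q w) :=
    mul_lt_mul_of_pos_right hG hb
  nlinarith

end Pool.Agent.Lib.MP_5d4057_al.RG
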