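import Pool.Agent.Lib.MP_5d4057_al.RG.Defs

/-!
# RG 1: the harmonic metric of a representation in `U(n,1)` takes its values in the symmetric space of
`U(n,1)`

PROOF. `F₂ v = J (F v)⁻¹ J` is harmonic (`Harm.inv`, `Harm.congr`), equivariant (computation in
`RC.refl_of_base_rec`: `ρ J ρᴴ = J` follows from `ρᴴ J ρ = J`), so `F₂ v = F v * S`
(`RC.eq_of_unique_rec` / `thmU_rec`); `S` commutes with the conjugates of all `ρ γ`: from
equivariance `F v S = ρ (F w) S ρᴴ`, `S ρᴴ = ρᴴ S`, so `S` is scalar (`HM.scalar_of_commute`), `S = c > 0`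
(both metrics are positive definite). Then `F' = √c F` (`J F'⁻¹ J = (1/√c) J F⁻¹ J = √c F`).
-/

set_option autoImplicit false

namespace Pool.Agent.Lib.MP_5d4057_al.RG

open Matrix Filter Topology Pool.Agent.Lib.MP_5d4057_al Pool.Agent.Lib.MP_5d4057_al.Hyb
  Pool.Agent.Lib.MP_5d4057_al.HM Pool.Agent.Lib.MP_5d4057_al.RC

open scoped ComplexOrder MatrixOrder Matrix.Norms.L2Operator

variable {m n : ℕ}

theorem UJ.mul_J {Γ : Subgroup (SUGroup m)} {ρ : Γ →* Mat (n + 1)} (hU : UJ ρ) (γ : Γ) :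
    ρ γ * J n * (ρ γ)ᴴ = J n := by
  have h := hU γ
  have hJJ : J n * J n = 1 := J_J
  -- `(J ρᴴ J) ρ = 1`, so `ρ (J ρᴴ J) = 1`
  have h1 : (J n * (ρ γ)ᴴ * J n) * ρ γ = 1 := by
    calc (J n * (ρ γ)ᴴ * J n) * ρ γ = J n * ((ρ γ)ᴴ * J n * ρ γ) := by
          simp only [Matrix.mul_assoc]
      _ = 1 := by rw [h, hJJ]
  have h2 : ρ γ * (J n * (ρ γ)ᴴ * J n) = 1 := mul_eq_one_comm.1 h1
  calc ρ γ * J n * (ρ γ)ᴴ = (ρ γ * (J n * (ρ γ)ᴴ * J n)) * J n := by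
        simp only [Matrix.mul_assoc]
        rw [hJJ, Matrix.mul_one]
    _ = J n := by rw [h2, Matrix.one_mul]

theorem UJ.isUnit {Γ : Subgroup (SUGroup m)} {ρ : Γ →* Mat (n + 1)} (_hU : UJ ρ) (γ : Γ) :
    IsUnit (ρ γ) :=
  (Group.isUnit γ).map ρ

theorem UJ.equi_inv {Γ : Subgroup (SUGroup m)} {ρ : Γ →* Mat (n + 1)} (hU : UJ ρ)
    {F : Vec m → Mat (n + 1)} (hFe : Equi ρ F) : Equi ρ fun v => J n * (F v)⁻¹ * J n := by
  intro γ v hv
  show J n * (F (act (γ : SUGroup m) v))⁻¹ * J n = ρ γ * (J n * (F v)⁻¹ * J n) * (ρ γ)ᴴ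
  rw [hFe γ v hv]
  have hd := (isUnit_iff_isUnit_det _).1 (hU.isUnit γ)
  have hi := hU.mul_J γ
  set A := ρ γ with hA
  have e1 : A⁻¹ * A = 1 := nonsing_inv_mul _ hd
  have hd' := (isUnit_iff_isUnit_det _).1 ((isUnit_conjTranspose A).2 (hU.isUnit γ))
  have e2 : Aᴴ * Aᴴ⁻¹ = 1 := mul_nonsing_inv _ hd'
  have i1 : J n * Aᴴ⁻¹ = A * J n := by
    calc J n * Aᴴ⁻¹ = (A * J n * Aᴴ) * Aᴴ⁻¹ := by rw [hi]
      _ = A * J n * (Aᴴ * Aᴴ⁻¹) := by simp only [Matrix.mul_assoc]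
      _ = _ := by rw [e2, Matrix.mul_one]
  have i2 : A⁻¹ * J n = J n * Aᴴ := by
    calc A⁻¹ * J n = A⁻¹ * (A * J n * Aᴴ) := by rw [hi]
      _ = (A⁻¹ * A) * J n * Aᴴ := by simp only [Matrix.mul_assoc]
      _ = _ := by rw [e1, Matrix.one_mul]
  rw [Matrix.mul_inv_rev, Matrix.mul_inv_rev]
  calc J n * (Aᴴ⁻¹ * ((F v)⁻¹ * A⁻¹)) * J n = (J n * Aᴴ⁻¹) * (F v)⁻¹ * (A⁻¹ * J n) := by
        simp only [Matrix.mul_assoc]
    _ = _ := by rw [i1, i2]; simp only [Matrix.mul_assoc]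

theorem exists_refl (hm : 1 ≤ m) {Γ : Subgroup (SUGroup m)} (hΓ : Rec Γ) {ρ : Γ →* Mat (n + 1)}
    (hU : UJ ρ) (hspan : Submodule.span ℂ (Set.range ρ) = ⊤) {F : Vec m → Mat (n + 1)}
    (hF : HarmG F) (hFe : Equi ρ F) :
    ∃ F' : Vec m → Mat (n + 1), HarmG F' ∧ Equi ρ F' ∧ ∀ v ∈ Cone m, J n * (F' v)⁻¹ * J n = F' v := by
  have hJJ : J n * J n = 1 := J_J
  have hJu : IsUnit (J n) := IsUnit.of_mul_eq_one _ hJJ
  have hJh : (J n)ᴴ = J n := J_conjTranspose n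
  have hF2 : Harm fun v => J n * (F v)⁻¹ * J n := by
    have := hF.toHarm.inv.congr hJu
    rwa [hJh] at this
  have hF2e := hU.equi_inv hFe
  obtain ⟨S, hS⟩ := thmU_pol hm hΓ hF.toHarm hF2 hFe hF2e hF.grInv (hF.grInv.conj (J n) (J n))
  -- `S` commutes with the conjugate transposes
  have hb : base m ∈ Cone m := base_mem m
  have hSc : ∀ γ : Γ, (ρ γ)ᴴ * S = S * (ρ γ)ᴴ := by
    intro γ
    have h1 := hF2e γ (base m) hb
    have hmem : act (γ : SUGroup m) (base m) ∈ Cone m := act_mem _ hb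
    have h2 := hS _ hmem
    have h3 := hS _ hb
    simp only at h1 h2 h3
    rw [h2, h3, hFe γ _ hb] at h1
    have h4 : (ρ γ * F (base m)) * ((ρ γ)ᴴ * S) = (ρ γ * F (base m)) * (S * (ρ γ)ᴴ) := by
      simp only [Matrix.mul_assoc] at h1 ⊢
      exact h1
    exact ((hU.isUnit γ).mul (hF.toHarm.unit hb)).mul_left_cancel h4
  have hSc' : ∀ γ : Γ, ρ γ * Sᴴ = Sᴴ * ρ γ := by
    intro γ
    have := congrArg conjTranspose (hSc γ)
    rw [conjTranspose_mul, conjTranspose_mul, conjTranspose_conjTranspose] at this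
    exact this.symm
  obtain ⟨c, hc⟩ := scalar_of_commute (fun γ : Γ => ρ γ) hspan hSc'
  have hSs : S = star c • (1 : Mat (n + 1)) := by
    have := congrArg conjTranspose hc
    rw [conjTranspose_conjTranspose, conjTranspose_smul, conjTranspose_one] at this
    exact this
  have hFc : ∀ v ∈ Cone m, J n * (F v)⁻¹ * J n = star c • F v := by
    intro v hv
    have := hS v hv
    rw [hSs, Matrix.mul_smul, Matrix.mul_one] at this
    exact this
  -- the constant is positive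
  obtain ⟨r, hr, hrc⟩ : ∃ r : ℝ, 0 < r ∧ star c = (r : ℂ) := by
    have p1 : 0 < F (base m) 0 0 := (hF.toHarm.pos _ hb).diag_pos
    have p2 : 0 < (J n * (F (base m))⁻¹ * J n) 0 0 := (hF2.pos _ hb).diag_pos
    rw [hFc _ hb, Matrix.smul_apply, smul_eq_mul] at p2
    rw [Complex.lt_def] at p1 p2
    obtain ⟨a1, a2⟩ := p1
    obtain ⟨b1, b2⟩ := p2
    simp only [Complex.zero_re, Complex.zero_im, Complex.mul_re, Complex.mul_im] at a1 a2 b1 b2
    rw [← a2, mul_zero] at b1 b2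
    simp only [sub_zero, zero_add] at b1 b2
    have him : (star c).im = 0 := by
      rcases mul_eq_zero.1 b2.symm with h | h
      · exact h
      · exact absurd h a1.ne'
    refine ⟨(star c).re, ?_, ?_⟩
    · exact (pos_iff_pos_of_mul_pos b1).2 a1
    · apply Complex.ext
      · simp
      · rw [him]; simp
  -- scaling
  obtain ⟨t, ht, htr⟩ : ∃ t : ℝ, 0 < t ∧ t ^ 4 = r := by
    refine ⟨Real.sqrt (Real.sqrt r), Real.sqrt_pos.2 (Real.sqrt_pos.2 hr), ?_⟩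
    have h1 : Real.sqrt (Real.sqrt r) ^ 4 = (Real.sqrt (Real.sqrt r) ^ 2) ^ 2 := by ring
    rw [h1, Real.sq_sqrt (Real.sqrt_nonneg r), Real.sq_sqrt hr.le]
  have htc : (t : ℂ) ≠ 0 := by exact_mod_cast ht.ne'
  set B : Mat (n + 1) := (t : ℂ) • 1 with hB
  have hBu : IsUnit B := by
    rw [hB]
    exact IsUnit.of_mul_eq_one ((t : ℂ)⁻¹ • 1) (by
      rw [Matrix.smul_mul, Matrix.one_mul, smul_smul, mul_inv_cancel₀ htc, one_smul])
  have hpre := hF.pre (1 : SUGroup m) hBu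
  have hval : ∀ v, B * F (act (1 : SUGroup m) v) * Bᴴ = ((t : ℂ) ^ 2) • F v := by
    intro v
    rw [act_one, hB, conjTranspose_smul, conjTranspose_one, Matrix.smul_mul, Matrix.one_mul,
      Matrix.mul_smul, Matrix.mul_one, smul_smul]
    congr 1
    rw [Complex.star_def, Complex.conj_ofReal]
    ring
  refine ⟨fun v => B * F (act (1 : SUGroup m) v) * Bᴴ, hpre, ?_, ?_⟩
  · intro γ v hv
    show B * F (act (1 : SUGroup m) (act (γ : SUGroup m) v)) * Bᴴ =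
      ρ γ * (B * F (act (1 : SUGroup m) v) * Bᴴ) * (ρ γ)ᴴ
    rw [hval, hval, hFe γ v hv, Matrix.mul_smul, Matrix.smul_mul]
  · intro v hv
    show J n * (B * F (act (1 : SUGroup m) v) * Bᴴ)⁻¹ * J n = B * F (act (1 : SUGroup m) v) * Bᴴ
    rw [hval]
    have ht2 : ((t : ℂ) ^ 2) ≠ 0 := pow_ne_zero _ htc
    have hinv : (((t : ℂ) ^ 2) • F v)⁻¹ = ((t : ℂ) ^ 2)⁻¹ • (F v)⁻¹ := by
      refine Matrix.inv_eq_right_inv ?_
      rw [Matrix.smul_mul, Matrix.mul_smul, smul_smul, mul_inv_cancel₀ ht2, one_smul]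
      exact mul_nonsing_inv _ ((isUnit_iff_isUnit_det _).1 (hF.toHarm.unit hv))
    rw [hinv, Matrix.mul_smul, Matrix.smul_mul, hFc v hv, smul_smul]
    congr 1
    rw [hrc, ← htr]
    push_cast
    field_simp

end Pool.Agent.Lib.MP_5d4057_al.RG
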