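import Pool.Agent.Lib.MP_5d4057_al.RG.SepE

/-!
# RG: uniform separation for lattices

`sep_lat`: the equivariant holomorphic map of a discrete faithful representation of a lattice is uniformly proper.
-/

set_option autoImplicit false

namespace Pool.Agent.Lib.MP_5d4057_al.RG

open Matrix Filter Topology Metric Pool.Agent.Lib.MP_5d4057_al Pool.Agent.Lib.MP_5d4057_al.Hyb
  Pool.Agent.Lib.MP_5d4057_al.HM Pool.Agent.Lib.MP_5d4057_al.HM.Kak Pool.Agent.Lib.MP_5d4057_al.NU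

open scoped ComplexOrder MatrixOrder Matrix.Norms.L2Operator

variable {m n : ℕ}

section data

variable {Γ : Subgroup (SUGroup m)} {ρ : Γ →* Mat (n + 1)} {f : Vec m → Vec n}

/-- An element whose powers stay bounded is trivial. -/
theorem eq_one_of_bdd (hP : Prp ρ) (hTor : Tor Γ) {γ : Γ} {B : ℝ} (h : ∀ i : ℕ, ‖ρ (γ ^ i)‖ ≤ B) :
    γ = 1 := by
  have h6 : ¬ Function.Injective fun i : ℕ => γ ^ i := by
    intro hinj
    exact Set.infinite_of_injective_forall_mem hinj (fun i => h i) (hP B)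
  rw [Function.not_injective_iff] at h6
  obtain ⟨i, j, hij, hne⟩ := h6
  have h7 : ∃ l : ℕ, 0 < l ∧ γ ^ l = 1 := by
    rcases lt_or_gt_of_ne hne with h | h
    · refine ⟨j - i, by omega, ?_⟩
      have e1 : γ ^ i * γ ^ (j - i) = γ ^ i := by
        rw [← pow_add, show i + (j - i) = j by omega]
        exact hij.symm
      exact mul_eq_left.1 e1
    · refine ⟨i - j, by omega, ?_⟩
      have e1 : γ ^ j * γ ^ (i - j) = γ ^ j := by
        rw [← pow_add, show j + (i - j) = i by omega]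
        exact hij
      exact mul_eq_left.1 e1
  obtain ⟨l, hl, h8⟩ := h7
  have h9 := hTor (γ : SUGroup m) γ.2 l hl (by
    have := congrArg (Subtype.val) h8
    exact this)
  exact Subtype.ext h9

/-- The displacement of the nontrivial elements at points of a compact set is bounded below. -/
theorem disp_low (hU : UJ ρ) (hP : Prp ρ) (hTor : Tor Γ) (M : ℝ) : ∃ δ : ℝ, 0 < δ ∧
    ∀ p ∈ Cone n, cc (base n) p ≤ M → ∀ γ : Γ, γ ≠ 1 → 1 + δ ≤ cc p (ρ γ *ᵥ p) := by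
  obtain ⟨K, hK⟩ : ∃ K : Set (SUGroup n), K = {g | ch g ≤ Real.sqrt M} := ⟨_, rfl⟩
  have hKc : IsCompact K := by rw [hK]; exact isCompact_ball _
  -- one element
  have key : ∀ γ : Γ, γ ≠ 1 → ∃ δ : ℝ, 0 < δ ∧ ∀ g ∈ K,
      1 + δ ≤ cc (act g (base n)) (ρ γ *ᵥ act g (base n)) := by
    intro γ hγ
    rcases K.eq_empty_or_nonempty with hne | hne
    · exact ⟨1, one_pos, fun g hg => by rw [hne] at hg; exact hg.elim⟩
    have hcont : Continuous fun g : SUGroup n =>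
        cc (act g (base n)) (ρ γ *ᵥ act g (base n)) := by
      have h1 : Continuous fun g : SUGroup n => act g (base n) := continuous_orbit
      have h2 : Continuous fun g : SUGroup n => ρ γ *ᵥ act g (base n) :=
        continuous_const.matrix_mulVec h1
      have h3 : (fun g : SUGroup n => cc (act g (base n)) (ρ γ *ᵥ act g (base n))) =
          fun g : SUGroup n => ‖herm (act g (base n)) (ρ γ *ᵥ act g (base n))‖ ^ 2 := by
        funext g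
        rw [cc, uj_q (hU γ), q_orbit]
        norm_num
      rw [h3]
      exact (continuous_herm h1 h2).norm.pow 2
    obtain ⟨g₀, hg₀, hmin⟩ := hKc.exists_isMinOn hne hcont.continuousOn
    have hg0 := orbit_mem g₀
    have h1 := one_le_cc hg0 (uj_mem (hU γ) hg0)
    have h2 : 1 < cc (act g₀ (base n)) (ρ γ *ᵥ act g₀ (base n)) := by
      refine lt_of_le_of_ne h1 fun h => hγ ?_
      obtain ⟨c, hc, h3⟩ := eq_of_cc hg0 (uj_mem (hU γ) hg0) h.symm.le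
      -- all powers have displacement one
      have h4 : ∀ i : ℕ, ∃ d : ℂ, d ≠ 0 ∧ ρ (γ ^ i) *ᵥ act g₀ (base n) =
          d • act g₀ (base n) := by
        intro i
        induction i with
        | zero => exact ⟨1, one_ne_zero, by rw [pow_zero, map_one, one_mulVec, one_smul]⟩
        | succ i ih =>
          obtain ⟨d, hd, hd'⟩ := ih
          refine ⟨c * d, mul_ne_zero hc hd, ?_⟩
          rw [pow_succ, map_mul, ← mulVec_mulVec, h3, mulVec_smul, hd', smul_smul]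
      refine eq_one_of_bdd hP hTor
        (B := 8 * (n + 1) * cc (base n) (act g₀ (base n)) * 1) fun i => ?_
      refine sc_norm (hU _) hg0 zero_le_one ?_
      obtain ⟨d, hd, hd'⟩ := h4 i
      rw [hd', cc_smul_right hd, sc_orbit, inv_mul_cancel]
      have h5 : ch (1 : SUGroup n) = 1 := by
        rw [HM.ch, toMatrix_one, one_apply_eq, norm_one]
      rw [h5]
    refine ⟨cc (act g₀ (base n)) (ρ γ *ᵥ act g₀ (base n)) - 1, by linarith, fun g hg => ?_⟩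
    have h3 := hmin hg
    simp only [Set.mem_ofPred_eq] at h3
    linarith
  choose! δ hδ hδ' using key
  obtain ⟨C, hC⟩ : ∃ C : ℝ, C = 8 * (n + 1) * |M| * 2 := ⟨_, rfl⟩
  obtain ⟨S, hS⟩ : ∃ S : Set Γ, S = {γ : Γ | ‖ρ γ‖ ≤ C} ∩ {γ : Γ | γ ≠ 1} := ⟨_, rfl⟩
  have hSf : S.Finite := by rw [hS]; exact (hP C).subset Set.inter_subset_left
  obtain ⟨δ₀, hδ₀, hδ₀'⟩ : ∃ δ₀ : ℝ, 0 < δ₀ ∧ ∀ γ ∈ S, δ₀ ≤ δ γ := by
    rcases S.eq_empty_or_nonempty with hne | hne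
    · exact ⟨1, one_pos, fun γ hγ => by rw [hne] at hγ; exact hγ.elim⟩
    · obtain ⟨γ₀, h1, h2⟩ := hSf.exists_minimalFor δ S hne
      refine ⟨δ γ₀, hδ γ₀ (by rw [hS] at h1; exact h1.2), fun γ hγ => ?_⟩
      by_contra h3
      push Not at h3
      exact absurd (h2 hγ h3.le) (not_le.2 h3)
  refine ⟨min δ₀ 1, lt_min hδ₀ one_pos, fun p hp hpM γ hγ => ?_⟩
  by_contra hcon
  push Not at hcon
  have h1 : cc p (ρ γ *ᵥ p) ≤ 2 ^ 2 := by
    have := min_le_right δ₀ 1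
    linarith
  have h2 := sc_norm (hU γ) hp (by norm_num) h1
  have h3 : ‖ρ γ‖ ≤ C := by
    rw [hC]
    refine h2.trans ?_
    have h4 : cc (base n) p ≤ |M| := hpM.trans (le_abs_self M)
    gcongr
  have h4 : γ ∈ S := by rw [hS]; exact ⟨h3, hγ⟩
  obtain ⟨g, c, hc, hg⟩ := exists_act_eq hp
  have h5 : g ∈ K := by
    rw [hK]
    have h6 : cc (base n) p = ch g ^ 2 := by
      have h7 := sc_orbit (1 : SUGroup n) g
      rw [act_one, inv_one, one_mul] at h7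
      rw [hg, cc_smul_right hc, h7]
    rw [h6] at hpM
    exact Real.le_sqrt_of_sq_le hpM
  have h6 := hδ' γ hγ g h5
  rw [hg, mulVec_smul, cc_smul_left hc, cc_smul_right hc] at hcon
  have h7 := hδ₀' γ h4
  have h8 := min_le_left δ₀ 1
  linarith

/-- transvections seen in the translates of a cusp -/
private theorem sf_tv {ξ : Fin m → ℂ} {z : SUGroup m} {κ : ℝ} (hc : Cusp Γ ξ z κ)
    {γ : SUGroup m} (hγ : γ ∈ Γ) {v : Vec m} (hv : v ∈ Cone m) :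
    ∃ a : Γ, IsTv (a : SUGroup m) (mv γ⁻¹ ξ) (κ * ‖ml γ⁻¹ ξ‖ ^ 2) ∧
      cc v (act (a : SUGroup m) v) = 1 + κ ^ 2 / yp (NU.pe ξ) (act γ v) ^ 2 := by
  refine ⟨⟨γ⁻¹ * z * γ, Γ.mul_mem (Γ.mul_mem (Γ.inv_mem hγ) hc.mem) hγ⟩, ?_, ?_⟩
  · have h1 := hc.tv.conj (γ' := γ⁻¹)
    rw [inv_inv] at h1
    exact h1
  · have h1 := tv_cc hc.tv (act_mem γ hv)
    rw [sc_comm] at h1
    rw [← h1, ← cc_act γ v]
    congr 1
    rw [← act_mul, ← act_mul]
    congr 1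
    group

/-- **Properness.** -/
theorem proper_lat (hm : 2 ≤ m) {χ : SUGroup m → ℝ} (hL : Lat Γ χ) (hT : TF Γ) (hTor : Tor Γ)
    (hU : UJ ρ) (hP : Prp ρ) (hf : HMap f) (he : Eqv ρ f) (M : ℝ) : ∃ R : ℝ, ∀ h : SUGroup m,
      cc (base n) (f (act h (base m))) ≤ M → ch h ≤ R := by
  obtain ⟨X, hXf, hXc, hXK⟩ := exists_cusps hm hL hT hTor
  obtain ⟨δ, hδ, h1⟩ := disp_low hU hP hTor M
  choose! z κ hzκ using hXc
  -- the height
  obtain ⟨B, hB⟩ := (hXf.image fun ξ => κ ξ ^ 2).bddAbove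
  have hB' : ∀ ξ ∈ X, κ ξ ^ 2 ≤ |B| := fun ξ hξ =>
    (hB ⟨ξ, hξ, rfl⟩).trans (le_abs_self B)
  obtain ⟨Y, hY⟩ : ∃ Y : ℝ, Y = |B| / δ + 1 := ⟨_, rfl⟩
  have hY1 : 1 ≤ Y := by
    rw [hY]
    have : 0 ≤ |B| / δ := by positivity
    linarith
  obtain ⟨K, hK, hKc⟩ := hXK Y
  obtain ⟨R₁, hR₁⟩ := (hK.image continuous_ch).bddAbove
  have hR₁' : ∀ k ∈ K, ch k ≤ |R₁| := fun k hk => (hR₁ ⟨k, hk, rfl⟩).trans (le_abs_self _)
  -- the images of the compact part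
  have hfb : f (base m) ∈ Cone n := hf.maps _ (base_mem m)
  obtain ⟨W₀, hW₀⟩ : ∃ W₀ : ℝ, W₀ = cc (base n) (f (base m)) := ⟨_, rfl⟩
  have hW1 : 1 ≤ W₀ := hW₀ ▸ one_le_cc (base_mem n) hfb
  obtain ⟨C, hC⟩ : ∃ C : ℝ, C = 8 * (n + 1) * cc (base n) (base n) *
      (4 * (|M| + 1) * (4 * W₀ * (|R₁| + 1) ^ 2)) := ⟨_, rfl⟩
  obtain ⟨R₂, hR₂⟩ := ((hP C).image fun γ : Γ => ch (γ : SUGroup m)).bddAbove
  refine ⟨2 * |R₂| * |R₁|, fun h hh => ?_⟩
  have hhm : act h (base m) ∈ Cone m := orbit_mem h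
  have hfh : f (act h (base m)) ∈ Cone n := hf.maps _ hhm
  rcases hKc h with ⟨γ, hγ, hk⟩ | ⟨ξ, hξ, γ, hγ, hy⟩
  · -- the compact part
    obtain ⟨k, hkdef⟩ : ∃ k, k = γ * h := ⟨_, rfl⟩
    rw [← hkdef] at hk
    obtain ⟨g, hg⟩ : ∃ g : Γ, g = ⟨γ⁻¹, Γ.inv_mem hγ⟩ := ⟨_, rfl⟩
    have hgc : (g : SUGroup m) = γ⁻¹ := by rw [hg]
    have e1 : act h (base m) = act (g : SUGroup m) (act k (base m)) := by
      rw [hgc, hkdef, ← act_mul, inv_mul_cancel_left]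
    have hkm : act k (base m) ∈ Cone m := orbit_mem k
    have hfk : f (act k (base m)) ∈ Cone n := hf.maps _ hkm
    obtain ⟨c, hc, h2⟩ := he g _ hkm
    rw [e1, h2, cc_smul_right hc] at hh
    -- the image of the base point of the target
    have hb := base_mem n
    have h3 := sc_tri hb (uj_mem (hU g) hfk) (uj_mem (hU g) hb)
    rw [cc_uj (hU g), sc_comm (f (act k (base m)))] at h3
    have h4 : cc (base n) (f (act k (base m))) ≤ 4 * W₀ * (|R₁| + 1) ^ 2 := by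
      have e2 := sc_tri hb hfb hfk
      have e3 := hf.cc_le (base_mem m) hkm
      have e4 := sc_orbit (1 : SUGroup m) k
      rw [act_one, inv_one, one_mul] at e4
      rw [e4] at e3
      rw [← hW₀] at e2
      have e5 := hR₁' k hk
      have e6 := one_le_ch k
      refine e2.trans ?_
      have e7 : cc (f (base m)) (f (act k (base m))) ≤ (|R₁| + 1) ^ 2 := by
        refine e3.trans ?_
        gcongr
        linarith
      gcongr
    have h5 : cc (base n) (ρ g *ᵥ base n) ≤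
        (4 * (|M| + 1) * (4 * W₀ * (|R₁| + 1) ^ 2)) ^ 2 := by
      have e2 : cc (base n) (ρ g *ᵥ f (act k (base m))) ≤ |M| + 1 :=
        hh.trans ((le_abs_self M).trans (by linarith))
      have e3 := one_le_cc hb hfk
      have e4 : cc (base n) (ρ g *ᵥ base n) ≤ 4 * (|M| + 1) * (4 * W₀ * (|R₁| + 1) ^ 2) := by
        refine h3.trans ?_
        gcongr
      have e5 := one_le_cc hb (uj_mem (hU g) hb)
      refine e4.trans ?_
      have e6 : 1 ≤ 4 * (|M| + 1) * (4 * W₀ * (|R₁| + 1) ^ 2) := e5.trans e4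
      nlinarith
    have h6 := sc_norm (hU g) hb (by positivity) h5
    rw [← hC] at h6
    have h7 : ch (g : SUGroup m) ≤ |R₂| := (hR₂ ⟨g, h6, rfl⟩).trans (le_abs_self _)
    have h8 : h = (g : SUGroup m) * k := by rw [hgc, hkdef, inv_mul_cancel_left]
    have h9 := ch_mul_le' (g : SUGroup m) k
    have h10 := hR₁' k hk
    have h11 := one_le_ch (g : SUGroup m)
    have h12 := one_le_ch k
    rw [h8]
    refine h9.trans ?_
    gcongr
  · -- the cusps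
    exfalso
    obtain ⟨a, ha, ha'⟩ := sf_tv (hzκ ξ hξ) hγ hhm
    have h2 := (sc_disp hf he a hhm)
    rw [ha', ← act_mul γ h] at h2
    have hane : a ≠ 1 := by
      rintro rfl
      exact ha.ne_one rfl
    have h3 := (h1 _ hfh hh a hane).trans h2
    have h4 : κ ξ ^ 2 / yp (NU.pe ξ) (act (γ * h) (base m)) ^ 2 < δ := by
      have hy0 : 0 < yp (NU.pe ξ) (act (γ * h) (base m)) := by linarith
      rw [div_lt_iff₀ (by positivity)]
      calc κ ξ ^ 2 ≤ |B| := hB' ξ hξ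
        _ < δ * Y := by
            rw [hY, mul_add, mul_div_cancel₀ _ hδ.ne']
            linarith
        _ ≤ δ * yp (NU.pe ξ) (act (γ * h) (base m)) ^ 2 := by
            have : Y ≤ yp (NU.pe ξ) (act (γ * h) (base m)) ^ 2 := by nlinarith
            gcongr
    linarith

/-- **Uniform separation for lattices.** -/
theorem sep_lat (hm : 2 ≤ m) {χ : SUGroup m → ℝ} (hL : Lat Γ χ) (hT : TF Γ) (hTor : Tor Γ)
    (hU : UJ ρ) (hP : Prp ρ) (hf : HMap f) (he : Eqv ρ f) (M : ℝ) : ∃ T : ℝ, ∀ v ∈ Cone m,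
      ∀ w ∈ Cone m, cc (f v) (f w) ≤ M → cc v w ≤ T := by
  classical
  obtain ⟨X, hXf, hXc, hXK⟩ := exists_cusps hm hL hT hTor
  obtain ⟨δ, hδ, h1⟩ := diff_cusp hU hP hTor hf he M
  choose! z κ hzκ using hXc
  have hpar : ∀ ξ ∈ X, Par Γ ξ := fun ξ hξ => (hzκ ξ hξ).par
  -- the height
  obtain ⟨B, hB⟩ := (hXf.image fun ξ => κ ξ ^ 2).bddAbove
  have hB' : ∀ ξ ∈ X, κ ξ ^ 2 ≤ |B| := fun ξ hξ =>
    (hB ⟨ξ, hξ, rfl⟩).trans (le_abs_self B)
  -- the multipliers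
  have hmult : ∀ ξ₁ ∈ X, ∀ ξ₂ ∈ X, ∃ L : ℝ, ∀ γ ∈ Γ, mv γ ξ₂ = ξ₁ → 1 ≤ ‖ml γ ξ₂‖ ^ 2 * L := by
    intro ξ₁ h₁ ξ₂ h₂
    by_cases hex : ∃ γ ∈ Γ, mv γ ξ₂ = ξ₁
    · obtain ⟨γ₀, hγ₀, hm₀⟩ := hex
      have hξ₂ := (hpar ξ₂ h₂).1
      have h0 : 0 < ‖ml γ₀ ξ₂‖ := norm_pos_iff.2 (ml_ne_zero hξ₂ _)
      refine ⟨1 / ‖ml γ₀ ξ₂‖ ^ 2, fun γ hγ hmv => ?_⟩
      have h2 : γ₀⁻¹ * γ ∈ St ξ₂ := by
        rw [mem_St hξ₂, mv_mul hξ₂, hmv, ← hm₀, mv_inv_mv hξ₂]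
      have h3 := (hpar ξ₂ h₂).2 _ (Γ.mul_mem (Γ.inv_mem hγ₀) hγ) h2
      rw [mem_PS hξ₂] at h3
      have h4 : ml γ ξ₂ = ml γ₀ ξ₂ * ml (γ₀⁻¹ * γ) ξ₂ := by
        have h5 := ml_mul hξ₂ γ₀ (γ₀⁻¹ * γ)
        rw [mul_inv_cancel_left, h3.1] at h5
        exact h5
      rw [h4, norm_mul, h3.2, mul_one]
      field_simp
      exact le_refl _
    · exact ⟨0, fun γ hγ hmv => absurd ⟨γ, hγ, hmv⟩ hex⟩
  choose! L hLm using hmult
  obtain ⟨L₀, hL₀⟩ : ∃ L₀ : ℝ, ∀ ξ₁ ∈ X, ∀ ξ₂ ∈ X, L ξ₁ ξ₂ ≤ L₀ := by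
    obtain ⟨L₀, h2⟩ := ((hXf.prod hXf).image fun p => L p.1 p.2).bddAbove
    exact ⟨L₀, fun ξ₁ h₁ ξ₂ h₂ => h2 ⟨(ξ₁, ξ₂), ⟨h₁, h₂⟩, rfl⟩⟩
  -- the constants of the cusps
  have hcusp : ∀ ξ ∈ X, ∃ C : ℝ, ∀ v ∈ Cone m, ∀ w ∈ Cone m, 1 ≤ yp (NU.pe ξ) v →
      1 ≤ yp (NU.pe ξ) w → cc (f v) (f w) ≤ M → cc v w ≤ C := fun ξ hξ =>
    same_cusp_gen hL.disc (hzκ ξ hξ) hU hP hf he M
  choose! C hC using hcusp
  obtain ⟨C₀, hC₀⟩ := (hXf.image C).bddAbove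
  have hC₀' : ∀ ξ ∈ X, C ξ ≤ C₀ := fun ξ hξ => hC₀ ⟨ξ, hξ, rfl⟩
  obtain ⟨Y, hY⟩ : ∃ Y : ℝ, Y = |B| / δ + 1 + |L₀| := ⟨_, rfl⟩
  have hBδ : 0 ≤ |B| / δ := by positivity
  have hY1 : 1 ≤ Y := by
    rw [hY]
    have := abs_nonneg L₀
    linarith
  obtain ⟨K, hK, hKc⟩ := hXK Y
  obtain ⟨R₁, hR₁⟩ := (hK.image continuous_ch).bddAbove
  have hR₁' : ∀ k ∈ K, ch k ≤ |R₁| := fun k hk => (hR₁ ⟨k, hk, rfl⟩).trans (le_abs_self _)
  -- one point in the compact part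
  have hfb : f (base m) ∈ Cone n := hf.maps _ (base_mem m)
  obtain ⟨W₀, hW₀⟩ : ∃ W₀ : ℝ, W₀ = cc (base n) (f (base m)) := ⟨_, rfl⟩
  have hW1 : 1 ≤ W₀ := hW₀ ▸ one_le_cc (base_mem n) hfb
  obtain ⟨R₂, hR₂⟩ := proper_lat hm hL hT hTor hU hP hf he
    (4 * (4 * W₀ * (|R₁| + 1) ^ 2) * |M|)
  have hthick : ∀ (g : SUGroup m), (∃ γ ∈ Γ, γ * g ∈ K) → ∀ w ∈ Cone m,
      cc (f (act g (base m))) (f w) ≤ M → cc (act g (base m)) w ≤ (2 * |R₁| * |R₂|) ^ 2 := by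
    rintro g ⟨γ, hγ, hk⟩ w hw hM
    obtain ⟨k, hkdef⟩ : ∃ k, k = γ * g := ⟨_, rfl⟩
    rw [← hkdef] at hk
    have hgm : act g (base m) ∈ Cone m := orbit_mem g
    have hkm : act k (base m) ∈ Cone m := orbit_mem k
    have hwm : act γ w ∈ Cone m := act_mem γ hw
    have e1 : act γ (act g (base m)) = act k (base m) := by rw [hkdef, act_mul]
    have e2 := he.cc hU ⟨γ, hγ⟩ hgm hw
    have e3 : (((⟨γ, hγ⟩ : Γ) : SUGroup m)) = γ := rfl
    rw [e3, e1] at e2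
    rw [← e2] at hM
    obtain ⟨h, c, hc, hh⟩ := exists_act_eq hwm
    have hhm : act h (base m) ∈ Cone m := orbit_mem h
    have hM' : cc (f (act k (base m))) (f (act h (base m))) ≤ M := by
      rw [hh, hf.hom c hc _ hhm, cc_smul_right hc] at hM
      exact hM
    have m1 := hf.maps _ hkm
    have m2 := hf.maps _ hhm
    have e4 := sc_tri (base_mem n) m1 m2
    have e5 := sc_tri (base_mem n) hfb m1
    have e6 := hf.cc_le (base_mem m) hkm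
    have e7 := sc_orbit (1 : SUGroup m) k
    rw [act_one, inv_one, one_mul] at e7
    rw [e7] at e6
    rw [← hW₀] at e5
    have e8 := hR₁' k hk
    have e9 := one_le_ch k
    have e10 : cc (base n) (f (act k (base m))) ≤ 4 * W₀ * (|R₁| + 1) ^ 2 := by
      refine e5.trans ?_
      have e11 : cc (f (base m)) (f (act k (base m))) ≤ (|R₁| + 1) ^ 2 := by
        refine e6.trans ?_
        gcongr
        linarith
      gcongr
    have e12 := one_le_cc m1 m2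
    have e13 : cc (base n) (f (act h (base m))) ≤ 4 * (4 * W₀ * (|R₁| + 1) ^ 2) * |M| := by
      refine e4.trans ?_
      have := hM'.trans (le_abs_self M)
      gcongr
    have e14 := (hR₂ h e13).trans (le_abs_self _)
    have e15 : cc (act g (base m)) w = ch (k⁻¹ * h) ^ 2 := by
      rw [← cc_act γ, e1, hh, cc_smul_right hc, sc_orbit]
    have e16 := ch_mul_le' k⁻¹ h
    rw [ch_inv] at e16
    have e17 := one_le_ch (k⁻¹ * h)
    have e18 := one_le_ch h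
    rw [e15]
    refine pow_le_pow_left₀ (by linarith) (e16.trans ?_) 2
    gcongr
  refine ⟨max ((2 * |R₁| * |R₂|) ^ 2) C₀, fun v hv w hw hM => ?_⟩
  obtain ⟨g, c, hc, rfl⟩ := exists_act_eq hv
  obtain ⟨h, d, hd, rfl⟩ := exists_act_eq hw
  have hgm : act g (base m) ∈ Cone m := orbit_mem g
  have hhm : act h (base m) ∈ Cone m := orbit_mem h
  rw [hf.hom c hc _ hgm, hf.hom d hd _ hhm, cc_smul_left hc, cc_smul_right hd] at hM
  rw [cc_smul_left hc, cc_smul_right hd]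
  rcases hKc g with hg | ⟨ξ₁, hξ₁, γ₁, hγ₁, hy₁⟩
  · exact (hthick g hg _ hhm hM).trans (le_max_left _ _)
  rcases hKc h with hh | ⟨ξ₂, hξ₂, γ₂, hγ₂, hy₂⟩
  · rw [sc_comm] at hM ⊢
    exact (hthick h hh _ hgm hM).trans (le_max_left _ _)
  -- both points in cusps
  refine le_trans ?_ (le_max_right _ _)
  have hδY : ∀ ξ ∈ X, ∀ y : ℝ, Y ≤ y → κ ξ ^ 2 / y ^ 2 ≤ δ := by
    intro ξ hξ y hy
    have hy0 : 0 < y := by linarith
    rw [div_le_iff₀ (by positivity)]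
    calc κ ξ ^ 2 ≤ |B| := hB' ξ hξ
      _ = δ * (|B| / δ) := by rw [mul_div_cancel₀ _ hδ.ne']
      _ ≤ δ * y ^ 2 := by
          have e1 : |B| / δ ≤ y ^ 2 := by
            have e2 : |B| / δ ≤ Y := by
              rw [hY]
              have := abs_nonneg L₀
              linarith
            nlinarith
          gcongr
  obtain ⟨a, ha, ha'⟩ := sf_tv (hzκ ξ₁ hξ₁) hγ₁ hgm
  obtain ⟨b, hb, hb'⟩ := sf_tv (hzκ ξ₂ hξ₂) hγ₂ hhm
  rw [← act_mul γ₁ g] at ha'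
  rw [← act_mul γ₂ h] at hb'
  have h2 := h1 a b _ _ _ _ ha hb _ hgm _ hhm
    (by rw [ha']; have := hδY ξ₁ hξ₁ _ hy₁; linarith)
    (by rw [hb']; have := hδY ξ₂ hξ₂ _ hy₂; linarith) hM
  have hu₁ := (hpar ξ₁ hξ₁).1
  have hu₂ := (hpar ξ₂ hξ₂).1
  -- the same cusp
  obtain ⟨γ, hγdef⟩ : ∃ γ, γ = γ₁ * γ₂⁻¹ := ⟨_, rfl⟩
  have hγ : γ ∈ Γ := by rw [hγdef]; exact Γ.mul_mem hγ₁ (Γ.inv_mem hγ₂)
  have hmv : mv γ ξ₂ = ξ₁ := by
    rw [hγdef, mv_mul hu₂, ← h2, mv_mv_inv hu₁]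
  have h3 := hLm ξ₁ hξ₁ ξ₂ hξ₂ γ hγ hmv
  have h4 : yp (NU.pe ξ₁) (act γ₁ (act h (base m))) =
      ‖ml γ ξ₂‖ ^ 2 * yp (NU.pe ξ₂) (act (γ₂ * h) (base m)) := by
    have e1 : act γ₁ (act h (base m)) = act γ (act (γ₂ * h) (base m)) := by
      rw [← act_mul, ← act_mul, hγdef]
      congr 1
      group
    have e2 : act γ (NU.pe ξ₂) = ml γ ξ₂ • NU.pe ξ₁ := by
      have := act_pe hu₂ γ
      rw [hmv] at this
      exact this
    have e3 : yp (NU.pe ξ₂) (act (γ₂ * h) (base m)) =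
        yp (NU.pe ξ₁) (act γ (act (γ₂ * h) (base m))) / ‖ml γ ξ₂‖ ^ 2 := by
      rw [← yp_act γ, e2, yp_smul]
    have h0 : 0 < ‖ml γ ξ₂‖ := norm_pos_iff.2 (ml_ne_zero hu₂ _)
    rw [e1, e3]
    field_simp
  have h5 : 1 ≤ yp (NU.pe ξ₁) (act γ₁ (act h (base m))) := by
    rw [h4]
    refine h3.trans ?_
    have h6 := hL₀ ξ₁ hξ₁ ξ₂ hξ₂
    have h7 : L ξ₁ ξ₂ ≤ yp (NU.pe ξ₂) (act (γ₂ * h) (base m)) := by
      have h8 : |L₀| ≤ Y := by
        rw [hY]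
        linarith
      exact h6.trans ((le_abs_self _).trans (h8.trans hy₂))
    gcongr
  have h6 : 1 ≤ yp (NU.pe ξ₁) (act γ₁ (act g (base m))) := by
    rw [← act_mul]
    exact hY1.trans hy₁
  have h7 := hC ξ₁ hξ₁ _ (act_mem γ₁ hgm) _ (act_mem γ₁ hhm) h6 h5 (by
    have e2 := he.cc hU ⟨γ₁, hγ₁⟩ hgm hhm
    have e3 : (((⟨γ₁, hγ₁⟩ : Γ) : SUGroup m)) = γ₁ := rfl
    rw [e3] at e2
    rw [e2]
    exact hM)
  rw [cc_act] at h7
  exact h7.trans (hC₀' ξ₁ hξ₁)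

end data

end Pool.Agent.Lib.MP_5d4057_al.RG
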