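import Pool.Agent.Lib.MP_5d4057_al.RG.Sep
import Pool.Agent.Lib.MP_5d4057_al.RG.SepF
import Pool.Agent.Lib.MP_5d4057_al.RG.CpH1
import Pool.Agent.Lib.MP_5d4057_al.RG.CpH2
import Pool.Agent.Lib.MP_5d4057_al.RG.CpG
import Pool.Agent.Lib.MP_5d4057_al.RC.Liou

/-!
# RG: equivariant holomorphic maps of lattices are isometric (owner: helper37)
-/

set_option autoImplicit false

namespace Pool.Agent.Lib.MP_5d4057_al.RG

open Matrix Filter Topology Metric Pool.Agent.Lib.MP_5d4057_al Pool.Agent.Lib.MP_5d4057_al.Hyb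
  Pool.Agent.Lib.MP_5d4057_al.HM Pool.Agent.Lib.MP_5d4057_al.HM.Kak Pool.Agent.Lib.MP_5d4057_al.NU
  Pool.Agent.Lib.MP_5d4057_al.RC

open scoped ComplexOrder MatrixOrder Matrix.Norms.L2Operator

variable {m n : ℕ} {Γ : Subgroup (SUGroup m)}

/-- The equivariant holomorphic map of a discrete faithful representation of a lattice in `U(n,1)`, `n ≤ m + 1`, is
isometric. -/
theorem rigid_lat (hm : 2 ≤ m) (hn : n ≤ m + 1) {χ : SUGroup m → ℝ} (hL : Lat Γ χ) (hT : TF Γ)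
    (hTor : Tor Γ) {ρ : Γ →* Mat (n + 1)} (hU : UJ ρ) (hP : Prp ρ) {f : Vec m → Vec n}
    (hf : HMap f) (he : Eqv ρ f) : ∀ v ∈ Cone m, ∀ w ∈ Cone m, cc (f v) (f w) = cc v w := by
  obtain ⟨T, h⟩ := sep_lat hm hL hT hTor hU hP hf he 2
  refine rigid_sep hm hn hf (T := max T 1 + 1) (δ := 1) ?_ one_pos ?_
  · linarith [le_max_right T 1]
  · intro v hv w hw hvw
    by_contra hc
    rw [not_le] at hc
    have h1 := h v hv w hw (by linarith)
    rw [hvw] at h1
    linarith [le_max_left T 1]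

/-- Isometric maps have property `Tm`. -/
theorem tm_of_iso {f : Vec m → Vec n}
    (h : ∀ v ∈ Cone m, ∀ w ∈ Cone m, cc (f v) (f w) = cc v w) : Tm Γ f := by
  intro ε hε T
  refine ⟨∅, isCompact_empty, fun g => Or.inr fun w hw _ => ?_⟩
  rw [h _ (orbit_mem g) w hw]
  have h1 := one_le_cc (orbit_mem g) hw
  nlinarith

/-- Far points have different images under isometric maps. -/
theorem far_of_iso {f : Vec m → Vec n}
    (h : ∀ v ∈ Cone m, ∀ w ∈ Cone m, cc (f v) (f w) = cc v w) :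
    ∃ T : ℝ, ∀ v ∈ Cone m, ∀ w ∈ Cone m, T ≤ cc v w → 1 < cc (f v) (f w) := by
  refine ⟨2, fun v hv w hw hT => ?_⟩
  rw [h v hv w hw]
  linarith

/-- The geometric input for lattices: every representation in `U(k,1)`, `k ≤ m + 1`, with discrete image and finite kernel,
whose image spans, comes with an equivariant isometric holomorphic map. -/
theorem exists_iso_lat (hm : 2 ≤ m) {χ : SUGroup m → ℝ} (hL : Lat Γ χ) (hT : TF Γ) (hTor : Tor Γ)
    {k : ℕ} (hk : k ≤ m + 1) {ρ : Γ →* Mat (k + 1)} (hU : UJ ρ) (hP : Prp ρ)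
    (hs : Submodule.span ℂ (Set.range ρ) = ⊤) :
    ∃ f : Vec m → Vec k, HMap f ∧ (Eqv ρ f ∨ Eqv (rcj ρ) f) ∧
      ∀ v ∈ Cone m, ∀ w ∈ Cone m, cc (f v) (f w) = cc v w := by
  have hrec : Rec Γ := rec_of_ht hm hL.disc (ht_hty hm hL hT hTor)
  obtain ⟨N, C, -, hg⟩ := exists_grow hm hL hT hTor hU hP
  obtain ⟨F, hF, hFe⟩ := exists_harmG_N hm hL hT hTor (Nat.succ_pos k) ρ hg hs
  obtain ⟨f, hf, he⟩ := hmap_of_harm hm hrec hU hs hF hFe fun F' h1 h2 =>
    exists_full_N hm hL hT hTor hU hP h1 h2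
  refine ⟨f, hf, he, ?_⟩
  rcases he with he | he
  · exact rigid_lat hm hk hL hT hTor hU hP hf he
  · exact rigid_lat hm hk hL hT hTor (uj_rcj hU) (prp_rcj hP) hf he

end Pool.Agent.Lib.MP_5d4057_al.RG
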