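import Pool.Agent.Lib.MP_5d4057_al.RG.Level
import Pool.Agent.Lib.MP_5d4057_al.RG.BallR

/-!
# RG G7: Theorem R' (holomorphic maps)

`R f (g, ξ) = |φ_g'(0) ξ|²` for the map `φ_g` of `exists_ball`
(`= lim (cc (f (g 0)) (f (g (tξ))) - 1)/t²`, continuous in `(g, ξ)`, invariant under `Γ`). If it is `< 1` at
some unit vector it attains a positive minimum `μ < 1` (compactness; `Tm`; `fderiv_ne_zero`), and `ball_rigid`
applies to `φ_g` at the minimum (`frame`: the bounds at the other points). So `R ≥ 1`, `φ_g` is linear and isometric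
(`schwarz_eq`) and `cc (f v) (f w) = cc v w`.
-/

set_option autoImplicit false

namespace Pool.Agent.Lib.MP_5d4057_al.RG

open Matrix Filter Topology Metric Pool.Agent.Lib.MP_5d4057_al Pool.Agent.Lib.MP_5d4057_al.Hyb
  Pool.Agent.Lib.MP_5d4057_al.HM

open scoped InnerProductSpace

variable {m n k : ℕ}

/-- The square of the norm of the tangent vector `X` at the point `x` of the cone. -/
noncomputable def nv (x X : Vec k) : ℝ := (‖herm x X‖ ^ 2 - q x * q X) / q x ^ 2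

private theorem cont_q : Continuous (q (n := k)) := by
  have : q (n := k) = fun v => ∑ i : Fin k, ‖v i.castSucc‖ ^ 2 - ‖v (Fin.last k)‖ ^ 2 :=
    funext q_eq
  rw [this]
  fun_prop

private theorem num_cc (x δ : Vec k) (t : ℝ) :
    ‖herm x (x + (t : ℂ) • δ)‖ ^ 2 - q x * q (x + (t : ℂ) • δ) =
      t ^ 2 * (‖herm x δ‖ ^ 2 - q x * q δ) := by
  have h1 : (q (x + (t : ℂ) • δ) : ℂ) =
      (q x : ℂ) + t * (herm x δ + star (herm x δ)) + (t : ℂ) ^ 2 * (q δ : ℂ) := by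
    rw [← herm_self, herm_add_left, herm_add_right, herm_add_right, herm_smul_left,
      herm_smul_left, herm_smul_right, herm_smul_right, herm_self, herm_self, herm_comm x δ]
    have : star (t : ℂ) = (t : ℂ) := Complex.conj_ofReal t
    rw [this]
    ring
  have h2 : q (x + (t : ℂ) • δ) = q x + 2 * t * (herm x δ).re + t ^ 2 * q δ := by
    have h3 := congrArg Complex.re h1
    rw [Complex.ofReal_re] at h3
    rw [h3, ← Complex.ofReal_pow]
    simp only [Complex.add_re, Complex.re_ofReal_mul, Complex.ofReal_re, Complex.star_def,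
      Complex.conj_re]
    ring
  rw [h2, herm_add_right, herm_smul_right, herm_self, Complex.sq_norm, Complex.sq_norm,
    Complex.normSq_apply, Complex.normSq_apply]
  simp only [Complex.add_re, Complex.add_im, Complex.ofReal_re, Complex.ofReal_im,
    Complex.re_ofReal_mul, Complex.im_ofReal_mul, zero_add]
  ring

theorem cc_lim {x : ℝ → Vec k} {x₀ X : Vec k} (h0 : x₀ ∈ Cone k) (hx0 : x 0 = x₀)
    (hx : HasDerivAt x X 0) :
    Tendsto (fun t : ℝ => (cc x₀ (x t) - 1) / t ^ 2) (𝓝[≠] 0) (𝓝 (nv x₀ X)) := by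
  have h1 : q x₀ < 0 := h0
  have hsl : Tendsto (fun t : ℝ => t⁻¹ • (x t - x₀)) (𝓝[≠] 0) (𝓝 X) := by
    have h2 := hasDerivAt_iff_tendsto_slope.1 hx
    refine h2.congr fun t => ?_
    rw [slope_def_module, hx0, sub_zero]
  have hxt : Tendsto x (𝓝[≠] 0) (𝓝 x₀) := by
    have := hx.continuousAt.tendsto
    rw [hx0] at this
    exact this.mono_left nhdsWithin_le_nhds
  have hh : Continuous fun v : Vec k => herm x₀ v := continuous_herm continuous_const continuous_id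
  have h3 : Tendsto (fun t : ℝ => (‖herm x₀ (t⁻¹ • (x t - x₀))‖ ^ 2 -
      q x₀ * q (t⁻¹ • (x t - x₀))) / (q x₀ * q (x t))) (𝓝[≠] 0)
      (𝓝 ((‖herm x₀ X‖ ^ 2 - q x₀ * q X) / (q x₀ * q x₀))) := by
    refine Tendsto.div ?_ ?_ (mul_pos_of_neg_of_neg h1 h1).ne'
    · exact ((((hh.tendsto X).comp hsl).norm).pow 2).sub
        (tendsto_const_nhds.mul ((cont_q.tendsto X).comp hsl))
    · exact tendsto_const_nhds.mul ((cont_q.tendsto x₀).comp hxt)
  have h4 : (‖herm x₀ X‖ ^ 2 - q x₀ * q X) / (q x₀ * q x₀) = nv x₀ X := by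
    rw [nv, sq (q x₀)]
  rw [h4] at h3
  refine h3.congr' ?_
  have h5 : ∀ᶠ t in 𝓝[≠] (0 : ℝ), x t ∈ Cone k := hxt.eventually ((isOpen_cone k).mem_nhds h0)
  filter_upwards [h5, self_mem_nhdsWithin] with t ht htne
  have ht0 : t ≠ 0 := htne
  have h6 : q (x t) < 0 := ht
  have h7 : x t = x₀ + (t : ℂ) • (t⁻¹ • (x t - x₀)) := by
    rw [Complex.coe_smul, smul_smul, mul_inv_cancel₀ ht0, one_smul]
    abel
  have h8 := num_cc x₀ (t⁻¹ • (x t - x₀)) t
  rw [← h7] at h8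
  have h9 : q x₀ * q (x t) ≠ 0 := (mul_pos_of_neg_of_neg h1 h6).ne'
  rw [cc, div_sub_one h9, h8]
  field_simp

theorem bl_affine (ξ : E k) (t : ℂ) : bl (t • ξ) = bl 0 + t • (bl ξ - bl 0) := by
  ext i
  refine Fin.lastCases ?_ (fun i => ?_) i
  · simp [bl_last]
  · simp [bl_castSucc]

theorem act_bl_smul (g : SUGroup k) (ξ : E k) (t : ℂ) :
    act g (bl (t • ξ)) = act g (bl 0) + t • (act g (bl ξ) - act g (bl 0)) := by
  have h1 : act g (bl ξ - bl 0) = act g (bl ξ) - act g (bl 0) := by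
    have h2 := act_add g (bl ξ - bl 0) (bl 0)
    rw [sub_add_cancel] at h2
    rw [h2, add_sub_cancel_right]
  rw [bl_affine, act_add, act_smul, h1]

/-- The square of the stretching factor. -/
noncomputable def R (f : Vec m → Vec n) (p : SUGroup m × E m) : ℝ :=
  nv (f (act p.1 (bl 0))) (fderiv ℂ f (act p.1 (bl 0)) (act p.1 (bl p.2) - act p.1 (bl 0)))

private theorem norm_zero_lt : ‖(0 : E k)‖ < 1 := by
  rw [norm_zero]
  exact one_pos

theorem continuous_R {f : Vec m → Vec n} (hf : HMap f) : Continuous (R f) := by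
  have hmem : ∀ p : SUGroup m × E m, act p.1 (bl 0) ∈ Cone m :=
    fun p => act_mem _ (bl_mem.2 norm_zero_lt)
  have hc0 : Continuous fun p : SUGroup m × E m => act p.1 (bl (0 : E m)) :=
    continuous_act2.comp (continuous_fst.prodMk continuous_const)
  have h1 : Continuous fun p : SUGroup m × E m => f (act p.1 (bl 0)) :=
    hf.diff.continuousOn.comp_continuous hc0 hmem
  have h2 : Continuous fun p : SUGroup m × E m => fderiv ℂ f (act p.1 (bl 0)) :=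
    (holo_fderiv (isOpen_cone m) hf.diff).continuousOn.comp_continuous hc0 hmem
  have h3 : Continuous fun p : SUGroup m × E m =>
      fderiv ℂ f (act p.1 (bl 0)) (act p.1 (bl p.2) - act p.1 (bl 0)) :=
    h2.clm_apply (continuous_act2.sub hc0)
  have h4 : Continuous fun p : SUGroup m × E m => q (f (act p.1 (bl 0))) := cont_q.comp h1
  refine Continuous.div (((continuous_herm h1 h3).norm.pow 2).sub (h4.mul (cont_q.comp h3)))
    (h4.pow 2) fun p => ?_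
  have h5 : q (f (act p.1 (bl 0))) < 0 := hf.maps _ (hmem p)
  exact pow_ne_zero 2 h5.ne

/-- The stretching factor as a limit. -/
theorem R_lim {f : Vec m → Vec n} (hf : HMap f) (g : SUGroup m) (ξ : E m) :
    Tendsto (fun t : ℝ => (cc (f (act g (bl 0))) (f (act g (bl ((t : ℂ) • ξ)))) - 1) / t ^ 2)
      (𝓝[≠] 0) (𝓝 (R f (g, ξ))) := by
  have hm0 : act g (bl 0) ∈ Cone m := act_mem _ (bl_mem.2 norm_zero_lt)
  refine cc_lim (hf.maps _ hm0) (x := fun t : ℝ => f (act g (bl ((t : ℂ) • ξ)))) (by simp) ?_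
  have h1 : HasDerivAt (fun t : ℝ => act g (bl ((t : ℂ) • ξ)))
      (act g (bl ξ) - act g (bl 0)) 0 := by
    have h2 : HasDerivAt (fun t : ℝ => (t : ℂ)) 1 0 := Complex.ofRealCLM.hasDerivAt
    have h3 := (h2.smul_const (act g (bl ξ) - act g (bl 0))).const_add (act g (bl 0))
    rw [one_smul] at h3
    exact h3.congr_of_eventuallyEq (Eventually.of_forall fun t => act_bl_smul g ξ t)
  have h4 : HasFDerivAt f (fderiv ℂ f (act g (bl 0))) (act g (bl (((0 : ℝ) : ℂ) • ξ))) := by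
    rw [Complex.ofReal_zero, zero_smul]
    exact ((hf.diff _ hm0).differentiableAt ((isOpen_cone m).mem_nhds hm0)).hasFDerivAt
  exact (h4.restrictScalars ℝ).comp_hasDerivAt (0 : ℝ) h1

private theorem small (z ξ : E k) (hz : ‖z‖ < 1) :
    ∀ᶠ t : ℝ in 𝓝[≠] (0 : ℝ), ‖z + (t : ℂ) • ξ‖ < 1 := by
  have : Continuous fun t : ℝ => z + (t : ℂ) • ξ := by fun_prop
  have h3 := this.tendsto 0
  rw [Complex.ofReal_zero, zero_smul, add_zero] at h3
  exact (h3.mono_left nhdsWithin_le_nhds).norm.eventually (gt_mem_nhds hz)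

private theorem line (z ξ : E k) : HasDerivAt (fun t : ℝ => z + (t : ℂ) • ξ) ξ 0 := by
  have h2 : HasDerivAt (fun t : ℝ => (t : ℂ)) 1 0 := Complex.ofRealCLM.hasDerivAt
  have h3 := (h2.smul_const ξ).const_add z
  rwa [one_smul] at h3

/-- The stretching factor and the map of the ball. -/
theorem R_eq {f : Vec m → Vec n} (hf : HMap f) {g : SUGroup m} {φ : E m → E n} {g' : SUGroup n}
    (hd : DifferentiableOn ℂ φ (ball 0 1)) (h0 : φ 0 = 0)
    (h : ∀ z : E m, ‖z‖ < 1 → ∃ c : ℂ, c ≠ 0 ∧ f (act g (bl z)) = c • act g' (bl (φ z)))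
    (ξ : E m) : R f (g, ξ) = ‖fderiv ℂ φ 0 ξ‖ ^ 2 := by
  have h1 := R_lim hf g ξ
  have h2 := ccb_lim (y₀ := (0 : E n)) norm_zero_lt
    (y := fun t : ℝ => φ (0 + (t : ℂ) • ξ)) (by simp [h0])
    (hasDerivAt_line (diffAt_of_on hd norm_zero_lt) ξ)
  rw [nb_zero] at h2
  refine tendsto_nhds_unique h1 (h2.congr' ?_)
  filter_upwards [small 0 ξ norm_zero_lt] with t ht
  rw [zero_add] at ht ⊢
  rw [cc_ball h norm_zero_lt ht, h0]

/-- Invariance. -/
theorem R_inv {f : Vec m → Vec n} (hf : HMap f) {Γ : Subgroup (SUGroup m)}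
    (hinv : ∀ γ ∈ Γ, ∀ v ∈ Cone m, ∀ w ∈ Cone m, cc (f (act γ v)) (f (act γ w)) = cc (f v) (f w))
    {γ : SUGroup m} (hγ : γ ∈ Γ) (g : SUGroup m) (ξ : E m) : R f (γ * g, ξ) = R f (g, ξ) := by
  refine tendsto_nhds_unique (R_lim hf (γ * g) ξ) ((R_lim hf g ξ).congr' ?_)
  filter_upwards [small 0 ξ norm_zero_lt] with t ht
  rw [zero_add] at ht
  rw [act_mul, act_mul, hinv γ hγ _ (act_mem _ (bl_mem.2 norm_zero_lt)) _
    (act_mem _ (bl_mem.2 ht))]

/-- Almost isometric points. -/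
theorem R_ge {f : Vec m → Vec n} (hf : HMap f) {g : SUGroup m} {c T : ℝ} (hT : 1 < T)
    (h : ∀ w ∈ Cone m, cc (act g (base m)) w ≤ T →
      c * (cc (act g (base m)) w - 1) ≤ cc (f (act g (base m))) (f w) - 1) (ξ : E m) :
    c * ‖ξ‖ ^ 2 ≤ R f (g, ξ) := by
  have h2 := ccb_lim (y₀ := (0 : E m)) norm_zero_lt
    (y := fun t : ℝ => 0 + (t : ℂ) • ξ) (by simp) (line 0 ξ)
  rw [nb_zero] at h2
  refine le_of_tendsto_of_tendsto (h2.const_mul c) (R_lim hf g ξ) ?_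
  have h3 : Tendsto (fun t : ℝ => ccb 0 ((t : ℂ) • ξ)) (𝓝[≠] 0) (𝓝 1) := by
    have h4 : ContinuousAt (fun t : ℝ => 1 / (1 - ‖(t : ℂ) • ξ‖ ^ 2)) 0 := by
      refine ContinuousAt.div (by fun_prop) (by fun_prop) ?_
      simp
    have h5 := h4.tendsto
    have h6 : 1 / (1 - ‖((0 : ℝ) : ℂ) • ξ‖ ^ 2) = 1 := by simp
    rw [h6] at h5
    refine (h5.mono_left nhdsWithin_le_nhds).congr fun t => ?_
    rw [ccb_zero_left]
  filter_upwards [small 0 ξ norm_zero_lt, h3.eventually (gt_mem_nhds hT)] with t ht ht2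
  rw [zero_add] at ht ⊢
  have h6 : cc (act g (base m)) (act g (bl ((t : ℂ) • ξ))) = ccb 0 ((t : ℂ) • ξ) := by
    rw [← bl_zero, cc_act, cc_bl]
  have h7 := h (act g (bl ((t : ℂ) • ξ))) (act_mem _ (bl_mem.2 ht)) (by rw [h6]; exact ht2.le)
  rw [h6, ← bl_zero] at h7
  rw [← mul_div_assoc]
  exact div_le_div_of_nonneg_right h7 (by positivity)

/-- The stretching factor at the other points of the ball. -/
theorem frame {f : Vec m → Vec n} (hf : HMap f) {g : SUGroup m} {φ : E m → E n} {g' : SUGroup n}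
    (hd : DifferentiableOn ℂ φ (ball 0 1)) (hmap : Set.MapsTo φ (ball 0 1) (ball 0 1))
    (h : ∀ z : E m, ‖z‖ < 1 → ∃ c : ℂ, c ≠ 0 ∧ f (act g (bl z)) = c • act g' (bl (φ z)))
    {z : E m} (hz : ‖z‖ < 1) (ξ : E m) :
    ∃ (g₂ : SUGroup m) (ξ₂ : E m), nb z ξ = ‖ξ₂‖ ^ 2 ∧
      nb (φ z) (fderiv ℂ φ z ξ) = R f (g₂, ξ₂) := by
  obtain ⟨g₂, c, hc, he⟩ := exists_act_eq (act_mem g (bl_mem.2 hz))
  have hu : ∀ w : E m, ‖w‖ < 1 → act g₂⁻¹ (act g (bl w)) ∈ Cone m := fun w hw =>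
    act_mem _ (act_mem g (bl_mem.2 hw))
  obtain ⟨ψ, hψ⟩ : ∃ ψ : E m → E m, ψ = fun w => pr (act g₂⁻¹ (act g (bl w))) := ⟨_, rfl⟩
  have hψd : DifferentiableOn ℂ ψ (ball 0 1) := by
    rw [hψ, differentiableOn_euclidean]
    intro i
    have hbl : Differentiable ℂ (bl : E m → Vec m) := by
      rw [differentiable_pi]
      intro i
      refine Fin.lastCases ?_ (fun i => ?_) i
      · simp only [bl_last]
        exact differentiable_const _
      · simp only [bl_castSucc]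
        exact (EuclideanSpace.proj (𝕜 := ℂ) i : E m →L[ℂ] ℂ).differentiable
    have hact : ∀ g : SUGroup m, Differentiable ℂ (act g : Vec m → Vec m) := fun g =>
      (LinearMap.toContinuousLinearMap (Matrix.mulVecLin g.toMatrix)).differentiable
    have h1 : Differentiable ℂ (fun z : E m => act g₂⁻¹ (act g (bl z))) :=
      (hact _).comp ((hact g).comp hbl)
    rw [differentiable_pi] at h1
    show DifferentiableOn ℂ (fun z : E m => act g₂⁻¹ (act g (bl z)) i.castSucc /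
      act g₂⁻¹ (act g (bl z)) (Fin.last m)) (ball 0 1)
    simp only [div_eq_mul_inv]
    exact (h1 i.castSucc).differentiableOn.mul ((h1 (Fin.last m)).differentiableOn.inv
      fun z hz => last_ne (hu z (mem_ball_zero_iff.1 hz)))
  have hψm : ∀ w : E m, ‖w‖ < 1 → ‖ψ w‖ < 1 := fun w hw => by
    rw [hψ]
    exact pr_mem (hu w hw)
  have hψ0 : ψ z = 0 := by
    rw [hψ]
    show pr (act g₂⁻¹ (act g (bl z))) = 0
    rw [he, act_smul, ← act_mul, inv_mul_cancel, act_one]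
    ext i
    rw [pr_apply, Pi.smul_apply, base, Pi.single_eq_of_ne (Fin.castSucc_lt_last i).ne, smul_zero,
      zero_div]
    rfl
  have hψr : ∀ w : E m, ‖w‖ < 1 → ∃ d : ℂ, d ≠ 0 ∧ act g (bl w) = d • act g₂ (bl (ψ w)) := by
    intro w hw
    refine ⟨_, last_ne (hu w hw), ?_⟩
    rw [hψ, ← act_smul, ← bl_pr (hu w hw), ← act_mul, mul_inv_cancel, act_one]
  have hψa : DifferentiableAt ℂ ψ z := diffAt_of_on hψd hz
  refine ⟨g₂, fderiv ℂ ψ z ξ, ?_, ?_⟩
  · have h1 := ccb_lim hz (y := fun t : ℝ => z + (t : ℂ) • ξ) (by simp) (line z ξ)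
    have h2 := ccb_lim (y₀ := (0 : E m)) norm_zero_lt
      (y := fun t : ℝ => ψ (z + (t : ℂ) • ξ)) (by simp [hψ0]) (hasDerivAt_line hψa ξ)
    rw [nb_zero] at h2
    refine tendsto_nhds_unique h1 (h2.congr' ?_)
    filter_upwards [small z ξ hz] with t ht
    obtain ⟨d₁, hd₁, e1⟩ := hψr z hz
    obtain ⟨d₂, hd₂, e2⟩ := hψr _ ht
    rw [← cc_bl z, ← cc_act g, e1, e2, cc_smul_left hd₁, cc_smul_right hd₂, cc_act, cc_bl, hψ0]
  · obtain ⟨φ₂, g₂', hd2, hm2, h02, h2⟩ := exists_ball hf g₂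
    rw [R_eq hf hd2 h02 h2]
    have hφz : ‖φ z‖ < 1 := by
      have := hmap (by simpa using hz : z ∈ ball (0 : E m) 1)
      simpa using this
    have h3 := ccb_lim hφz (y := fun t : ℝ => φ (z + (t : ℂ) • ξ)) (by simp)
      (hasDerivAt_line (diffAt_of_on hd hz) ξ)
    have h4 : HasDerivAt (fun t : ℝ => φ₂ (ψ (z + (t : ℂ) • ξ)))
        (fderiv ℂ φ₂ 0 (fderiv ℂ ψ z ξ)) 0 := by
      have h5 : HasFDerivAt φ₂ (fderiv ℂ φ₂ 0) (ψ (z + ((0 : ℝ) : ℂ) • ξ)) := by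
        rw [Complex.ofReal_zero, zero_smul, add_zero, hψ0]
        exact (diffAt_of_on hd2 norm_zero_lt).hasFDerivAt
      exact (h5.restrictScalars ℝ).comp_hasDerivAt (0 : ℝ) (hasDerivAt_line hψa ξ)
    have h5 := ccb_lim (y₀ := (0 : E n)) norm_zero_lt (y := fun t : ℝ => φ₂ (ψ (z + (t : ℂ) • ξ)))
      (by simp [hψ0, h02]) h4
    rw [nb_zero] at h5
    refine tendsto_nhds_unique h3 (h5.congr' ?_)
    filter_upwards [small z ξ hz] with t ht
    obtain ⟨d₁, hd₁, e1⟩ := hψr z hz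
    obtain ⟨d₂, hd₂, e2⟩ := hψr _ ht
    have hm0 : act g₂ (bl 0) ∈ Cone m := act_mem _ (bl_mem.2 norm_zero_lt)
    have hmt : act g₂ (bl (ψ (z + (t : ℂ) • ξ))) ∈ Cone m := act_mem _ (bl_mem.2 (hψm _ ht))
    rw [hψ0] at e1
    rw [← cc_ball h hz ht, e1, e2, hf.hom _ hd₁ _ hm0, hf.hom _ hd₂ _ hmt, cc_smul_left hd₁,
      cc_smul_right hd₂, cc_ball h2 norm_zero_lt (hψm _ ht), h02]

theorem rigid (hm : 2 ≤ m) (hn : n ≤ m + 1) {f : Vec m → Vec n} (hf : HMap f)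
    {Γ : Subgroup (SUGroup m)} (hT : Tm Γ f)
    (hinv : ∀ γ ∈ Γ, ∀ v ∈ Cone m, ∀ w ∈ Cone m, cc (f (act γ v)) (f (act γ w)) = cc (f v) (f w))
    (hfar : ∃ T : ℝ, ∀ v ∈ Cone m, ∀ w ∈ Cone m, T ≤ cc v w → 1 < cc (f v) (f w)) :
    ∀ v ∈ Cone m, ∀ w ∈ Cone m, cc (f v) (f w) = cc v w := by
  have hmn : n < 2 * m := by omega
  -- the stretching factor is at least one
  have key : ∀ (g : SUGroup m) (ξ : E m), ‖ξ‖ = 1 → 1 ≤ R f (g, ξ) := by
    intro g₀ ξ₀ hξ₀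
    by_contra hlt
    rw [not_le] at hlt
    have hhom : ∀ (g : SUGroup m) (s : ℝ) (ξ : E m),
        R f (g, (s : ℂ) • ξ) = s ^ 2 * R f (g, ξ) := by
      intro g s ξ
      obtain ⟨φ, g', hd, hmap, h0, h⟩ := exists_ball hf g
      rw [R_eq hf hd h0 h, R_eq hf hd h0 h, map_smul, norm_smul, mul_pow, Complex.norm_real,
        Real.norm_eq_abs, sq_abs]
    have hnn : 0 ≤ R f (g₀, ξ₀) := by
      obtain ⟨φ, g', hd, hmap, h0, h⟩ := exists_ball hf g₀
      rw [R_eq hf hd h0 h]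
      positivity
    obtain ⟨ε, hε0, hε⟩ : ∃ ε : ℝ, 0 < ε ∧ R f (g₀, ξ₀) < 1 - ε :=
      ⟨(1 - R f (g₀, ξ₀)) / 2, by linarith, by linarith⟩
    obtain ⟨K, hK, hK'⟩ := hT ε hε0 2
    have hKR : ∀ (g : SUGroup m) (ξ : E m), (∃ γ ∈ Γ, γ * g ∈ K) ∨
        (1 - ε) * ‖ξ‖ ^ 2 ≤ R f (g, ξ) := by
      intro g ξ
      rcases hK' g with h1 | h1
      · exact Or.inl h1
      · exact Or.inr (R_ge hf one_lt_two h1 ξ)
    obtain ⟨γ₀, hγ₀, hγK⟩ : ∃ γ ∈ Γ, γ * g₀ ∈ K := by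
      rcases hKR g₀ ξ₀ with h1 | h1
      · exact h1
      · rw [hξ₀] at h1
        linarith
    obtain ⟨⟨g₁, e⟩, ⟨hg₁, he⟩, hmin⟩ := (hK.prod (isCompact_sphere (0 : E m) 1)).exists_isMinOn
      ⟨(γ₀ * g₀, ξ₀), hγK, mem_sphere_zero_iff_norm.2 hξ₀⟩ (continuous_R hf).continuousOn
    have hg₁' : g₁ ∈ K := hg₁
    have he' : ‖e‖ = 1 := mem_sphere_zero_iff_norm.1 he
    have hμ1 : R f (g₁, e) < 1 - ε := by
      have h1 : R f (g₁, e) ≤ R f (γ₀ * g₀, ξ₀) :=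
        hmin (a := (γ₀ * g₀, ξ₀)) ⟨hγK, mem_sphere_zero_iff_norm.2 hξ₀⟩
      rw [R_inv hf hinv hγ₀] at h1
      linarith
    have hunit : ∀ (g : SUGroup m) (ξ : E m), ‖ξ‖ = 1 → R f (g₁, e) ≤ R f (g, ξ) := by
      intro g ξ hξ
      rcases hKR g ξ with ⟨γ, hγ, h1⟩ | h1
      · rw [← R_inv hf hinv hγ g ξ]
        exact hmin (a := (γ * g, ξ)) ⟨h1, mem_sphere_zero_iff_norm.2 hξ⟩
      · rw [hξ] at h1
        linarith
    have hall : ∀ (g : SUGroup m) (ξ : E m), R f (g₁, e) * ‖ξ‖ ^ 2 ≤ R f (g, ξ) := by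
      intro g ξ
      by_cases h0 : ξ = 0
      · have h1 := hhom g 0 0
        rw [smul_zero] at h1
        rw [h0, norm_zero, h1]
        simp
      · have hn0 : ‖ξ‖ ≠ 0 := norm_ne_zero_iff.2 h0
        have h1 : ξ = ((‖ξ‖ : ℝ) : ℂ) • (((‖ξ‖⁻¹ : ℝ) : ℂ) • ξ) := by
          rw [smul_smul, ← Complex.ofReal_mul, mul_inv_cancel₀ hn0, Complex.ofReal_one, one_smul]
        have h2 : ‖(((‖ξ‖⁻¹ : ℝ) : ℂ) • ξ)‖ = 1 := by
          rw [norm_smul, Complex.norm_real, norm_inv, norm_norm, inv_mul_cancel₀ hn0]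
        have h3 := hunit g _ h2
        have h4 : R f (g, ξ) = ‖ξ‖ ^ 2 * R f (g, (((‖ξ‖⁻¹ : ℝ) : ℂ) • ξ)) := by
          rw [← hhom, ← h1]
        rw [h4, mul_comm]
        exact mul_le_mul_of_nonneg_left h3 (by positivity)
    obtain ⟨φ, g', hd, hmap, h0, h⟩ := exists_ball hf g₁
    have hμ : R f (g₁, e) = ‖fderiv ℂ φ 0 e‖ ^ 2 := R_eq hf hd h0 h e
    have hene : e ≠ 0 := by
      rintro rfl
      rw [norm_zero] at he'
      exact zero_ne_one he'
    have hpos : 0 < R f (g₁, e) := by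
      rw [hμ]
      have := norm_pos_iff.2 (fderiv_ne_zero hmn hf hT hinv hfar hd hmap h norm_zero_lt hene)
      positivity
    have hle : ∀ z ζ : E m, ‖z‖ < 1 → ‖ζ‖ < 1 → ccb (φ z) (φ ζ) ≤ ccb z ζ := by
      intro z ζ hz hζ
      rw [← cc_ball h hz hζ, ← cc_bl z ζ, ← cc_act g₁]
      exact hf.cc_le (act_mem _ (bl_mem.2 hz)) (act_mem _ (bl_mem.2 hζ))
    have hfin := ball_rigid (by omega) hn hd hmap h0 hpos (fun z hz ξ => by
      obtain ⟨g₂, ξ₂, e1, e2⟩ := frame hf hd hmap h hz ξ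
      rw [e1, e2]
      exact hall g₂ ξ₂) (nb_le_of_ccb hd hmap hle) he' hμ.symm
    linarith
  -- the map is linear and isometric in every frame
  intro v hv w hw
  obtain ⟨g, ζ, c, d, hc, hd', hζ, rfl, rfl⟩ := exists_pair hv hw
  obtain ⟨φ, g', hd, hmap, h0, h⟩ := exists_ball hf g
  have hm0 : act g (bl 0) ∈ Cone m := act_mem _ (bl_mem.2 norm_zero_lt)
  have hmζ : act g (bl ζ) ∈ Cone m := act_mem _ (bl_mem.2 hζ)
  rw [hf.hom _ hc _ hm0, hf.hom _ hd' _ hmζ, cc_smul_left hc, cc_smul_right hd', cc_smul_left hc,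
    cc_smul_right hd', cc_ball h norm_zero_lt hζ, cc_act, cc_bl, h0, ccb_zero_left, ccb_zero_left]
  have hnorm : ‖φ ζ‖ = ‖ζ‖ := by
    by_cases hz0 : ζ = 0
    · rw [hz0, h0, norm_zero, norm_zero]
    · have hn0 : ‖ζ‖ ≠ 0 := norm_ne_zero_iff.2 hz0
      have h1 : ζ = ((‖ζ‖ : ℝ) : ℂ) • (((‖ζ‖⁻¹ : ℝ) : ℂ) • ζ) := by
        rw [smul_smul, ← Complex.ofReal_mul, mul_inv_cancel₀ hn0, Complex.ofReal_one, one_smul]
      have h2 : ‖(((‖ζ‖⁻¹ : ℝ) : ℂ) • ζ)‖ = 1 := by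
        rw [norm_smul, Complex.norm_real, norm_inv, norm_norm, inv_mul_cancel₀ hn0]
      have h3 := key g _ h2
      rw [R_eq hf hd h0 h] at h3
      have h4 : ‖fderiv ℂ φ 0 (((‖ζ‖⁻¹ : ℝ) : ℂ) • ζ)‖ = 1 := by
        refine le_antisymm ((schwarz hd hmap h0 _).trans_eq h2) ?_
        by_contra hcon
        rw [not_le] at hcon
        have := norm_nonneg (fderiv ℂ φ 0 (((‖ζ‖⁻¹ : ℝ) : ℂ) • ζ))
        nlinarith
      have h5 := schwarz_eq hd hmap h0 h2 h4 (t := ((‖ζ‖ : ℝ) : ℂ)) (by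
        rw [Complex.norm_real, norm_norm]
        exact hζ)
      rw [← h1] at h5
      rw [h5, norm_smul, h4, mul_one, Complex.norm_real, norm_norm]
  rw [hnorm]

end Pool.Agent.Lib.MP_5d4057_al.RG
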