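import Pool.Agent.Lib.MP_5d4057_al.RG.Lim
import Pool.Agent.Lib.MP_5d4057_al.RG.Rigid

/-!
# RG: rigidity of separating holomorphic maps of balls, without groups

`rigid_sep`: a homogeneous holomorphic map `f` of the cones (`m ≥ 2`, `n ≤ m + 1`) which separates the pairs at one
distance `T` uniformly is isometric. The place of compactness modulo a group is taken by the limits of the maps
of the ball `z ↦ g'⁻¹ f (g z)` along an ultrafilter (`Lm`, `exists_lm`): every closed relation between the distances of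
two points and of their images passes to the limits.
-/

set_option autoImplicit false

namespace Pool.Agent.Lib.MP_5d4057_al.RG

open Matrix Filter Topology Metric Pool.Agent.Lib.MP_5d4057_al Pool.Agent.Lib.MP_5d4057_al.Hyb
  Pool.Agent.Lib.MP_5d4057_al.HM

open scoped InnerProductSpace

variable {m n k : ℕ}

private theorem nzl : ‖(0 : E k)‖ < 1 := by
  rw [norm_zero]
  exact one_pos

/-- Limits along ultrafilters in compact sets. -/
theorem exists_tendsto_of_mem {ι X : Type*} [TopologicalSpace X] (u : Ultrafilter ι) {K : Set X}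
    (hK : IsCompact K) {x : ι → X} (hx : ∀ i, x i ∈ K) : ∃ a ∈ K, Tendsto x u (𝓝 a) := by
  have h1 : ((u.map x : Ultrafilter X) : Filter X) ≤ 𝓟 K := by
    rw [le_principal_iff]
    exact Filter.mem_map.2 (Filter.univ_mem' hx)
  obtain ⟨a, ha, ha'⟩ := hK.ultrafilter_le_nhds _ h1
  exact ⟨a, ha, ha'⟩

theorem tendsto_clm {ι : Type*} {l : Filter ι} {A : ι → E m →L[ℂ] E n} {x : ι → E m}
    {A₀ : E m →L[ℂ] E n} {x₀ : E m} (hA : Tendsto A l (𝓝 A₀)) (hx : Tendsto x l (𝓝 x₀)) :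
    Tendsto (fun i => A i (x i)) l (𝓝 (A₀ x₀)) := by
  have h1 : Continuous fun p : (E m →L[ℂ] E n) × E m => p.1 p.2 :=
    isBoundedBilinearMap_apply.continuous
  exact (h1.tendsto (A₀, x₀)).comp (hA.prodMk_nhds hx)

theorem tendsto_ccb {ι : Type*} {l : Filter ι} {x y : ι → E k} {x₀ y₀ : E k}
    (hx : Tendsto x l (𝓝 x₀)) (hy : Tendsto y l (𝓝 y₀)) (hx₀ : ‖x₀‖ < 1) (hy₀ : ‖y₀‖ < 1) :
    Tendsto (fun i => ccb (x i) (y i)) l (𝓝 (ccb x₀ y₀)) := by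
  have h1 := one_sub_pos hx₀
  have h2 := one_sub_pos hy₀
  refine Tendsto.div ?_ ?_ (mul_pos h1 h2).ne'
  · exact ((tendsto_const_nhds.sub (hx.inner hy)).norm).pow 2
  · exact (tendsto_const_nhds.sub (hx.norm.pow 2)).mul (tendsto_const_nhds.sub (hy.norm.pow 2))

theorem tendsto_nb {ι : Type*} {l : Filter ι} {x y : ι → E k} {x₀ y₀ : E k}
    (hx : Tendsto x l (𝓝 x₀)) (hy : Tendsto y l (𝓝 y₀)) (hx₀ : ‖x₀‖ < 1) :
    Tendsto (fun i => nb (x i) (y i)) l (𝓝 (nb x₀ y₀)) := by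
  have h1 := one_sub_pos hx₀
  refine Tendsto.div ?_ ?_ (pow_pos h1 2).ne'
  · exact ((hy.norm.pow 2).mul (tendsto_const_nhds.sub (hx.norm.pow 2))).add
      (((hx.inner hy).norm).pow 2)
  · exact (tendsto_const_nhds.sub (hx.norm.pow 2)).pow 2

/-- Limits of the maps of `f` in the ball. -/
structure Lm (f : Vec m → Vec n) (ψ : E m → E n) : Prop where
  diff : DifferentiableOn ℂ ψ (ball 0 1)
  maps : Set.MapsTo ψ (ball 0 1) (ball 0 1)
  zero : ψ 0 = 0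
  tr : ∀ P : ℝ → Set ℝ, (∀ x, IsClosed (P x)) →
    (∀ v ∈ Cone m, ∀ w ∈ Cone m, cc (f v) (f w) ∈ P (cc v w)) →
    ∀ z ζ : E m, ‖z‖ < 1 → ‖ζ‖ < 1 → ccb (ψ z) (ψ ζ) ∈ P (ccb z ζ)

theorem Lm.norm_lt {f : Vec m → Vec n} {ψ : E m → E n} (h : Lm f ψ) {z : E m} (hz : ‖z‖ < 1) :
    ‖ψ z‖ < 1 := by
  have := h.maps (mem_ball_zero_iff.2 hz)
  simpa using this

theorem Lm.le {f : Vec m → Vec n} (hf : HMap f) {ψ : E m → E n} (h : Lm f ψ) :
    ∀ z ζ : E m, ‖z‖ < 1 → ‖ζ‖ < 1 → ccb (ψ z) (ψ ζ) ≤ ccb z ζ :=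
  h.tr (fun x => Set.Iic x) (fun _ => isClosed_Iic) fun _ hv _ hw => hf.cc_le hv hw

theorem exists_lm {f : Vec m → Vec n} (hf : HMap f) (u : Ultrafilter ℕ) (g : ℕ → SUGroup m) :
    ∃ (φ : ℕ → E m → E n) (g' : ℕ → SUGroup n) (ψ : E m → E n),
      (∀ i, DifferentiableOn ℂ (φ i) (ball 0 1)) ∧
      (∀ i, Set.MapsTo (φ i) (ball 0 1) (ball 0 1)) ∧ (∀ i, φ i 0 = 0) ∧
      (∀ i, ∀ z : E m, ‖z‖ < 1 →
        ∃ c : ℂ, c ≠ 0 ∧ f (act (g i) (bl z)) = c • act (g' i) (bl (φ i z))) ∧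
      Lm f ψ ∧ (∀ z, ‖z‖ < 1 → Tendsto (fun i => fderiv ℂ (φ i) z) u (𝓝 (fderiv ℂ ψ z))) ∧
      ∀ (z : ℕ → E m) (z₀ : E m), ‖z₀‖ < 1 → Tendsto z u (𝓝 z₀) →
        Tendsto (fun i => φ i (z i)) u (𝓝 (ψ z₀)) := by
  choose φ g' hd hm h0 h using fun i => exists_ball hf (g i)
  obtain ⟨ψ, hψd, hψm, hψ0, hψ1, hψ2⟩ := exists_lim u hd hm h0
  refine ⟨φ, g', ψ, hd, hm, h0, h, ⟨hψd, hψm, hψ0, ?_⟩, hψ1, hψ2⟩
  intro P hP hPf z ζ hz hζ
  have hn : ∀ z : E m, ‖z‖ < 1 → ‖ψ z‖ < 1 := fun z hz => by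
    have := hψm (mem_ball_zero_iff.2 hz)
    simpa using this
  have h1 := tendsto_ccb (hψ2 (fun _ => z) z hz tendsto_const_nhds)
    (hψ2 (fun _ => ζ) ζ hζ tendsto_const_nhds) (hn z hz) (hn ζ hζ)
  refine (hP (ccb z ζ)).mem_of_tendsto h1 (Eventually.of_forall fun i => ?_)
  have h2 := hPf _ (act_mem (g i) (bl_mem.2 hz)) _ (act_mem (g i) (bl_mem.2 hζ))
  rwa [cc_ball (h i) hz hζ, cc_act, cc_bl] at h2

/-- **The quadratic lower bound.** -/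
theorem sep_sq (hmn : n < 2 * m) {f : Vec m → Vec n} (hf : HMap f) {T δ : ℝ} (hT : 1 < T)
    (hδ : 0 < δ) (hsep : ∀ v ∈ Cone m, ∀ w ∈ Cone m, cc v w = T → δ ≤ cc (f v) (f w) - 1) :
    ∃ c : ℝ, 0 < c ∧ ∀ v ∈ Cone m, ∀ w ∈ Cone m, cc v w ≤ T →
      c * (cc v w - 1) ^ 2 ≤ cc (f v) (f w) - 1 := by
  have hT1 : 0 < T - 1 := by linarith
  obtain ⟨c, hc⟩ : ∃ c : ℝ, c = δ / (2 * (T - 1) ^ 2) := ⟨_, rfl⟩
  have hc0 : 0 < c := by rw [hc]; positivity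
  have hc1 : c * (T - 1) ^ 2 = δ / 2 := by
    rw [hc]
    field_simp
  refine ⟨c, hc0, ?_⟩
  by_contra hcon
  push Not at hcon
  obtain ⟨v₀, hv₀, w₀, hw₀, hvw₀, hG₀⟩ := hcon
  obtain ⟨S, hS⟩ : ∃ S : Set ℝ, S = {x | ∃ v ∈ Cone m, ∃ w ∈ Cone m, cc v w ≤ T ∧
    x = c * (cc v w - 1) ^ 2 - (cc (f v) (f w) - 1)} := ⟨_, rfl⟩
  have hb : BddAbove S := by
    refine ⟨c * (T - 1) ^ 2, ?_⟩
    rw [hS]
    rintro x ⟨v, hv, w, hw, hvw, rfl⟩
    have h1 := one_le_cc hv hw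
    have h2 := one_le_cc (hf.maps v hv) (hf.maps w hw)
    have h3 : (cc v w - 1) ^ 2 ≤ (T - 1) ^ 2 := pow_le_pow_left₀ (by linarith) (by linarith) 2
    have := mul_le_mul_of_nonneg_left h3 hc0.le
    linarith
  have hne : S.Nonempty := ⟨_, by rw [hS]; exact ⟨v₀, hv₀, w₀, hw₀, hvw₀, rfl⟩⟩
  obtain ⟨s, hs⟩ : ∃ s : ℝ, s = sSup S := ⟨_, rfl⟩
  have hle : ∀ v ∈ Cone m, ∀ w ∈ Cone m, cc v w ≤ T →
      c * (cc v w - 1) ^ 2 - (cc (f v) (f w) - 1) ≤ s := by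
    intro v hv w hw hvw
    rw [hs]
    exact le_csSup hb (by rw [hS]; exact ⟨v, hv, w, hw, hvw, rfl⟩)
  have hs0 : 0 < s := by
    have := hle v₀ hv₀ w₀ hw₀ hvw₀
    linarith
  have hseq : ∀ i : ℕ, ∃ v ∈ Cone m, ∃ w ∈ Cone m, cc v w ≤ T ∧
      s - 1 / ((i : ℝ) + 1) < c * (cc v w - 1) ^ 2 - (cc (f v) (f w) - 1) := by
    intro i
    have hi : s - 1 / ((i : ℝ) + 1) < sSup S := by
      rw [hs]
      exact sub_lt_self _ Nat.one_div_pos_of_nat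
    obtain ⟨x, hx, hlt⟩ := exists_lt_of_lt_csSup hne hi
    rw [hS] at hx
    obtain ⟨v, hv, w, hw, hvw, rfl⟩ := hx
    exact ⟨v, hv, w, hw, hvw, hlt⟩
  -- the radius
  obtain ⟨ρ, hρ⟩ : ∃ ρ : ℝ, ρ = √(1 - 1 / T) := ⟨_, rfl⟩
  have hT0 : 0 < T := by linarith
  have hTi : 1 / T < 1 := by rwa [div_lt_one hT0]
  have hTi0 : 0 < 1 / T := by positivity
  have hρ2 : ρ ^ 2 = 1 - 1 / T := by rw [hρ]; exact Real.sq_sqrt (by linarith)
  have hρ0 : 0 ≤ ρ := by rw [hρ]; exact Real.sqrt_nonneg _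
  have hρ1 : ρ < 1 := by nlinarith
  have hball : ∀ ζ : E m, ‖ζ‖ < 1 → (ccb 0 ζ ≤ T ↔ ‖ζ‖ ≤ ρ) := by
    intro ζ hζ
    have h1 := one_sub_pos hζ
    rw [ccb_zero_left, div_le_iff₀ h1]
    have e1 : T * (1 / T) = 1 := by field_simp
    constructor
    · intro h2
      by_contra h3
      push Not at h3
      have h4 : ρ ^ 2 < ‖ζ‖ ^ 2 := by nlinarith [norm_nonneg ζ]
      rw [hρ2] at h4
      nlinarith
    · intro h2
      have h4 : ‖ζ‖ ^ 2 ≤ ρ ^ 2 := by nlinarith [norm_nonneg ζ]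
      rw [hρ2] at h4
      nlinarith
  have hX : ∀ (g : SUGroup m) (z ζ : E m), cc (act g (bl z)) (act g (bl ζ)) = ccb z ζ := by
    intro g z ζ
    rw [cc_act, cc_bl]
  have hseq' : ∀ i : ℕ, ∃ (g : SUGroup m) (ζ : E m), ‖ζ‖ ≤ ρ ∧ s - 1 / ((i : ℝ) + 1) <
      c * (ccb 0 ζ - 1) ^ 2 - (cc (f (act g (bl 0))) (f (act g (bl ζ))) - 1) := by
    intro i
    obtain ⟨v, hv, w, hw, hvw, hlt⟩ := hseq i
    obtain ⟨g, ζ, c₁, d₁, hc₁, hd₁, hζ1, rfl, rfl⟩ := exists_pair hv hw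
    have hm0 : act g (bl 0) ∈ Cone m := act_mem g (bl_mem.2 nzl)
    have hmζ : act g (bl ζ) ∈ Cone m := act_mem g (bl_mem.2 hζ1)
    rw [cc_smul_left hc₁, cc_smul_right hd₁, hX] at hvw
    rw [hf.hom _ hc₁ _ hm0, hf.hom _ hd₁ _ hmζ, cc_smul_left hc₁, cc_smul_right hd₁,
      cc_smul_left hc₁, cc_smul_right hd₁, hX] at hlt
    exact ⟨g, ζ, (hball ζ hζ1).1 hvw, hlt⟩
  choose g ζ hζρ hζs using hseq'
  obtain ⟨u, hu⟩ : ∃ u : Ultrafilter ℕ, u = hyperfilter ℕ := ⟨_, rfl⟩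
  have hule : (u : Filter ℕ) ≤ atTop := by
    rw [hu, ← Nat.cofinite_eq_atTop]
    exact hyperfilter_le_cofinite
  obtain ⟨φ, g', ψ, hd, hmp, h0, h, hψ, -, hψ2⟩ := exists_lm hf u g
  obtain ⟨p, hp, hζp⟩ := exists_tendsto_of_mem u (isCompact_closedBall (0 : E m) ρ)
    (x := ζ) fun i => mem_closedBall_zero_iff.2 (hζρ i)
  have hpρ : ‖p‖ ≤ ρ := mem_closedBall_zero_iff.1 hp
  have hp1 := hpρ.trans_lt hρ1
  have hGp : s ≤ c * (ccb 0 p - 1) ^ 2 - (ccb (ψ 0) (ψ p) - 1) := by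
    have t1 := tendsto_ccb (tendsto_const_nhds (x := (0 : E m))) hζp nzl hp1
    have t2 := tendsto_ccb (hψ2 (fun _ => 0) 0 nzl tendsto_const_nhds) (hψ2 ζ p hp1 hζp)
      (hψ.norm_lt nzl) (hψ.norm_lt hp1)
    have t3 : Tendsto (fun i : ℕ => s - 1 / ((i : ℝ) + 1)) u (𝓝 (s - 0)) :=
      tendsto_const_nhds.sub (tendsto_one_div_add_atTop_nhds_zero_nat.mono_left hule)
    rw [sub_zero] at t3
    refine le_of_tendsto_of_tendsto t3
      (((t1.sub tendsto_const_nhds).pow 2).const_mul c |>.sub (t2.sub tendsto_const_nhds)) ?_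
    refine Eventually.of_forall fun i => ?_
    have h1 := (hζs i).le
    rwa [cc_ball (h i) nzl ((hζρ i).trans_lt hρ1)] at h1
  have hall : ∀ z ζ : E m, ‖z‖ < 1 → ‖ζ‖ < 1 → ccb z ζ ≤ T →
      c * (ccb z ζ - 1) ^ 2 - (ccb (ψ z) (ψ ζ) - 1) ≤ s := by
    intro z ζ hz hζ
    refine hψ.tr (fun x => {y | x ≤ T → c * (x - 1) ^ 2 - (y - 1) ≤ s}) (fun x => ?_)
      hle z ζ hz hζ
    by_cases hx : x ≤ T
    · simp only [hx, true_imp_iff]
      exact isClosed_le (by fun_prop) continuous_const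
    · simp only [hx, false_imp_iff, Set.ofPred_true]
      exact isClosed_univ
  have hTψ : ∀ z ζ : E m, ‖z‖ < 1 → ‖ζ‖ < 1 → ccb z ζ = T → δ ≤ ccb (ψ z) (ψ ζ) - 1 := by
    intro z ζ hz hζ
    refine hψ.tr (fun x => {y | x = T → δ ≤ y - 1}) (fun x => ?_) hsep z ζ hz hζ
    by_cases hx : x = T
    · simp only [hx, true_imp_iff]
      exact isClosed_le continuous_const (by fun_prop)
    · simp only [hx, false_imp_iff, Set.ofPred_true]
      exact isClosed_univ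
  have hpT : ccb 0 p < T := by
    refine lt_of_le_of_ne ((hball p hp1).2 hpρ) fun h1 => ?_
    have h2 := hTψ 0 p nzl hp1 h1
    rw [h1, hc1] at hGp
    linarith
  have hp0 : p ≠ 0 := by
    rintro rfl
    rw [hψ.zero, ccb_zero_left, norm_zero, ccb_zero_left, norm_zero] at hGp
    norm_num at hGp
    linarith
  have hGs : c * (ccb 0 p - 1) ^ 2 - (ccb (ψ 0) (ψ p) - 1) = s :=
    le_antisymm (hall 0 p nzl hp1 hpT.le) hGp
  obtain ⟨a, b, hab⟩ := no_max hmn hψ.diff hψ.maps hψ.zero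
    (nb_le_of_ccb hψ.diff hψ.maps (hψ.le hf)) hp1 hp0 hc0 (by linarith)
  apply hab
  have hl1 : Tendsto (fun s : ℂ => s • a) (𝓝 0) (𝓝 0) := by
    have : Continuous fun s : ℂ => s • a := by fun_prop
    simpa using this.tendsto 0
  have hl2 : Tendsto (fun s : ℂ => p + s • b) (𝓝 0) (𝓝 p) := by
    have : Continuous fun s : ℂ => p + s • b := by fun_prop
    simpa using this.tendsto 0
  have hcc := tendsto_ccb hl1 hl2 nzl hp1
  have hl1' := hl1.norm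
  rw [norm_zero] at hl1'
  filter_upwards [hl1'.eventually (gt_mem_nhds one_pos), hl2.norm.eventually (gt_mem_nhds hp1),
    hcc.eventually (gt_mem_nhds hpT)] with s a1 a2 a3
  rw [hGs]
  exact hall _ _ a1 a2 a3.le

/-- **Separating holomorphic maps of balls are isometric.** -/
theorem rigid_sep (hm : 2 ≤ m) (hn : n ≤ m + 1) {f : Vec m → Vec n} (hf : HMap f) {T δ : ℝ}
    (hT : 1 < T) (hδ : 0 < δ)
    (hsep : ∀ v ∈ Cone m, ∀ w ∈ Cone m, cc v w = T → δ ≤ cc (f v) (f w) - 1) :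
    ∀ v ∈ Cone m, ∀ w ∈ Cone m, cc (f v) (f w) = cc v w := by
  have hmn : n < 2 * m := by omega
  -- the stretching factor is at least one
  have key : ∀ (g : SUGroup m) (ξ : E m), ‖ξ‖ = 1 → 1 ≤ R f (g, ξ) := by
    have hhom : ∀ (g : SUGroup m) (s : ℝ) (ξ : E m),
        R f (g, (s : ℂ) • ξ) = s ^ 2 * R f (g, ξ) := by
      intro g s ξ
      obtain ⟨φ, g', hd, hmap, h0, h⟩ := exists_ball hf g
      rw [R_eq hf hd h0 h, R_eq hf hd h0 h, map_smul, norm_smul, mul_pow, Complex.norm_real,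
        Real.norm_eq_abs, sq_abs]
    have hnn : ∀ (g : SUGroup m) (ξ : E m), 0 ≤ R f (g, ξ) := by
      intro g ξ
      obtain ⟨φ, g', hd, hmap, h0, h⟩ := exists_ball hf g
      rw [R_eq hf hd h0 h]
      positivity
    obtain ⟨S, hS⟩ : ∃ S : Set ℝ, S = {x | ∃ (g : SUGroup m) (ξ : E m), ‖ξ‖ = 1 ∧
      x = R f (g, ξ)} := ⟨_, rfl⟩
    have hb : BddBelow S := by
      refine ⟨0, ?_⟩
      rw [hS]
      rintro x ⟨g, ξ, -, rfl⟩
      exact hnn g ξ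
    obtain ⟨μ, hμ⟩ : ∃ μ : ℝ, μ = sInf S := ⟨_, rfl⟩
    have hunit : ∀ (g : SUGroup m) (ξ : E m), ‖ξ‖ = 1 → μ ≤ R f (g, ξ) := by
      intro g ξ hξ
      rw [hμ]
      exact csInf_le hb (by rw [hS]; exact ⟨g, ξ, hξ, rfl⟩)
    suffices h1 : 1 ≤ μ from fun g ξ hξ => h1.trans (hunit g ξ hξ)
    have hne : S.Nonempty := by
      rw [hS]
      have : Nontrivial (E m) := by
        have : Nonempty (Fin m) := ⟨⟨0, by omega⟩⟩
        infer_instance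
      obtain ⟨e, he⟩ := exists_norm_eq (E m) (zero_le_one' ℝ)
      exact ⟨_, 1, e, he, rfl⟩
    have hall : ∀ (g : SUGroup m) (ξ : E m), μ * ‖ξ‖ ^ 2 ≤ R f (g, ξ) := by
      intro g ξ
      by_cases h0 : ξ = 0
      · have h1 := hhom g 0 0
        rw [smul_zero] at h1
        rw [h0, norm_zero, h1]
        simp
      · have hn0 : ‖ξ‖ ≠ 0 := norm_ne_zero_iff.2 h0
        have h1 : ξ = ((‖ξ‖ : ℝ) : ℂ) • (((‖ξ‖⁻¹ : ℝ) : ℂ) • ξ) := by
          rw [smul_smul, ← Complex.ofReal_mul, mul_inv_cancel₀ hn0, Complex.ofReal_one, one_smul]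
        have h2 : ‖(((‖ξ‖⁻¹ : ℝ) : ℂ) • ξ)‖ = 1 := by
          rw [norm_smul, Complex.norm_real, norm_inv, norm_norm, inv_mul_cancel₀ hn0]
        have h3 := hunit g _ h2
        have h4 : R f (g, ξ) = ‖ξ‖ ^ 2 * R f (g, (((‖ξ‖⁻¹ : ℝ) : ℂ) • ξ)) := by
          rw [← hhom, ← h1]
        rw [h4, mul_comm]
        exact mul_le_mul_of_nonneg_left h3 (by positivity)
    have hseq : ∀ i : ℕ, ∃ (g : SUGroup m) (ξ : E m), ‖ξ‖ = 1 ∧
        R f (g, ξ) < μ + 1 / ((i : ℝ) + 1) := by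
      intro i
      have hi : sInf S < μ + 1 / ((i : ℝ) + 1) := by
        rw [hμ]
        exact lt_add_of_pos_right _ Nat.one_div_pos_of_nat
      obtain ⟨x, hx, hlt⟩ := exists_lt_of_csInf_lt hne hi
      rw [hS] at hx
      obtain ⟨g, ξ, hξ, rfl⟩ := hx
      exact ⟨g, ξ, hξ, hlt⟩
    choose g ξ hξ hξμ using hseq
    obtain ⟨u, hu⟩ : ∃ u : Ultrafilter ℕ, u = hyperfilter ℕ := ⟨_, rfl⟩
    have hule : (u : Filter ℕ) ≤ atTop := by
      rw [hu, ← Nat.cofinite_eq_atTop]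
      exact hyperfilter_le_cofinite
    obtain ⟨φ, g', ψ, hd, hmp, h0, h, hψ, hψ1, hψ2⟩ := exists_lm hf u g
    obtain ⟨e, he, hξe⟩ := exists_tendsto_of_mem u (isCompact_sphere (0 : E m) 1)
      (x := ξ) fun i => mem_sphere_zero_iff_norm.2 (hξ i)
    have he' : ‖e‖ = 1 := mem_sphere_zero_iff_norm.1 he
    have hene : e ≠ 0 := by
      rintro rfl
      rw [norm_zero] at he'
      exact zero_ne_one he'
    have heq : ‖fderiv ℂ ψ 0 e‖ ^ 2 = μ := by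
      have t1 : Tendsto (fun i => R f (g i, ξ i)) u (𝓝 (‖fderiv ℂ ψ 0 e‖ ^ 2)) := by
        have t2 := (tendsto_clm (hψ1 0 nzl) hξe).norm.pow 2
        exact t2.congr fun i => (R_eq hf (hd i) (h0 i) (h i) (ξ i)).symm
      have t3 : Tendsto (fun i : ℕ => μ + 1 / ((i : ℝ) + 1)) u (𝓝 (μ + 0)) :=
        tendsto_const_nhds.add (tendsto_one_div_add_atTop_nhds_zero_nat.mono_left hule)
      rw [add_zero] at t3
      refine le_antisymm (le_of_tendsto_of_tendsto t1 t3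
        (Eventually.of_forall fun i => (hξμ i).le)) ?_
      exact ge_of_tendsto t1 (Eventually.of_forall fun i => hunit _ _ (hξ i))
    have hlow : ∀ z : E m, ‖z‖ < 1 → ∀ η : E m, μ * nb z η ≤ nb (ψ z) (fderiv ℂ ψ z η) := by
      intro z hz η
      have t1 := tendsto_nb (hψ2 (fun _ => z) z hz tendsto_const_nhds)
        (tendsto_clm (hψ1 z hz) (tendsto_const_nhds (x := η))) (hψ.norm_lt hz)
      refine ge_of_tendsto t1 (Eventually.of_forall fun i => ?_)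
      obtain ⟨g₂, ξ₂, e1, e2⟩ := frame hf (hd i) (hmp i) (h i) hz η
      rw [e1, e2]
      exact hall g₂ ξ₂
    obtain ⟨c, hc, hc'⟩ := sep_sq hmn hf hT hδ hsep
    have hpair : ∀ z ζ : E m, ‖z‖ < 1 → ‖ζ‖ < 1 → ccb z ζ ≤ T →
        c * (ccb z ζ - 1) ^ 2 ≤ ccb (ψ z) (ψ ζ) - 1 := by
      intro z ζ hz hζ
      refine hψ.tr (fun x => {y | x ≤ T → c * (x - 1) ^ 2 ≤ y - 1}) (fun x => ?_)
        hc' z ζ hz hζ
      by_cases hx : x ≤ T
      · simp only [hx, true_imp_iff]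
        exact isClosed_le continuous_const (by fun_prop)
      · simp only [hx, false_imp_iff, Set.ofPred_true]
        exact isClosed_univ
    have hpos : 0 < μ := by
      rw [← heq]
      have := norm_pos_iff.2 (imm hψ.diff hψ.maps hc hT hpair nzl hene)
      positivity
    exact ball_rigid hm hn hψ.diff hψ.maps hψ.zero hpos hlow
      (nb_le_of_ccb hψ.diff hψ.maps (hψ.le hf)) he' heq
  -- the map is linear and isometric in every frame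
  intro v hv w hw
  obtain ⟨g, ζ, c, d, hc, hd', hζ, rfl, rfl⟩ := exists_pair hv hw
  obtain ⟨φ, g', hd, hmap, h0, h⟩ := exists_ball hf g
  have hm0 : act g (bl 0) ∈ Cone m := act_mem _ (bl_mem.2 nzl)
  have hmζ : act g (bl ζ) ∈ Cone m := act_mem _ (bl_mem.2 hζ)
  rw [hf.hom _ hc _ hm0, hf.hom _ hd' _ hmζ, cc_smul_left hc, cc_smul_right hd', cc_smul_left hc,
    cc_smul_right hd', cc_ball h nzl hζ, cc_act, cc_bl, h0, ccb_zero_left, ccb_zero_left]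
  have hnorm : ‖φ ζ‖ = ‖ζ‖ := by
    by_cases hz0 : ζ = 0
    · rw [hz0, h0, norm_zero, norm_zero]
    · have hn0 : ‖ζ‖ ≠ 0 := norm_ne_zero_iff.2 hz0
      have h1 : ζ = ((‖ζ‖ : ℝ) : ℂ) • (((‖ζ‖⁻¹ : ℝ) : ℂ) • ζ) := by
        rw [smul_smul, ← Complex.ofReal_mul, mul_inv_cancel₀ hn0, Complex.ofReal_one, one_smul]
      have h2 : ‖(((‖ζ‖⁻¹ : ℝ) : ℂ) • ζ)‖ = 1 := by
        rw [norm_smul, Complex.norm_real, norm_inv, norm_norm, inv_mul_cancel₀ hn0]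
      have h3 := key g _ h2
      rw [R_eq hf hd h0 h] at h3
      have h4 : ‖fderiv ℂ φ 0 (((‖ζ‖⁻¹ : ℝ) : ℂ) • ζ)‖ = 1 := by
        refine le_antisymm ((schwarz hd hmap h0 _).trans_eq h2) ?_
        by_contra hcon
        rw [not_le] at hcon
        have := norm_nonneg (fderiv ℂ φ 0 (((‖ζ‖⁻¹ : ℝ) : ℂ) • ζ))
        nlinarith
      have h5 := schwarz_eq hd hmap h0 h2 h4 (t := ((‖ζ‖ : ℝ) : ℂ)) (by
        rw [Complex.norm_real, norm_norm]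
        exact hζ)
      rw [← h1] at h5
      rw [h5, norm_smul, h4, mul_one, Complex.norm_real, norm_norm]
  rw [hnorm]

end Pool.Agent.Lib.MP_5d4057_al.RG
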