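import Mathlib.Analysis.CStarAlgebra.Matrix
import Mathlib.LinearAlgebra.Eigenspace.Triangularizable
import Mathlib.Analysis.SpecificLimits.Normed
import Mathlib.Analysis.Complex.Polynomial.Basic

/-!
# RG: linear growth of the powers of a matrix
-/

set_option autoImplicit false

namespace Pool.Agent.Lib.MP_5d4057_al.RG

open Matrix Filter Topology

open scoped Matrix.Norms.L2Operator

section lin

variable {k : ℕ}

private theorem sa_entry (A : Matrix (Fin k) (Fin k) ℂ) (i j : Fin k) : ‖A i j‖ ≤ ‖A‖ := by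
  have h := A.l2_opNorm_mulVec (WithLp.toLp 2 (Pi.single j (1 : ℂ)))
  rw [EuclideanSpace.norm_eq (WithLp.toLp 2 (Pi.single j (1 : ℂ)))] at h
  have h1 : Real.sqrt (∑ i, ‖(WithLp.toLp 2 (Pi.single j (1 : ℂ)) : EuclideanSpace ℂ (Fin k)) i‖ ^ 2)
      = 1 := by
    rw [Finset.sum_eq_single j]
    · simp
    · intro b _ hb
      simp [Pi.single_eq_of_ne hb]
    · intro h
      exact absurd (Finset.mem_univ _) h
  rw [h1, mul_one] at h
  refine le_trans ?_ h
  have h2 := PiLp.norm_apply_le ((EuclideanSpace.equiv (Fin k) ℂ).symm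
    (A *ᵥ (Pi.single j (1 : ℂ)))) i
  refine le_trans (le_of_eq ?_) h2
  simp

/-- the coordinates of `A u` -/
private theorem sa_coord (A : Matrix (Fin k) (Fin k) ℂ) (u : Fin k → ℂ) (i : Fin k) :
    ‖(A *ᵥ u) i‖ ≤ (∑ j, ‖u j‖) * ‖A‖ := by
  rw [mulVec, dotProduct, Finset.sum_mul]
  refine (norm_sum_le _ _).trans (Finset.sum_le_sum fun j _ => ?_)
  rw [norm_mul, mul_comm]
  exact mul_le_mul_of_nonneg_left (sa_entry A i j) (norm_nonneg _)

private theorem sa_pow_eig {Z : Matrix (Fin k) (Fin k) ℂ} {l : ℂ} {v : Fin k → ℂ}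
    (h : Z *ᵥ v = l • v) (j : ℕ) : Z ^ j *ᵥ v = l ^ j • v := by
  induction j with
  | zero => simp
  | succ j ih => rw [pow_succ', ← mulVec_mulVec, ih, mulVec_smul, h, smul_smul, pow_succ]

private theorem sa_pow_jor {Z : Matrix (Fin k) (Fin k) ℂ} {l : ℂ} {u v : Fin k → ℂ}
    (hu : Z *ᵥ u = l • u + v) (h : Z *ᵥ v = l • v) (j : ℕ) :
    Z ^ (j + 1) *ᵥ u = l ^ (j + 1) • u + ((j + 1 : ℕ) * l ^ j : ℂ) • v := by
  induction j with
  | zero => simp [hu]
  | succ j ih =>
    rw [pow_succ', ← mulVec_mulVec, ih, mulVec_add, mulVec_smul, mulVec_smul, hu, h]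
    push_cast
    module

/-- exponential versus linear growth -/
private theorem sa_le_one {a C : ℝ} (h : ∀ j : ℕ, a ^ j ≤ C * (j + 1)) : a ≤ 1 := by
  by_contra hcon
  push Not at hcon
  have h1 : Tendsto (fun j : ℕ => ((j : ℝ) ^ 1) / a ^ j) atTop (𝓝 0) :=
    tendsto_pow_const_div_const_pow_of_one_lt 1 hcon
  have h2 : Tendsto (fun j : ℕ => ((j : ℝ) ^ 0) / a ^ j) atTop (𝓝 0) :=
    tendsto_pow_const_div_const_pow_of_one_lt 0 hcon
  have h3 := (h1.add h2).const_mul C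
  rw [add_zero, mul_zero] at h3
  have h4 : ∀ j : ℕ, 1 ≤ C * ((j : ℝ) ^ 1 / a ^ j + (j : ℝ) ^ 0 / a ^ j) := by
    intro j
    have h5 : 0 < a ^ j := pow_pos (by linarith) j
    have h6 := h j
    rw [← add_div, pow_one, pow_zero, ← mul_div_assoc, le_div_iff₀ h5, one_mul]
    exact h6
  have h5 := ge_of_tendsto' h3 h4
  linarith

private theorem sa_mod {Z : Matrix (Fin k) (Fin k) ℂ} {C : ℝ}
    (hb : ∀ j : ℕ, ‖Z ^ j‖ ≤ C * (j + 1)) {l : ℂ} {v : Fin k → ℂ} (hv : v ≠ 0)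
    (h : Z *ᵥ v = l • v) : ‖l‖ ≤ 1 := by
  obtain ⟨i, hi⟩ : ∃ i, v i ≠ 0 := by
    by_contra hcon
    push Not at hcon
    exact hv (funext hcon)
  have hi0 : 0 < ‖v i‖ := norm_pos_iff.2 hi
  refine sa_le_one (C := (∑ j, ‖v j‖) * C / ‖v i‖) fun j => ?_
  have h1 := sa_coord (Z ^ j) v i
  rw [sa_pow_eig h, Pi.smul_apply, smul_eq_mul, norm_mul, norm_pow] at h1
  have h2 : 0 ≤ ∑ j, ‖v j‖ := Finset.sum_nonneg fun _ _ => norm_nonneg _
  have h3 := mul_le_mul_of_nonneg_left (hb j) h2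
  rw [div_mul_eq_mul_div, le_div_iff₀ hi0]
  linarith

/-- If the powers of `Z` and of its inverse grow at most linearly and the powers of `Z` are not bounded, then they
grow exactly linearly. -/
theorem lin_growth {Z W : Matrix (Fin k) (Fin k) ℂ} (hWZ : W * Z = 1) {C C' : ℝ}
    (hb : ∀ j : ℕ, ‖Z ^ j‖ ≤ C * (j + 1)) (hb' : ∀ j : ℕ, ‖W ^ j‖ ≤ C' * (j + 1))
    (hub : ¬ ∃ B : ℝ, ∀ j : ℕ, ‖Z ^ j‖ ≤ B) : ∃ c : ℝ, 0 < c ∧ ∀ j : ℕ, c * j ≤ ‖Z ^ j‖ := by
  by_cases hss : ∀ (l : ℂ) (u v : Fin k → ℂ), Z *ᵥ u = l • u + v → Z *ᵥ v = l • v → v = 0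
  · exfalso
    apply hub
    -- vectors with bounded orbits
    obtain ⟨S, hS⟩ : ∃ S : Submodule ℂ (Fin k → ℂ), ∀ v, v ∈ S ↔
        ∃ B : ℝ, ∀ (j : ℕ) (i : Fin k), ‖(Z ^ j *ᵥ v) i‖ ≤ B := by
      refine ⟨{ carrier := {v | ∃ B : ℝ, ∀ (j : ℕ) (i : Fin k), ‖(Z ^ j *ᵥ v) i‖ ≤ B}
                add_mem' := ?_, zero_mem' := ?_, smul_mem' := ?_ }, fun v => Iff.rfl⟩
      · rintro v w ⟨B, hB⟩ ⟨B', hB'⟩
        refine ⟨B + B', fun j i => ?_⟩
        rw [mulVec_add, Pi.add_apply]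
        exact (norm_add_le _ _).trans (add_le_add (hB j i) (hB' j i))
      · exact ⟨0, fun j i => by rw [mulVec_zero, Pi.zero_apply, norm_zero]⟩
      · rintro c v ⟨B, hB⟩
        refine ⟨‖c‖ * B, fun j i => ?_⟩
        rw [mulVec_smul, Pi.smul_apply, smul_eq_mul, norm_mul]
        exact mul_le_mul_of_nonneg_left (hB j i) (norm_nonneg _)
    have hST : S = ⊤ := by
      rw [eq_top_iff, ← Module.End.iSup_maxGenEigenspace_eq_top (Matrix.toLin' Z)]
      refine iSup_le fun l => ?_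
      intro u hu
      rw [Module.End.mem_maxGenEigenspace] at hu
      obtain ⟨N, hN⟩ := hu
      -- eigenvector
      have key : ∀ (N : ℕ) (u : Fin k → ℂ), ((Matrix.toLin' Z - l • (1 : Module.End ℂ (Fin k → ℂ))) ^ N) u = 0 →
          Z *ᵥ u = l • u := by
        intro N
        induction N with
        | zero =>
          intro u hu
          have : u = 0 := by simpa using hu
          rw [this, mulVec_zero, smul_zero]
        | succ N ih =>
          intro u hu
          rw [pow_succ, Module.End.mul_apply] at hu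
          have h1 := ih _ hu
          have h2 : (Matrix.toLin' Z - l • (1 : Module.End ℂ (Fin k → ℂ))) u = Z *ᵥ u - l • u := by
            simp [Matrix.toLin'_apply]
          rw [h2] at h1
          have h3 := hss l u (Z *ᵥ u - l • u) (by abel) h1
          exact sub_eq_zero.1 h3
      have h1 := key N u hN
      rw [hS]
      by_cases hu0 : u = 0
      · exact ⟨0, fun j i => by rw [hu0, mulVec_zero, Pi.zero_apply, norm_zero]⟩
      · have h2 := sa_mod hb hu0 h1
        refine ⟨∑ j, ‖u j‖, fun j i => ?_⟩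
        rw [sa_pow_eig h1, Pi.smul_apply, smul_eq_mul, norm_mul, norm_pow]
        calc ‖l‖ ^ j * ‖u i‖ ≤ 1 * ‖u i‖ :=
              mul_le_mul_of_nonneg_right (pow_le_one₀ (norm_nonneg _) h2) (norm_nonneg _)
          _ = ‖u i‖ := one_mul _
          _ ≤ _ := Finset.single_le_sum (f := fun j => ‖u j‖) (fun _ _ => norm_nonneg _)
              (Finset.mem_univ i)
    have hcol : ∀ b : Fin k, ∃ B : ℝ, ∀ (j : ℕ) (i : Fin k), ‖(Z ^ j) i b‖ ≤ B := by
      intro b
      have h1 : (Pi.single b (1 : ℂ) : Fin k → ℂ) ∈ S := by rw [hST]; trivial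
      obtain ⟨B, hB⟩ := (hS _).1 h1
      refine ⟨B, fun j i => ?_⟩
      have h2 := hB j i
      rw [mulVec_single_one] at h2
      exact h2
    choose B hB using hcol
    refine ⟨∑ a : Fin k, ∑ b : Fin k, |B b|, fun j => ?_⟩
    have h1 : Z ^ j = ∑ a : Fin k, ∑ b : Fin k, Matrix.single a b ((Z ^ j) a b) :=
      Matrix.matrix_eq_sum_single _
    rw [h1]
    refine (norm_sum_le _ _).trans (Finset.sum_le_sum fun a _ => ?_)
    refine (norm_sum_le _ _).trans (Finset.sum_le_sum fun b _ => ?_)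
    have h2 : ‖Matrix.single a b ((Z ^ j) a b)‖ ≤ ‖(Z ^ j) a b‖ := by
      rw [Matrix.l2_opNorm_def]
      refine ContinuousLinearMap.opNorm_le_bound _ (norm_nonneg _) fun x => ?_
      rw [EuclideanSpace.norm_eq, Finset.sum_eq_single a]
      · have e : ((Matrix.toEuclideanLin.trans LinearMap.toContinuousLinearMap)
            (Matrix.single a b ((Z ^ j) a b)) x) a = (Z ^ j) a b * x b := by
          simp [Matrix.toLpLin_apply, Matrix.mulVec, dotProduct, Matrix.single_apply]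
        rw [e, Real.sqrt_sq (norm_nonneg _), norm_mul]
        exact mul_le_mul_of_nonneg_left (PiLp.norm_apply_le x b) (norm_nonneg _)
      · intro c _ hc
        have e : ((Matrix.toEuclideanLin.trans LinearMap.toContinuousLinearMap)
            (Matrix.single a b ((Z ^ j) a b)) x) c = 0 := by
          simp [Matrix.toLpLin_apply, Matrix.mulVec, dotProduct,
            Ne.symm hc]
        rw [e, norm_zero, zero_pow two_ne_zero]
      · intro h
        exact absurd (Finset.mem_univ _) h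
    exact h2.trans ((hB b j a).trans (le_abs_self _))
  · push Not at hss
    obtain ⟨l, u, v, hu, hv, hv0⟩ := hss
    obtain ⟨i, hi⟩ : ∃ i, v i ≠ 0 := by
      by_contra hcon
      push Not at hcon
      exact hv0 (funext hcon)
    have hi0 : 0 < ‖v i‖ := norm_pos_iff.2 hi
    have hl1 := sa_mod hb hv0 hv
    have hl0 : l ≠ 0 := by
      rintro rfl
      rw [zero_smul] at hv
      have h1 := congrArg (fun x => W *ᵥ x) hv
      simp only [mulVec_mulVec, hWZ, one_mulVec, mulVec_zero] at h1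
      exact hv0 h1
    have hl2 : ‖l⁻¹‖ ≤ 1 := by
      refine sa_mod hb' hv0 ?_
      have h1 := congrArg (fun x => W *ᵥ x) hv
      simp only [mulVec_mulVec, hWZ, one_mulVec, mulVec_smul] at h1
      rw [eq_inv_smul_iff₀ hl0]
      exact h1.symm
    have hl : ‖l‖ = 1 := by
      refine le_antisymm hl1 ?_
      rw [norm_inv] at hl2
      have h0 : 0 < ‖l‖ := norm_pos_iff.2 hl0
      exact (inv_le_one₀ h0).1 hl2
    obtain ⟨S, hS⟩ : ∃ S : ℝ, S = ∑ j, ‖u j‖ := ⟨_, rfl⟩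
    obtain ⟨S', hS'⟩ : ∃ S : ℝ, S = ∑ j, ‖v j‖ := ⟨_, rfl⟩
    have hS0 : 0 ≤ S := by rw [hS]; exact Finset.sum_nonneg fun _ _ => norm_nonneg _
    have hS0' : 0 < S' := by
      rw [hS']
      exact hi0.trans_le (Finset.single_le_sum (f := fun j => ‖v j‖) (fun _ _ => norm_nonneg _)
        (Finset.mem_univ i))
    -- the norm of the powers is bounded below
    have hlow : ∀ j : ℕ, ‖v i‖ ≤ S' * ‖Z ^ j‖ := by
      intro j
      have h1 := sa_coord (Z ^ j) v i
      rw [sa_pow_eig hv, Pi.smul_apply, smul_eq_mul, norm_mul, norm_pow, hl, one_pow, one_mul,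
        ← hS'] at h1
      exact h1
    have hD : 0 < S + ‖u i‖ * S' / ‖v i‖ + 1 := by positivity
    refine ⟨‖v i‖ / (S + ‖u i‖ * S' / ‖v i‖ + 1), by positivity, fun j => ?_⟩
    rw [div_mul_eq_mul_div, div_le_iff₀ hD]
    rcases j with _ | j
    · simp only [Nat.cast_zero, mul_zero]
      exact mul_nonneg (norm_nonneg _) hD.le
    · have h1 := sa_coord (Z ^ (j + 1)) u i
      rw [sa_pow_jor hu hv, ← hS, Pi.add_apply, Pi.smul_apply, Pi.smul_apply, smul_eq_mul,
        smul_eq_mul] at h1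
      have h2 : ‖((j + 1 : ℕ) * l ^ j : ℂ) * v i‖ = (j + 1 : ℕ) * ‖v i‖ := by
        rw [norm_mul, norm_mul, norm_pow, hl, one_pow, mul_one, Complex.norm_natCast]
      have h3 : ‖l ^ (j + 1) * u i‖ = ‖u i‖ := by
        rw [norm_mul, norm_pow, hl, one_pow, one_mul]
      have h4 := norm_sub_norm_le (((j + 1 : ℕ) * l ^ j : ℂ) * v i) (-(l ^ (j + 1) * u i))
      rw [norm_neg, h2, h3, sub_neg_eq_add, add_comm (((j + 1 : ℕ) * l ^ j : ℂ) * v i)] at h4
      have h5 := hlow (j + 1)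
      have h6 : ‖u i‖ ≤ ‖u i‖ * S' / ‖v i‖ * ‖Z ^ (j + 1)‖ := by
        rw [div_mul_eq_mul_div, le_div_iff₀ hi0, mul_assoc]
        exact mul_le_mul_of_nonneg_left h5 (norm_nonneg _)
      have h7 := norm_nonneg (Z ^ (j + 1))
      nlinarith

end lin

end Pool.Agent.Lib.MP_5d4057_al.RG
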