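import Pool.Agent.Lib.MP_5d4057_al.RG.SepA
import Pool.Agent.Lib.MP_5d4057_al.RG.CpT
import Pool.Agent.Lib.MP_5d4057_al.RG.Tri

/-!
# RG: uniform separation, points in the same cusp
-/

set_option autoImplicit false

namespace Pool.Agent.Lib.MP_5d4057_al.RG

open Matrix Filter Topology Metric Pool.Agent.Lib.MP_5d4057_al Pool.Agent.Lib.MP_5d4057_al.Hyb
  Pool.Agent.Lib.MP_5d4057_al.HM Pool.Agent.Lib.MP_5d4057_al.HM.Kak Pool.Agent.Lib.MP_5d4057_al.NU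

open scoped ComplexOrder MatrixOrder Matrix.Norms.L2Operator

variable {m n : ℕ}

/-! ### distances -/

theorem sc_orbit (g h : SUGroup m) :
    cc (act g (base m)) (act h (base m)) = ch (g⁻¹ * h) ^ 2 := by
  rw [cc, norm_herm_orbit, q_orbit, q_orbit]
  norm_num

theorem sc_comm (v w : Vec n) : cc v w = cc w v := by
  rw [cc, cc, herm_comm v w, norm_star, mul_comm (q v)]

theorem sc_tri {x y z : Vec n} (hx : x ∈ Cone n) (hy : y ∈ Cone n) (hz : z ∈ Cone n) :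
    cc x z ≤ 4 * cc x y * cc y z := by
  obtain ⟨g, c, hc, rfl⟩ := exists_act_eq hx
  obtain ⟨h, d, hd, rfl⟩ := exists_act_eq hy
  obtain ⟨k, e, he, rfl⟩ := exists_act_eq hz
  rw [cc_smul_left hc, cc_smul_right he, cc_smul_left hc, cc_smul_right hd, cc_smul_left hd,
    cc_smul_right he, sc_orbit, sc_orbit, sc_orbit]
  have h1 : g⁻¹ * k = (g⁻¹ * h) * (h⁻¹ * k) := by group
  have h2 := ch_mul_le' (g⁻¹ * h) (h⁻¹ * k)
  rw [← h1] at h2
  have h3 := one_le_ch (g⁻¹ * k)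
  calc ch (g⁻¹ * k) ^ 2 ≤ (2 * ch (g⁻¹ * h) * ch (h⁻¹ * k)) ^ 2 := by gcongr
    _ = _ := by ring

/-- The norm of an element of `U(n,1)` is controlled by its displacement at a point. -/
theorem sc_norm {A : Mat (n + 1)} (hA : Aᴴ * J n * A = J n) {p : Vec n} (hp : p ∈ Cone n) {M : ℝ}
    (hM : 0 ≤ M) (h : cc p (A *ᵥ p) ≤ M ^ 2) : ‖A‖ ≤ 8 * (n + 1) * cc (base n) p * M := by
  have hb := base_mem n
  have h1 : cc (base n) (A *ᵥ base n) = ‖A (Fin.last n) (Fin.last n)‖ ^ 2 := by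
    have h2 : (A *ᵥ base n) (Fin.last n) = A (Fin.last n) (Fin.last n) := by
      rw [base, mulVec_single_one]
      rfl
    have h3 : herm (base n) (A *ᵥ base n) = -(A (Fin.last n) (Fin.last n)) := by
      rw [← h2, herm_eq, base, Pi.single_eq_same, Finset.sum_eq_zero]
      · simp
      · intro i _
        rw [Pi.single_eq_of_ne (Fin.castSucc_lt_last i).ne]
        simp
    rw [cc, h3, norm_neg, uj_q hA, q_base]
    norm_num
  have h2 := sc_tri hb hp (uj_mem hA hb)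
  have h3 := sc_tri hp (uj_mem hA hp) (uj_mem hA hb)
  rw [cc_uj hA, sc_comm p (base n)] at h3
  have h4 := one_le_cc hb hp
  have h5 := one_le_cc hb (uj_mem hA hb)
  have h6 := one_le_cc hp (uj_mem hA hp)
  have h7 : ‖A (Fin.last n) (Fin.last n)‖ ^ 2 ≤ (4 * cc (base n) p * M) ^ 2 := by
    rw [← h1]
    calc cc (base n) (A *ᵥ base n) ≤ 4 * cc (base n) p * cc p (A *ᵥ base n) := h2
      _ ≤ 4 * cc (base n) p * (4 * cc p (A *ᵥ p) * cc (base n) p) := by gcongr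
      _ ≤ 4 * cc (base n) p * (4 * M ^ 2 * cc (base n) p) := by gcongr
      _ = _ := by ring
  have h8 : ‖A (Fin.last n) (Fin.last n)‖ ≤ 4 * cc (base n) p * M :=
    le_of_sq_le_sq h7 (by positivity)
  have h9 : 1 ≤ ‖A (Fin.last n) (Fin.last n)‖ := by
    rw [h1] at h5
    nlinarith [norm_nonneg (A (Fin.last n) (Fin.last n))]
  calc ‖A‖ ≤ (n + 1) * (1 + ‖A (Fin.last n) (Fin.last n)‖) := uj_norm hA
    _ ≤ (n + 1) * (4 * cc (base n) p * M + 4 * cc (base n) p * M) := by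
        gcongr
        linarith
    _ = _ := by ring

/-- displacement -/
theorem sc_disp_mul {A B : Mat (n + 1)} (hA : Aᴴ * J n * A = J n) (hB : Bᴴ * J n * B = J n)
    {p : Vec n} (hp : p ∈ Cone n) : cc p ((A * B) *ᵥ p) ≤ 4 * cc p (A *ᵥ p) * cc p (B *ᵥ p) := by
  have h1 := sc_tri hp (uj_mem hA hp) (uj_mem hA (uj_mem hB hp))
  rw [cc_uj hA] at h1
  rw [← mulVec_mulVec]
  exact h1

/-! ### the source -/

/-- the point at height `s` over the base point -/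
noncomputable def xs (ξ : Fin m → ℂ) (s : ℝ) : Vec m := act (fl ξ s) (base m)

theorem xs_mem (ξ : Fin m → ℂ) (s : ℝ) : xs ξ s ∈ Cone m := orbit_mem _

theorem xs_disp {ξ : Fin m → ℂ} (hξ : nq ξ = 1) {x : SUGroup m} (hx : Un ξ x) (s : ℝ) :
    cc (xs ξ s) (act x (xs ξ s)) ≤ (1 + Real.exp (-(2 * s)) * ‖uv ξ x‖ / 2) ^ 2 := by
  have h1 := hx.ch_flow hξ s
  have h2 : cc (xs ξ s) (act x (xs ξ s)) = ch (fl ξ (-s) * x * fl ξ s) ^ 2 := by
    rw [xs, ← act_mul, sc_orbit, fl_neg, mul_assoc]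
  rw [h2]
  have := one_le_ch (fl ξ (-s) * x * fl ξ s)
  gcongr

theorem xs_xs {ξ : Fin m → ℂ} (hξ : nq ξ = 1) (s t : ℝ) :
    cc (xs ξ s) (xs ξ t) = Real.cosh (t - s) ^ 2 := by
  rw [xs, xs, sc_orbit, ← fl_neg, ← fl_add, ch_fl hξ]
  congr 2
  ring

theorem xs_zero (ξ : Fin m → ℂ) : xs ξ 0 = base m := by
  rw [xs, fl_zero, act_one]

private theorem cosh_le (u : ℝ) : Real.cosh u ≤ Real.exp |u| := by
  rw [Real.cosh_eq]
  have h1 : Real.exp u ≤ Real.exp |u| := Real.exp_le_exp.2 (le_abs_self u)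
  have h2 : Real.exp (-u) ≤ Real.exp |u| := Real.exp_le_exp.2 (neg_le_abs u)
  linarith

section data

variable {Γ : Subgroup (SUGroup m)} {ρ : Γ →* Mat (n + 1)} {f : Vec m → Vec n}

/-- Schwarz. -/
theorem sc_disp (hf : HMap f) (he : Eqv ρ f) (γ : Γ) {v : Vec m} (hv : v ∈ Cone m) :
    cc (f v) (ρ γ *ᵥ f v) ≤ cc v (act (γ : SUGroup m) v) := by
  obtain ⟨c, hc, h1⟩ := he γ v hv
  have h2 := hf.cc_le hv (act_mem (γ : SUGroup m) hv)
  rw [h1, cc_smul_right hc] at h2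
  exact h2

theorem sc_inv (hU : UJ ρ) (γ : Γ) (p : Vec n) : cc p (ρ γ⁻¹ *ᵥ p) = cc p (ρ γ *ᵥ p) := by
  have h1 : ρ γ *ᵥ (ρ γ⁻¹ *ᵥ p) = p := by
    rw [mulVec_mulVec, ← map_mul, mul_inv_cancel, map_one, one_mulVec]
  have h2 := cc_uj (hU γ) p (ρ γ⁻¹ *ᵥ p)
  rw [h1] at h2
  rw [← h2, sc_comm]

theorem sc_mul (hU : UJ ρ) (a b : Γ) {p : Vec n} (hp : p ∈ Cone n) :
    cc p (ρ (a * b) *ᵥ p) ≤ 4 * cc p (ρ a *ᵥ p) * cc p (ρ b *ᵥ p) := by
  rw [map_mul]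
  exact sc_disp_mul (hU a) (hU b) hp

variable {ξ : Fin m → ℂ} {z : SUGroup m} {κ : ℝ}

/-- powers of a transvection -/
theorem tv_zpow (h : IsTv z ξ κ) (j : ℤ) : Un ξ (z ^ j) ∧ ua ξ (z ^ j) = 0 ∧
    uv ξ (z ^ j) = -2 * κ * j * Complex.I := by
  obtain ⟨h1, h2, h3⟩ := tv_un h
  have hξ := h.1
  have hq0 : q (0 : Vec m) = 0 := by
    rw [q, herm, mulVec_zero, dotProduct_zero]
    rfl
  have key : ∀ k : ℕ, Un ξ (z ^ k) ∧ ua ξ (z ^ k) = 0 ∧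
      uv ξ (z ^ k) = -2 * κ * k * Complex.I := by
    intro k
    obtain ⟨h4, h5, h6⟩ := ua_pow hξ h1 k
    refine ⟨h4, ?_, ?_⟩
    · rw [h5, h2, smul_zero]
    · rw [h6, h3, h2, hq0]
      push_cast
      ring
  rcases Int.eq_nat_or_neg j with ⟨k, rfl | rfl⟩
  · rw [zpow_natCast]
    exact_mod_cast key k
  · obtain ⟨h4, h5, h6⟩ := key k
    obtain ⟨h7, h8⟩ := ua_inv hξ h4
    rw [_root_.zpow_neg, zpow_natCast]
    refine ⟨h4.inv hξ, ?_, ?_⟩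
    · rw [h7, h5, neg_zero]
    · rw [h8, h6]
      push_cast
      simp

/-- (ZN) Linear growth of the image of a transvection. -/
theorem zn (hU : UJ ρ) (hP : Prp ρ) (hf : HMap f) (he : Eqv ρ f) (hz : z ∈ Γ)
    (h : IsTv z ξ κ) : ∃ c : ℝ, 0 < c ∧ ∀ j : ℤ, c * |(j : ℝ)| ≤ ‖ρ (⟨z, hz⟩ ^ j)‖ := by
  have hξ := h.1
  obtain ⟨Z, hZ⟩ : ∃ Z : Γ, Z = ⟨z, hz⟩ := ⟨_, rfl⟩
  have hZc : ∀ j : ℤ, ((Z ^ j : Γ) : SUGroup m) = z ^ j := by
    intro j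
    rw [hZ]
    rfl
  have hbm := base_mem m
  have hfb : f (base m) ∈ Cone n := hf.maps _ hbm
  obtain ⟨D, hD⟩ : ∃ D : ℝ, D = 8 * (n + 1) * cc (base n) (f (base m)) := ⟨_, rfl⟩
  have hcc := one_le_cc (base_mem n) hfb
  have hD0 : 0 ≤ D := by rw [hD]; positivity
  -- upper bound
  have hup : ∀ j : ℤ, ‖ρ (Z ^ j)‖ ≤ D * (1 + |κ|) * (|(j : ℝ)| + 1) := by
    intro j
    obtain ⟨h1, h2, h3⟩ := tv_zpow h j
    have h4 := sc_disp hf he (Z ^ j) hbm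
    have h5 := xs_disp hξ h1 0
    rw [xs_zero, h3] at h5
    rw [hZc] at h4
    have h6 : ‖(-2 * κ * j * Complex.I : ℂ)‖ = 2 * |κ| * |(j : ℝ)| := by
      rw [norm_mul, norm_mul, norm_mul, norm_neg, Complex.norm_I, Complex.norm_ofNat,
        Complex.norm_real, Complex.norm_intCast, Real.norm_eq_abs, mul_one]
    rw [h6, mul_zero, neg_zero, Real.exp_zero] at h5
    have h7 : (0 : ℝ) ≤ 1 + 1 * (2 * |κ| * |(j : ℝ)|) / 2 := by positivity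
    have h8 := sc_norm (hU (Z ^ j)) hfb h7 (h4.trans h5)
    rw [← hD] at h8
    refine h8.trans ?_
    have h9 := abs_nonneg κ
    have h10 := abs_nonneg (j : ℝ)
    calc D * (1 + 1 * (2 * |κ| * |(j : ℝ)|) / 2) ≤ D * ((1 + |κ|) * (|(j : ℝ)| + 1)) := by
          refine mul_le_mul_of_nonneg_left ?_ hD0
          nlinarith
      _ = _ := by ring
  obtain ⟨c, hc, h1⟩ := lin_growth (Z := ρ Z) (W := ρ Z⁻¹)
    (by rw [← map_mul, inv_mul_cancel, map_one]) (C := D * (1 + |κ|)) (C' := D * (1 + |κ|))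
    (fun j => by
      have := hup (j : ℤ)
      rw [zpow_natCast, map_pow, Int.cast_natCast, Nat.abs_cast] at this
      exact this)
    (fun j => by
      have := hup (-(j : ℤ))
      rw [_root_.zpow_neg, zpow_natCast, ← inv_pow, map_pow, Int.cast_neg, Int.cast_natCast, abs_neg,
        Nat.abs_cast] at this
      exact this)
    (by
      rintro ⟨B, hB⟩
      have hinj : Function.Injective fun j : ℕ => Z ^ j := by
        intro i j hij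
        have h2 : z ^ (i : ℤ) = z ^ (j : ℤ) := by
          have h3 := congrArg (Subtype.val) hij
          simp only [hZ] at h3
          rw [zpow_natCast, zpow_natCast]
          exact h3
        have h3 := (tv_zpow h (i : ℤ)).2.2
        rw [h2, (tv_zpow h (j : ℤ)).2.2] at h3
        have h4 := congrArg Complex.im h3
        simp at h4
        rcases h4 with h4 | h4
        · exact h4.symm
        · exact absurd h4 h.2.1
      refine Set.infinite_of_injective_forall_mem hinj (fun j => ?_) (hP B)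
      show ‖ρ (Z ^ j)‖ ≤ B
      rw [map_pow]
      exact hB j)
  refine ⟨c, hc, fun j => ?_⟩
  rw [← hZ]
  rcases Int.eq_nat_or_neg j with ⟨k, rfl | rfl⟩
  · have := h1 k
    rw [zpow_natCast, map_pow, Int.cast_natCast, Nat.abs_cast]
    exact this
  · -- the inverse has the same norm
    rw [_root_.zpow_neg, zpow_natCast, Int.cast_neg, Int.cast_natCast, abs_neg, Nat.abs_cast]
    have h2 : ρ (Z ^ k)⁻¹ = J n * (ρ (Z ^ k))ᴴ * J n := by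
      have h3 : ρ (Z ^ k)⁻¹ * ρ (Z ^ k) = 1 := by rw [← map_mul, inv_mul_cancel, map_one]
      have hJ : J n * J n = 1 := by
        rw [J, diagonal_mul_diagonal, ← diagonal_one]
        congr 1
        funext i
        split_ifs <;> norm_num
      have h4 : (J n * (ρ (Z ^ k))ᴴ * J n) * ρ (Z ^ k) = 1 := by
        rw [Matrix.mul_assoc, Matrix.mul_assoc, ← Matrix.mul_assoc (ρ (Z ^ k))ᴴ, hU, hJ]
      have h5 : ρ (Z ^ k) * ρ (Z ^ k)⁻¹ = 1 := by rw [← map_mul, mul_inv_cancel, map_one]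
      calc ρ (Z ^ k)⁻¹ = ((J n * (ρ (Z ^ k))ᴴ * J n) * ρ (Z ^ k)) * ρ (Z ^ k)⁻¹ := by
            rw [h4, Matrix.one_mul]
        _ = _ := by rw [Matrix.mul_assoc _ (ρ (Z ^ k)), h5, Matrix.mul_one]
    have hJn : ‖J n‖ ≤ 1 := by
      have h3 : (J n)ᴴ * J n = 1 := by
        rw [J, diagonal_conjTranspose, diagonal_mul_diagonal, ← diagonal_one]
        congr 1
        funext i
        simp only [Pi.star_apply]
        split_ifs <;> norm_num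
      have h4 : ‖(J n)ᴴ * J n‖ = ‖J n‖ * ‖J n‖ := CStarRing.norm_star_mul_self
      rw [h3] at h4
      have h5 : ‖(1 : Mat (n + 1))‖ = 1 := norm_one
      rw [h5] at h4
      nlinarith [norm_nonneg (J n)]
    have h3 : ρ (Z ^ k) = J n * (ρ (Z ^ k)⁻¹)ᴴ * J n := by
      have hJ : J n * J n = 1 := by
        rw [J, diagonal_mul_diagonal, ← diagonal_one]
        congr 1
        funext i
        split_ifs <;> norm_num
      have hJh : (J n)ᴴ = J n := J_conjTranspose n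
      rw [h2, conjTranspose_mul, conjTranspose_mul, conjTranspose_conjTranspose, hJh]
      calc ρ (Z ^ k) = (J n * J n) * ρ (Z ^ k) * (J n * J n) := by
            rw [hJ, Matrix.one_mul, Matrix.mul_one]
        _ = _ := by simp only [Matrix.mul_assoc]
    have h4 : ‖ρ (Z ^ k)‖ ≤ ‖ρ (Z ^ k)⁻¹‖ := by
      rw [h3]
      calc ‖J n * (ρ (Z ^ k)⁻¹)ᴴ * J n‖ ≤ ‖J n‖ * ‖(ρ (Z ^ k)⁻¹)ᴴ‖ * ‖J n‖ :=
            (norm_mul_le _ _).trans (mul_le_mul_of_nonneg_right (norm_mul_le _ _) (norm_nonneg _))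
        _ ≤ 1 * ‖(ρ (Z ^ k)⁻¹)ᴴ‖ * 1 := by gcongr
        _ = ‖ρ (Z ^ k)⁻¹‖ := by
          rw [one_mul, mul_one]
          exact norm_star _
    have h5 := h1 k
    rw [← map_pow] at h5
    exact h5.trans h4

/-- (ZB) A transvection which moves the image of the point at height `s` by a bounded amount. -/
theorem zb (hU : UJ ρ) (hP : Prp ρ) (hf : HMap f) (he : Eqv ρ f) (hz : z ∈ Γ)
    (h : IsTv z ξ κ) : ∃ C : ℝ, 0 < C ∧ ∀ (s : ℝ), 0 ≤ s → ∀ (j : ℤ) (M : ℝ), 0 ≤ M →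
      cc (f (xs ξ s)) (ρ (⟨z, hz⟩ ^ j) *ᵥ f (xs ξ s)) ≤ M ^ 2 →
        |(j : ℝ)| ≤ C * M * Real.exp (2 * s) := by
  have hξ := h.1
  obtain ⟨c, hc, h1⟩ := zn hU hP hf he hz h
  have hbm := base_mem m
  have hfb : f (base m) ∈ Cone n := hf.maps _ hbm
  have hcc := one_le_cc (base_mem n) hfb
  obtain ⟨W₀, hW₀⟩ : ∃ W₀ : ℝ, W₀ = cc (base n) (f (base m)) := ⟨_, rfl⟩
  have hW1 : 1 ≤ W₀ := hW₀ ▸ hcc
  refine ⟨8 * (n + 1) * (4 * W₀) / c, by positivity, fun s hs j M hM hj => ?_⟩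
  have hxm : f (xs ξ s) ∈ Cone n := hf.maps _ (xs_mem ξ s)
  have h2 := sc_norm (hU _) hxm hM hj
  have h3 := sc_tri (base_mem n) hfb hxm
  have h4 := hf.cc_le hbm (xs_mem ξ s)
  rw [← xs_zero ξ, xs_xs hξ, sub_zero, xs_zero] at h4
  have h5 : Real.cosh s ^ 2 ≤ Real.exp (2 * s) := by
    have h6 := cosh_le s
    rw [abs_of_nonneg hs] at h6
    have h7 : Real.exp (2 * s) = Real.exp s ^ 2 := by
      rw [← Real.exp_nat_mul]
      norm_num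
    rw [h7]
    have := Real.cosh_pos s
    gcongr
  have h6 : cc (base n) (f (xs ξ s)) ≤ 4 * W₀ * Real.exp (2 * s) := by
    rw [← hW₀] at h3
    refine h3.trans ?_
    have := h4.trans h5
    gcongr
  have h7 := h1 j
  have h8 := one_le_cc (base_mem n) hxm
  rw [div_mul_eq_mul_div, div_mul_eq_mul_div, le_div_iff₀ hc]
  calc |(j : ℝ)| * c = c * |(j : ℝ)| := mul_comm _ _
    _ ≤ _ := h7
    _ ≤ 8 * (n + 1) * cc (base n) (f (xs ξ s)) * M := h2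
    _ ≤ 8 * (n + 1) * (4 * W₀ * Real.exp (2 * s)) * M := by gcongr
    _ = _ := by ring

/-- displacement of the image under a unipotent element with small coordinate -/
theorem sc_small (hf : HMap f) (he : Eqv ρ f) (hξ : nq ξ = 1) {γ : Γ}
    (hγ : Un ξ (γ : SUGroup m)) {s B : ℝ} (hB : ‖uv ξ (γ : SUGroup m)‖ ≤ B * Real.exp (2 * s)) :
    cc (f (xs ξ s)) (ρ γ *ᵥ f (xs ξ s)) ≤ (1 + B / 2) ^ 2 := by
  refine (sc_disp hf he γ (xs_mem ξ s)).trans ((xs_disp hξ hγ s).trans ?_)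
  have h1 : Real.exp (-(2 * s)) * ‖uv ξ (γ : SUGroup m)‖ ≤ B := by
    calc Real.exp (-(2 * s)) * ‖uv ξ (γ : SUGroup m)‖
        ≤ Real.exp (-(2 * s)) * (B * Real.exp (2 * s)) := by gcongr
      _ = B * (Real.exp (-(2 * s)) * Real.exp (2 * s)) := by ring
      _ = B := by rw [← Real.exp_add, neg_add_cancel, Real.exp_zero, mul_one]
  have h2 : 0 ≤ Real.exp (-(2 * s)) * ‖uv ξ (γ : SUGroup m)‖ := by positivity
  have h3 : 0 ≤ 1 + Real.exp (-(2 * s)) * ‖uv ξ (γ : SUGroup m)‖ / 2 := by positivity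
  refine pow_le_pow_left₀ h3 ?_ 2
  linarith

/-- (V) The vertical part of an element with bounded horizontal part. -/
theorem zv (hU : UJ ρ) (hP : Prp ρ) (hf : HMap f) (he : Eqv ρ f) (hz : z ∈ Γ)
    (h : IsTv z ξ κ) (B M : ℝ) : ∃ C : ℝ, 0 < C ∧ ∀ (s : ℝ), 0 ≤ s → ∀ (w : Γ),
      Un ξ (w : SUGroup m) → q (ua ξ (w : SUGroup m)) ≤ B →
      cc (f (xs ξ s)) (ρ w *ᵥ f (xs ξ s)) ≤ M →
        ‖uv ξ (w : SUGroup m)‖ ≤ C * Real.exp (2 * s) := by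
  have hξ := h.1
  obtain ⟨C₀, hC₀, h1⟩ := zb hU hP hf he hz h
  have hκ : 0 < |κ| := abs_pos.2 h.2.1
  obtain ⟨B', hB'⟩ : ∃ B' : ℝ, B' = |B| + |κ| := ⟨_, rfl⟩
  have hB0 : 0 < B' := by rw [hB']; positivity
  obtain ⟨M', hM'⟩ : ∃ M' : ℝ, M' = 2 * (|M| + 1) * (1 + B' / 2) := ⟨_, rfl⟩
  have hM0 : 0 < M' := by rw [hM']; positivity
  refine ⟨B' + 2 * |κ| * (C₀ * M'), by positivity, fun s hs w hw hwB hwM => ?_⟩
  have hes : 1 ≤ Real.exp (2 * s) := Real.one_le_exp (by linarith)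
  obtain ⟨j, hj⟩ : ∃ j : ℤ, j = round ((uv ξ (w : SUGroup m)).im / (2 * κ)) := ⟨_, rfl⟩
  obtain ⟨Z, hZ⟩ : ∃ Z : Γ, Z = ⟨z, hz⟩ := ⟨_, rfl⟩
  have hZc : ∀ j : ℤ, ((Z ^ j : Γ) : SUGroup m) = z ^ j := by
    intro j
    rw [hZ]
    rfl
  -- the remainder
  obtain ⟨r, hr⟩ : ∃ r : Γ, r = Z ^ j * w := ⟨_, rfl⟩
  obtain ⟨hj1, hj2, hj3⟩ := tv_zpow h j
  have hrc : (r : SUGroup m) = z ^ j * (w : SUGroup m) := by
    rw [hr, Subgroup.coe_mul, hZc]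
  obtain ⟨h2, h3⟩ := ua_mul hξ hj1 hw
  rw [← hrc] at h2 h3
  have hru : Un ξ (r : SUGroup m) := by
    rw [hrc]
    exact hj1.mul hξ hw
  have hzero : herm (0 : Vec m) (ua ξ (w : SUGroup m)) = 0 := by
    rw [herm_comm, herm, mulVec_zero, dotProduct_zero, star_zero]
  rw [hj2, hj3, hzero] at h3
  have h4 : (uv ξ (r : SUGroup m)).im = (uv ξ (w : SUGroup m)).im - 2 * κ * j := by
    rw [h3]
    simp
    ring
  have h5 : |(uv ξ (r : SUGroup m)).im| ≤ |κ| := by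
    have h6 := abs_sub_round ((uv ξ (w : SUGroup m)).im / (2 * κ))
    rw [← hj] at h6
    have h7 : (uv ξ (r : SUGroup m)).im =
        2 * κ * ((uv ξ (w : SUGroup m)).im / (2 * κ) - j) := by
      rw [h4]
      have := h.2.1
      field_simp
    rw [h7, abs_mul, abs_mul, abs_of_pos (two_pos : (0 : ℝ) < 2)]
    nlinarith
  have h6 : |(uv ξ (r : SUGroup m)).re| ≤ |B| := by
    have h7 : (uv ξ (r : SUGroup m)).re = q (ua ξ (w : SUGroup m)) / 4 := by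
      rw [hru.re hξ, h2, hj2, zero_add]
    have h8 := Un.q_nonneg hξ (w : SUGroup m)
    rw [h7, abs_of_nonneg (by positivity)]
    have := le_abs_self B
    linarith
  have h7 : ‖uv ξ (r : SUGroup m)‖ ≤ B' := by
    rw [hB']
    exact (Complex.norm_le_abs_re_add_abs_im _).trans (add_le_add h6 h5)
  have h8 : cc (f (xs ξ s)) (ρ r *ᵥ f (xs ξ s)) ≤ (1 + B' / 2) ^ 2 := by
    refine sc_small hf he hξ hru ?_
    nlinarith
  have hxm : f (xs ξ s) ∈ Cone n := hf.maps _ (xs_mem ξ s)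
  have h9 : Z ^ j = r * w⁻¹ := by rw [hr, mul_inv_cancel_right]
  have h10 := sc_mul hU r w⁻¹ hxm
  rw [← h9, sc_inv hU] at h10
  have h11 := one_le_cc hxm (uj_mem (hU w) hxm)
  have h12 : cc (f (xs ξ s)) (ρ (Z ^ j) *ᵥ f (xs ξ s)) ≤ M' ^ 2 := by
    have h13 : M ≤ (|M| + 1) ^ 2 := by nlinarith [le_abs_self M, abs_nonneg M]
    calc cc (f (xs ξ s)) (ρ (Z ^ j) *ᵥ f (xs ξ s))
        ≤ 4 * cc (f (xs ξ s)) (ρ r *ᵥ f (xs ξ s)) * cc (f (xs ξ s)) (ρ w *ᵥ f (xs ξ s)) := h10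
      _ ≤ 4 * (1 + B' / 2) ^ 2 * (|M| + 1) ^ 2 := by
          have := hwM.trans h13
          gcongr
      _ = M' ^ 2 := by
          rw [hM']
          ring
  rw [hZ] at h12
  have h13 := h1 s hs j M' hM0.le h12
  have h14 : uv ξ (w : SUGroup m) = uv ξ (r : SUGroup m) - (-2 * κ * j * Complex.I) := by
    rw [h3]
    ring
  have h15 : ‖(-2 * κ * j * Complex.I : ℂ)‖ = 2 * |κ| * |(j : ℝ)| := by
    rw [norm_mul, norm_mul, norm_mul, norm_neg, Complex.norm_I, Complex.norm_ofNat,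
      Complex.norm_real, Complex.norm_intCast, Real.norm_eq_abs, mul_one]
  calc ‖uv ξ (w : SUGroup m)‖ ≤ ‖uv ξ (r : SUGroup m)‖ + 2 * |κ| * |(j : ℝ)| := by
        rw [h14, ← h15]
        exact norm_sub_le _ _
    _ ≤ B' * Real.exp (2 * s) + 2 * |κ| * (C₀ * M' * Real.exp (2 * s)) := by
        gcongr
        nlinarith
    _ = _ := by ring

/-- (b1) The horizontal part. -/
theorem zhor (hU : UJ ρ) (hP : Prp ρ) (hf : HMap f) (he : Eqv ρ f) (hz : z ∈ Γ)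
    (h : IsTv z ξ κ) {Δ : Subgroup (SUGroup m)} (hΔ : ∀ x ∈ Δ, Un ξ x) (hΔΓ : Δ ≤ Γ) {R : ℝ}
    (hc : ∀ g ∈ PS ξ, ∃ δ ∈ Δ, ch (δ * g) ≤ R) (M : ℝ) : ∃ C : ℝ, 0 < C ∧ ∀ (s : ℝ), 0 ≤ s →
      ∀ (w : Γ), Un ξ (w : SUGroup m) → cc (f (xs ξ s)) (ρ w *ᵥ f (xs ξ s)) ≤ M →
        q (ua ξ (w : SUGroup m)) ≤ C * Real.exp (2 * s) := by
  have hξ := h.1
  obtain ⟨R', hR'⟩ := exists_im_ge hξ hΔ hc
  obtain ⟨B, hB⟩ : ∃ B : ℝ, B = 4 * |R'| := ⟨_, rfl⟩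
  obtain ⟨C, hC, h1⟩ := zv hU hP hf he hz h 0 (64 * M ^ 2 * (1 + B / 2) ^ 4)
  refine ⟨4 * C ^ 2, by positivity, fun s hs w hw hwM => ?_⟩
  have hxm : f (xs ξ s) ∈ Cone n := hf.maps _ (xs_mem ξ s)
  obtain ⟨y, hy, hyR, hyim⟩ := hR' (ua ξ (w : SUGroup m)) (ua_pe hξ _) (ua_pn hξ _)
  have hes : 1 ≤ Real.exp s := Real.one_le_exp hs
  obtain ⟨k, hk⟩ : ∃ k : ℕ, k = ⌊Real.exp s⌋₊ := ⟨_, rfl⟩
  have hk1 : 1 ≤ k := by rw [hk]; exact Nat.floor_pos.2 hes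
  have hk2 : (k : ℝ) ≤ Real.exp s := by rw [hk]; exact Nat.floor_le (by positivity)
  have hk3 : Real.exp s ≤ 2 * k := by
    have h2 : Real.exp s < (k : ℝ) + 1 := by rw [hk]; exact Nat.lt_floor_add_one _
    have h3 : (1 : ℝ) ≤ k := by exact_mod_cast hk1
    linarith
  have hk0 : (0 : ℝ) < k := by
    have h3 : (1 : ℝ) ≤ k := by exact_mod_cast hk1
    linarith
  have he2 : Real.exp (2 * s) = Real.exp s ^ 2 := by
    rw [← Real.exp_nat_mul]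
    norm_num
  obtain ⟨Y, hY⟩ : ∃ Y : Γ, Y = ⟨y, hΔΓ hy⟩ ^ k := ⟨_, rfl⟩
  have hYc : (Y : SUGroup m) = y ^ k := by
    rw [hY]
    rfl
  obtain ⟨hY1, hY2, hY3⟩ := ua_pow hξ (hΔ y hy) k
  rw [← hYc] at hY1 hY2 hY3
  have hYD : cc (f (xs ξ s)) (ρ Y *ᵥ f (xs ξ s)) ≤ (1 + B / 2) ^ 2 := by
    refine sc_small hf he hξ hY1 ?_
    rw [hYc]
    refine (uv_pow_le hξ (hΔ y hy) hk1).trans ?_
    have h2 : ch y ≤ |R'| := hyR.trans (le_abs_self _)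
    rw [he2, hB]
    have h3 := one_le_ch y
    gcongr
  obtain ⟨V, hV⟩ : ∃ V : Γ, V = (Y * w)⁻¹ * (w * Y) := ⟨_, rfl⟩
  have hVc : (V : SUGroup m) = ((Y : SUGroup m) * w)⁻¹ * (w * Y) := by
    rw [hV]
    rfl
  obtain ⟨h2, h3, h4⟩ := un_comm hξ hw hY1
  rw [← hVc] at h2 h3 h4
  have hq0 : q (0 : Vec m) = 0 := by
    rw [q, herm, mulVec_zero, dotProduct_zero]
    rfl
  have h5 : cc (f (xs ξ s)) (ρ V *ᵥ f (xs ξ s)) ≤ 64 * M ^ 2 * (1 + B / 2) ^ 4 := by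
    have e1 := sc_mul hU (Y * w)⁻¹ (w * Y) hxm
    rw [sc_inv hU, ← hV] at e1
    have e2 := sc_mul hU Y w hxm
    have e3 := sc_mul hU w Y hxm
    have e4 := one_le_cc hxm (uj_mem (hU Y) hxm)
    have e5 := one_le_cc hxm (uj_mem (hU w) hxm)
    have e6 := one_le_cc hxm (uj_mem (hU (Y * w)) hxm)
    have e7 := one_le_cc hxm (uj_mem (hU (w * Y)) hxm)
    calc cc (f (xs ξ s)) (ρ V *ᵥ f (xs ξ s))
        ≤ 4 * cc (f (xs ξ s)) (ρ (Y * w) *ᵥ f (xs ξ s)) *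
            cc (f (xs ξ s)) (ρ (w * Y) *ᵥ f (xs ξ s)) := e1
      _ ≤ 4 * (4 * cc (f (xs ξ s)) (ρ Y *ᵥ f (xs ξ s)) * cc (f (xs ξ s)) (ρ w *ᵥ f (xs ξ s))) *
            (4 * cc (f (xs ξ s)) (ρ w *ᵥ f (xs ξ s)) *
              cc (f (xs ξ s)) (ρ Y *ᵥ f (xs ξ s))) := by gcongr
      _ ≤ 4 * (4 * (1 + B / 2) ^ 2 * M) * (4 * M * (1 + B / 2) ^ 2) := by
          have : 0 ≤ M := by linarith
          gcongr
      _ = _ := by ring
  have h6 := h1 s hs V h2 (by rw [h3, hq0]) h5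
  have h7 : (herm (ua ξ (w : SUGroup m)) (ua ξ (Y : SUGroup m))).im =
      k * (herm (ua ξ (w : SUGroup m)) (ua ξ y)).im := by
    rw [hY2, herm_smul_right]
    simp
  obtain ⟨r, hr⟩ : ∃ r : ℝ, r = Real.sqrt (q (ua ξ (w : SUGroup m))) := ⟨_, rfl⟩
  have hr0 : 0 ≤ r := hr ▸ Real.sqrt_nonneg _
  have hr2 : r ^ 2 = q (ua ξ (w : SUGroup m)) := by
    rw [hr]
    exact Real.sq_sqrt (Un.q_nonneg hξ _)
  rw [← hr] at hyim
  have h8 : k * r ≤ C * Real.exp (2 * s) := by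
    rw [h4, norm_mul, Complex.norm_I, mul_one, Complex.norm_real, Real.norm_eq_abs, h7] at h6
    refine le_trans ?_ h6
    refine le_trans ?_ (le_abs_self _)
    gcongr
  have h9 : r ≤ 2 * C * Real.exp s := by
    rw [he2] at h8
    have h10 : Real.exp s * r ≤ 2 * (C * Real.exp s ^ 2) := by
      calc Real.exp s * r ≤ (2 * k) * r := by gcongr
        _ = 2 * (k * r) := by ring
        _ ≤ _ := by linarith
    have h11 : 0 < Real.exp s := Real.exp_pos s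
    have h12 : Real.exp s * r ≤ Real.exp s * (2 * C * Real.exp s) := by
      refine h10.trans (le_of_eq ?_)
      ring
    exact le_of_mul_le_mul_left h12 h11
  rw [← hr2, he2]
  calc r ^ 2 ≤ (2 * C * Real.exp s) ^ 2 := by gcongr
    _ = _ := by ring

/-- (b) All coordinates. -/
theorem zall (hU : UJ ρ) (hP : Prp ρ) (hf : HMap f) (he : Eqv ρ f) (hz : z ∈ Γ)
    (h : IsTv z ξ κ) {Δ : Subgroup (SUGroup m)} (hΔ : ∀ x ∈ Δ, Un ξ x) (hΔΓ : Δ ≤ Γ) {R : ℝ}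
    (hc : ∀ g ∈ PS ξ, ∃ δ ∈ Δ, ch (δ * g) ≤ R) (M : ℝ) : ∃ C : ℝ, 0 < C ∧ ∀ (s : ℝ), 0 ≤ s →
      ∀ (w : Γ), Un ξ (w : SUGroup m) → cc (f (xs ξ s)) (ρ w *ᵥ f (xs ξ s)) ≤ M →
        ‖uv ξ (w : SUGroup m)‖ ≤ C * Real.exp (2 * s) := by
  have hξ := h.1
  have hR1 : 1 ≤ R := by
    obtain ⟨δ, -, h⟩ := hc 1 (PS ξ).one_mem
    exact (one_le_ch _).trans h
  obtain ⟨C₁, hC₁, h1⟩ := zhor hU hP hf he hz h hΔ hΔΓ hc M
  obtain ⟨B, hB⟩ : ∃ B : ℝ, B = 2 * (2 * R * (1 + C₁ / 8)) := ⟨_, rfl⟩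
  have hB0 : 0 < B := by rw [hB]; positivity
  obtain ⟨C₂, hC₂, h2⟩ := zv hU hP hf he hz h (8 * R) (4 * (1 + B / 2) ^ 2 * M)
  refine ⟨C₂ + B + (1 / 2) * (Real.sqrt (4 * B) * Real.sqrt C₁), by positivity,
    fun s hs w hw hwM => ?_⟩
  have hxm : f (xs ξ s) ∈ Cone n := hf.maps _ (xs_mem ξ s)
  have hes : 1 ≤ Real.exp (2 * s) := Real.one_le_exp (by linarith)
  have h3 := h1 s hs w hw hwM
  have hq0 := Un.q_nonneg hξ (w : SUGroup m)
  obtain ⟨d, hd, b, hb0, hb, hdb, hdR⟩ := cob_ua hξ hΔ hc (ζ := (-1 : ℂ) • ua ξ (w : SUGroup m))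
    (by rw [herm_smul_right, ua_pe hξ, mul_zero]) (by rw [herm_smul_right, ua_pn hξ, mul_zero])
  have hqn : q ((-1 : ℂ) • ua ξ (w : SUGroup m)) = q (ua ξ (w : SUGroup m)) := by
    rw [q_smul, norm_neg, norm_one, one_pow, one_mul]
  rw [hqn] at hdR
  have hd' := hΔ d hd
  -- size of `d`
  have h4 : ch d ≤ 2 * R * (1 + C₁ / 8) * Real.exp (2 * s) := by
    calc ch d ≤ 2 * R * (1 + q (ua ξ (w : SUGroup m)) / 8) := hdR
      _ ≤ 2 * R * (Real.exp (2 * s) + C₁ * Real.exp (2 * s) / 8) := by gcongr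
      _ = _ := by ring
  have h5 : ‖uv ξ d‖ ≤ B * Real.exp (2 * s) := by
    refine (hd'.norm_uv_le hξ).trans ?_
    rw [hB]
    linarith
  have h6 : q (ua ξ d) ≤ 4 * B * Real.exp (2 * s) := by
    have h7 := hd'.q_le hξ
    rw [hB]
    linarith
  obtain ⟨D, hD⟩ : ∃ D : Γ, D = ⟨d, hΔΓ hd⟩ := ⟨_, rfl⟩
  have hDc : (D : SUGroup m) = d := by rw [hD]
  have h7 : cc (f (xs ξ s)) (ρ D *ᵥ f (xs ξ s)) ≤ (1 + B / 2) ^ 2 := by
    refine sc_small hf he hξ ?_ ?_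
    · rw [hDc]
      exact hd'
    · rw [hDc]
      exact h5
  -- the product
  obtain ⟨y, hy⟩ : ∃ y : Γ, y = D * w := ⟨_, rfl⟩
  have hyc : (y : SUGroup m) = d * (w : SUGroup m) := by
    rw [hy, Subgroup.coe_mul, hDc]
  have hyu : Un ξ (y : SUGroup m) := by
    rw [hyc]
    exact hd'.mul hξ hw
  obtain ⟨h8, h9⟩ := ua_mul hξ hd' hw
  rw [← hyc] at h8 h9
  have h10 : q (ua ξ (y : SUGroup m)) ≤ 8 * R := by
    have e1 : ua ξ (y : SUGroup m) = (-1 : ℂ) • b := by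
      rw [h8, hdb]
      module
    rw [e1, q_smul, norm_neg, norm_one, one_pow, one_mul]
    exact hb
  have h11 : cc (f (xs ξ s)) (ρ y *ᵥ f (xs ξ s)) ≤ 4 * (1 + B / 2) ^ 2 * M := by
    have e1 := sc_mul hU D w hxm
    rw [← hy] at e1
    have e2 := one_le_cc hxm (uj_mem (hU D) hxm)
    have e3 := one_le_cc hxm (uj_mem (hU w) hxm)
    refine e1.trans ?_
    gcongr
  have h12 := h2 s hs y hyu h10 h11
  have h13 : uv ξ (w : SUGroup m) = uv ξ (y : SUGroup m) - uv ξ d -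
      (1 / 2 : ℂ) * herm (ua ξ d) (ua ξ (w : SUGroup m)) := by
    rw [h9]
    ring
  have h14 : ‖(1 / 2 : ℂ) * herm (ua ξ d) (ua ξ (w : SUGroup m))‖ ≤
      (1 / 2) * (Real.sqrt (4 * B) * Real.sqrt C₁) * Real.exp (2 * s) := by
    have e1 := hor_cauchy (sb_last (ua_pe hξ d) (ua_pn hξ d))
      (sb_last (ua_pe hξ (w : SUGroup m)) (ua_pn hξ (w : SUGroup m)))
    have e2 : Real.sqrt (q (ua ξ d)) ≤ Real.sqrt (4 * B) * Real.sqrt (Real.exp (2 * s)) := by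
      rw [← Real.sqrt_mul (by positivity)]
      exact Real.sqrt_le_sqrt h6
    have e3 : Real.sqrt (q (ua ξ (w : SUGroup m))) ≤
        Real.sqrt C₁ * Real.sqrt (Real.exp (2 * s)) := by
      rw [← Real.sqrt_mul hC₁.le]
      exact Real.sqrt_le_sqrt h3
    have e4 : Real.sqrt (Real.exp (2 * s)) * Real.sqrt (Real.exp (2 * s)) = Real.exp (2 * s) :=
      Real.mul_self_sqrt (by positivity)
    rw [norm_mul, norm_div, norm_one, Complex.norm_ofNat]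
    calc 1 / 2 * ‖herm (ua ξ d) (ua ξ (w : SUGroup m))‖
        ≤ 1 / 2 * ((Real.sqrt (4 * B) * Real.sqrt (Real.exp (2 * s))) *
            (Real.sqrt C₁ * Real.sqrt (Real.exp (2 * s)))) := by
          refine mul_le_mul_of_nonneg_left (e1.trans ?_) (by norm_num)
          gcongr
      _ = 1 / 2 * (Real.sqrt (4 * B) * Real.sqrt C₁) *
            (Real.sqrt (Real.exp (2 * s)) * Real.sqrt (Real.exp (2 * s))) := by ring
      _ = _ := by rw [e4]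
  calc ‖uv ξ (w : SUGroup m)‖ ≤ ‖uv ξ (y : SUGroup m)‖ + ‖uv ξ d‖ +
        ‖(1 / 2 : ℂ) * herm (ua ξ d) (ua ξ (w : SUGroup m))‖ := by
        rw [h13]
        exact (norm_sub_le _ _).trans (add_le_add (norm_sub_le _ _) le_rfl)
    _ ≤ C₂ * Real.exp (2 * s) + B * Real.exp (2 * s) +
        (1 / 2) * (Real.sqrt (4 * B) * Real.sqrt C₁) * Real.exp (2 * s) := by gcongr
    _ = _ := by ring

/-- (c) The heights. -/
theorem zhgt (hU : UJ ρ) (hP : Prp ρ) (hf : HMap f) (he : Eqv ρ f) (hz : z ∈ Γ)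
    (h : IsTv z ξ κ) (M : ℝ) : ∃ C : ℝ, 0 < C ∧ ∀ (s t : ℝ), 0 ≤ s → 0 ≤ t → ∀ (w : Γ),
      Un ξ (w : SUGroup m) → cc (f (xs ξ s)) (f (act (w : SUGroup m) (xs ξ t))) ≤ M →
        Real.exp (2 * s) ≤ C * Real.exp (2 * t) := by
  have hξ := h.1
  obtain ⟨C₀, hC₀, h1⟩ := zb hU hP hf he hz h
  refine ⟨2 * C₀ * (4 * (|M| + 1) * (1 + |κ|)), by positivity, fun s t hs ht w hw hwM => ?_⟩
  have hes : 1 ≤ Real.exp (2 * s) := Real.one_le_exp (by linarith)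
  have hxm : f (xs ξ s) ∈ Cone n := hf.maps _ (xs_mem ξ s)
  have hxt : f (xs ξ t) ∈ Cone n := hf.maps _ (xs_mem ξ t)
  obtain ⟨j, hj⟩ : ∃ j : ℤ, j = ⌊Real.exp (2 * s)⌋ := ⟨_, rfl⟩
  have hj1 : (1 : ℝ) ≤ j := by
    have : (1 : ℤ) ≤ j := by
      rw [hj, Int.le_floor]
      exact_mod_cast hes
    exact_mod_cast this
  have hj2 : (j : ℝ) ≤ Real.exp (2 * s) := by rw [hj]; exact Int.floor_le _
  have hj3 : Real.exp (2 * s) ≤ 2 * j := by
    have h2 : Real.exp (2 * s) < (j : ℝ) + 1 := by rw [hj]; exact Int.lt_floor_add_one _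
    linarith
  obtain ⟨Z, hZ⟩ : ∃ Z : Γ, Z = ⟨z, hz⟩ := ⟨_, rfl⟩
  have hZc : ((Z ^ j : Γ) : SUGroup m) = z ^ j := by
    rw [hZ]
    rfl
  obtain ⟨h2, h3, h4⟩ := tv_zpow h j
  rw [← hZc] at h2 h3 h4
  have h5 : cc (f (xs ξ s)) (ρ (Z ^ j) *ᵥ f (xs ξ s)) ≤ (1 + 2 * |κ| / 2) ^ 2 := by
    refine sc_small hf he hξ h2 ?_
    have h15 : ‖(-2 * κ * j * Complex.I : ℂ)‖ = 2 * |κ| * |(j : ℝ)| := by
      rw [norm_mul, norm_mul, norm_mul, norm_neg, Complex.norm_I, Complex.norm_ofNat,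
        Complex.norm_real, Complex.norm_intCast, Real.norm_eq_abs, mul_one]
    rw [h4, h15, abs_of_pos (by linarith : (0 : ℝ) < j)]
    gcongr
  -- the displacement at the second point
  obtain ⟨c, hc, h6⟩ := he w (xs ξ t) (xs_mem ξ t)
  rw [h6, cc_smul_right hc] at hwM
  have hwt := uj_mem (hU w) hxt
  have h7 := sc_tri hwt hxm (uj_mem (hU (Z ^ j)) hwt)
  have h8 := sc_tri hxm (uj_mem (hU (Z ^ j)) hxm) (uj_mem (hU (Z ^ j)) hwt)
  rw [cc_uj (hU (Z ^ j))] at h8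
  rw [sc_comm _ (f (xs ξ s))] at h7
  have hcomm : Z ^ j * w = w * Z ^ j := by
    have e1 : Commute (w : SUGroup m) z := tv_comm h hw.1
    have e2 : Commute (w : SUGroup m) (z ^ j) := e1.zpow_right j
    apply Subtype.ext
    rw [Subgroup.coe_mul, Subgroup.coe_mul, hZc]
    exact e2.eq.symm
  have h9 : cc (ρ w *ᵥ f (xs ξ t)) (ρ (Z ^ j) *ᵥ (ρ w *ᵥ f (xs ξ t))) =
      cc (f (xs ξ t)) (ρ (Z ^ j) *ᵥ f (xs ξ t)) := by
    rw [mulVec_mulVec, ← map_mul, hcomm, map_mul, ← mulVec_mulVec, cc_uj (hU w)]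
  rw [h9] at h7
  have hM1 : 1 ≤ M := (one_le_cc hxm hwt).trans hwM
  have h10 := one_le_cc hxm (uj_mem (hU (Z ^ j)) hxm)
  have h11 := one_le_cc hxm hwt
  have h12 := one_le_cc hxm (uj_mem (hU (Z ^ j)) hwt)
  have h13 : cc (f (xs ξ t)) (ρ (Z ^ j) *ᵥ f (xs ξ t)) ≤ (4 * (|M| + 1) * (1 + |κ|)) ^ 2 := by
    calc cc (f (xs ξ t)) (ρ (Z ^ j) *ᵥ f (xs ξ t))
        ≤ 4 * cc (f (xs ξ s)) (ρ w *ᵥ f (xs ξ t)) *
            cc (f (xs ξ s)) (ρ (Z ^ j) *ᵥ (ρ w *ᵥ f (xs ξ t))) := h7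
      _ ≤ 4 * cc (f (xs ξ s)) (ρ w *ᵥ f (xs ξ t)) *
            (4 * cc (f (xs ξ s)) (ρ (Z ^ j) *ᵥ f (xs ξ s)) *
              cc (f (xs ξ s)) (ρ w *ᵥ f (xs ξ t))) := by gcongr
      _ ≤ 4 * M * (4 * (1 + 2 * |κ| / 2) ^ 2 * M) := by gcongr
      _ = (4 * M * (1 + |κ|)) ^ 2 := by ring
      _ ≤ _ := by
          have : M ≤ |M| + 1 := by linarith [le_abs_self M]
          gcongr
  rw [hZ] at h13
  have h14 := h1 t ht j _ (by positivity) h13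
  rw [abs_of_pos (by linarith : (0 : ℝ) < j)] at h14
  calc Real.exp (2 * s) ≤ 2 * j := hj3
    _ ≤ 2 * (C₀ * (4 * (|M| + 1) * (1 + |κ|)) * Real.exp (2 * t)) := by gcongr
    _ = _ := by ring

/-- **Points in the same cusp.** -/
theorem same_cusp (hU : UJ ρ) (hP : Prp ρ) (hf : HMap f) (he : Eqv ρ f) (hz : z ∈ Γ)
    (h : IsTv z ξ κ) {Δ : Subgroup (SUGroup m)} (hΔ : ∀ x ∈ Δ, Un ξ x) (hΔΓ : Δ ≤ Γ) {R : ℝ}
    (hc : ∀ g ∈ PS ξ, ∃ δ ∈ Δ, ch (δ * g) ≤ R) (M : ℝ) : ∃ C : ℝ, 0 < C ∧ ∀ (s t : ℝ), 0 ≤ s →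
      0 ≤ t → ∀ (w : Γ), Un ξ (w : SUGroup m) →
        cc (f (xs ξ s)) (f (act (w : SUGroup m) (xs ξ t))) ≤ M →
          cc (xs ξ s) (act (w : SUGroup m) (xs ξ t)) ≤ C := by
  have hξ := h.1
  obtain ⟨C₁, hC₁, h1⟩ := zhgt hU hP hf he hz h M
  obtain ⟨D, hD⟩ : ∃ D : ℝ, D = C₁ + 1 := ⟨_, rfl⟩
  have hD0 : 0 < D := by rw [hD]; positivity
  obtain ⟨C₂, hC₂, h2⟩ := zall hU hP hf he hz h hΔ hΔΓ hc (4 * |M| * D)
  refine ⟨4 * (1 + C₂ / 2) ^ 2 * D, by positivity, fun s t hs ht w hw hwM => ?_⟩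
  have hxs := xs_mem ξ s
  have hxt := xs_mem ξ t
  have hxm : f (xs ξ s) ∈ Cone n := hf.maps _ hxs
  have hxtm : f (xs ξ t) ∈ Cone n := hf.maps _ hxt
  have h3 := h1 s t hs ht w hw hwM
  have h4 : Real.exp (2 * t) ≤ C₁ * Real.exp (2 * s) := by
    have hwi : Un ξ ((w⁻¹ : Γ) : SUGroup m) := by
      rw [Subgroup.coe_inv]
      exact hw.inv hξ
    refine h1 t s ht hs w⁻¹ hwi ?_
    rw [sc_comm]
    have e1 := he.cc hU w⁻¹ hxs (act_mem (w : SUGroup m) hxt)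
    have e2 : act ((w⁻¹ : Γ) : SUGroup m) (act (w : SUGroup m) (xs ξ t)) = xs ξ t := by
      rw [Subgroup.coe_inv, ← act_mul, inv_mul_cancel, act_one]
    rw [e2] at e1
    rw [e1]
    exact hwM
  have h5 : cc (xs ξ s) (xs ξ t) ≤ D := by
    rw [xs_xs hξ]
    have e1 := cosh_le (t - s)
    have e2 : Real.exp |t - s| ^ 2 ≤ D := by
      rw [← Real.exp_nat_mul]
      push_cast
      rcases le_total 0 (t - s) with h6 | h6
      · rw [abs_of_nonneg h6, mul_sub, Real.exp_sub, div_le_iff₀ (Real.exp_pos _)]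
        refine h4.trans ?_
        rw [hD]
        have := Real.exp_pos (2 * s)
        gcongr
        linarith
      · rw [abs_of_nonpos h6, neg_sub, mul_sub, Real.exp_sub, div_le_iff₀ (Real.exp_pos _)]
        refine h3.trans ?_
        rw [hD]
        have := Real.exp_pos (2 * t)
        gcongr
        linarith
    refine le_trans ?_ e2
    have := Real.cosh_pos (t - s)
    gcongr
  have hM1 : 1 ≤ M := (one_le_cc hxm (hf.maps _ (act_mem _ hxt))).trans hwM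
  have hD1 : 1 ≤ D := (one_le_cc hxs hxt).trans h5
  obtain ⟨c, hc', h6⟩ := he w (xs ξ t) hxt
  rw [h6, cc_smul_right hc'] at hwM
  have h7 : cc (f (xs ξ s)) (ρ w *ᵥ f (xs ξ s)) ≤ 4 * |M| * D := by
    have e1 := sc_tri hxm (uj_mem (hU w) hxtm) (uj_mem (hU w) hxm)
    rw [cc_uj (hU w), sc_comm (f (xs ξ t))] at e1
    have e2 := (hf.cc_le hxs hxt).trans h5
    have e3 := one_le_cc hxm (uj_mem (hU w) hxtm)
    have e4 := one_le_cc hxm hxtm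
    refine e1.trans ?_
    have e5 : cc (f (xs ξ s)) (ρ w *ᵥ f (xs ξ t)) ≤ |M| := hwM.trans (le_abs_self M)
    gcongr
  have h8 := h2 s hs w hw h7
  have h9 : cc (xs ξ s) (act (w : SUGroup m) (xs ξ s)) ≤ (1 + C₂ / 2) ^ 2 := by
    refine (xs_disp hξ hw s).trans ?_
    have e1 : Real.exp (-(2 * s)) * ‖uv ξ (w : SUGroup m)‖ ≤ C₂ := by
      calc Real.exp (-(2 * s)) * ‖uv ξ (w : SUGroup m)‖
          ≤ Real.exp (-(2 * s)) * (C₂ * Real.exp (2 * s)) := by gcongr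
        _ = C₂ * (Real.exp (-(2 * s)) * Real.exp (2 * s)) := by ring
        _ = C₂ := by rw [← Real.exp_add, neg_add_cancel, Real.exp_zero, mul_one]
    have e2 : 0 ≤ Real.exp (-(2 * s)) * ‖uv ξ (w : SUGroup m)‖ := by positivity
    refine pow_le_pow_left₀ (by positivity) ?_ 2
    linarith
  have h10 := sc_tri hxs (act_mem (w : SUGroup m) hxs) (act_mem (w : SUGroup m) hxt)
  rw [cc_act] at h10
  have h11 := one_le_cc hxs (act_mem (w : SUGroup m) hxs)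
  have h12 := one_le_cc hxs hxt
  refine h10.trans ?_
  gcongr

end data

end Pool.Agent.Lib.MP_5d4057_al.RG
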