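import Pool.Agent.Lib.MP_5d4057_al.RG.SepC
import Pool.Agent.Lib.MP_5d4057_al.RG.CpA1

/-!
# RG: uniform separation, different cusps
-/

set_option autoImplicit false

namespace Pool.Agent.Lib.MP_5d4057_al.RG

open Matrix Filter Topology Metric Pool.Agent.Lib.MP_5d4057_al Pool.Agent.Lib.MP_5d4057_al.Hyb
  Pool.Agent.Lib.MP_5d4057_al.HM Pool.Agent.Lib.MP_5d4057_al.HM.Kak Pool.Agent.Lib.MP_5d4057_al.NU

open scoped ComplexOrder MatrixOrder Matrix.Norms.L2Operator

variable {m n : ℕ}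

/-! ### elements of `U(n,1)` with small displacement -/

private theorem sd_J_sq : J n * J n = 1 := by
  rw [J, diagonal_mul_diagonal, ← diagonal_one]
  congr 1
  funext i
  split_ifs <;> norm_num

/-- An element of `U(n,1)` fixing the base point is unitary. -/
private theorem sd_unitary {A : Mat (n + 1)} (hA : Aᴴ * J n * A = J n)
    (h : ‖A (Fin.last n) (Fin.last n)‖ ^ 2 = 1) : Aᴴ * A = 1 := by
  -- the last column and row
  have hcol : ∀ {B : Mat (n + 1)}, Bᴴ * J n * B = J n → ‖B (Fin.last n) (Fin.last n)‖ ^ 2 = 1 →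
      ∀ i : Fin n, B i.castSucc (Fin.last n) = 0 := by
    intro B hB hB1 i
    have h1 := uj_q hB (base n)
    have h2 : ∀ l, (B *ᵥ base n) l = B l (Fin.last n) := by
      intro l
      rw [base, mulVec_single_one]
      rfl
    rw [q_base, q_eq] at h1
    simp only [h2] at h1
    rw [hB1] at h1
    have h3 : ∑ i : Fin n, ‖B i.castSucc (Fin.last n)‖ ^ 2 = 0 := by linarith
    have h4 := (Finset.sum_eq_zero_iff_of_nonneg (fun _ _ => by positivity)).1 h3 i
      (Finset.mem_univ i)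
    exact norm_eq_zero.1 (pow_eq_zero_iff two_ne_zero |>.1 h4)
  have h1 := hcol hA h
  have h2 : ∀ i : Fin n, A (Fin.last n) i.castSucc = 0 := by
    intro i
    have h3 := hcol (uj_adj hA) (by rw [conjTranspose_apply, norm_star]; exact h) i
    rw [conjTranspose_apply] at h3
    exact star_eq_zero.1 h3
  have h3 : J n * A = A * J n := by
    ext i j
    rw [J, diagonal_mul, mul_diagonal]
    refine Fin.lastCases ?_ (fun i => ?_) i <;> refine Fin.lastCases ?_ (fun j => ?_) j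
    · ring
    · rw [h2]
      ring
    · rw [h1]
      ring
    · have e1 : (i.castSucc : Fin (n + 1)) ≠ Fin.last n := (Fin.castSucc_lt_last i).ne
      have e2 : (j.castSucc : Fin (n + 1)) ≠ Fin.last n := (Fin.castSucc_lt_last j).ne
      simp [e1, e2]
  have h4 : Aᴴ * A * J n = J n := by
    rw [Matrix.mul_assoc, ← h3, ← Matrix.mul_assoc]
    exact hA
  calc Aᴴ * A = Aᴴ * A * J n * J n := by rw [Matrix.mul_assoc _ (J n), sd_J_sq, Matrix.mul_one]
    _ = 1 := by rw [h4, sd_J_sq]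

/-- Powers of a unitary matrix come back. -/
private theorem sd_pigeon {A : Mat (n + 1)} (hA : Aᴴ * A = 1) {e : ℝ} (he : 0 < e) :
    ∃ j : ℕ, 1 ≤ j ∧ ‖A ^ j - 1‖ < e := by
  have : ProperSpace (Mat (n + 1)) := FiniteDimensional.proper ℂ _
  have hpow : ∀ i : ℕ, (A ^ i)ᴴ * A ^ i = 1 := by
    intro i
    induction i with
    | zero => simp
    | succ i ih =>
      rw [pow_succ, conjTranspose_mul, Matrix.mul_assoc, ← Matrix.mul_assoc (A ^ i)ᴴ, ih,
        Matrix.one_mul, hA]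
  have hnorm : ∀ i : ℕ, ‖(A ^ i)ᴴ‖ ≤ 1 := by
    intro i
    have h1 : ‖(A ^ i)ᴴ * A ^ i‖ = ‖A ^ i‖ * ‖A ^ i‖ := CStarRing.norm_star_mul_self
    rw [hpow, norm_one] at h1
    have h2 : ‖(A ^ i)ᴴ‖ = ‖A ^ i‖ := norm_star _
    rw [h2]
    nlinarith [norm_nonneg (A ^ i)]
  have hmem : ∀ i : ℕ, A ^ i ∈ Metric.closedBall (0 : Mat (n + 1)) 1 := by
    intro i
    rw [mem_closedBall_zero_iff]
    have h2 : ‖(A ^ i)ᴴ‖ = ‖A ^ i‖ := norm_star _
    rw [← h2]
    exact hnorm i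
  obtain ⟨a, -, φ, hφ, hlim⟩ := (isCompact_closedBall (0 : Mat (n + 1)) 1).tendsto_subseq hmem
  have hc := hlim.cauchySeq
  obtain ⟨N, hN⟩ := Metric.cauchySeq_iff.1 hc e he
  have h1 := hN (N + 1) (by omega) N (le_refl N)
  simp only [Function.comp_apply, dist_eq_norm] at h1
  have hlt : φ N < φ (N + 1) := hφ (Nat.lt_succ_self N)
  refine ⟨φ (N + 1) - φ N, by omega, ?_⟩
  have h2 : A ^ (φ (N + 1) - φ N) - 1 = (A ^ φ N)ᴴ * (A ^ φ (N + 1) - A ^ φ N) := by
    have h3 : A ^ φ (N + 1) = A ^ φ N * A ^ (φ (N + 1) - φ N) := by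
      rw [← pow_add]
      congr 1
      omega
    rw [Matrix.mul_sub, hpow, h3, ← Matrix.mul_assoc, hpow, Matrix.one_mul]
  rw [h2]
  calc ‖(A ^ φ N)ᴴ * (A ^ φ (N + 1) - A ^ φ N)‖
      ≤ ‖(A ^ φ N)ᴴ‖ * ‖A ^ φ (N + 1) - A ^ φ N‖ := norm_mul_le _ _
    _ ≤ 1 * ‖A ^ φ (N + 1) - A ^ φ N‖ :=
        mul_le_mul_of_nonneg_right (hnorm _) (norm_nonneg _)
    _ < e := by rw [one_mul]; exact h1

private theorem sd_entry {A : Mat (n + 1)} (hA : Aᴴ * J n * A = J n) :
    cc (base n) (A *ᵥ base n) = ‖A (Fin.last n) (Fin.last n)‖ ^ 2 := by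
  have h2 : (A *ᵥ base n) (Fin.last n) = A (Fin.last n) (Fin.last n) := by
    rw [base, mulVec_single_one]
    rfl
  have h3 : herm (base n) (A *ᵥ base n) = -(A (Fin.last n) (Fin.last n)) := by
    rw [← h2, herm_eq, base, Pi.single_eq_same, Finset.sum_eq_zero]
    · simp
    · intro i _
      rw [Pi.single_eq_of_ne (Fin.castSucc_lt_last i).ne]
      simp
  rw [cc, h3, norm_neg, uj_q hA, q_base]
  norm_num

/-- A power of an element which moves the base point a little is near `1`. -/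
theorem near_one (n : ℕ) {e : ℝ} (he : 0 < e) : ∃ δ : ℝ, 0 < δ ∧ ∀ A : Mat (n + 1),
    Aᴴ * J n * A = J n → cc (base n) (A *ᵥ base n) ≤ 1 + δ → ∃ j : ℕ, 1 ≤ j ∧ ‖A ^ j - 1‖ < e := by
  have : ProperSpace (Mat (n + 1)) := FiniteDimensional.proper ℂ _
  obtain ⟨S, hS⟩ : ∃ S : Set (Mat (n + 1)), S = {A | Aᴴ * J n * A = J n ∧
    ‖A (Fin.last n) (Fin.last n)‖ ^ 2 ≤ 2 ∧ ∀ j : ℕ, 1 ≤ j → e ≤ ‖A ^ j - 1‖} := ⟨_, rfl⟩
  have hent : Continuous fun A : Mat (n + 1) => ‖A (Fin.last n) (Fin.last n)‖ ^ 2 := by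
    have h1 : Continuous fun A : Mat (n + 1) => A (Fin.last n) (Fin.last n) :=
      continuous_id.matrix_elem _ _
    exact h1.norm.pow 2
  have hcl : IsClosed S := by
    have h1 : S = {A | Aᴴ * J n * A = J n} ∩ ({A | ‖A (Fin.last n) (Fin.last n)‖ ^ 2 ≤ 2} ∩
        ⋂ j : ℕ, ⋂ _ : 1 ≤ j, {A | e ≤ ‖A ^ j - 1‖}) := by
      rw [hS]
      ext A
      simp
    rw [h1]
    refine IsClosed.inter ?_ (IsClosed.inter ?_ ?_)
    · refine isClosed_eq ?_ continuous_const
      have h2 : Continuous fun A : Mat (n + 1) => Aᴴ := continuous_star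
      exact (h2.mul continuous_const).mul continuous_id
    · exact isClosed_le hent continuous_const
    · refine isClosed_iInter fun j => isClosed_iInter fun _ => ?_
      exact isClosed_le continuous_const ((continuous_id.pow j).sub continuous_const).norm
  have hbd : Bornology.IsBounded S := by
    rw [Metric.isBounded_iff_subset_closedBall 0]
    refine ⟨(n + 1) * (1 + 2), fun A hA => ?_⟩
    rw [hS] at hA
    obtain ⟨h1, h2, -⟩ := hA
    rw [mem_closedBall_zero_iff]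
    refine (uj_norm h1).trans ?_
    have h3 : ‖A (Fin.last n) (Fin.last n)‖ ≤ 2 := by
      nlinarith [norm_nonneg (A (Fin.last n) (Fin.last n))]
    gcongr
  have hcomp : IsCompact S := Metric.isCompact_of_isClosed_isBounded hcl hbd
  rcases S.eq_empty_or_nonempty with hne | hne
  · refine ⟨1, one_pos, fun A hA h1 => ?_⟩
    by_contra hcon
    push Not at hcon
    have h2 : A ∈ S := by
      rw [hS]
      refine ⟨hA, ?_, hcon⟩
      rw [← sd_entry hA]
      linarith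
    rw [hne] at h2
    exact h2
  · obtain ⟨A₀, hA₀, hmin⟩ := hcomp.exists_isMinOn hne hent.continuousOn
    have hA₀' := hA₀
    rw [hS] at hA₀'
    obtain ⟨h1, h2, h3⟩ := hA₀'
    have h4 : 1 ≤ ‖A₀ (Fin.last n) (Fin.last n)‖ ^ 2 := by
      rw [← sd_entry h1]
      exact one_le_cc (base_mem n) (uj_mem h1 (base_mem n))
    have h5 : 1 < ‖A₀ (Fin.last n) (Fin.last n)‖ ^ 2 := by
      refine lt_of_le_of_ne h4 fun h => ?_
      obtain ⟨j, hj, hje⟩ := sd_pigeon (sd_unitary h1 h.symm) he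
      exact absurd (h3 j hj) (not_le.2 hje)
    refine ⟨(‖A₀ (Fin.last n) (Fin.last n)‖ ^ 2 - 1) / 2, by linarith, fun A hA h6 => ?_⟩
    by_contra hcon
    push Not at hcon
    rw [sd_entry hA] at h6
    have h7 : A ∈ S := by
      rw [hS]
      exact ⟨hA, by linarith, hcon⟩
    have h8 := hmin h7
    simp only [Set.mem_ofPred_eq] at h8
    linarith

/-! ### iterated commutators -/

/-- iterated commutators -/
def itc {G : Type*} [Group G] (a b : G) : ℕ → G
  | 0 => b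
  | k + 1 => a * itc a b k * a⁻¹ * (itc a b k)⁻¹

private theorem sd_inv {k : ℕ} {A B : Mat (k + 1)} (hAB : A * B = 1) (hA : ‖A - 1‖ ≤ 1 / 8) :
    ‖B‖ ≤ 8 / 7 := by
  have h1 : B = 1 - (A - 1) * B := by
    rw [Matrix.sub_mul, hAB, Matrix.one_mul]
    abel
  have h2 : ‖B‖ ≤ 1 + 1 / 8 * ‖B‖ := by
    calc ‖B‖ = ‖1 - (A - 1) * B‖ := by rw [← h1]
      _ ≤ ‖(1 : Mat (k + 1))‖ + ‖(A - 1) * B‖ := norm_sub_le _ _
      _ ≤ 1 + 1 / 8 * ‖B‖ := by
          rw [norm_one]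
          have := norm_mul_le (A - 1) B
          have := mul_le_mul_of_nonneg_right hA (norm_nonneg B)
          linarith
  linarith

private theorem sd_comm {k : ℕ} {A A' B B' : Mat (k + 1)} (hA : A * A' = 1) (hB : B * B' = 1)
    (hA1 : ‖A - 1‖ ≤ 1 / 8) (hB1 : ‖B - 1‖ ≤ 1 / 8) :
    ‖A * B * A' * B' - 1‖ ≤ 1 / 2 * ‖B - 1‖ := by
  have hA2 := sd_inv hA hA1
  have hB2 := sd_inv hB hB1
  have h1 : A * B * A' * B' - 1 = ((A - 1) * (B - 1) - (B - 1) * (A - 1)) * A' * B' := by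
    have e1 : (A - 1) * (B - 1) - (B - 1) * (A - 1) = A * B - B * A := by noncomm_ring
    rw [e1, Matrix.sub_mul, Matrix.sub_mul]
    congr 1
    rw [Matrix.mul_assoc B A A', hA, Matrix.mul_one, hB]
  have h2 : ‖(A - 1) * (B - 1) - (B - 1) * (A - 1)‖ ≤ 1 / 4 * ‖B - 1‖ := by
    have e1 := norm_mul_le (A - 1) (B - 1)
    have e2 := norm_mul_le (B - 1) (A - 1)
    have e3 := norm_sub_le ((A - 1) * (B - 1)) ((B - 1) * (A - 1))
    have e4 := mul_le_mul_of_nonneg_right hA1 (norm_nonneg (B - 1))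
    linarith
  rw [h1]
  calc ‖((A - 1) * (B - 1) - (B - 1) * (A - 1)) * A' * B'‖
      ≤ ‖(A - 1) * (B - 1) - (B - 1) * (A - 1)‖ * ‖A'‖ * ‖B'‖ :=
        (norm_mul_le _ _).trans (mul_le_mul_of_nonneg_right (norm_mul_le _ _) (norm_nonneg _))
    _ ≤ 1 / 4 * ‖B - 1‖ * (8 / 7) * (8 / 7) := by gcongr
    _ ≤ 1 / 2 * ‖B - 1‖ := by
        have := norm_nonneg (B - 1)
        nlinarith

theorem itc_small {G : Type*} [Group G] {k : ℕ} (σ : G →* Mat (k + 1)) {a b : G}
    (ha : ‖σ a - 1‖ ≤ 1 / 8) (hb : ‖σ b - 1‖ ≤ 1 / 8) (j : ℕ) :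
    ‖σ (itc a b j) - 1‖ ≤ (1 / 2) ^ j * (1 / 8) := by
  have hinv : ∀ g : G, σ g * σ g⁻¹ = 1 := by
    intro g
    rw [← map_mul, mul_inv_cancel, map_one]
  induction j with
  | zero =>
    rw [pow_zero, one_mul]
    exact hb
  | succ j ih =>
    have h1 : ‖σ (itc a b j) - 1‖ ≤ 1 / 8 := by
      refine ih.trans ?_
      have : ((1 : ℝ) / 2) ^ j ≤ 1 := pow_le_one₀ (by norm_num) (by norm_num)
      linarith
    have h2 : σ (itc a b (j + 1)) = σ a * σ (itc a b j) * σ a⁻¹ * σ (itc a b j)⁻¹ := by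
      rw [itc, map_mul, map_mul, map_mul]
    rw [h2]
    refine (sd_comm (hinv a) (hinv _) ha h1).trans ?_
    rw [pow_succ]
    linarith

/-- The representation seen from the point `g e`. -/
noncomputable def frm {Γ : Subgroup (SUGroup m)} (g : SUGroup n) (ρ : Γ →* Mat (n + 1)) :
    Γ →* Mat (n + 1) where
  toFun γ := (g⁻¹).toMatrix * ρ γ * g.toMatrix
  map_one' := by
    rw [map_one, Matrix.mul_one, toMatrix_inv_mul]
  map_mul' a b := by
    rw [map_mul]
    have h := toMatrix_mul_inv g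
    calc (g⁻¹).toMatrix * (ρ a * ρ b) * g.toMatrix
        = (g⁻¹).toMatrix * ρ a * (g.toMatrix * (g⁻¹).toMatrix) * ρ b * g.toMatrix := by
          rw [h, Matrix.mul_one]
          simp only [Matrix.mul_assoc]
      _ = _ := by simp only [Matrix.mul_assoc]

section data

variable {Γ : Subgroup (SUGroup m)} {ρ : Γ →* Mat (n + 1)} {f : Vec m → Vec n}

theorem frm_apply (g : SUGroup n) (γ : Γ) :
    frm g ρ γ = (g⁻¹).toMatrix * ρ γ * g.toMatrix := rfl

theorem frm_uj (hU : UJ ρ) (g : SUGroup n) (γ : Γ) :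
    (frm g ρ γ)ᴴ * J n * frm g ρ γ = J n := by
  rw [frm_apply, conjTranspose_mul, conjTranspose_mul]
  have h1 : ((g⁻¹).toMatrix)ᴴ * J n * (g⁻¹).toMatrix = J n := pres g⁻¹
  have h2 : (g.toMatrix)ᴴ * J n * g.toMatrix = J n := pres g
  calc (g.toMatrix)ᴴ * ((ρ γ)ᴴ * ((g⁻¹).toMatrix)ᴴ) * J n * ((g⁻¹).toMatrix * ρ γ * g.toMatrix)
      = (g.toMatrix)ᴴ * ((ρ γ)ᴴ * (((g⁻¹).toMatrix)ᴴ * J n * (g⁻¹).toMatrix) * ρ γ) *
          g.toMatrix := by simp only [Matrix.mul_assoc]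
    _ = J n := by rw [h1, hU, h2]

theorem frm_disp (g : SUGroup n) (γ : Γ) :
    cc (base n) (frm g ρ γ *ᵥ base n) = cc (act g (base n)) (ρ γ *ᵥ act g (base n)) := by
  have h1 : frm g ρ γ *ᵥ base n = act g⁻¹ (ρ γ *ᵥ act g (base n)) := by
    rw [frm_apply, act, act, mulVec_mulVec, mulVec_mulVec, Matrix.mul_assoc]
  rw [h1, ← cc_act g (base n), ← act_mul, mul_inv_cancel, act_one]

/-- If two elements are near `1` in one frame, an iterated commutator is trivial. -/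
theorem itc_one (hP : Prp ρ) (hTor : Tor Γ) (g : SUGroup n) {a b : Γ}
    (ha : ‖frm g ρ a - 1‖ ≤ 1 / 8) (hb : ‖frm g ρ b - 1‖ ≤ 1 / 8) : ∃ k : ℕ, itc a b k = 1 := by
  have h1 := itc_small (frm g ρ) ha hb
  -- all iterated commutators are in a finite set
  obtain ⟨C, hC⟩ : ∃ C : ℝ, C = ‖g.toMatrix‖ * 2 * ‖(g⁻¹).toMatrix‖ := ⟨_, rfl⟩
  have h2 : ∀ k, ‖ρ (itc a b k)‖ ≤ C := by
    intro k
    have e1 : ρ (itc a b k) = g.toMatrix * frm g ρ (itc a b k) * (g⁻¹).toMatrix := by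
      rw [frm_apply]
      have e2 := toMatrix_mul_inv g
      calc ρ (itc a b k) = (g.toMatrix * (g⁻¹).toMatrix) * ρ (itc a b k) *
            (g.toMatrix * (g⁻¹).toMatrix) := by rw [e2, Matrix.one_mul, Matrix.mul_one]
        _ = _ := by simp only [Matrix.mul_assoc]
    have e3 : ‖frm g ρ (itc a b k)‖ ≤ 2 := by
      have e4 := h1 k
      have e5 : ((1 : ℝ) / 2) ^ k ≤ 1 := pow_le_one₀ (by norm_num) (by norm_num)
      have e6 := norm_le_norm_sub_add (frm g ρ (itc a b k)) 1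
      rw [norm_one] at e6
      linarith
    rw [e1, hC]
    refine (norm_mul_le _ _).trans (mul_le_mul_of_nonneg_right ?_ (norm_nonneg _))
    refine (norm_mul_le _ _).trans (mul_le_mul_of_nonneg_left e3 (norm_nonneg _))
  have hfin := hP C
  -- the smallest nonzero size
  obtain ⟨μ, hμ, hμ'⟩ : ∃ μ : ℝ, 0 < μ ∧ ∀ γ : Γ, ‖ρ γ‖ ≤ C → ‖frm g ρ γ - 1‖ < μ →
      frm g ρ γ = 1 := by
    obtain ⟨S, hS⟩ : ∃ S : Set Γ, S = {γ : Γ | ‖ρ γ‖ ≤ C} ∩ {γ : Γ | frm g ρ γ ≠ 1} := ⟨_, rfl⟩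
    have hSf : S.Finite := by rw [hS]; exact hfin.subset Set.inter_subset_left
    rcases S.eq_empty_or_nonempty with hne | hne
    · refine ⟨1, one_pos, fun γ h3 _ => ?_⟩
      by_contra h4
      have : γ ∈ S := by rw [hS]; exact ⟨h3, h4⟩
      rw [hne] at this
      exact this
    · obtain ⟨γ₀, h3, h4⟩ := hSf.exists_minimalFor (fun γ : Γ => ‖frm g ρ γ - 1‖) S hne
      have h5 : frm g ρ γ₀ ≠ 1 := by rw [hS] at h3; exact h3.2
      refine ⟨‖frm g ρ γ₀ - 1‖, norm_pos_iff.2 (sub_ne_zero.2 h5), fun γ h6 h7 => ?_⟩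
      by_contra h8
      have h9 : γ ∈ S := by rw [hS]; exact ⟨h6, h8⟩
      have h10 := h4 h9 h7.le
      exact absurd h7 (not_lt.2 h10)
  obtain ⟨k, hk⟩ := exists_pow_lt_of_lt_one (show (0 : ℝ) < μ * 8 by positivity)
    (show (1 : ℝ) / 2 < 1 by norm_num)
  have h3 : frm g ρ (itc a b k) = 1 := by
    refine hμ' _ (h2 k) (lt_of_le_of_lt (h1 k) ?_)
    linarith
  have h4 : ρ (itc a b k) = 1 := by
    have e2 := toMatrix_mul_inv g
    calc ρ (itc a b k) = (g.toMatrix * (g⁻¹).toMatrix) * ρ (itc a b k) *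
          (g.toMatrix * (g⁻¹).toMatrix) := by rw [e2, Matrix.one_mul, Matrix.mul_one]
      _ = g.toMatrix * frm g ρ (itc a b k) * (g⁻¹).toMatrix := by
          rw [frm_apply]
          simp only [Matrix.mul_assoc]
      _ = 1 := by rw [h3, Matrix.mul_one, e2]
  refine ⟨k, ?_⟩
  -- the kernel is finite and torsion free
  have h5 : ∀ i : ℕ, ‖ρ (itc a b k ^ i)‖ ≤ 1 := by
    intro i
    rw [map_pow, h4, one_pow, norm_one]
  have h6 : ¬ Function.Injective fun i : ℕ => itc a b k ^ i := by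
    intro hinj
    exact Set.infinite_of_injective_forall_mem hinj (fun i => h5 i) (hP 1)
  rw [Function.not_injective_iff] at h6
  obtain ⟨i, j, hij, hne⟩ := h6
  have h7 : ∃ l : ℕ, 0 < l ∧ itc a b k ^ l = 1 := by
    rcases lt_or_gt_of_ne hne with h | h
    · refine ⟨j - i, by omega, ?_⟩
      have e1 : itc a b k ^ i * itc a b k ^ (j - i) = itc a b k ^ i := by
        rw [← pow_add, show i + (j - i) = j by omega]
        exact hij.symm
      exact mul_eq_left.1 e1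
    · refine ⟨i - j, by omega, ?_⟩
      have e1 : itc a b k ^ j * itc a b k ^ (i - j) = itc a b k ^ j := by
        rw [← pow_add, show j + (i - j) = i by omega]
        exact hij
      exact mul_eq_left.1 e1
  obtain ⟨l, hl, h8⟩ := h7
  have h9 := hTor (itc a b k : Γ) (itc a b k).2 l hl (by
    have := congrArg (Subtype.val) h8
    exact this)
  exact Subtype.ext h9

/-- A transvection fixes only its own line. -/
theorem tv_fix {γ : SUGroup m} {ξ η : Fin m → ℂ} {κ : ℝ} (h : IsTv γ η κ) (hξ : nq ξ = 1)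
    (hs : γ ∈ St ξ) : ξ = η := by
  by_contra hne
  obtain ⟨c, hc⟩ := hs
  rw [tv_act h] at hc
  have h1 : herm (NU.pe η) (NU.pe ξ) ≠ 0 := herm_pe_ne h.1 hξ (Ne.symm hne)
  obtain ⟨d, hd⟩ : ∃ d : ℂ, d = (κ : ℂ) * Complex.I * herm (NU.pe η) (NU.pe ξ) := ⟨_, rfl⟩
  have hd0 : d ≠ 0 := by
    rw [hd]
    exact mul_ne_zero (mul_ne_zero (by exact_mod_cast h.2.1) Complex.I_ne_zero) h1
  rw [← hd] at hc
  -- last coordinate
  have h2 := congrFun hc (Fin.last m)
  rw [Pi.add_apply, Pi.smul_apply, Pi.smul_apply, pe_last, pe_last, smul_eq_mul, smul_eq_mul,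
    mul_one, mul_one] at h2
  have h3 : d • NU.pe η = d • NU.pe ξ := by
    rw [← h2, add_smul, one_smul] at hc
    exact add_left_cancel hc
  have h4 : NU.pe η = NU.pe ξ := by
    have h5 := congrArg (fun v => d⁻¹ • v) h3
    simp only [smul_smul, inv_mul_cancel₀ hd0, one_smul] at h5
    exact h5
  apply hne
  funext i
  have h5 := congrFun h4 i.castSucc
  rw [pe_castSucc, pe_castSucc] at h5
  exact h5.symm

/-- If an iterated commutator with a transvection fixes its line, then the other element fixes it. -/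
theorem itc_fix {a b : SUGroup m} {ξ : Fin m → ℂ} {κ : ℝ} (h : IsTv a ξ κ) (k : ℕ)
    (hs : itc a b k ∈ St ξ) : b ∈ St ξ := by
  have hξ := h.1
  induction k with
  | zero => exact hs
  | succ k ih =>
    refine ih ?_
    obtain ⟨c, hc⟩ : ∃ c, c = itc a b k := ⟨_, rfl⟩
    have h1 : itc a b (k + 1) = a * (c * a * c⁻¹)⁻¹ := by
      rw [itc, hc]
      group
    rw [h1] at hs
    have h2 : c * a * c⁻¹ ∈ St ξ := by
      have h3 := (St ξ).mul_mem ((St ξ).inv_mem h.mem_St) hs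
      rw [inv_mul_cancel_left] at h3
      have h4 := (St ξ).inv_mem h3
      rwa [inv_inv] at h4
    have h3 := tv_fix (h.conj (γ' := c)) hξ h2
    rw [← hc, mem_St hξ]
    exact h3.symm

end data

end Pool.Agent.Lib.MP_5d4057_al.RG
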