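import Pool.Agent.Lib.MP_5d4057_al.RG.SepD

/-!
# RG: uniform separation for lattices

`sep_lat`: the equivariant holomorphic map of a discrete faithful representation of a lattice is uniformly proper.
-/

set_option autoImplicit false

namespace Pool.Agent.Lib.MP_5d4057_al.RG

open Matrix Filter Topology Metric Pool.Agent.Lib.MP_5d4057_al Pool.Agent.Lib.MP_5d4057_al.Hyb
  Pool.Agent.Lib.MP_5d4057_al.HM Pool.Agent.Lib.MP_5d4057_al.HM.Kak Pool.Agent.Lib.MP_5d4057_al.NU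

open scoped ComplexOrder MatrixOrder Matrix.Norms.L2Operator

variable {m n : ℕ}

theorem itc_coe {Γ : Subgroup (SUGroup m)} (a b : Γ) (k : ℕ) :
    ((itc a b k : Γ) : SUGroup m) = itc (a : SUGroup m) (b : SUGroup m) k := by
  induction k with
  | zero => rfl
  | succ k ih =>
    rw [itc, itc, Subgroup.coe_mul, Subgroup.coe_mul, Subgroup.coe_mul, Subgroup.coe_inv,
      Subgroup.coe_inv, ih]

theorem norm_three {A B C : Mat (n + 1)} {a b c : ℝ} (hA : ‖A‖ ≤ a) (hB : ‖B‖ ≤ b)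
    (hC : ‖C‖ ≤ c) : ‖A * B * C‖ ≤ a * b * c := by
  have ha : 0 ≤ a := (norm_nonneg _).trans hA
  have hb : 0 ≤ b := (norm_nonneg _).trans hB
  refine (norm_mul_le _ _).trans (mul_le_mul ?_ hC (norm_nonneg _) (mul_nonneg ha hb))
  exact (norm_mul_le _ _).trans (mul_le_mul hA hB (norm_nonneg _) ha)

section data

variable {Γ : Subgroup (SUGroup m)} {ρ : Γ →* Mat (n + 1)} {f : Vec m → Vec n}

/-- **Points in different cusps.** -/
theorem diff_cusp (hU : UJ ρ) (hP : Prp ρ) (hTor : Tor Γ) (hf : HMap f) (he : Eqv ρ f) (M : ℝ) :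
    ∃ δ : ℝ, 0 < δ ∧ ∀ (a b : Γ) (η₁ η₂ : Fin m → ℂ) (κ₁ κ₂ : ℝ),
      IsTv (a : SUGroup m) η₁ κ₁ → IsTv (b : SUGroup m) η₂ κ₂ → ∀ u ∈ Cone m, ∀ w ∈ Cone m,
        cc u (act (a : SUGroup m) u) ≤ 1 + δ → cc w (act (b : SUGroup m) w) ≤ 1 + δ →
          cc (f u) (f w) ≤ M → η₁ = η₂ := by
  obtain ⟨D, hD⟩ : ∃ D : ℝ, D = 4 * ((n : ℝ) + 1) ^ 2 * (|M| + 1) + 1 := ⟨_, rfl⟩
  have hD0 : 1 ≤ D := by
    rw [hD]
    have : 0 ≤ 4 * ((n : ℝ) + 1) ^ 2 * (|M| + 1) := by positivity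
    linarith
  obtain ⟨δ, hδ, h1⟩ := near_one n (e := 1 / (8 * D)) (by positivity)
  refine ⟨δ, hδ, fun a b η₁ η₂ κ₁ κ₂ ha hb u hu w hw hau hbw hM => ?_⟩
  have hfu : f u ∈ Cone n := hf.maps _ hu
  have hfw : f w ∈ Cone n := hf.maps _ hw
  obtain ⟨g, c, hc, hg⟩ := exists_act_eq hfu
  obtain ⟨g', c', hc', hg'⟩ := exists_act_eq hfw
  -- powers near `1`
  have key : ∀ (γ : Γ) (v : Vec m) (k : SUGroup n) (d : ℂ), d ≠ 0 → v ∈ Cone m →
      d • act k (base n) = f v → cc v (act (γ : SUGroup m) v) ≤ 1 + δ →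
        ∃ j : ℕ, 1 ≤ j ∧ ‖frm k ρ (γ ^ j) - 1‖ < 1 / (8 * D) := by
    intro γ v k d hd hv hk hγ
    have h2 := (sc_disp hf he γ hv).trans hγ
    rw [← hk, mulVec_smul, cc_smul_left hd, cc_smul_right hd, ← frm_disp] at h2
    obtain ⟨j, hj, h3⟩ := h1 _ (frm_uj hU k γ) h2
    refine ⟨j, hj, ?_⟩
    rw [map_pow]
    exact h3
  obtain ⟨i, hi, hA⟩ := key a u g c hc hu hg.symm hau
  obtain ⟨j, hj, hB⟩ := key b w g' c' hc' hw hg'.symm hbw
  have hA' : ‖frm g ρ (a ^ i) - 1‖ ≤ 1 / 8 := by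
    refine hA.le.trans ?_
    rw [div_le_div_iff₀ (by positivity) (by norm_num)]
    linarith
  -- change of frame
  obtain ⟨h, hh⟩ : ∃ h, h = g⁻¹ * g' := ⟨_, rfl⟩
  have hch : ch h ^ 2 ≤ M := by
    rw [hh, ← sc_orbit]
    rw [hg, hg', cc_smul_left hc, cc_smul_right hc'] at hM
    exact hM
  have hfr : frm g ρ (b ^ j) - 1 = h.toMatrix * (frm g' ρ (b ^ j) - 1) * (h⁻¹).toMatrix := by
    have e1 : h.toMatrix * (h⁻¹).toMatrix = 1 := toMatrix_mul_inv h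
    have e2 : g'.toMatrix * (g'⁻¹).toMatrix = 1 := toMatrix_mul_inv g'
    have e3 : h.toMatrix = (g⁻¹).toMatrix * g'.toMatrix := by rw [hh, toMatrix_mul]
    have e4 : (h⁻¹).toMatrix = (g'⁻¹).toMatrix * g.toMatrix := by
      rw [hh, _root_.mul_inv_rev, inv_inv, toMatrix_mul]
    rw [Matrix.mul_sub, Matrix.sub_mul, Matrix.mul_one, e1, frm_apply, frm_apply]
    congr 1
    rw [e3, e4]
    calc (g⁻¹).toMatrix * ρ (b ^ j) * g.toMatrix
        = (g⁻¹).toMatrix * (g'.toMatrix * (g'⁻¹).toMatrix) * ρ (b ^ j) *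
            (g'.toMatrix * (g'⁻¹).toMatrix) * g.toMatrix := by
          rw [e2, Matrix.mul_one, Matrix.mul_one]
      _ = _ := by simp only [Matrix.mul_assoc]
  have hB' : ‖frm g ρ (b ^ j) - 1‖ ≤ 1 / 8 := by
    have e1 := lp_norm_le h
    have e2 := lp_norm_le h⁻¹
    rw [ch_inv] at e2
    have e3 := one_le_ch h
    obtain ⟨L, hL⟩ : ∃ L : ℝ, L = 2 * ((n : ℝ) + 1) * ch h := ⟨_, rfl⟩
    rw [← hL] at e1 e2
    have hL0 : 0 ≤ L := (norm_nonneg _).trans e1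
    have e4 : L * L ≤ D := by
      have e5 : ch h ^ 2 ≤ |M| + 1 := hch.trans ((le_abs_self M).trans (by linarith))
      have e6 : 4 * ((n : ℝ) + 1) ^ 2 * ch h ^ 2 ≤ 4 * ((n : ℝ) + 1) ^ 2 * (|M| + 1) :=
        mul_le_mul_of_nonneg_left e5 (by positivity)
      have e7 : L * L = 4 * ((n : ℝ) + 1) ^ 2 * ch h ^ 2 := by
        rw [hL]
        ring
      rw [e7, hD]
      linarith
    rw [hfr]
    refine (norm_three e1 hB.le e2).trans ?_
    have e8 : L * (1 / (8 * D)) * L = (L * L) * (1 / (8 * D)) := by ring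
    have e9 : D * (1 / (8 * D)) = 1 / 8 := by
      have : D ≠ 0 := by linarith
      field_simp
    rw [e8, ← e9]
    exact mul_le_mul_of_nonneg_right e4 (by positivity)
  obtain ⟨k, hk⟩ := itc_one hP hTor g hA' hB'
  have hk' : itc ((a : SUGroup m) ^ i) ((b : SUGroup m) ^ j) k = 1 := by
    have e1 := itc_coe (a ^ i) (b ^ j) k
    rw [hk, Subgroup.coe_pow, Subgroup.coe_pow] at e1
    rw [← e1]
    rfl
  have h2 : IsTv ((a : SUGroup m) ^ i) η₁ (i * κ₁) := tv_pow ha hi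
  have h3 : IsTv ((b : SUGroup m) ^ j) η₂ (j * κ₂) := tv_pow hb hj
  have h4 : (b : SUGroup m) ^ j ∈ St η₁ := itc_fix h2 k (by rw [hk']; exact (St η₁).one_mem)
  exact tv_fix h3 ha.1 h4

/-- Points in the same cusp, in general position. -/
theorem same_cusp_gen (hd : DiscreteTopology Γ) {ξ : Fin m → ℂ} {z : SUGroup m} {κ : ℝ}
    (hc : Cusp Γ ξ z κ) (hU : UJ ρ) (hP : Prp ρ) (hf : HMap f) (he : Eqv ρ f) (M : ℝ) :
    ∃ C : ℝ, ∀ v ∈ Cone m, ∀ w ∈ Cone m, 1 ≤ yp (NU.pe ξ) v → 1 ≤ yp (NU.pe ξ) w →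
      cc (f v) (f w) ≤ M → cc v w ≤ C := by
  have hξ := hc.par.1
  obtain ⟨R, hR⟩ := hc.cob
  obtain ⟨Δ, hΔ, -, hΔ1, R₂, hR₂⟩ := exists_unip hd hc.par hR
  have hu : ∀ x ∈ Δ, Un ξ x := fun x hx => ⟨(hΔ hx).2, hΔ1 x hx⟩
  have hΔΓ : Δ ≤ Γ := fun x hx => (hΔ hx).1
  obtain ⟨D, hD⟩ : ∃ D : ℝ, D = (R₂ + 2) ^ 2 := ⟨_, rfl⟩
  obtain ⟨C, hC, h1⟩ := same_cusp hU hP hf he hc.mem hc.tv hu hΔΓ hR₂ (16 * D ^ 2 * M)
  -- standard position
  have key : ∀ v ∈ Cone m, 1 ≤ yp (NU.pe ξ) v → ∃ (s : ℝ) (δ : SUGroup m), 0 ≤ s ∧ δ ∈ Δ ∧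
      cc (xs ξ s) (act δ v) ≤ D := by
    intro v hv hy
    obtain ⟨h, hh, c, hc0, hvc⟩ := exists_ps_fl hξ hv
    obtain ⟨δ, hδ, hδR⟩ := hR₂ h hh
    obtain ⟨s, hs⟩ : ∃ s, s = Real.log (yp (NU.pe ξ) v) / 2 := ⟨_, rfl⟩
    have hs0 : 0 ≤ s := by
      rw [hs]
      have := Real.log_nonneg hy
      positivity
    refine ⟨s, δ, hs0, hδ, ?_⟩
    rw [← hs] at hvc
    have e1 : cc (xs ξ s) (act δ v) = ch (fl ξ (-s) * (δ * h) * fl ξ s) ^ 2 := by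
      rw [hvc, act_smul, cc_smul_right hc0, ← act_mul, xs, sc_orbit, fl_neg]
      congr 2
      group
    have hps : δ * h ∈ PS ξ := (PS ξ).mul_mem (hu δ hδ).1 hh
    have e2 := ch_flow_ps hξ hps s s
    rw [sub_self, Real.cosh_zero] at e2
    have e3 : Real.exp (-(s + s)) ≤ 1 := Real.exp_le_one_iff.2 (by linarith)
    have e4 := one_le_ch (δ * h)
    have e5 := one_le_ch (fl ξ (-s) * (δ * h) * fl ξ s)
    rw [e1, hD]
    refine pow_le_pow_left₀ (by linarith) (e2.trans ?_) 2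
    have e6 : Real.exp (-(s + s)) * (ch (δ * h) + 1) ≤ 1 * (R₂ + 1) := by gcongr
    linarith
  refine ⟨16 * D ^ 2 * C, fun v hv w hw hyv hyw hM => ?_⟩
  obtain ⟨s, d₁, hs, hd₁, h2⟩ := key v hv hyv
  obtain ⟨t, d₂, ht, hd₂, h3⟩ := key w hw hyw
  obtain ⟨γ, hγ⟩ : ∃ γ : Γ, γ = ⟨d₁ * d₂⁻¹, Γ.mul_mem (hΔΓ hd₁) (Γ.inv_mem (hΔΓ hd₂))⟩ := ⟨_, rfl⟩
  have hγc : (γ : SUGroup m) = d₁ * d₂⁻¹ := by rw [hγ]
  have hγu : Un ξ (γ : SUGroup m) := by
    rw [hγc]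
    exact (hu d₁ hd₁).mul hξ ((hu d₂ hd₂).inv hξ)
  have hxs := xs_mem ξ s
  have hxt := xs_mem ξ t
  have hdv : act d₁ v ∈ Cone m := act_mem _ hv
  have hdw : act d₁ w ∈ Cone m := act_mem _ hw
  have hgx : act (γ : SUGroup m) (xs ξ t) ∈ Cone m := act_mem _ hxt
  have h4 : cc (act (γ : SUGroup m) (xs ξ t)) (act d₁ w) ≤ D := by
    have e1 : act d₁ w = act (γ : SUGroup m) (act d₂ w) := by
      rw [← act_mul, hγc, inv_mul_cancel_right]
    rw [e1, cc_act]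
    exact h3
  have hD1 : 1 ≤ D := (one_le_cc hxs hdv).trans h2
  have h5 : cc (f (xs ξ s)) (f (act (γ : SUGroup m) (xs ξ t))) ≤ 16 * D ^ 2 * M := by
    have m1 := hf.maps _ hxs
    have m2 := hf.maps _ hdv
    have m3 := hf.maps _ hdw
    have m4 := hf.maps _ hgx
    have e1 := sc_tri m1 m2 m4
    have e2 := sc_tri m2 m3 m4
    have e3 := (hf.cc_le hxs hdv).trans h2
    have e4 : cc (f (act d₁ v)) (f (act d₁ w)) ≤ M := by
      have e5 := he.cc hU ⟨d₁, hΔΓ hd₁⟩ hv hw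
      rw [e5]
      exact hM
    have e5 := (hf.cc_le hgx hdw).trans h4
    rw [sc_comm] at e5
    have o1 := one_le_cc m1 m2
    have o2 := one_le_cc m2 m4
    have o3 := one_le_cc m2 m3
    have o4 := one_le_cc m3 m4
    have hM0 : 0 ≤ M := by linarith
    calc cc (f (xs ξ s)) (f (act (γ : SUGroup m) (xs ξ t)))
        ≤ 4 * cc (f (xs ξ s)) (f (act d₁ v)) *
            cc (f (act d₁ v)) (f (act (γ : SUGroup m) (xs ξ t))) := e1
      _ ≤ 4 * D * (4 * M * D) := by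
          have e6 : cc (f (act d₁ v)) (f (act (γ : SUGroup m) (xs ξ t))) ≤ 4 * M * D := by
            refine e2.trans ?_
            gcongr
          gcongr
      _ = _ := by ring
  have h6 := h1 s t hs ht γ hγu h5
  have e1 := sc_tri hdv hxs hdw
  have e2 := sc_tri hxs hgx hdw
  rw [cc_act, sc_comm (act d₁ v)] at e1
  have o1 := one_le_cc hxs hdv
  have o2 := one_le_cc hxs hdw
  have o3 := one_le_cc hxs hgx
  have o4 := one_le_cc hgx hdw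
  calc cc v w ≤ 4 * cc (xs ξ s) (act d₁ v) * cc (xs ξ s) (act d₁ w) := e1
    _ ≤ 4 * D * (4 * C * D) := by
        have e6 : cc (xs ξ s) (act d₁ w) ≤ 4 * C * D := by
          refine e2.trans ?_
          gcongr
        gcongr
    _ = _ := by ring

end data

end Pool.Agent.Lib.MP_5d4057_al.RG
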