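import Pool.Agent.Lib.MP_5d4057_al.RG.Defs

/-!
# RG 3: the derivative of the metric in terms of the lift

`a ξ = prj (x v) (pz x v ξ)`, `b ξ = prj (x v) (pb x v ξ)` (the `(1,0)` and `(0,1)` parts of the
derivative of the harmonic map). `F = J - (2/q x) x x^*` gives (compare `hasZ_std`)
`pz F ξ = (-2/q x) • (a ξ (x)^* + x (b ξ)^*)`.
COMMUTATION (`Harm.comm`): `(a ξ x^* + x (b ξ)^*) F⁻¹ (a η x^* + x (b η)^*)`, with `F⁻¹ = J F J`,
`x^* F⁻¹ = - x^* J`, `x^* F⁻¹ x = -q x`, `(b ξ)^* F⁻¹ x = 0`, `x^* F⁻¹ a = 0`, `(b ξ)^* F⁻¹ a η = herm (b ξ) (a η)`: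
`= -q x • a ξ (b η)^* + herm (b ξ) (a η) • x x^*`. Compare the part orthogonal to `x`.
ALTERNATIVE at a point where no direction is degenerate: if `b η ≠ 0` and `a ≠ 0` then
`a ξ (b η)^* = a η (b ξ)^*` for all `ξ` gives `a η ≠ 0`, `a ξ = λ(ξ) a η`, `b ξ = conj λ(ξ) b η` with `λ`
linear; `λ` and `ξ ↦ ξ - (component of v)` have a common zero `ξ ∉ ℂ v` since `2 ≤ m`: then `pz F ξ = 0`.
-/

set_option autoImplicit false

namespace Pool.Agent.Lib.MP_5d4057_al.RG

open Matrix Filter Topology Pool.Agent.Lib.MP_5d4057_al Pool.Agent.Lib.MP_5d4057_al.Hyb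
  Pool.Agent.Lib.MP_5d4057_al.HM Pool.Agent.Lib.MP_5d4057_al.RC

open scoped ComplexOrder MatrixOrder Matrix.Norms.L2Operator

variable {m n : ℕ}

/-- the `(1,0)` part of the derivative -/
noncomputable def da (x : Vec m → Vec n) (v ξ : Vec m) : Vec n := prj (x v) (pz x v ξ)

/-- the `(0,1)` part of the derivative -/
noncomputable def db (x : Vec m → Vec n) (v ξ : Vec m) : Vec n := prj (x v) (pb x v ξ)

theorem Lft.diffAt {F : Vec m → Mat (n + 1)} {x : Vec m → Vec n} (hx : Lft F x) {v : Vec m}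
    (hv : v ∈ Cone m) : DifferentiableAt ℝ x v :=
  (hx.cd.contDiffAt (mem_nhds_cone hv)).differentiableAt (by norm_num)

private theorem th_starV {x : Vec m → Vec n} {v ξ : Vec m} {a b : Vec n} (h : HasZ x v ξ a b) :
    HasZ (fun w => star (x w)) v ξ (star b) (star a) :=
  h.comp_anti (F := Vec n) (starL' ℝ : Vec n ≃L[ℝ] Vec n).toContinuousLinearMap
    (by
      intro x
      show star (Complex.I • x) = -(Complex.I • star x)
      rw [star_smul]
      simp)

theorem hasZ_vvx {x : Vec m → Vec n} {v ξ : Vec m} {a b : Vec n} (h : HasZ x v ξ a b) :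
    HasZ (fun w => vecMulVec (x w) (star (x w))) v ξ
      (vecMulVec (x v) (star b) + vecMulVec a (star (x v)))
      (vecMulVec (x v) (star a) + vecMulVec b (star (x v))) :=
  h.bilin (th_starV h) (vmL n)

theorem hasZ_qx {x : Vec m → Vec n} {v ξ : Vec m} {a b : Vec n} (h : HasZ x v ξ a b) :
    HasZ (fun w => (q (x w) : ℂ)) v ξ (herm (x v) a + herm b (x v))
      (herm (x v) b + herm a (x v)) := by
  have h1 := (th_starV h).bilin h (hmL n)
  simp only [hmL_apply] at h1
  refine h1.congr (Eventually.of_forall fun w => ?_)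
  exact (herm_self (x w)).symm

/-- The derivative of the metric of a map. -/
theorem hasZ_stdx {x : Vec m → Vec n} {v ξ : Vec m} {a b : Vec n} (h : HasZ x v ξ a b)
    (hv : x v ∈ Cone n) :
    HasZ (fun w => std (x w)) v ξ
      ((-2 * (q (x v) : ℂ)⁻¹) • (vecMulVec (prj (x v) a) (star (x v)) +
        vecMulVec (x v) (star (prj (x v) b))))
      ((-2 * (q (x v) : ℂ)⁻¹) • (vecMulVec (prj (x v) b) (star (x v)) +
        vecMulVec (x v) (star (prj (x v) a)))) := by
  have hq := q_ne hv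
  have h1 := (hasZ_const (J n) v ξ).add ((((hasZ_qx h).inv hq).const_smul (-2)).smul (hasZ_vvx h))
  refine HasZ.of_eq h1 ?_ ?_
  · ext i j
    simp only [prj, Matrix.smul_apply, Matrix.add_apply, vecMulVec_apply, Pi.sub_apply,
      Pi.smul_apply, smul_eq_mul, Matrix.zero_apply]
    rw [← prj, star_prj]
    simp only [Pi.sub_apply, Pi.smul_apply, smul_eq_mul]
    field_simp
    ring
  · ext i j
    simp only [prj, Matrix.smul_apply, Matrix.add_apply, vecMulVec_apply, Pi.sub_apply,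
      Pi.smul_apply, smul_eq_mul, Matrix.zero_apply]
    rw [← prj, star_prj]
    simp only [Pi.sub_apply, Pi.smul_apply, smul_eq_mul]
    field_simp
    ring

theorem Lft.pz_eq {F : Vec m → Mat (n + 1)} {x : Vec m → Vec n} (hx : Lft F x) {v : Vec m}
    (hv : v ∈ Cone m) (ξ : Vec m) : pz F v ξ = (-2 * (q (x v) : ℂ)⁻¹) •
      (vecMulVec (da x v ξ) (star (x v)) + vecMulVec (x v) (star (db x v ξ))) := by
  have h1 := (hasZ_stdx (hasZ (hx.diffAt hv) ξ) (hx.cone v hv)).pz
  rw [← da, ← db] at h1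
  rw [← h1]
  exact pz_congr (Filter.eventually_of_mem (mem_nhds_cone hv) fun w hw => hx.eq w hw) ξ

private theorem add_vmm (k : ℂ) (a b x a' b' : Vec n) (hx : x ∈ Cone n) (ha' : herm x a' = 0)
    (hb : herm b x = 0) :
    (k • (vecMulVec a (star x) + vecMulVec x (star b))) * (std x)⁻¹ *
      (k • (vecMulVec a' (star x) + vecMulVec x (star b'))) =
    (k * k) • (-(q x : ℂ) • vecMulVec a (star b') + herm b a' • vecMulVec x (star x)) := by
  rw [Matrix.smul_mul, Matrix.smul_mul, Matrix.mul_smul, Matrix.mul_assoc, Matrix.mul_add,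
    mul_vecMulVec, mul_vecMulVec, std_inv_mulVec hx ha', std_inv_self hx, Matrix.add_mul,
    Matrix.mul_add, Matrix.mul_add, vmm, vmm, vmm, vmm, dotProduct_neg, dotProduct_neg]
  rw [show star x ⬝ᵥ (J n *ᵥ a') = 0 from ha', show star b ⬝ᵥ (J n *ᵥ x) = 0 from hb,
    show star x ⬝ᵥ (J n *ᵥ x) = (q x : ℂ) from herm_self x,
    show star b ⬝ᵥ (J n *ᵥ a') = herm b a' from rfl]
  module

theorem Lft.comm {F : Vec m → Mat (n + 1)} (hF : Harm F) {x : Vec m → Vec n} (hx : Lft F x)
    {v : Vec m} (hv : v ∈ Cone m) (ξ η : Vec m) :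
    vecMulVec (da x v ξ) (star (db x v η)) = vecMulVec (da x v η) (star (db x v ξ)) := by
  have hX := hx.cone v hv
  have hq := q_ne hX
  have ha : ∀ ζ, herm (x v) (da x v ζ) = 0 := fun ζ => herm_prj hX _
  have hb : ∀ ζ, herm (db x v ζ) (x v) = 0 := fun ζ => herm_prj' hX _
  have h1 := hF.comm v hv ξ η
  rw [dz_eq, dz_eq, hx.pz_eq hv, hx.pz_eq hv, hx.eq v hv, add_vmm _ _ _ _ _ _ hX (ha η) (hb ξ),
    add_vmm _ _ _ _ _ _ hX (ha ξ) (hb η)] at h1
  have hk : (-2 * (q (x v) : ℂ)⁻¹) * (-2 * (q (x v) : ℂ)⁻¹) ≠ 0 := by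
    have : (q (x v) : ℂ)⁻¹ ≠ 0 := inv_ne_zero hq
    exact mul_ne_zero (mul_ne_zero (by norm_num) this) (mul_ne_zero (by norm_num) this)
  have h2 := smul_right_injective _ hk h1
  have hX0 : x v ≠ 0 := by
    intro h0
    apply hq
    rw [← herm_self, h0, herm]
    simp
  have hh : herm (db x v ξ) (da x v η) = herm (db x v η) (da x v ξ) := by
    have h3 := congrArg (fun M : Mat (n + 1) => M *ᵥ (J n *ᵥ x v)) h2
    simp only [add_mulVec, smul_mulVec, vmv] at h3
    rw [show star (x v) ⬝ᵥ (J n *ᵥ x v) = (q (x v) : ℂ) from herm_self _,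
      show star (db x v η) ⬝ᵥ (J n *ᵥ x v) = 0 from herm_prj' hX _,
      show star (db x v ξ) ⬝ᵥ (J n *ᵥ x v) = 0 from herm_prj' hX _] at h3
    have h4 : (((herm (db x v ξ) (da x v η)) - herm (db x v η) (da x v ξ)) * (q (x v) : ℂ)) •
        x v = 0 := by
      have h5 := sub_eq_zero.2 h3
      rw [← h5]
      module
    rcases smul_eq_zero.1 h4 with h5 | h5
    · rcases mul_eq_zero.1 h5 with h6 | h6
      · exact sub_eq_zero.1 h6
      · exact absurd h6 hq
    · exact absurd h5 hX0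
  rw [hh] at h2
  have h3 := add_right_cancel h2
  exact smul_right_injective _ (neg_ne_zero.2 hq) h3

/-- The `(0,1)` derivative is antilinear in the direction. -/
theorem pb_add_dir' {E : Type} [NormedAddCommGroup E] [NormedSpace ℂ E] (f : Vec m → E)
    (v a b : Vec m) : pb f v (a + b) = pb f v a + pb f v b := by
  rw [pb, pb, pb, smul_add Complex.I a b, map_add, map_add]
  module

theorem pb_smul_dir' {E : Type} [NormedAddCommGroup E] [NormedSpace ℂ E] (f : Vec m → E)
    (v a : Vec m) (c : ℂ) : pb f v (c • a) = star c • pb f v a := by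
  have hc : (c : ℂ) = (c.re : ℂ) + (c.im : ℂ) * Complex.I := (Complex.re_add_im c).symm
  have hc' : star c = (c.re : ℂ) - (c.im : ℂ) * Complex.I := by
    rw [Complex.star_def]
    apply Complex.ext <;> simp
  have h1 : c • a = (c.re : ℝ) • a + (c.im : ℝ) • (Complex.I • a) := by
    conv_lhs => rw [hc]
    rw [add_smul, mul_smul]
    rfl
  have h2 : Complex.I • c • a = (c.re : ℝ) • (Complex.I • a) + (c.im : ℝ) • ((-1 : ℝ) • a) := by
    have h3 : ∀ (r : ℝ) (x : Vec m), r • x = (r : ℂ) • x := fun _ _ => rfl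
    rw [h3, h3, h3, smul_smul, smul_smul, smul_smul, ← add_smul]
    congr 1
    conv_lhs => rw [hc]
    push_cast
    linear_combination (c.im : ℂ) * Complex.I_mul_I
  have h3 : ∀ (r : ℝ) (x : Vec m), fderiv ℝ f v (r • x) = (r : ℂ) • fderiv ℝ f v x :=
    fun r x => (fderiv ℝ f v).map_smul r x
  rw [pb, pb, h2, h1, map_add, map_add, h3, h3, h3, h3, h3, hc']
  simp only [smul_add, smul_smul]
  have e1 : ((c.re : ℂ) - (c.im : ℂ) * Complex.I) * (1 / 2 * Complex.I) =
      1 / 2 * (Complex.I * (c.re : ℂ)) + 1 / 2 * (c.im : ℂ) := by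
    linear_combination (-1 / 2 : ℂ) * (c.im : ℂ) * Complex.I_mul_I
  have e2 : (1 / 2 : ℂ) * (Complex.I * ((c.im : ℂ) * ((-1 : ℝ) : ℂ))) =
      -(1 / 2 * (Complex.I * (c.im : ℂ))) := by
    push_cast
    ring
  rw [e1, e2]
  module

private theorem th_prj_add (w ξ η : Vec n) : prj w (ξ + η) = prj w ξ + prj w η := by
  rw [prj, prj, prj, herm_add_right]
  module

private theorem th_prj_smul (w ξ : Vec n) (c : ℂ) : prj w (c • ξ) = c • prj w ξ := by
  rw [prj, prj, herm_smul_right]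
  module

private theorem th_ne_zero {v : Vec m} (hv : v ∈ Cone m) : v ≠ 0 := by
  rintro rfl
  apply q_ne hv
  rw [← herm_self, herm]
  simp

/-- A coordinate of the conjugate of the `(0,1)` part. -/
noncomputable def dbL (x : Vec m → Vec n) (v : Vec m) (j : Fin (n + 1)) : Vec m →ₗ[ℂ] ℂ where
  toFun ξ := star (db x v ξ j)
  map_add' ξ η := by
    rw [db, db, db, pb_add_dir', th_prj_add, Pi.add_apply, star_add]
  map_smul' c ξ := by
    rw [db, db, pb_smul_dir', th_prj_smul, Pi.smul_apply, smul_eq_mul, star_mul', star_star]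
    rfl

theorem Lft.alt (hm : 2 ≤ m) {F : Vec m → Mat (n + 1)} (hF : Harm F) {x : Vec m → Vec n}
    (hx : Lft F x) {v : Vec m} (hv : v ∈ Cone m)
    (hfull : ∀ ξ : Vec m, pz F v ξ = 0 → ∃ c : ℂ, ξ = c • v) :
    (∀ ξ, da x v ξ = 0) ∨ ∀ ξ, db x v ξ = 0 := by
  by_contra hcon
  push Not at hcon
  obtain ⟨⟨ξ₀, h1⟩, η, h2⟩ := hcon
  have hc := fun ξ => hx.comm hF hv ξ η
  obtain ⟨i, hi⟩ : ∃ i, da x v ξ₀ i ≠ 0 := Function.ne_iff.1 h1
  obtain ⟨j, hj⟩ : ∃ j, db x v η j ≠ 0 := Function.ne_iff.1 h2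
  have hj' : star (db x v η j) ≠ 0 := star_ne_zero.2 hj
  have hη : da x v η ≠ 0 := by
    intro h0
    have h3 := congrFun (congrFun (hc ξ₀) i) j
    rw [h0] at h3
    simp only [vecMulVec_apply, Pi.star_apply, Pi.zero_apply, zero_mul] at h3
    exact mul_ne_zero hi hj' h3
  obtain ⟨k, hk⟩ : ∃ k, da x v η k ≠ 0 := Function.ne_iff.1 hη
  have hker : LinearMap.ker (dbL x v j) ≤ Submodule.span ℂ {v} := by
    intro ξ hξ
    have h3 : star (db x v ξ j) = 0 := hξ
    have h4 : da x v ξ = 0 := by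
      ext l
      have h5 := congrFun (congrFun (hc ξ) l) j
      simp only [vecMulVec_apply, Pi.star_apply, h3, mul_zero] at h5
      exact (mul_eq_zero.1 h5).resolve_right hj'
    have h5 : db x v ξ = 0 := by
      ext l
      have h6 := congrFun (congrFun (hc ξ) k) l
      rw [h4] at h6
      simp only [vecMulVec_apply, Pi.star_apply, Pi.zero_apply, zero_mul] at h6
      exact star_eq_zero.1 ((mul_eq_zero.1 h6.symm).resolve_left hk)
    have h6 : pz F v ξ = 0 := by
      rw [hx.pz_eq hv, h4, h5]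
      ext a b
      simp
    obtain ⟨c, rfl⟩ := hfull ξ h6
    exact Submodule.smul_mem _ _ (Submodule.mem_span_singleton_self v)
  have h3 : Module.finrank ℂ (LinearMap.ker (dbL x v j)) ≤ 1 :=
    (Submodule.finrank_mono hker).trans (finrank_span_singleton (th_ne_zero hv)).le
  have h4 := LinearMap.finrank_range_add_finrank_ker (dbL x v j)
  have h5 : Module.finrank ℂ (LinearMap.range (dbL x v j)) ≤ 1 :=
    (Submodule.finrank_le _).trans (by simp)
  have h6 : Module.finrank ℂ (Vec m) = m + 1 := by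
    simp [Vec]
  omega

/-- `pz F w` as a real linear map. -/
noncomputable def pzC {E : Type} [NormedAddCommGroup E] [NormedSpace ℂ E] (f : Vec m → E)
    (w : Vec m) : Vec m →L[ℝ] E :=
  (1 / 2 : ℂ) • (fderiv ℝ f w - Complex.I • (fderiv ℝ f w).comp
    ((Complex.I • ContinuousLinearMap.id ℂ (Vec m)).restrictScalars ℝ))

theorem pzC_apply {E : Type} [NormedAddCommGroup E] [NormedSpace ℂ E] (f : Vec m → E)
    (w ξ : Vec m) : pzC f w ξ = pz f w ξ := rfl

/-- `pb F w` as a real linear map. -/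
noncomputable def pbC {E : Type} [NormedAddCommGroup E] [NormedSpace ℂ E] (f : Vec m → E)
    (w : Vec m) : Vec m →L[ℝ] E :=
  (1 / 2 : ℂ) • (fderiv ℝ f w + Complex.I • (fderiv ℝ f w).comp
    ((Complex.I • ContinuousLinearMap.id ℂ (Vec m)).restrictScalars ℝ))

theorem pbC_apply {E : Type} [NormedAddCommGroup E] [NormedSpace ℂ E] (f : Vec m → E)
    (w ξ : Vec m) : pbC f w ξ = pb f w ξ := rfl

theorem continuousAt_pzC {E : Type} [NormedAddCommGroup E] [NormedSpace ℂ E] {f : Vec m → E}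
    (hf : ContDiffOn ℝ 2 f (Cone m)) {v : Vec m} (hv : v ∈ Cone m) :
    ContinuousAt (pzC f) v ∧ ContinuousAt (pbC f) v := by
  have h1 : ContinuousAt (fderiv ℝ f) v :=
    ((hf.contDiffAt (mem_nhds_cone hv)).fderiv_right (m := 1) (by norm_num)).continuousAt
  have h2 : ContinuousAt (fun w => (fderiv ℝ f w).comp
      ((Complex.I • ContinuousLinearMap.id ℂ (Vec m)).restrictScalars ℝ)) v :=
    h1.clm_comp continuousAt_const
  have h3 : ContinuousAt (fun w => Complex.I • (fderiv ℝ f w).comp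
      ((Complex.I • ContinuousLinearMap.id ℂ (Vec m)).restrictScalars ℝ)) v :=
    h2.const_smul Complex.I
  exact ⟨(h1.sub h3).const_smul (1 / 2 : ℂ), (h1.add h3).const_smul (1 / 2 : ℂ)⟩

/-- `herm w` as a real linear map. -/
noncomputable def hmC (w : Vec m) : Vec m →L[ℝ] ℂ := (hmL m (star w)).restrictScalars ℝ

theorem continuous_hmC : Continuous (hmC (m := m)) := by
  have h1 : Continuous fun w : Vec m => hmL m (star w) := (hmL m).continuous.comp continuous_star
  exact (ContinuousLinearMap.restrictScalarsL ℂ (Vec m) ℂ ℝ ℝ).continuous.comp h1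

/-- The condition is open. -/
theorem full_open {F : Vec m → Mat (n + 1)} (hF : Harm F) {v : Vec m} (hv : v ∈ Cone m)
    (hfull : ∀ ξ : Vec m, pz F v ξ = 0 → ∃ c : ℂ, ξ = c • v) :
    ∀ᶠ w in 𝓝 v, ∀ ξ : Vec m, pz F w ξ = 0 → ∃ c : ℂ, ξ = c • w := by
  have h0 : ∀ {w : Vec m}, w ∈ Cone m → pz F w w = 0 := fun {w} hw =>
    (dz_self hF.hom hw ((hF.cd.contDiffAt (mem_nhds_cone hw)).differentiableAt
      (by norm_num))).1
  have h1 : Function.Injective ((pzC F v).prod (hmC v)) := by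
    rw [injective_iff_map_eq_zero]
    intro ξ hξ
    have h2 : pz F v ξ = 0 := congrArg Prod.fst hξ
    have h3 : herm v ξ = 0 := congrArg Prod.snd hξ
    obtain ⟨c, rfl⟩ := hfull ξ h2
    rw [herm_smul_right, herm_self] at h3
    rw [(mul_eq_zero.1 h3).resolve_right (q_ne hv), zero_smul]
  have h2 : ContinuousAt (fun w => (pzC F w).prod (hmC w)) v := by
    have h3 : ContinuousAt (fun w => (pzC F w, hmC w)) v :=
      (continuousAt_pzC hF.cd hv).1.prodMk continuous_hmC.continuousAt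
    exact (ContinuousLinearMap.prodₗᵢ ℝ).continuous.continuousAt.comp h3
  have h3 := h2.eventually (ContinuousLinearMap.isOpen_injective.mem_nhds h1)
  filter_upwards [h3, mem_nhds_cone hv] with w hw hwc ξ hξ
  refine ⟨herm w ξ * (q w : ℂ)⁻¹, ?_⟩
  have h4 : prj w ξ = 0 := by
    apply hw
    rw [map_zero]
    refine Prod.ext ?_ (herm_prj hwc ξ)
    show pz F w (prj w ξ) = 0
    rw [prj, sub_eq_add_neg, ← neg_smul, pz_add_dir, pz_smul_dir, hξ, h0 hwc, smul_zero, add_zero]
  exact sub_eq_zero.1 h4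

theorem continuousAt_prj {x u : Vec m → Vec n} {v : Vec m} (hx : ContinuousAt x v)
    (hu : ContinuousAt u v) (hv : x v ∈ Cone n) :
    ContinuousAt (fun w => prj (x w) (u w)) v := by
  have h0 : Continuous fun p : Vec n × Vec n => herm p.1 p.2 := contDiff_herm.continuous
  have h1 : ContinuousAt (fun w => herm (x w) (u w)) v :=
    ContinuousAt.comp (g := fun p : Vec n × Vec n => herm p.1 p.2) (f := fun w => (x w, u w))
      h0.continuousAt (hx.prodMk hu)
  have h2' : Continuous fun y : Vec n => (q y : ℂ) := contDiff_qc.continuous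
  have h2 : ContinuousAt (fun w => (q (x w) : ℂ)) v :=
    ContinuousAt.comp (g := fun y : Vec n => (q y : ℂ)) (f := x) h2'.continuousAt hx
  have h3 : ContinuousAt (fun w => herm (x w) (u w) * (q (x w) : ℂ)⁻¹) v :=
    h1.mul (h2.inv₀ (q_ne hv))
  have h4 : ContinuousAt (fun w => (herm (x w) (u w) * (q (x w) : ℂ)⁻¹) • x w) v := h3.smul hx
  exact hu.sub h4

theorem Lft.cont_da {F : Vec m → Mat (n + 1)} {x : Vec m → Vec n} (hx : Lft F x) {v : Vec m}
    (hv : v ∈ Cone m) (ξ : Vec m) :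
    ContinuousAt (fun w => da x w ξ) v ∧ ContinuousAt (fun w => db x w ξ) v := by
  obtain ⟨h1, h2⟩ := continuousAt_pzC hx.cd hv
  exact ⟨continuousAt_prj (hx.diffAt hv).continuousAt (h1.clm_apply continuousAt_const)
    (hx.cone v hv), continuousAt_prj (hx.diffAt hv).continuousAt
    (h2.clm_apply continuousAt_const) (hx.cone v hv)⟩

/-- Near a point where no direction is degenerate one of the two parts vanishes. -/
theorem Lft.alt_near (hm : 2 ≤ m) {F : Vec m → Mat (n + 1)} (hF : Harm F) {x : Vec m → Vec n}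
    (hx : Lft F x) {v : Vec m} (hv : v ∈ Cone m)
    (hfull : ∀ ξ : Vec m, pz F v ξ = 0 → ∃ c : ℂ, ξ = c • v) :
    (∀ᶠ w in 𝓝 v, ∀ ξ, da x w ξ = 0) ∨ ∀ᶠ w in 𝓝 v, ∀ ξ, db x w ξ = 0 := by
  have hop := (full_open hF hv hfull).and (mem_nhds_cone hv)
  by_cases ha : ∃ ξ, da x v ξ ≠ 0
  · obtain ⟨ξ, hξ⟩ := ha
    right
    filter_upwards [hop, (hx.cont_da hv ξ).1.eventually_ne hξ] with w hw hne
    exact (hx.alt hm hF hw.2 hw.1).resolve_left fun h => hne (h ξ)
  · push Not at ha
    left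
    obtain ⟨ξ, hξ⟩ : ∃ ξ, db x v ξ ≠ 0 := by
      by_contra hb
      push Not at hb
      have h1 : (⊤ : Submodule ℂ (Vec m)) ≤ Submodule.span ℂ {v} := by
        intro ξ _
        have h2 : pz F v ξ = 0 := by
          rw [hx.pz_eq hv, ha, hb]
          ext a b
          simp
        obtain ⟨c, rfl⟩ := hfull ξ h2
        exact Submodule.smul_mem _ _ (Submodule.mem_span_singleton_self v)
      have h3 : Module.finrank ℂ (⊤ : Submodule ℂ (Vec m)) ≤ 1 :=
        (Submodule.finrank_mono h1).trans (finrank_span_singleton (th_ne_zero hv)).le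
      have h6 : Module.finrank ℂ (Vec m) = m + 1 := by
        simp [Vec]
      rw [finrank_top] at h3
      omega
    filter_upwards [hop, (hx.cont_da hv ξ).2.eventually_ne hξ] with w hw hne
    exact (hx.alt hm hF hw.2 hw.1).resolve_right fun h => hne (h ξ)

end Pool.Agent.Lib.MP_5d4057_al.RG
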